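import Mathlib
import Pool.Agent.helper5.AS.Stmt

/-!
# Symmetric pairs of classical type

Short definitions used by the statement of the result.
-/

set_option autoImplicit false

namespace Pool.Agent.helper49.QAS

open Pool.Agent.helper5.ASQ (Invol)
open Matrix

variable {𝕜 : Type*} [Field 𝕜]

section Matrices

variable {n : ℕ}

/-- the Lie algebra `sl_n`: the matrices with trace zero -/
def slSet (𝕜 : Type*) [Field 𝕜] (n : ℕ) : Set (Matrix (Fin n) (Fin n) 𝕜) := {a | a.trace = 0}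

/-- a nondegenerate form on `𝕜^n` which is symmetric, with `n ≥ 3`, or skew, with `n ≥ 2` -/
def IsForm (J : Matrix (Fin n) (Fin n) 𝕜) : Prop :=
  IsUnit J ∧ ((Jᵀ = J ∧ 3 ≤ n) ∨ (Jᵀ = -J ∧ 2 ≤ n))

/-- the Lie algebra `so_n` or `sp_n`: the matrices which are skew-adjoint for the form `J` -/
def skewSet (J : Matrix (Fin n) (Fin n) 𝕜) : Set (Matrix (Fin n) (Fin n) 𝕜) :=
  {a | aᵀ * J + J * a = 0}

end Matrices

section Factors

variable {h : Type*} [LieRing h] [LieAlgebra 𝕜 h]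

/-- `ρ` is a homomorphism of Lie algebras from `h` to the matrices with the commutator -/
def IsRep {n : ℕ} (ρ : h →ₗ[𝕜] Matrix (Fin n) (Fin n) 𝕜) : Prop :=
  ∀ x y, ρ ⁅x, y⁆ = ρ x * ρ y - ρ y * ρ x

/-- `ρ` is an isomorphism from `h` onto the Lie algebra `P` of matrices -/
def IsIsoOnto {n : ℕ} (ρ : h →ₗ[𝕜] Matrix (Fin n) (Fin n) 𝕜)
    (P : Set (Matrix (Fin n) (Fin n) 𝕜)) : Prop :=
  IsRep ρ ∧ Function.Injective ρ ∧ Set.range ρ = P

/-- type A: `h` is the Lie algebra `sl_n` and `θ` is `x ↦ A x A⁻¹` or `x ↦ -A xᵀ A⁻¹` for an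
invertible matrix `A` -/
def IsSl (θ : Invol 𝕜 h) : Prop :=
  ∃ (n : ℕ) (ρ : h →ₗ[𝕜] Matrix (Fin n) (Fin n) 𝕜) (A B : Matrix (Fin n) (Fin n) 𝕜),
    IsIsoOnto ρ (slSet 𝕜 n) ∧ A * B = 1 ∧
      ((∀ x, ρ (θ.hom x) = A * ρ x * B) ∨ ∀ x, ρ (θ.hom x) = -(A * (ρ x)ᵀ * B))

/-- types B, C, D: `h` is the Lie algebra `so_n`, `n ≥ 3`, or `sp_n`, `n ≥ 2`, of all the matrices
which are skew-adjoint for the form `J`, and `θ` is `x ↦ A x A⁻¹` for an invertible matrix `A` -/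
def IsOSp (θ : Invol 𝕜 h) : Prop :=
  ∃ (n : ℕ) (J : Matrix (Fin n) (Fin n) 𝕜) (ρ : h →ₗ[𝕜] Matrix (Fin n) (Fin n) 𝕜)
    (A B : Matrix (Fin n) (Fin n) 𝕜), IsForm J ∧ IsIsoOnto ρ (skewSet J) ∧ A * B = 1 ∧
      ∀ x, ρ (θ.hom x) = A * ρ x * B

/-- `h` is the product of two copies of the Lie algebra `P`, which is `sl_n`, `so_n` or `sp_n`, and
`θ` exchanges the two factors: `x ↦ (ρ x, ρ (θ x))` is an isomorphism from `h` onto `P × P` -/
def IsSwap (θ : Invol 𝕜 h) : Prop :=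
  ∃ (n : ℕ) (P : Set (Matrix (Fin n) (Fin n) 𝕜)) (ρ : h →ₗ[𝕜] Matrix (Fin n) (Fin n) 𝕜),
    (P = slSet 𝕜 n ∨ ∃ J, IsForm J ∧ P = skewSet J) ∧ IsRep ρ ∧
      Set.BijOn (fun x => (ρ x, ρ (θ.hom x))) Set.univ (P ×ˢ P)

/-- `(h, θ)` is an irreducible symmetric pair of classical type -/
def IsFactor (θ : Invol 𝕜 h) : Prop := IsSl θ ∨ IsOSp θ ∨ IsSwap θ

end Factors

variable {g : Type*} [LieRing g] [LieAlgebra 𝕜 g]

/-- `(g, θ)` is a finite direct sum of irreducible symmetric pairs of classical type: `g` is the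
direct sum of ideals `I i` and `θ` restricts to involutions `θ'` of the ideals -/
def IsClassical (θ : Invol 𝕜 g) : Prop :=
  ∃ (m : ℕ) (I : Fin m → LieIdeal 𝕜 g), DirectSum.IsInternal (fun i => (I i).toSubmodule) ∧
    ∀ i, ∃ θ' : Invol 𝕜 (I i), (∀ x : I i, ((θ'.hom x : I i) : g) = θ.hom (x : g)) ∧ IsFactor θ'

variable {k : Type*} [LieRing k] [LieAlgebra 𝕜 k]

/-- the stabiliser of a point `ξ` of `k^*` in `k` -/
def stabiliser (ξ : k →ₗ[𝕜] 𝕜) : Submodule 𝕜 k where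
  carrier := {x | ∀ y, ξ ⁅x, y⁆ = 0}
  add_mem' := fun {a b} ha hb y => by rw [add_lie, map_add, ha, hb, add_zero]
  zero_mem' := fun y => by rw [zero_lie, map_zero]
  smul_mem' := fun c x hx y => by rw [smul_lie, map_smul, hx, smul_zero]

/-- `ξ` is regular: the dimension of its stabiliser is minimal -/
def IsRegular (ξ : k →ₗ[𝕜] 𝕜) : Prop :=
  ∀ η : k →ₗ[𝕜] 𝕜, Module.finrank 𝕜 (stabiliser ξ) ≤ Module.finrank 𝕜 (stabiliser η)

end Pool.Agent.helper49.QAS
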