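import Mathlib

/-!
# Polynomials with coefficients in an algebra, evaluated at scalars
-/

set_option autoImplicit false

namespace Pool.Agent.helper49.QA

open Polynomial

section vec

variable {K : Type*} [Field K] [Infinite K] {V : Type*} [AddCommGroup V] [Module K V]

/-- a polynomial with vector coefficients which vanishes at all nonzero scalars is zero -/
theorem vec_poly_zero (c : ℕ → V) (N : ℕ)
    (h : ∀ s : K, s ≠ 0 → ∑ n ∈ Finset.range N, s ^ n • c n = 0) :
    ∀ n < N, c n = 0 := by
  intro n hn
  by_contra hne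
  obtain ⟨f, hf⟩ : ∃ f : Module.Dual K V, f (c n) ≠ 0 := by
    by_contra hcon
    push Not at hcon
    exact hne ((Module.forall_dual_apply_eq_zero_iff K (c n)).1 hcon)
  set p : K[X] := ∑ m ∈ Finset.range N, Polynomial.monomial m (f (c m)) with hp
  have hev : ∀ s : K, s ≠ 0 → p.eval s = 0 := by
    intro s hs
    have h1 := congrArg f (h s hs)
    rw [map_sum, map_zero] at h1
    rw [hp, Polynomial.eval_finsetSum, ← h1]
    refine Finset.sum_congr rfl fun m _ => ?_
    rw [Polynomial.eval_monomial, map_smul, smul_eq_mul, mul_comm]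
  have h0 : X * p = 0 := by
    refine Polynomial.funext fun s => ?_
    rw [Polynomial.eval_mul, Polynomial.eval_X, Polynomial.eval_zero]
    by_cases hs : s = 0
    · rw [hs, zero_mul]
    · rw [hev s hs, mul_zero]
  have hp0 : p = 0 := (mul_eq_zero.1 h0).resolve_left Polynomial.X_ne_zero
  have hc : p.coeff n = f (c n) := by
    rw [hp, Polynomial.finsetSum_coeff, Finset.sum_eq_single n]
    · rw [Polynomial.coeff_monomial_same]
    · intro m _ hm
      rw [Polynomial.coeff_monomial_of_ne _ hm.symm]
    · intro hcon
      exact absurd (Finset.mem_range.2 hn) hcon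
  rw [hp0, Polynomial.coeff_zero] at hc
  exact hf hc.symm

end vec

section evalc

variable {K : Type*} [Field K] {E : Type*} [Ring E] [Algebra K E]

/-- evaluation of a polynomial with coefficients in an algebra at a scalar -/
noncomputable def evc (s : K) : E[X] →ₐ[K] E :=
  { Polynomial.eval₂RingHom' (RingHom.id E) (algebraMap K E s)
      (fun a => (Algebra.commutes s a).symm) with
    commutes' := fun c => by
      show Polynomial.eval₂ (RingHom.id E) (algebraMap K E s) (algebraMap K E[X] c) = _
      rw [Polynomial.algebraMap_apply, Polynomial.eval₂_C]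
      rfl }

theorem evc_eq (s : K) (p : E[X]) :
    evc s p = Polynomial.eval₂ (RingHom.id E) (algebraMap K E s) p := rfl

theorem evc_apply (s : K) (p : E[X]) :
    evc s p = ∑ n ∈ Finset.range (p.natDegree + 1), s ^ n • p.coeff n := by
  rw [evc_eq, Polynomial.eval₂_eq_sum_range]
  refine Finset.sum_congr rfl fun n _ => ?_
  rw [RingHom.id_apply, ← map_pow, ← Algebra.commutes, Algebra.smul_def]

theorem evc_C (s : K) (a : E) : evc s (C a) = a := by
  rw [evc_eq, Polynomial.eval₂_C]
  rfl

theorem evc_X (s : K) : evc s (X : E[X]) = algebraMap K E s := by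
  rw [evc_eq, Polynomial.eval₂_X]

theorem evc_zero_eq_coeff (p : E[X]) : evc (0 : K) p = p.coeff 0 := by
  rw [evc_apply, Finset.sum_range_succ']
  simp

theorem evc_of_le (s : K) (p : E[X]) {N : ℕ} (hN : p.natDegree ≤ N) :
    evc s p = ∑ n ∈ Finset.range (N + 1), s ^ n • p.coeff n := by
  rw [evc_apply]
  refine Finset.sum_subset (Finset.range_mono (by omega)) fun n _ hn => ?_
  rw [Finset.mem_range, not_lt] at hn
  rw [Polynomial.coeff_eq_zero_of_natDegree_lt (by omega), smul_zero]

theorem eq_zero_of_evc [Infinite K] {p : E[X]} (h : ∀ s : K, s ≠ 0 → evc s p = 0) : p = 0 := by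
  ext n
  rw [Polynomial.coeff_zero]
  by_cases hn : n < p.natDegree + 1
  · exact vec_poly_zero (K := K) (fun m => p.coeff m) _
      (fun s hs => by rw [← evc_apply]; exact h s hs) n hn
  · exact Polynomial.coeff_eq_zero_of_natDegree_lt (by omega)

end evalc

/-- functoriality of the tensor algebra -/
noncomputable def tmap {K : Type*} [Field K] {M N : Type*} [AddCommGroup M] [Module K M]
    [AddCommGroup N] [Module K N] (f : M →ₗ[K] N) : TensorAlgebra K M →ₐ[K] TensorAlgebra K N :=
  TensorAlgebra.lift K (TensorAlgebra.ι K ∘ₗ f)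

theorem tmap_ι {K : Type*} [Field K] {M N : Type*} [AddCommGroup M] [Module K M]
    [AddCommGroup N] [Module K N] (f : M →ₗ[K] N) (x : M) :
    tmap f (TensorAlgebra.ι K x) = TensorAlgebra.ι K (f x) := by
  rw [tmap, TensorAlgebra.lift_ι_apply]
  rfl

end Pool.Agent.helper49.QA
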