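import Mathlib
import Pool.Agent.helper5.AS.Core

/-!
# Faithful realisation of the enveloping algebra of a linear Lie algebra

A Lie algebra `L` with an injective homomorphism to (the Lie algebra of) an associative algebra
`B` acts by left invariant vector fields on the functions on `B`; the enveloping algebra acts
faithfully, and the symbol of an element of `U(L)` is well defined.
-/

set_option autoImplicit false

namespace Pool.Agent.helper49.QA

open MvPolynomial Pool.Agent.helper5.AS

attribute [local instance 100] LieRing.ofAssociativeRing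

variable {K : Type*} [Field K] {L : Type*} [LieRing L] [LieAlgebra K L]
variable {B : Type*} [Ring B] [Algebra K B]

/-- `ρ` is a homomorphism from the Lie algebra `L` to the commutator Lie algebra of `B` -/
def IsLieMap (ρ : L →ₗ[K] B) : Prop := ∀ x y : L, ρ ⁅x, y⁆ = ρ x * ρ y - ρ y * ρ x

/-- the right multiplication on linear functions -/
noncomputable def rm (b : B) : Module.Dual K B →ₗ[K] Module.Dual K B :=
  (LinearMap.mulRight K b).dualMap

theorem rm_apply (b : B) (f : Module.Dual K B) (e : B) : rm b f e = f (e * b) := rfl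

section

variable {κ : Type*} (bM : Module.Basis κ K (Module.Dual K B))

/-- the linear functions -/
noncomputable def lfn : Module.Dual K B →ₗ[K] MvPolynomial κ K :=
  bM.constr K MvPolynomial.X

/-- the invariant vector fields -/
noncomputable def vfb (b : B) : Derivation K (MvPolynomial κ K) (MvPolynomial κ K) :=
  MvPolynomial.mkDerivation K fun i => lfn bM (rm b (bM i))

theorem vfb_lfn (b : B) (m : Module.Dual K B) : vfb bM b (lfn bM m) = lfn bM (rm b m) := by
  have h : (vfb bM b).toLinearMap ∘ₗ lfn bM = lfn bM ∘ₗ rm b := by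
    refine bM.ext fun i => ?_
    show vfb bM b (lfn bM (bM i)) = lfn bM (rm b (bM i))
    rw [lfn, Module.Basis.constr_basis, vfb, MvPolynomial.mkDerivation_X]
    rfl
  exact congrArg (fun F : Module.Dual K B →ₗ[K] MvPolynomial κ K => F m) h

theorem vfb_add (x y : B) : vfb bM (x + y) = vfb bM x + vfb bM y := by
  refine MvPolynomial.derivation_ext fun i => ?_
  rw [Derivation.add_apply, vfb, vfb, vfb, mkDerivation_X, mkDerivation_X, mkDerivation_X,
    ← map_add]
  congr 1
  refine LinearMap.ext fun e => ?_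
  rw [LinearMap.add_apply, rm_apply, rm_apply, rm_apply, mul_add, map_add]

theorem vfb_smul (c : K) (x : B) : vfb bM (c • x) = c • vfb bM x := by
  refine MvPolynomial.derivation_ext fun i => ?_
  rw [Derivation.smul_apply, vfb, vfb, mkDerivation_X, mkDerivation_X, ← map_smul]
  congr 1
  refine LinearMap.ext fun e => ?_
  rw [LinearMap.smul_apply, rm_apply, rm_apply, mul_smul_comm, map_smul]

theorem vfb_lie (x y : B) (F : MvPolynomial κ K) :
    vfb bM (x * y - y * x) F = vfb bM x (vfb bM y F) - vfb bM y (vfb bM x F) := by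
  have h : vfb bM (x * y - y * x) = ⁅vfb bM x, vfb bM y⁆ := by
    refine MvPolynomial.derivation_ext fun i => ?_
    rw [Derivation.commutator_apply]
    have h1 : ∀ z, vfb bM z (X i) = lfn bM (rm z (bM i)) := fun z => by
      rw [vfb, mkDerivation_X]
    rw [h1, h1, h1, vfb_lfn, vfb_lfn, ← map_sub]
    congr 1
    refine LinearMap.ext fun e => ?_
    rw [LinearMap.sub_apply, rm_apply, rm_apply, rm_apply, rm_apply, rm_apply,
      ← map_sub]
    congr 1
    rw [mul_sub, mul_assoc, mul_assoc]
  rw [h, Derivation.commutator_apply]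

/-- the vector fields as a linear map to the operators -/
noncomputable def vfL : B →ₗ[K] Module.End K (MvPolynomial κ K) where
  toFun := fun b => (vfb bM b : MvPolynomial κ K →ₗ[K] MvPolynomial κ K)
  map_add' := fun x y => by
    rw [vfb_add]
    rfl
  map_smul' := fun c x => by
    rw [vfb_smul]
    rfl

theorem vfL_apply (b : B) (F : MvPolynomial κ K) : vfL bM b F = vfb bM b F := rfl

theorem vfL_lie (x y : B) : vfL bM (x * y - y * x) = vfL bM x * vfL bM y - vfL bM y * vfL bM x :=
  LinearMap.ext fun F => vfb_lie bM x y F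

/-- the action of the tensor algebra -/
noncomputable def opT (l : L →ₗ[K] B) : TensorAlgebra K L →ₐ[K] Module.End K (MvPolynomial κ K) :=
  TensorAlgebra.lift K (vfL bM ∘ₗ l)

theorem opT_ι (l : L →ₗ[K] B) (x : L) : opT bM l (TensorAlgebra.ι K x) = vfL bM (l x) := by
  rw [opT, TensorAlgebra.lift_ι_apply]
  rfl

/-- the action of `U(L)` by differential operators -/
noncomputable def opU (ρ : L →ₗ[K] B) (hρ : IsLieMap ρ) :
    Ue K L →ₐ[K] Module.End K (MvPolynomial κ K) :=
  UniversalEnvelopingAlgebra.lift K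
    { toFun := fun x => vfL bM (ρ x)
      map_add' := fun x y => by rw [map_add, map_add]
      map_smul' := fun c x => by
        rw [map_smul, map_smul]
        rfl
      map_lie' := fun {x y} => by
        rw [LieRing.of_associative_ring_bracket, hρ, vfL_lie] }

theorem opU_ι (ρ : L →ₗ[K] B) (hρ : IsLieMap ρ) (x : L) :
    opU bM ρ hρ (ιU K L x) = vfL bM (ρ x) :=
  UniversalEnvelopingAlgebra.lift_ι_apply K (A := Module.End K (MvPolynomial κ K))
    { toFun := fun x => vfL bM (ρ x)
      map_add' := fun x y => by rw [map_add, map_add]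
      map_smul' := fun c x => by
        rw [map_smul, map_smul]
        rfl
      map_lie' := fun {x y} => by
        rw [LieRing.of_associative_ring_bracket, hρ, vfL_lie] } x

theorem opU_pU (ρ : L →ₗ[K] B) (hρ : IsLieMap ρ) (t : TensorAlgebra K L) :
    opU bM ρ hρ (pU t) = opT bM ρ t := by
  have h : (opU bM ρ hρ).comp (pU (𝕜 := K) (L := L)) = opT bM ρ := by
    refine TensorAlgebra.hom_ext (LinearMap.ext fun x => ?_)
    show opU bM ρ hρ (pU (TensorAlgebra.ι K x)) = opT bM ρ (TensorAlgebra.ι K x)
    rw [pU_ι, opU_ι, opT_ι]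
  exact congrArg (fun F : TensorAlgebra K L →ₐ[K] Module.End K (MvPolynomial κ K) => F t) h

/-- evaluation at the identity of `B` -/
noncomputable def ev1 : MvPolynomial κ K →ₐ[K] K := aeval fun i => bM i 1

theorem ev1_lfn (m : Module.Dual K B) : ev1 bM (lfn bM m) = m 1 := by
  have h : (ev1 bM).toLinearMap ∘ₗ lfn bM = Module.Dual.eval K B 1 := by
    refine bM.ext fun i => ?_
    show ev1 bM (lfn bM (bM i)) = bM i 1
    rw [lfn, Module.Basis.constr_basis, ev1, aeval_X]
  exact congrArg (fun F : Module.Dual K B →ₗ[K] K => F m) h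

theorem vfb_pow_succ (x : B) (f h : MvPolynomial κ K) (n : ℕ) :
    vfb bM x (f ^ (n + 1) * h) =
      f ^ n * (((n : MvPolynomial κ K) + 1) * vfb bM x f * h) + f ^ (n + 1) * vfb bM x h := by
  rw [Derivation.leibniz, Derivation.leibniz_pow, Nat.add_sub_cancel, nsmul_eq_mul,
    smul_eq_mul, smul_eq_mul, smul_eq_mul]
  push_cast
  ring

variable (ρ : L →ₗ[K] B) (hρ : IsLieMap ρ)

/-- operators of order less than `n` applied to `f ^ n` vanish where `f` does -/
theorem low_vanish' {f : MvPolynomial κ K} (hf : ev1 bM f = 0) {m : ℕ} {u : Ue K L}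
    (hu : u ∈ lowU K L (m + 1)) {n : ℕ} (hn : m < n) (h : MvPolynomial κ K) :
    ev1 bM (opU bM ρ hρ u (f ^ n * h)) = 0 := by
  induction m generalizing u n h with
  | zero =>
    rw [lowU_succ, pow_zero] at hu
    obtain ⟨c, rfl⟩ := Submodule.mem_one.1 hu
    rw [AlgHom.commutes, Algebra.algebraMap_eq_smul_one, LinearMap.smul_apply,
      Module.End.one_apply, map_smul, map_mul, map_pow, hf, zero_pow hn.ne', zero_mul,
      smul_zero]
  | succ m ih =>
    rw [lowU_succ, pow_succ] at hu
    refine Submodule.mul_induction_on hu ?_ ?_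
    · intro v hv w hw
      obtain ⟨w1, hw1, w2, ⟨x, rfl⟩, rfl⟩ := Submodule.mem_sup.1 hw
      obtain ⟨c, rfl⟩ := Submodule.mem_one.1 hw1
      obtain ⟨k, rfl⟩ : ∃ k, n = k + 1 := ⟨n - 1, by omega⟩
      have h1 : opU bM ρ hρ (v * (algebraMap K _ c + ιU K L x)) (f ^ (k + 1) * h) =
          opU bM ρ hρ v (f ^ k * (c • (f * h) +
            ((k : MvPolynomial κ K) + 1) * vfb bM (ρ x) f * h + f * vfb bM (ρ x) h)) := by
        rw [map_mul (opU bM ρ hρ), Module.End.mul_apply, map_add (opU bM ρ hρ),
          LinearMap.add_apply, AlgHom.commutes,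
          Algebra.algebraMap_eq_smul_one, LinearMap.smul_apply, Module.End.one_apply, opU_ι,
          vfL_apply, vfb_pow_succ]
        congr 1
        rw [MvPolynomial.smul_eq_C_mul, MvPolynomial.smul_eq_C_mul]
        ring
      rw [h1]
      exact ih hv (by omega) _
    · intro v w hv hw
      rw [map_add, LinearMap.add_apply, map_add, hv, hw, add_zero]

/-- the leading part -/
theorem top_eval' {f : MvPolynomial κ K} (hf : ev1 bM f = 0) (φ : L →ₗ[K] K)
    (hφ : ∀ x, ev1 bM (vfb bM (ρ x) f) = φ x) {m : ℕ} {t : TensorAlgebra K L}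
    (ht : t ∈ imT K L ^ m) (h : MvPolynomial κ K) :
    ev1 bM (opU bM ρ hρ (pU t) (f ^ m * h)) =
      (m.factorial : K) * SymmetricAlgebra.lift φ (pS t) * ev1 bM h := by
  induction m generalizing t h with
  | zero =>
    rw [pow_zero] at ht
    obtain ⟨c, rfl⟩ := Submodule.mem_one.1 ht
    rw [AlgHom.commutes, AlgHom.commutes, AlgHom.commutes, AlgHom.commutes,
      Algebra.algebraMap_eq_smul_one, LinearMap.smul_apply,
      Module.End.one_apply, map_smul, pow_zero, one_mul, Nat.factorial_zero, Nat.cast_one,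
      one_mul, smul_eq_mul]
    rfl
  | succ m ih =>
    rw [pow_succ] at ht
    refine Submodule.mul_induction_on ht ?_ ?_
    · rintro t ht _ ⟨x, rfl⟩
      rw [map_mul (pU (𝕜 := K) (L := L)), map_mul (opU bM ρ hρ), Module.End.mul_apply, pU_ι,
        opU_ι, vfL_apply,
        vfb_pow_succ, map_add (opU bM ρ hρ (pU t)), map_add (ev1 bM),
        low_vanish' bM ρ hρ hf (pU_mem ht) (Nat.lt_succ_self m), add_zero, ih ht,
        map_mul (ev1 bM), map_mul (ev1 bM), hφ, map_mul (pS (𝕜 := K) (L := L)), pS_ι,
        map_mul (SymmetricAlgebra.lift φ), SymmetricAlgebra.lift_ι_apply, Nat.factorial_succ]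
      push_cast
      rw [map_add, map_natCast, map_one]
      ring
    · intro v w hv hw
      rw [map_add, map_add, map_add, map_add, LinearMap.add_apply, map_add, hv, hw]
      ring

end

/-- the symbol map of `L` is injective -/
def SymbInj (K L : Type*) [Field K] [LieRing L] [LieAlgebra K L] : Prop :=
  ∀ (n : ℕ) (a : Sy K L) (u : Ue K L), IsSymbol n a u → u ∈ lowU K L n → a = 0

/-- the standard basis of the dual of `B` -/
noncomputable def bD (K : Type*) [Field K] (B : Type*) [Ring B] [Algebra K B] :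
    Module.Basis (Module.Basis.ofVectorSpaceIndex K (Module.Dual K B)) K (Module.Dual K B) :=
  Module.Basis.ofVectorSpace K (Module.Dual K B)

section

variable [CharZero K] (ρ : L →ₗ[K] B) (hρ : IsLieMap ρ) (hinj : Function.Injective ρ)

include hinj in
/-- an element with a symbol `a` which acts by an operator of lower order has `a = 0` -/
theorem symbol_zero_of_op {n : ℕ} {a : Sy K L} {u : Ue K L} (h : IsSymbol n a u)
    (hu : ∀ f, ev1 (bD K B) f = 0 → ev1 (bD K B) (opU (bD K B) ρ hρ u (f ^ n)) = 0) :
    a = 0 := by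
  obtain ⟨t, ht, h1, h2⟩ := h
  rw [← h1]
  refine eq_zero_of_eval fun φ => ?_
  set bM := bD K B
  obtain ⟨r, hr⟩ := LinearMap.exists_leftInverse_of_injective ρ (LinearMap.ker_eq_bot.2 hinj)
  have hr' : ∀ x, r (ρ x) = x := fun x => congrArg (fun F : L →ₗ[K] L => F x) hr
  set m : Module.Dual K B := φ ∘ₗ r with hm
  set f : MvPolynomial _ K := lfn bM m - C (m 1) with hf
  have hf0 : ev1 bM f = 0 := by
    rw [hf, map_sub, ev1_lfn, ev1, MvPolynomial.aeval_C]
    exact sub_self _
  have hφ : ∀ x, ev1 bM (vfb bM (ρ x) f) = φ x := by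
    intro x
    rw [hf, map_sub, vfb_lfn, ← MvPolynomial.algebraMap_eq, Derivation.map_algebraMap, sub_zero,
      ev1_lfn, rm_apply, one_mul, hm, LinearMap.comp_apply, hr']
  have h5 := top_eval' bM ρ hρ hf0 φ hφ ht 1
  rw [mul_one, map_one, mul_one] at h5
  have h6 : ev1 bM (opU bM ρ hρ u (f ^ n)) =
      ev1 bM (opU bM ρ hρ (u - pU t) (f ^ n)) + ev1 bM (opU bM ρ hρ (pU t) (f ^ n)) := by
    rw [map_sub (opU bM ρ hρ), LinearMap.sub_apply, map_sub, sub_add_cancel]
  have h7 : ev1 bM (opU bM ρ hρ (u - pU t) (f ^ n)) = 0 := by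
    cases n with
    | zero =>
      rw [lowU_zero, Submodule.mem_bot] at h2
      rw [h2, map_zero (opU bM ρ hρ), LinearMap.zero_apply, map_zero]
    | succ k =>
      have h8 := low_vanish' bM ρ hρ hf0 h2 (Nat.lt_succ_self k) 1
      rwa [mul_one] at h8
  rw [hu f hf0, h7, zero_add, h5] at h6
  have h9 : (n.factorial : K) ≠ 0 := Nat.cast_ne_zero.2 (Nat.factorial_ne_zero _)
  exact (mul_eq_zero.1 h6.symm).resolve_left h9

include hρ hinj in
/-- the Poincare-Birkhoff-Witt theorem for a linear Lie algebra -/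
theorem symbInj_of_linear : SymbInj K L := by
  intro n a u h hu
  refine symbol_zero_of_op ρ hρ hinj h fun f hf => ?_
  cases n with
  | zero =>
    rw [lowU_zero, Submodule.mem_bot] at hu
    rw [hu, map_zero (opU (bD K B) ρ hρ), LinearMap.zero_apply, map_zero]
  | succ k =>
    have h8 := low_vanish' (bD K B) ρ hρ hf hu (Nat.lt_succ_self k) 1
    rwa [mul_one] at h8

include hinj in
/-- the enveloping algebra acts faithfully -/
theorem eq_zero_of_op {u : Ue K L}
    (hu : opU (bD K B) ρ hρ u = 0) : u = 0 := by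
  obtain ⟨n, hn⟩ := exists_mem_lowU u
  induction n with
  | zero => rwa [lowU_zero, Submodule.mem_bot] at hn
  | succ k ih =>
    obtain ⟨a, ha⟩ := exists_symbol hn
    have h0 : a = 0 := symbol_zero_of_op ρ hρ hinj ha fun f _ => by
      rw [hu, LinearMap.zero_apply, map_zero]
    rw [h0] at ha
    exact ih ha.low_of_zero

end

end Pool.Agent.helper49.QA
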