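import Mathlib
import Pool.Agent.helper49.QA.Evc
import Pool.Agent.helper49.QA.Inj

/-!
# Functoriality of the symmetric algebra, the enveloping algebra and the symbol
-/

set_option autoImplicit false

namespace Pool.Agent.helper49.QA

open Pool.Agent.helper5.AS

attribute [local instance 100] LieRing.ofAssociativeRing

variable {K : Type*} [Field K] {L : Type*} [LieRing L] [LieAlgebra K L]
variable {M : Type*} [LieRing M] [LieAlgebra K M]

/-- a linear map which respects the brackets -/
def IsBr (f : L →ₗ[K] M) : Prop := ∀ x y : L, f ⁅x, y⁆ = ⁅f x, f y⁆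

/-- functoriality of the symmetric algebra -/
noncomputable def smap (f : L →ₗ[K] M) : Sy K L →ₐ[K] Sy K M :=
  SymmetricAlgebra.lift (SymmetricAlgebra.ι K M ∘ₗ f)

theorem smap_ι (f : L →ₗ[K] M) (x : L) : smap f (ιS K L x) = ιS K M (f x) := by
  rw [smap, SymmetricAlgebra.lift_ι_apply]
  rfl

/-- functoriality of the enveloping algebra -/
noncomputable def umap (f : L →ₗ[K] M) (hf : IsBr f) : Ue K L →ₐ[K] Ue K M :=
  UniversalEnvelopingAlgebra.lift K
    { toFun := fun x => ιU K M (f x)
      map_add' := fun x y => by rw [map_add, map_add]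
      map_smul' := fun c x => by
        rw [map_smul, map_smul]
        rfl
      map_lie' := fun {x y} => by
        rw [LieRing.of_associative_ring_bracket, hf, ← ιU_comm] }

theorem umap_ι (f : L →ₗ[K] M) (hf : IsBr f) (x : L) :
    umap f hf (ιU K L x) = ιU K M (f x) :=
  UniversalEnvelopingAlgebra.lift_ι_apply K (A := Ue K M)
    { toFun := fun x => ιU K M (f x)
      map_add' := fun x y => by rw [map_add, map_add]
      map_smul' := fun c x => by
        rw [map_smul, map_smul]
        rfl
      map_lie' := fun {x y} => by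
        rw [LieRing.of_associative_ring_bracket, hf, ← ιU_comm] } x

theorem pS_tmap (f : L →ₗ[K] M) (t : TensorAlgebra K L) :
    (pS (tmap f t) : Sy K M) = smap f (pS t) := by
  have h : (pS (𝕜 := K) (L := M)).comp (tmap f) = (smap f).comp (pS (𝕜 := K) (L := L)) := by
    refine TensorAlgebra.hom_ext (LinearMap.ext fun x => ?_)
    show pS (tmap f (TensorAlgebra.ι K x)) = smap f (pS (TensorAlgebra.ι K x))
    rw [tmap_ι, pS_ι, pS_ι]
    exact (smap_ι f x).symm
  exact congrArg (fun F : TensorAlgebra K L →ₐ[K] Sy K M => F t) h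

theorem pU_tmap (f : L →ₗ[K] M) (hf : IsBr f) (t : TensorAlgebra K L) :
    (pU (tmap f t) : Ue K M) = umap f hf (pU t) := by
  have h : (pU (𝕜 := K) (L := M)).comp (tmap f) = (umap f hf).comp (pU (𝕜 := K) (L := L)) := by
    refine TensorAlgebra.hom_ext (LinearMap.ext fun x => ?_)
    show pU (tmap f (TensorAlgebra.ι K x)) = umap f hf (pU (TensorAlgebra.ι K x))
    rw [tmap_ι, pU_ι, pU_ι]
    exact (umap_ι f hf x).symm
  exact congrArg (fun F : TensorAlgebra K L →ₐ[K] Ue K M => F t) h

theorem tmap_mem (f : L →ₗ[K] M) {n : ℕ} {t : TensorAlgebra K L} (ht : t ∈ imT K L ^ n) :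
    tmap f t ∈ imT K M ^ n := by
  induction n generalizing t with
  | zero =>
    rw [pow_zero] at ht ⊢
    obtain ⟨c, rfl⟩ := Submodule.mem_one.1 ht
    rw [AlgHom.commutes]
    exact Submodule.mem_one.2 ⟨c, rfl⟩
  | succ n ih =>
    rw [pow_succ] at ht
    refine Submodule.mul_induction_on ht ?_ ?_
    · rintro a ha _ ⟨x, rfl⟩
      rw [map_mul, tmap_ι, pow_succ]
      exact Submodule.mul_mem_mul (ih ha) ⟨f x, rfl⟩
    · intro a b ha hb
      rw [map_add]
      exact add_mem ha hb

theorem umap_low (f : L →ₗ[K] M) (hf : IsBr f) {n : ℕ} {u : Ue K L} (hu : u ∈ lowU K L n) :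
    umap f hf u ∈ lowU K M n := by
  cases n with
  | zero =>
    rw [lowU_zero, Submodule.mem_bot] at hu
    rw [hu, map_zero]
    exact zero_mem _
  | succ n =>
    have h : Submodule.map (umap f hf).toLinearMap (1 ⊔ imU K L) ≤ 1 ⊔ imU K M := by
      rw [Submodule.map_sup]
      refine sup_le_sup ?_ ?_
      · rw [Submodule.map_one]
      · rintro _ ⟨_, ⟨x, rfl⟩, rfl⟩
        exact ⟨f x, (umap_ι f hf x).symm⟩
    rw [lowU_succ] at hu ⊢
    have h2 : Submodule.map (umap f hf).toLinearMap ((1 ⊔ imU K L) ^ n) ≤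
        (1 ⊔ imU K M) ^ n := by
      rw [Submodule.map_pow]
      exact pow_le_pow_left' h n
    exact h2 (Submodule.mem_map_of_mem hu)

theorem IsSymbol_map (f : L →ₗ[K] M) (hf : IsBr f) {n : ℕ} {a : Sy K L} {u : Ue K L}
    (h : IsSymbol n a u) : IsSymbol n (smap f a) (umap f hf u) := by
  obtain ⟨t, ht, h1, h2⟩ := h
  refine ⟨tmap f t, tmap_mem f ht, ?_, ?_⟩
  · rw [← h1]
    exact pS_tmap f t
  · have h3 := umap_low f hf h2
    rw [map_sub, ← pU_tmap] at h3
    exact h3

theorem IsSymbol_sum {ι : Type*} (s : Finset ι) {n : ℕ} {a : ι → Sy K L} {u : ι → Ue K L}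
    (h : ∀ i ∈ s, IsSymbol n (a i) (u i)) : IsSymbol n (∑ i ∈ s, a i) (∑ i ∈ s, u i) := by
  classical
  induction s using Finset.induction_on with
  | empty =>
    rw [Finset.sum_empty, Finset.sum_empty]
    exact IsSymbol.of_low (zero_mem _)
  | insert i s hi ih =>
    rw [Finset.sum_insert hi, Finset.sum_insert hi]
    exact (h i (Finset.mem_insert_self i s)).add
      (ih fun j hj => h j (Finset.mem_insert_of_mem hj))

theorem IsSymbol_listprod (l : List L) :
    IsSymbol l.length ((l.map fun x => ιS K L x).prod) ((l.map fun x => ιU K L x).prod) := by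
  induction l with
  | nil =>
    rw [List.map_nil, List.map_nil, List.prod_nil, List.prod_nil, List.length_nil]
    exact isSymbol_one
  | cons x l ih =>
    rw [List.map_cons, List.map_cons, List.prod_cons, List.prod_cons, List.length_cons,
      add_comm]
    exact (isSymbol_ι x).mul ih

end Pool.Agent.helper49.QA
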