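import Mathlib
import Pool.Agent.helper49.QA.Inj
import Pool.Agent.helper5.AS.Contr

/-!
# Two by two block matrices for the contraction
-/

set_option autoImplicit false

namespace Pool.Agent.helper49.QA

open Pool.Agent.helper5.AS
open Pool.Agent.helper5.ASQ (Invol even oddc brk IsContraction even_add oddc_add even_smul
  oddc_smul even_of_fix even_of_neg oddc_of_fix oddc_of_neg hom_even hom_oddc even_brk oddc_brk
  even_add_oddc)

section blocks

variable {K : Type*} [Field K] {A : Type*} [Ring A] [Algebra K A]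

/-- the matrix `(a, s b; t b, a)` -/
noncomputable def blk (s t : K) (a b : A) : Matrix (Fin 2) (Fin 2) A :=
  !![a, s • b; t • b, a]

theorem blk_add (s t : K) (a b a' b' : A) :
    blk s t a b + blk s t a' b' = blk s t (a + a') (b + b') := by
  rw [blk, blk, blk, smul_add, smul_add]
  ext i j
  fin_cases i <;> fin_cases j <;> rfl

theorem blk_smul (c s t : K) (a b : A) : c • blk s t a b = blk s t (c • a) (c • b) := by
  rw [blk, blk, Matrix.smul_of, smul_comm s c, smul_comm t c]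
  simp

theorem blk_mul (s t : K) (a b a' b' : A) :
    blk s t a b * blk s t a' b' = blk s t (a * a' + (s * t) • (b * b')) (a * b' + b * a') := by
  rw [blk, blk, blk, Matrix.mul_fin_two]
  simp only [smul_mul_assoc, mul_smul_comm, smul_add, smul_smul]
  rw [mul_comm t s, add_comm (t • (b * a')), add_comm (a * a') ((s * t) • (b * b'))]

theorem blk_sub (s t : K) (a b a' b' : A) :
    blk s t a b - blk s t a' b' = blk s t (a - a') (b - b') := by
  rw [blk, blk, blk, smul_sub, smul_sub]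
  ext i j
  fin_cases i <;> fin_cases j <;> rfl

theorem blk_inj {a b a' b' : A} (h : blk (0 : K) (1 : K) a b = blk (0 : K) (1 : K) a' b') :
    a = a' ∧ b = b' := by
  have h00 : a = a' := congrFun (congrFun h 0) 0
  have h10 : (1 : K) • b = (1 : K) • b' := congrFun (congrFun h 1) 0
  rw [one_smul, one_smul] at h10
  exact ⟨h00, h10⟩

end blocks

section lim

variable {K : Type*} [Field K] {g : Type*} [LieRing g] [LieAlgebra K g]
variable (θ : Invol K g) {A : Type*} [Ring A] [Algebra K A]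

/-- the linear map `x_0 + x_1 ↦ x_0 + s x_1` -/
noncomputable def scl (s : K) : g →ₗ[K] g where
  toFun := fun x => even θ x + s • oddc θ x
  map_add' := fun x y => by
    rw [even_add, oddc_add, smul_add]
    abel
  map_smul' := fun c x => by
    rw [even_smul, oddc_smul, RingHom.id_apply, smul_add, smul_comm s c]

theorem scl_apply (s : K) (x : g) : scl θ s x = even θ x + s • oddc θ x := rfl

/-- the two by two block matrices `(x_0, s x_1; t x_1, x_0)` -/
noncomputable def mu (ρ : g →ₗ[K] A) (s t : K) : g →ₗ[K] Matrix (Fin 2) (Fin 2) A where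
  toFun := fun x => blk s t (ρ (even θ x)) (ρ (oddc θ x))
  map_add' := fun x y => by rw [even_add, oddc_add, map_add, map_add, blk_add]
  map_smul' := fun c x => by
    rw [even_smul, oddc_smul, map_smul, map_smul, RingHom.id_apply, blk_smul]

theorem mu_apply (ρ : g →ₗ[K] A) (s t : K) (x : g) : mu θ ρ s t x =
    blk s t (ρ (even θ x)) (ρ (oddc θ x)) := rfl

variable [CharZero K]

theorem even_scl (s : K) (x : g) : even θ (scl θ s x) = even θ x := by
  rw [scl_apply, even_add, even_smul, even_of_fix θ (hom_even θ x),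
    even_of_neg θ (hom_oddc θ x), smul_zero, add_zero]

theorem oddc_scl (s : K) (x : g) : oddc θ (scl θ s x) = s • oddc θ x := by
  rw [scl_apply, oddc_add, oddc_smul, oddc_of_fix θ (hom_even θ x),
    oddc_of_neg θ (hom_oddc θ x), zero_add]

theorem mu_scl (ρ : g →ₗ[K] A) (s t r : K) (x : g) :
    mu θ ρ s t (scl θ r x) = mu θ ρ (s * r) (t * r) x := by
  rw [mu_apply, mu_apply, even_scl, oddc_scl, map_smul, blk, blk, smul_smul, smul_smul]

theorem even_lie (x y : g) :
    even θ ⁅x, y⁆ = ⁅even θ x, even θ y⁆ + ⁅oddc θ x, oddc θ y⁆ := by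
  have h : ⁅x, y⁆ = (⁅even θ x, even θ y⁆ + ⁅oddc θ x, oddc θ y⁆) +
      (⁅even θ x, oddc θ y⁆ + ⁅oddc θ x, even θ y⁆) := by
    conv_lhs => rw [← even_add_oddc θ x, ← even_add_oddc θ y, add_lie, lie_add, lie_add]
    abel
  have h0 : θ.hom (⁅even θ x, even θ y⁆ + ⁅oddc θ x, oddc θ y⁆) =
      ⁅even θ x, even θ y⁆ + ⁅oddc θ x, oddc θ y⁆ := by
    rw [map_add, LieHom.map_lie, LieHom.map_lie, hom_even, hom_even, hom_oddc, hom_oddc,
      lie_neg, neg_lie, neg_neg]
  have h1 : θ.hom (⁅even θ x, oddc θ y⁆ + ⁅oddc θ x, even θ y⁆) =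
      -(⁅even θ x, oddc θ y⁆ + ⁅oddc θ x, even θ y⁆) := by
    rw [map_add, LieHom.map_lie, LieHom.map_lie, hom_even, hom_even, hom_oddc, hom_oddc,
      lie_neg, neg_lie, neg_add]
  rw [h, even_add, even_of_fix θ h0, even_of_neg θ h1, add_zero]

theorem oddc_lie (x y : g) :
    oddc θ ⁅x, y⁆ = ⁅even θ x, oddc θ y⁆ + ⁅oddc θ x, even θ y⁆ := by
  have h : ⁅x, y⁆ = (⁅even θ x, even θ y⁆ + ⁅oddc θ x, oddc θ y⁆) +
      (⁅even θ x, oddc θ y⁆ + ⁅oddc θ x, even θ y⁆) := by
    conv_lhs => rw [← even_add_oddc θ x, ← even_add_oddc θ y, add_lie, lie_add, lie_add]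
    abel
  have h0 : θ.hom (⁅even θ x, even θ y⁆ + ⁅oddc θ x, oddc θ y⁆) =
      ⁅even θ x, even θ y⁆ + ⁅oddc θ x, oddc θ y⁆ := by
    rw [map_add, LieHom.map_lie, LieHom.map_lie, hom_even, hom_even, hom_oddc, hom_oddc,
      lie_neg, neg_lie, neg_neg]
  have h1 : θ.hom (⁅even θ x, oddc θ y⁆ + ⁅oddc θ x, even θ y⁆) =
      -(⁅even θ x, oddc θ y⁆ + ⁅oddc θ x, even θ y⁆) := by
    rw [map_add, LieHom.map_lie, LieHom.map_lie, hom_even, hom_even, hom_oddc, hom_oddc,
      lie_neg, neg_lie, neg_add]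
  rw [h, oddc_add, oddc_of_fix θ h0, oddc_of_neg θ h1, zero_add]

/-- for `s t = 1` this is a homomorphism of Lie algebras -/
theorem isLieMap_mu {ρ : g →ₗ[K] A} (hρ : IsLieMap ρ) {s t : K} (hst : s * t = 1) :
    IsLieMap (mu θ ρ s t) := by
  intro x y
  rw [mu_apply, mu_apply, mu_apply, even_lie, oddc_lie, map_add, map_add, hρ, hρ, hρ, hρ,
    blk_mul, blk_mul, blk_sub, hst, one_smul, one_smul]
  congr 1 <;> abel

variable {k : Type*} [LieRing k] [LieAlgebra K k]

/-- the realisation of the contraction -/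
theorem isLieMap_con {ρ : g →ₗ[K] A} (hρ : IsLieMap ρ) {e : g ≃ₗ[K] k}
    (he : IsContraction θ e) : IsLieMap (mu θ ρ 0 1 ∘ₗ (e.symm : k →ₗ[K] g)) := by
  intro x y
  have h : e.symm ⁅x, y⁆ = brk θ (e.symm x) (e.symm y) := by
    rw [LinearEquiv.symm_apply_eq, ← he, LinearEquiv.apply_symm_apply,
      LinearEquiv.apply_symm_apply]
  show mu θ ρ 0 1 (e.symm ⁅x, y⁆) = mu θ ρ 0 1 (e.symm x) * mu θ ρ 0 1 (e.symm y) -
    mu θ ρ 0 1 (e.symm y) * mu θ ρ 0 1 (e.symm x)
  rw [h, mu_apply, mu_apply, mu_apply, even_brk, oddc_brk, map_add, hρ, hρ, hρ,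
    blk_mul, blk_mul, blk_sub, zero_mul, zero_smul, zero_smul]
  congr 1 <;> abel

theorem con_injective {ρ : g →ₗ[K] A} (hinj : Function.Injective ρ) (e : g ≃ₗ[K] k) :
    Function.Injective (mu θ ρ 0 1 ∘ₗ (e.symm : k →ₗ[K] g)) := by
  intro x y hxy
  have hxy' : mu θ ρ 0 1 (e.symm x) = mu θ ρ 0 1 (e.symm y) := hxy
  rw [mu_apply, mu_apply] at hxy'
  obtain ⟨h0, h1⟩ := blk_inj hxy'
  apply e.symm.injective
  rw [← even_add_oddc θ (e.symm x), ← even_add_oddc θ (e.symm y), hinj h0, hinj h1]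

end lim

end Pool.Agent.helper49.QA
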