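import Mathlib
import Pool.Agent.helper49.QA.Mu
import Pool.Agent.helper49.QA.Fun
import Pool.Agent.helper49.QA.Evc

/-!
# The contraction of an invariant

`scS θ F` is the polynomial `F (x_0 + X x_1)`.  If `H` is in the Poisson centre of `g` and the
degree of `scS θ H` is at most `b` then the coefficient of `X ^ b` is in the Poisson centre of the
contraction.

Proof.  Let `D_φ = derD φ` and let `D_φ` act on `(Sy K g)[X]` coefficientwise.  For `z ∈ g` write
`z = z_0 + z_1`.  It suffices to treat `z = z_0` and `z = z_1` (`derD` is additive).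

Even `z`: `scS (D F) = D (scS F)` for `D = derD (ι ∘ ad z)` (both sides are derivations along `scS`,
check on `ι x`: `[z, x_0]` is even, `[z, x_1]` is odd); so `D (coeff b) = coeff b (scS (D H)) = 0`,
and `adS (e z) (smap e G) = smap e (D G)` because `[e z, e x] = e [z, x]`.

Odd `z`: let `D⁺ = derD (x ↦ ι [z, x_0])`, `D⁻ = derD (x ↦ ι [z, x_1])`; `D⁺ + D⁻ = derD (ι ∘ ad z)`.
On generators `scS (D⁺ F) = X * D⁺ (scS F)` and `X * scS (D⁻ F) = D⁻ (scS F)`.  So
`0 = X * scS ((D⁺ + D⁻) H) = X ^ 2 * D⁺ (scS H) + D⁻ (scS H)`; the coefficient of `X ^ (b + 2)` is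
`D⁺ (coeff b)` since `coeff (b + 2) = 0`.  And `adS (e z) (smap e G) = smap e (D⁺ G)` because
`[e z, e x] = e [z, x_0]`.
-/

set_option autoImplicit false

namespace Pool.Agent.helper49.QA

open Polynomial Pool.Agent.helper5.AS
open Pool.Agent.helper5.ASQ (Invol even oddc brk IsContraction)

variable {K : Type*} [Field K] {g : Type*} [LieRing g] [LieAlgebra K g] (θ : Invol K g)

/-- the linear map `x ↦ x_0 + X x_1` -/
noncomputable def scSl : g →ₗ[K] (Sy K g)[X] where
  toFun := fun x => C (ιS K g (even θ x)) + X * C (ιS K g (oddc θ x))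
  map_add' := fun x y => by
    rw [Pool.Agent.helper5.ASQ.even_add, Pool.Agent.helper5.ASQ.oddc_add, (ιS K g).map_add,
      (ιS K g).map_add, C_add, C_add, mul_add]
    abel
  map_smul' := fun c x => by
    rw [Pool.Agent.helper5.ASQ.even_smul, Pool.Agent.helper5.ASQ.oddc_smul, (ιS K g).map_smul,
      (ιS K g).map_smul, RingHom.id_apply, smul_add, ← smul_C, ← smul_C, mul_smul_comm]

/-- the homomorphism `F ↦ F (x_0 + X x_1)` -/
noncomputable def scS : Sy K g →ₐ[K] (Sy K g)[X] := SymmetricAlgebra.lift (scSl θ)

theorem scS_ι (x : g) : scS θ (ιS K g x) =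
    C (ιS K g (even θ x)) + X * C (ιS K g (oddc θ x)) := by
  rw [scS, SymmetricAlgebra.lift_ι_apply]
  rfl

/-! ## coefficientwise derivations -/

section cw

variable {R A : Type*} [CommRing R] [CommRing A] [Algebra R A]

/-- the coefficientwise action of a derivation on polynomials -/
noncomputable def contract_cwf (D : Derivation R A A) (p : A[X]) : A[X] :=
  p.sum fun n a => monomial n (D a)

theorem contract_cwf_coeff (D : Derivation R A A) (p : A[X]) (m : ℕ) :
    (contract_cwf D p).coeff m = D (p.coeff m) := by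
  rw [contract_cwf, Polynomial.sum_def, finsetSum_coeff]
  simp only [coeff_monomial]
  rw [Finset.sum_ite_eq']
  split_ifs with h
  · rfl
  · rw [notMem_support_iff.1 h, map_zero]

/-- the coefficientwise action of a derivation on polynomials, as a derivation -/
noncomputable def contract_cw (D : Derivation R A A) : Derivation R A[X] A[X] :=
  Derivation.mk'
    { toFun := contract_cwf D
      map_add' := fun p q => by
        ext n
        rw [coeff_add, contract_cwf_coeff, contract_cwf_coeff, contract_cwf_coeff, coeff_add,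
          map_add]
      map_smul' := fun c p => by
        ext n
        rw [RingHom.id_apply, coeff_smul, contract_cwf_coeff, contract_cwf_coeff, coeff_smul,
          Derivation.map_smul] }
    (fun p q => by
      show contract_cwf D (p * q) = p • contract_cwf D q + q • contract_cwf D p
      ext n
      rw [contract_cwf_coeff, coeff_mul, map_sum, smul_eq_mul, smul_eq_mul, coeff_add,
        coeff_mul, mul_comm q, coeff_mul, ← Finset.sum_add_distrib]
      refine Finset.sum_congr rfl fun i _ => ?_
      rw [Derivation.leibniz, contract_cwf_coeff, contract_cwf_coeff, smul_eq_mul, smul_eq_mul]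
      ring)

theorem contract_cw_coeff (D : Derivation R A A) (p : A[X]) (m : ℕ) :
    (contract_cw D p).coeff m = D (p.coeff m) := contract_cwf_coeff D p m

theorem contract_cw_C (D : Derivation R A A) (a : A) : contract_cw D (C a) = C (D a) := by
  ext n
  rw [contract_cw_coeff, coeff_C, coeff_C]
  split_ifs
  · rfl
  · exact map_zero D

theorem contract_cw_X (D : Derivation R A A) : contract_cw D (X : A[X]) = 0 := by
  ext n
  rw [contract_cw_coeff, coeff_X, coeff_zero]
  split_ifs
  · exact Derivation.map_one_eq_zero D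
  · exact map_zero D

theorem contract_cw_CX (D : Derivation R A A) (a b : A) :
    contract_cw D (C a + X * C b) = C (D a) + X * C (D b) := by
  rw [map_add, Derivation.leibniz, contract_cw_C, contract_cw_C, contract_cw_X, smul_zero,
    add_zero, smul_eq_mul]

end cw

/-- derivations intertwined by `scS` up to factors are determined on the generators -/
theorem contract_gen {c c' : (Sy K g)[X]} {D D' : Derivation K (Sy K g) (Sy K g)}
    (h : ∀ x, c * scS θ (D (ιS K g x)) = c' * contract_cw D' (scS θ (ιS K g x)))
    (F : Sy K g) : c * scS θ (D F) = c' * contract_cw D' (scS θ F) := by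
  induction F using SymmetricAlgebra.induction with
  | algebraMap r =>
    rw [Derivation.map_algebraMap, map_zero, mul_zero, AlgHom.commutes,
      Derivation.map_algebraMap, mul_zero]
  | ι x => exact h x
  | mul a b ha hb =>
    rw [Derivation.leibniz, map_add, smul_eq_mul, smul_eq_mul, map_mul, map_mul, mul_add,
      mul_left_comm c, mul_left_comm c, ha, hb, map_mul, Derivation.leibniz, smul_eq_mul,
      smul_eq_mul, mul_add, mul_left_comm c', mul_left_comm c']
  | add a b ha hb =>
    rw [map_add, map_add, mul_add, ha, hb, map_add, map_add, mul_add]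

/-- derivations intertwined by `smap` are determined on the generators -/
theorem contract_smap {L M : Type*} [LieRing L] [LieAlgebra K L] [LieRing M] [LieAlgebra K M]
    (f : L →ₗ[K] M) {D : Derivation K (Sy K L) (Sy K L)} {D' : Derivation K (Sy K M) (Sy K M)}
    (h : ∀ x, D' (ιS K M (f x)) = smap f (D (ιS K L x))) (G : Sy K L) :
    D' (smap f G) = smap f (D G) := by
  induction G using SymmetricAlgebra.induction with
  | algebraMap r =>
    rw [Derivation.map_algebraMap, map_zero, AlgHom.commutes, Derivation.map_algebraMap]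
  | ι x =>
    have h2 := h x
    rw [← smap_ι f x] at h2
    exact h2
  | mul a b ha hb =>
    rw [Derivation.leibniz D, map_add, smul_eq_mul, smul_eq_mul, map_mul (smap f),
      map_mul (smap f), map_mul (smap f), Derivation.leibniz D', ha, hb, smul_eq_mul,
      smul_eq_mul]
  | add a b ha hb =>
    rw [map_add, map_add, ha, hb, map_add, map_add]

/-- the map `x ↦ [z, x_0]` -/
noncomputable def contract_p (z : g) : g →ₗ[K] Sy K g where
  toFun := fun x => ιS K g ⁅z, even θ x⁆
  map_add' := fun x y => by
    rw [Pool.Agent.helper5.ASQ.even_add, lie_add, (ιS K g).map_add]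
  map_smul' := fun c x => by
    rw [Pool.Agent.helper5.ASQ.even_smul, lie_smul, (ιS K g).map_smul, RingHom.id_apply]

/-- the map `x ↦ [z, x_1]` -/
noncomputable def contract_m (z : g) : g →ₗ[K] Sy K g where
  toFun := fun x => ιS K g ⁅z, oddc θ x⁆
  map_add' := fun x y => by
    rw [Pool.Agent.helper5.ASQ.oddc_add, lie_add, (ιS K g).map_add]
  map_smul' := fun c x => by
    rw [Pool.Agent.helper5.ASQ.oddc_smul, lie_smul, (ιS K g).map_smul, RingHom.id_apply]

theorem contract_p_apply (z x : g) : contract_p θ z x = ιS K g ⁅z, even θ x⁆ := rfl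

theorem contract_m_apply (z x : g) : contract_m θ z x = ιS K g ⁅z, oddc θ x⁆ := rfl

/-- the inner derivation on the symmetric algebra -/
noncomputable def contract_ad {L : Type*} [LieRing L] [LieAlgebra K L] (z : L) :
    Derivation K (Sy K L) (Sy K L) :=
  derD (ιS K L ∘ₗ (LieAlgebra.ad K L z : L →ₗ[K] L))

theorem contract_ad_ι {L : Type*} [LieRing L] [LieAlgebra K L] (z x : L) :
    contract_ad (K := K) z (ιS K L x) = ιS K L ⁅z, x⁆ := by
  rw [contract_ad, derD_ι]
  rfl

theorem contract_ad_apply {L : Type*} [LieRing L] [LieAlgebra K L] (z : L) (F : Sy K L) :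
    contract_ad z F = adS z F := rfl

variable [CharZero K] {k : Type*} [LieRing k] [LieAlgebra K k]

theorem contract_even_lie {z : g} (hz : θ.hom z = z) (x : g) :
    even θ ⁅z, x⁆ = ⁅z, even θ x⁆ ∧ oddc θ ⁅z, x⁆ = ⁅z, oddc θ x⁆ := by
  constructor
  · rw [even_lie, Pool.Agent.helper5.ASQ.even_of_fix θ hz,
      Pool.Agent.helper5.ASQ.oddc_of_fix θ hz, zero_lie, add_zero]
  · rw [oddc_lie, Pool.Agent.helper5.ASQ.even_of_fix θ hz,
      Pool.Agent.helper5.ASQ.oddc_of_fix θ hz, zero_lie, add_zero]

theorem contract_D0 {z : g} (hz : θ.hom z = z) (F : Sy K g) :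
    scS θ (contract_ad z F) = contract_cw (contract_ad z) (scS θ F) := by
  have h := contract_gen θ (c := 1) (c' := 1) (D := contract_ad z) (D' := contract_ad z)
    (fun x => by
      obtain ⟨h0, h1⟩ := contract_even_lie θ hz x
      rw [contract_ad_ι, scS_ι, scS_ι, contract_cw_CX, contract_ad_ι, contract_ad_ι, h0, h1]) F
  rw [one_mul, one_mul] at h
  exact h

theorem contract_Dp {z : g} (hz : θ.hom z = -z) (F : Sy K g) :
    scS θ (derD (contract_p θ z) F) = X * contract_cw (derD (contract_p θ z)) (scS θ F) := by
  have h := contract_gen θ (c := 1) (c' := X) (D := derD (contract_p θ z))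
    (D' := derD (contract_p θ z))
    (fun x => by
      have he : even θ (even θ x) = even θ x :=
        Pool.Agent.helper5.ASQ.even_of_fix θ (Pool.Agent.helper5.ASQ.hom_even θ x)
      have ho : even θ (oddc θ x) = 0 :=
        Pool.Agent.helper5.ASQ.even_of_neg θ (Pool.Agent.helper5.ASQ.hom_oddc θ x)
      have hn : θ.hom ⁅z, even θ x⁆ = -⁅z, even θ x⁆ := by
        rw [LieHom.map_lie, hz, Pool.Agent.helper5.ASQ.hom_even, neg_lie]
      rw [derD_ι, contract_p_apply, scS_ι, scS_ι, contract_cw_CX, derD_ι, derD_ι,
        contract_p_apply, contract_p_apply, he, ho, lie_zero, map_zero, map_zero, mul_zero,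
        add_zero, Pool.Agent.helper5.ASQ.even_of_neg θ hn,
        Pool.Agent.helper5.ASQ.oddc_of_neg θ hn, map_zero, map_zero, zero_add, one_mul]) F
  rw [one_mul] at h
  exact h

theorem contract_Dm {z : g} (hz : θ.hom z = -z) (F : Sy K g) :
    X * scS θ (derD (contract_m θ z) F) = contract_cw (derD (contract_m θ z)) (scS θ F) := by
  have h := contract_gen θ (c := X) (c' := 1) (D := derD (contract_m θ z))
    (D' := derD (contract_m θ z))
    (fun x => by
      have he : oddc θ (even θ x) = 0 :=
        Pool.Agent.helper5.ASQ.oddc_of_fix θ (Pool.Agent.helper5.ASQ.hom_even θ x)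
      have ho : oddc θ (oddc θ x) = oddc θ x :=
        Pool.Agent.helper5.ASQ.oddc_of_neg θ (Pool.Agent.helper5.ASQ.hom_oddc θ x)
      have hn : θ.hom ⁅z, oddc θ x⁆ = ⁅z, oddc θ x⁆ := by
        rw [LieHom.map_lie, hz, Pool.Agent.helper5.ASQ.hom_oddc, neg_lie, lie_neg, neg_neg]
      rw [derD_ι, contract_m_apply, scS_ι, scS_ι, contract_cw_CX, derD_ι, derD_ι,
        contract_m_apply, contract_m_apply, he, ho, lie_zero, map_zero, map_zero, zero_add,
        Pool.Agent.helper5.ASQ.even_of_fix θ hn,
        Pool.Agent.helper5.ASQ.oddc_of_fix θ hn, map_zero, map_zero, mul_zero, add_zero,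
        one_mul]) F
  rw [one_mul] at h
  exact h

theorem contract_pm (z : g) :
    derD (contract_p θ z) + derD (contract_m θ z) = contract_ad (K := K) z :=
  der_ext fun x => by
    rw [Derivation.add_apply, derD_ι, derD_ι, contract_ad_ι, contract_p_apply,
      contract_m_apply, ← map_add, ← lie_add, Pool.Agent.helper5.ASQ.even_add_oddc]

theorem contract_odd_zero {z : g} (hz : θ.hom z = -z) {H : Sy K g} (hH : H ∈ centre K g)
    {b : ℕ} (hb : (scS θ H).natDegree ≤ b) :
    derD (contract_p θ z) ((scS θ H).coeff b) = 0 := by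
  have h0 : contract_ad z H = 0 := hH z
  rw [← contract_pm θ z, Derivation.add_apply] at h0
  have h1 : X * (X * contract_cw (derD (contract_p θ z)) (scS θ H)) +
      contract_cw (derD (contract_m θ z)) (scS θ H) = 0 := by
    rw [← contract_Dp θ hz, ← contract_Dm θ hz, ← mul_add, ← map_add, h0, map_zero, mul_zero]
  have h2 := congrArg (fun p : (Sy K g)[X] => p.coeff (b + 1 + 1)) h1
  simp only [coeff_add, coeff_X_mul, contract_cw_coeff, coeff_zero] at h2
  have h3 : (scS θ H).coeff (b + 1 + 1) = 0 := coeff_eq_zero_of_natDegree_lt (by omega)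
  rw [h3, map_zero, add_zero] at h2
  exact h2


theorem centre_contract {e : g ≃ₗ[K] k} (he : IsContraction θ e) {H : Sy K g}
    (hH : H ∈ centre K g) {b : ℕ} (hb : (scS θ H).natDegree ≤ b) :
    smap (e : g →ₗ[K] k) ((scS θ H).coeff b) ∈ centre K k := by
  intro w
  obtain ⟨z, rfl⟩ := e.surjective w
  rw [← contract_ad_apply]
  have h := contract_smap (e : g →ₗ[K] k)
    (D := contract_ad (even θ z) + derD (contract_p θ (oddc θ z)))
    (D' := contract_ad (e z))
    (fun x => by
      rw [contract_ad_ι, Derivation.add_apply, contract_ad_ι, derD_ι, contract_p_apply,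
        ← map_add, smap_ι]
      congr 1
      show ⁅e z, e x⁆ = e (⁅even θ z, x⁆ + ⁅oddc θ z, even θ x⁆)
      have hx := Pool.Agent.helper5.ASQ.even_add_oddc θ x
      have hb2 : brk θ z x = ⁅even θ z, x⁆ + ⁅oddc θ z, even θ x⁆ := by
        conv_rhs => rw [← hx]
        rw [brk, lie_add]
        simp only [Pool.Agent.helper5.ASQ.even_add,
          Pool.Agent.helper5.ASQ.even_of_fix θ (Pool.Agent.helper5.ASQ.hom_even θ x),
          Pool.Agent.helper5.ASQ.even_of_neg θ (Pool.Agent.helper5.ASQ.hom_oddc θ x), add_zero]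
      rw [← hb2]
      exact he z x)
    ((scS θ H).coeff b)
  rw [h, Derivation.add_apply, contract_odd_zero θ (Pool.Agent.helper5.ASQ.hom_oddc θ z) hH hb,
    add_zero, ← contract_cw_coeff, ← contract_D0 θ (Pool.Agent.helper5.ASQ.hom_even θ z)]
  have h0 : contract_ad (even θ z) H = 0 := hH (even θ z)
  rw [h0, map_zero, coeff_zero, map_zero]

/-- homogeneity of the coefficients -/
theorem coeff_scS_mem {m : ℕ} {F : Sy K g} (hF : F ∈ imS K g ^ m) (b : ℕ) :
    (scS θ F).coeff b ∈ imS K g ^ m := by
  induction m generalizing F b with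
  | zero =>
    rw [pow_zero] at hF ⊢
    obtain ⟨c, rfl⟩ := Submodule.mem_one.1 hF
    rw [AlgHom.commutes, Polynomial.algebraMap_apply, coeff_C]
    split_ifs
    · exact Submodule.mem_one.2 ⟨c, rfl⟩
    · exact zero_mem _
  | succ m ih =>
    rw [pow_succ] at hF
    refine Submodule.mul_induction_on hF ?_ ?_
    · rintro a ha _ ⟨x, rfl⟩
      have hx : ∀ j, (scS θ (ιS K g x)).coeff j ∈ imS K g := by
        intro j
        rw [scS_ι, coeff_add]
        refine add_mem ?_ ?_
        · rw [coeff_C]
          split_ifs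
          · exact ⟨_, rfl⟩
          · exact zero_mem _
        · cases j with
          | zero =>
            rw [coeff_X_mul_zero]
            exact zero_mem _
          | succ j =>
            rw [coeff_X_mul, coeff_C]
            split_ifs
            · exact ⟨_, rfl⟩
            · exact zero_mem _
      rw [map_mul, coeff_mul, pow_succ]
      exact sum_mem fun i _ => Submodule.mul_mem_mul (ih ha i.1) (hx i.2)
    · intro a b' ha hb
      rw [map_add, coeff_add]
      exact add_mem ha hb

theorem smap_mem {L M : Type*} [LieRing L] [LieAlgebra K L] [LieRing M] [LieAlgebra K M]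
    (f : L →ₗ[K] M) {m : ℕ} {F : Sy K L} (hF : F ∈ imS K L ^ m) : smap f F ∈ imS K M ^ m := by
  induction m generalizing F with
  | zero =>
    rw [pow_zero] at hF ⊢
    obtain ⟨c, rfl⟩ := Submodule.mem_one.1 hF
    rw [AlgHom.commutes]
    exact Submodule.mem_one.2 ⟨c, rfl⟩
  | succ m ih =>
    rw [pow_succ] at hF
    refine Submodule.mul_induction_on hF ?_ ?_
    · rintro a ha _ ⟨x, rfl⟩
      have h := smap_ι f x
      rw [map_mul, h, pow_succ]
      exact Submodule.mul_mem_mul (ih ha) ⟨f x, rfl⟩
    · intro a b ha hb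
      rw [map_add]
      exact add_mem ha hb

end Pool.Agent.helper49.QA
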