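import Mathlib
import Pool.Agent.helper49.QA.Inj

/-!
# Commuting elements with algebraically independent symbols
-/

set_option autoImplicit false

namespace Pool.Agent.helper49.QA

open Pool.Agent.helper5.AS

variable {K : Type*} [Field K] {L : Type*} [LieRing L] [LieAlgebra K L]

theorem lifts_of_graph' (hpbw : SymbInj K L)
    (X : Subalgebra K (W K L))
    (hX : Subalgebra.toSubmodule X ≤ grd (Subalgebra.toSubmodule X))
    (hsv : ∀ w ∈ X, w.1 = 0 → w = 0)
    (hcomm : ∀ w ∈ X, ∀ w' ∈ X, w.2 * w'.2 = w'.2 * w.2)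
    (A : Subalgebra K (Sy K L)) (hA : ∀ a, a ∈ A ↔ ∃ w ∈ X, w.1 = a) : Lifts A := by
  refine ⟨X.map (AlgHom.snd K (Sy K L) (Ue K L)), ?_, ?_⟩
  · rintro _ ⟨w, hw, rfl⟩ _ ⟨w', hw', rfl⟩
    exact hcomm w hw w' hw'
  · apply le_antisymm
    · rw [grSub, Submodule.span_le]
      rintro a ⟨n, u, ⟨w, hw, rfl⟩, hsym⟩
      show a ∈ A
      have hsym' : IsSymbol n a w.2 := hsym
      by_cases hw0 : w = 0
      · have h1 : a = 0 := by
          refine hpbw _ _ _ hsym' ?_
          rw [hw0]
          exact zero_mem _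
        rw [h1]
        exact zero_mem _
      · obtain ⟨M, w', hw', h1, h2⟩ := lead hX (fun w hw => hsv w hw) hw hw0
        rcases lt_trichotomy M n with h | h | h
        · have h3 : a = 0 := hpbw _ _ _ hsym' (lowU_mono h h2.mem_low)
          rw [h3]
          exact zero_mem _
        · have h3 : a - w'.1 = 0 := by
            have h4 : IsSymbol n (a + (-1 : K) • w'.1) (w.2 + (-1 : K) • w.2) := by
              refine hsym'.add (IsSymbol.smul _ ?_)
              rw [← h]
              exact h2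
            have h5 := hpbw _ _ _ h4 (by
              rw [neg_one_smul, add_neg_cancel]
              exact zero_mem _)
            rwa [neg_one_smul, ← sub_eq_add_neg] at h5
          rw [sub_eq_zero.1 h3]
          exact (hA _).2 ⟨w', hw', rfl⟩
        · exact absurd (hpbw _ _ _ h2 (lowU_mono h hsym'.mem_low)) h1
    · intro a ha
      obtain ⟨w, hw, rfl⟩ := (hA a).1 ha
      obtain ⟨f, hf, hs⟩ := exists_sum_of_grd (hX hw)
      rw [← hs, Finsupp.sum, Prod.fst_sum]
      refine sum_mem fun n _ => ?_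
      exact Submodule.subset_span ⟨n, (f n).2, ⟨f n, (hf n).1, rfl⟩, (hf n).2⟩

open scoped IsMulCommutative in
/-- the subalgebra generated by commuting elements is the image of a polynomial ring -/
theorem comm_adjoin {W : Type*} [Ring W] [Algebra K W] {I : Type*} (g : I → W)
    (hc : ∀ i j, g i * g j = g j * g i) : ∃ Φ : MvPolynomial I K →ₐ[K] W,
    (∀ i, Φ (MvPolynomial.X i) = g i) ∧
      ∀ w, w ∈ Algebra.adjoin K (Set.range g) ↔ ∃ p, Φ p = w := by
  have hcW : ∀ x ∈ Set.range g, ∀ y ∈ Set.range g, x * y = y * x := by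
    rintro _ ⟨i, rfl⟩ _ ⟨j, rfl⟩
    exact hc i j
  have := Algebra.isMulCommutative_adjoin K hcW
  let gen : I → Algebra.adjoin K (Set.range g) :=
    fun i => ⟨g i, Algebra.subset_adjoin ⟨i, rfl⟩⟩
  let Φ : MvPolynomial I K →ₐ[K] W :=
    (Algebra.adjoin K (Set.range g)).val.comp (MvPolynomial.aeval gen)
  have hX : ∀ i, Φ (MvPolynomial.X i) = g i := by
    intro i
    show (Algebra.adjoin K (Set.range g)).val (MvPolynomial.aeval gen (MvPolynomial.X i)) = g i
    rw [MvPolynomial.aeval_X]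
    rfl
  refine ⟨Φ, hX, fun w => ⟨fun hw => ?_, ?_⟩⟩
  · induction hw using Algebra.adjoin_induction with
    | mem x hx =>
      obtain ⟨i, rfl⟩ := hx
      exact ⟨MvPolynomial.X i, hX i⟩
    | algebraMap r => exact ⟨algebraMap K _ r, AlgHom.commutes Φ r⟩
    | add x y _ _ hx hy =>
      obtain ⟨p, hp⟩ := hx
      obtain ⟨q, hq⟩ := hy
      exact ⟨p + q, by rw [map_add, hp, hq]⟩
    | mul x y _ _ hx hy =>
      obtain ⟨p, hp⟩ := hx
      obtain ⟨q, hq⟩ := hy
      exact ⟨p * q, by rw [map_mul, hp, hq]⟩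
  · rintro ⟨p, rfl⟩
    exact (MvPolynomial.aeval gen p).2

/-- commuting elements with algebraically independent symbols: the algebra generated by the
symbols lifts -/
theorem lifts_of_algIndep (hpbw : SymbInj K L) {I : Type*} (a : I → Sy K L) (n : I → ℕ)
    (u : I → Ue K L) (hs : ∀ i, IsSymbol (n i) (a i) (u i))
    (hc : ∀ i j, u i * u j = u j * u i) (hind : AlgebraicIndependent K a) :
    Lifts (Algebra.adjoin K (Set.range a)) := by
  obtain ⟨Φ, hΦ, hX⟩ := comm_adjoin (K := K) (fun i => ((a i, u i) : W K L))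
    fun i j => Prod.ext (mul_comm _ _) (hc i j)
  set X := Algebra.adjoin K (Set.range (fun i => ((a i, u i) : W K L))) with hXdef
  have hfst : ∀ p : MvPolynomial I K, (Φ p).1 = MvPolynomial.aeval a p := by
    intro p
    have h : (AlgHom.fst K (Sy K L) (Ue K L)).comp Φ = MvPolynomial.aeval a := by
      refine MvPolynomial.algHom_ext fun i => ?_
      rw [AlgHom.comp_apply, hΦ, MvPolynomial.aeval_X]
      rfl
    exact congrArg (fun F : MvPolynomial I K →ₐ[K] Sy K L => F p) h
  refine lifts_of_graph' hpbw X ?_ ?_ ?_ _ ?_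
  · refine adjoin_grd ?_
    rintro _ ⟨i, rfl⟩
    exact mem_grd_of (n := n i) (Algebra.subset_adjoin ⟨i, rfl⟩) (hs i)
  · intro w hw h0
    obtain ⟨p, rfl⟩ := (hX w).1 hw
    have h1 : MvPolynomial.aeval a p = 0 := by rw [← hfst, h0]
    have h2 : p = 0 := by
      have h3 := hind
      rw [AlgebraicIndependent] at h3
      exact h3 (by rw [h1, map_zero])
    rw [h2, map_zero]
  · intro w hw w' hw'
    obtain ⟨p, rfl⟩ := (hX w).1 hw
    obtain ⟨q, rfl⟩ := (hX w').1 hw'
    have h' : Φ p * Φ q = Φ q * Φ p := by rw [← map_mul, ← map_mul, mul_comm]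
    exact congrArg Prod.snd h'
  · intro b
    rw [Algebra.adjoin_range_eq_range_aeval]
    constructor
    · rintro ⟨p, rfl⟩
      exact ⟨Φ p, (hX _).2 ⟨p, rfl⟩, hfst p⟩
    · rintro ⟨w, hw, rfl⟩
      obtain ⟨p, rfl⟩ := (hX w).1 hw
      exact ⟨p, (hfst p).symm⟩

end Pool.Agent.helper49.QA
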