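import Mathlib
import Pool.Agent.helper5.AS.Bridge
import Pool.Agent.helper49.QA.Fun
import Pool.Agent.helper49.QA.LiftInd

/-!
# Regular points, data for a Lie algebra and the property `Quant`
-/

set_option autoImplicit false

namespace Pool.Agent.helper49.QA

open Polynomial Pool.Agent.helper5.AS

variable {K : Type*} [Field K] {L : Type*} [LieRing L] [LieAlgebra K L]

/-- the stabiliser of `ξ` -/
def stab (ξ : L →ₗ[K] K) : Submodule K L where
  carrier := {x | ∀ y, ξ ⁅x, y⁆ = 0}
  add_mem' := fun {a b} ha hb y => by rw [add_lie, map_add, ha, hb, add_zero]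
  zero_mem' := fun y => by rw [zero_lie, map_zero]
  smul_mem' := fun c x hx y => by rw [smul_lie, map_smul, hx, smul_zero]

theorem mem_stab {ξ : L →ₗ[K] K} {x : L} : x ∈ stab ξ ↔ ∀ y, ξ ⁅x, y⁆ = 0 := Iff.rfl

/-- `ξ` is regular: its stabiliser has the minimal dimension -/
def IsReg (ξ : L →ₗ[K] K) : Prop :=
  ∀ η : L →ₗ[K] K, Module.finrank K (stab ξ) ≤ Module.finrank K (stab η)

/-- restriction of functions to the line `x + t y` -/
noncomputable def ev2 (x y : L →ₗ[K] K) : Sy K L →ₐ[K] K[X] :=
  SymmetricAlgebra.lift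
    ((monomial 0).restrictScalars K ∘ₗ x + (monomial 1).restrictScalars K ∘ₗ y)

theorem ev2_ι (x y : L →ₗ[K] K) (z : L) : ev2 x y (ιS K L z) = C (x z) + C (y z) * X := by
  rw [ev2, SymmetricAlgebra.lift_ι_apply]
  show monomial 0 (x z) + monomial 1 (y z) = _
  rw [monomial_zero_left, C_mul_X_eq_monomial]

/-- the derivative of `F` at the point `x` in the direction `y` -/
noncomputable def dd (x y : L →ₗ[K] K) (F : Sy K L) : K := (ev2 x y F).coeff 1

/-- classical data: homogeneous elements `F i` of the Poisson centre, a plane spanned by `p` and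
`q` in which they have independent differentials outside of the origin, and a point `x0` with a
stabiliser of dimension at most the number of the `F i` -/
structure Data {I : Type*} [Fintype I] (F : I → Sy K L) (d : I → ℕ) (p q x0 : L →ₗ[K] K) :
    Prop where
  pos : ∀ i, 1 ≤ d i
  hom : ∀ i, F i ∈ imS K L ^ d i
  cen : ∀ i, F i ∈ centre K L
  ind : ∀ s t : K, ¬ (s = 0 ∧ t = 0) →
    LinearIndependent K fun i => (fun y : L →ₗ[K] K => dd (s • p + t • q) y (F i))
  idx : Module.finrank K (stab x0) ≤ Fintype.card I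

/-- the shifts of the `F i` in the direction `ξ` have commuting lifts to `U(L)` -/
def Comm {I : Type*} (F : I → Sy K L) (d : I → ℕ) (ξ : L →ₗ[K] K) : Prop :=
  ∃ u : I → ℕ → Ue K L, (∀ i j m n, m < d i → n < d j → u i m * u j n = u j n * u i m) ∧
    ∀ i m, m < d i → IsSymbol (d i - m) ((shift ξ (F i)).coeff m) (u i m)

/-- `L` has a faithful representation by matrices -/
def Lin (K L : Type*) [Field K] [LieRing L] [LieAlgebra K L] : Prop :=
  ∃ (N : ℕ) (ρ : L →ₗ[K] Matrix (Fin N) (Fin N) K), IsLieMap ρ ∧ Function.Injective ρ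

theorem Lin.symbInj [CharZero K] (h : Lin K L) : SymbInj K L := by
  obtain ⟨N, ρ, hρ, hinj⟩ := h
  exact symbInj_of_linear ρ hρ hinj

/-- there are data for `L` with commuting lifts for all `ξ` -/
def Quant (K L : Type*) [Field K] [LieRing L] [LieAlgebra K L] : Prop :=
  Lin K L ∧ ∃ (n : ℕ) (F : Fin n → Sy K L) (d : Fin n → ℕ) (p q x0 : L →ₗ[K] K),
    Data F d p q x0 ∧ ∀ ξ : L →ₗ[K] K, Comm F d ξ

end Pool.Agent.helper49.QA
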