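import Mathlib
import Pool.Agent.helper49.QA.Mu
import Pool.Agent.helper49.QA.Evc

/-!
# The limit lemma

`g` is a linear Lie algebra with an involution and `k` is its contraction.  Identities in `U(g)`
between elements of bounded degree in `g_1` give identities in `U(k)` between the leading parts.
-/

set_option autoImplicit false

namespace Pool.Agent.helper49.QA

open Polynomial Pool.Agent.helper5.AS
open Pool.Agent.helper5.ASQ (Invol even oddc brk IsContraction)

variable {K : Type*} [Field K] {g : Type*} [LieRing g] [LieAlgebra K g]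
variable (θ : Invol K g) {A : Type*} [Ring A] [Algebra K A]

section

variable {κ : Type*} (bM : Module.Basis κ K (Module.Dual K (Matrix (Fin 2) (Fin 2) A)))
variable (ρ : g →ₗ[K] A)

/-- the linear map underlying `opX` -/
noncomputable def opXl : g →ₗ[K] (Module.End K (MvPolynomial κ K))[X] where
  toFun := fun x => C (vfL bM (mu θ ρ 0 1 x)) + X ^ 2 * C (vfL bM (mu θ ρ 1 0 x - mu θ ρ 0 0 x))
  map_add' := fun x y => by
    rw [map_add (mu θ ρ 0 1), map_add (mu θ ρ 1 0), map_add (mu θ ρ 0 0), add_sub_add_comm,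
      map_add (vfL bM), map_add (vfL bM), C_add, C_add, mul_add]
    abel
  map_smul' := fun c x => by
    rw [map_smul (mu θ ρ 0 1), map_smul (mu θ ρ 1 0), map_smul (mu θ ρ 0 0), ← smul_sub,
      map_smul (vfL bM), map_smul (vfL bM), RingHom.id_apply, smul_add, ← smul_C, ← smul_C,
      mul_smul_comm]

/-- the operators for all the values of the contraction parameter -/
noncomputable def opX :
    TensorAlgebra K g →ₐ[K] (Module.End K (MvPolynomial κ K))[X] :=
  TensorAlgebra.lift K (opXl θ bM ρ)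

theorem opX_ι (x : g) : opX θ bM ρ (TensorAlgebra.ι K x) =
    C (vfL bM (mu θ ρ 0 1 x)) + X ^ 2 * C (vfL bM (mu θ ρ 1 0 x - mu θ ρ 0 0 x)) := by
  rw [opX, TensorAlgebra.lift_ι_apply]
  rfl

theorem mu_split (s : K) (x : g) : mu θ ρ (s ^ 2) 1 x =
    mu θ ρ 0 1 x + (s ^ 2) • (mu θ ρ 1 0 x - mu θ ρ 0 0 x) := by
  rw [mu_apply, mu_apply, mu_apply, mu_apply, blk, blk, blk, blk]
  ext i j
  fin_cases i <;> fin_cases j <;> simp

theorem evc_opX (s : K) (t : TensorAlgebra K g) :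
    evc s (opX θ bM ρ t) = opT bM (mu θ ρ (s ^ 2) 1) t := by
  have h : (evc s).comp (opX θ bM ρ) = opT bM (mu θ ρ (s ^ 2) 1) := by
    refine TensorAlgebra.hom_ext (LinearMap.ext fun x => ?_)
    show evc s (opX θ bM ρ (TensorAlgebra.ι K x)) = opT bM _ (TensorAlgebra.ι K x)
    rw [opX_ι, opT_ι, map_add, map_mul, map_pow, evc_C, evc_C, evc_X, ← map_pow,
      ← Algebra.smul_def, mu_split, map_add (vfL bM), map_smul (vfL bM)]
  exact congrArg (fun F : TensorAlgebra K g →ₐ[K] Module.End K (MvPolynomial κ K) => F t) h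

theorem opT_mu_tmap [CharZero K] (s t r : K) (x : TensorAlgebra K g) :
    opT bM (mu θ ρ s t) (tmap (scl θ r) x) = opT bM (mu θ ρ (s * r) (t * r)) x := by
  have h : (opT bM (mu θ ρ s t)).comp (tmap (scl θ r)) =
      opT bM (mu θ ρ (s * r) (t * r)) := by
    refine TensorAlgebra.hom_ext (LinearMap.ext fun x => ?_)
    show opT bM _ (tmap (scl θ r) (TensorAlgebra.ι K x)) = opT bM _ (TensorAlgebra.ι K x)
    rw [tmap_ι, opT_ι, opT_ι, mu_scl]
  exact congrArg (fun F : TensorAlgebra K g →ₐ[K] Module.End K (MvPolynomial κ K) => F x) h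

/-- the contraction polynomial of `R` -/
noncomputable def opW (b : ℕ) (R : (TensorAlgebra K g)[X]) :
    (Module.End K (MvPolynomial κ K))[X] :=
  ∑ c ∈ Finset.range (b + 1), X ^ (b - c) * opX θ bM ρ (R.coeff c)

theorem evc_opW_zero (b : ℕ) (R : (TensorAlgebra K g)[X]) :
    evc (0 : K) (opW θ bM ρ b R) = opT bM (mu θ ρ 0 1) (R.coeff b) := by
  rw [opW, map_sum, Finset.sum_range_succ, Finset.sum_eq_zero, zero_add, Nat.sub_self,
    pow_zero, one_mul, evc_opX]
  · have h8 : ((0 : K) ^ 2) = 0 := by norm_num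
    rw [h8]
  · intro c hc
    rw [Finset.mem_range] at hc
    rw [map_mul, map_pow, evc_X, map_zero, zero_pow (by omega), zero_mul]

theorem evc_opW {b : ℕ} {R : (TensorAlgebra K g)[X]} (hb : R.natDegree ≤ b) {r : K}
    (hr : r ≠ 0) :
    evc r (opW θ bM ρ b R) = r ^ b • opT bM (mu θ ρ (r ^ 2) 1) (evc r⁻¹ R) := by
  rw [opW, map_sum, evc_of_le r⁻¹ R hb, map_sum, Finset.smul_sum]
  refine Finset.sum_congr rfl fun c hc => ?_
  rw [Finset.mem_range] at hc
  rw [map_mul, map_pow, evc_X, evc_opX, map_smul, smul_smul, ← map_pow, ← Algebra.smul_def]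
  congr 1
  rw [inv_pow, ← div_eq_mul_inv, eq_div_iff (pow_ne_zero _ hr), ← pow_add]
  congr 1
  omega

/-- the contraction polynomial of `t`, second form -/
noncomputable def opV (t : (TensorAlgebra K g)[X]) : (Module.End K (MvPolynomial κ K))[X] :=
  ∑ c ∈ Finset.range (t.natDegree + 1), X ^ c * opX θ bM ρ (t.coeff c)

theorem evc_opV (t : (TensorAlgebra K g)[X]) (r : K) :
    evc r (opV θ bM ρ t) = opT bM (mu θ ρ (r ^ 2) 1) (evc r t) := by
  rw [opV, map_sum, evc_apply, map_sum]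
  refine Finset.sum_congr rfl fun c _ => ?_
  rw [map_mul, map_pow, evc_X, evc_opX, map_smul, ← map_pow, ← Algebra.smul_def]

end

variable [CharZero K] {k : Type*} [LieRing k] [LieAlgebra K k]

theorem opT_con {κ : Type*} (bM : Module.Basis κ K (Module.Dual K (Matrix (Fin 2) (Fin 2) A)))
    (ρ : g →ₗ[K] A) (e : g ≃ₗ[K] k) (t : TensorAlgebra K g) :
    opT bM (mu θ ρ 0 1 ∘ₗ (e.symm : k →ₗ[K] g)) (tmap (e : g →ₗ[K] k) t) =
      opT bM (mu θ ρ 0 1) t := by
  have h2 : (opT bM (mu θ ρ 0 1 ∘ₗ (e.symm : k →ₗ[K] g))).comp (tmap (e : g →ₗ[K] k)) =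
      opT bM (mu θ ρ 0 1) := by
    refine TensorAlgebra.hom_ext (LinearMap.ext fun x => ?_)
    show opT bM _ (tmap (e : g →ₗ[K] k) (TensorAlgebra.ι K x)) =
      opT bM _ (TensorAlgebra.ι K x)
    rw [tmap_ι, opT_ι, opT_ι]
    congr 1
    show mu θ ρ 0 1 (e.symm (e x)) = _
    rw [LinearEquiv.symm_apply_apply]
  exact congrArg (fun F : TensorAlgebra K g →ₐ[K] Module.End K _ => F t) h2

/-- THE LIMIT LEMMA, second form: let `t(r)` be a polynomial in `r` with coefficients in the tensor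
algebra; if `x_0 + x_1 ↦ x_0 + r x_1` maps `t(r)` to `0` in `U(g)` for all `r ≠ 0` then `t(0)`
is `0` in `U(k)` -/
theorem limit0 {ρ : g →ₗ[K] A} (hρ : IsLieMap ρ) (hinj : Function.Injective ρ)
    {e : g ≃ₗ[K] k} (he : IsContraction θ e) (t : (TensorAlgebra K g)[X])
    (h : ∀ r : K, r ≠ 0 → (pU (tmap (scl θ r) (evc r t)) : Ue K g) = 0) :
    (pU (tmap (e : g →ₗ[K] k) (t.coeff 0)) : Ue K k) = 0 := by
  refine eq_zero_of_op (mu θ ρ 0 1 ∘ₗ (e.symm : k →ₗ[K] g)) (isLieMap_con θ hρ he)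
    (con_injective θ hinj e) ?_
  generalize bD K (Matrix (Fin 2) (Fin 2) A) = bM
  rw [opU_pU, opT_con]
  have h1 : opT bM (mu θ ρ 0 1) (t.coeff 0) = evc (0 : K) (opV θ bM ρ t) := by
    rw [evc_opV, evc_zero_eq_coeff]
    congr 2
    norm_num
  have hW0 : opV θ bM ρ t = 0 := by
    refine eq_zero_of_evc (K := K) fun r hr => ?_
    rw [evc_opV]
    have h5 := congrArg (opU bM (mu θ ρ r r⁻¹) (isLieMap_mu θ hρ (mul_inv_cancel₀ hr))) (h r hr)
    rwa [opU_pU, map_zero, opT_mu_tmap, ← pow_two, inv_mul_cancel₀ hr] at h5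
  rw [h1, hW0, map_zero]

/-- THE LIMIT LEMMA: let `R` be a polynomial of degree at most `b` with coefficients in the tensor
algebra; if `x_0 + x_1 ↦ x_0 + s⁻¹ x_1` maps `R(s)` to `0` in `U(g)` for all `s ≠ 0` then the
coefficient of degree `b` is `0` in `U(k)` -/
theorem limit {ρ : g →ₗ[K] A} (hρ : IsLieMap ρ) (hinj : Function.Injective ρ)
    {e : g ≃ₗ[K] k} (he : IsContraction θ e) (R : (TensorAlgebra K g)[X]) {b : ℕ}
    (hb : R.natDegree ≤ b)
    (h : ∀ s : K, s ≠ 0 → (pU (tmap (scl θ s⁻¹) (evc s R)) : Ue K g) = 0) :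
    (pU (tmap (e : g →ₗ[K] k) (R.coeff b)) : Ue K k) = 0 := by
  refine eq_zero_of_op (mu θ ρ 0 1 ∘ₗ (e.symm : k →ₗ[K] g)) (isLieMap_con θ hρ he)
    (con_injective θ hinj e) ?_
  generalize bD K (Matrix (Fin 2) (Fin 2) A) = bM
  rw [opU_pU, opT_con, ← evc_opW_zero]
  have hW0 : opW θ bM ρ b R = 0 := by
    refine eq_zero_of_evc (K := K) fun r hr => ?_
    rw [evc_opW θ bM ρ hb hr]
    have h3 := h r⁻¹ (inv_ne_zero hr)
    rw [inv_inv] at h3
    have h5 := congrArg (opU bM (mu θ ρ r r⁻¹) (isLieMap_mu θ hρ (mul_inv_cancel₀ hr))) h3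
    rw [opU_pU, map_zero, opT_mu_tmap, ← pow_two, inv_mul_cancel₀ hr] at h5
    rw [h5, smul_zero]
  rw [hW0, map_zero]

end Pool.Agent.helper49.QA
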