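import Mathlib
import Pool.Agent.helper49.QA.Fun

/-!
# Symmetrised minors, square roots of sequences and the antipode: common definitions
-/

set_option autoImplicit false

namespace Pool.Agent.helper49.QA

open Pool.Agent.helper5.AS

/-- `altD k A = ∑ (i : Fin k → n) (τ : Perm (Fin k)), sign τ * A (i 0) (i (τ 0)) * ... ` (ordered
product): `k!` times the sum of the symmetrised principal minors of size `k` of the matrix `A` with
entries in a (noncommutative) ring -/
def altD {n : Type*} [Fintype n] {E : Type*} [Ring E] (k : ℕ) (A : Matrix n n E) : E :=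
  ∑ i : Fin k → n, ∑ τ : Equiv.Perm (Fin k),
    (Equiv.Perm.sign τ : ℤ) • (List.ofFn fun j => A (i j) (i (τ j))).prod

/-- the generating function `det (1 + u M)` of the sums of principal minors -/
noncomputable def gd {n : Type*} [Fintype n] [DecidableEq n] {R : Type*} [CommRing R]
    (M : Matrix n n R) : Polynomial R :=
  (1 + (Polynomial.X : Polynomial R) • M.map Polynomial.C).det

/-- the sum of the principal minors of size `k` -/
noncomputable def ek {n : Type*} [Fintype n] [DecidableEq n] {R : Type*} [CommRing R]
    (k : ℕ) (M : Matrix n n R) : R := (gd M).coeff k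

/-- the square root of a sequence `c` with `c 0 = 1`: `(∑ sqr c k u ^ k) ^ 2 = ∑ c k u ^ k` if the
`c k` commute -/
noncomputable def sqr (K : Type*) [Field K] {E : Type*} [Ring E] [Algebra K E] (c : ℕ → E) :
    ℕ → E
  | 0 => 1
  | k + 1 => (2 : K)⁻¹ • (c (k + 1) - ∑ i : Fin k, sqr K c (i + 1) * sqr K c (k - i))
termination_by k => k
decreasing_by
  all_goals omega

attribute [local instance 100] LieRing.ofAssociativeRing

variable {K : Type*} [Field K] {L : Type*} [LieRing L] [LieAlgebra K L]

/-- the antipode of `U(L)`, the antiautomorphism with `x ↦ -x`, as a homomorphism to the opposite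
algebra -/
noncomputable def antO : Ue K L →ₐ[K] (Ue K L)ᵐᵒᵖ :=
  UniversalEnvelopingAlgebra.lift K
    { toFun := fun x => MulOpposite.op (-(ιU K L x))
      map_add' := fun x y => by rw [map_add, neg_add, MulOpposite.op_add]
      map_smul' := fun c x => by
        rw [map_smul, ← smul_neg, MulOpposite.op_smul]
        rfl
      map_lie' := fun {x y} => by
        rw [LieRing.of_associative_ring_bracket, ← MulOpposite.op_mul, ← MulOpposite.op_mul,
          ← MulOpposite.op_sub, neg_mul_neg, neg_mul_neg, ← ιU_comm, neg_sub] }

/-- the antipode of `U(L)`, as a linear map -/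
noncomputable def ant : Ue K L →ₗ[K] Ue K L :=
  (MulOpposite.opLinearEquiv K).symm.toLinearMap ∘ₗ (antO (K := K) (L := L)).toLinearMap

theorem ant_apply (u : Ue K L) : ant u = MulOpposite.unop (antO u) := rfl

theorem ant_ι (x : L) : ant (ιU K L x) = -(ιU K L x) := by
  have h : antO (ιU K L x) = MulOpposite.op (-(ιU K L x)) :=
    UniversalEnvelopingAlgebra.lift_ι_apply K (A := (Ue K L)ᵐᵒᵖ)
      { toFun := fun x => MulOpposite.op (-(ιU K L x))
        map_add' := fun x y => by rw [map_add, neg_add, MulOpposite.op_add]
        map_smul' := fun c x => by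
          rw [map_smul, ← smul_neg, MulOpposite.op_smul]
          rfl
        map_lie' := fun {x y} => by
          rw [LieRing.of_associative_ring_bracket, ← MulOpposite.op_mul, ← MulOpposite.op_mul,
            ← MulOpposite.op_sub, neg_mul_neg, neg_mul_neg, ← ιU_comm, neg_sub] } x
  rw [ant_apply, h, MulOpposite.unop_op]

theorem ant_mul (u v : Ue K L) : ant (u * v) = ant v * ant u := by
  rw [ant_apply, map_mul, MulOpposite.unop_mul, ← ant_apply, ← ant_apply]

theorem ant_one : ant (1 : Ue K L) = 1 := by
  rw [ant_apply, map_one, MulOpposite.unop_one]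

theorem ant_algebraMap (c : K) : ant (algebraMap K (Ue K L) c) = algebraMap K (Ue K L) c := by
  rw [Algebra.algebraMap_eq_smul_one, map_smul, ant_one]

end Pool.Agent.helper49.QA
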