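import Mathlib
import Pool.Agent.helper49.QA.Alt
import Pool.Agent.helper49.QA.Fun
import Pool.Agent.helper5.AS.Sorted
import Pool.Agent.helper5.AS.Sym

/-!
# Quantised families

`Qf C d F V`: the elements `V ξ m` of `U(L)` quantise the coefficients of `t ^ m` of `F (x + t ξ)`,
they depend polynomially on `ξ`, have the right parity under the antipode and lie in the
subalgebras `C ξ`.  All the properties are closed under products and linear combinations.
-/

set_option autoImplicit false

namespace Pool.Agent.helper49.QA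

open Polynomial Pool.Agent.helper5.AS

variable {K : Type*} [Field K] {L : Type*} [LieRing L] [LieAlgebra K L]

/-- a quantised family -/
structure Qf (C : (L →ₗ[K] K) → Subalgebra K (Ue K L)) (d : ℕ) (F : Sy K L)
    (V : (L →ₗ[K] K) → ℕ → Ue K L) : Prop where
  mem : F ∈ imS K L ^ d
  symb : ∀ ξ m, m ≤ d → IsSymbol (d - m) ((shift ξ F).coeff m) (V ξ m)
  zero : ∀ ξ m, d < m → V ξ m = 0
  poly : ∀ ξ η m, ∃ w : ℕ → Ue K L, ∀ s : K,
    V (ξ + s • η) m = ∑ j ∈ Finset.range (m + 1), s ^ j • w j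
  par : ∀ ξ m, ant (V ξ m) = (-1 : K) ^ (d + m) • V ξ m
  cen : ∀ ξ m, V ξ m ∈ C ξ

/-- `F` has a quantised family -/
def HasQ (C : (L →ₗ[K] K) → Subalgebra K (Ue K L)) (d : ℕ) (F : Sy K L) : Prop :=
  ∃ V, Qf C d F V

variable {C : (L →ₗ[K] K) → Subalgebra K (Ue K L)}

/-! ### functions of one scalar which are polynomials of degree at most `m` -/

/-- `f s` is a polynomial in `s` of degree at most `m` -/
private def PLe {E : Type*} [Ring E] [Algebra K E] (m : ℕ) (f : K → E) : Prop :=
  ∃ w : ℕ → E, ∀ s : K, f s = ∑ j ∈ Finset.range (m + 1), s ^ j • w j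

private theorem pLe_iff {E : Type*} [Ring E] [Algebra K E] (m : ℕ) (f : K → E) :
    PLe m f ↔ ∃ p : E[X], p.natDegree ≤ m ∧ ∀ s : K, f s = evc s p := by
  constructor
  · rintro ⟨w, hw⟩
    refine ⟨∑ j ∈ Finset.range (m + 1), Polynomial.monomial j (w j), ?_, fun s => ?_⟩
    · refine Polynomial.natDegree_sum_le_of_forall_le _ _ fun j hj => ?_
      have := Finset.mem_range.1 hj
      exact (Polynomial.natDegree_monomial_le _).trans (by omega)
    · rw [hw s, map_sum]
      refine Finset.sum_congr rfl fun j _ => ?_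
      rw [evc_eq, Polynomial.eval₂_monomial, RingHom.id_apply, ← map_pow, ← Algebra.commutes,
        Algebra.smul_def]
  · rintro ⟨p, hp, hf⟩
    exact ⟨fun j => p.coeff j, fun s => by rw [hf s, evc_of_le s p hp]⟩

private theorem PLe.add {E : Type*} [Ring E] [Algebra K E] {m : ℕ} {f g : K → E}
    (hf : PLe m f) (hg : PLe m g) : PLe m (fun s => f s + g s) := by
  obtain ⟨w, hw⟩ := hf
  obtain ⟨v, hv⟩ := hg
  refine ⟨fun j => w j + v j, fun s => ?_⟩
  beta_reduce
  rw [hw s, hv s, ← Finset.sum_add_distrib]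
  exact Finset.sum_congr rfl fun j _ => (smul_add _ _ _).symm

private theorem PLe.zero {E : Type*} [Ring E] [Algebra K E] (m : ℕ) :
    PLe m (fun _ : K => (0 : E)) :=
  ⟨fun _ => 0, fun s => by simp⟩

private theorem PLe.const {E : Type*} [Ring E] [Algebra K E] (m : ℕ) (e : E) :
    PLe m (fun _ : K => e) :=
  (pLe_iff m _).2 ⟨Polynomial.C e, by simp, fun s => (evc_C s e).symm⟩

private theorem PLe.smul {E : Type*} [Ring E] [Algebra K E] {m : ℕ} {f : K → E}
    (c : K) (hf : PLe m f) : PLe m (fun s => c • f s) := by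
  obtain ⟨w, hw⟩ := hf
  refine ⟨fun j => c • w j, fun s => ?_⟩
  beta_reduce
  rw [hw s, Finset.smul_sum]
  exact Finset.sum_congr rfl fun j _ => smul_comm _ _ _

private theorem PLe.sum {E : Type*} [Ring E] [Algebra K E] {ι : Type*} (t : Finset ι) {m : ℕ}
    {f : ι → K → E} (hf : ∀ i ∈ t, PLe m (f i)) : PLe m (fun s => ∑ i ∈ t, f i s) := by
  classical
  induction t using Finset.induction_on with
  | empty => simpa using PLe.zero (K := K) (E := E) m
  | insert i t hi ih =>
    simp only [Finset.sum_insert hi]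
    exact (hf i (Finset.mem_insert_self i t)).add
      (ih fun j hj => hf j (Finset.mem_insert_of_mem hj))

private theorem PLe.mul {E : Type*} [Ring E] [Algebra K E] {m n : ℕ} {f g : K → E}
    (hf : PLe m f) (hg : PLe n g) : PLe (m + n) (fun s => f s * g s) := by
  rw [pLe_iff] at hf hg ⊢
  obtain ⟨p, hp, hf⟩ := hf
  obtain ⟨q, hq, hg⟩ := hg
  refine ⟨p * q, Polynomial.natDegree_mul_le.trans (add_le_add hp hq), fun s => ?_⟩
  rw [map_mul, hf s, hg s]

private theorem PLe.map {E E' : Type*} [Ring E] [Algebra K E] [Ring E'] [Algebra K E'] {m : ℕ}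
    {f : K → E} (hf : PLe m f) (φ : E →ₗ[K] E') : PLe m (fun s => φ (f s)) := by
  obtain ⟨w, hw⟩ := hf
  refine ⟨fun j => φ (w j), fun s => ?_⟩
  beta_reduce
  rw [hw s, map_sum]
  exact Finset.sum_congr rfl fun j _ => map_smul _ _ _

private theorem shift_ι' (ξ : L →ₗ[K] K) (y : L) :
    shift ξ (ιS K L y) = Polynomial.C (ιS K L y) +
      Polynomial.C (algebraMap K (Sy K L) (ξ y)) * Polynomial.X := by
  rw [shift, expand_ι]
  rfl

private theorem shift_PLe (ξ η : L →ₗ[K] K) (F : Sy K L) (m : ℕ) :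
    PLe m (fun s : K => (shift (ξ + s • η) F).coeff m) := by
  induction F using SymmetricAlgebra.induction generalizing m with
  | algebraMap r =>
    have h : (fun s : K => (shift (ξ + s • η) (algebraMap K (Sy K L) r)).coeff m) =
        fun _ => (algebraMap K (Sy K L)[X] r).coeff m := by
      funext s
      rw [AlgHom.commutes]
    rw [h]
    exact PLe.const m _
  | ι x =>
    have h : (fun s : K => (shift (ξ + s • η) (SymmetricAlgebra.ι K L x)).coeff m) =
        fun s => (Polynomial.C (ιS K L x)).coeff m +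
          (if m = 1 then algebraMap K (Sy K L) (ξ x + s * η x) else 0) := by
      funext s
      have h1 := shift_ι' (ξ + s • η) x
      rw [ιS] at h1
      rw [h1, Polynomial.coeff_add, Polynomial.coeff_C_mul, Polynomial.coeff_X]
      congr 1
      by_cases hm : m = 1
      · subst hm
        rw [if_pos rfl, if_pos rfl, mul_one]
        rfl
      · rw [if_neg (fun h => hm h.symm), if_neg hm, mul_zero]
    rw [h]
    refine (PLe.const m _).add ?_
    by_cases hm : m = 1
    · subst hm
      simp only [if_true]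
      refine ⟨fun j => if j = 0 then algebraMap K (Sy K L) (ξ x)
        else algebraMap K (Sy K L) (η x), fun s => ?_⟩
      beta_reduce
      rw [Finset.sum_range_succ, Finset.sum_range_one, pow_zero, one_smul, pow_one, if_pos rfl,
        if_neg one_ne_zero, map_add, map_mul, Algebra.smul_def]
    · simp only [if_neg hm]
      exact PLe.zero m
  | mul a b ha hb =>
    have h : (fun s : K => (shift (ξ + s • η) (a * b)).coeff m) =
        fun s => ∑ x ∈ Finset.HasAntidiagonal.antidiagonal m,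
          (shift (ξ + s • η) a).coeff x.1 * (shift (ξ + s • η) b).coeff x.2 := by
      funext s
      rw [map_mul, Polynomial.coeff_mul]
    rw [h]
    refine PLe.sum _ fun x hx => ?_
    have hx' := Finset.HasAntidiagonal.mem_antidiagonal.1 hx
    have h2 := (ha x.1).mul (hb x.2)
    rwa [hx'] at h2
  | add a b ha hb =>
    have h : (fun s : K => (shift (ξ + s • η) (a + b)).coeff m) =
        fun s => (shift (ξ + s • η) a).coeff m + (shift (ξ + s • η) b).coeff m := by
      funext s
      rw [map_add, Polynomial.coeff_add]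
    rw [h]
    exact (ha m).add (hb m)

private theorem smap_mem {M : Type*} [LieRing M] [LieAlgebra K M] (f : L →ₗ[K] M) {n : ℕ}
    {a : Sy K L} (ha : a ∈ imS K L ^ n) : smap f a ∈ imS K M ^ n := by
  have h : Submodule.map (smap f).toLinearMap (imS K L) ≤ imS K M := by
    rintro _ ⟨_, ⟨x, rfl⟩, rfl⟩
    exact ⟨f x, (smap_ι f x).symm⟩
  have h2 : Submodule.map (smap f).toLinearMap (imS K L ^ n) ≤ imS K M ^ n := by
    rw [Submodule.map_pow]
    exact pow_le_pow_left' h n
  exact h2 (Submodule.mem_map_of_mem ha)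

private theorem shift_smap {M : Type*} [LieRing M] [LieAlgebra K M] (f : L →ₗ[K] M)
    (ξ : M →ₗ[K] K) (F : Sy K L) (m : ℕ) :
    (shift ξ (smap f F)).coeff m = smap f ((shift (ξ ∘ₗ f) F).coeff m) := by
  induction F using SymmetricAlgebra.induction generalizing m with
  | algebraMap r =>
    rw [AlgHom.commutes, AlgHom.commutes, AlgHom.commutes, Polynomial.algebraMap_apply,
      Polynomial.algebraMap_apply, Polynomial.coeff_C, Polynomial.coeff_C]
    split_ifs
    · rw [AlgHom.commutes]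
    · rw [map_zero]
  | ι x =>
    have h1 := smap_ι f x
    have h2 := shift_ι' ξ (f x)
    have h3 := shift_ι' (ξ ∘ₗ f) x
    rw [h1, h2, h3, Polynomial.coeff_add, Polynomial.coeff_add, Polynomial.coeff_C_mul,
      Polynomial.coeff_C_mul, Polynomial.coeff_C, Polynomial.coeff_C, Polynomial.coeff_X,
      Polynomial.coeff_X, map_add,
      map_mul, AlgHom.commutes]
    congr 1
    · split_ifs
      · exact h1.symm
      · rw [map_zero]
    · split_ifs
      · rw [map_one]
        rfl
      · rw [map_zero, mul_zero, mul_zero]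
  | mul a b ha hb =>
    rw [map_mul, map_mul, map_mul, Polynomial.coeff_mul, Polynomial.coeff_mul, map_sum]
    refine Finset.sum_congr rfl fun x _ => ?_
    rw [map_mul, ha, hb]
  | add a b ha hb =>
    rw [map_add, map_add, map_add, Polynomial.coeff_add, Polynomial.coeff_add, map_add, ha, hb]

private theorem ant_umap {M : Type*} [LieRing M] [LieAlgebra K M] (f : L →ₗ[K] M) (hf : IsBr f)
    (u : Ue K L) : ant (umap f hf u) = umap f hf (ant u) := by
  obtain ⟨t, rfl⟩ : ∃ t, pU t = u := RingCon.mk'_surjective _ u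
  induction t using TensorAlgebra.induction with
  | algebraMap r =>
    rw [AlgHom.commutes, AlgHom.commutes, ant_algebraMap, ant_algebraMap, AlgHom.commutes]
  | ι x =>
    rw [pU_ι, umap_ι, ant_ι, ant_ι, map_neg, umap_ι]
  | mul a b ha hb =>
    rw [map_mul, map_mul, ant_mul, ant_mul, map_mul, ha, hb]
  | add a b ha hb =>
    rw [map_add, map_add, map_add, map_add, map_add, ha, hb]

/-- the shift of a homogeneous element of degree `d` has degree at most `d` -/
theorem shift_coeff_of_lt {d : ℕ} {F : Sy K L} (hF : F ∈ imS K L ^ d) (ξ : L →ₗ[K] K) {m : ℕ}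
    (hm : d < m) : (shift ξ F).coeff m = 0 := by
  refine Polynomial.coeff_eq_zero_of_natDegree_lt (lt_of_le_of_lt ?_ hm)
  clear hm m
  induction d generalizing F with
  | zero =>
    rw [pow_zero] at hF
    obtain ⟨c, rfl⟩ := Submodule.mem_one.1 hF
    rw [AlgHom.commutes, Polynomial.algebraMap_apply, Polynomial.natDegree_C]
  | succ n ih =>
    rw [pow_succ] at hF
    refine Submodule.mul_induction_on hF ?_ ?_
    · rintro a ha _ ⟨x, rfl⟩
      rw [map_mul]
      refine Polynomial.natDegree_mul_le.trans (add_le_add (ih ha) ?_)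
      have h := shift_ι' ξ x
      rw [ιS] at h
      rw [h]
      refine (Polynomial.natDegree_add_le _ _).trans (max_le ?_ ?_)
      · rw [Polynomial.natDegree_C]
        exact Nat.zero_le _
      · exact (Polynomial.natDegree_C_mul_le _ _).trans Polynomial.natDegree_X_le
    · intro a b ha hb
      rw [map_add]
      exact (Polynomial.natDegree_add_le _ _).trans (max_le ha hb)

theorem HasQ.add {d : ℕ} {F G : Sy K L} (hF : HasQ C d F) (hG : HasQ C d G) :
    HasQ C d (F + G) := by
  obtain ⟨V, hV⟩ := hF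
  obtain ⟨W, hW⟩ := hG
  refine ⟨fun ξ m => V ξ m + W ξ m, add_mem hV.mem hW.mem, fun ξ m hm => ?_, fun ξ m hm => ?_,
    fun ξ η m => ?_, fun ξ m => ?_, fun ξ m => add_mem (hV.cen ξ m) (hW.cen ξ m)⟩
  · rw [map_add, Polynomial.coeff_add]
    exact (hV.symb ξ m hm).add (hW.symb ξ m hm)
  · rw [hV.zero ξ m hm, hW.zero ξ m hm, add_zero]
  · exact PLe.add (hV.poly ξ η m) (hW.poly ξ η m)
  · rw [map_add, hV.par, hW.par, smul_add]

theorem HasQ.smul {d : ℕ} {F : Sy K L} (c : K) (hF : HasQ C d F) : HasQ C d (c • F) := by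
  obtain ⟨V, hV⟩ := hF
  refine ⟨fun ξ m => c • V ξ m, Submodule.smul_mem _ c hV.mem, fun ξ m hm => ?_,
    fun ξ m hm => ?_, fun ξ η m => ?_, fun ξ m => ?_,
    fun ξ m => Subalgebra.smul_mem _ (hV.cen ξ m) c⟩
  · rw [map_smul, Polynomial.coeff_smul]
    exact (hV.symb ξ m hm).smul c
  · rw [hV.zero ξ m hm, smul_zero]
  · exact PLe.smul c (hV.poly ξ η m)
  · rw [map_smul, hV.par, smul_comm]

theorem HasQ.zero (d : ℕ) : HasQ C d (0 : Sy K L) := by
  refine ⟨fun _ _ => 0, zero_mem _, fun ξ m _ => ?_, fun ξ m _ => rfl,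
    fun ξ η m => PLe.zero m, fun ξ m => ?_, fun ξ m => zero_mem _⟩
  · rw [map_zero, Polynomial.coeff_zero]
    exact IsSymbol.of_low (zero_mem _)
  · rw [map_zero, smul_zero]

theorem HasQ.one : HasQ C 0 (1 : Sy K L) := by
  refine ⟨fun _ m => if m = 0 then 1 else 0, ?_, fun ξ m hm => ?_, fun ξ m hm => ?_,
    fun ξ η m => PLe.const m _, fun ξ m => ?_, fun ξ m => ?_⟩
  · rw [pow_zero]
    exact Submodule.one_le.1 le_rfl
  · obtain rfl : m = 0 := Nat.le_zero.1 hm
    rw [map_one, Polynomial.coeff_one_zero, if_pos rfl]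
    exact isSymbol_one
  · exact if_neg (by omega)
  · by_cases hm : m = 0
    · subst hm
      rw [if_pos rfl, ant_one, Nat.add_zero, pow_zero, one_smul]
    · rw [if_neg hm, map_zero, smul_zero]
  · by_cases hm : m = 0
    · rw [if_pos hm]
      exact one_mem _
    · rw [if_neg hm]
      exact zero_mem _

theorem HasQ.sum {ι : Type*} (s : Finset ι) {d : ℕ} {F : ι → Sy K L}
    (h : ∀ i ∈ s, HasQ C d (F i)) : HasQ C d (∑ i ∈ s, F i) := by
  classical
  induction s using Finset.induction_on with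
  | empty =>
    rw [Finset.sum_empty]
    exact HasQ.zero d
  | insert i s hi ih =>
    rw [Finset.sum_insert hi]
    exact (h i (Finset.mem_insert_self i s)).add
      (ih fun j hj => h j (Finset.mem_insert_of_mem hj))

/-- products: `V'' ξ m = ∑ V ξ a * V' ξ b` over `a + b = m` -/
theorem HasQ.mul (hC : ∀ ξ, ∀ a ∈ C ξ, ∀ b ∈ C ξ, a * b = b * a) {d d' : ℕ} {F G : Sy K L}
    (hF : HasQ C d F) (hG : HasQ C d' G) : HasQ C (d + d') (F * G) := by
  obtain ⟨V, hV⟩ := hF
  obtain ⟨W, hW⟩ := hG
  refine ⟨fun ξ m => ∑ x ∈ Finset.HasAntidiagonal.antidiagonal m, V ξ x.1 * W ξ x.2, ?_, fun ξ m hm => ?_,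
    fun ξ m hm => ?_, fun ξ η m => ?_, fun ξ m => ?_,
    fun ξ m => sum_mem fun x _ => mul_mem (hV.cen ξ x.1) (hW.cen ξ x.2)⟩
  · rw [pow_add]
    exact Submodule.mul_mem_mul hV.mem hW.mem
  · rw [map_mul, Polynomial.coeff_mul]
    refine IsSymbol_sum _ fun x hx => ?_
    have hx' := Finset.HasAntidiagonal.mem_antidiagonal.1 hx
    by_cases h1 : x.1 ≤ d
    · by_cases h2 : x.2 ≤ d'
      · have h3 := (hV.symb ξ x.1 h1).mul (hW.symb ξ x.2 h2)
        rwa [show d - x.1 + (d' - x.2) = d + d' - m by omega] at h3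
      · rw [shift_coeff_of_lt hW.mem ξ (not_le.1 h2), hW.zero ξ x.2 (not_le.1 h2), mul_zero,
          mul_zero]
        exact IsSymbol.of_low (zero_mem _)
    · rw [shift_coeff_of_lt hV.mem ξ (not_le.1 h1), hV.zero ξ x.1 (not_le.1 h1), zero_mul,
        zero_mul]
      exact IsSymbol.of_low (zero_mem _)
  · refine Finset.sum_eq_zero fun x hx => ?_
    have hx' := Finset.HasAntidiagonal.mem_antidiagonal.1 hx
    by_cases h1 : x.1 ≤ d
    · rw [hW.zero ξ x.2 (by omega), mul_zero]
    · rw [hV.zero ξ x.1 (not_le.1 h1), zero_mul]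
  · refine PLe.sum (f := fun (x : ℕ × ℕ) (s : K) => V (ξ + s • η) x.1 * W (ξ + s • η) x.2) _ fun x hx => ?_
    have hx' := Finset.HasAntidiagonal.mem_antidiagonal.1 hx
    have h2 := PLe.mul (hV.poly ξ η x.1) (hW.poly ξ η x.2)
    rwa [hx'] at h2
  · rw [map_sum, Finset.smul_sum]
    refine Finset.sum_congr rfl fun x hx => ?_
    have hx' := Finset.HasAntidiagonal.mem_antidiagonal.1 hx
    rw [ant_mul, hV.par, hW.par, smul_mul_smul_comm, ← pow_add,
      hC ξ _ (hW.cen ξ x.2) _ (hV.cen ξ x.1)]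
    congr 2
    omega

/-- square roots -/
theorem HasQ.sqr (hC : ∀ ξ, ∀ a ∈ C ξ, ∀ b ∈ C ξ, a * b = b * a) {c : ℕ → Sy K L}
    (h : ∀ j, HasQ C j (c j)) (k : ℕ) : HasQ C k (sqr K c k) := by
  induction k using Nat.strong_induction_on with
  | _ k ih =>
    cases k with
    | zero =>
      rw [QA.sqr]
      exact HasQ.one
    | succ k =>
      rw [QA.sqr]
      refine HasQ.smul _ ?_
      rw [sub_eq_add_neg, ← neg_one_smul K]
      refine (h (k + 1)).add (HasQ.smul _ (HasQ.sum _ fun i _ => ?_))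
      have h1 := HasQ.mul hC (ih (i + 1) (by omega)) (ih (k - i) (by omega))
      rwa [show (i : ℕ) + 1 + (k - i) = k + 1 by omega] at h1

/-- functoriality for homomorphisms of Lie algebras (used for the two factors of a product) -/
theorem HasQ.map {M : Type*} [LieRing M] [LieAlgebra K M] (f : L →ₗ[K] M) (hf : IsBr f)
    {C' : (M →ₗ[K] K) → Subalgebra K (Ue K M)}
    (hC' : ∀ ξ, ∀ a ∈ C (ξ ∘ₗ f), umap f hf a ∈ C' ξ) {d : ℕ} {F : Sy K L}
    (hF : HasQ C d F) : HasQ C' d (smap f F) := by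
  obtain ⟨V, hV⟩ := hF
  refine ⟨fun ξ m => umap f hf (V (ξ ∘ₗ f) m), smap_mem f hV.mem, fun ξ m hm => ?_,
    fun ξ m hm => ?_, fun ξ η m => ?_, fun ξ m => ?_, fun ξ m => hC' ξ _ (hV.cen _ m)⟩
  · rw [shift_smap]
    exact IsSymbol_map f hf (hV.symb _ m hm)
  · rw [hV.zero _ m hm, map_zero]
  · have h1 : ∀ s : K, (ξ + s • η) ∘ₗ f = ξ ∘ₗ f + s • (η ∘ₗ f) := fun s => rfl
    have h2 := PLe.map (hV.poly (ξ ∘ₗ f) (η ∘ₗ f) m) (umap f hf).toLinearMap
    simp only [h1]
    exact h2
  · rw [ant_umap, hV.par, map_smul]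

/-- enlarging the algebras -/
theorem HasQ.mono {C' : (L →ₗ[K] K) → Subalgebra K (Ue K L)} (hC' : ∀ ξ, C ξ ≤ C' ξ) {d : ℕ}
    {F : Sy K L} (hF : HasQ C d F) : HasQ C' d F := by
  obtain ⟨V, hV⟩ := hF
  exact ⟨V, hV.mem, hV.symb, hV.zero, hV.poly, hV.par, fun ξ m => hC' ξ (hV.cen ξ m)⟩

/-- the coefficients of the powers of `s` of `V (ξ + s η) m`: they have the right symbols (the
coefficients of `s ^ j` of `(shift (ξ + s η) F).coeff m`) and the right parity.
Proof: Vandermonde: `w j` is a linear combination of the elements `V (ξ + s η) m` for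
`m + 1` distinct values of `s` (`K` is infinite). -/
theorem Qf.line [CharZero K] {d : ℕ} {F : Sy K L} {V : (L →ₗ[K] K) → ℕ → Ue K L}
    (h : Qf C d F V) (ξ η : L →ₗ[K] K) {m : ℕ} (hm : m ≤ d) :
    ∃ (w : ℕ → Ue K L) (a : ℕ → Sy K L),
      (∀ s : K, V (ξ + s • η) m = ∑ j ∈ Finset.range (m + 1), s ^ j • w j) ∧
      (∀ s : K, (shift (ξ + s • η) F).coeff m = ∑ j ∈ Finset.range (m + 1), s ^ j • a j) ∧
      (∀ j, IsSymbol (d - m) (a j) (w j)) ∧
      ∀ j, ant (w j) = (-1 : K) ^ (d + m) • w j := by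
  obtain ⟨w0, hw0⟩ := h.poly ξ η m
  obtain ⟨a0, ha0⟩ := shift_PLe ξ η F m
  beta_reduce at ha0
  refine ⟨fun j => if j < m + 1 then w0 j else 0, fun j => if j < m + 1 then a0 j else 0,
    fun s => ?_, fun s => ?_, fun j => ?_, fun j => ?_⟩
  all_goals beta_reduce
  · rw [hw0 s]
    refine Finset.sum_congr rfl fun j hj => ?_
    rw [if_pos (Finset.mem_range.1 hj)]
  · rw [ha0 s]
    refine Finset.sum_congr rfl fun j hj => ?_
    rw [if_pos (Finset.mem_range.1 hj)]
  · by_cases hj : j < m + 1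
    · rw [if_pos hj, if_pos hj]
      let c : ℕ → (W K L ⧸ Hm (𝕜 := K) (L := L) (d - m)) :=
        fun j => Submodule.Quotient.mk (a0 j, w0 j)
      have hc := vec_poly_zero (K := K) c (m + 1) (fun s _ => ?_) j hj
      · have h1 := (Submodule.Quotient.mk_eq_zero _).1 hc
        exact h1
      · have h2 : ((shift (ξ + s • η) F).coeff m, V (ξ + s • η) m) ∈
            Hm (𝕜 := K) (L := L) (d - m) := h.symb (ξ + s • η) m hm
        have h3 : ((shift (ξ + s • η) F).coeff m, V (ξ + s • η) m) =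
            ∑ j ∈ Finset.range (m + 1), s ^ j • ((a0 j, w0 j) : W K L) := by
          rw [ha0 s, hw0 s]
          refine Prod.ext ?_ ?_
          · rw [Prod.fst_sum]
            rfl
          · rw [Prod.snd_sum]
            rfl
        rw [h3] at h2
        have h4 := (Submodule.Quotient.mk_eq_zero _).2 h2
        rw [← h4]
        exact (map_sum (Submodule.mkQ (Hm (𝕜 := K) (L := L) (d - m))) _ _).symm
    · rw [if_neg hj, if_neg hj]
      exact IsSymbol.of_low (zero_mem _)
  · by_cases hj : j < m + 1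
    · rw [if_pos hj]
      have hc := vec_poly_zero (K := K) (fun j => ant (w0 j) - (-1 : K) ^ (d + m) • w0 j) (m + 1)
        (fun s _ => ?_) j hj
      · exact sub_eq_zero.1 hc
      · have h1 := h.par (ξ + s • η) m
        rw [hw0 s, map_sum, Finset.smul_sum] at h1
        rw [← sub_eq_zero, ← Finset.sum_sub_distrib] at h1
        rw [← h1]
        refine Finset.sum_congr rfl fun j _ => ?_
        rw [map_smul, smul_sub, smul_comm]
    · rw [if_neg hj, map_zero, smul_zero]

end Pool.Agent.helper49.QA
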