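import Mathlib
import Pool.Agent.helper49.QA.Limit
import Pool.Agent.helper49.QA.Contract
import Pool.Agent.helper49.QA.Datum
import Pool.Agent.helper49.QA.Qf

/-!
# Limits of families of elements of `U(g)` in `U(k)`
-/

set_option autoImplicit false

namespace Pool.Agent.helper49.QA

open Polynomial Pool.Agent.helper5.AS
open Pool.Agent.helper5.ASQ (Invol even oddc brk IsContraction)

variable {K : Type*} [Field K] {g : Type*} [LieRing g] [LieAlgebra K g] (θ : Invol K g)
variable {k : Type*} [LieRing k] [LieAlgebra K k]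

/-- `v ∈ U(k)` is the leading part, in degree `b`, of the elements `W s` of `U(g)` -/
def Lim (e : g ≃ₗ[K] k) (b : ℕ) (W : K → Ue K g) (v : Ue K k) : Prop :=
  ∃ R : (TensorAlgebra K g)[X], R.natDegree ≤ b ∧
    (∀ s : K, s ≠ 0 → (pU (tmap (scl θ s⁻¹) (evc s R)) : Ue K g) = W s) ∧
    (pU (tmap (e : g →ₗ[K] k) (R.coeff b)) : Ue K k) = v

/-- the point of `g^*` corresponding to `ξ ∈ k^*` and the parameter `s` -/
noncomputable def xis (e : g ≃ₗ[K] k) (ξ : k →ₗ[K] K) (s : K) : g →ₗ[K] K :=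
  ξ ∘ₗ (e : g →ₗ[K] k) ∘ₗ scl θ s

/-- limits of commuting elements commute: apply `limit` to `R * R' - R' * R` and `b + b'` -/
theorem Lim.comm [CharZero K] {A : Type*} [Ring A] [Algebra K A] {ρ : g →ₗ[K] A}
    (hρ : IsLieMap ρ) (hinj : Function.Injective ρ) {e : g ≃ₗ[K] k} (he : IsContraction θ e)
    {b b' : ℕ} {W W' : K → Ue K g} {v v' : Ue K k} (h : Lim θ e b W v) (h' : Lim θ e b' W' v')
    (hc : ∀ s : K, s ≠ 0 → W s * W' s = W' s * W s) : v * v' = v' * v := by
  obtain ⟨R, hR, hW, hv⟩ := h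
  obtain ⟨R', hR', hW', hv'⟩ := h'
  have hdeg : (R * R' - R' * R).natDegree ≤ b + b' := by
    refine (Polynomial.natDegree_sub_le _ _).trans (max_le ?_ ?_)
    · exact Polynomial.natDegree_mul_le.trans (add_le_add hR hR')
    · exact Polynomial.natDegree_mul_le.trans (by omega)
  have hlim := limit θ hρ hinj he (R * R' - R' * R) hdeg (fun s hs => by
    rw [map_sub, map_mul, map_mul, map_sub, map_mul, map_mul, map_sub, map_mul, map_mul,
      hW s hs, hW' s hs, hc s hs, sub_self])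
  rw [Polynomial.coeff_sub, Polynomial.coeff_mul_add_eq_of_natDegree_le hR hR', add_comm b b',
    Polynomial.coeff_mul_add_eq_of_natDegree_le hR' hR, map_sub, map_mul, map_mul, map_sub, map_mul,
    map_mul, hv, hv'] at hlim
  exact sub_eq_zero.1 hlim

/-- the shifts of the leading part of `F` of degree `b` have quantisations which are limits of
elements of the algebras `C` -/
def LimQ (e : g ≃ₗ[K] k) (C : (g →ₗ[K] K) → Subalgebra K (Ue K g)) (d b : ℕ) (F : Sy K g) :
    Prop :=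
  ∀ ξ : k →ₗ[K] K, ∀ m < d, ∃ (W : K → Ue K g) (v : Ue K k),
    (∀ s : K, s ≠ 0 → W s ∈ C (xis θ e ξ s)) ∧ Lim θ e b W v ∧
      IsSymbol (d - m) ((shift ξ (smap (e : g →ₗ[K] k) ((scS θ F).coeff b))).coeff m) v

theorem comm_of_limQ [CharZero K] {A : Type*} [Ring A] [Algebra K A] {ρ : g →ₗ[K] A}
    (hρ : IsLieMap ρ) (hinj : Function.Injective ρ) {e : g ≃ₗ[K] k} (he : IsContraction θ e)
    {C : (g →ₗ[K] K) → Subalgebra K (Ue K g)}
    (hC : ∀ ξ, ∀ a ∈ C ξ, ∀ b ∈ C ξ, a * b = b * a) {I : Type*} (F : I → Sy K g) (d b : I → ℕ)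
    (h : ∀ i, LimQ θ e C (d i) (b i) (F i)) (ξ : k →ₗ[K] K) :
    Comm (fun i => smap (e : g →ₗ[K] k) ((scS θ (F i)).coeff (b i))) d ξ := by
  choose W v hWC hlim hsym using fun (i : I) (m : ℕ) (hm : m < d i) => h i ξ m hm
  refine ⟨fun i m => if hm : m < d i then v i m hm else 0, ?_, ?_⟩
  · intro i j m n hm hn
    simp only [dif_pos hm, dif_pos hn]
    exact Lim.comm θ hρ hinj he (hlim i m hm) (hlim j n hn) fun s hs =>
      hC _ _ (hWC i m hm s hs) _ (hWC j n hn s hs)
  · intro i m hm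
    simp only [dif_pos hm]
    exact hsym i m hm

end Pool.Agent.helper49.QA
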