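import Mathlib
import Pool.Agent.helper49.QA.Lim

/-!
# The limit of a quantised family, with the help of parity

Notation: `T^n = imT ^ n`, `sc : T(g) → T(g)[X]`, `x ↦ x_0 + X x_1`; `rev` the antiautomorphism of
`T(g)` with `x ↦ x`, so `ant (pU t) = (-1)^n pU (rev t)` and `pS (rev t) = pS t` for `t ∈ T^n`
(`rev` may be defined as a homomorphism to the opposite algebra like `antO`).

Step 1 (`low_of_sym`).  If `t ∈ T^n`, `pS t = 0` and `rev t = t` then `pU t ∈ lowU (n - 1)` (so
`pU t` is a sum of products of at most `n - 2` elements of `g`; `lowU 0 = ⊥`).  Proof: `pU t` has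
the symbol `0` in degree `n`, hence `v = pU t ∈ lowU n` (`IsSymbol.low_of_zero`) and
`ant v = (-1)^n v`.  If `n = 0`: `lowU 0 = ⊥`.  Else write (`exists_symbol`) `v = pU t' + l`,
`t' ∈ T^(n-1)`, `l ∈ lowU (n - 1)`; then `v = (v + (-1)^n ant v) / 2`
`= (pU t' - pU (rev t')) / 2 + (l + (-1)^n ant l) / 2`, and `t' - rev t'` has the symbol zero, so
`pU (t' - rev t') ∈ lowU (n - 1)`.

Step 2 (`sym_split`).  If `IsSymbol n a v` and `ant v = (-1)^n v` then there is `t ∈ T^n`,
`rev t = t`, `pS t = a` and `v - pU t ∈ lowU (n - 1)`.  Proof: take `t' ∈ T^n` with `pS t' = a`,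
`v - pU t' ∈ lowU n`, `t = (t' + rev t') / 2`; `w = v - pU t` is in `lowU n` and satisfies
`ant w = (-1)^n w`, hence `w ∈ lowU (n - 1)` by the computation of step 1.

Step 3.  Let `ξ ∈ k^*`, `m < d`.  `xis θ e ξ s = ξ_0 + s ξ_1` with `ξ_0 = ξ ∘ e ∘ even`,
`ξ_1 = ξ ∘ e ∘ oddc`; take `w j`, `a j` from `Qf.line` and `t j` from step 2 with `n = d - m`
(the parity: `(-1)^(d+m) = (-1)^(d-m)`), `w j - pU (t j) ∈ lowU (n - 1)`, choose `l j ∈ T(g)` in
`∑_{i < n - 1} T^i` with `pU (l j) = w j - pU (t j)`.  Let `t j i ∈ T^n` be the coefficient of `X^i`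
of `sc (t j)`; `rev (t j i) = t j i`.  The polynomial
`P = ∑_{j ≤ m} X^j sc (t j)` satisfies: `pS P` is the coefficient of `t^m` of
`(scS θ F) (x + t ξ)` (compare the values at all `s ∈ K`: the homomorphisms
`F ↦ (evc s ∘ scS) ∘ shift (xis s)` and `shift (ξ ∘ e) ∘ (evc s ∘ scS)` agree on generators), so its
degree is at most `b`.  Hence for `c > b` `∑_{j + i = c} pS (t j i) = 0`, and since the terms have
different degrees `i` in `g_1` (apply `scS`: `scS (pS (t j i)) = X^i pS (t j i)`), all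
`pS (t j i) = 0` for `j + i > b`.  By step 1 there is `l' j i ∈ ∑_{i' < n - 1} T^i'` with
`pU (l' j i) = pU (t j i)` for `j + i > b`.  Put
`R = ∑_{j ≤ m, i ≤ n, j + i ≤ b} X^(j+i) t j i + ∑_{j ≤ m, i ≤ n, j + i > b} X^j sc (l' j i)`
`+ ∑_{j ≤ m} X^j sc (l j)`.
The degree in `X` of the last two sums is at most `m + (n - 2) ≤ d - 2 ≤ b` (the sums are zero if
`n ≤ 1`).  For `s ≠ 0`, `tmap (scl s⁻¹) (evc s (sc t)) = t` and
`tmap (scl s⁻¹) (t j i) = s^(-i) t j i`, so `pU (tmap (scl s⁻¹) (evc s R)) = ∑ s^j w j = V (xis s) m`.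
The coefficient of `X^b` of `R` is `∑_{j + i = b} t j i` plus elements of `∑_{i < n} T^i`.
-/

set_option autoImplicit false

namespace Pool.Agent.helper49.QA

open Polynomial Pool.Agent.helper5.AS
open Pool.Agent.helper5.ASQ (Invol even oddc brk IsContraction)

variable {K : Type*} [Field K] {g : Type*} [LieRing g] [LieAlgebra K g] (θ : Invol K g)
variable {k : Type*} [LieRing k] [LieAlgebra K k]

/-! ## the reversal antiautomorphism of the tensor algebra -/

section rev

variable {K : Type*} [Field K] {L : Type*} [LieRing L] [LieAlgebra K L]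

/-- the reversal as a homomorphism to the opposite algebra -/
noncomputable def LimPar_revO : TensorAlgebra K L →ₐ[K] (TensorAlgebra K L)ᵐᵒᵖ :=
  TensorAlgebra.lift K ((MulOpposite.opLinearEquiv K).toLinearMap ∘ₗ TensorAlgebra.ι K)

/-- the reversal -/
noncomputable def LimPar_rev : TensorAlgebra K L →ₗ[K] TensorAlgebra K L :=
  (MulOpposite.opLinearEquiv K).symm.toLinearMap ∘ₗ (LimPar_revO (K := K) (L := L)).toLinearMap

theorem LimPar_rev_apply (t : TensorAlgebra K L) :
    LimPar_rev t = MulOpposite.unop (LimPar_revO t) := rfl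

theorem LimPar_rev_ι (x : L) : LimPar_rev (TensorAlgebra.ι K x) = TensorAlgebra.ι K x := by
  rw [LimPar_rev_apply, LimPar_revO, TensorAlgebra.lift_ι_apply]
  rfl

theorem LimPar_rev_mul (a b : TensorAlgebra K L) :
    LimPar_rev (a * b) = LimPar_rev b * LimPar_rev a := by
  rw [LimPar_rev_apply, map_mul, MulOpposite.unop_mul]
  rfl

theorem LimPar_rev_algebraMap (c : K) :
    LimPar_rev (algebraMap K (TensorAlgebra K L) c) = algebraMap K (TensorAlgebra K L) c := by
  rw [LimPar_rev_apply, AlgHom.commutes]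
  rfl

theorem LimPar_rev_rev (t : TensorAlgebra K L) : LimPar_rev (LimPar_rev t) = t := by
  induction t using TensorAlgebra.induction with
  | algebraMap r => rw [LimPar_rev_algebraMap, LimPar_rev_algebraMap]
  | ι x => rw [LimPar_rev_ι, LimPar_rev_ι]
  | mul a b ha hb => rw [LimPar_rev_mul, LimPar_rev_mul, ha, hb]
  | add a b ha hb => rw [map_add, map_add, ha, hb]

theorem LimPar_pS_rev (t : TensorAlgebra K L) : (pS (LimPar_rev t) : Sy K L) = pS t := by
  induction t using TensorAlgebra.induction with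
  | algebraMap r => rw [LimPar_rev_algebraMap]
  | ι x => rw [LimPar_rev_ι]
  | mul a b ha hb => rw [LimPar_rev_mul, map_mul, map_mul, ha, hb, mul_comm]
  | add a b ha hb => rw [map_add, map_add, map_add, ha, hb]

theorem LimPar_rev_mem {n : ℕ} {t : TensorAlgebra K L} (ht : t ∈ imT K L ^ n) :
    LimPar_rev t ∈ imT K L ^ n := by
  induction n generalizing t with
  | zero =>
    rw [pow_zero] at ht ⊢
    obtain ⟨c, rfl⟩ := Submodule.mem_one.1 ht
    rw [LimPar_rev_algebraMap]
    exact Submodule.mem_one.2 ⟨c, rfl⟩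
  | succ n ih =>
    rw [pow_succ] at ht
    refine Submodule.mul_induction_on ht ?_ ?_
    · rintro a ha _ ⟨x, rfl⟩
      rw [LimPar_rev_mul, LimPar_rev_ι, pow_succ']
      exact Submodule.mul_mem_mul ⟨x, rfl⟩ (ih ha)
    · intro a b ha hb
      rw [map_add]
      exact add_mem ha hb

theorem LimPar_ant_pU {n : ℕ} {t : TensorAlgebra K L} (ht : t ∈ imT K L ^ n) :
    ant (pU t : Ue K L) = (-1 : K) ^ n • pU (LimPar_rev t) := by
  induction n generalizing t with
  | zero =>
    rw [pow_zero] at ht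
    obtain ⟨c, rfl⟩ := Submodule.mem_one.1 ht
    rw [LimPar_rev_algebraMap, pow_zero, one_smul, AlgHom.commutes, ant_algebraMap]
  | succ n ih =>
    rw [pow_succ] at ht
    refine Submodule.mul_induction_on ht ?_ ?_
    · rintro a ha _ ⟨x, rfl⟩
      rw [map_mul, ant_mul, ih ha, LimPar_rev_mul, LimPar_rev_ι, map_mul, pU_ι, ant_ι,
        mul_smul_comm, pow_succ, mul_neg_one, neg_smul, neg_mul, smul_neg]
    · intro a b ha hb
      rw [map_add, map_add, map_add, map_add, smul_add, ha, hb]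

theorem LimPar_ant_low {n : ℕ} {u : Ue K L} (hu : u ∈ lowU K L n) : ant u ∈ lowU K L n := by
  cases n with
  | zero =>
    rw [lowU_zero, Submodule.mem_bot] at hu
    rw [hu, map_zero]
    exact zero_mem _
  | succ n =>
    rw [lowU_succ] at hu ⊢
    induction n generalizing u with
    | zero =>
      rw [pow_zero] at hu ⊢
      obtain ⟨c, rfl⟩ := Submodule.mem_one.1 hu
      rw [ant_algebraMap]
      exact Submodule.mem_one.2 ⟨c, rfl⟩
    | succ n ih =>
      rw [pow_succ] at hu
      refine Submodule.mul_induction_on hu ?_ ?_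
      · intro a ha w hw
        rw [ant_mul, pow_succ']
        refine Submodule.mul_mem_mul ?_ (ih ha)
        obtain ⟨w1, hw1, w2, ⟨x, rfl⟩, rfl⟩ := Submodule.mem_sup.1 hw
        obtain ⟨c, rfl⟩ := Submodule.mem_one.1 hw1
        rw [map_add, ant_algebraMap, ant_ι]
        exact add_mem ((le_sup_left : (1 : Submodule K (Ue K L)) ≤ 1 ⊔ imU K L)
          (Submodule.mem_one.2 ⟨c, rfl⟩))
          (neg_mem ((le_sup_right : imU K L ≤ 1 ⊔ imU K L) ⟨x, rfl⟩))
      · intro a b ha hb
        rw [map_add]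
        exact add_mem ha hb

/-- an element of `U_{n-1}` of the parity of `n` is in `U_{n-2}` -/
theorem LimPar_low_of_parity [CharZero K] {n : ℕ} {v : Ue K L} (hv : v ∈ lowU K L n)
    (ha : ant v = (-1 : K) ^ n • v) : v ∈ lowU K L (n - 1) := by
  cases n with
  | zero => exact hv
  | succ n =>
    rw [Nat.add_sub_cancel]
    obtain ⟨a, t, ht, h1, h2⟩ := exists_symbol hv
    have h3 : v = (2 : K)⁻¹ • (pU (t - LimPar_rev t) +
        ((v - pU t) - (-1 : K) ^ n • ant (v - pU t))) := by
      have e1 : ant (v - pU t) = -((-1 : K) ^ n • v) - (-1 : K) ^ n • pU (LimPar_rev t) := by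
        rw [map_sub, ha, LimPar_ant_pU ht, pow_succ, mul_neg_one, neg_smul]
      have e2 : ((-1 : K) ^ n) * ((-1 : K) ^ n) = 1 := by
        rw [← mul_pow, neg_one_mul, neg_neg, one_pow]
      rw [e1, smul_sub, smul_neg, smul_smul, smul_smul, e2, one_smul, one_smul, map_sub]
      have e3 : pU t - pU (LimPar_rev t) + (v - pU t - (-v - pU (LimPar_rev t))) =
          (2 : K) • v := by
        rw [two_smul]
        abel
      rw [e3, smul_smul, inv_mul_cancel₀ two_ne_zero, one_smul]
    rw [h3]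
    refine Submodule.smul_mem _ _ (add_mem ?_ (sub_mem h2 (Submodule.smul_mem _ _
      (LimPar_ant_low h2))))
    apply IsSymbol.low_of_zero
    refine ⟨t - LimPar_rev t, sub_mem ht (LimPar_rev_mem ht), ?_, ?_⟩
    · show pS (t - LimPar_rev t) = 0
      rw [map_sub, LimPar_pS_rev, sub_self]
    · rw [sub_self]
      exact zero_mem _

theorem LimPar_low_of_sym [CharZero K] {n : ℕ} {t : TensorAlgebra K L} (ht : t ∈ imT K L ^ n)
    (h0 : (pS t : Sy K L) = 0) (hr : LimPar_rev t = t) : (pU t : Ue K L) ∈ lowU K L (n - 1) := by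
  apply LimPar_low_of_parity
  · apply IsSymbol.low_of_zero
    refine ⟨t, ht, h0, ?_⟩
    rw [sub_self]
    exact zero_mem _
  · rw [LimPar_ant_pU ht, hr]

theorem LimPar_sym_split [CharZero K] {n : ℕ} {a : Sy K L} {v : Ue K L} (h : IsSymbol n a v)
    (ha : ant v = (-1 : K) ^ n • v) : ∃ t ∈ imT K L ^ n, LimPar_rev t = t ∧
      (pS t : Sy K L) = a ∧ v - pU t ∈ lowU K L (n - 1) := by
  obtain ⟨t, ht, h1, h2⟩ := h
  have h1' : (pS t : Sy K L) = a := h1
  have h2' : v - pU t ∈ lowU K L n := h2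
  set r : TensorAlgebra K L := (2 : K)⁻¹ • (t + LimPar_rev t) with hr
  have hrT : r ∈ imT K L ^ n := Submodule.smul_mem _ _ (add_mem ht (LimPar_rev_mem ht))
  have hrr : LimPar_rev r = r := by
    rw [hr, map_smul, map_add, LimPar_rev_rev, add_comm]
  refine ⟨r, hrT, hrr, ?_, ?_⟩
  · rw [hr, map_smul, map_add, LimPar_pS_rev, h1', ← two_smul K, smul_smul,
      inv_mul_cancel₀ two_ne_zero, one_smul]
  · apply LimPar_low_of_parity
    · have e : v - pU r = (v - pU t) + (2 : K)⁻¹ • pU (t - LimPar_rev t) := by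
        have e1 : t = (2 : K)⁻¹ • (t + LimPar_rev t) + (2 : K)⁻¹ • (t - LimPar_rev t) := by
          rw [← smul_add, add_add_sub_cancel, ← two_smul K, smul_smul,
            inv_mul_cancel₀ two_ne_zero, one_smul]
        have e2 : (pU t : Ue K L) = pU r + (2 : K)⁻¹ • pU (t - LimPar_rev t) := by
          conv_lhs => rw [e1]
          rw [map_add, map_smul, map_smul]
        rw [e2]
        abel
      rw [e]
      refine add_mem h2' (Submodule.smul_mem _ _ ?_)
      apply IsSymbol.low_of_zero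
      refine ⟨t - LimPar_rev t, sub_mem ht (LimPar_rev_mem ht), ?_, ?_⟩
      · show pS (t - LimPar_rev t) = 0
        rw [map_sub, LimPar_pS_rev, sub_self]
      · rw [sub_self]
        exact zero_mem _
    · rw [map_sub, ha, LimPar_ant_pU hrT, hrr, smul_sub]

end rev

/-! ## the filtration of the tensor algebra -/

section low

variable {K : Type*} [Field K] {L : Type*} [LieRing L] [LieAlgebra K L]

/-- the tensors of degree less than `n` -/
noncomputable def LimPar_lowT (K : Type*) [Field K] (L : Type*) [LieRing L] [LieAlgebra K L] :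
    ℕ → Submodule K (TensorAlgebra K L)
  | 0 => ⊥
  | n + 1 => (1 ⊔ imT K L) ^ n

theorem LimPar_map_lowT (n : ℕ) : Submodule.map (pU (𝕜 := K) (L := L)).toLinearMap
    (LimPar_lowT K L n) = lowU K L n := by
  cases n with
  | zero => rw [LimPar_lowT, Submodule.map_bot, lowU_zero]
  | succ n =>
    rw [LimPar_lowT, lowU_succ, Submodule.map_pow, Submodule.map_sup, Submodule.map_one]
    congr 2
    rw [imT, imU, ιU, LinearMap.range_comp]

theorem LimPar_lift {n : ℕ} {u : Ue K L} (hu : u ∈ lowU K L n) :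
    ∃ l ∈ LimPar_lowT K L n, pU l = u := by
  rw [← LimPar_map_lowT] at hu
  exact hu

theorem LimPar_pU_low {n : ℕ} {l : TensorAlgebra K L} (hl : l ∈ LimPar_lowT K L n) :
    (pU l : Ue K L) ∈ lowU K L n := by
  rw [← LimPar_map_lowT]
  exact Submodule.mem_map_of_mem hl

theorem LimPar_lowT_succ (n : ℕ) : LimPar_lowT K L n ≤ LimPar_lowT K L (n + 1) := by
  cases n with
  | zero => exact bot_le
  | succ n =>
    rw [LimPar_lowT, LimPar_lowT, pow_succ]
    calc (1 ⊔ imT K L) ^ n = (1 ⊔ imT K L) ^ n * 1 := (mul_one _).symm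
      _ ≤ (1 ⊔ imT K L) ^ n * (1 ⊔ imT K L) := mul_le_mul' le_rfl le_sup_left

theorem LimPar_tmap_low {M : Type*} [LieRing M] [LieAlgebra K M] (f : L →ₗ[K] M) {n : ℕ}
    {l : TensorAlgebra K L} (hl : l ∈ LimPar_lowT K L n) : tmap f l ∈ LimPar_lowT K M n := by
  have h : Submodule.map (tmap f).toLinearMap (LimPar_lowT K L n) ≤ LimPar_lowT K M n := by
    cases n with
    | zero => rw [LimPar_lowT, Submodule.map_bot]; exact bot_le
    | succ n =>
      rw [LimPar_lowT, LimPar_lowT, Submodule.map_pow]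
      apply pow_le_pow_left'
      rw [Submodule.map_sup, Submodule.map_one]
      refine sup_le_sup le_rfl ?_
      rintro _ ⟨_, ⟨x, rfl⟩, rfl⟩
      exact ⟨f x, (tmap_ι f x).symm⟩
  exact h (Submodule.mem_map_of_mem hl)

end low

/-! ## the coaction on the tensor algebra -/

/-- the linear map `x ↦ x_0 + X x_1` -/
noncomputable def LimPar_scl : g →ₗ[K] (TensorAlgebra K g)[X] where
  toFun := fun x => C (TensorAlgebra.ι K (even θ x)) + X * C (TensorAlgebra.ι K (oddc θ x))
  map_add' := fun x y => by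
    rw [Pool.Agent.helper5.ASQ.even_add, Pool.Agent.helper5.ASQ.oddc_add,
      (TensorAlgebra.ι K).map_add, (TensorAlgebra.ι K).map_add, C_add, C_add, mul_add]
    abel
  map_smul' := fun c x => by
    rw [Pool.Agent.helper5.ASQ.even_smul, Pool.Agent.helper5.ASQ.oddc_smul,
      (TensorAlgebra.ι K).map_smul, (TensorAlgebra.ι K).map_smul, RingHom.id_apply, smul_add,
      ← smul_C, ← smul_C, mul_smul_comm]

/-- the homomorphism `t ↦ t (x_0 + X x_1)` -/
noncomputable def LimPar_sc : TensorAlgebra K g →ₐ[K] (TensorAlgebra K g)[X] :=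
  TensorAlgebra.lift K (LimPar_scl θ)

theorem LimPar_sc_ι (x : g) : LimPar_sc θ (TensorAlgebra.ι K x) =
    C (TensorAlgebra.ι K (even θ x)) + X * C (TensorAlgebra.ι K (oddc θ x)) := by
  rw [LimPar_sc, TensorAlgebra.lift_ι_apply]
  rfl

theorem LimPar_evc_sc (s : K) (t : TensorAlgebra K g) :
    evc s (LimPar_sc θ t) = tmap (scl θ s) t := by
  have h : (evc s).comp (LimPar_sc θ) = tmap (scl θ s) := by
    refine TensorAlgebra.hom_ext (LinearMap.ext fun x => ?_)
    show evc s (LimPar_sc θ (TensorAlgebra.ι K x)) = tmap (scl θ s) (TensorAlgebra.ι K x)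
    rw [LimPar_sc_ι, map_add, map_mul, evc_C, evc_C, evc_X, tmap_ι, scl_apply, map_add,
      map_smul, ← Algebra.smul_def]
  exact congrArg (fun F : TensorAlgebra K g →ₐ[K] TensorAlgebra K g => F t) h

theorem LimPar_evc_scS (s : K) (F : Sy K g) : evc s (scS θ F) = smap (scl θ s) F := by
  have h : (evc s).comp (scS θ) = smap (scl θ s) := by
    refine SymmetricAlgebra.algHom_ext (LinearMap.ext fun x => ?_)
    show evc s (scS θ (ιS K g x)) = smap (scl θ s) (ιS K g x)
    rw [scS_ι, map_add, map_mul, evc_C, evc_C, evc_X, smap_ι, scl_apply, map_add,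
      map_smul, ← Algebra.smul_def]
  exact congrArg (fun F' : Sy K g →ₐ[K] Sy K g => F' F) h

/-- the coefficients of the coaction -/
theorem LimPar_pow (A : Submodule K (TensorAlgebra K g))
    (hA : ∀ u ∈ A, ∀ i, (LimPar_sc θ u).coeff i ∈ A ∧ (1 < i → (LimPar_sc θ u).coeff i = 0))
    (n : ℕ) : ∀ u ∈ A ^ n, ∀ i, (LimPar_sc θ u).coeff i ∈ A ^ n ∧
      (n < i → (LimPar_sc θ u).coeff i = 0) := by
  induction n with
  | zero =>
    intro u hu i
    rw [pow_zero] at hu ⊢
    obtain ⟨c, rfl⟩ := Submodule.mem_one.1 hu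
    rw [AlgHom.commutes, Polynomial.algebraMap_apply, coeff_C]
    constructor
    · split_ifs
      · exact Submodule.mem_one.2 ⟨c, rfl⟩
      · exact zero_mem _
    · intro hi
      rw [if_neg (by omega)]
  | succ n ih =>
    intro u hu
    rw [pow_succ] at hu ⊢
    refine Submodule.mul_induction_on hu ?_ ?_
    · intro a ha b hb i
      rw [map_mul, coeff_mul]
      constructor
      · exact sum_mem fun p _ => Submodule.mul_mem_mul (ih a ha p.1).1 (hA b hb p.2).1
      · intro hi
        apply Finset.sum_eq_zero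
        intro p hp
        rw [Finset.HasAntidiagonal.mem_antidiagonal] at hp
        by_cases h1 : n < p.1
        · rw [(ih a ha p.1).2 h1, zero_mul]
        · rw [(hA b hb p.2).2 (by omega), mul_zero]
    · intro a b ha hb i
      rw [map_add, coeff_add]
      refine ⟨add_mem (ha i).1 (hb i).1, fun hi => ?_⟩
      rw [(ha i).2 hi, (hb i).2 hi, add_zero]

theorem LimPar_imT (u : TensorAlgebra K g) (hu : u ∈ imT K g) (i : ℕ) :
    (LimPar_sc θ u).coeff i ∈ imT K g ∧ (1 < i → (LimPar_sc θ u).coeff i = 0) := by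
  obtain ⟨x, rfl⟩ := hu
  rw [LimPar_sc_ι, coeff_add, coeff_C]
  rcases i with _ | _ | i
  · rw [coeff_X_mul_zero, add_zero, if_pos rfl]
    exact ⟨⟨_, rfl⟩, fun h => absurd h (by omega)⟩
  · rw [coeff_X_mul, coeff_C_zero, if_neg (by omega), zero_add]
    exact ⟨⟨_, rfl⟩, fun h => absurd h (by omega)⟩
  · rw [coeff_X_mul, coeff_C_succ, if_neg (by omega), add_zero]
    exact ⟨zero_mem _, fun _ => rfl⟩

theorem LimPar_one_imT (u : TensorAlgebra K g) (hu : u ∈ 1 ⊔ imT K g) (i : ℕ) :
    (LimPar_sc θ u).coeff i ∈ 1 ⊔ imT K g ∧ (1 < i → (LimPar_sc θ u).coeff i = 0) := by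
  obtain ⟨w1, hw1, w2, hw2, rfl⟩ := Submodule.mem_sup.1 hu
  obtain ⟨c, rfl⟩ := Submodule.mem_one.1 hw1
  obtain ⟨h1, h2⟩ := LimPar_imT θ w2 hw2 i
  rw [map_add, coeff_add, AlgHom.commutes, Polynomial.algebraMap_apply, coeff_C]
  constructor
  · refine add_mem ?_ ((le_sup_right : imT K g ≤ 1 ⊔ imT K g) h1)
    split_ifs
    · exact (le_sup_left : (1 : Submodule K (TensorAlgebra K g)) ≤ 1 ⊔ imT K g)
        (Submodule.mem_one.2 ⟨c, rfl⟩)
    · exact zero_mem _
  · intro hi
    rw [h2 hi, if_neg (by omega), add_zero]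

theorem LimPar_coeff_mem {n : ℕ} {t : TensorAlgebra K g} (ht : t ∈ imT K g ^ n) (i : ℕ) :
    (LimPar_sc θ t).coeff i ∈ imT K g ^ n :=
  (LimPar_pow θ _ (LimPar_imT θ) n t ht i).1

theorem LimPar_coeff_zero {n : ℕ} {t : TensorAlgebra K g} (ht : t ∈ imT K g ^ n) {i : ℕ}
    (hi : n < i) : (LimPar_sc θ t).coeff i = 0 :=
  (LimPar_pow θ _ (LimPar_imT θ) n t ht i).2 hi

theorem LimPar_natDegree {n : ℕ} {t : TensorAlgebra K g} (ht : t ∈ imT K g ^ n) :
    (LimPar_sc θ t).natDegree ≤ n :=
  natDegree_le_iff_coeff_eq_zero.2 fun _ hi => LimPar_coeff_zero θ ht hi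

theorem LimPar_low {n : ℕ} {l : TensorAlgebra K g} (hl : l ∈ LimPar_lowT K g n) (i : ℕ) :
    (LimPar_sc θ l).coeff i ∈ LimPar_lowT K g n := by
  cases n with
  | zero =>
    rw [LimPar_lowT, Submodule.mem_bot] at hl ⊢
    rw [hl, map_zero, coeff_zero]
  | succ n => exact (LimPar_pow θ _ (LimPar_one_imT θ) n l hl i).1

/-- degree of `X ^ j * sc l` -/
theorem LimPar_low_deg {n j b : ℕ} (h : j + n ≤ b + 1) {l : TensorAlgebra K g}
    (hl : l ∈ LimPar_lowT K g n) : (X ^ j * LimPar_sc θ l).natDegree ≤ b := by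
  cases n with
  | zero =>
    rw [LimPar_lowT, Submodule.mem_bot] at hl
    rw [hl, map_zero, mul_zero, natDegree_zero]
    exact Nat.zero_le _
  | succ n =>
    rw [natDegree_le_iff_coeff_eq_zero]
    intro i hi
    rw [coeff_X_pow_mul']
    split_ifs with h1
    · exact (LimPar_pow θ _ (LimPar_one_imT θ) n l hl _).2 (by omega)
    · rfl

theorem LimPar_rev_coeff (t : TensorAlgebra K g) : ∀ i,
    LimPar_rev ((LimPar_sc θ t).coeff i) = (LimPar_sc θ (LimPar_rev t)).coeff i := by
  induction t using TensorAlgebra.induction with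
  | algebraMap r =>
    intro i
    rw [LimPar_rev_algebraMap, AlgHom.commutes, Polynomial.algebraMap_apply, coeff_C]
    split_ifs
    · rw [LimPar_rev_algebraMap]
    · rw [map_zero]
  | ι x =>
    intro i
    rw [LimPar_rev_ι, LimPar_sc_ι, coeff_add, coeff_C]
    rcases i with _ | _ | i
    · rw [coeff_X_mul_zero, add_zero, if_pos rfl, LimPar_rev_ι]
    · rw [coeff_X_mul, coeff_C_zero, if_neg (by omega), zero_add, LimPar_rev_ι]
    · rw [coeff_X_mul, coeff_C_succ, if_neg (by omega), add_zero, map_zero]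
  | mul a b ha hb =>
    intro i
    rw [map_mul, coeff_mul, LimPar_rev_mul, map_mul, coeff_mul, map_sum,
      ← Finset.Nat.sum_antidiagonal_swap]
    apply Finset.sum_congr rfl
    intro p _
    rw [LimPar_rev_mul, ha, hb]
    rfl
  | add a b ha hb =>
    intro i
    rw [map_add, coeff_add, map_add, ha, hb, map_add, map_add, coeff_add]

section scl

variable [CharZero K]

theorem LimPar_scl_scl (r s : K) : scl θ r ∘ₗ scl θ s = scl θ (r * s) := by
  refine LinearMap.ext fun x => ?_
  show scl θ r (scl θ s x) = scl θ (r * s) x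
  rw [scl_apply, even_scl, oddc_scl, scl_apply, smul_smul]

theorem LimPar_scl_one : scl θ (1 : K) = LinearMap.id := by
  refine LinearMap.ext fun x => ?_
  show scl θ 1 x = x
  rw [scl_apply, one_smul, Pool.Agent.helper5.ASQ.even_add_oddc]

omit [CharZero K] in
theorem LimPar_tmap_comp {M N P : Type*} [AddCommGroup M] [Module K M] [AddCommGroup N]
    [Module K N] [AddCommGroup P] [Module K P] (f : M →ₗ[K] N) (f' : N →ₗ[K] P)
    (t : TensorAlgebra K M) : tmap f' (tmap f t) = tmap (f' ∘ₗ f) t := by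
  have h : (tmap f').comp (tmap f) = tmap (f' ∘ₗ f) := by
    refine TensorAlgebra.hom_ext (LinearMap.ext fun x => ?_)
    show tmap f' (tmap f (TensorAlgebra.ι K x)) = tmap (f' ∘ₗ f) (TensorAlgebra.ι K x)
    rw [tmap_ι, tmap_ι, tmap_ι]
    rfl
  exact congrArg (fun F : TensorAlgebra K M →ₐ[K] TensorAlgebra K P => F t) h

omit [CharZero K] in
theorem LimPar_tmap_id {M : Type*} [AddCommGroup M] [Module K M] (t : TensorAlgebra K M) :
    tmap (LinearMap.id : M →ₗ[K] M) t = t := by
  have h : tmap (LinearMap.id : M →ₗ[K] M) = AlgHom.id K (TensorAlgebra K M) := by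
    refine TensorAlgebra.hom_ext (LinearMap.ext fun x => ?_)
    show tmap (LinearMap.id : M →ₗ[K] M) (TensorAlgebra.ι K x) = TensorAlgebra.ι K x
    rw [tmap_ι]
    rfl
  exact congrArg (fun F : TensorAlgebra K M →ₐ[K] TensorAlgebra K M => F t) h

theorem LimPar_inv {s : K} (hs : s ≠ 0) (t : TensorAlgebra K g) :
    tmap (scl θ s⁻¹) (tmap (scl θ s) t) = t := by
  rw [LimPar_tmap_comp, LimPar_scl_scl, inv_mul_cancel₀ hs, LimPar_scl_one, LimPar_tmap_id]

/-- the coefficients are eigenvectors -/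
theorem LimPar_eigen (t : TensorAlgebra K g) (s : K) (i : ℕ) :
    tmap (scl θ s) ((LimPar_sc θ t).coeff i) = s ^ i • (LimPar_sc θ t).coeff i := by
  set p := LimPar_sc θ t with hp
  have h1 : ∀ r : K, ∑ n ∈ Finset.range (max p.natDegree i + 1),
      r ^ n • (tmap (scl θ s) (p.coeff n) - s ^ n • p.coeff n) = 0 := by
    intro r
    have e1 : tmap (scl θ s) (evc r p) = evc (s * r) p := by
      rw [hp, LimPar_evc_sc, LimPar_evc_sc, LimPar_tmap_comp, LimPar_scl_scl]
    rw [evc_of_le r p (le_max_left _ i), evc_of_le (s * r) p (le_max_left _ i), map_sum,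
      ← sub_eq_zero, ← Finset.sum_sub_distrib] at e1
    rw [← e1]
    apply Finset.sum_congr rfl
    intro n _
    rw [map_smul, smul_sub, smul_smul, mul_pow, mul_comm]
  have h2 := vec_poly_zero (K := K) (fun n => tmap (scl θ s) (p.coeff n) - s ^ n • p.coeff n)
    _ (fun r _ => h1 r) i (by
      have := le_max_right p.natDegree i
      omega)
  exact sub_eq_zero.1 h2

omit [CharZero K] in
theorem LimPar_sum_coeff {n : ℕ} {t : TensorAlgebra K g} (ht : t ∈ imT K g ^ n) (s : K) :
    ∑ i ∈ Finset.range (n + 1), s ^ i • (LimPar_sc θ t).coeff i = tmap (scl θ s) t := by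
  rw [← LimPar_evc_sc, evc_of_le s _ (LimPar_natDegree θ ht)]

end scl

/-- naturality of the shift -/
theorem LimPar_shift_smap {L M : Type*} [LieRing L] [LieAlgebra K L] [LieRing M]
    [LieAlgebra K M] (f : L →ₗ[K] M) (ζ : M →ₗ[K] K) (G : Sy K L) (m : ℕ) :
    smap f ((shift (ζ ∘ₗ f) G).coeff m) = (shift ζ (smap f G)).coeff m := by
  have h : (Polynomial.mapAlgHom (smap f)).comp (shift (ζ ∘ₗ f)) = (shift ζ).comp (smap f) := by
    refine SymmetricAlgebra.algHom_ext (LinearMap.ext fun x => ?_)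
    show Polynomial.mapAlgHom (smap f) (shift (ζ ∘ₗ f) (ιS K L x)) = shift ζ (smap f (ιS K L x))
    have e1 : shift (ζ ∘ₗ f) (ιS K L x) = C (ιS K L x) +
        C (algebraMap K (Sy K L) (ζ (f x))) * X := expand_ι _ x
    have e2 : shift ζ (ιS K M (f x)) = C (ιS K M (f x)) +
        C (algebraMap K (Sy K M) (ζ (f x))) * X := expand_ι _ (f x)
    rw [smap_ι, e1, e2, Polynomial.coe_mapAlgHom, Polynomial.map_add, Polynomial.map_mul,
      Polynomial.map_C, Polynomial.map_C, Polynomial.map_X]
    congr 2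
    · exact smap_ι f x
    · exact congrArg C ((smap f).commutes _)
  have h2 := congrArg (fun F : Sy K L →ₐ[K] (Sy K M)[X] => (F G).coeff m) h
  simp only [AlgHom.comp_apply, Polynomial.coe_mapAlgHom, Polynomial.coeff_map] at h2
  exact h2

/-- the pieces of the limit -/
structure LimPar_Gd (b n : ℕ) (R : (TensorAlgebra K g)[X]) (W : K → Ue K g)
    (τ : TensorAlgebra K g) : Prop where
  deg : R.natDegree ≤ b
  val : ∀ s : K, s ≠ 0 → (pU (tmap (scl θ s⁻¹) (evc s R)) : Ue K g) = W s
  top : R.coeff b - τ ∈ LimPar_lowT K g n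

variable {θ}

theorem LimPar_Gd.add {b n : ℕ} {R R' : (TensorAlgebra K g)[X]} {W W' : K → Ue K g}
    {τ τ' : TensorAlgebra K g} (h : LimPar_Gd θ b n R W τ) (h' : LimPar_Gd θ b n R' W' τ') :
    LimPar_Gd θ b n (R + R') (fun s => W s + W' s) (τ + τ') where
  deg := (natDegree_add_le _ _).trans (max_le h.deg h'.deg)
  val := fun s hs => by rw [map_add, map_add, map_add, h.val s hs, h'.val s hs]
  top := by
    rw [coeff_add, add_sub_add_comm]
    exact add_mem h.top h'.top

theorem LimPar_Gd.zero (b n : ℕ) : LimPar_Gd θ b n 0 (fun _ => 0) 0 where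
  deg := by rw [natDegree_zero]; exact Nat.zero_le _
  val := fun s _ => by rw [map_zero, map_zero, map_zero]
  top := by
    rw [coeff_zero, sub_zero]
    exact zero_mem _

theorem LimPar_Gd.sum {ι : Type*} (S : Finset ι) {b n : ℕ} {R : ι → (TensorAlgebra K g)[X]}
    {W : ι → K → Ue K g} {τ : ι → TensorAlgebra K g}
    (h : ∀ i ∈ S, LimPar_Gd θ b n (R i) (W i) (τ i)) :
    LimPar_Gd θ b n (∑ i ∈ S, R i) (fun s => ∑ i ∈ S, W i s) (∑ i ∈ S, τ i) := by
  classical
  induction S using Finset.induction_on with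
  | empty =>
    simp only [Finset.sum_empty]
    exact LimPar_Gd.zero b n
  | insert i S hi ih =>
    simp only [Finset.sum_insert hi]
    exact (h i (Finset.mem_insert_self i S)).add
      (ih fun j hj => h j (Finset.mem_insert_of_mem hj))

variable (θ)

theorem LimPar_Gd.low [CharZero K] {b n j : ℕ} {l : TensorAlgebra K g}
    (hl : l ∈ LimPar_lowT K g n) (hj : j + n ≤ b + 1) :
    LimPar_Gd θ b (n + 1) (X ^ j * LimPar_sc θ l) (fun s => s ^ j • pU l) 0 where
  deg := LimPar_low_deg θ hj hl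
  val := fun s hs => by
    rw [map_mul, map_pow, evc_X, LimPar_evc_sc, ← map_pow, ← Algebra.smul_def, map_smul,
      LimPar_inv θ hs, map_smul]
  top := by
    rw [sub_zero, coeff_X_pow_mul']
    split_ifs
    · exact LimPar_lowT_succ n (LimPar_low θ hl _)
    · exact zero_mem _

theorem LimPar_Gd.hom {b n i j : ℕ} (h : j + i ≤ b) {t : TensorAlgebra K g}
    (ht : ∀ s : K, tmap (scl θ s) t = s ^ i • t) :
    LimPar_Gd θ b n (X ^ (j + i) * C t) (fun s => s ^ j • pU t)
      (if j + i = b then t else 0) where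
  deg := by
    rw [natDegree_le_iff_coeff_eq_zero]
    intro c hc
    rw [coeff_X_pow_mul', coeff_C]
    split_ifs with h1 h2
    · omega
    · rfl
    · rfl
  val := fun s hs => by
    rw [map_mul, map_pow, evc_X, evc_C, ← map_pow, ← Algebra.smul_def, map_smul, ht,
      smul_smul, map_smul, pow_add, mul_assoc, ← mul_pow, mul_inv_cancel₀ hs, one_pow, mul_one]
  top := by
    have e : (X ^ (j + i) * C t : (TensorAlgebra K g)[X]).coeff b =
        if j + i = b then t else 0 := by
      rw [coeff_X_pow_mul', coeff_C]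
      by_cases h1 : j + i = b
      · rw [if_pos h, if_pos (by omega), if_pos h1]
      · rw [if_pos h, if_neg (by omega), if_neg h1]
    rw [e, sub_self]
    exact zero_mem _

/-- the limit of a quantised family; `d ≤ b + 2` -/
theorem limQ_of_hasQ [CharZero K] (e : g ≃ₗ[K] k) {C : (g →ₗ[K] K) → Subalgebra K (Ue K g)}
    {d b : ℕ} {F : Sy K g} (h : HasQ C d F) (hb : (scS θ F).natDegree ≤ b) (hd : d ≤ b + 2) :
    LimQ θ e C d b F := by
  obtain ⟨V, hV⟩ := h
  intro ξ m hm
  set η : g →ₗ[K] K := ξ ∘ₗ (e : g →ₗ[K] k) with hη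
  obtain ⟨n, rfl⟩ : ∃ n, d = m + (n + 1) := ⟨d - m - 1, by omega⟩
  have hdm : m + (n + 1) - m = n + 1 := by omega
  rw [hdm]
  -- the line
  set ξ0 : g →ₗ[K] K := η ∘ₗ scl θ 0 with hξ0
  set ξ1 : g →ₗ[K] K := η ∘ₗ (scl θ 1 - scl θ 0) with hξ1
  have hxis : ∀ s : K, xis θ e ξ s = ξ0 + s • ξ1 := by
    intro s
    refine LinearMap.ext fun x => ?_
    show η (scl θ s x) = η (scl θ 0 x) + s • η (scl θ 1 x - scl θ 0 x)
    rw [scl_apply, scl_apply, scl_apply, zero_smul, add_zero, one_smul, add_sub_cancel_left,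
      map_add, map_smul]
  obtain ⟨w, a, hw, ha, hsym, hant⟩ := hV.line ξ0 ξ1 (m := m) (by omega)
  rw [hdm] at hsym
  have hpar : (-1 : K) ^ (m + (n + 1) + m) = (-1 : K) ^ (n + 1) := by
    rw [show m + (n + 1) + m = 2 * m + (n + 1) by omega, pow_add, pow_mul, neg_one_sq, one_pow,
      one_mul]
  have hspl : ∀ j, ∃ t ∈ imT K g ^ (n + 1), LimPar_rev t = t ∧ (pS t : Sy K g) = a j ∧
      w j - pU t ∈ lowU K g n := by
    intro j
    have h1 := LimPar_sym_split (hsym j) (by rw [hant, hpar])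
    rwa [Nat.add_sub_cancel] at h1
  choose t htT htr htS htU using hspl
  have hl : ∀ j, ∃ l ∈ LimPar_lowT K g n, pU l = w j - pU (t j) := fun j => LimPar_lift (htU j)
  choose l hlT hlU using hl
  -- the coefficients
  set T : ℕ → ℕ → TensorAlgebra K g := fun j i => (LimPar_sc θ (t j)).coeff i with hT
  have hTT : ∀ j i, T j i ∈ imT K g ^ (n + 1) := fun j i => LimPar_coeff_mem θ (htT j) i
  have hTr : ∀ j i, LimPar_rev (T j i) = T j i := by
    intro j i
    rw [hT]
    show LimPar_rev ((LimPar_sc θ (t j)).coeff i) = (LimPar_sc θ (t j)).coeff i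
    rw [LimPar_rev_coeff, htr]
  have hTe : ∀ j i (s : K), tmap (scl θ s) (T j i) = s ^ i • T j i :=
    fun j i s => LimPar_eigen θ (t j) s i
  have hTs : ∀ j (s : K), ∑ i ∈ Finset.range (n + 1 + 1), s ^ i • T j i = tmap (scl θ s) (t j) :=
    fun j s => LimPar_sum_coeff θ (htT j) s
  -- the symbols of the coefficients
  set Z : ℕ → Sy K g := fun c => ∑ j ∈ Finset.range (m + 1), ∑ i ∈ Finset.range (n + 1 + 1),
    if j + i = c then (pS (T j i) : Sy K g) else 0 with hZ
  have hZe : ∀ c, Z c = (shift η ((scS θ F).coeff c)).coeff m := by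
    intro c
    set N := max (max (scS θ F).natDegree (m + (n + 1))) c with hN
    have hN1 : (scS θ F).natDegree ≤ N := (le_max_left _ _).trans (le_max_left _ _)
    have hN2 : m + (n + 1) ≤ N := (le_max_right _ _).trans (le_max_left _ _)
    have hN3 : c ≤ N := le_max_right _ _
    have key : ∀ s : K, ∑ c' ∈ Finset.range (N + 1), s ^ c' •
        (Z c' - (shift η ((scS θ F).coeff c')).coeff m) = 0 := by
      intro s
      have e1 : ∑ c' ∈ Finset.range (N + 1), s ^ c' • Z c' =
          ∑ j ∈ Finset.range (m + 1), s ^ j • smap (scl θ s) (a j) := by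
        rw [hZ]
        simp only [Finset.smul_sum]
        rw [Finset.sum_comm]
        apply Finset.sum_congr rfl
        intro j hj
        rw [Finset.mem_range] at hj
        rw [Finset.sum_comm, ← htS, ← pS_tmap, ← hTs, map_sum, Finset.smul_sum]
        apply Finset.sum_congr rfl
        intro i hi
        rw [Finset.mem_range] at hi
        rw [Finset.sum_eq_single (j + i)]
        · rw [if_pos rfl, map_smul, smul_smul, pow_add]
        · intro c' _ hc'
          rw [if_neg (Ne.symm hc'), smul_zero]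
        · intro hcon
          exact absurd (Finset.mem_range.2 (by omega)) hcon
      have e2 : ∑ j ∈ Finset.range (m + 1), s ^ j • smap (scl θ s) (a j) =
          (shift η (smap (scl θ s) F)).coeff m := by
        rw [← LimPar_shift_smap]
        have e3 : η ∘ₗ scl θ s = ξ0 + s • ξ1 := hxis s
        rw [e3, ha, map_sum]
        apply Finset.sum_congr rfl
        intro j _
        rw [map_smul]
      have e4 : (shift η (smap (scl θ s) F)).coeff m =
          ∑ c' ∈ Finset.range (N + 1), s ^ c' • (shift η ((scS θ F).coeff c')).coeff m := by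
        rw [← LimPar_evc_scS, evc_of_le s _ hN1, map_sum, finsetSum_coeff]
        apply Finset.sum_congr rfl
        intro c' _
        rw [map_smul, coeff_smul]
      have e5 := e1.trans (e2.trans e4)
      rw [← sub_eq_zero, ← Finset.sum_sub_distrib] at e5
      rw [← e5]
      apply Finset.sum_congr rfl
      intro c' _
      rw [smul_sub]
    have h2 := vec_poly_zero (K := K)
      (fun c' => Z c' - (shift η ((scS θ F).coeff c')).coeff m) (N + 1)
      (fun s _ => key s) c (by omega)
    exact sub_eq_zero.1 h2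
  have hZ0 : ∀ j i, j < m + 1 → i < n + 1 + 1 → b < j + i → (pS (T j i) : Sy K g) = 0 := by
    intro j i hj hi hji
    have h1 : Z (j + i) = 0 := by
      rw [hZe, coeff_eq_zero_of_natDegree_lt (hb.trans_lt hji), map_zero, coeff_zero]
    have h2 : ∀ s : K, ∑ i' ∈ Finset.range (n + 1 + 1), s ^ i' •
        (∑ j' ∈ Finset.range (m + 1), if j' + i' = j + i then (pS (T j' i') : Sy K g) else 0) =
          0 := by
      intro s
      have h3 := congrArg (smap (scl θ s)) h1
      rw [map_zero, hZ] at h3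
      simp only at h3
      rw [Finset.sum_comm, map_sum] at h3
      refine Eq.trans ?_ h3
      apply Finset.sum_congr rfl
      intro i' _
      rw [map_sum, Finset.smul_sum]
      apply Finset.sum_congr rfl
      intro j' _
      split_ifs
      · rw [← pS_tmap, hTe, map_smul]
      · rw [smul_zero, map_zero]
    have h4 := vec_poly_zero (K := K) (fun i' => ∑ j' ∈ Finset.range (m + 1),
      if j' + i' = j + i then (pS (T j' i') : Sy K g) else 0) (n + 1 + 1) (fun s _ => h2 s) i hi
    rw [Finset.sum_eq_single j] at h4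
    · rwa [if_pos rfl] at h4
    · intro j' _ hj'
      rw [if_neg (by omega)]
    · intro hcon
      exact absurd (Finset.mem_range.2 hj) hcon
  have hl' : ∀ j i, ∃ l' : TensorAlgebra K g, j < m + 1 → i < n + 1 + 1 → b < j + i →
      l' ∈ LimPar_lowT K g n ∧ pU l' = pU (T j i) := by
    intro j i
    by_cases hc : j < m + 1 ∧ i < n + 1 + 1 ∧ b < j + i
    · obtain ⟨h1, h2, h3⟩ := hc
      have h4 := LimPar_low_of_sym (hTT j i) (hZ0 j i h1 h2 h3) (hTr j i)
      rw [Nat.add_sub_cancel] at h4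
      obtain ⟨l', hl1, hl2⟩ := LimPar_lift h4
      exact ⟨l', fun _ _ _ => ⟨hl1, hl2⟩⟩
    · exact ⟨0, fun h1 h2 h3 => absurd ⟨h1, h2, h3⟩ hc⟩
  choose l' hl'P using hl'
  -- the polynomial
  set P : ℕ → ℕ → (TensorAlgebra K g)[X] := fun j i =>
    if j + i ≤ b then X ^ (j + i) * Polynomial.C (T j i) else X ^ j * LimPar_sc θ (l' j i)
    with hP
  have hPG : ∀ j i, j < m + 1 → i < n + 1 + 1 →
      LimPar_Gd θ b (n + 1) (P j i) (fun s => s ^ j • pU (T j i))
        (if j + i = b then T j i else 0) := by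
    intro j i hj hi
    by_cases hji : j + i ≤ b
    · have e1 : P j i = X ^ (j + i) * Polynomial.C (T j i) := by
        rw [hP]
        exact if_pos hji
      rw [e1]
      exact LimPar_Gd.hom θ hji (hTe j i)
    · obtain ⟨h1, h2⟩ := hl'P j i hj hi (by omega)
      have e1 : P j i = X ^ j * LimPar_sc θ (l' j i) := by
        rw [hP]
        exact if_neg hji
      rw [e1, ← h2, if_neg (by omega)]
      exact LimPar_Gd.low θ h1 (by omega)
  have hG : LimPar_Gd θ b (n + 1)
      (∑ j ∈ Finset.range (m + 1), (∑ i ∈ Finset.range (n + 1 + 1), P j i +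
        X ^ j * LimPar_sc θ (l j)))
      (fun s => ∑ j ∈ Finset.range (m + 1), (∑ i ∈ Finset.range (n + 1 + 1),
        s ^ j • (pU (T j i) : Ue K g) + s ^ j • pU (l j)))
      (∑ j ∈ Finset.range (m + 1), (∑ i ∈ Finset.range (n + 1 + 1),
        (if j + i = b then T j i else 0) + 0)) := by
    apply LimPar_Gd.sum
    intro j hj
    rw [Finset.mem_range] at hj
    apply LimPar_Gd.add
    · apply LimPar_Gd.sum
      intro i hi
      rw [Finset.mem_range] at hi
      exact hPG j i hj hi
    · exact LimPar_Gd.low θ (hlT j) (by omega)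
  set R : (TensorAlgebra K g)[X] := ∑ j ∈ Finset.range (m + 1),
    (∑ i ∈ Finset.range (n + 1 + 1), P j i + X ^ j * LimPar_sc θ (l j)) with hR
  set τ : TensorAlgebra K g := ∑ j ∈ Finset.range (m + 1), (∑ i ∈ Finset.range (n + 1 + 1),
    (if j + i = b then T j i else 0) + 0) with hτ
  have hτT : τ ∈ imT K g ^ (n + 1) := by
    rw [hτ]
    refine sum_mem fun j _ => add_mem (sum_mem fun i _ => ?_) (zero_mem _)
    split_ifs
    · exact hTT j i
    · exact zero_mem _
  refine ⟨fun s => V (xis θ e ξ s) m, pU (tmap (e : g →ₗ[K] k) (R.coeff b)),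
    fun s _ => hV.cen _ m, ⟨R, hG.deg, fun s hs => ?_, rfl⟩, ?_⟩
  · show _ = V (xis θ e ξ s) m
    rw [hG.val s hs, hxis, hw]
    apply Finset.sum_congr rfl
    intro j _
    rw [← Finset.smul_sum, ← smul_add, ← map_sum, hlU]
    have e1 : ∑ i ∈ Finset.range (n + 1 + 1), T j i = t j := by
      have e2 := hTs j 1
      rw [LimPar_scl_one, LimPar_tmap_id] at e2
      simp only [one_pow, one_smul] at e2
      exact e2
    rw [e1, add_sub_cancel]
  · refine ⟨tmap (e : g →ₗ[K] k) τ, tmap_mem _ hτT, ?_, ?_⟩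
    · show (pS (tmap (e : g →ₗ[K] k) τ) : Sy K k) = _
      rw [pS_tmap, ← LimPar_shift_smap, ← hη, ← hZe b]
      congr 1
      rw [hτ, hZ, map_sum]
      apply Finset.sum_congr rfl
      intro j _
      rw [add_zero, map_sum]
      apply Finset.sum_congr rfl
      intro i _
      split_ifs
      · rfl
      · rw [map_zero]
    · rw [← map_sub (pU (𝕜 := K) (L := k)), ← map_sub (tmap (e : g →ₗ[K] k))]
      exact LimPar_pU_low (LimPar_tmap_low _ hG.top)

end Pool.Agent.helper49.QA
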