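import Mathlib
import Pool.Agent.helper49.QA.Alt

/-!
# Sums of principal minors: elementary properties

`gd M = det (1 + u M)`, `ek k M` its coefficient of `u ^ k` (the sum of the principal minors of
size `k`), `phi K c k M` is `ek k M` for `c = false` and the `k`-th coefficient of the square root
of `gd M` for `c = true`.
-/

set_option autoImplicit false

namespace Pool.Agent.helper49.QA

open Polynomial

variable {n : Type*} [Fintype n] [DecidableEq n] {R : Type*} [CommRing R]

/-- `ek k M` (`c = false`) or the coefficient of the square root of `gd M` (`c = true`) -/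
noncomputable def phi (K : Type*) [Field K] [Algebra K R] (c : Bool) (k : ℕ)
    (M : Matrix n n R) : R :=
  if c then sqr K (fun j => ek j M) k else ek k M

theorem gd_map {S : Type*} [CommRing S] (f : R →+* S) (M : Matrix n n R) :
    gd (M.map f) = (gd M).map f := by
  rw [gd, gd, ← coe_mapRingHom, RingHom.map_det]
  congr 1
  ext1 i j
  rw [RingHom.mapMatrix_apply, Matrix.map_apply, Matrix.add_apply, Matrix.add_apply,
    Matrix.smul_apply, Matrix.smul_apply, Matrix.map_apply, Matrix.map_apply, Matrix.map_apply,
    map_add, smul_eq_mul, smul_eq_mul, map_mul, coe_mapRingHom, map_X, map_C]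
  congr 1
  by_cases h : i = j
  · rw [h, Matrix.one_apply_eq, Matrix.one_apply_eq, Polynomial.map_one]
  · rw [Matrix.one_apply_ne h, Matrix.one_apply_ne h, Polynomial.map_zero]

theorem ek_map {S : Type*} [CommRing S] (f : R →+* S) (k : ℕ) (M : Matrix n n R) :
    ek k (M.map f) = f (ek k M) := by
  rw [ek, gd_map, coeff_map, ek]

/-- functoriality of the square root of a sequence -/
theorem sqr_map {K : Type*} [Field K] {E E' : Type*} [Ring E] [Algebra K E] [Ring E']
    [Algebra K E'] (f : E →ₐ[K] E') (c : ℕ → E) (k : ℕ) :
    f (sqr K c k) = sqr K (fun j => f (c j)) k := by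
  induction k using Nat.strong_induction_on with
  | _ k ih =>
    cases k with
    | zero => rw [sqr, sqr, map_one]
    | succ k =>
      rw [sqr, sqr, map_smul, map_sub, map_sum]
      congr 2
      apply Finset.sum_congr rfl
      intro i _
      have hi := i.isLt
      rw [map_mul, ih (i + 1) (by omega), ih (k - i) (by omega)]

theorem phi_map {K : Type*} [Field K] [Algebra K R] {S : Type*} [CommRing S] [Algebra K S]
    (f : R →ₐ[K] S) (c : Bool) (k : ℕ) (M : Matrix n n R) :
    phi K c k (M.map f) = f (phi K c k M) := by
  have h : ∀ j, ek j (M.map f) = f (ek j M) := fun j => ek_map (f : R →+* S) j M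
  unfold phi
  cases c
  · rw [if_neg (by decide), if_neg (by decide)]
    exact h k
  · rw [if_pos rfl, if_pos rfl, sqr_map f]
    simp_rw [h]

/-- `ek` is the sum of the principal minors
(`Matrix.coeff_det_one_add_X_smul_eq_sum_minors`) -/
theorem ek_eq_sum (k : ℕ) (M : Matrix n n R) :
    ek k M = ∑ s ∈ Finset.univ.powersetCard k,
      (M.submatrix (Subtype.val : s → n) (Subtype.val : s → n)).det :=
  Matrix.coeff_det_one_add_X_smul_eq_sum_minors M k

theorem ek_zero (M : Matrix n n R) : ek 0 M = 1 := by
  rw [ek_eq_sum, Finset.powersetCard_zero, Finset.sum_singleton, Matrix.det_isEmpty]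

theorem ek_of_card_lt {k : ℕ} (h : Fintype.card n < k) (M : Matrix n n R) : ek k M = 0 := by
  rw [ek_eq_sum, Finset.powersetCard_eq_empty.2 (by rwa [Finset.card_univ]), Finset.sum_empty]

theorem gd_conj {P Q : Matrix n n R} (h : P * Q = 1) (M : Matrix n n R) :
    gd (P * M * Q) = gd M := by
  have h1 : P.map (C : R → R[X]) * Q.map (C : R → R[X]) = 1 := by
    rw [← Matrix.map_mul, h]
    exact Matrix.map_one (C : R → R[X]) C.map_zero C.map_one
  have h2 : (1 : Matrix n n R[X]) + (X : R[X]) • (P * M * Q).map (C : R → R[X]) =
      P.map (C : R → R[X]) * (1 + (X : R[X]) • M.map (C : R → R[X])) * Q.map (C : R → R[X]) := by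
    rw [Matrix.mul_add, Matrix.add_mul, Matrix.mul_one, h1, Matrix.mul_smul, Matrix.smul_mul,
      Matrix.map_mul, Matrix.map_mul]
  rw [gd, h2, Matrix.det_mul, Matrix.det_mul, mul_right_comm, ← Matrix.det_mul, h1,
    Matrix.det_one, one_mul, gd]

theorem ek_conj {P Q : Matrix n n R} (h : P * Q = 1) (k : ℕ) (M : Matrix n n R) :
    ek k (P * M * Q) = ek k M := by
  rw [ek, gd_conj h, ek]

theorem ek_transpose (k : ℕ) (M : Matrix n n R) : ek k M.transpose = ek k M := by
  rw [ek_eq_sum, ek_eq_sum]
  apply Finset.sum_congr rfl
  intro s _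
  rw [← Matrix.transpose_submatrix, Matrix.det_transpose]

theorem ek_smul (c : R) (k : ℕ) (M : Matrix n n R) : ek k (c • M) = c ^ k * ek k M := by
  rw [ek_eq_sum, ek_eq_sum, Finset.mul_sum]
  apply Finset.sum_congr rfl
  intro s hs
  rw [Matrix.submatrix_smul, Pi.smul_apply, Pi.smul_apply, Matrix.det_smul, Fintype.card_coe,
    (Finset.mem_powersetCard.1 hs).2]

/-- scaling of the square root of a sequence: if `c' j = a ^ j * c j` then the same holds for the
square roots -/
theorem sqr_smul {K : Type*} [Field K] [Algebra K R] (a : R) {c c' : ℕ → R}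
    (h : ∀ j, c' j = a ^ j * c j) (k : ℕ) : sqr K c' k = a ^ k * sqr K c k := by
  induction k using Nat.strong_induction_on with
  | _ k ih =>
    cases k with
    | zero => rw [sqr, sqr, pow_zero, one_mul]
    | succ k =>
      rw [sqr, sqr, mul_smul_comm, h, mul_sub, Finset.mul_sum]
      congr 2
      apply Finset.sum_congr rfl
      intro i _
      have hi := i.isLt
      rw [ih (i + 1) (by omega), ih (k - i) (by omega)]
      have h1 : k + 1 = (i + 1 : ℕ) + (k - i) := by omega
      conv_rhs => rw [h1, pow_add]
      ring

theorem phi_conj {K : Type*} [Field K] [Algebra K R] {P Q : Matrix n n R} (h : P * Q = 1)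
    (c : Bool) (k : ℕ) (M : Matrix n n R) : phi K c k (P * M * Q) = phi K c k M := by
  unfold phi
  simp_rw [ek_conj h]

theorem phi_transpose {K : Type*} [Field K] [Algebra K R]
    (c : Bool) (k : ℕ) (M : Matrix n n R) : phi K c k M.transpose = phi K c k M := by
  unfold phi
  simp_rw [ek_transpose]

theorem phi_smul {K : Type*} [Field K] [Algebra K R] (a : R)
    (c : Bool) (k : ℕ) (M : Matrix n n R) : phi K c k (a • M) = a ^ k * phi K c k M := by
  unfold phi
  cases c
  · rw [if_neg (by decide), if_neg (by decide), ek_smul]
  · rw [if_pos rfl, if_pos rfl]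
    exact sqr_smul a (fun j => ek_smul a j M) k

/-- the inner sum of `altD` in a commutative ring -/
private theorem EkBasic_det (k : ℕ) (M : Matrix n n R) (i : Fin k → n) :
    ∑ τ : Equiv.Perm (Fin k), (Equiv.Perm.sign τ : ℤ) •
      (List.ofFn fun j => M (i j) (i (τ j))).prod = (M.submatrix i i).det := by
  rw [← Matrix.det_transpose, Matrix.det_apply]
  apply Finset.sum_congr rfl
  intro τ _
  rw [List.prod_ofFn]
  rfl

private theorem EkBasic_card (k : ℕ) (s : Finset n) (hs : s.card = k) :
    (Finset.univ.filter fun i : Fin k → n => Function.Injective i ∧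
      Finset.univ.image i = s).card = k.factorial := by
  have e0 : Fin k ≃ s := (finCongr hs.symm).trans s.equivFin.symm
  have h1 : Fintype.card (Fin k ≃ s) = k.factorial := by
    rw [Fintype.card_equiv e0, Fintype.card_fin]
  rw [← h1, ← Finset.card_univ]
  symm
  refine Finset.card_bij (fun e _ j => ((e j : s) : n)) ?_ ?_ ?_
  · intro e _
    rw [Finset.mem_filter]
    refine ⟨Finset.mem_univ _, fun a b hab => e.injective (Subtype.ext hab), ?_⟩
    ext x
    rw [Finset.mem_image]
    constructor
    · rintro ⟨j, -, rfl⟩
      exact (e j).2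
    · intro hx
      exact ⟨e.symm ⟨x, hx⟩, Finset.mem_univ _, by simp⟩
  · intro e _ e' _ h
    ext j
    exact congrFun h j
  · intro i hi
    rw [Finset.mem_filter] at hi
    obtain ⟨-, hi1, hi2⟩ := hi
    have hm : ∀ j, i j ∈ s := by
      intro j
      rw [← hi2]
      exact Finset.mem_image_of_mem i (Finset.mem_univ j)
    have hb : Function.Bijective (fun j => (⟨i j, hm j⟩ : s)) := by
      constructor
      · intro a b hab
        exact hi1 (congrArg Subtype.val hab)
      · rintro ⟨x, hx⟩
        rw [← hi2, Finset.mem_image] at hx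
        obtain ⟨j, -, rfl⟩ := hx
        exact ⟨j, rfl⟩
    exact ⟨Equiv.ofBijective _ hb, Finset.mem_univ _, rfl⟩

private theorem EkBasic_fibre (k : ℕ) (M : Matrix n n R) (s : Finset n) (i : Fin k → n)
    (hi1 : Function.Injective i) (hi2 : Finset.univ.image i = s) :
    (M.submatrix i i).det =
      (M.submatrix (Subtype.val : s → n) (Subtype.val : s → n)).det := by
  have hm : ∀ j, i j ∈ s := by
    intro j
    rw [← hi2]
    exact Finset.mem_image_of_mem i (Finset.mem_univ j)
  have hb : Function.Bijective (fun j => (⟨i j, hm j⟩ : s)) := by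
    constructor
    · intro a b hab
      exact hi1 (congrArg Subtype.val hab)
    · rintro ⟨x, hx⟩
      rw [← hi2, Finset.mem_image] at hx
      obtain ⟨j, -, rfl⟩ := hx
      exact ⟨j, rfl⟩
  rw [← Matrix.det_submatrix_equiv_self (Equiv.ofBijective _ hb), Matrix.submatrix_submatrix]
  rfl

/-- in a commutative ring `altD k M` is `k!` times the sum of the principal minors: the sum over
`τ` is the determinant of the submatrix `M.submatrix i i`, which vanishes if `i` is not injective;
the injective maps `Fin k → n` with the image `s` are `k!` in number and give the same minor -/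
theorem altD_eq (k : ℕ) (M : Matrix n n R) : altD k M = (k.factorial : R) * ek k M := by
  have h1 : altD k M = ∑ i : Fin k → n, (M.submatrix i i).det :=
    Finset.sum_congr rfl fun i _ => EkBasic_det k M i
  have h2 : ∑ i : Fin k → n, (M.submatrix i i).det =
      ∑ i ∈ Finset.univ.filter (fun i : Fin k → n => Function.Injective i),
        (M.submatrix i i).det := by
    symm
    apply Finset.sum_subset (Finset.filter_subset _ _)
    intro i _ hi
    rw [Finset.mem_filter] at hi
    have hi' : ¬ Function.Injective i := fun u => hi ⟨Finset.mem_univ _, u⟩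
    rw [Function.Injective] at hi'
    push Not at hi'
    obtain ⟨a, b, hab, hne⟩ := hi'
    apply Matrix.det_zero_of_row_eq hne
    funext j
    rw [Matrix.submatrix_apply, Matrix.submatrix_apply, hab]
  have h3 : ∑ i ∈ Finset.univ.filter (fun i : Fin k → n => Function.Injective i),
      (M.submatrix i i).det =
      ∑ s ∈ (Finset.univ : Finset n).powersetCard k,
        ∑ i ∈ (Finset.univ.filter (fun i : Fin k → n => Function.Injective i)).filter
          (fun i => Finset.univ.image i = s), (M.submatrix i i).det := by
    symm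
    apply Finset.sum_fiberwise_of_maps_to
    intro i hi
    rw [Finset.mem_filter] at hi
    rw [Finset.mem_powersetCard]
    refine ⟨Finset.subset_univ _, ?_⟩
    rw [Finset.card_image_of_injective _ hi.2, Finset.card_univ, Fintype.card_fin]
  rw [h1, h2, h3, ek_eq_sum, Finset.mul_sum]
  apply Finset.sum_congr rfl
  intro s hs
  rw [Finset.filter_filter]
  have h4 : ∀ i ∈ Finset.univ.filter (fun i : Fin k → n => Function.Injective i ∧
      Finset.univ.image i = s), (M.submatrix i i).det =
      (M.submatrix (Subtype.val : s → n) (Subtype.val : s → n)).det := by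
    intro i hi
    rw [Finset.mem_filter] at hi
    exact EkBasic_fibre k M s i hi.2.1 hi.2.2
  rw [Finset.sum_congr rfl h4, Finset.sum_const,
    EkBasic_card k s (Finset.mem_powersetCard.1 hs).2, nsmul_eq_mul]

/-- functoriality of `altD` -/
theorem altD_map {E E' : Type*} [Ring E] [Ring E'] (f : E →+* E') (k : ℕ) (M : Matrix n n E) :
    altD k (M.map f) = f (altD k M) := by
  unfold altD
  rw [map_sum]
  apply Finset.sum_congr rfl
  intro i _
  rw [map_sum]
  apply Finset.sum_congr rfl
  intro τ _
  rw [map_zsmul, map_list_prod, List.map_ofFn]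
  rfl

end Pool.Agent.helper49.QA
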