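import Mathlib
import Pool.Agent.helper49.QA.EkBasic

/-!
# The derivative of `phi` in a direction

For matrices `M`, `Y` over a commutative ring `R` we consider `M + t Y` over `R[t]`; the coefficient
of `t` of `gd (M + t Y)` is `gd M * u * tr ((1 + u M)⁻¹ Y)` where
`(1 + u M)⁻¹ = ∑ (-u) ^ j M ^ j` over `R⟦u⟧`.

Proof of `ek_deriv`.  Work over `S = R⟦u⟧` and `S[t]`: let `A = 1 + u M` (matrix over `S`),
`B = ∑_j (-u)^j M^j`, i.e. the matrix with the entries
`PowerSeries.mk fun j => (-1)^j * (M^j) i l`; then `A * B = 1`.  Hence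
`det (A + t u Y) = det A * det (1 + t u B Y)` and the coefficient of `t` is
`det A * tr (u B Y)` (`Matrix.coeff_det_one_add_X_smul_one`).  Now `det A` is the image of `gd M`
in `S`, with constant coefficient `1`, and `tr (u B Y) = ∑_j (-1)^j u^(j+1) tr (M^j Y)`, which is
divisible by `u ^ m` with the coefficient `(-1)^(m-1) tr (M^(m-1) Y)` at `u ^ m` by hypothesis.
Interchange the two variables: `(ek k (M + t Y)).coeff 1` is the coefficient of `u ^ k` of the
coefficient of `t` of `det (A + t u Y)`.
-/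

set_option autoImplicit false

namespace Pool.Agent.helper49.QA

open Polynomial

variable {n : Type*} [Fintype n] [DecidableEq n] {R : Type*} [CommRing R]

/-- the matrix `M + t Y` -/
noncomputable def lineM (M Y : Matrix n n R) : Matrix n n R[X] :=
  M.map C + (X : R[X]) • Y.map C

theorem EkDer_swap_coeff (p : R[X][X]) (i j : ℕ) :
    ((Bivariate.swap p).coeff i).coeff j = (p.coeff j).coeff i := by
  induction p using Polynomial.induction_on' with
  | add p q hp hq => rw [map_add, coeff_add, coeff_add, hp, hq, coeff_add, coeff_add]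
  | monomial n f =>
    induction f using Polynomial.induction_on' with
    | add f g hf hg =>
      rw [map_add, map_add, coeff_add, coeff_add, hf, hg, coeff_add, coeff_add]
    | monomial l r =>
      rw [Bivariate.swap_monomial_monomial, coeff_monomial, coeff_monomial]
      by_cases h1 : l = i <;> by_cases h2 : n = j <;>
        simp [h1, h2, coeff_monomial]

/-- the matrix `∑ (-u)^j M^j` over the power series -/
noncomputable def EkDerB (M : Matrix n n R) : Matrix n n (PowerSeries R) :=
  Matrix.of fun i l => PowerSeries.mk fun j => (-1) ^ j * (M ^ j) i l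

theorem EkDerB_mul (M : Matrix n n R) :
    (1 + (PowerSeries.X : PowerSeries R) • M.map (PowerSeries.C (R := R))) * EkDerB M = 1 := by
  ext i l k
  rw [add_mul, one_mul, Matrix.add_apply, Matrix.smul_mul, Matrix.smul_apply, smul_eq_mul,
    map_add]
  rcases k with _ | k
  · rw [PowerSeries.coeff_zero_X_mul, add_zero, EkDerB, Matrix.of_apply, PowerSeries.coeff_mk,
      pow_zero, one_mul, pow_zero]
    by_cases h : i = l
    · rw [h, Matrix.one_apply_eq, Matrix.one_apply_eq, PowerSeries.coeff_zero_one]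
    · rw [Matrix.one_apply_ne h, Matrix.one_apply_ne h, map_zero]
  · rw [PowerSeries.coeff_succ_X_mul, Matrix.mul_apply, map_sum, EkDerB]
    simp only [Matrix.of_apply, Matrix.map_apply, PowerSeries.coeff_C_mul, PowerSeries.coeff_mk]
    have h1 : (PowerSeries.coeff (k + 1)) ((1 : Matrix n n (PowerSeries R)) i l) = 0 := by
      by_cases h : i = l
      · rw [h, Matrix.one_apply_eq, PowerSeries.coeff_one, if_neg (Nat.succ_ne_zero k)]
      · rw [Matrix.one_apply_ne h, map_zero]
    rw [h1, pow_succ' M k, Matrix.mul_apply, Finset.mul_sum, ← Finset.sum_add_distrib]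
    apply Finset.sum_eq_zero
    intro s _
    ring

theorem EkDer_jacobi {S : Type*} [CommRing S] (A W B : Matrix n n S) (h : A * B = 1) :
    (A.map C + (X : S[X]) • W.map C).det.coeff 1 = A.det * (B * W).trace := by
  have h1 : A.map C + (X : S[X]) • W.map C =
      A.map C * (1 + (X : S[X]) • (B * W).map C) := by
    rw [mul_add, mul_one, Matrix.mul_smul, Matrix.map_mul, ← Matrix.mul_assoc, ← Matrix.map_mul,
      h]
    congr 2
    rw [Matrix.map_one _ (map_zero _) (map_one _), Matrix.one_mul]
  have h2 : (A.map (C : S →+* S[X])).det = C A.det := (RingHom.map_det C A).symm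
  rw [h1, Matrix.det_mul, h2, coeff_C_mul, Matrix.coeff_det_one_add_X_smul_one]

theorem EkDerB_trace (M Y : Matrix n n R) :
    (EkDerB M * ((PowerSeries.X : PowerSeries R) • Y.map (PowerSeries.C (R := R)))).trace =
      PowerSeries.X * PowerSeries.mk fun j => (-1) ^ j * (M ^ j * Y).trace := by
  rw [Matrix.mul_smul, Matrix.trace_smul, smul_eq_mul]
  congr 1
  ext k
  rw [Matrix.trace, map_sum, PowerSeries.coeff_mk, Matrix.trace, Finset.mul_sum]
  apply Finset.sum_congr rfl
  intro i _
  rw [Matrix.diag_apply, Matrix.diag_apply, Matrix.mul_apply, Matrix.mul_apply, map_sum,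
    Finset.mul_sum]
  apply Finset.sum_congr rfl
  intro l _
  rw [Matrix.map_apply, PowerSeries.coeff_mul_C, EkDerB, Matrix.of_apply, PowerSeries.coeff_mk,
    mul_assoc]

/-- the coefficient of `t` of `det (1 + u (M + t Y))`, as a power series in `u` -/
theorem EkDer_main (M Y : Matrix n n R) (k : ℕ) :
    (ek k (lineM M Y)).coeff 1 = PowerSeries.coeff k
      ((gd M : PowerSeries R) * (PowerSeries.X * PowerSeries.mk fun j =>
        (-1) ^ j * (M ^ j * Y).trace)) := by
  let A : Matrix n n R[X] := 1 + (X : R[X]) • M.map C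
  let W : Matrix n n R[X] := (X : R[X]) • Y.map C
  have h1 : Bivariate.swap (gd (lineM M Y)) =
      (A.map C + (X : R[X][X]) • W.map C).det := by
    unfold gd lineM
    rw [← AlgEquiv.coe_ringEquiv, RingEquiv.map_det]
    congr 1
    ext1 i j
    by_cases h : i = j
    · subst h
      simp [A, W, Bivariate.swap_C]
      rw [Bivariate.swap_Y]
      ring
    · simp [A, W, Bivariate.swap_C, h]
      rw [Bivariate.swap_Y]
      ring
  let ι : R[X] →+* PowerSeries R := coeToPowerSeries.ringHom
  have hι : ∀ p : R[X], ι p = (p : PowerSeries R) := fun _ => rfl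
  have h2 : (ek k (lineM M Y)).coeff 1 =
      PowerSeries.coeff k (ι ((A.map C + (X : R[X][X]) • W.map C).det.coeff 1)) := by
    rw [hι, coeff_coe, ← h1, EkDer_swap_coeff]
    rfl
  have hA : A.map ι = 1 + (PowerSeries.X : PowerSeries R) • M.map (PowerSeries.C (R := R)) := by
    ext1 i j
    by_cases h : i = j
    · subst h
      simp [A, hι]
      ring
    · simp [A, hι, h]
      ring
  have hW : W.map ι = (PowerSeries.X : PowerSeries R) • Y.map (PowerSeries.C (R := R)) := by
    ext1 i j
    simp [W, hι]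
    ring
  have h3 : ι ((A.map C + (X : R[X][X]) • W.map C).det.coeff 1) =
      ((A.map ι).map C + (X : (PowerSeries R)[X]) • (W.map ι).map C).det.coeff 1 := by
    rw [← coeff_map, ← coe_mapRingHom, RingHom.map_det]
    congr 2
    ext1 i j
    simp
  have h4 : (A.map ι).det = (gd M : PowerSeries R) := by
    rw [← hι, ← RingHom.mapMatrix_apply, ← RingHom.map_det]
    rfl
  rw [h2, h3, EkDer_jacobi (A.map ι) (W.map ι) (EkDerB M) (by rw [hA, EkDerB_mul]), h4, hW,
    EkDerB_trace]

theorem EkDer_gd_zero (M : Matrix n n R) : (gd M).coeff 0 = 1 := ek_zero M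

theorem EkDer_X_pow {M Y : Matrix n n R} {m : ℕ} (hm : 1 ≤ m)
    (h : ∀ j, j + 1 < m → (M ^ j * Y).trace = 0) :
    ∃ T : PowerSeries R, (PowerSeries.X * PowerSeries.mk fun j =>
      (-1) ^ j * (M ^ j * Y).trace) = PowerSeries.X ^ m * T ∧
      PowerSeries.coeff 0 T = (-1) ^ (m - 1) * (M ^ (m - 1) * Y).trace := by
  refine ⟨PowerSeries.mk fun j => (-1) ^ (m - 1 + j) * (M ^ (m - 1 + j) * Y).trace, ?_, ?_⟩
  · obtain ⟨m, rfl⟩ : ∃ m', m = m' + 1 := ⟨m - 1, by omega⟩
    rw [pow_succ', mul_assoc]
    congr 1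
    ext k
    rw [PowerSeries.coeff_mk, PowerSeries.coeff_X_pow_mul', Nat.add_sub_cancel]
    by_cases hk : m ≤ k
    · rw [if_pos hk, PowerSeries.coeff_mk, Nat.add_sub_cancel' hk]
    · rw [if_neg hk, h k (by omega), mul_zero]
  · rw [PowerSeries.coeff_mk, add_zero]

theorem ek_deriv_lt {M Y : Matrix n n R} {m k : ℕ}
    (h : ∀ j, j + 1 < m → (M ^ j * Y).trace = 0) (hk : k < m) :
    (ek k (lineM M Y)).coeff 1 = 0 := by
  obtain ⟨T, hT, _⟩ := EkDer_X_pow (by omega) h
  rw [EkDer_main, hT, mul_left_comm, PowerSeries.coeff_X_pow_mul', if_neg (by omega)]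

theorem ek_deriv_eq {M Y : Matrix n n R} {m : ℕ} (hm : 1 ≤ m)
    (h : ∀ j, j + 1 < m → (M ^ j * Y).trace = 0) :
    (ek m (lineM M Y)).coeff 1 = (-1) ^ (m - 1) * (M ^ (m - 1) * Y).trace := by
  obtain ⟨T, hT, hT0⟩ := EkDer_X_pow hm h
  rw [EkDer_main, hT, mul_left_comm, PowerSeries.coeff_X_pow_mul', if_pos le_rfl, Nat.sub_self,
    PowerSeries.coeff_zero_eq_constantCoeff_apply, map_mul,
    ← PowerSeries.coeff_zero_eq_constantCoeff_apply, ← PowerSeries.coeff_zero_eq_constantCoeff_apply,
    coeff_coe, EkDer_gd_zero, one_mul, hT0]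

/-- the derivative of the square root of a sequence: if the coefficients of `t` of the `c j`
vanish for `j < m` then they vanish for `sqr K c k`, `k < m` -/
theorem sqr_deriv_lt {K : Type*} [Field K] [Algebra K R] (c : ℕ → R[X]) {m k : ℕ}
    (h : ∀ j, j < m → (c j).coeff 1 = 0) (hk : k < m) :
    (sqr K c k).coeff 1 = 0 := by
  induction k using Nat.strong_induction_on with
  | _ k ih =>
    rcases k with _ | k
    · rw [sqr, coeff_one]
      simp
    · rw [sqr, coeff_smul, coeff_sub, h _ hk, finsetSum_coeff, Finset.sum_eq_zero, sub_zero,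
        smul_zero]
      intro i _
      have hi := i.2
      rw [mul_coeff_one, ih (i + 1) (by omega) (by omega), ih (k - i) (by omega) (by omega),
        mul_zero, zero_mul, add_zero]

/-- ... and for `k = m` the coefficient of `t` is one half of that of `c m`.  (In the recursion for
`sqr K c m` the products `sqr c (i+1) * sqr c (m-1-i)` have both indices in `1, ..., m - 1`.) -/
theorem sqr_deriv_eq {K : Type*} [Field K] [Algebra K R] (c : ℕ → R[X]) {m : ℕ} (hm : 1 ≤ m)
    (h : ∀ j, j < m → (c j).coeff 1 = 0) :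
    (sqr K c m).coeff 1 = (2 : K)⁻¹ • (c m).coeff 1 := by
  obtain ⟨m, rfl⟩ : ∃ m', m = m' + 1 := ⟨m - 1, by omega⟩
  rw [sqr, coeff_smul, coeff_sub, finsetSum_coeff, Finset.sum_eq_zero, sub_zero]
  intro i _
  have hi := i.2
  rw [mul_coeff_one, sqr_deriv_lt c h (k := i + 1) (by omega),
    sqr_deriv_lt c h (k := m - i) (by omega), mul_zero, zero_mul, add_zero]

theorem phi_deriv_lt {K : Type*} [Field K] [Algebra K R] (c : Bool) {M Y : Matrix n n R}
    {m k : ℕ} (h : ∀ j, j + 1 < m → (M ^ j * Y).trace = 0) (hk : k < m) :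
    (phi K c k (lineM M Y)).coeff 1 = 0 := by
  cases c
  · simpa [phi] using ek_deriv_lt h hk
  · simpa [phi] using sqr_deriv_lt (K := K) (fun j => ek j (lineM M Y))
      (fun j hj => ek_deriv_lt h hj) hk

/-- for `k = m` the derivative is a nonzero scalar multiple of the trace of `M ^ (m - 1) Y` -/
theorem phi_deriv_eq {K : Type*} [Field K] [CharZero K] [Algebra K R] (c : Bool) {m : ℕ}
    (hm : 1 ≤ m) : ∃ r : K, r ≠ 0 ∧ ∀ M Y : Matrix n n R,
      (∀ j, j + 1 < m → (M ^ j * Y).trace = 0) →
      (phi K c m (lineM M Y)).coeff 1 = r • (M ^ (m - 1) * Y).trace := by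
  cases c
  · refine ⟨(-1) ^ (m - 1), pow_ne_zero _ (neg_ne_zero.2 one_ne_zero), ?_⟩
    intro M Y h
    have h1 := ek_deriv_eq hm h
    rw [Algebra.smul_def, map_pow, map_neg, map_one]
    simpa [phi] using h1
  · refine ⟨(2 : K)⁻¹ * (-1) ^ (m - 1),
      mul_ne_zero (inv_ne_zero two_ne_zero) (pow_ne_zero _ (neg_ne_zero.2 one_ne_zero)), ?_⟩
    intro M Y h
    have h1 := sqr_deriv_eq (K := K) (fun j => ek j (lineM M Y)) hm
      (fun j hj => ek_deriv_lt h hj)
    rw [ek_deriv_eq hm h] at h1
    rw [mul_smul, Algebra.smul_def ((-1 : K) ^ (m - 1)), map_pow, map_neg, map_one]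
    simpa [phi] using h1

end Pool.Agent.helper49.QA
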