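import Mathlib
import Pool.Agent.helper49.QA.Datum
import Pool.Agent.helper49.QA.EkDer
import Pool.Agent.helper49.QA.Contract

/-!
# Matrix realisations and the generators of the Poisson centre of a contraction
-/

set_option autoImplicit false

namespace Pool.Agent.helper49.QA

open Polynomial Pool.Agent.helper5.AS
open Pool.Agent.helper5.ASQ (Invol even oddc brk IsContraction)

/-- a matrix realisation of a Lie algebra with an involution: a faithful representation `ρ` such
that the trace form is invariant under `θ`, and the orthogonal projection `Y` of the matrices to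
the Lie algebra -/
structure Rz (K : Type*) [Field K] (n : Type*) [Fintype n] [DecidableEq n] {g : Type*}
    [LieRing g] [LieAlgebra K g] (θ : Invol K g) where
  /-- the representation -/
  ρ : g →ₗ[K] Matrix n n K
  /-- the projection -/
  Y : Matrix n n K →ₗ[K] g
  lie : IsLieMap ρ
  inj : Function.Injective ρ
  pair : ∀ (x : g) (a : Matrix n n K), (ρ x * ρ (Y a)).trace = (ρ x * a).trace
  equi : ∀ (x : g) (a : Matrix n n K), ⁅x, Y a⁆ = Y (ρ x * a - a * ρ x)
  inv : ∀ x y : g, (ρ (θ.hom x) * ρ (θ.hom y)).trace = (ρ x * ρ y).trace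

variable {K : Type*} [Field K] {n : Type*} [Fintype n] [DecidableEq n] {g : Type*}
  [LieRing g] [LieAlgebra K g] {θ : Invol K g} (r : Rz K n θ)

/-- the universal matrix with entries in `g` -/
def Rz.E (i j : n) : g := r.Y (Matrix.single j i 1)

/-- the universal matrix with entries in `S(g)` -/
noncomputable def Rz.XM : Matrix n n (Sy K g) := fun i j => ιS K g (r.E i j)

/-- the invariant `phi c m` of the universal matrix -/
noncomputable def Rz.H (c : Bool) (m : ℕ) : Sy K g := phi K c m r.XM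

/-- the linear function defined by `a ∈ g` -/
noncomputable def Rz.τ (a : g) : g →ₗ[K] K :=
  Matrix.traceLinearMap n K K ∘ₗ LinearMap.mulLeft K (r.ρ a) ∘ₗ r.ρ

theorem Rz.τ_apply (a z : g) : r.τ a z = (r.ρ a * r.ρ z).trace := rfl

/-- the matrix `a_0 + X a_1` -/
noncomputable def Rz.M (a : g) : Matrix n n K[X] :=
  (r.ρ (even θ a)).map C + (X : K[X]) • (r.ρ (oddc θ a)).map C

section

variable {k : Type*} [LieRing k] [LieAlgebra K k] (e : g ≃ₗ[K] k)

/-- the leading part of the invariant `phi c m` -/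
noncomputable def Rz.gen (c : Bool) (m b : ℕ) : Sy K k :=
  smap (e : g →ₗ[K] k) ((scS θ (r.H c m)).coeff b)

/-- the point of `k^*` defined by `a ∈ g` -/
noncomputable def Rz.pnt (a : g) : k →ₗ[K] K := r.τ a ∘ₗ (e.symm : k →ₗ[K] g)

end

/-! ### auxiliary facts -/

theorem Real_trace_E (x : g) (i j : n) : (r.ρ x * r.ρ (r.E i j)).trace = r.ρ x i j := by
  rw [Rz.E, r.pair, Matrix.trace_mul_single]
  simp

theorem Real_nondeg {w : g} (h : ∀ x : g, (r.ρ x * r.ρ w).trace = 0) : w = 0 := by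
  apply r.inj
  rw [map_zero]
  rw [Matrix.ext_iff_trace_mul_right]
  intro a
  have h1 := h (r.Y a)
  rw [Matrix.trace_mul_comm, r.pair] at h1
  rw [h1, zero_mul, Matrix.trace_zero]

theorem Real_Yρ (z : g) : r.Y (r.ρ z) = z := by
  rw [← sub_eq_zero]
  refine Real_nondeg r fun x => ?_
  rw [map_sub, mul_sub, Matrix.trace_sub, r.pair, sub_self]

theorem Real_exists (φ : g →ₗ[K] K) : ∃ a : g, φ = r.τ a := by
  refine ⟨r.Y (Matrix.of fun i j => φ (r.E i j)), LinearMap.ext fun z => ?_⟩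
  rw [Rz.τ_apply, Matrix.trace_mul_comm, r.pair]
  conv_lhs => rw [← Real_Yρ r z, Matrix.matrix_eq_sum_single (r.ρ z)]
  rw [map_sum, map_sum, Matrix.trace]
  refine Finset.sum_congr rfl fun i _ => ?_
  rw [map_sum, map_sum, Matrix.diag_apply, Matrix.mul_apply]
  refine Finset.sum_congr rfl fun j _ => ?_
  have h1 : Matrix.single i j (r.ρ z i j) = r.ρ z i j • Matrix.single i j (1 : K) := by
    rw [Matrix.smul_single, smul_eq_mul, mul_one]
  rw [h1, map_smul, map_smul, smul_eq_mul]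
  rfl

theorem Real_τ_hom (a z : g) : r.τ a (θ.hom z) = r.τ (θ.hom a) z := by
  rw [Rz.τ_apply, Rz.τ_apply, ← r.inv (θ.hom a) z, θ.hom_hom]

theorem Real_τ_even (a z : g) : r.τ a (even θ z) = r.τ (even θ a) z := by
  have h1 : r.τ (even θ a) z = (2 : K)⁻¹ * (r.τ a z + r.τ (θ.hom a) z) := by
    rw [Rz.τ_apply, Rz.τ_apply, Rz.τ_apply, even, map_smul, map_add, smul_mul_assoc, add_mul,
      Matrix.trace_smul, Matrix.trace_add, smul_eq_mul]
  rw [h1, even, map_smul, map_add, Real_τ_hom, smul_eq_mul]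

theorem Real_τ_oddc (a z : g) : r.τ a (oddc θ z) = r.τ (oddc θ a) z := by
  have h1 : r.τ (oddc θ a) z = (2 : K)⁻¹ * (r.τ a z - r.τ (θ.hom a) z) := by
    rw [Rz.τ_apply, Rz.τ_apply, Rz.τ_apply, oddc, map_smul, map_sub, smul_mul_assoc, sub_mul,
      Matrix.trace_smul, Matrix.trace_sub, smul_eq_mul]
  rw [h1, oddc, map_smul, map_sub, Real_τ_hom, smul_eq_mul]

theorem Real_τE_even (a : g) (i j : n) : r.τ a (even θ (r.E i j)) = r.ρ (even θ a) i j := by
  rw [Real_τ_even, Rz.τ_apply, Real_trace_E]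

theorem Real_τE_oddc (a : g) (i j : n) : r.τ a (oddc θ (r.E i j)) = r.ρ (oddc θ a) i j := by
  rw [Real_τ_oddc, Rz.τ_apply, Real_trace_E]

theorem Real_bracket (z : g) (i j : n) : ιS K g ⁅z, r.E i j⁆ =
    (r.XM * (r.ρ z).map (algebraMap K (Sy K g)) -
      (r.ρ z).map (algebraMap K (Sy K g)) * r.XM) i j := by
  have h1 : r.ρ z * Matrix.single j i (1 : K) =
      ∑ a, r.ρ z a j • Matrix.single a i (1 : K) := by
    ext a b
    rw [Matrix.sum_apply]
    simp only [Matrix.smul_apply, Matrix.single_apply, Matrix.mul_apply, smul_eq_mul, mul_ite,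
      mul_one, mul_zero]
    by_cases hb : i = b
    · simp [hb]
    · simp [hb]
  have h2 : Matrix.single j i (1 : K) * r.ρ z =
      ∑ b, r.ρ z i b • Matrix.single j b (1 : K) := by
    ext a b
    rw [Matrix.sum_apply]
    simp only [Matrix.smul_apply, Matrix.single_apply, Matrix.mul_apply, smul_eq_mul, ite_mul,
      one_mul, zero_mul, mul_ite, mul_one, mul_zero]
    by_cases ha : j = a
    · simp [ha]
    · simp [ha]
  rw [Rz.E, r.equi, h1, h2, map_sub, map_sub, map_sum, map_sum, map_sum, map_sum,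
    Matrix.sub_apply, Matrix.mul_apply, Matrix.mul_apply]
  congr 1
  · refine Finset.sum_congr rfl fun a _ => ?_
    rw [map_smul, map_smul, Matrix.map_apply, mul_comm, ← Algebra.smul_def]
    rfl
  · refine Finset.sum_congr rfl fun a _ => ?_
    rw [map_smul, map_smul, Matrix.map_apply, ← Algebra.smul_def]
    rfl

/-- `adS z (XM i j) = (XM * ρ z - ρ z * XM) i j` (by `equi`), so `XM` is conjugated by
`1 + ρ z X` modulo `X ^ 2`: use the homomorphism `expand (ι ∘ ad z) : S(g) → S(g)[X]` modulo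
`X ^ 2`, which maps `XM` to `XM + X [XM, ρ z]`; `(1 - X ρ z) XM (1 + X ρ z)` is the same modulo
`X ^ 2`, and `(1 - X ρ z) (1 + X ρ z) = 1` modulo `X ^ 2`; hence `gd`, `ek` and `phi` of it are
constant modulo `X ^ 2`. -/
theorem Rz.H_centre [CharZero K] (c : Bool) (m : ℕ) : r.H c m ∈ centre K g := by
  intro z
  have h1 : r.XM.map (expand (ιS K g ∘ₗ (LieAlgebra.ad K g z : g →ₗ[K] g))) =
      lineM r.XM (r.XM * (r.ρ z).map (algebraMap K (Sy K g)) -
        (r.ρ z).map (algebraMap K (Sy K g)) * r.XM) := by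
    ext1 i j
    show expand (ιS K g ∘ₗ (LieAlgebra.ad K g z : g →ₗ[K] g)) (ιS K g (r.E i j)) =
      C (ιS K g (r.E i j)) + X * C ((r.XM * (r.ρ z).map (algebraMap K (Sy K g)) -
        (r.ρ z).map (algebraMap K (Sy K g)) * r.XM) i j)
    rw [expand_ι, ← Real_bracket r z i j, mul_comm X]
    rfl
  show (expand (ιS K g ∘ₗ (LieAlgebra.ad K g z : g →ₗ[K] g)) (phi K c m r.XM)).coeff 1 = 0
  rw [← phi_map, h1]
  refine phi_deriv_lt c (m := m + 1) (fun j _ => ?_) (Nat.lt_succ_self m)
  rw [mul_sub, Matrix.trace_sub, ← mul_assoc, ← mul_assoc, Matrix.trace_mul_comm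
    (r.XM ^ j * (r.ρ z).map (algebraMap K (Sy K g))) r.XM, ← mul_assoc, ← pow_succ, ← pow_succ',
    sub_self]

theorem Rz.H_mem (c : Bool) (m : ℕ) : r.H c m ∈ imS K g ^ m := by
  have h1 : r.XM.map (scal (𝕜 := K) (L := g)) =
      (X : (Sy K g)[X]) • r.XM.map (CAlgHom : Sy K g →ₐ[K] (Sy K g)[X]) := by
    ext1 i j
    show scal (𝕜 := K) (ιS K g (r.E i j)) = X * C (ιS K g (r.E i j))
    rw [scal_ι, mul_comm]
  have h2 : scal (𝕜 := K) (r.H c m) = X ^ m * C (r.H c m) := by
    show scal (𝕜 := K) (phi K c m r.XM) = X ^ m * C (phi K c m r.XM)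
    rw [← phi_map, h1, phi_smul, phi_map]
    rfl
  have h3 := comp_mem m (r.H c m)
  rw [comp_apply, h2, mul_comm, coeff_C_mul, coeff_X_pow, if_pos rfl, mul_one] at h3
  exact h3

/-- evaluation of the coefficients of a polynomial over `S(g)` at a point -/
theorem Real_eval (c : Bool) (m : ℕ) (a : g) :
    mapAlgHom (SymmetricAlgebra.lift (r.τ a) : Sy K g →ₐ[K] K) (scS θ (r.H c m)) =
      phi K c m (r.M a) := by
  have h1 : (r.XM.map (scS θ)).map (mapAlgHom (SymmetricAlgebra.lift (r.τ a) : Sy K g →ₐ[K] K)) =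
      r.M a := by
    ext1 i j
    show mapAlgHom (SymmetricAlgebra.lift (r.τ a) : Sy K g →ₐ[K] K) (scS θ (ιS K g (r.E i j))) =
      C (r.ρ (even θ a) i j) + X * C (r.ρ (oddc θ a) i j)
    rw [scS_ι, map_add, map_mul, coe_mapAlgHom, Polynomial.map_C, Polynomial.map_C,
      Polynomial.map_X]
    have h2 : ∀ z : g, (SymmetricAlgebra.lift (r.τ a) : Sy K g →ₐ[K] K) (ιS K g z) = r.τ a z :=
      fun z => SymmetricAlgebra.lift_ι_apply _ _
    rw [← Real_τE_even, ← Real_τE_oddc, ← h2, ← h2]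
    rfl
  rw [← h1, phi_map, phi_map]
  rfl

/-- the degree of `scS θ (H c m)` can be checked at the points: by `eq_zero_of_eval` for the
coefficients; every linear function on `g` is of the form `τ a` (the trace form is nondegenerate
on `g`: the linear function `φ` is `τ a` for `a = Y` of the matrix `φ (E i j)`...), and the
evaluation of `scS θ (XM)` at `τ a` is the matrix `r.M a`, because
`τ a (even (E i j)) = ρ (even a) i j` and `τ a (oddc (E i j)) = ρ (oddc a) i j`. -/
theorem Rz.degree_le [CharZero K] (c : Bool) (m b : ℕ)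
    (h : ∀ a : g, (phi K c m (r.M a)).natDegree ≤ b) :
    (scS θ (r.H c m)).natDegree ≤ b := by
  rw [natDegree_le_iff_coeff_eq_zero]
  intro j hj
  refine eq_zero_of_eval fun φ => ?_
  obtain ⟨a, rfl⟩ := Real_exists r φ
  rw [← coeff_mapAlgHom_apply, Real_eval]
  exact coeff_eq_zero_of_natDegree_lt ((h a).trans_lt hj)

theorem Real_swap_coeff (p : K[X][X]) (i j : ℕ) :
    ((Polynomial.Bivariate.swap p).coeff i).coeff j = (p.coeff j).coeff i := by
  induction p using Polynomial.induction_on' with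
  | add p q hp hq => rw [map_add, coeff_add, coeff_add, coeff_add, coeff_add, hp, hq]
  | monomial k f =>
    induction f using Polynomial.induction_on' with
    | add p q hp hq =>
      rw [map_add, map_add, coeff_add, coeff_add, coeff_add, coeff_add, hp, hq]
    | monomial l a =>
      rw [Polynomial.Bivariate.swap_monomial_monomial, coeff_monomial, coeff_monomial]
      by_cases h1 : l = i <;> by_cases h2 : k = j <;> simp [h1, h2, coeff_monomial]

theorem Real_ev2_smap {k : Type*} [LieRing k] [LieAlgebra K k] (e : g ≃ₗ[K] k) (a a' : g)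
    (F : Sy K g) : ev2 (r.pnt e a) (r.pnt e a') (smap (e : g →ₗ[K] k) F) =
      ev2 (r.τ a) (r.τ a') F := by
  have h : (ev2 (r.pnt e a) (r.pnt e a')).comp (smap (e : g →ₗ[K] k)) =
      ev2 (r.τ a) (r.τ a') := by
    refine SymmetricAlgebra.algHom_ext (LinearMap.ext fun z => ?_)
    show ev2 (r.pnt e a) (r.pnt e a') (smap (e : g →ₗ[K] k) (ιS K g z)) =
      ev2 (r.τ a) (r.τ a') (ιS K g z)
    rw [smap_ι, ev2_ι, ev2_ι]
    show C (r.τ a (e.symm (e z))) + C (r.τ a' (e.symm (e z))) * X = _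
    rw [e.symm_apply_apply]
  exact congrArg (fun G : Sy K g →ₐ[K] K[X] => G F) h

theorem Real_line (c : Bool) (m : ℕ) (a a' : g) :
    Polynomial.Bivariate.swap (mapAlgHom (ev2 (r.τ a) (r.τ a')) (scS θ (r.H c m))) =
      phi K c m (lineM (r.M a) (r.M a')) := by
  have h1 : ((r.XM.map (scS θ)).map (mapAlgHom (ev2 (r.τ a) (r.τ a')))).map
      (Polynomial.Bivariate.swap (R := K)).toAlgHom = lineM (r.M a) (r.M a') := by
    ext1 i j
    show Polynomial.Bivariate.swap (mapAlgHom (ev2 (r.τ a) (r.τ a'))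
      (scS θ (ιS K g (r.E i j)))) = C (r.M a i j) + X * C (r.M a' i j)
    have h3 : ∀ b : g, r.M b i j = C (r.ρ (even θ b) i j) + X * C (r.ρ (oddc θ b) i j) :=
      fun b => rfl
    rw [scS_ι, map_add, map_mul, coe_mapAlgHom, Polynomial.map_C, Polynomial.map_C,
      Polynomial.map_X]
    have h2 : ∀ z : g, ((ev2 (r.τ a) (r.τ a') : Sy K g →ₐ[K] K[X]) : Sy K g →+* K[X])
        (ιS K g z) = C (r.τ a z) + C (r.τ a' z) * X := fun z => ev2_ι _ _ z
    rw [h2, h2, h3, h3, ← Real_τE_even, ← Real_τE_oddc, ← Real_τE_even, ← Real_τE_oddc]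
    simp only [map_add, map_mul, Polynomial.Bivariate.swap_C_C, Polynomial.Bivariate.swap_X,
      Polynomial.Bivariate.swap_Y]
    ring
  rw [← h1, phi_map, phi_map, phi_map]
  rfl

/-- the derivative of `gen` at the point of `a` in the direction of `a'` -/
theorem Rz.dd_gen [CharZero K] {k : Type*} [LieRing k] [LieAlgebra K k] (e : g ≃ₗ[K] k)
    (c : Bool) (m b : ℕ) (a a' : g) :
    dd (r.pnt e a) (r.pnt e a') (r.gen e c m b) =
      ((phi K c m (lineM (r.M a) (r.M a'))).coeff 1).coeff b := by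
  rw [dd, Rz.gen, Real_ev2_smap, ← coeff_mapAlgHom_apply, ← Real_line, Real_swap_coeff]

theorem Rz.dd_gen_lt [CharZero K] {k : Type*} [LieRing k] [LieAlgebra K k] (e : g ≃ₗ[K] k)
    (c : Bool) {m m' : ℕ} (b : ℕ) {a a' : g}
    (h : ∀ j, j + 1 < m' → (r.M a ^ j * r.M a').trace = 0) (hm : m < m') :
    dd (r.pnt e a) (r.pnt e a') (r.gen e c m b) = 0 := by
  rw [Rz.dd_gen, phi_deriv_lt c h hm, coeff_zero]

theorem Rz.dd_gen_eq [CharZero K] {k : Type*} [LieRing k] [LieAlgebra K k] (e : g ≃ₗ[K] k)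
    (c : Bool) {m : ℕ} (hm : 1 ≤ m) (b : ℕ) : ∃ ρ : K, ρ ≠ 0 ∧ ∀ a a' : g,
      (∀ j, j + 1 < m → (r.M a ^ j * r.M a').trace = 0) →
      dd (r.pnt e a) (r.pnt e a') (r.gen e c m b) =
        ρ * ((r.M a ^ (m - 1) * r.M a').trace).coeff b := by
  obtain ⟨ρ, hρ, h⟩ := phi_deriv_eq (n := n) (R := K[X]) (K := K) c hm
  refine ⟨ρ, hρ, fun a a' h1 => ?_⟩
  rw [Rz.dd_gen, h _ _ h1, coeff_smul, smul_eq_mul]

/-- triangular criterion for linear independence -/
theorem linInd_tri {V ι : Type*} {l : ℕ} (f : Fin l → V → K) (y : Fin l → V)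
    (h0 : ∀ i j, i < j → f i (y j) = 0) (h1 : ∀ i, f i (y i) ≠ 0) :
    LinearIndependent K f := by
  have hA : (Matrix.of fun i j : Fin l => f i (y j)).det ≠ 0 := by
    rw [Matrix.det_of_isLowerTriangular]
    · exact Finset.prod_ne_zero_iff.2 fun i _ => h1 i
    · intro i j hij
      exact h0 i j hij
  have h2 := Matrix.linearIndependent_rows_of_det_ne_zero hA
  refine LinearIndependent.of_comp (LinearMap.funLeft K K y) ?_
  exact h2

/-- THE GENERIC FAMILY THEOREM: `gen` for the degrees `m 0 < m 1 < ...` -/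
theorem Rz.data [CharZero K] {k : Type*} [LieRing k] [LieAlgebra K k] {e : g ≃ₗ[K] k}
    (he : IsContraction θ e) {l : ℕ} (c : Fin l → Bool) (m b : Fin l → ℕ) (hm : StrictMono m)
    (hm1 : ∀ i, 1 ≤ m i)
    (hdeg : ∀ i, ∀ a : g, (phi K (c i) (m i) (r.M a)).natDegree ≤ b i) (p q : g)
    (htest : ∀ s t : K, ¬ (s = 0 ∧ t = 0) → ∀ i, ∃ a : g,
      (∀ j, j + 1 < m i → (r.M (s • p + t • q) ^ j * r.M a).trace = 0) ∧
      ((r.M (s • p + t • q) ^ (m i - 1) * r.M a).trace).coeff (b i) ≠ 0)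
    (x0 : k →ₗ[K] K) (hx0 : Module.finrank K (stab x0) ≤ l) :
    Data (fun i => r.gen e (c i) (m i) (b i)) m (r.pnt e p) (r.pnt e q) x0 := by
  refine ⟨hm1, fun i => smap_mem _ (coeff_scS_mem θ (r.H_mem (c i) (m i)) (b i)), fun i =>
    centre_contract θ he (r.H_centre (c i) (m i)) (r.degree_le (c i) (m i) (b i) (hdeg i)), ?_, ?_⟩
  · intro s t hst
    have hpq : s • r.pnt e p + t • r.pnt e q = r.pnt e (s • p + t • q) := by
      refine LinearMap.ext fun z => ?_
      show s • (r.ρ p * r.ρ (e.symm z)).trace + t • (r.ρ q * r.ρ (e.symm z)).trace =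
        (r.ρ (s • p + t • q) * r.ρ (e.symm z)).trace
      rw [map_add, map_smul, map_smul, add_mul, smul_mul_assoc, smul_mul_assoc,
        Matrix.trace_add, Matrix.trace_smul, Matrix.trace_smul]
    rw [hpq]
    choose a ha1 ha2 using htest s t hst
    refine linInd_tri (ι := Unit) _ (fun i => r.pnt e (a i)) ?_ ?_
    · intro i j hij
      exact r.dd_gen_lt e (c i) (b i) (ha1 j) (hm hij)
    · intro i
      obtain ⟨ρ, hρ, h⟩ := r.dd_gen_eq e (c i) (hm1 i) (b i)
      show dd (r.pnt e (s • p + t • q)) (r.pnt e (a i)) (r.gen e (c i) (m i) (b i)) ≠ 0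
      rw [h _ _ (ha1 i)]
      exact mul_ne_zero hρ (ha2 i)
  · rw [Fintype.card_fin]
    exact hx0

end Pool.Agent.helper49.QA
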