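import Mathlib
import Pool.Agent.helper49.QA.Real

/-!
# Conjugate realisations

A realisation can be conjugated by an invertible matrix; the generators `gen` do not change.
-/

set_option autoImplicit false

namespace Pool.Agent.helper49.QA

open Polynomial Pool.Agent.helper5.AS
open Pool.Agent.helper5.ASQ (Invol even oddc brk IsContraction)

variable {K : Type*} [Field K] {n : Type*} [Fintype n] [DecidableEq n] {g : Type*}
  [LieRing g] [LieAlgebra K g] {θ : Invol K g}
  {m : Type*} [Fintype m] [DecidableEq m]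

theorem Conj_cancel {R : Type*} [CommRing R] {P : Matrix m n R} {Q : Matrix n m R}
    (hQP : Q * P = 1) (A B : Matrix n n R) :
    (P * A * Q) * (P * B * Q) = P * (A * B) * Q := by
  calc (P * A * Q) * (P * B * Q) = P * A * (Q * P) * B * Q := by
        simp only [Matrix.mul_assoc]
    _ = P * (A * B) * Q := by rw [hQP, Matrix.mul_one, Matrix.mul_assoc P A B]

theorem Conj_trace {R : Type*} [CommRing R] {P : Matrix m n R} {Q : Matrix n m R}
    (hQP : Q * P = 1) (A : Matrix n n R) : (P * A * Q).trace = A.trace := by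
  rw [Matrix.trace_mul_comm, ← Matrix.mul_assoc, hQP, Matrix.one_mul]

/-- the conjugate realisation: `ρ' x = P (ρ x) Q`, `Y' a = Y (Q a P)`, where `Q = P⁻¹` -/
def Rz.conj (r : Rz K n θ) (P : Matrix m n K) (Q : Matrix n m K) (hPQ : P * Q = 1)
    (hQP : Q * P = 1) : Rz K m θ where
  ρ :=
    { toFun := fun x => P * r.ρ x * Q
      map_add' := fun x y => by rw [map_add, Matrix.mul_add, Matrix.add_mul]
      map_smul' := fun c x => by
        rw [map_smul, RingHom.id_apply, Matrix.mul_smul, Matrix.smul_mul] }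
  Y :=
    { toFun := fun a => r.Y (Q * a * P)
      map_add' := fun x y => by rw [Matrix.mul_add, Matrix.add_mul, map_add]
      map_smul' := fun c x => by
        rw [RingHom.id_apply, Matrix.mul_smul, Matrix.smul_mul, map_smul] }
  lie := by
    intro x y
    show P * r.ρ ⁅x, y⁆ * Q = P * r.ρ x * Q * (P * r.ρ y * Q) - P * r.ρ y * Q * (P * r.ρ x * Q)
    rw [Conj_cancel hQP, Conj_cancel hQP, r.lie, Matrix.mul_sub, Matrix.sub_mul]
  inj := by
    intro x y h
    have h1 : P * r.ρ x * Q = P * r.ρ y * Q := h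
    apply r.inj
    have h2 : ∀ z : g, Q * (P * r.ρ z * Q) * P = r.ρ z := by
      intro z
      calc Q * (P * r.ρ z * Q) * P = (Q * P) * r.ρ z * (Q * P) := by
            simp only [Matrix.mul_assoc]
        _ = r.ρ z := by rw [hQP, Matrix.one_mul, Matrix.mul_one]
    rw [← h2 x, ← h2 y, h1]
  pair := by
    intro x a
    show (P * r.ρ x * Q * (P * r.ρ (r.Y (Q * a * P)) * Q)).trace = (P * r.ρ x * Q * a).trace
    rw [Conj_cancel hQP, Conj_trace hQP, r.pair]
    calc (r.ρ x * (Q * a * P)).trace = ((r.ρ x * Q * a) * P).trace := by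
          simp only [Matrix.mul_assoc]
      _ = (P * (r.ρ x * Q * a)).trace := Matrix.trace_mul_comm _ _
      _ = (P * r.ρ x * Q * a).trace := by simp only [Matrix.mul_assoc]
  equi := by
    intro x a
    show ⁅x, r.Y (Q * a * P)⁆ = r.Y (Q * (P * r.ρ x * Q * a - a * (P * r.ρ x * Q)) * P)
    rw [r.equi]
    congr 1
    rw [Matrix.mul_sub, Matrix.sub_mul]
    congr 1
    · calc r.ρ x * (Q * a * P) = 1 * r.ρ x * (Q * a * P) := by rw [Matrix.one_mul]
        _ = (Q * P) * r.ρ x * (Q * a * P) := by rw [hQP]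
        _ = Q * (P * r.ρ x * Q * a) * P := by simp only [Matrix.mul_assoc]
    · calc Q * a * P * r.ρ x = Q * a * P * r.ρ x * 1 := by rw [Matrix.mul_one]
        _ = Q * a * P * r.ρ x * (Q * P) := by rw [hQP]
        _ = Q * (a * (P * r.ρ x * Q)) * P := by simp only [Matrix.mul_assoc]
  inv := by
    intro x y
    show (P * r.ρ (θ.hom x) * Q * (P * r.ρ (θ.hom y) * Q)).trace =
      (P * r.ρ x * Q * (P * r.ρ y * Q)).trace
    rw [Conj_cancel hQP, Conj_cancel hQP, Conj_trace hQP, Conj_trace hQP, r.inv]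

variable (r : Rz K n θ) (P : Matrix m n K) (Q : Matrix n m K) (hPQ : P * Q = 1) (hQP : Q * P = 1)

theorem Rz.conj_ρ (x : g) : (r.conj P Q hPQ hQP).ρ x = P * r.ρ x * Q := rfl

theorem Rz.conj_Y (a : Matrix m m K) : (r.conj P Q hPQ hQP).Y a = r.Y (Q * a * P) := rfl

theorem Rz.conj_τ (a : g) : (r.conj P Q hPQ hQP).τ a = r.τ a := by
  refine LinearMap.ext fun z => ?_
  show (P * r.ρ a * Q * (P * r.ρ z * Q)).trace = (r.ρ a * r.ρ z).trace
  rw [Conj_cancel hQP, Conj_trace hQP]

/-- the universal matrix is conjugated (over `K` one passes to the images of `P` and `Q`) -/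
theorem Rz.conj_XM : (r.conj P Q hPQ hQP).XM =
    P.map (algebraMap K (Sy K g)) * r.XM * Q.map (algebraMap K (Sy K g)) := by
  ext1 i j
  have h1 : Q * Matrix.single j i (1 : K) * P =
      ∑ l, ∑ k, (P i k * Q l j) • Matrix.single l k (1 : K) := by
    conv_lhs => rw [Matrix.matrix_eq_sum_single (Q * Matrix.single j i (1 : K) * P)]
    refine Finset.sum_congr rfl fun l _ => Finset.sum_congr rfl fun k _ => ?_
    rw [Matrix.smul_single, smul_eq_mul, mul_one]
    congr 1
    rw [Matrix.mul_apply, Finset.sum_eq_single i]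
    · rw [Matrix.mul_single_apply_same, mul_one, mul_comm]
    · intro b _ hb
      rw [Matrix.mul_single_apply_of_ne _ _ _ _ _ hb, zero_mul]
    · intro h
      exact absurd (Finset.mem_univ i) h
  show ιS K g (r.Y (Q * Matrix.single j i 1 * P)) =
    (P.map (algebraMap K (Sy K g)) * r.XM * Q.map (algebraMap K (Sy K g))) i j
  rw [h1, map_sum, map_sum, Matrix.mul_apply]
  refine Finset.sum_congr rfl fun l _ => ?_
  rw [map_sum, map_sum, Matrix.mul_apply, Finset.sum_mul]
  refine Finset.sum_congr rfl fun k _ => ?_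
  rw [map_smul, map_smul, Algebra.smul_def, map_mul, Matrix.map_apply, Matrix.map_apply]
  show _ = algebraMap K (Sy K g) (P i k) * ιS K g (r.Y (Matrix.single l k 1)) *
    algebraMap K (Sy K g) (Q l j)
  ring

/-- `phi` is invariant under a conjugation which changes the index type -/
theorem phi_conj' {R : Type*} [CommRing R] [Algebra K R] {P : Matrix m n R} {Q : Matrix n m R}
    (hPQ : P * Q = 1) (hQP : Q * P = 1) (c : Bool) (k : ℕ) (M : Matrix n n R) :
    phi K c k (P * M * Q) = phi K c k M := by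
  have hgd : gd (P * M * Q) = gd M := by
    have h1 : P.map (C : R →+* R[X]) * Q.map (C : R →+* R[X]) = 1 := by
      rw [← Matrix.map_mul, hPQ]
      exact Matrix.map_one _ (map_zero _) (map_one _)
    have h2 : Q.map (C : R →+* R[X]) * P.map (C : R →+* R[X]) = 1 := by
      rw [← Matrix.map_mul, hQP]
      exact Matrix.map_one _ (map_zero _) (map_one _)
    unfold gd
    rw [← Matrix.det_conj_of_mul_eq_one h1 h2 (N := 1 + (X : R[X]) • M.map C)]
    congr 1
    rw [Matrix.mul_add, Matrix.add_mul, Matrix.mul_one, h1, Matrix.mul_smul, Matrix.smul_mul,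
      Matrix.map_mul, Matrix.map_mul]
  have hek : ∀ j, ek j (P * M * Q) = ek j M := fun j => by rw [ek, ek, hgd]
  unfold phi
  simp only [hek]

theorem Rz.conj_H (c : Bool) (k : ℕ) : (r.conj P Q hPQ hQP).H c k = r.H c k := by
  have h1 : P.map (algebraMap K (Sy K g)) * Q.map (algebraMap K (Sy K g)) = 1 := by
    rw [← Matrix.map_mul, hPQ]
    exact Matrix.map_one _ (map_zero _) (map_one _)
  have h2 : Q.map (algebraMap K (Sy K g)) * P.map (algebraMap K (Sy K g)) = 1 := by
    rw [← Matrix.map_mul, hQP]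
    exact Matrix.map_one _ (map_zero _) (map_one _)
  rw [Rz.H, Rz.H, Rz.conj_XM, phi_conj' h1 h2]

theorem Rz.conj_gen {k : Type*} [LieRing k] [LieAlgebra K k] (e : g ≃ₗ[K] k) (c : Bool)
    (d b : ℕ) : (r.conj P Q hPQ hQP).gen e c d b = r.gen e c d b := by
  rw [Rz.gen, Rz.gen, Rz.conj_H]

theorem Rz.conj_pnt {k : Type*} [LieRing k] [LieAlgebra K k] (e : g ≃ₗ[K] k) (a : g) :
    (r.conj P Q hPQ hQP).pnt e a = r.pnt e a := by
  rw [Rz.pnt, Rz.pnt, Rz.conj_τ]

end Pool.Agent.helper49.QA
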