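import Mathlib
import Pool.Agent.helper49.QA.EkBasic
import Pool.Agent.helper90.MF.Fmt

/-!
# Degrees in `X` of the sums of principal minors of the matrices `A_0 + X A_1`

The involution is `A ↦ S A S⁻¹` with a diagonal `S` (given by the parity `par : n → Bool`, or by
`S = diag (i, -i, ...)`), then `A_0 + X A_1` is `Mp par A`; or `A ↦ -J⁻¹ Aᵀ J`, then
it is `Mo J A`.
-/

set_option autoImplicit false

namespace Pool.Agent.helper49.QA

open Polynomial
open Pool.Agent.helper90.MF (od)

variable {n : Type*} [Fintype n] [DecidableEq n] {R : Type*} [CommRing R]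

/-- the matrix `A_0 + X A_1` for the parity `par` -/
noncomputable def Mp (par : n → Bool) (A : Matrix n n R) : Matrix n n R[X] :=
  fun i j => (X : R[X]) ^ od par i j * C (A i j)

/-- the matrix `A_0 + X A_1` for the involution `A ↦ -J⁻¹ Aᵀ J`, where `J' = J⁻¹` -/
noncomputable def Mo (K : Type*) [Field K] [Algebra K R] (J J' A : Matrix n n R) :
    Matrix n n R[X] :=
  ((2 : K)⁻¹ • (A - J' * A.transpose * J)).map C +
    (X : R[X]) • ((2 : K)⁻¹ • (A + J' * A.transpose * J)).map C

/-- the number of the indices with `par i = true` -/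
def qn (par : n → Bool) : ℕ := (Finset.univ.filter fun i => par i = true).card

variable {K : Type*} [Field K]

/-- the degree of a determinant, by the degrees of the products -/
private theorem det_natDegree_le {ι : Type*} [Fintype ι] [DecidableEq ι] {S : Type*} [CommRing S]
    (M : Matrix ι ι S[X]) (d : ℕ)
    (h : ∀ σ : Equiv.Perm ι, ∑ i, (M (σ i) i).natDegree ≤ d) : M.det.natDegree ≤ d := by
  rw [Matrix.det_apply']
  refine natDegree_sum_le_of_forall_le _ _ fun σ _ => ?_
  refine natDegree_mul_le.trans ?_
  rw [natDegree_intCast, zero_add]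
  exact (natDegree_prod_le _ _).trans (h σ)

private theorem det_coeff_top {ι : Type*} [Fintype ι] [DecidableEq ι] {S : Type*} [CommRing S]
    (M : Matrix ι ι S[X]) (h : ∀ i j, (M i j).natDegree ≤ 1) :
    M.det.coeff (Fintype.card ι) = Matrix.det (Matrix.of fun i j => (M i j).coeff 1) := by
  rw [Matrix.det_apply', Matrix.det_apply', finsetSum_coeff]
  refine Finset.sum_congr rfl fun σ _ => ?_
  rw [coeff_intCast_mul]
  congr 1
  have h1 := coeff_prod_of_natDegree_le (s := (Finset.univ : Finset ι))
    (fun i => M (σ i) i) 1 (fun i _ => h (σ i) i)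
  rw [Finset.card_univ, mul_one] at h1
  exact h1

/-- the degree of `ek m M` is at most `m` if the entries have degree at most one (expand the
minors) -/
theorem ek_natDegree_le {M : Matrix n n K[X]} (h : ∀ i j, (M i j).natDegree ≤ 1) (m : ℕ) :
    (ek m M).natDegree ≤ m := by
  rw [ek_eq_sum]
  refine natDegree_sum_le_of_forall_le _ _ fun s hs => ?_
  refine det_natDegree_le _ _ fun σ => ?_
  calc ∑ i : s, (M.submatrix (Subtype.val : s → n) (Subtype.val : s → n) (σ i) i).natDegree
      ≤ ∑ _i : s, 1 := Finset.sum_le_sum fun i _ => h _ _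
    _ = m := by
      rw [Finset.sum_const, Finset.card_univ, Fintype.card_coe, (Finset.mem_powersetCard.1 hs).2,
        smul_eq_mul, mul_one]

/-- ... and the coefficient of `X ^ m` is `ek m` of the matrix of the coefficients of `X` -/
theorem ek_coeff_top {M : Matrix n n K[X]} (h : ∀ i j, (M i j).natDegree ≤ 1) (m : ℕ) :
    (ek m M).coeff m = ek m (fun i j => (M i j).coeff 1) := by
  show (ek m M).coeff m = ek m (Matrix.of fun i j => (M i j).coeff 1)
  rw [ek_eq_sum, ek_eq_sum, finsetSum_coeff]
  refine Finset.sum_congr rfl fun s hs => ?_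
  have h1 := det_coeff_top (M.submatrix (Subtype.val : s → n) (Subtype.val : s → n))
    (fun i j => h _ _)
  rw [Fintype.card_coe, (Finset.mem_powersetCard.1 hs).2] at h1
  exact h1

private theorem sqr_natDegree_le {c : ℕ → K[X]} (h : ∀ j, (c j).natDegree ≤ j) (k : ℕ) :
    (sqr K c k).natDegree ≤ k := by
  induction k using Nat.strong_induction_on with
  | _ k ih =>
    cases k with
    | zero => rw [sqr, natDegree_one]
    | succ k =>
      rw [sqr]
      refine (natDegree_smul_le _ _).trans ?_
      refine (natDegree_sub_le _ _).trans (max_le (h (k + 1)) ?_)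
      refine natDegree_sum_le_of_forall_le _ _ fun i _ => ?_
      have hi := i.isLt
      refine natDegree_mul_le.trans ?_
      have h1 := ih (i + 1) (by omega)
      have h2 := ih (k - i) (by omega)
      omega

private theorem sqr_coeff_top {c : ℕ → K[X]} (h : ∀ j, (c j).natDegree ≤ j) (k : ℕ) :
    (sqr K c k).coeff k = sqr K (fun j => (c j).coeff j) k := by
  induction k using Nat.strong_induction_on with
  | _ k ih =>
    cases k with
    | zero => rw [sqr, sqr, coeff_one_zero]
    | succ k =>
      rw [sqr, sqr, coeff_smul, coeff_sub, finsetSum_coeff]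
      congr 2
      refine Finset.sum_congr rfl fun i _ => ?_
      have hi := i.isLt
      have h1 := coeff_mul_add_eq_of_natDegree_le (sqr_natDegree_le h (i + 1))
        (sqr_natDegree_le h (k - i))
      rw [show (i : ℕ) + 1 + (k - i) = k + 1 by omega] at h1
      rw [h1, ih (i + 1) (by omega), ih (k - i) (by omega)]

theorem phi_natDegree_le {M : Matrix n n K[X]} (h : ∀ i j, (M i j).natDegree ≤ 1) (c : Bool)
    (m : ℕ) : (phi K c m M).natDegree ≤ m := by
  unfold phi
  cases c
  · rw [if_neg (by decide)]
    exact ek_natDegree_le h m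
  · rw [if_pos rfl]
    exact sqr_natDegree_le (fun j => ek_natDegree_le h j) m

theorem phi_coeff_top {M : Matrix n n K[X]} (h : ∀ i j, (M i j).natDegree ≤ 1) (c : Bool)
    (m : ℕ) : (phi K c m M).coeff m = phi K c m (fun i j => (M i j).coeff 1) := by
  unfold phi
  cases c
  · rw [if_neg (by decide), if_neg (by decide)]
    exact ek_coeff_top h m
  · rw [if_pos rfl, if_pos rfl, sqr_coeff_top (fun j => ek_natDegree_le h j) m]
    simp_rw [ek_coeff_top h]

omit [Fintype n] [DecidableEq n] in
private theorem Mp_natDegree' (par : n → Bool) (A : Matrix n n K) (i j : n) :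
    (Mp par A i j).natDegree ≤ od par i j := by
  unfold Mp
  refine natDegree_mul_le.trans ?_
  rw [natDegree_C, add_zero]
  exact natDegree_X_pow_le _

omit [Fintype n] [DecidableEq n] in
private theorem od_le (par : n → Bool) (i j : n) :
    od par i j ≤ (if par i = true then 1 else 0) + (if par j = true then 1 else 0) := by
  unfold od
  cases par i <;> cases par j <;> simp

theorem Mp_natDegree (par : n → Bool) (A : Matrix n n K) (i j : n) :
    (Mp par A i j).natDegree ≤ 1 := by
  refine (Mp_natDegree' par A i j).trans ?_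
  unfold od
  split_ifs <;> omega

/-- in a permutation of a subset there are at most `2 q` odd steps -/
theorem ek_Mp_natDegree_le (par : n → Bool) (A : Matrix n n K) (m : ℕ) :
    (ek m (Mp par A)).natDegree ≤ 2 * qn par := by
  rw [ek_eq_sum]
  refine natDegree_sum_le_of_forall_le _ _ fun s _ => ?_
  refine det_natDegree_le _ _ fun σ => ?_
  have h1 : ∑ i : s, (if par (i : n) = true then 1 else 0) ≤ qn par := by
    rw [qn, Finset.card_filter]
    rw [Finset.sum_coe_sort s (fun i => if par i = true then 1 else 0)]
    exact Finset.sum_le_sum_of_subset (Finset.subset_univ s)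
  have h2 : ∑ i : s, (if par ((σ i : s) : n) = true then 1 else 0) =
      ∑ i : s, (if par (i : n) = true then 1 else 0) :=
    Equiv.sum_comp σ (fun i : s => if par (i : n) = true then 1 else 0)
  calc ∑ i : s, ((Mp par A).submatrix (Subtype.val : s → n) (Subtype.val : s → n)
        (σ i) i).natDegree
      ≤ ∑ i : s, ((if par ((σ i : s) : n) = true then 1 else 0) +
          (if par (i : n) = true then 1 else 0)) :=
        Finset.sum_le_sum fun i _ => (Mp_natDegree' par A _ _).trans (od_le par _ _)
    _ ≤ 2 * qn par := by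
      rw [Finset.sum_add_distrib, h2]
      omega

/-- the substitution `X ↦ -X` -/
private noncomputable def ng (K : Type*) [Field K] : K[X] →ₐ[K] K[X] := aeval (-X)

private theorem ng_apply (P : K[X]) : ng K P = P.comp (-X) := rfl

private theorem ng_X : ng K X = -X := aeval_X _

private theorem ng_C (a : K) : ng K (C a) = C a := by
  rw [ng_apply, C_comp]

/-- parity, for a diagonal involution: `Mp par A (-X)` is the conjugate of `Mp par A` by the
diagonal matrix with entries `±1` -/
theorem phi_Mp_neg (par : n → Bool) (A : Matrix n n K) (c : Bool) (m : ℕ) :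
    (phi K c m (Mp par A)).comp (-X) = phi K c m (Mp par A) := by
  let D : Matrix n n K[X] := Matrix.diagonal fun i => if par i = true then (-1 : K[X]) else 1
  have hD : D * D = 1 := by
    rw [Matrix.diagonal_mul_diagonal, ← Matrix.diagonal_one]
    congr 1
    funext i
    split_ifs <;> ring
  have h : (Mp par A).map (ng K) = D * Mp par A * D := by
    ext1 i j
    rw [Matrix.map_apply, Matrix.mul_diagonal, Matrix.diagonal_mul]
    unfold Mp od
    rw [map_mul, map_pow, ng_X, ng_C]
    cases par i <;> cases par j <;> simp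
  rw [← ng_apply, ← phi_map, h, phi_conj hD]

private theorem coeff_comp_neg (P : K[X]) (i : ℕ) :
    (P.comp (-X)).coeff i = P.coeff i * (-1) ^ i := by
  have h : (-X : K[X]) = C (-1) * X := by
    rw [map_neg, map_one, neg_one_mul]
  rw [h, comp_C_mul_X_coeff]

theorem coeff_zero_of_even {P : K[X]} [CharZero K] (h : P.comp (-X) = P) {i : ℕ} (hi : Odd i) :
    P.coeff i = 0 := by
  have h1 := coeff_comp_neg P i
  rw [h, hi.neg_one_pow, mul_neg, mul_one] at h1
  exact self_eq_neg.1 h1

theorem coeff_zero_of_odd {P : K[X]} [CharZero K] (h : P.comp (-X) = -P) {i : ℕ} (hi : Even i) :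
    P.coeff i = 0 := by
  have h1 := coeff_comp_neg P i
  rw [h, hi.neg_one_pow, mul_one, coeff_neg] at h1
  exact self_eq_neg.1 h1.symm

/-- parity for the outer involution: `M (-X) = -J⁻¹ M(X)ᵀ J` -/
theorem phi_Mo_neg {J J' : Matrix n n K} {κ : K} (hκ : κ * κ = 1) (hJ : J.transpose = κ • J)
    (hJJ : J * J' = 1) (A : Matrix n n K) (c : Bool) (m : ℕ) :
    (phi K c m (Mo K J J' A)).comp (-X) = (-1) ^ m * phi K c m (Mo K J J' A) := by
  have hJJ' : J' * J = 1 := mul_eq_one_comm.1 hJJ
  have hJ' : J'.transpose = κ • J' := by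
    have h1 : J'.transpose * (κ • J) = 1 := by
      rw [← hJ, ← Matrix.transpose_mul, hJJ, Matrix.transpose_one]
    have h3 : (κ • J) * (κ • J') = 1 := by
      rw [Matrix.smul_mul, Matrix.mul_smul, hJJ, smul_smul, hκ, one_smul]
    calc J'.transpose = J'.transpose * ((κ • J) * (κ • J')) := by
          rw [h3, mul_one]
      _ = κ • J' := by rw [← mul_assoc, h1, one_mul]
  have hT : (J' * A.transpose * J).transpose = J * A * J' := by
    rw [Matrix.transpose_mul, Matrix.transpose_mul, Matrix.transpose_transpose, hJ, hJ',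
      Matrix.mul_smul, Matrix.smul_mul, Matrix.mul_smul, smul_smul, hκ, one_smul, mul_assoc]
  have hB : J' * (J * A * J') * J = A := by
    rw [← mul_assoc, ← mul_assoc, hJJ', one_mul, mul_assoc, hJJ', mul_one]
  set B := J' * A.transpose * J with hBdef
  have hN : ∀ N : Matrix n n K, (J'.map (C : K → K[X])) * N.map (C : K → K[X]) *
      (J.map (C : K → K[X])) = (J' * N * J).map (C : K → K[X]) := by
    intro N
    rw [Matrix.map_mul, Matrix.map_mul]
  have hB1 : J' * (A - B).transpose * J = B - A := by
    rw [Matrix.transpose_sub, Matrix.mul_sub, Matrix.sub_mul, hT, hB]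
  have hB2 : J' * (A + B).transpose * J = B + A := by
    rw [Matrix.transpose_add, Matrix.mul_add, Matrix.add_mul, hT, hB]
  have h : (Mo K J J' A).map (ng K) = (-1 : K[X]) • ((J'.map (C : K → K[X])) *
      (Mo K J J' A).transpose * (J.map (C : K → K[X]))) := by
    have e1 : (Mo K J J' A).transpose = (((2 : K)⁻¹ • (A - B)).transpose).map (C : K → K[X]) +
        (X : K[X]) • (((2 : K)⁻¹ • (A + B)).transpose).map (C : K → K[X]) := rfl
    rw [e1, Matrix.mul_add, Matrix.add_mul, Matrix.mul_smul, Matrix.smul_mul, hN, hN,
      Matrix.transpose_smul, Matrix.transpose_smul, Matrix.mul_smul, Matrix.smul_mul,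
      Matrix.mul_smul, Matrix.smul_mul, hB1, hB2]
    ext1 i j
    simp only [Mo, Matrix.map_apply, Matrix.add_apply, Matrix.smul_apply, Matrix.sub_apply,
      map_add, ← hBdef, smul_eq_mul, map_mul, ng_X, ng_C, map_sub]
    ring
  have hP : (J'.map (C : K → K[X])) * (J.map (C : K → K[X])) = 1 := by
    rw [← Matrix.map_mul, hJJ']
    exact Matrix.map_one (C : K → K[X]) C.map_zero C.map_one
  rw [← ng_apply, ← phi_map, h, phi_smul, phi_conj hP, phi_transpose]

/-- degree bounds with the top coefficient: if the degree of `P` is at most `d`, `P` has the parity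
of `d` and the coefficient of `X ^ d` is zero then the degree is at most `d - 2` -/
theorem natDegree_le_sub_two [CharZero K] {P : K[X]} {d : ℕ} (hd : P.natDegree ≤ d)
    (hp : P.comp (-X) = (-1) ^ d * P) (h0 : P.coeff d = 0) : P.natDegree ≤ d - 2 := by
  rw [natDegree_le_iff_coeff_eq_zero]
  intro N hN
  rcases lt_or_ge d N with h1 | h1
  · exact coeff_eq_zero_of_natDegree_lt (lt_of_le_of_lt hd h1)
  · rcases Nat.lt_or_ge N d with h2 | h2
    · obtain rfl : d = N + 1 := by omega
      have h3 := coeff_comp_neg P N
      have h4 : ((-1 : K[X]) ^ (N + 1) * P).coeff N = (-1) ^ (N + 1) * P.coeff N := by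
        have h5 : (-1 : K[X]) ^ (N + 1) = C ((-1) ^ (N + 1)) := by
          rw [map_pow, map_neg, map_one]
        rw [h5, coeff_C_mul]
      rw [hp, h4, pow_succ] at h3
      have h6 : (-1 : K) ^ N ≠ 0 := pow_ne_zero _ (neg_ne_zero.2 one_ne_zero)
      have h7 : P.coeff N = -P.coeff N := by
        apply mul_left_cancel₀ h6
        linear_combination -h3
      exact self_eq_neg.1 h7
    · obtain rfl : N = d := le_antisymm h1 h2
      exact h0

end Pool.Agent.helper49.QA
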