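import Mathlib
import Pool.Agent.helper49.QA.Conj
import Pool.Agent.helper49.QA.Degree

/-!
# Realisations of the types A and B, C, D

`IsA r`: the Lie algebra is realised by all the matrices with trace zero; `IsJ r J κ`: it is
realised by all the matrices which are skew for the form `J`, `Jᵀ = κ J`, `κ = ±1`.
-/

set_option autoImplicit false

namespace Pool.Agent.helper49.QA

open Polynomial Pool.Agent.helper5.AS
open Pool.Agent.helper5.ASQ (Invol even oddc brk IsContraction)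
open Pool.Agent.helper90.MF (od)

variable {K : Type*} [Field K] [CharZero K] {n : Type*} [Fintype n] [DecidableEq n] {g : Type*}
  [LieRing g] [LieAlgebra K g] {θ : Invol K g}
  {m : Type*} [Fintype m] [DecidableEq m]

/-- type A -/
def Rz.IsA (r : Rz K n θ) : Prop :=
  ∀ b, r.ρ (r.Y b) = b - (b.trace / (Fintype.card n : K)) • 1

/-- types B, C, D -/
structure Rz.IsJ (r : Rz K n θ) (J : Matrix n n K) (κ : K) : Prop where
  sign : κ = 1 ∨ κ = -1
  symm : J.transpose = κ • J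
  det : J.det ≠ 0
  proj : ∀ b, r.ρ (r.Y b) = (2 : K)⁻¹ • (b - J⁻¹ * b.transpose * J)

/-- the involution is the conjugation by `S` -/
def Rz.IsS (r : Rz K n θ) (S : Matrix n n K) : Prop :=
  ∀ x, r.ρ (θ.hom x) * S = S * r.ρ x

/-- the involution is `x ↦ -J⁻¹ xᵀ J` -/
def Rz.IsO (r : Rz K n θ) (J : Matrix n n K) : Prop :=
  ∀ x, r.ρ (θ.hom x) = -(J⁻¹ * (r.ρ x).transpose * J)

/-- the involution is given by a parity -/
def Rz.IsPar (r : Rz K n θ) (par : n → Bool) : Prop :=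
  ∀ x i j, r.ρ (θ.hom x) i j = (-1 : K) ^ od par i j * r.ρ x i j

variable {r : Rz K n θ}

theorem Rz.Y_ρ (r : Rz K n θ) (x : g) : r.Y (r.ρ x) = x := Real_Yρ r x

theorem Rz.IsA.trace_zero (h : r.IsA) (x : g) : (r.ρ x).trace = 0 := by
  rcases isEmpty_or_nonempty n with hn | hn
  · exact Finset.sum_of_isEmpty _
  · have h1 := h (r.ρ x)
    rw [Rz.Y_ρ] at h1
    have h2 := congrArg Matrix.trace h1
    rw [Matrix.trace_sub, Matrix.trace_smul, Matrix.trace_one, smul_eq_mul,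
      div_mul_cancel₀ _ (Nat.cast_ne_zero.2 Fintype.card_ne_zero), sub_self] at h2
    exact h2

theorem Rz.IsA.surj (h : r.IsA) {A : Matrix n n K} (hA : A.trace = 0) : ∃ x, r.ρ x = A :=
  ⟨r.Y A, by rw [h, hA, zero_div, zero_smul, sub_zero]⟩

theorem Rz.IsJ.skew {J : Matrix n n K} {κ : K} (h : r.IsJ J κ) (x : g) :
    (r.ρ x).transpose * J = -(J * r.ρ x) := by
  have h1 := h.proj (r.ρ x)
  rw [Rz.Y_ρ] at h1
  have h2 : r.ρ x = -(J⁻¹ * (r.ρ x).transpose * J) := by
    have h3 : (2 : K) • r.ρ x = r.ρ x - J⁻¹ * (r.ρ x).transpose * J := by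
      conv_lhs => rw [h1]
      rw [smul_smul, mul_inv_cancel₀ two_ne_zero, one_smul]
    rw [two_smul, sub_eq_add_neg] at h3
    exact add_left_cancel h3
  have h4 : J * r.ρ x = -((r.ρ x).transpose * J) := by
    conv_lhs => rw [h2]
    rw [Matrix.mul_neg, Matrix.mul_assoc, Matrix.mul_nonsing_inv_cancel_left _ _
      (isUnit_iff_ne_zero.2 h.det)]
  rw [h4, neg_neg]

theorem Rz.IsJ.surj {J : Matrix n n K} {κ : K} (h : r.IsJ J κ) {A : Matrix n n K}
    (hA : A.transpose * J = -(J * A)) : ∃ x, r.ρ x = A := by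
  refine ⟨r.Y A, ?_⟩
  rw [h.proj, Matrix.mul_assoc, hA, Matrix.mul_neg, Matrix.nonsing_inv_mul_cancel_left _ _
    (isUnit_iff_ne_zero.2 h.det), sub_neg_eq_add, ← two_smul K A, smul_smul,
    inv_mul_cancel₀ two_ne_zero, one_smul]

theorem JForm_even (r : Rz K n θ) (a : g) :
    r.ρ (even θ a) = (2 : K)⁻¹ • (r.ρ a + r.ρ (θ.hom a)) := by
  rw [even, map_smul, map_add]

theorem JForm_oddc (r : Rz K n θ) (a : g) :
    r.ρ (oddc θ a) = (2 : K)⁻¹ • (r.ρ a - r.ρ (θ.hom a)) := by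
  rw [oddc, map_smul, map_sub]

theorem Rz.IsPar.M_eq {par : n → Bool} (h : r.IsPar par) (a : g) : r.M a = Mp par (r.ρ a) := by
  ext1 i j
  have h1 : r.M a i j = C (r.ρ (even θ a) i j) + X * C (r.ρ (oddc θ a) i j) := rfl
  have h2 := h a i j
  have h3 : (2 : K) ≠ 0 := two_ne_zero
  rw [h1, JForm_even, JForm_oddc]
  simp only [Matrix.smul_apply, Matrix.add_apply, Matrix.sub_apply, smul_eq_mul, Mp]
  rw [h2]
  have ho : od par i j = 0 ∨ od par i j = 1 := by
    unfold od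
    split_ifs
    · exact Or.inl rfl
    · exact Or.inr rfl
  rcases ho with ho | ho
  · rw [ho, pow_zero, one_mul, sub_self, mul_zero, map_zero, mul_zero, add_zero, pow_zero,
      one_mul, ← two_mul, ← mul_assoc, inv_mul_cancel₀ h3, one_mul]
  · rw [ho, pow_one, pow_one, neg_one_mul, add_neg_cancel, mul_zero, map_zero, zero_add,
      sub_neg_eq_add, ← two_mul, ← mul_assoc, inv_mul_cancel₀ h3, one_mul]

theorem Rz.IsO.M_eq {J : Matrix n n K} (h : r.IsO J) (a : g) :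
    r.M a = Mo K J J⁻¹ (r.ρ a) := by
  rw [Rz.M, Mo, JForm_even, JForm_oddc, h a, ← sub_eq_add_neg, sub_neg_eq_add]

/-- a diagonal `S` gives a parity: `σ i = σ j` if `par i = par j` and `σ i = -σ j` otherwise -/
theorem Rz.IsS.isPar {σ : n → K} (h : r.IsS (Matrix.diagonal σ)) {par : n → Bool}
    (hσ : ∀ i, σ i ≠ 0) (hs : ∀ i j, σ i = (-1 : K) ^ od par i j * σ j) : r.IsPar par := by
  intro x i j
  have h1 := congrFun (congrFun (h x) i) j
  rw [Matrix.mul_diagonal, Matrix.diagonal_mul, hs i j] at h1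
  apply mul_right_cancel₀ (hσ j)
  rw [h1]
  ring

variable {P : Matrix m n K} {Q : Matrix n m K} (hPQ : P * Q = 1) (hQP : Q * P = 1)

theorem Rz.IsA.conj (h : r.IsA) : (r.conj P Q hPQ hQP).IsA := by
  intro b
  have hc : (Fintype.card n : K) = (Fintype.card m : K) := by
    rw [← Matrix.trace_one (n := n), ← Matrix.trace_one (n := m), ← hPQ, ← hQP,
      Matrix.trace_mul_comm]
  have ht : (Q * b * P).trace = b.trace := by
    rw [Matrix.trace_mul_comm, ← Matrix.mul_assoc, hPQ, Matrix.one_mul]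
  rw [Rz.conj_ρ, Rz.conj_Y, h, ht, hc, Matrix.mul_sub, Matrix.sub_mul, Matrix.mul_smul,
    Matrix.smul_mul, Matrix.mul_one, hPQ]
  congr 1
  calc P * (Q * b * P) * Q = (P * Q) * b * (P * Q) := by simp only [Matrix.mul_assoc]
    _ = b := by rw [hPQ, Matrix.one_mul, Matrix.mul_one]

omit [CharZero K] [Fintype n] in
theorem JForm_J {J : Matrix n n K} {J' : Matrix m m K} {P : Matrix m n K} {Q : Matrix n m K}
    [Fintype n] (hPQ : P * Q = 1) (hJ' : P.transpose * J' * P = J) :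
    J' = Q.transpose * J * Q := by
  rw [← hJ']
  calc J' = (P * Q).transpose * J' * (P * Q) := by
        rw [hPQ, Matrix.transpose_one, Matrix.one_mul, Matrix.mul_one]
    _ = _ := by
        rw [Matrix.transpose_mul]
        simp only [Matrix.mul_assoc]

omit [CharZero K] in
theorem JForm_J_mul {J : Matrix n n K} {J' : Matrix m m K} {P : Matrix m n K} {Q : Matrix n m K}
    (hPQ : P * Q = 1) (hQP : Q * P = 1) (hJ' : P.transpose * J' * P = J) (hdet : J.det ≠ 0) :
    J' * (P * J⁻¹ * P.transpose) = 1 := by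
  rw [JForm_J hPQ hJ']
  calc Q.transpose * J * Q * (P * J⁻¹ * P.transpose)
      = Q.transpose * (J * ((Q * P) * J⁻¹)) * P.transpose := by simp only [Matrix.mul_assoc]
    _ = 1 := by
      rw [hQP, Matrix.one_mul, Matrix.mul_nonsing_inv _ (isUnit_iff_ne_zero.2 hdet),
        Matrix.mul_one, ← Matrix.transpose_mul, hPQ, Matrix.transpose_one]

omit [CharZero K] in
theorem JForm_inv {J : Matrix n n K} {J' : Matrix m m K} {P : Matrix m n K} {Q : Matrix n m K}
    (hPQ : P * Q = 1) (hQP : Q * P = 1) (hJ' : P.transpose * J' * P = J) (hdet : J.det ≠ 0) :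
    J'⁻¹ = P * J⁻¹ * P.transpose :=
  Matrix.inv_eq_right_inv (JForm_J_mul hPQ hQP hJ' hdet)

omit [CharZero K] in
theorem JForm_conj {J : Matrix n n K} {J' : Matrix m m K} {P : Matrix m n K} {Q : Matrix n m K}
    (hPQ : P * Q = 1) (hQP : Q * P = 1) (hJ' : P.transpose * J' * P = J) (hdet : J.det ≠ 0)
    (A : Matrix n n K) :
    P * (J⁻¹ * A.transpose * J) * Q = J'⁻¹ * (P * A * Q).transpose * J' := by
  have h1 : P.transpose * Q.transpose = 1 := by
    rw [← Matrix.transpose_mul, hQP, Matrix.transpose_one]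
  rw [JForm_inv hPQ hQP hJ' hdet]
  conv_rhs => rw [JForm_J hPQ hJ', Matrix.transpose_mul, Matrix.transpose_mul]
  calc P * (J⁻¹ * A.transpose * J) * Q
      = P * J⁻¹ * (1 : Matrix n n K) * A.transpose * (1 : Matrix n n K) * J * Q := by
        simp only [Matrix.mul_assoc, Matrix.one_mul]
    _ = P * J⁻¹ * (P.transpose * Q.transpose) * A.transpose * (P.transpose * Q.transpose) *
          J * Q := by rw [h1]
    _ = _ := by simp only [Matrix.mul_assoc]

theorem Rz.IsJ.conj {J : Matrix n n K} {κ : K} (h : r.IsJ J κ) {J' : Matrix m m K}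
    (hJ' : P.transpose * J' * P = J) : (r.conj P Q hPQ hQP).IsJ J' κ where
  sign := h.sign
  symm := by
    rw [JForm_J hPQ hJ', Matrix.transpose_mul, Matrix.transpose_mul, Matrix.transpose_transpose,
      h.symm, Matrix.smul_mul, Matrix.mul_smul, Matrix.mul_assoc]
  det := Matrix.det_ne_zero_of_right_inverse (JForm_J_mul hPQ hQP hJ' h.det)
  proj := by
    intro b
    have h1 : P * (Q * b * P) * Q = b := by
      calc P * (Q * b * P) * Q = (P * Q) * b * (P * Q) := by simp only [Matrix.mul_assoc]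
        _ = b := by rw [hPQ, Matrix.one_mul, Matrix.mul_one]
    rw [Rz.conj_ρ, Rz.conj_Y, h.proj, Matrix.mul_smul, Matrix.smul_mul, Matrix.mul_sub,
      Matrix.sub_mul, JForm_conj hPQ hQP hJ' h.det, h1]

theorem Rz.IsS.conj {S : Matrix n n K} (h : r.IsS S) {S' : Matrix m m K}
    (hS : P * S * Q = S') : (r.conj P Q hPQ hQP).IsS S' := by
  intro x
  rw [Rz.conj_ρ, Rz.conj_ρ, ← hS, Conj_cancel hQP, Conj_cancel hQP, h]

theorem Rz.IsO.conj {J : Matrix n n K} (h : r.IsO J) (hdet : J.det ≠ 0) {J' : Matrix m m K}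
    (hJ' : P.transpose * J' * P = J) : (r.conj P Q hPQ hQP).IsO J' := by
  intro x
  rw [Rz.conj_ρ, Rz.conj_ρ, h, Matrix.mul_neg, Matrix.neg_mul, JForm_conj hPQ hQP hJ' hdet]

/-- the contraction has a faithful representation by matrices
(`isLieMap_con`, `con_injective` and `Matrix.compAlgEquiv`, reindexing) -/
theorem Rz.lin_con (r : Rz K n θ) {k : Type*} [LieRing k] [LieAlgebra K k] {e : g ≃ₗ[K] k}
    (he : IsContraction θ e) : Lin K k := by
  let f : Matrix (Fin 2) (Fin 2) (Matrix n n K) ≃ₐ[K]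
      Matrix (Fin (Fintype.card (Fin 2 × n))) (Fin (Fintype.card (Fin 2 × n))) K :=
    (Matrix.compAlgEquiv (Fin 2) n K K).trans
      (Matrix.reindexAlgEquiv K K (Fintype.equivFin (Fin 2 × n)))
  refine ⟨Fintype.card (Fin 2 × n), f.toLinearMap ∘ₗ (mu θ r.ρ 0 1 ∘ₗ (e.symm : k →ₗ[K] g)),
    ?_, ?_⟩
  · intro x y
    have h1 := isLieMap_con θ r.lie he x y
    show f ((mu θ r.ρ 0 1 ∘ₗ (e.symm : k →ₗ[K] g)) ⁅x, y⁆) =
      f ((mu θ r.ρ 0 1 ∘ₗ (e.symm : k →ₗ[K] g)) x) * f ((mu θ r.ρ 0 1 ∘ₗ (e.symm : k →ₗ[K] g)) y) -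
      f ((mu θ r.ρ 0 1 ∘ₗ (e.symm : k →ₗ[K] g)) y) * f ((mu θ r.ρ 0 1 ∘ₗ (e.symm : k →ₗ[K] g)) x)
    rw [h1, map_sub, map_mul, map_mul]
  · exact f.injective.comp (con_injective θ r.inj e)

/-- test elements for the degrees `m i` and the exponents `b i` along a pencil -/
def Rz.Tests (r : Rz K n θ) {l : ℕ} (m b : Fin l → ℕ) : Prop :=
  ∃ p q : g, ∀ s t : K, ¬ (s = 0 ∧ t = 0) → ∀ i, ∃ a : g,
    (∀ j, j + 1 < m i → (r.M (s • p + t • q) ^ j * r.M a).trace = 0) ∧
    ((r.M (s • p + t • q) ^ (m i - 1) * r.M a).trace).coeff (b i) ≠ 0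

/-- the assembly: `Rz.data` and `Rz.lin_con` -/
theorem Rz.quant_of (r : Rz K n θ) {k : Type*} [LieRing k] [LieAlgebra K k] {e : g ≃ₗ[K] k}
    (he : IsContraction θ e) {l : ℕ} (c : Fin l → Bool) (m b : Fin l → ℕ) (hm : StrictMono m)
    (hm1 : ∀ i, 1 ≤ m i) (hdeg : ∀ i, ∀ a : g, (phi K (c i) (m i) (r.M a)).natDegree ≤ b i)
    (htest : r.Tests m b) (x0 : k →ₗ[K] K) (hx0 : Module.finrank K (stab x0) ≤ l)
    (hcomm : ∀ ξ : k →ₗ[K] K, Comm (fun i => r.gen e (c i) (m i) (b i)) m ξ) : Quant K k := by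
  obtain ⟨p, q, h⟩ := htest
  exact ⟨r.lin_con he, l, fun i => r.gen e (c i) (m i) (b i), m, r.pnt e p, r.pnt e q, x0,
    r.data he c m b hm hm1 hdeg p q h x0 hx0, hcomm⟩

end Pool.Agent.helper49.QA
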