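import Mathlib

/-!
# Normal forms of bilinear forms and of isometric involutions, in matrix form

All the matrices are over an algebraically closed field of characteristic zero; `n`, `m` are two
index types of the same size.  In each theorem we find `P : Matrix m n K` with the inverse
`Q : Matrix n m K`.
-/

set_option autoImplicit false

namespace Pool.Agent.helper49.QA

section forms

variable {K : Type*} [Field K] {V : Type*} [AddCommGroup V] [Module K V]
  (B : V →ₗ[K] V →ₗ[K] K)

theorem LASkew_neg (hB : ∀ x, B x x = 0) (x y : V) : B x y = - B y x := by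
  have h := hB (x + y)
  simp only [map_add, LinearMap.add_apply, hB, zero_add, add_zero] at h
  rw [add_comm] at h
  exact eq_neg_of_add_eq_zero_left h

/-- the orthogonal complement of two vectors -/
def LASkew_W (u v : V) : Submodule K V := LinearMap.ker ((B.flip u).prod (B.flip v))

theorem LASkew_mem {u v x : V} : x ∈ LASkew_W B u v ↔ B x u = 0 ∧ B x v = 0 := by
  rw [LASkew_W, LinearMap.mem_ker]
  show (B x u, B x v) = (0 : K × K) ↔ _
  rw [Prod.mk_eq_zero]

/-- the projection to the orthogonal complement -/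
def LASkew_p (hB : ∀ x, B x x = 0) {u v : V} (huv : B u v = 1) : V →ₗ[K] LASkew_W B u v :=
  LinearMap.codRestrict (LASkew_W B u v)
    (LinearMap.id - (B.flip v).smulRight u + (B.flip u).smulRight v) (fun x => by
      rw [LASkew_mem]
      have h1 : B v u = -1 := by rw [LASkew_neg B hB, huv]
      show B (x - B x v • u + B x u • v) u = 0 ∧ B (x - B x v • u + B x u • v) v = 0
      simp only [map_add, map_sub, map_smul, LinearMap.add_apply, LinearMap.sub_apply,
        LinearMap.smul_apply, smul_eq_mul, hB, huv, h1]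
      constructor <;> ring)

theorem LASkew_nondeg (hB : ∀ x, B x x = 0) (hn : ∀ x, (∀ y, B x y = 0) → x = 0) {u v : V}
    (huv : B u v = 1) (x : LASkew_W B u v)
    (h : ∀ y : LASkew_W B u v, B.domRestrict₁₂ (LASkew_W B u v) (LASkew_W B u v) x y = 0) :
    x = 0 := by
  apply Subtype.ext
  refine hn _ fun y => ?_
  have h1 : B x (LASkew_p B hB huv y) = 0 := h (LASkew_p B hB huv y)
  have h2 := (LASkew_mem B).1 x.2
  have h3 : ((LASkew_p B hB huv y : LASkew_W B u v) : V) = y - B y v • u + B y u • v := rfl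
  rw [h3, map_add, map_sub, map_smul, map_smul, h2.1, h2.2, smul_zero, smul_zero, sub_zero,
    add_zero] at h1
  exact h1

theorem LASkew_pair [FiniteDimensional K V] (hB : ∀ x, B x x = 0)
    (hn : ∀ x, (∀ y, B x y = 0) → x = 0) (hpos : 0 < Module.finrank K V) :
    ∃ u v : V, B u v = 1 ∧ Module.finrank K (LASkew_W B u v) + 2 = Module.finrank K V := by
  have hnt : Nontrivial V := Module.finrank_pos_iff.1 hpos
  obtain ⟨u, hu⟩ := exists_ne (0 : V)
  obtain ⟨w, hw⟩ : ∃ w, B u w ≠ 0 := by
    by_contra hcon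
    push Not at hcon
    exact hu (hn u hcon)
  have huv : B u ((B u w)⁻¹ • w) = 1 := by
    rw [map_smul, smul_eq_mul, inv_mul_cancel₀ hw]
  refine ⟨u, (B u w)⁻¹ • w, huv, ?_⟩
  generalize (B u w)⁻¹ • w = v at huv
  have h1 : B v u = -1 := by rw [LASkew_neg B hB, huv]
  have hsurj : LinearMap.range ((B.flip u).prod (B.flip v)) = ⊤ := by
    rw [LinearMap.range_eq_top]
    rintro ⟨a, b⟩
    refine ⟨(-a) • v + b • u, ?_⟩
    show (B ((-a) • v + b • u) u, B ((-a) • v + b • u) v) = (a, b)
    rw [Prod.mk.injEq]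
    simp only [map_add, map_smul, LinearMap.add_apply,
      LinearMap.smul_apply, smul_eq_mul, hB, huv, h1]
    constructor <;> ring
  have h2 := LinearMap.finrank_range_add_finrank_ker ((B.flip u).prod (B.flip v))
  rw [hsurj, finrank_top, Module.finrank_prod, Module.finrank_self] at h2
  rw [LASkew_W]
  omega

end forms

/-- two alternating nondegenerate forms on spaces of the same dimension: there is an isometry -/
theorem LASkew_iso {K : Type*} [Field K] (N : ℕ) : ∀ {V : Type*} [AddCommGroup V] [Module K V]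
    {V' : Type*} [AddCommGroup V'] [Module K V'] [FiniteDimensional K V]
    [FiniteDimensional K V'] (B : V →ₗ[K] V →ₗ[K] K) (B' : V' →ₗ[K] V' →ₗ[K] K),
    (∀ x, B x x = 0) → (∀ x, B' x x = 0) → (∀ x, (∀ y, B x y = 0) → x = 0) →
    (∀ x, (∀ y, B' x y = 0) → x = 0) → Module.finrank K V = N → Module.finrank K V' = N →
    ∃ f : V →ₗ[K] V', ∀ x y, B' (f x) (f y) = B x y := by
  induction N using Nat.strong_induction_on with
  | _ N ih =>
  intro V _ _ V' _ _ _ _ B B' hB hB' hn hn' hN hN'
  rcases Nat.eq_zero_or_pos N with h0 | hpos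
  · have hs : Subsingleton V := Module.finrank_zero_iff.1 (hN.trans h0)
    refine ⟨0, fun x y => ?_⟩
    rw [Subsingleton.elim x 0]
    simp
  · obtain ⟨u, v, huv, hW⟩ := LASkew_pair B hB hn (hN ▸ hpos)
    obtain ⟨u', v', huv', hW'⟩ := LASkew_pair B' hB' hn' (hN' ▸ hpos)
    have hsk : ∀ x y, B x y = - B y x := LASkew_neg B hB
    have hsk' : ∀ x y, B' x y = - B' y x := LASkew_neg B' hB'
    obtain ⟨g, hg⟩ := ih (Module.finrank K (LASkew_W B u v)) (by omega)
      (B.domRestrict₁₂ (LASkew_W B u v) (LASkew_W B u v))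
      (B'.domRestrict₁₂ (LASkew_W B' u' v') (LASkew_W B' u' v'))
      (fun x => hB x) (fun x => hB' x)
      (LASkew_nondeg B hB hn huv) (LASkew_nondeg B' hB' hn' huv') rfl (by omega)
    refine ⟨(B.flip v).smulRight u' - (B.flip u).smulRight v' +
      (LASkew_W B' u' v').subtype ∘ₗ g ∘ₗ LASkew_p B hB huv, fun x y => ?_⟩
    have e1 : B x y = B x v * (- B y u) - (- B x u) * B y v +
        B (LASkew_p B hB huv x) (LASkew_p B hB huv y) := by
      have hx : ((LASkew_p B hB huv x : LASkew_W B u v) : V) = x - B x v • u + B x u • v := rfl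
      have hy : ((LASkew_p B hB huv y : LASkew_W B u v) : V) = y - B y v • u + B y u • v := rfl
      rw [hx, hy]
      simp only [map_add, map_sub, map_smul, LinearMap.add_apply, LinearMap.sub_apply,
        LinearMap.smul_apply, smul_eq_mul, hB, huv, hsk v u, hsk u y, hsk v y]
      ring
    have e2 : B' (g (LASkew_p B hB huv x)) (g (LASkew_p B hB huv y)) =
        B (LASkew_p B hB huv x) (LASkew_p B hB huv y) := hg _ _
    have m1 : ∀ w : LASkew_W B' u' v', B' w u' = 0 ∧ B' w v' = 0 := fun w =>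
      (LASkew_mem B').1 w.2
    have m2 : ∀ w : LASkew_W B' u' v', B' u' w = 0 ∧ B' v' w = 0 := fun w => by
      rw [hsk' u', hsk' v', (m1 w).1, (m1 w).2, neg_zero]
      exact ⟨rfl, rfl⟩
    rw [e1, ← e2]
    show B' (B x v • u' - B x u • v' + (g (LASkew_p B hB huv x) : LASkew_W B' u' v'))
      (B y v • u' - B y u • v' + (g (LASkew_p B hB huv y) : LASkew_W B' u' v')) = _
    simp only [map_add, map_sub, map_smul, LinearMap.add_apply, LinearMap.sub_apply,
      LinearMap.smul_apply, smul_eq_mul, hB', huv', hsk' v' u', (m1 _).1, (m1 _).2, (m2 _).1,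
      (m2 _).2]
    ring

variable {K : Type*} [Field K] [CharZero K]
  {n : Type*} [Fintype n] [DecidableEq n] {m : Type*} [Fintype m] [DecidableEq m]

theorem LASkew_alt {J : Matrix n n K} (hJ : J.transpose = -J) (x : n → K) :
    x ⬝ᵥ J.mulVec x = 0 := by
  have h1 : x ⬝ᵥ J.mulVec x = - (x ⬝ᵥ J.mulVec x) := by
    conv_lhs => rw [dotProduct_comm, ← Matrix.vecMul_transpose, ← Matrix.dotProduct_mulVec, hJ,
      Matrix.neg_mulVec, dotProduct_neg]
  have h2 : (2 : K) * (x ⬝ᵥ J.mulVec x) = 0 := by linear_combination h1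
  exact (mul_eq_zero.1 h2).resolve_left two_ne_zero

/-- two nondegenerate skew matrices of the same size are equivalent (over any field) -/
theorem exists_equiv_skew (hc : Fintype.card m = Fintype.card n)
    {J : Matrix n n K} {J' : Matrix m m K} (hJ : J.transpose = -J) (hJ' : J'.transpose = -J')
    (hd : J.det ≠ 0) (hd' : J'.det ≠ 0) :
    ∃ (P : Matrix m n K) (Q : Matrix n m K), P * Q = 1 ∧ Q * P = 1 ∧
      P.transpose * J' * P = J := by
  let B : (n → K) →ₗ[K] (n → K) →ₗ[K] K := Matrix.toLinearMap₂' K J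
  let B' : (m → K) →ₗ[K] (m → K) →ₗ[K] K := Matrix.toLinearMap₂' K J'
  have hBa : ∀ x y, B x y = x ⬝ᵥ J.mulVec y := fun x y => Matrix.toLinearMap₂'_apply' J x y
  have hBa' : ∀ x y, B' x y = x ⬝ᵥ J'.mulVec y := fun x y => Matrix.toLinearMap₂'_apply' J' x y
  obtain ⟨f, hf⟩ := LASkew_iso (Fintype.card n) B B' (fun x => by rw [hBa, LASkew_alt hJ])
    (fun x => by rw [hBa', LASkew_alt hJ'])
    (fun x h => (Matrix.nondegenerate_of_det_ne_zero hd).eq_zero_of_ortho
      fun w => by rw [← hBa]; exact h w)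
    (fun x h => (Matrix.nondegenerate_of_det_ne_zero hd').eq_zero_of_ortho
      fun w => by rw [← hBa']; exact h w)
    (Module.finrank_fintype_fun_eq_card K) ((Module.finrank_fintype_fun_eq_card K).trans hc)
  have hP : (LinearMap.toMatrix' f).transpose * J' * LinearMap.toMatrix' f = J := by
    ext i j
    have h1 := hf (Pi.single i 1) (Pi.single j 1)
    rw [hBa, hBa', ← LinearMap.toMatrix'_mulVec, ← LinearMap.toMatrix'_mulVec] at h1
    have h2 : (LinearMap.toMatrix' f).mulVec (Pi.single i 1) ⬝ᵥ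
        J'.mulVec ((LinearMap.toMatrix' f).mulVec (Pi.single j 1)) =
        (Pi.single i 1) ⬝ᵥ ((LinearMap.toMatrix' f).transpose * J' *
          LinearMap.toMatrix' f).mulVec (Pi.single j 1) := by
      rw [← Matrix.mulVec_mulVec, ← Matrix.mulVec_mulVec, Matrix.dotProduct_mulVec (Pi.single i 1),
        Matrix.vecMul_transpose]
    rw [h2] at h1
    simpa using h1
  have hQ : J⁻¹ * (LinearMap.toMatrix' f).transpose * J' * LinearMap.toMatrix' f = 1 := by
    rw [Matrix.mul_assoc, Matrix.mul_assoc, ← Matrix.mul_assoc _ J', hP,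
      Matrix.nonsing_inv_mul _ (isUnit_iff_ne_zero.2 hd)]
  refine ⟨LinearMap.toMatrix' f, J⁻¹ * (LinearMap.toMatrix' f).transpose * J', ?_, ?_, hP⟩
  · rw [Matrix.mul_eq_one_comm_of_equiv (Fintype.equivOfCardEq hc)]
    exact hQ
  · exact hQ

end Pool.Agent.helper49.QA
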