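import Mathlib
import Pool.Agent.helper49.QA.LASkew

/-!
# Pfaffians

`pfn e A` is a nonzero multiple of the Pfaffian of the skew matrix `A`: it is
`∑ sign σ * ∏_p A (σ (e (p, 0))) (σ (e (p, 1)))` over all the permutations `σ` of the
index set, where `e : P × Fin 2 ≃ n` is a division of the index set into pairs.
-/

set_option autoImplicit false

namespace Pool.Agent.helper49.QA

universe u

variable {P : Type} [Fintype P] [DecidableEq P] {n : Type*} [Fintype n] [DecidableEq n]
  (e : P × Fin 2 ≃ n) {R : Type*} [CommRing R]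

/-- a multiple of the Pfaffian -/
def pfn (A : Matrix n n R) : R :=
  ∑ σ : Equiv.Perm n, (Equiv.Perm.sign σ : ℤ) • ∏ p : P, A (σ (e (p, 0))) (σ (e (p, 1)))

theorem pfn_map {S : Type*} [CommRing S] (f : R →+* S) (A : Matrix n n R) :
    pfn e (A.map f) = f (pfn e A) := by
  rw [pfn, pfn, map_sum]
  refine Finset.sum_congr rfl fun σ _ => ?_
  rw [map_zsmul, map_prod]
  rfl

theorem pfn_smul (c : R) (A : Matrix n n R) :
    pfn e (c • A) = c ^ Fintype.card P * pfn e A := by
  rw [pfn, pfn, Finset.mul_sum]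
  refine Finset.sum_congr rfl fun σ _ => ?_
  rw [mul_smul_comm]
  congr 1
  simp only [Matrix.smul_apply, smul_eq_mul]
  rw [Finset.prod_mul_distrib, Finset.prod_const, Finset.card_univ]

/-- the division of the functions on the index set into pairs -/
def pf_arr : (n → n) ≃ (P → Fin 2 → n) :=
  (Equiv.arrowCongr e.symm (Equiv.refl n)).trans (Equiv.curry P (Fin 2) n)

theorem pf_arr_apply (f : n → n) (p : P) (t : Fin 2) : pf_arr e f p t = f (e (p, t)) := rfl

theorem pf_conj_entry (A B : Matrix n n R) (i j : n) :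
    (B.transpose * A * B) i j = ∑ q : Fin 2 → n, B (q 0) i * A (q 0) (q 1) * B (q 1) j := by
  have h : ∀ F : (Fin 2 → n) → R, ∑ q : Fin 2 → n, F q = ∑ k : n, ∑ l : n, F ![k, l] := by
    intro F
    rw [← (finTwoArrowEquiv n).symm.sum_comp, Fintype.sum_prod_type]
    rfl
  rw [h, Matrix.mul_apply, Finset.sum_comm]
  refine Finset.sum_congr rfl fun l _ => ?_
  rw [Matrix.mul_apply, Finset.sum_mul]
  refine Finset.sum_congr rfl fun k _ => ?_
  rw [Matrix.transpose_apply]
  rfl

theorem pf_prod_conj (A B : Matrix n n R) (σ : Equiv.Perm n) :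
    ∏ p : P, (B.transpose * A * B) (σ (e (p, 0))) (σ (e (p, 1))) =
      ∑ f : n → n, (∏ p : P, A (f (e (p, 0))) (f (e (p, 1)))) * ∏ i, B (f i) (σ i) := by
  simp only [pf_conj_entry]
  rw [Finset.prod_univ_sum, Fintype.piFinset_univ, ← (pf_arr e).sum_comp]
  refine Finset.sum_congr rfl fun f _ => ?_
  simp only [pf_arr_apply]
  rw [← e.prod_comp (fun i => B (f i) (σ i)), Fintype.prod_prod_type, ← Finset.prod_mul_distrib]
  refine Finset.prod_congr rfl fun p _ => ?_
  rw [Fin.prod_univ_two]
  ring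

theorem pf_inner (B : Matrix n n R) (f : n → n) :
    ∑ σ : Equiv.Perm n, (Equiv.Perm.sign σ : ℤ) • ∏ i, B (f i) (σ i) =
      (B.submatrix f id).det := by
  rw [← Matrix.det_transpose, Matrix.det_apply]
  refine Finset.sum_congr rfl fun σ _ => ?_
  rfl

/-- expand the products; the sum over all functions `f : n → n` instead of permutations
(as in `Matrix.det_mul`): `∑_σ sign σ ∏_i B (f i) (σ i) = det (B.submatrix f id)`, which is zero if
`f` is not injective and `sign f * det B` if `f` is a permutation -/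
theorem pfn_conj (A B : Matrix n n R) : pfn e (B.transpose * A * B) = B.det * pfn e A := by
  classical
  have h1 : pfn e (B.transpose * A * B) =
      ∑ f : n → n, (∏ p : P, A (f (e (p, 0))) (f (e (p, 1)))) * (B.submatrix f id).det := by
    rw [pfn]
    simp only [pf_prod_conj, Finset.smul_sum]
    rw [Finset.sum_comm]
    refine Finset.sum_congr rfl fun f _ => ?_
    rw [← pf_inner, Finset.mul_sum]
    refine Finset.sum_congr rfl fun σ _ => ?_
    rw [mul_smul_comm]
  rw [h1, pfn, Finset.mul_sum]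
  have h2 : ∑ f : n → n, (∏ p : P, A (f (e (p, 0))) (f (e (p, 1)))) * (B.submatrix f id).det =
      ∑ f : n → n with Function.Bijective f,
        (∏ p : P, A (f (e (p, 0))) (f (e (p, 1)))) * (B.submatrix f id).det := by
    refine (Finset.sum_subset (Finset.filter_subset _ _) fun f _ hbij => ?_).symm
    have hinj : ¬ Function.Injective f := by
      intro hf
      exact hbij (Finset.mem_filter.2 ⟨Finset.mem_univ _, Finite.injective_iff_bijective.1 hf⟩)
    rw [Function.Injective] at hinj
    push Not at hinj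
    obtain ⟨i, j, hij, hne⟩ := hinj
    rw [Matrix.det_zero_of_row_eq hne (by ext k; simp [hij]), mul_zero]
  rw [h2]
  refine Finset.sum_bij (fun f h => Equiv.ofBijective f (Finset.mem_filter.1 h).2)
    (fun _ _ => Finset.mem_univ _) (fun _ _ _ _ h => by injection h)
    (fun b _ => ⟨b, Finset.mem_filter.2 ⟨Finset.mem_univ _, b.bijective⟩,
      Equiv.coe_fn_injective rfl⟩) fun f hf => ?_
  have h3 : (B.submatrix f id).det =
      (Equiv.Perm.sign (Equiv.ofBijective f (Finset.mem_filter.1 hf).2) : ℤ) * B.det :=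
    Matrix.det_permute (Equiv.ofBijective f (Finset.mem_filter.1 hf).2) B
  rw [h3, zsmul_eq_mul]
  simp only [Equiv.ofBijective_apply]
  ring

/-- the standard skew matrix -/
def pf_J : Matrix n n R :=
  (Matrix.kroneckerMap (fun a b => a * b) (1 : Matrix P P R) !![0, 1; -1, 0]).submatrix
    e.symm e.symm

theorem pf_J_apply (x y : P × Fin 2) : (pf_J e : Matrix n n R) (e x) (e y) =
    (1 : Matrix P P R) x.1 y.1 * (!![0, 1; -1, 0] : Matrix (Fin 2) (Fin 2) R) x.2 y.2 := by
  rw [pf_J, Matrix.submatrix_apply, Equiv.symm_apply_apply, Equiv.symm_apply_apply]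
  rfl

theorem pf_J_det : (pf_J e : Matrix n n R).det = 1 := by
  rw [pf_J, Matrix.det_submatrix_equiv_self, Matrix.det_kronecker, Matrix.det_one, one_pow,
    one_mul, Matrix.det_fin_two_of]
  simp

theorem pf_J_skew : (pf_J e : Matrix n n R).transpose = -pf_J e := by
  ext i j
  obtain ⟨x, rfl⟩ := e.surjective i
  obtain ⟨y, rfl⟩ := e.surjective j
  rw [Matrix.transpose_apply, Matrix.neg_apply, pf_J_apply, pf_J_apply, ← mul_neg]
  have h1 : (1 : Matrix P P R) y.1 x.1 = (1 : Matrix P P R) x.1 y.1 := by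
    rw [Matrix.one_apply, Matrix.one_apply]
    simp only [eq_comm]
  rw [h1]
  congr 1
  obtain ⟨x1, x2⟩ := x
  obtain ⟨y1, y2⟩ := y
  fin_cases x2 <;> fin_cases y2 <;> simp

theorem pf_J_map {S : Type*} [CommRing S] (f : R →+* S) :
    (pf_J e : Matrix n n R).map f = pf_J e := by
  ext i j
  obtain ⟨x, rfl⟩ := e.surjective i
  obtain ⟨y, rfl⟩ := e.surjective j
  rw [Matrix.map_apply, pf_J_apply, pf_J_apply, map_mul]
  congr 1
  · rw [Matrix.one_apply, Matrix.one_apply]
    split_ifs
    · exact map_one f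
    · exact map_zero f
  · obtain ⟨x1, x2⟩ := x
    obtain ⟨y1, y2⟩ := y
    fin_cases x2 <;> fin_cases y2 <;> simp

/-- the terms of `pfn e J` are `0` or `1` -/
theorem pf_term (σ : Equiv.Perm n) : (Equiv.Perm.sign σ : ℤ) •
    ∏ p : P, (pf_J e : Matrix n n ℤ) (σ (e (p, 0))) (σ (e (p, 1))) = 0 ∨
    (Equiv.Perm.sign σ : ℤ) •
    ∏ p : P, (pf_J e : Matrix n n ℤ) (σ (e (p, 0))) (σ (e (p, 1))) = 1 := by
  by_cases h0 : ∏ p : P, (pf_J e : Matrix n n ℤ) (σ (e (p, 0))) (σ (e (p, 1))) = 0
  · left
    rw [h0, smul_zero]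
  right
  have hp : ∀ p : P, (pf_J e : Matrix n n ℤ) (σ (e (p, 0))) (σ (e (p, 1))) ≠ 0 := fun p hp =>
    h0 (Finset.prod_eq_zero (Finset.mem_univ p) hp)
  set τ : Equiv.Perm (P × Fin 2) := (e.trans σ).trans e.symm with hτ
  have hτe : ∀ x, σ (e x) = e (τ x) := fun x => by
    rw [hτ, Equiv.trans_apply, Equiv.trans_apply, Equiv.apply_symm_apply]
  have hsign : Equiv.Perm.sign τ = Equiv.Perm.sign σ := by
    have : τ = e.symm.permCongr σ := by
      ext1 x
      rfl
    rw [this, Equiv.Perm.sign_permCongr]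
  have hJ : ∀ p : P, (pf_J e : Matrix n n ℤ) (σ (e (p, 0))) (σ (e (p, 1))) =
      (1 : Matrix P P ℤ) (τ (p, 0)).1 (τ (p, 1)).1 *
        (!![0, 1; -1, 0] : Matrix (Fin 2) (Fin 2) ℤ) (τ (p, 0)).2 (τ (p, 1)).2 := fun p => by
    rw [hτe, hτe, pf_J_apply]
  have h1 : ∀ p : P, (τ (p, 1)).1 = (τ (p, 0)).1 := by
    intro p
    by_contra hne
    refine hp p ?_
    rw [hJ, Matrix.one_apply_ne (fun h => hne h.symm), zero_mul]
  have h2 : ∀ p : P, (τ (p, 0)).2 ≠ (τ (p, 1)).2 := by
    intro p heq
    have := (τ (p, 0)).2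
    have h3 : τ (p, 0) = τ (p, 1) := Prod.ext (h1 p).symm heq
    have h4 := τ.injective h3
    rw [Prod.mk.injEq] at h4
    exact absurd h4.2 (by decide)
  -- the flips
  set r : P → Equiv.Perm (Fin 2) := fun p =>
    if (τ (p, 0)).2 = 0 then 1 else Equiv.swap 0 1 with hr
  have hrt : ∀ (p : P) (t : Fin 2), (τ (p, t)).2 = r p t := by
    intro p t
    have h3 := h2 p
    rw [hr]
    dsimp only
    by_cases h4 : (τ (p, 0)).2 = 0
    · rw [if_pos h4]
      fin_cases t
      · exact h4
      · show (τ (p, 1)).2 = 1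
        rw [h4] at h3
        omega
    · rw [if_neg h4]
      have h5 : (τ (p, 0)).2 = 1 := by omega
      fin_cases t
      · show (τ (p, 0)).2 = Equiv.swap 0 1 0
        rw [Equiv.swap_apply_left]
        exact h5
      · show (τ (p, 1)).2 = Equiv.swap 0 1 1
        rw [Equiv.swap_apply_right]
        rw [h5] at h3
        omega
  have hqt : ∀ (p : P) (t : Fin 2), (τ (p, t)).1 = (τ (p, 0)).1 := by
    intro p t
    fin_cases t
    · rfl
    · exact h1 p
  have hqi : Function.Injective fun p => (τ (p, 0)).1 := by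
    intro p p' hpp
    dsimp only at hpp
    obtain ⟨t, ht⟩ := (r p').surjective (r p 0)
    have h3 : τ (p, 0) = τ (p', t) := by
      refine Prod.ext ?_ ?_
      · rw [hqt p' t]
        exact hpp
      · rw [hrt, hrt, ht]
    exact congrArg Prod.fst (τ.injective h3)
  set q : Equiv.Perm P := Equiv.ofBijective _ (Finite.injective_iff_bijective.1 hqi) with hq
  have hdec : τ = (Equiv.prodCongrRight r).trans (Equiv.prodCongrLeft fun _ => q) := by
    ext1 x
    obtain ⟨p, t⟩ := x
    refine Prod.ext ?_ ?_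
    · exact hqt p t
    · exact hrt p t
  have hs2 : Equiv.Perm.sign τ = ∏ p, Equiv.Perm.sign (r p) := by
    rw [hdec, Equiv.Perm.sign_trans, Equiv.Perm.sign_prodCongrRight,
      Equiv.Perm.sign_prodCongrLeft, Fin.prod_univ_two, Int.units_mul_self, one_mul]
  have hterm : ∀ p : P, (pf_J e : Matrix n n ℤ) (σ (e (p, 0))) (σ (e (p, 1))) =
      (Equiv.Perm.sign (r p) : ℤ) := by
    intro p
    rw [hJ, h1, Matrix.one_apply_eq, one_mul, hrt, hrt, hr]
    dsimp only
    split_ifs
    · simp
    · rw [Equiv.swap_apply_left, Equiv.swap_apply_right,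
        Equiv.Perm.sign_swap (by decide)]
      simp
  rw [← hsign, hs2, Finset.prod_congr rfl fun p _ => hterm p]
  rw [Units.coe_prod, smul_eq_mul, ← Finset.prod_mul_distrib]
  refine Finset.prod_eq_one fun p _ => ?_
  rw [← Units.val_mul, Int.units_mul_self, Units.val_one]

theorem pf_J_pos : (pfn e (pf_J e : Matrix n n ℤ)) ≠ 0 := by
  have h1 : ∀ σ : Equiv.Perm n, 0 ≤ (Equiv.Perm.sign σ : ℤ) •
      ∏ p : P, (pf_J e : Matrix n n ℤ) (σ (e (p, 0))) (σ (e (p, 1))) := by
    intro σ
    rcases pf_term e σ with h | h <;> rw [h]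
    exact zero_le_one
  have h2 : (Equiv.Perm.sign (1 : Equiv.Perm n) : ℤ) • ∏ p : P, (pf_J e : Matrix n n ℤ)
      ((1 : Equiv.Perm n) (e (p, 0))) ((1 : Equiv.Perm n) (e (p, 1))) = 1 := by
    rw [Equiv.Perm.sign_one, Units.val_one, one_smul]
    refine Finset.prod_eq_one fun p _ => ?_
    rw [Equiv.Perm.one_apply, Equiv.Perm.one_apply, pf_J_apply, Matrix.one_apply_eq]
    simp
  have h3 := Finset.single_le_sum (f := fun σ : Equiv.Perm n => (Equiv.Perm.sign σ : ℤ) •
      ∏ p : P, (pf_J e : Matrix n n ℤ) (σ (e (p, 0))) (σ (e (p, 1))))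
      (fun σ _ => h1 σ) (Finset.mem_univ (1 : Equiv.Perm n))
  rw [h2] at h3
  intro h4
  rw [pfn] at h4
  rw [h4] at h3
  omega

/-- a matrix with a zero row and the corresponding zero column -/
theorem pf_zero_row (C : Matrix n n R) (i : n) (hr : ∀ k, C i k = 0) (hc : ∀ k, C k i = 0) :
    pfn e C = 0 := by
  rw [pfn]
  refine Finset.sum_eq_zero fun σ _ => ?_
  obtain ⟨⟨p, t⟩, hpt⟩ := e.surjective (σ.symm i)
  have h1 : σ (e (p, t)) = i := by rw [hpt, Equiv.apply_symm_apply]
  rw [Finset.prod_eq_zero (Finset.mem_univ p), smul_zero]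
  fin_cases t
  · have h2 : σ (e (p, 0)) = i := h1
    rw [h2]
    exact hr _
  · have h2 : σ (e (p, 1)) = i := h1
    rw [h2]
    exact hc _

theorem pf_det_zero {F : Type*} [Field F] (A : Matrix n n F) (hA : A.transpose = -A)
    (hd : A.det = 0) : pfn e A = 0 := by
  obtain ⟨v, hv, hAv⟩ := Matrix.exists_mulVec_eq_zero_iff.2 hd
  obtain ⟨i, hi⟩ := Function.ne_iff.1 hv
  set B : Matrix n n F := (1 : Matrix n n F).updateCol i v with hB
  have hdB : B.det = v i := by
    rw [hB, ← Matrix.cramer_apply, Matrix.cramer_one]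
    rfl
  have hcol : ∀ k, (B.transpose * A * B) k i = 0 := by
    intro k
    have h1 : (B.transpose * A * B) k i = ((B.transpose * A).mulVec v) k := by
      rw [Matrix.mul_apply, Matrix.mulVec, dotProduct]
      refine Finset.sum_congr rfl fun l _ => ?_
      rw [hB, Matrix.updateCol_self]
    rw [h1, ← Matrix.mulVec_mulVec, hAv, Matrix.mulVec_zero]
    rfl
  have hrow : ∀ k, (B.transpose * A * B) i k = 0 := by
    intro k
    have h1 : (B.transpose * A * B).transpose = -(B.transpose * A * B) := by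
      rw [Matrix.transpose_mul, Matrix.transpose_mul, Matrix.transpose_transpose, hA,
        Matrix.neg_mul, Matrix.mul_neg, Matrix.mul_assoc]
    have h2 := congrFun (congrFun h1 k) i
    rw [Matrix.transpose_apply, Matrix.neg_apply, hcol, neg_zero] at h2
    exact h2
  have h3 := pf_zero_row e (B.transpose * A * B) i hrow hcol
  rw [pfn_conj, hdB] at h3
  exact (mul_eq_zero.1 h3).resolve_left hi

/-- the square of the Pfaffian is the determinant (up to the factor).

Proof.  Replace `R` by its fraction field `F`.  Let `J` be the standard skew matrix: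
`J (e (p, 0)) (e (p, 1)) = 1`, `J (e (p, 1)) (e (p, 0)) = -1`, all other entries zero; `det J = 1`.
`pfn e J` is a positive integer: the term of `σ` is `0` or `1` (it is nonzero only if `σ`
permutes the pairs, up to flips; the sign of the permutation of the pairs is `1` as both members
move, every flip gives the sign `-1` twice), and it is `1` for `σ = 1`; take
`N = (pfn e J) ^ 2`.  If `det A ≠ 0` then `A = Bᵀ J B` (all nondegenerate skew matrices are
equivalent) and `(pfn e A) ^ 2 = (det B) ^ 2 (pfn e J) ^ 2 = N det A`.  If `det A = 0`: there is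
`v ≠ 0` with `A v = 0` and an invertible `B` with `v` as one of its columns; `Bᵀ A B` has
a zero row and the corresponding zero column, so `pfn e (Bᵀ A B) = 0`, `pfn e A = 0`. -/
theorem pfn_sq : ∃ N : ℕ, N ≠ 0 ∧ ∀ (R : Type u) [CommRing R] [IsDomain R] [CharZero R]
    (A : Matrix n n R), A.transpose = -A → pfn e A ^ 2 = (N : R) * A.det := by
  refine ⟨((pfn e (pf_J e : Matrix n n ℤ)).natAbs) ^ 2, pow_ne_zero _
    (Int.natAbs_ne_zero.2 (pf_J_pos e)), ?_⟩
  intro R _ _ _ A hA
  let F := FractionRing R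
  have hinj : Function.Injective (algebraMap R F) := IsFractionRing.injective R F
  have : CharZero F := charZero_of_injective_algebraMap hinj
  apply hinj
  have hN : algebraMap R F ((((pfn e (pf_J e : Matrix n n ℤ)).natAbs ^ 2 : ℕ)) : R) =
      (pfn e (pf_J e : Matrix n n F)) ^ 2 := by
    have h1 : pfn e (pf_J e : Matrix n n F) = ((pfn e (pf_J e : Matrix n n ℤ) : ℤ) : F) := by
      rw [← pf_J_map e (Int.castRingHom F), pfn_map]
      rfl
    rw [map_natCast, h1]
    have h2 : (((pfn e (pf_J e : Matrix n n ℤ)).natAbs ^ 2 : ℕ) : ℤ) =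
        (pfn e (pf_J e : Matrix n n ℤ)) ^ 2 := by
      rw [Nat.cast_pow, Int.natCast_natAbs, sq_abs]
    have h3 := congrArg (fun z : ℤ => (z : F)) h2
    simp only [Int.cast_natCast, Int.cast_pow] at h3
    exact h3
  rw [map_pow, map_mul, hN, ← pfn_map, RingHom.map_det]
  have hmap : (algebraMap R F).mapMatrix A = A.map (algebraMap R F) := rfl
  rw [hmap]
  set A' := A.map (algebraMap R F) with hA'
  have hskew : A'.transpose = -A' := by
    rw [hA', ← Matrix.transpose_map, hA, Matrix.map_neg]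
    exact fun x => map_neg _ x
  by_cases hd : A'.det = 0
  · rw [hd, mul_zero, pf_det_zero e A' hskew hd, zero_pow two_ne_zero]
  · obtain ⟨P', Q', _, _, hP⟩ := exists_equiv_skew (K := F) (n := n) (m := n) rfl
      hskew (pf_J_skew e) hd (by rw [pf_J_det]; exact one_ne_zero)
    rw [← hP, pfn_conj, Matrix.det_mul, Matrix.det_mul, Matrix.det_transpose, pf_J_det]
    ring

/-- the determinant of a skew matrix of odd size is zero, so a nondegenerate one gives a
division into pairs -/
theorem exists_pairs {R : Type*} [CommRing R] [IsDomain R] [CharZero R] {A : Matrix n n R}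
    (hA : A.transpose = -A) (hdet : A.det ≠ 0) :
    ∃ m : ℕ, Nonempty (Fin m × Fin 2 ≃ n) := by
  have h1 : A.det = (-1) ^ Fintype.card n * A.det := by
    conv_lhs => rw [← Matrix.det_transpose, hA, Matrix.det_neg]
  rcases Nat.even_or_odd' (Fintype.card n) with ⟨m, hm | hm⟩
  · refine ⟨m, ⟨Fintype.equivOfCardEq ?_⟩⟩
    rw [Fintype.card_prod, Fintype.card_fin, Fintype.card_fin, hm, mul_comm]
  · exfalso
    rw [hm, pow_succ, pow_mul, neg_one_sq, one_pow, one_mul, neg_one_mul] at h1
    exact hdet (self_eq_neg.1 h1)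

end Pool.Agent.helper49.QA
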