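import Mathlib
import Pool.Agent.helper49.QA.JForm
import Pool.Agent.helper49.QA.Pf

/-!
# The Pfaffian of the universal matrix and the assembly for type D

`r.PF J pr` is the (unnormalised) Pfaffian of the skew matrix `J * XM`, where `XM` is the
universal matrix with entries in `S(g)`; `pr : Fin l × Fin 2 ≃ n` is a division into pairs.
-/

set_option autoImplicit false

namespace Pool.Agent.helper49.QA

universe u

open Polynomial Pool.Agent.helper5.AS
open Pool.Agent.helper5.ASQ (Invol even oddc brk IsContraction)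

variable {K : Type*} [Field K] [CharZero K] {n : Type*} [Fintype n] [DecidableEq n] {g : Type*}
  [LieRing g] [LieAlgebra K g] {θ : Invol K g} (r : Rz K n θ)
  {k : Type*} [LieRing k] [LieAlgebra K k]

/-- the Pfaffian invariant -/
noncomputable def Rz.PF {h : ℕ} (pr : Fin h × Fin 2 ≃ n) (J : Matrix n n K) : Sy K g :=
  pfn pr (J.map (algebraMap K (Sy K g)) * r.XM)

variable {h : ℕ} (pr : Fin h × Fin 2 ≃ n) {J : Matrix n n K}

theorem PfGen_map {S : Type*} [CommRing S] [Algebra K S] (J : Matrix n n K)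
    (f : Sy K g →ₐ[K] S) :
    pfn pr (J.map (algebraMap K S) * r.XM.map f) = f (r.PF pr J) := by
  have h1 : J.map (algebraMap K S) = (J.map (algebraMap K (Sy K g))).map (f : Sy K g →+* S) := by
    ext1 i j
    exact (f.commutes (J i j)).symm
  have h2 : r.XM.map f = r.XM.map (f : Sy K g →+* S) := rfl
  rw [h1, h2, ← Matrix.map_mul, pfn_map]
  rfl

theorem PfGen_algebraMap {S : Type*} [CommRing S] [Algebra K S] (J : Matrix n n K) :
    J.map (algebraMap K S[X]) = (J.map (algebraMap K S)).map (C : S →+* S[X]) := by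
  ext1 i j
  rfl

theorem Rz.PF_mem : r.PF pr J ∈ imS K g ^ h := by
  have h1 : r.XM.map (scal (𝕜 := K) (L := g)) =
      (X : (Sy K g)[X]) • r.XM.map (CAlgHom : Sy K g →ₐ[K] (Sy K g)[X]) := by
    ext1 i j
    show scal (𝕜 := K) (ιS K g (r.E i j)) = X * C (ιS K g (r.E i j))
    rw [scal_ι, mul_comm]
  have h2 : scal (𝕜 := K) (r.PF pr J) = X ^ h * C (r.PF pr J) := by
    rw [← PfGen_map, h1, Matrix.mul_smul, pfn_smul, PfGen_map, Fintype.card_fin]
    rfl
  have h3 := comp_mem h (r.PF pr J)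
  rw [comp_apply, h2, mul_comm, coeff_C_mul, coeff_X_pow, if_pos rfl, mul_one] at h3
  exact h3

/-- the coefficient of `X` of the Pfaffian depends only on the matrix modulo `X ^ 2` -/
theorem PfGen_congr {R : Type*} [CommRing R] {M M' : Matrix n n R[X]}
    (hM : ∀ i j, (X : R[X]) ^ 2 ∣ M i j - M' i j) :
    (pfn pr M).coeff 1 = (pfn pr M').coeff 1 := by
  let I : Ideal R[X] := Ideal.span {(X : R[X]) ^ 2}
  have h1 : M.map (Ideal.Quotient.mk I) = M'.map (Ideal.Quotient.mk I) := by
    ext1 i j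
    rw [Matrix.map_apply, Matrix.map_apply, Ideal.Quotient.eq, Ideal.mem_span_singleton]
    exact hM i j
  have h2 : Ideal.Quotient.mk I (pfn pr M) = Ideal.Quotient.mk I (pfn pr M') := by
    rw [← pfn_map, ← pfn_map, h1]
  rw [Ideal.Quotient.eq, Ideal.mem_span_singleton, X_pow_dvd_iff] at h2
  have h3 := h2 1 (by norm_num)
  rw [coeff_sub] at h3
  exact sub_eq_zero.1 h3

theorem PfGen_coeff {R : Type*} [CommRing R] (A B : Matrix n n R) :
    (pfn pr (lineM A (A * B + B.transpose * A))).coeff 1 = B.trace * pfn pr A := by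
  have h1 : (pfn pr ((1 + (X : R[X]) • B.map C).transpose * A.map (C : R →+* R[X]) *
      (1 + (X : R[X]) • B.map C))).coeff 1 = B.trace * pfn pr A := by
    rw [pfn_conj, pfn_map, coeff_mul_C, Matrix.coeff_det_one_add_X_smul_one]
  rw [← h1]
  apply PfGen_congr
  have h2 : (1 + (X : R[X]) • B.map C).transpose * A.map (C : R →+* R[X]) *
      (1 + (X : R[X]) • B.map C) = lineM A (A * B + B.transpose * A) +
        (X : R[X]) ^ 2 • (B.transpose * A * B).map (C : R →+* R[X]) := by
    have e1 : (B.map (C : R → R[X])).transpose = B.transpose.map (C : R →+* R[X]) := rfl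
    have e2 : (B.map (C : R → R[X])) = B.map (C : R →+* R[X]) := rfl
    have e3 : (A * B + B.transpose * A).map (C : R → R[X]) =
        (A * B).map (C : R →+* R[X]) + (B.transpose * A).map (C : R →+* R[X]) :=
      Matrix.map_add (C : R → R[X]) (fun a b => C_add) _ _
    rw [lineM, Matrix.transpose_add, Matrix.transpose_one, Matrix.transpose_smul, e1, e3,
      Matrix.map_mul, Matrix.map_mul, Matrix.map_mul, Matrix.map_mul, e2]
    rw [Matrix.add_mul, Matrix.one_mul, Matrix.mul_add, Matrix.mul_one, Matrix.smul_mul,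
      Matrix.mul_smul, Matrix.add_mul, Matrix.smul_mul, smul_add, smul_add, smul_smul, pow_two]
    abel
  intro i j
  rw [h2, Matrix.add_apply, Matrix.smul_apply, smul_eq_mul]
  refine Dvd.intro (-((B.transpose * A * B).map (C : R →+* R[X]) i j)) ?_
  ring

theorem PfGen_trace {κ : K} (hJ : r.IsJ J κ) (z : g) : (r.ρ z).trace = 0 := by
  have h1 := hJ.skew z
  have h2 : J * J⁻¹ = 1 := Matrix.mul_nonsing_inv _ (isUnit_iff_ne_zero.2 hJ.det)
  have h3 : J⁻¹ * J = 1 := Matrix.nonsing_inv_mul _ (isUnit_iff_ne_zero.2 hJ.det)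
  have h4 : ((r.ρ z).transpose * J * J⁻¹).trace = (r.ρ z).trace := by
    rw [Matrix.mul_assoc, h2, Matrix.mul_one, Matrix.trace_transpose]
  have h5 : ((r.ρ z).transpose * J * J⁻¹).trace = -(r.ρ z).trace := by
    rw [h1, Matrix.neg_mul, Matrix.trace_neg, Matrix.trace_mul_comm, ← Matrix.mul_assoc, h3,
      Matrix.one_mul]
  rw [h4] at h5
  exact self_eq_neg.1 h5

/-- as in `Rz.H_centre`: for `z ∈ g` the homomorphism `expand (ι ∘ ad z) : S(g) → S(g)[X]` maps `XM` to
`(1 - X ρ z) XM (1 + X ρ z)` modulo `X ^ 2`, and `J (1 - X ρ z) = (1 + X ρ z)ᵀ J` since `ρ z` is skew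
for `J`; so by `pfn_conj` the Pfaffian is multiplied by `det (1 + X ρ z) = 1 + X tr (ρ z) = 1` modulo
`X ^ 2` -/
theorem Rz.PF_centre {κ : K} (hJ : r.IsJ J κ) : r.PF pr J ∈ centre K g := by
  intro z
  set J' : Matrix n n (Sy K g) := J.map (algebraMap K (Sy K g)) with hJ'
  set B : Matrix n n (Sy K g) := (r.ρ z).map (algebraMap K (Sy K g)) with hB
  have h1 : r.XM.map (expand (ιS K g ∘ₗ (LieAlgebra.ad K g z : g →ₗ[K] g))) =
      lineM r.XM (r.XM * B - B * r.XM) := by
    ext1 i j
    show expand (ιS K g ∘ₗ (LieAlgebra.ad K g z : g →ₗ[K] g)) (ιS K g (r.E i j)) =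
      C (ιS K g (r.E i j)) + X * C ((r.XM * B - B * r.XM) i j)
    rw [expand_ι, hB, ← Real_bracket r z i j, mul_comm X]
    rfl
  have h2 : B.transpose * J' = -(J' * B) := by
    have e1 : B.transpose = (r.ρ z).transpose.map (algebraMap K (Sy K g)) := rfl
    rw [e1, hJ', hB, ← Matrix.map_mul, hJ.skew z, ← Matrix.map_mul, Matrix.map_neg]
    exact fun x => map_neg _ x
  have h3 : J' * (r.XM * B - B * r.XM) = (J' * r.XM) * B + B.transpose * (J' * r.XM) := by
    rw [Matrix.mul_sub, ← Matrix.mul_assoc, ← Matrix.mul_assoc, ← Matrix.mul_assoc, h2,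
      Matrix.neg_mul, sub_eq_add_neg]
  have h4 : J.map (algebraMap K (Sy K g)[X]) * lineM r.XM (r.XM * B - B * r.XM) =
      lineM (J' * r.XM) ((J' * r.XM) * B + B.transpose * (J' * r.XM)) := by
    rw [← h3, PfGen_algebraMap, ← hJ', lineM, lineM, Matrix.mul_add, Matrix.mul_smul]
    congr 1
    · exact (Matrix.map_mul (f := (C : Sy K g →+* (Sy K g)[X]))).symm
    · congr 1
      exact (Matrix.map_mul (f := (C : Sy K g →+* (Sy K g)[X]))).symm
  show (expand (ιS K g ∘ₗ (LieAlgebra.ad K g z : g →ₗ[K] g)) (r.PF pr J)).coeff 1 = 0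
  rw [← PfGen_map, h1, h4, PfGen_coeff]
  have h5 : B.trace = algebraMap K (Sy K g) (r.ρ z).trace := by
    rw [hB, Matrix.trace, Matrix.trace, map_sum]
    rfl
  rw [h5, PfGen_trace r hJ z, map_zero, zero_mul]

theorem PfGen_eval (J : Matrix n n K) (a : g) :
    mapAlgHom (SymmetricAlgebra.lift (r.τ a) : Sy K g →ₐ[K] K) (scS θ (r.PF pr J)) =
      pfn pr (J.map (C : K →+* K[X]) * r.M a) := by
  have h1 : r.XM.map ((mapAlgHom (SymmetricAlgebra.lift (r.τ a) : Sy K g →ₐ[K] K)).comp
      (scS θ)) = r.M a := by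
    ext1 i j
    show mapAlgHom (SymmetricAlgebra.lift (r.τ a) : Sy K g →ₐ[K] K) (scS θ (ιS K g (r.E i j))) =
      C (r.ρ (even θ a) i j) + X * C (r.ρ (oddc θ a) i j)
    rw [scS_ι, map_add, map_mul, coe_mapAlgHom, Polynomial.map_C, Polynomial.map_C,
      Polynomial.map_X]
    have h2 : ∀ z : g, (SymmetricAlgebra.lift (r.τ a) : Sy K g →ₐ[K] K) (ιS K g z) = r.τ a z :=
      fun z => SymmetricAlgebra.lift_ι_apply _ _
    rw [← Real_τE_even, ← Real_τE_oddc, ← h2, ← h2]
    rfl
  have h3 := PfGen_map r pr J ((mapAlgHom (SymmetricAlgebra.lift (r.τ a) : Sy K g →ₐ[K] K)).comp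
      (scS θ))
  rw [h1] at h3
  exact h3.symm

/-- the degree can be checked at the points, as in `Rz.degree_le` -/
theorem Rz.PF_degree_le (b : ℕ)
    (hb : ∀ a : g, (pfn pr (J.map (C : K →+* K[X]) * r.M a)).natDegree ≤ b) :
    (scS θ (r.PF pr J)).natDegree ≤ b := by
  rw [natDegree_le_iff_coeff_eq_zero]
  intro j hj
  refine eq_zero_of_eval fun φ => ?_
  obtain ⟨a, rfl⟩ := Real_exists r φ
  rw [← coeff_mapAlgHom_apply, PfGen_eval]
  exact coeff_eq_zero_of_natDegree_lt ((hb a).trans_lt hj)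

theorem PfGen_line (J : Matrix n n K) (a a' : g) :
    Polynomial.Bivariate.swap (mapAlgHom (ev2 (r.τ a) (r.τ a')) (scS θ (r.PF pr J))) =
      pfn pr (J.map ((C : K[X] →+* K[X][X]).comp (C : K →+* K[X])) *
        lineM (r.M a) (r.M a')) := by
  have h1 : r.XM.map (((Polynomial.Bivariate.swap (R := K)).toAlgHom).comp
      ((mapAlgHom (ev2 (r.τ a) (r.τ a'))).comp (scS θ))) = lineM (r.M a) (r.M a') := by
    ext1 i j
    show Polynomial.Bivariate.swap (mapAlgHom (ev2 (r.τ a) (r.τ a'))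
      (scS θ (ιS K g (r.E i j)))) = C (r.M a i j) + X * C (r.M a' i j)
    have h3 : ∀ b : g, r.M b i j = C (r.ρ (even θ b) i j) + X * C (r.ρ (oddc θ b) i j) :=
      fun b => rfl
    rw [scS_ι, map_add, map_mul, coe_mapAlgHom, Polynomial.map_C, Polynomial.map_C,
      Polynomial.map_X]
    have h2 : ∀ z : g, ((ev2 (r.τ a) (r.τ a') : Sy K g →ₐ[K] K[X]) : Sy K g →+* K[X])
        (ιS K g z) = C (r.τ a z) + C (r.τ a' z) * X := fun z => ev2_ι _ _ z
    rw [h2, h2, h3, h3, ← Real_τE_even, ← Real_τE_oddc, ← Real_τE_even, ← Real_τE_oddc]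
    simp only [map_add, map_mul, Polynomial.Bivariate.swap_C_C, Polynomial.Bivariate.swap_X,
      Polynomial.Bivariate.swap_Y]
    ring
  have h3 := PfGen_map r pr J (((Polynomial.Bivariate.swap (R := K)).toAlgHom).comp
      ((mapAlgHom (ev2 (r.τ a) (r.τ a'))).comp (scS θ)))
  rw [h1] at h3
  exact h3.symm

/-- the derivative, as in `Rz.dd_gen` -/
theorem Rz.dd_PF (e : g ≃ₗ[K] k) (b : ℕ) (a a' : g) :
    dd (r.pnt e a) (r.pnt e a') (smap (e : g →ₗ[K] k) ((scS θ (r.PF pr J)).coeff b)) =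
      ((pfn pr (J.map ((C : K[X] →+* K[X][X]).comp (C : K →+* K[X])) *
        lineM (r.M a) (r.M a'))).coeff 1).coeff b := by
  rw [dd, Real_ev2_smap, ← coeff_mapAlgHom_apply, ← PfGen_line, Real_swap_coeff]

/-- conjugation (by square matrices) multiplies the Pfaffian by a constant -/
theorem Rz.conj_PF {P Q : Matrix n n K} (hPQ : P * Q = 1) (hQP : Q * P = 1)
    {J' : Matrix n n K} (hJ' : P.transpose * J' * P = J) :
    (r.conj P Q hPQ hQP).PF pr J' = Q.det • r.PF pr J := by
  have h1 : J' * P = Q.transpose * J := by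
    rw [← hJ', ← Matrix.mul_assoc, ← Matrix.mul_assoc, ← Matrix.transpose_mul, hPQ,
      Matrix.transpose_one, Matrix.one_mul]
  have h2 : J'.map (algebraMap K (Sy K g)) * (P.map (algebraMap K (Sy K g)) * r.XM *
      Q.map (algebraMap K (Sy K g))) = (Q.map (algebraMap K (Sy K g))).transpose *
        (J.map (algebraMap K (Sy K g)) * r.XM) * Q.map (algebraMap K (Sy K g)) := by
    have e1 : (Q.map (algebraMap K (Sy K g))).transpose =
        Q.transpose.map (algebraMap K (Sy K g)) := rfl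
    rw [← Matrix.mul_assoc, ← Matrix.mul_assoc, ← Matrix.map_mul, h1, Matrix.map_mul, e1,
      Matrix.mul_assoc (Q.transpose.map (algebraMap K (Sy K g)))]
  have h3 : (Q.map (algebraMap K (Sy K g))).det = algebraMap K (Sy K g) Q.det :=
    (RingHom.map_det (algebraMap K (Sy K g)) Q).symm
  rw [Rz.PF, Rz.conj_XM, h2, pfn_conj, h3, Rz.PF, ← Algebra.smul_def]

/-- the square of the derivative of the Pfaffian at a zero is the coefficient of `t ^ 2` of the
determinant: if `A + t B` is skew over a domain and `pfn A = 0`, then with the constant `N` of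
`pfn_sq` we have `((pfn (A + t B)).coeff 1) ^ 2 = N * (det (A + t B)).coeff 2` -/
theorem pfn_deriv_sq : ∃ N : ℕ, N ≠ 0 ∧ ∀ (R : Type u) [CommRing R] [IsDomain R] [CharZero R]
    (A B : Matrix n n R), A.transpose = -A → B.transpose = -B → pfn pr A = 0 →
      ((pfn pr (lineM A B)).coeff 1) ^ 2 = (N : R) * ((lineM A B).det).coeff 2 := by
  obtain ⟨N, hN, hsq⟩ := pfn_sq.{u} pr
  refine ⟨N, hN, ?_⟩
  intro R _ _ _ A B hA hB h0
  have hskew : (lineM A B).transpose = -lineM A B := by
    ext1 i j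
    have h1 : A j i = -A i j := congrFun (congrFun hA i) j
    have h2 : B j i = -B i j := congrFun (congrFun hB i) j
    show C (A j i) + X * C (B j i) = -(C (A i j) + X * C (B i j))
    rw [h1, h2, C_neg, C_neg]
    ring
  have h1 := hsq R[X] (lineM A B) hskew
  have h2 : (pfn pr (lineM A B)).coeff 0 = 0 := by
    have e1 : (lineM A B).map (constantCoeff (R := R)) = A := by
      ext1 i j
      show constantCoeff (C (A i j) + X * C (B i j)) = A i j
      simp
    have e2 := pfn_map pr (constantCoeff (R := R)) (lineM A B)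
    rw [e1, h0] at e2
    exact e2.symm
  have h3 : ((pfn pr (lineM A B)) ^ 2).coeff 2 = ((N : R[X]) * (lineM A B).det).coeff 2 :=
    congrArg (fun p : R[X] => p.coeff 2) h1
  have h4 : ((pfn pr (lineM A B)) ^ 2).coeff 2 = ((pfn pr (lineM A B)).coeff 1) ^ 2 := by
    have e3 : (Finset.HasAntidiagonal.antidiagonal 2 : Finset (ℕ × ℕ)) =
        {(0, 2), (1, 1), (2, 0)} := rfl
    rw [pow_two, coeff_mul, e3, Finset.sum_insert (by decide), Finset.sum_insert (by decide),
      Finset.sum_singleton]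
    show (pfn pr (lineM A B)).coeff 0 * (pfn pr (lineM A B)).coeff 2 +
      ((pfn pr (lineM A B)).coeff 1 * (pfn pr (lineM A B)).coeff 1 +
        (pfn pr (lineM A B)).coeff 2 * (pfn pr (lineM A B)).coeff 0) = _
    rw [h2]
    ring
  rw [h4] at h3
  rw [h3, ← map_natCast (C : R →+* R[X]), coeff_C_mul]

/-- triangular criterion -/
theorem PfGen_tri {V I : Type*} [Fintype I] (rk : I → ℕ)
    (hrk : Function.Injective rk) (f : I → V → K) (y : I → V)
    (h0 : ∀ i j, rk i < rk j → f i (y j) = 0) (h1 : ∀ i, f i (y i) ≠ 0) :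
    LinearIndependent K f := by
  classical
  rw [Fintype.linearIndependent_iff]
  intro c hc
  by_contra hne
  push Not at hne
  obtain ⟨i0, hi0⟩ := hne
  obtain ⟨j, hj, hmax⟩ := Finset.exists_max_image (Finset.univ.filter fun i => c i ≠ 0) rk
    ⟨i0, Finset.mem_filter.2 ⟨Finset.mem_univ _, hi0⟩⟩
  have hcj := (Finset.mem_filter.1 hj).2
  have h2 := congrFun hc (y j)
  rw [Finset.sum_apply, Finset.sum_eq_single j] at h2
  · exact (mul_ne_zero hcj (h1 j)) h2
  · intro i _ hij
    rw [Pi.smul_apply, smul_eq_mul]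
    rcases lt_trichotomy (rk i) (rk j) with h | h | h
    · rw [h0 i j h, mul_zero]
    · exact absurd (hrk h) hij
    · by_cases hci : c i = 0
      · rw [hci, zero_mul]
      · exact absurd (hmax i (Finset.mem_filter.2 ⟨Finset.mem_univ _, hci⟩)) (not_le.2 h)
  · intro h
    exact absurd (Finset.mem_univ _) h

/-- data for an arbitrary finite index type -/
theorem PfGen_quant {L : Type*} [LieRing L] [LieAlgebra K L] (hlin : Lin K L) {I : Type*}
    [Fintype I] {F : I → Sy K L} {d : I → ℕ} {p q x0 : L →ₗ[K] K} (hD : Data F d p q x0)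
    (hC : ∀ ξ : L →ₗ[K] K, Comm F d ξ) : Quant K L := by
  let E : Fin (Fintype.card I) ≃ I := (Fintype.equivFin I).symm
  refine ⟨hlin, Fintype.card I, fun i => F (E i), fun i => d (E i), p, q, x0,
    ⟨fun i => hD.pos (E i), fun i => hD.hom (E i), fun i => hD.cen (E i), ?_, ?_⟩, ?_⟩
  · intro s t hst
    exact (hD.ind s t hst).comp E E.injective
  · rw [Fintype.card_fin]
    exact hD.idx
  · intro ξ
    obtain ⟨u, hu1, hu2⟩ := hC ξ
    exact ⟨fun i => u (E i), fun i j m n => hu1 (E i) (E j) m n, fun i m => hu2 (E i) m⟩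

/-- the order of the generators -/
def PfGen_rk {l : ℕ} (c0 : ℕ) : Option (Fin l) → ℕ
  | none => 2 * c0
  | some i => 2 * i.val + 1

theorem PfGen_rk_inj {l : ℕ} (c0 : ℕ) : Function.Injective (PfGen_rk (l := l) c0) := by
  intro a b hab
  rcases a with _ | i <;> rcases b with _ | j
  · rfl
  · have h1 : 2 * c0 = 2 * j.val + 1 := hab
    omega
  · have h1 : 2 * i.val + 1 = 2 * c0 := hab
    omega
  · have h1 : 2 * i.val + 1 = 2 * j.val + 1 := hab
    rw [Fin.ext (by omega : i.val = j.val)]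

/-- the assembly with an additional generator `G` (`Data` for the index type `Option (Fin l)`),
which is inserted between the generators with `i < c0` and those with `c0 ≤ i`.
Independence: let `∑ c i F i' + c G' = 0` at the point.  The values on the test directions `a i`,
`i = l - 1, ..., c0` downwards give `c i = 0` for `c0 ≤ i` (`G'` vanishes there, `F j' (a i) = 0` for
`j < i`), then `a G` gives `c = 0`, then the `a i` with `i < c0`. -/
theorem Rz.quant_of_pf {e : g ≃ₗ[K] k}
    (he : IsContraction θ e) {l : ℕ} (c : Fin l → Bool) (m b : Fin l → ℕ) (hm : StrictMono m)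
    (hm1 : ∀ i, 1 ≤ m i) (hdeg : ∀ i, ∀ a : g, (phi K (c i) (m i) (r.M a)).natDegree ≤ b i)
    (G : Sy K k) {d : ℕ} (hd : 1 ≤ d) (hG : G ∈ imS K k ^ d) (hGc : G ∈ centre K k) (p q : g)
    (c0 : ℕ) (htest : ∀ s t : K, ¬ (s = 0 ∧ t = 0) → ∃ (a : Fin l → g) (aG : g),
      (∀ i, (∀ j, j + 1 < m i → (r.M (s • p + t • q) ^ j * r.M (a i)).trace = 0) ∧
        ((r.M (s • p + t • q) ^ (m i - 1) * r.M (a i)).trace).coeff (b i) ≠ 0) ∧
      dd (r.pnt e (s • p + t • q)) (r.pnt e aG) G ≠ 0 ∧
      (∀ i, i.val < c0 →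
        dd (r.pnt e (s • p + t • q)) (r.pnt e aG) (r.gen e (c i) (m i) (b i)) = 0) ∧
      ∀ i, c0 ≤ i.val → dd (r.pnt e (s • p + t • q)) (r.pnt e (a i)) G = 0)
    (x0 : k →ₗ[K] K) (hx0 : Module.finrank K (stab x0) ≤ l + 1)
    (hcomm : ∀ ξ : k →ₗ[K] K, Comm (fun o : Option (Fin l) =>
      o.elim G fun i => r.gen e (c i) (m i) (b i)) (fun o => o.elim d m) ξ) : Quant K k := by
  refine PfGen_quant (r.lin_con he) (p := r.pnt e p) (q := r.pnt e q) (x0 := x0)
    ⟨?_, ?_, ?_, ?_, ?_⟩ hcomm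
  · intro o
    rcases o with _ | i
    · exact hd
    · exact hm1 i
  · intro o
    rcases o with _ | i
    · exact hG
    · exact smap_mem _ (coeff_scS_mem θ (r.H_mem (c i) (m i)) (b i))
  · intro o
    rcases o with _ | i
    · exact hGc
    · exact centre_contract θ he (r.H_centre (c i) (m i)) (r.degree_le (c i) (m i) (b i) (hdeg i))
  · intro s t hst
    have hpq : s • r.pnt e p + t • r.pnt e q = r.pnt e (s • p + t • q) := by
      refine LinearMap.ext fun z => ?_
      show s • (r.ρ p * r.ρ (e.symm z)).trace + t • (r.ρ q * r.ρ (e.symm z)).trace =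
        (r.ρ (s • p + t • q) * r.ρ (e.symm z)).trace
      rw [map_add, map_smul, map_smul, add_mul, smul_mul_assoc, smul_mul_assoc,
        Matrix.trace_add, Matrix.trace_smul, Matrix.trace_smul]
    rw [hpq]
    obtain ⟨a, aG, ha, hG1, hG2, hG3⟩ := htest s t hst
    refine PfGen_tri (PfGen_rk c0) (PfGen_rk_inj c0) _
      (fun o => o.elim (r.pnt e aG) fun i => r.pnt e (a i)) ?_ ?_
    · intro o o' hoo
      rcases o with _ | i <;> rcases o' with _ | j
      · exact absurd hoo (lt_irrefl _)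
      · have h1 : 2 * c0 < 2 * j.val + 1 := hoo
        exact hG3 j (by omega)
      · have h1 : 2 * i.val + 1 < 2 * c0 := hoo
        exact hG2 i (by omega)
      · have h1 : 2 * i.val + 1 < 2 * j.val + 1 := hoo
        have h2 : i < j := by
          rw [Fin.lt_def]
          omega
        exact r.dd_gen_lt e (c i) (b i) (ha j).1 (hm h2)
    · intro o
      rcases o with _ | i
      · exact hG1
      · obtain ⟨ρ, hρ, h⟩ := r.dd_gen_eq e (c i) (hm1 i) (b i)
        show dd (r.pnt e (s • p + t • q)) (r.pnt e (a i)) (r.gen e (c i) (m i) (b i)) ≠ 0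
        rw [h _ _ (ha i).1]
        exact mul_ne_zero hρ (ha i).2
  · rw [Fintype.card_option, Fintype.card_fin]
    exact hx0

end Pool.Agent.helper49.QA
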