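import Mathlib
import Pool.Agent.helper49.QA.PfGen
import Pool.Agent.helper49.QA.LimPar
import Pool.Agent.helper74.QB.Out
import Pool.Agent.helper74.QB.LimOut

/-!
# Types B, D: the commuting elements for a realisation with `J = 1`

`r.ρ` is an isomorphism `φ` of `g` with `so (Fin N) K` (`IsJ 1 1`: its image consists of all the
matrices with `Aᵀ = -A`), and `φ ∘ r.Y = Y0`.  `θ' = φ θ φ⁻¹` is an involution of `so`, given by the
parity `par`, and `e' = e ∘ φ⁻¹ : so → k` is a contraction for it.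
`smap e' ((scS θ' (ek c XM0)).coeff b) = r.gen e false c b`, and the same for the
Pfaffian (`r.PF pr 1`, `pfn pr XM0`).  So `Comm` follows from `limQ_ek`, `limQ_pfn` and
`comm_of_limQ` for `so`, `θ'`, `e'` (`Cso_comm`).
`hyp_D3`: `HasQ.map` with `f = φ⁻¹ : so → g` and
`C ξ = (Cso (ξ ∘ φ⁻¹)).map (umap φ⁻¹)`; for `j > N`: `ek j = 0`.
-/

set_option autoImplicit false

namespace Pool.Agent.helper49.QA

open Polynomial Pool.Agent.helper5.AS
open Pool.Agent.helper5.ASQ (Invol even oddc brk IsContraction)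
open Pool.Agent.helper90.MF (od)

variable {K : Type*} [Field K] [CharZero K] {g : Type*}
  [LieRing g] [LieAlgebra K g] {θ : Invol K g}
  {k : Type*} [LieRing k] [LieAlgebra K k] {e : g ≃ₗ[K] k}

/-! ### transport of an involution by an isomorphism -/

section transport

variable {K : Type*} [Field K] {g : Type*} [LieRing g] [LieAlgebra K g] {θ : Invol K g}
  {g' : Type*} [LieRing g'] [LieAlgebra K g'] (φ : g ≃ₗ[K] g')
  (hφ : ∀ x y, φ ⁅x, y⁆ = ⁅φ x, φ y⁆)

include hφ in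
theorem BDout_symm (x y : g') : φ.symm ⁅x, y⁆ = ⁅φ.symm x, φ.symm y⁆ := by
  apply φ.injective
  rw [hφ, φ.apply_symm_apply, φ.apply_symm_apply, φ.apply_symm_apply]

/-- the involution `φ θ φ⁻¹` -/
def BDout_inv (θ : Invol K g) : Invol K g' where
  hom :=
    { toFun := fun x => φ (θ.hom (φ.symm x))
      map_add' := fun x y => by rw [map_add, map_add, map_add]
      map_smul' := fun c x => by rw [map_smul, map_smul, map_smul, RingHom.id_apply]
      map_lie' := fun {x y} => by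
        show φ (θ.hom (φ.symm ⁅x, y⁆)) = ⁅φ (θ.hom (φ.symm x)), φ (θ.hom (φ.symm y))⁆
        rw [BDout_symm φ hφ, LieHom.map_lie, hφ] }
  hom_hom := fun x => by
    show φ (θ.hom (φ.symm (φ (θ.hom (φ.symm x))))) = x
    rw [φ.symm_apply_apply, θ.hom_hom, φ.apply_symm_apply]

theorem BDout_inv_apply (x : g') : (BDout_inv φ hφ θ).hom x = φ (θ.hom (φ.symm x)) := rfl

theorem BDout_even (x : g) : even (BDout_inv φ hφ θ) (φ x) = φ (even θ x) := by
  rw [even, even, BDout_inv_apply, φ.symm_apply_apply, map_smul, map_add]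

theorem BDout_oddc (x : g) : oddc (BDout_inv φ hφ θ) (φ x) = φ (oddc θ x) := by
  rw [oddc, oddc, BDout_inv_apply, φ.symm_apply_apply, map_smul, map_sub]

theorem BDout_brk (x y : g) : brk (BDout_inv φ hφ θ) (φ x) (φ y) = φ (brk θ x y) := by
  rw [brk, brk, BDout_even, BDout_even, BDout_oddc, BDout_oddc, map_add, map_add, hφ, hφ, hφ]

variable {k : Type*} [LieRing k] [LieAlgebra K k] {e : g ≃ₗ[K] k}

theorem BDout_contraction (he : IsContraction θ e) :
    IsContraction (BDout_inv φ hφ θ) (φ.symm.trans e) := by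
  intro x y
  obtain ⟨a, rfl⟩ := φ.surjective x
  obtain ⟨b, rfl⟩ := φ.surjective y
  rw [BDout_brk, LinearEquiv.trans_apply, LinearEquiv.trans_apply, LinearEquiv.trans_apply,
    φ.symm_apply_apply, φ.symm_apply_apply, φ.symm_apply_apply]
  exact he a b

theorem BDout_scS (F : Sy K g) : scS (BDout_inv φ hφ θ) (smap (φ : g →ₗ[K] g') F) =
    mapAlgHom (smap (φ : g →ₗ[K] g')) (scS θ F) := by
  have h : (scS (BDout_inv φ hφ θ)).comp (smap (φ : g →ₗ[K] g')) =
      (mapAlgHom (smap (φ : g →ₗ[K] g'))).comp (scS θ) := by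
    refine SymmetricAlgebra.algHom_ext (LinearMap.ext fun z => ?_)
    show scS (BDout_inv φ hφ θ) (smap (φ : g →ₗ[K] g') (ιS K g z)) =
      mapAlgHom (smap (φ : g →ₗ[K] g')) (scS θ (ιS K g z))
    rw [smap_ι, scS_ι θ z, map_add, map_mul, coe_mapAlgHom, Polynomial.map_C, Polynomial.map_C,
      Polynomial.map_X]
    have h1 : ∀ z : g, ((smap (φ : g →ₗ[K] g') : Sy K g →ₐ[K] Sy K g') :
        Sy K g →+* Sy K g') (ιS K g z) = ιS K g' (φ z) := fun z => smap_ι _ z
    rw [h1, h1, ← BDout_even φ hφ, ← BDout_oddc φ hφ]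
    exact scS_ι (BDout_inv φ hφ θ) (φ z)
  exact congrArg (fun G : Sy K g →ₐ[K] (Sy K g')[X] => G F) h

theorem BDout_smap (x : Sy K g) :
    smap ((φ.symm.trans e : g' ≃ₗ[K] k) : g' →ₗ[K] k) (smap (φ : g →ₗ[K] g') x) =
      smap (e : g →ₗ[K] k) x := by
  have h : (smap ((φ.symm.trans e : g' ≃ₗ[K] k) : g' →ₗ[K] k)).comp
      (smap (φ : g →ₗ[K] g')) = smap (e : g →ₗ[K] k) := by
    refine SymmetricAlgebra.algHom_ext (LinearMap.ext fun z => ?_)
    show smap ((φ.symm.trans e : g' ≃ₗ[K] k) : g' →ₗ[K] k)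
      (smap (φ : g →ₗ[K] g') (ιS K g z)) = smap (e : g →ₗ[K] k) (ιS K g z)
    rw [smap_ι, smap_ι, smap_ι]
    show ιS K k (e (φ.symm (φ z))) = ιS K k (e z)
    rw [φ.symm_apply_apply]
  exact congrArg (fun G : Sy K g →ₐ[K] Sy K k => G x) h

theorem BDout_lead (F : Sy K g) (b : ℕ) :
    smap ((φ.symm.trans e : g' ≃ₗ[K] k) : g' →ₗ[K] k)
      ((scS (BDout_inv φ hφ θ) (smap (φ : g →ₗ[K] g') F)).coeff b) =
      smap (e : g →ₗ[K] k) ((scS θ F).coeff b) := by
  rw [BDout_scS, coeff_mapAlgHom_apply, BDout_smap]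

end transport

/-! ### the isomorphism with `so` -/

section iso

open LieAlgebra.Orthogonal (so)
open Pool.Agent.helper74.QB (Y0 XM0 Cso Cso_comm)

variable {K : Type*} [Field K] [CharZero K] {g : Type*} [LieRing g] [LieAlgebra K g]
  {θ : Invol K g} {n : Type*} [Fintype n] [DecidableEq n] {r : Rz K n θ}

theorem BDout_proj (hJ : r.IsJ 1 1) (b : Matrix n n K) :
    r.ρ (r.Y b) = (2 : K)⁻¹ • (b - b.transpose) := by
  rw [hJ.proj, inv_one, Matrix.one_mul, Matrix.mul_one]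

theorem BDout_mem (hJ : r.IsJ 1 1) (x : g) : r.ρ x ∈ so n K := by
  have h := hJ.skew x
  rw [Matrix.mul_one, Matrix.one_mul] at h
  rw [LieAlgebra.Orthogonal.mem_so]
  exact h

/-- the isomorphism `g ≃ so` -/
noncomputable def BDout_iso (hJ : r.IsJ 1 1) : g ≃ₗ[K] so n K :=
  LinearEquiv.ofBijective
    { toFun := fun x => (⟨r.ρ x, BDout_mem hJ x⟩ : so n K)
      map_add' := fun x y => Subtype.ext (map_add r.ρ x y)
      map_smul' := fun c x => Subtype.ext (map_smul r.ρ c x) }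
    ⟨fun x y h => r.inj (congrArg Subtype.val h), fun A => by
      obtain ⟨x, hx⟩ := hJ.surj (A := (A : Matrix n n K)) (by
        rw [Matrix.mul_one, Matrix.one_mul]
        exact LieAlgebra.Orthogonal.mem_so _ _ _ |>.1 A.2)
      exact ⟨x, Subtype.ext hx⟩⟩

theorem BDout_iso_coe (hJ : r.IsJ 1 1) (x : g) :
    ((BDout_iso hJ x : so n K) : Matrix n n K) = r.ρ x := rfl

theorem BDout_iso_lie (hJ : r.IsJ 1 1) (x y : g) :
    BDout_iso hJ ⁅x, y⁆ = ⁅BDout_iso hJ x, BDout_iso hJ y⁆ := by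
  apply Subtype.ext
  rw [BDout_iso_coe, r.lie]
  rfl

theorem BDout_iso_Y (hJ : r.IsJ 1 1) (b : Matrix n n K) :
    BDout_iso hJ (r.Y b) = Y0 K n b := by
  apply Subtype.ext
  rw [BDout_iso_coe, BDout_proj hJ, Pool.Agent.helper74.QB.Y0_coe]

theorem BDout_XM (hJ : r.IsJ 1 1) :
    r.XM.map (smap (BDout_iso hJ : g →ₗ[K] so n K)) = XM0 K n := by
  ext1 i j
  show smap (BDout_iso hJ : g →ₗ[K] so n K) (ιS K g (r.Y (Matrix.single j i 1))) =
    ιS K (so n K) (Y0 K n (Matrix.single j i 1))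
  rw [smap_ι, ← BDout_iso_Y hJ]
  rfl

theorem BDout_XM' (hJ : r.IsJ 1 1) :
    (XM0 K n).map (smap ((BDout_iso hJ).symm : so n K →ₗ[K] g)) = r.XM := by
  ext1 i j
  show smap ((BDout_iso hJ).symm : so n K →ₗ[K] g)
    (ιS K (so n K) (Y0 K n (Matrix.single j i 1))) = ιS K g (r.Y (Matrix.single j i 1))
  rw [smap_ι, ← BDout_iso_Y hJ]
  show ιS K g ((BDout_iso hJ).symm (BDout_iso hJ (r.Y (Matrix.single j i 1)))) = _
  rw [LinearEquiv.symm_apply_apply]

theorem BDout_ek (hJ : r.IsJ 1 1) (c : ℕ) :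
    smap (BDout_iso hJ : g →ₗ[K] so n K) (r.H false c) = ek c (XM0 K n) := by
  rw [← BDout_XM hJ]
  exact (ek_map ((smap (BDout_iso hJ : g →ₗ[K] so n K) : Sy K g →ₐ[K] Sy K (so n K)) :
    Sy K g →+* Sy K (so n K)) c r.XM).symm

theorem BDout_PF_eq {h : ℕ} (pr : Fin h × Fin 2 ≃ n) : r.PF pr 1 = pfn pr r.XM := by
  rw [Rz.PF, Matrix.map_one _ (map_zero _) (map_one _), Matrix.one_mul]

theorem BDout_pfn (hJ : r.IsJ 1 1) {h : ℕ} (pr : Fin h × Fin 2 ≃ n) :
    smap (BDout_iso hJ : g →ₗ[K] so n K) (r.PF pr 1) = pfn pr (XM0 K n) := by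
  rw [← BDout_XM hJ, BDout_PF_eq]
  exact (pfn_map pr ((smap (BDout_iso hJ : g →ₗ[K] so n K) : Sy K g →ₐ[K] Sy K (so n K)) :
    Sy K g →+* Sy K (so n K)) r.XM).symm

theorem BDout_par (hJ : r.IsJ 1 1) {par : n → Bool} (hp : r.IsPar par) :
    Pool.Agent.helper74.QB.IsPar (BDout_inv (BDout_iso hJ) (BDout_iso_lie hJ) θ) par := by
  intro i j
  apply Subtype.ext
  rw [BDout_inv_apply, BDout_iso_coe]
  ext a b
  rw [hp, ← BDout_iso_coe hJ, LinearEquiv.apply_symm_apply]
  show _ = (if par i = par j then (1 : K) else -1) • ((Y0 K n (Matrix.single i j 1) : so n K) :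
    Matrix n n K) a b
  rw [Pool.Agent.helper74.QB.Y0_coe]
  simp only [Matrix.smul_apply, Matrix.sub_apply, Matrix.transpose_apply, smul_eq_mul,
    Matrix.single_apply]
  unfold od
  by_cases h1 : i = a ∧ j = b
  · obtain ⟨rfl, rfl⟩ := h1
    by_cases h2 : par i = par j <;> simp [h2]
  · by_cases h3 : i = b ∧ j = a
    · obtain ⟨rfl, rfl⟩ := h3
      by_cases h2 : par i = par j
      · simp [h2]
      · have h4 : ¬ par j = par i := fun h => h2 h.symm
        simp [h2, h4]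
    · simp [h1, h3]

/-- the inclusion of `so` in the algebra of matrices -/
def BDout_val : so n K →ₗ[K] Matrix n n K where
  toFun := fun x => (x : Matrix n n K)
  map_add' := fun _ _ => rfl
  map_smul' := fun _ _ => rfl

theorem BDout_isLieMap : IsLieMap (BDout_val (K := K) (n := n)) := fun _ _ => rfl

theorem BDout_val_injective : Function.Injective (BDout_val (K := K) (n := n)) :=
  Subtype.val_injective

end iso

theorem hyp_BO (he : IsContraction θ e) {N : ℕ} (hN : 3 ≤ N) (r : Rz K (Fin N) θ)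
    (par : Fin N → Bool) (hJ : r.IsJ 1 1) (hp : r.IsPar par)
    {l : ℕ} (m : Fin l → ℕ) (hm : ∀ i, m i ≤ N) (ξ : k →ₗ[K] K) :
    Comm (fun i => r.gen e false (m i) (min (m i) (2 * qn par))) m ξ := by
  have hq : qn par = Pool.Agent.helper74.QB.blkCard par := rfl
  have h := comm_of_limQ (BDout_inv (BDout_iso hJ) (BDout_iso_lie hJ) θ) BDout_isLieMap
    BDout_val_injective (BDout_contraction (BDout_iso hJ) (BDout_iso_lie hJ) he)
    Pool.Agent.helper74.QB.Cso_comm (fun i => ek (m i) (Pool.Agent.helper74.QB.XM0 K (Fin N))) m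
    (fun i => min (m i) (2 * qn par)) (fun i =>
      Pool.Agent.helper74.QB.limQ_ek (by rwa [Fintype.card_fin]) (BDout_par hJ hp) _ (m i)
        (by rw [Fintype.card_fin]; exact hm i)) ξ
  have h2 : (fun i => r.gen e false (m i) (min (m i) (2 * qn par))) =
      fun i => smap (((BDout_iso hJ).symm.trans e : LieAlgebra.Orthogonal.so _ K ≃ₗ[K] k) :
      LieAlgebra.Orthogonal.so _ K →ₗ[K] k)
        ((scS (BDout_inv (BDout_iso hJ) (BDout_iso_lie hJ) θ)
          (ek (m i) (Pool.Agent.helper74.QB.XM0 K (Fin N)))).coeff (min (m i) (2 * qn par))) := by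
    funext i
    rw [← BDout_ek hJ, BDout_lead]
    rfl
  rw [h2]
  exact h

theorem hyp_BE (he : IsContraction θ e) {h : ℕ} (hN : 3 ≤ 2 * h) (r : Rz K (Fin (2 * h)) θ)
    (par : Fin (2 * h) → Bool) (pr : Fin h × Fin 2 ≃ Fin (2 * h)) (hJ : r.IsJ 1 1)
    (hp : r.IsPar par) (hq : qn par ≤ h) {l : ℕ} (m : Fin l → ℕ) (hm : ∀ i, m i ≤ 2 * h)
    (ξ : k →ₗ[K] K) :
    Comm (fun o : Option (Fin l) => o.elim
      (smap (e : g →ₗ[K] k) ((scS θ (r.PF pr 1)).coeff (qn par)))
      fun i => r.gen e false (m i) (min (m i) (2 * qn par))) (fun o => o.elim h m) ξ := by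
  have hmin : min (Fintype.card (Fin h)) (qn par) = qn par := by
    rw [Fintype.card_fin]
    exact min_eq_right hq
  have h1 := comm_of_limQ (BDout_inv (BDout_iso hJ) (BDout_iso_lie hJ) θ) BDout_isLieMap
    BDout_val_injective (BDout_contraction (BDout_iso hJ) (BDout_iso_lie hJ) he)
    Pool.Agent.helper74.QB.Cso_comm
    (fun o : Option (Fin l) => o.elim (pfn pr (Pool.Agent.helper74.QB.XM0 K (Fin (2 * h))))
      fun i => ek (m i) (Pool.Agent.helper74.QB.XM0 K (Fin (2 * h)))) (fun o => o.elim h m)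
    (fun o => o.elim (qn par) fun i => min (m i) (2 * qn par)) (fun o => by
      cases o with
      | none =>
        have h3 := Pool.Agent.helper74.QB.limQ_pfn (by rwa [Fintype.card_fin])
          (BDout_par hJ hp) ((BDout_iso hJ).symm.trans e) pr
        rw [show min (Fintype.card (Fin h)) (Pool.Agent.helper74.QB.blkCard par) = qn par from
          hmin, Fintype.card_fin] at h3
        exact h3
      | some i =>
        exact Pool.Agent.helper74.QB.limQ_ek (by rwa [Fintype.card_fin]) (BDout_par hJ hp) _ (m i)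
          (by rw [Fintype.card_fin]; exact hm i)) ξ
  have h2 : (fun o : Option (Fin l) => o.elim
      (smap (e : g →ₗ[K] k) ((scS θ (r.PF pr 1)).coeff (qn par)))
      fun i => r.gen e false (m i) (min (m i) (2 * qn par))) =
      fun o => smap (((BDout_iso hJ).symm.trans e : LieAlgebra.Orthogonal.so _ K ≃ₗ[K] k) :
      LieAlgebra.Orthogonal.so _ K →ₗ[K] k)
        ((scS (BDout_inv (BDout_iso hJ) (BDout_iso_lie hJ) θ)
          (o.elim (pfn pr (Pool.Agent.helper74.QB.XM0 K (Fin (2 * h))))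
            fun i => ek (m i) (Pool.Agent.helper74.QB.XM0 K (Fin (2 * h))))).coeff
          (o.elim (qn par) fun i => min (m i) (2 * qn par))) := by
    funext o
    cases o with
    | none =>
      show _ = smap (((BDout_iso hJ).symm.trans e : LieAlgebra.Orthogonal.so _ K ≃ₗ[K] k) :
      LieAlgebra.Orthogonal.so _ K →ₗ[K] k)
        ((scS (BDout_inv (BDout_iso hJ) (BDout_iso_lie hJ) θ)
          (pfn pr (Pool.Agent.helper74.QB.XM0 K (Fin (2 * h))))).coeff (qn par))
      rw [← BDout_pfn hJ, BDout_lead]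
      rfl
    | some i =>
      show _ = smap (((BDout_iso hJ).symm.trans e : LieAlgebra.Orthogonal.so _ K ≃ₗ[K] k) :
      LieAlgebra.Orthogonal.so _ K →ₗ[K] k)
        ((scS (BDout_inv (BDout_iso hJ) (BDout_iso_lie hJ) θ)
          (ek (m i) (Pool.Agent.helper74.QB.XM0 K (Fin (2 * h))))).coeff
            (min (m i) (2 * qn par)))
      rw [← BDout_ek hJ, BDout_lead]
      rfl
  rw [h2]
  exact h1

theorem hyp_D3 {n : Type*} [Fintype n] [DecidableEq n] (hN : 3 ≤ Fintype.card n)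
    (r : Rz K n θ) (hJ : r.IsJ 1 1) :
    ∃ C : (g →ₗ[K] K) → Subalgebra K (Ue K g),
      (∀ ξ, ∀ a ∈ C ξ, ∀ b ∈ C ξ, a * b = b * a) ∧ (∀ j, HasQ C j (ek j r.XM)) ∧
        ∀ (h : ℕ) (pr : Fin h × Fin 2 ≃ n), HasQ C h (r.PF pr 1) := by
  have hf : IsBr ((BDout_iso hJ).symm : LieAlgebra.Orthogonal.so n K →ₗ[K] g) :=
    BDout_symm (BDout_iso hJ) (BDout_iso_lie hJ)
  refine ⟨fun ξ => (Pool.Agent.helper74.QB.Cso
    (ξ ∘ₗ ((BDout_iso hJ).symm : LieAlgebra.Orthogonal.so n K →ₗ[K] g))).map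
    (umap ((BDout_iso hJ).symm : LieAlgebra.Orthogonal.so n K →ₗ[K] g) hf), ?_, ?_, ?_⟩
  · rintro ξ _ ⟨a, ha, rfl⟩ _ ⟨b, hb, rfl⟩
    have h1 := Pool.Agent.helper74.QB.Cso_comm _ a ha b hb
    have h2 := congrArg (umap ((BDout_iso hJ).symm : LieAlgebra.Orthogonal.so n K →ₗ[K] g) hf) h1
    rw [map_mul, map_mul] at h2
    exact h2
  · intro j
    by_cases hj : j ≤ Fintype.card n
    · have h1 := HasQ.map ((BDout_iso hJ).symm : LieAlgebra.Orthogonal.so n K →ₗ[K] g) hf
        (C' := fun ξ => (Pool.Agent.helper74.QB.Cso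
          (ξ ∘ₗ ((BDout_iso hJ).symm : LieAlgebra.Orthogonal.so n K →ₗ[K] g))).map
          (umap ((BDout_iso hJ).symm : LieAlgebra.Orthogonal.so n K →ₗ[K] g) hf))
        (fun ξ a ha => ⟨a, ha, rfl⟩) (Pool.Agent.helper74.QB.hasQ_ek (K := K) hN j hj)
      have h2 : smap ((BDout_iso hJ).symm : LieAlgebra.Orthogonal.so n K →ₗ[K] g)
          (ek j (Pool.Agent.helper74.QB.XM0 K n)) = ek j r.XM := by
        rw [← BDout_XM' hJ]
        exact (ek_map ((smap ((BDout_iso hJ).symm : LieAlgebra.Orthogonal.so n K →ₗ[K] g) :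
          Sy K (LieAlgebra.Orthogonal.so n K) →ₐ[K] Sy K g) :
          Sy K (LieAlgebra.Orthogonal.so n K) →+* Sy K g) j _).symm
      rw [h2] at h1
      exact h1
    · rw [ek_of_card_lt (not_le.1 hj)]
      exact HasQ.zero j
  · intro h pr
    have h1 := HasQ.map ((BDout_iso hJ).symm : LieAlgebra.Orthogonal.so n K →ₗ[K] g) hf
      (C' := fun ξ => (Pool.Agent.helper74.QB.Cso
        (ξ ∘ₗ ((BDout_iso hJ).symm : LieAlgebra.Orthogonal.so n K →ₗ[K] g))).map
        (umap ((BDout_iso hJ).symm : LieAlgebra.Orthogonal.so n K →ₗ[K] g) hf))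
      (fun ξ a ha => ⟨a, ha, rfl⟩) (Pool.Agent.helper74.QB.hasQ_pfn (K := K) hN pr)
    have h2 : smap ((BDout_iso hJ).symm : LieAlgebra.Orthogonal.so n K →ₗ[K] g)
        (pfn pr (Pool.Agent.helper74.QB.XM0 K n)) = pfn pr r.XM := by
      rw [← BDout_XM' hJ]
      exact (pfn_map pr ((smap ((BDout_iso hJ).symm : LieAlgebra.Orthogonal.so n K →ₗ[K] g) :
        Sy K (LieAlgebra.Orthogonal.so n K) →ₐ[K] Sy K g) :
        Sy K (LieAlgebra.Orthogonal.so n K) →+* Sy K g) _).symm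
    rw [h2, Fintype.card_fin] at h1
    rw [BDout_PF_eq]
    exact h1

end Pool.Agent.helper49.QA
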