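import Mathlib
import Pool.Agent.helper5.AS.Contr

/-!
# The contraction as a Lie algebra on a copy of the space
-/

set_option autoImplicit false

namespace Pool.Agent.helper49.QA

open Pool.Agent.helper5.ASQ

variable {K : Type*} [Field K] [CharZero K] {g : Type*} [LieRing g] [LieAlgebra K g]

/-- the contraction of `g` -/
def Con (_ : Invol K g) : Type _ := g

variable (θ : Invol K g)

/-- an instance, local on purpose -/
@[reducible] def instAddCommGroupCon : AddCommGroup (Con θ) := inferInstanceAs (AddCommGroup g)

attribute [local instance] instAddCommGroupCon

/-- an instance, local on purpose -/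
@[reducible] def instModuleCon : Module K (Con θ) := inferInstanceAs (Module K g)

attribute [local instance] instModuleCon

/-- an instance, local on purpose -/
@[reducible] noncomputable def instLieRingCon : LieRing (Con θ) where
  bracket := fun x y => (show g from brk θ (show g from x) (show g from y))
  add_lie := fun x y z => brk_add_left θ x y z
  lie_add := fun x y z => brk_add_right θ x y z
  lie_self := fun x => brk_self θ x
  leibniz_lie := fun x y z => brk_jacobi θ x y z

attribute [local instance] instLieRingCon

/-- an instance, local on purpose -/
@[reducible] noncomputable def instLieAlgebraCon : LieAlgebra K (Con θ) where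
  lie_smul := fun c x y => brk_smul_right θ c x y

attribute [local instance] instLieAlgebraCon

/-- the identity map -/
def conE : g ≃ₗ[K] Con θ := LinearEquiv.refl K g

theorem isContraction_conE : IsContraction θ (conE θ) := fun _ _ => rfl

/-- all the contractions of the same Lie algebra with involution are isomorphic -/
theorem con_iso {k : Type*} [LieRing k] [LieAlgebra K k] {e : g ≃ₗ[K] k}
    (he : IsContraction θ e) : ∃ f : Con θ ≃ₗ[K] k, (∀ x y, f ⁅x, y⁆ = ⁅f x, f y⁆) ∧
      ∀ x : g, f (conE θ x) = e x :=
  ⟨(conE θ).symm.trans e, fun x y => (he ((conE θ).symm x) ((conE θ).symm y)).symm, fun _ => rfl⟩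

end Pool.Agent.helper49.QA
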