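import Mathlib

/-!
# Powers of band matrices
-/

set_option autoImplicit false

namespace Pool.Agent.helper49.QA

/-- if `M i j = 0` whenever `pos i + 1 < pos j` then `(M ^ m) i j = 0` whenever
`pos i + m < pos j` -/
theorem band_zero {n : Type*} [Fintype n] [DecidableEq n] {R : Type*} [CommRing R] (pos : n → ℕ)
    {M : Matrix n n R} (h : ∀ i j, pos i + 1 < pos j → M i j = 0) (m : ℕ) :
    ∀ i j, pos i + m < pos j → (M ^ m) i j = 0 := by
  induction m with
  | zero =>
    intro i j hij
    rw [pow_zero, Matrix.one_apply, if_neg]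
    rintro rfl
    omega
  | succ m ih =>
    intro i j hij
    rw [pow_succ, Matrix.mul_apply]
    refine Finset.sum_eq_zero fun l _ => ?_
    by_cases hl : pos i + m < pos l
    · rw [ih i l hl, zero_mul]
    · rw [h l j (by omega), mul_zero]

/-- a path of length `m` in a band matrix: the last step -/
theorem band_step {n : Type*} [Fintype n] [DecidableEq n] {R : Type*} [CommRing R] (pos : n → ℕ)
    {M : Matrix n n R} (h : ∀ i j, pos i + 1 < pos j → M i j = 0) (m : ℕ) (i j : n)
    (hij : pos j = pos i + (m + 1)) :
    (M ^ (m + 1)) i j =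
      ∑ l ∈ Finset.univ.filter (fun l => pos l = pos i + m), (M ^ m) i l * M l j := by
  rw [pow_succ, Matrix.mul_apply, Finset.sum_filter]
  refine Finset.sum_congr rfl fun l _ => ?_
  split_ifs with hl
  · rfl
  · by_cases hl2 : pos i + m < pos l
    · rw [band_zero pos h m i l hl2, zero_mul]
    · rw [h l j (by omega), mul_zero]

/-- the entries of the powers of a band matrix at the boundary of the band are the products of the
links `w` -/
theorem band_prod {N : ℕ} {R : Type*} [CommRing R] {M : Matrix (Fin N) (Fin N) R}
    (h : ∀ i j : Fin N, i.val + 1 < j.val → M i j = 0) (w : ℕ → R)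
    (hw : ∀ i j : Fin N, i.val + 1 = j.val → M i j = w i.val) (m : ℕ) :
    ∀ i j : Fin N, j.val = i.val + m → (M ^ m) i j = ∏ l ∈ Finset.Ico i.val j.val, w l := by
  induction m with
  | zero =>
    intro i j hij
    have h1 : i = j := Fin.ext (by omega)
    rw [h1, pow_zero, Matrix.one_apply_eq, Finset.Ico_self, Finset.prod_empty]
  | succ m ih =>
    intro i j hij
    rw [band_step (fun i : Fin N => i.val) h m i j hij]
    have hlt : i.val + m < N := by have := j.2; omega
    rw [Finset.sum_eq_single (⟨i.val + m, hlt⟩ : Fin N)]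
    · rw [ih i ⟨i.val + m, hlt⟩ rfl, hw ⟨i.val + m, hlt⟩ j (by
        show i.val + m + 1 = j.val
        omega)]
      have h2 : j.val = (i.val + m) + 1 := by omega
      rw [h2, Finset.prod_Ico_succ_top (by omega)]
    · intro l hl hne
      rw [Finset.mem_filter] at hl
      exact absurd (Fin.ext hl.2) hne
    · intro hcon
      refine absurd ?_ hcon
      rw [Finset.mem_filter]
      exact ⟨Finset.mem_univ _, rfl⟩

end Pool.Agent.helper49.QA
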