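import Mathlib
import Pool.Agent.helper49.QA.JForm
import Pool.Agent.helper49.QA.Band

/-!
# The chain form: pencils and test elements for the types B, C (and the long chain of type D)

`J = Jalt N` is the alternating antidiagonal matrix, symmetric for odd `N` and skew for even `N`.
The matrices `Nup N`, `Ndn N` (all ones on the diagonal above, below the main one) are in the Lie
algebra.  The condition `Aᵀ J = - J A` means `A i j = -(-1)^(i+j) A j' i'`, `i' = N - 1 - i`
(`Fin.rev`).  For `m` even and a window `lo, ..., hi = lo + m - 1` the matrix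
`E_{hi,lo} + E_{lo',hi'}` (and its transpose) is in the Lie algebra.

With `M = Mp par (s Ndn + t Nup)` the entry `(i, i+1)` of `M` is `t X ^ od i (i+1)`, the
entry `(i+1, i)` is `s X ^ od i (i+1)`.  For `t ≠ 0` and `Y = E_{hi,lo} + E_{lo',hi'}`, `Mp par Y`
has the entries `X ^ od hi lo`; `tr (M ^ j Mp Y) = X ^ od (M^j lo hi + M^j hi' lo')` is zero for
`j < m - 1` (`band_zero`), and equal to `2 t ^ (m-1) X ^ (wt lo hi)` for `j = m - 1` (`band_prod`;
the parity of the links is invariant under the reflection).  For `t = 0`, `s ≠ 0` use the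
transposed matrices.
-/

set_option autoImplicit false

namespace Pool.Agent.helper49.QA

open Polynomial Pool.Agent.helper5.AS
open Pool.Agent.helper5.ASQ (Invol even oddc brk IsContraction)
open Pool.Agent.helper90.MF (od)

variable {K : Type*} [Field K]

/-- the alternating antidiagonal matrix -/
def Jalt (K : Type*) [Field K] (N : ℕ) : Matrix (Fin N) (Fin N) K :=
  fun i j => if i.val + j.val + 1 = N then (-1) ^ i.val else 0

/-- ones above the diagonal -/
def Nup (K : Type*) [Field K] (N : ℕ) : Matrix (Fin N) (Fin N) K :=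
  fun i j => if i.val + 1 = j.val then 1 else 0

/-- ones below the diagonal -/
def Ndn (K : Type*) [Field K] (N : ℕ) : Matrix (Fin N) (Fin N) K :=
  fun i j => if j.val + 1 = i.val then 1 else 0

theorem Jalt_transpose (N : ℕ) : (Jalt K N).transpose = (-1 : K) ^ (N + 1) • Jalt K N := by
  ext i j
  rw [Matrix.transpose_apply, Matrix.smul_apply, smul_eq_mul]
  unfold Jalt
  by_cases h : i.val + j.val + 1 = N
  · rw [if_pos h, if_pos (by omega), ← pow_add]
    have h1 : N + 1 + i.val = j.val + 2 * (i.val + 1) := by omega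
    rw [h1, pow_add, pow_mul]
    simp
  · rw [if_neg h, if_neg (by omega), mul_zero]

theorem Chain_Jalt_rev {N : ℕ} (i j : Fin N) :
    Jalt K N i j = if j = i.rev then (-1) ^ i.val else 0 := by
  unfold Jalt
  by_cases h : j = i.rev
  · rw [if_pos h, if_pos]
    rw [h, Fin.val_rev]
    have := i.2
    omega
  · rw [if_neg h, if_neg]
    intro h1
    apply h
    apply Fin.ext
    rw [Fin.val_rev]
    omega

theorem Chain_Jalt_mul {N : ℕ} (A : Matrix (Fin N) (Fin N) K) (i k : Fin N) :
    (Jalt K N * A) i k = (-1) ^ i.val * A i.rev k := by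
  rw [Matrix.mul_apply, Finset.sum_eq_single i.rev]
  · rw [Chain_Jalt_rev, if_pos rfl]
  · intro j _ hj
    rw [Chain_Jalt_rev, if_neg hj, zero_mul]
  · intro h
    exact absurd (Finset.mem_univ _) h

theorem Chain_mul_Jalt {N : ℕ} (A : Matrix (Fin N) (Fin N) K) (i k : Fin N) :
    (A * Jalt K N) i k = A i k.rev * (-1) ^ k.rev.val := by
  rw [Matrix.mul_apply, Finset.sum_eq_single k.rev]
  · rw [Chain_Jalt_rev, if_pos (Fin.rev_rev k).symm]
  · intro j _ hj
    rw [Chain_Jalt_rev, if_neg, mul_zero]
    intro h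
    apply hj
    rw [h, Fin.rev_rev]
  · intro h
    exact absurd (Finset.mem_univ _) h

theorem Jalt_mul_self (N : ℕ) : Jalt K N * Jalt K N = (-1 : K) ^ (N + 1) • 1 := by
  ext i k
  rw [Chain_Jalt_mul, Chain_Jalt_rev, Fin.rev_rev, Matrix.smul_apply, Matrix.one_apply, smul_eq_mul]
  by_cases h : k = i
  · rw [if_pos h, if_pos h.symm, mul_one, ← pow_add, Fin.val_rev]
    have hi := i.2
    have h1 : N + 1 = i.val + (N - (i.val + 1)) + 2 := by omega
    rw [h1, pow_add _ (i.val + (N - (i.val + 1))) 2]
    simp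
  · rw [if_neg h, if_neg (Ne.symm h), mul_zero, mul_zero]

theorem Jalt_det_ne_zero (N : ℕ) : (Jalt K N).det ≠ 0 := by
  intro h
  have h1 := congrArg Matrix.det (Jalt_mul_self (K := K) N)
  rw [Matrix.det_mul, h, mul_zero, Matrix.det_smul, Matrix.det_one, mul_one] at h1
  exact pow_ne_zero _ (pow_ne_zero _ (neg_ne_zero.2 one_ne_zero)) h1.symm

/-- the condition for the matrices in the Lie algebra -/
theorem skew_Jalt {N : ℕ} {A : Matrix (Fin N) (Fin N) K}
    (h : ∀ i j, A i j = -((-1 : K) ^ (i.val + j.val) * A j.rev i.rev)) :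
    A.transpose * Jalt K N = -(Jalt K N * A) := by
  ext i k
  rw [Chain_mul_Jalt, Matrix.neg_apply, Chain_Jalt_mul, Matrix.transpose_apply, h k.rev i,
    Fin.rev_rev, pow_add]
  have h1 : ((-1 : K) ^ k.rev.val) * (-1) ^ k.rev.val = 1 := by
    rw [← mul_pow]
    simp
  linear_combination (-((-1) ^ i.val * A i.rev k)) * h1

theorem skew_Nup (N : ℕ) : (Nup K N).transpose * Jalt K N = -(Jalt K N * Nup K N) := by
  refine skew_Jalt fun i j => ?_
  unfold Nup
  have hi := i.2
  have hj := j.2
  by_cases h : i.val + 1 = j.val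
  · rw [if_pos h, if_pos (by rw [Fin.val_rev, Fin.val_rev]; omega), ← h]
    have h1 : i.val + (i.val + 1) = 2 * i.val + 1 := by ring
    rw [h1, pow_succ, pow_mul]
    simp
  · rw [if_neg h, if_neg (by rw [Fin.val_rev, Fin.val_rev]; omega), mul_zero, neg_zero]

theorem skew_Ndn (N : ℕ) : (Ndn K N).transpose * Jalt K N = -(Jalt K N * Ndn K N) := by
  refine skew_Jalt fun i j => ?_
  unfold Ndn
  have hi := i.2
  have hj := j.2
  by_cases h : j.val + 1 = i.val
  · rw [if_pos h, if_pos (by rw [Fin.val_rev, Fin.val_rev]; omega), ← h]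
    have h1 : j.val + 1 + j.val = 2 * j.val + 1 := by ring
    rw [h1, pow_succ, pow_mul]
    simp
  · rw [if_neg h, if_neg (by rw [Fin.val_rev, Fin.val_rev]; omega), mul_zero, neg_zero]

/-- the test matrix of the window from `lo` to `hi` -/
def Chain_Y (K : Type*) [Field K] {N : ℕ} (lo hi : Fin N) : Matrix (Fin N) (Fin N) K :=
  Matrix.single hi lo 1 + Matrix.single lo.rev hi.rev 1

theorem Chain_Y_skew {N : ℕ} {lo hi : Fin N} (hodd : Odd (hi.val + lo.val)) (i j : Fin N) :
    Chain_Y K lo hi i j = -((-1 : K) ^ (i.val + j.val) * Chain_Y K lo hi j.rev i.rev) := by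
  have e : Chain_Y K lo hi j.rev i.rev = Chain_Y K lo hi i j := by
    unfold Chain_Y
    rw [Matrix.add_apply, Matrix.add_apply, Matrix.single_apply, Matrix.single_apply,
      Matrix.single_apply, Matrix.single_apply, add_comm]
    have h1 : (lo.rev = j.rev ∧ hi.rev = i.rev) ↔ (hi = i ∧ lo = j) := by
      rw [Fin.rev_inj, Fin.rev_inj, and_comm]
    have h2 : (hi = j.rev ∧ lo = i.rev) ↔ (lo.rev = i ∧ hi.rev = j) := by
      rw [← Fin.rev_inj (i := hi), ← Fin.rev_inj (i := lo), Fin.rev_rev, Fin.rev_rev, and_comm]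
    simp only [h1, h2]
  rw [e]
  by_cases h1 : hi = i ∧ lo = j
  · obtain ⟨rfl, rfl⟩ := h1
    rw [hodd.neg_one_pow]
    ring
  by_cases h2 : lo.rev = i ∧ hi.rev = j
  · obtain ⟨rfl, rfl⟩ := h2
    have h3 : Odd (lo.rev.val + hi.rev.val) := by
      obtain ⟨k, hk⟩ := hodd
      refine ⟨N - 2 - k, ?_⟩
      rw [Fin.val_rev, Fin.val_rev]
      have := lo.2
      have := hi.2
      omega
    rw [h3.neg_one_pow]
    ring
  · have h3 : Chain_Y K lo hi i j = 0 := by
      unfold Chain_Y
      rw [Matrix.add_apply, Matrix.single_apply, Matrix.single_apply, if_neg h1, if_neg h2,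
        add_zero]
    rw [h3, mul_zero, neg_zero]

theorem Chain_Mp_single {N : ℕ} (par' : Fin N → Bool) (i j : Fin N) :
    Mp par' (Matrix.single i j (1 : K)) = Matrix.single i j ((X : K[X]) ^ od par' i j) := by
  ext1 a b
  unfold Mp
  rw [Matrix.single_apply, Matrix.single_apply]
  by_cases h : i = a ∧ j = b
  · rw [if_pos h, if_pos h, h.1, h.2, map_one, mul_one]
  · rw [if_neg h, if_neg h, map_zero, mul_zero]

theorem Chain_Mp_add {N : ℕ} (par' : Fin N → Bool) (A B : Matrix (Fin N) (Fin N) K) :
    Mp par' (A + B) = Mp par' A + Mp par' B := by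
  ext1 a b
  rw [Matrix.add_apply]
  unfold Mp
  rw [Matrix.add_apply, map_add, mul_add]

theorem Chain_trace {N : ℕ} (par' : Fin N → Bool) (P : Matrix (Fin N) (Fin N) K[X])
    (lo hi : Fin N) : (P * Mp par' (Chain_Y K lo hi)).trace =
      P lo hi * X ^ od par' hi lo + P hi.rev lo.rev * X ^ od par' lo.rev hi.rev := by
  unfold Chain_Y
  rw [Chain_Mp_add, Chain_Mp_single, Chain_Mp_single, mul_add, Matrix.trace_add,
    Matrix.trace_mul_single, Matrix.trace_mul_single]
  simp

theorem Chain_Mp_transpose {N : ℕ} (par' : Fin N → Bool) (A : Matrix (Fin N) (Fin N) K) :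
    (Mp par' A.transpose).transpose = Mp par' A := by
  ext1 a b
  rw [Matrix.transpose_apply]
  unfold Mp od
  rw [Matrix.transpose_apply]
  by_cases h : par' a = par' b
  · rw [if_pos h, if_pos h.symm]
  · rw [if_neg h, if_neg (Ne.symm h)]

/-- the weight of the window `lo, ..., lo + m - 1`: the number of its odd links, plus one if its
ends have different parities -/
def wt (par : ℕ → Bool) (lo m : ℕ) : ℕ :=
  ∑ l ∈ Finset.Ico lo (lo + m - 1), (if par l = par (l + 1) then 0 else 1) +
    (if par (lo + m - 1) = par lo then 0 else 1)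

theorem Chain_refl {N : ℕ} (par : ℕ → Bool)
    (hrev : ∀ i j, i < N → j < N → (par i = par j ↔ par (N - 1 - i) = par (N - 1 - j)))
    {lo hi : ℕ} (hhi : hi < N) :
    ∑ l ∈ Finset.Ico (N - 1 - hi) (N - 1 - lo), (if par l = par (l + 1) then 0 else 1) =
      ∑ l ∈ Finset.Ico lo hi, (if par l = par (l + 1) then 0 else 1) := by
  refine Finset.sum_nbij' (fun l => N - 2 - l) (fun l => N - 2 - l) ?_ ?_ ?_ ?_ ?_
  · intro l hl
    rw [Finset.mem_Ico] at hl ⊢
    omega
  · intro l hl
    rw [Finset.mem_Ico] at hl ⊢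
    omega
  · intro l hl
    rw [Finset.mem_Ico] at hl
    omega
  · intro l hl
    rw [Finset.mem_Ico] at hl
    omega
  · intro l hl
    rw [Finset.mem_Ico] at hl
    have h1 := hrev l (l + 1) (by omega) (by omega)
    have h2 : N - 1 - l = N - 2 - l + 1 := by omega
    have h3 : N - 1 - (l + 1) = N - 2 - l := by omega
    rw [h2, h3] at h1
    by_cases h : par l = par (l + 1)
    · rw [if_pos h, if_pos (h1.1 h).symm]
    · rw [if_neg h, if_neg fun h' => h (h1.2 h'.symm)]

/-- the traces for a matrix with the links `t X ^ (0 or 1)` above the diagonal and nothing higher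
above -/
theorem Chain_key [CharZero K] {N : ℕ} (par : ℕ → Bool)
    (hrev : ∀ i j, i < N → j < N → (par i = par j ↔ par (N - 1 - i) = par (N - 1 - j)))
    {t : K} (ht : t ≠ 0) {M : Matrix (Fin N) (Fin N) K[X]}
    (h0 : ∀ i j : Fin N, i.val + 1 < j.val → M i j = 0)
    (h1 : ∀ i j : Fin N, i.val + 1 = j.val →
      M i j = X ^ (if par i.val = par (i.val + 1) then 0 else 1) * C t)
    {lo m : ℕ} (hm1 : 1 ≤ m) {loF hiF : Fin N} (hloF : loF.val = lo) (hhiF : hiF.val = lo + m - 1) :
    (∀ j, j + 1 < m → (M ^ j * Mp (fun i : Fin N => par i.val) (Chain_Y K loF hiF)).trace = 0) ∧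
    ((M ^ (m - 1) * Mp (fun i : Fin N => par i.val) (Chain_Y K loF hiF)).trace).coeff
      (wt par lo m) ≠ 0 := by
  have hhi : lo + m - 1 < N := hhiF ▸ hiF.2
  constructor
  · intro j hj
    rw [Chain_trace, band_zero (fun i : Fin N => i.val) h0 j loF hiF (by
        show loF.val + j < hiF.val
        omega),
      band_zero (fun i : Fin N => i.val) h0 j hiF.rev loF.rev (by
        show hiF.rev.val + j < loF.rev.val
        rw [Fin.val_rev, Fin.val_rev]
        omega), zero_mul, zero_mul, add_zero]
  · have hprod : ∀ a b : ℕ, ∏ l ∈ Finset.Ico a b,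
        ((X : K[X]) ^ (if par l = par (l + 1) then 0 else 1) * C t) =
        X ^ (∑ l ∈ Finset.Ico a b, (if par l = par (l + 1) then 0 else 1)) * C t ^ (b - a) := by
      intro a b
      rw [Finset.prod_mul_distrib, Finset.prod_pow_eq_pow_sum, Finset.prod_const, Nat.card_Ico]
    have hrl : hiF.rev.val = N - 1 - (lo + m - 1) := by rw [Fin.val_rev]; omega
    have hrh : loF.rev.val = N - 1 - lo := by rw [Fin.val_rev]; omega
    rw [Chain_trace, band_prod h0
        (fun l => (X : K[X]) ^ (if par l = par (l + 1) then 0 else 1) * C t) h1 (m - 1) loF hiF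
        (by omega),
      band_prod h0
        (fun l => (X : K[X]) ^ (if par l = par (l + 1) then 0 else 1) * C t) h1 (m - 1)
        hiF.rev loF.rev (by omega), hprod, hprod, hrl, hrh, Chain_refl par hrev hhi, hloF, hhiF]
    have e1 : od (fun i : Fin N => par i.val) hiF loF =
        if par (lo + m - 1) = par lo then 0 else 1 := by
      show (if par hiF.val = par loF.val then 0 else 1) = _
      rw [hloF, hhiF]
    have e2 : od (fun i : Fin N => par i.val) loF.rev hiF.rev =
        if par (lo + m - 1) = par lo then 0 else 1 := by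
      show (if par loF.rev.val = par hiF.rev.val then 0 else 1) = _
      have h2 := hrev (lo + m - 1) lo hhi (by omega)
      rw [hrl, hrh]
      by_cases h : par (lo + m - 1) = par lo
      · rw [if_pos h, if_pos (h2.1 h).symm]
      · rw [if_neg h, if_neg fun h' => h (h2.2 h'.symm)]
    have e3 : lo + m - 1 - lo = m - 1 := by omega
    have e4 : N - 1 - lo - (N - 1 - (lo + m - 1)) = m - 1 := by omega
    rw [e1, e2, e3, e4]
    have e5 : (X : K[X]) ^ (∑ l ∈ Finset.Ico lo (lo + m - 1),
          (if par l = par (l + 1) then 0 else 1)) * C t ^ (m - 1) *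
          X ^ (if par (lo + m - 1) = par lo then 0 else 1) +
        (X : K[X]) ^ (∑ l ∈ Finset.Ico lo (lo + m - 1),
          (if par l = par (l + 1) then 0 else 1)) * C t ^ (m - 1) *
          X ^ (if par (lo + m - 1) = par lo then 0 else 1) =
        C (2 * t ^ (m - 1)) * X ^ wt par lo m := by
      unfold wt
      rw [pow_add, map_mul, map_pow, map_ofNat]
      ring
    rw [e5, coeff_C_mul, coeff_X_pow_self, mul_one]
    exact mul_ne_zero two_ne_zero (pow_ne_zero _ ht)

/-- the test elements of the chain form; the parity is given by a function on `ℕ` which is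
compatible with the reflection (up to a global change) -/
theorem chain_tests [CharZero K] {g : Type*} [LieRing g] [LieAlgebra K g] {θ : Invol K g} {N : ℕ}
    {r : Rz K (Fin N) θ} (hJ : r.IsJ (Jalt K N) ((-1) ^ (N + 1))) (par : ℕ → Bool)
    (hpar : r.IsPar fun i => par i.val)
    (hrev : ∀ i j, i < N → j < N → (par i = par j ↔ par (N - 1 - i) = par (N - 1 - j)))
    {l : ℕ} (m b : Fin l → ℕ) (hm : ∀ i, Even (m i)) (hm1 : ∀ i, 1 ≤ m i)
    (hw : ∀ i, ∃ lo, lo + m i ≤ N ∧ wt par lo (m i) = b i) : r.Tests m b := by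
  obtain ⟨p, hp⟩ := hJ.surj (skew_Ndn (K := K) N)
  obtain ⟨q, hq⟩ := hJ.surj (skew_Nup (K := K) N)
  refine ⟨p, q, fun s t hst i => ?_⟩
  obtain ⟨lo, hlo, hb⟩ := hw i
  have hmi := hm1 i
  let loF : Fin N := ⟨lo, by omega⟩
  let hiF : Fin N := ⟨lo + m i - 1, by omega⟩
  have hodd : Odd (hiF.val + loF.val) := by
    obtain ⟨k, hk⟩ := hm i
    refine ⟨lo + k - 1, ?_⟩
    show lo + m i - 1 + lo = _
    omega
  have hY := Chain_Y_skew (K := K) hodd
  have hM : r.M (s • p + t • q) =
      Mp (fun i : Fin N => par i.val) (s • Ndn K N + t • Nup K N) := by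
    rw [hpar.M_eq, map_add, map_smul, map_smul, hp, hq]
  rw [hM]
  by_cases ht : t = 0
  · have hs : s ≠ 0 := fun h => hst ⟨h, ht⟩
    obtain ⟨a, ha⟩ := hJ.surj (skew_Jalt (A := (Chain_Y K loF hiF).transpose) fun i j => by
      rw [Matrix.transpose_apply, Matrix.transpose_apply, hY j i, add_comm j.val])
    refine ⟨a, ?_⟩
    have hMT : ∀ j, (Mp (fun i : Fin N => par i.val) (s • Ndn K N + t • Nup K N) ^ j *
        r.M a).trace = ((Mp (fun i : Fin N => par i.val) (s • Ndn K N + t • Nup K N)).transpose ^ j *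
        Mp (fun i : Fin N => par i.val) (Chain_Y K loF hiF)).trace := by
      intro j
      rw [hpar.M_eq, ha, ← Matrix.trace_transpose, Matrix.transpose_mul, Matrix.transpose_pow,
        Chain_Mp_transpose, Matrix.trace_mul_comm]
    simp only [hMT]
    have key := Chain_key (K := K) par hrev hs
      (M := (Mp (fun i : Fin N => par i.val) (s • Ndn K N + t • Nup K N)).transpose)
      (fun i j hij => by
        have n1 : Ndn K N j i = 0 := if_neg (by omega)
        have n2 : Nup K N j i = 0 := if_neg (by omega)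
        rw [Matrix.transpose_apply]
        unfold Mp
        rw [Matrix.add_apply, Matrix.smul_apply, Matrix.smul_apply, n1, n2,
          smul_zero, smul_zero, add_zero, map_zero, mul_zero])
      (fun i j hij => by
        have n1 : Ndn K N j i = 1 := if_pos hij
        have n2 : Nup K N j i = 0 := if_neg (by omega)
        rw [Matrix.transpose_apply]
        unfold Mp
        rw [Matrix.add_apply, Matrix.smul_apply, Matrix.smul_apply, n1, n2,
          smul_zero, add_zero, smul_eq_mul, mul_one, hij]
        congr 2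
        show (if par j.val = par i.val then 0 else 1) = _
        by_cases h : par i.val = par j.val
        · rw [if_pos h, if_pos h.symm]
        · rw [if_neg h, if_neg (Ne.symm h)])
      (lo := lo) (m := m i) hmi (loF := loF) (hiF := hiF) rfl rfl
    rw [hb] at key
    exact key
  · obtain ⟨a, ha⟩ := hJ.surj (skew_Jalt (A := Chain_Y K loF hiF) hY)
    refine ⟨a, ?_⟩
    rw [hpar.M_eq, ha]
    have key := Chain_key (K := K) par hrev ht
      (M := Mp (fun i : Fin N => par i.val) (s • Ndn K N + t • Nup K N))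
      (fun i j hij => by
        have n1 : Ndn K N i j = 0 := if_neg (by omega)
        have n2 : Nup K N i j = 0 := if_neg (by omega)
        unfold Mp
        rw [Matrix.add_apply, Matrix.smul_apply, Matrix.smul_apply, n1, n2,
          smul_zero, smul_zero, add_zero, map_zero, mul_zero])
      (fun i j hij => by
        have n1 : Ndn K N i j = 0 := if_neg (by omega)
        have n2 : Nup K N i j = 1 := if_pos hij
        unfold Mp
        rw [Matrix.add_apply, Matrix.smul_apply, Matrix.smul_apply, n1, n2,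
          smul_zero, zero_add, smul_eq_mul, mul_one, hij]
        rfl)
      (lo := lo) (m := m i) hmi (loF := loF) (hiF := hiF) rfl rfl
    rw [hb] at key
    exact key

end Pool.Agent.helper49.QA
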