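import Mathlib
import Pool.Agent.helper49.QA.Real

/-!
# A point with a small stabiliser

`r` is a realisation such that `a1 ∈ g_1` and `a0 ∈ g_0` are diagonal matrices `diag λ`, `diag μ`.

Proof of `stab_diag`.  Let `x = e (x_0 + x_1)` be in the stabiliser of `pnt (a0 + a1)`.  For
`y = e (y_0)`: `[x, y] = e ([x_0, y_0] + [x_1, y_0])`, for `y = e (y_1)`: `[x, y] = e [x_0, y_1]`.
With the invariance of the trace form (`tr (ρ a ρ [x, y]) = tr (ρ [a, x] ρ y)`), the orthogonality of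
`g_0` and `g_1` (`inv`) and the nondegeneracy of the form on `g` (`pair`: if
`tr (ρ z ρ y) = 0` for all `y ∈ g` then `tr (ρ z a) = 0` for all matrices `a`, so `z = 0`) we get
`[a1, x_0] = 0` (it is in `g_1`) and `[a0, x_0] + [a1, x_1] = 0` (it is in `g_0`).  In matrices:
`(λ i - λ j) (x_0) i j = 0` and `(μ i - μ j) (x_0) i j + (λ i - λ j) (x_1) i j = 0`.  Let
`i ≠ j`.  If `λ i ≠ λ j` then `(x_0) i j = 0` and `(x_1) i j = 0`.  If `λ i = λ j` then
`(x_1) i j = 0` by `hx` and `μ i ≠ μ j`, so `(x_0) i j = 0`.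
-/

set_option autoImplicit false

namespace Pool.Agent.helper49.QA

open Polynomial Pool.Agent.helper5.AS
open Pool.Agent.helper5.ASQ (Invol even oddc brk IsContraction)

variable {K : Type*} [Field K] [CharZero K] {n : Type*} [Fintype n] [DecidableEq n] {g : Type*}
  [LieRing g] [LieAlgebra K g] {θ : Invol K g} (r : Rz K n θ)
  {k : Type*} [LieRing k] [LieAlgebra K k]

theorem Rz.index_nondeg {z : g} (h : ∀ y : g, (r.ρ z * r.ρ y).trace = 0) : z = 0 := by
  have h1 : ∀ a : Matrix n n K, (r.ρ z * a).trace = 0 := fun a => by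
    rw [← r.pair z a]
    exact h (r.Y a)
  have h2 : r.ρ z = 0 := by
    ext i j
    have h3 := h1 (Matrix.single j i 1)
    rw [Matrix.trace_mul_single] at h3
    rw [Matrix.zero_apply]
    simpa using h3
  exact r.inj (by rw [h2, map_zero])

theorem Rz.index_orth {u v : g} (hu : θ.hom u = u) (hv : θ.hom v = -v) :
    (r.ρ u * r.ρ v).trace = 0 := by
  have h := r.inv u v
  rw [hu, hv, map_neg, mul_neg, Matrix.trace_neg] at h
  exact self_eq_neg.1 h.symm

theorem Rz.index_orth' {u v : g} (hu : θ.hom u = -u) (hv : θ.hom v = v) :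
    (r.ρ u * r.ρ v).trace = 0 := by
  rw [Matrix.trace_mul_comm]
  exact r.index_orth hv hu

theorem Rz.index_inv (a x y : g) :
    (r.ρ ⁅a, x⁆ * r.ρ y).trace = (r.ρ a * r.ρ ⁅x, y⁆).trace := by
  rw [r.lie, r.lie, sub_mul, mul_sub, Matrix.trace_sub, Matrix.trace_sub, mul_assoc, mul_assoc]
  congr 1
  rw [Matrix.trace_mul_comm, mul_assoc]

theorem Rz.index_key {e : g ≃ₗ[K] k} (he : IsContraction θ e) {a : g} {x : k}
    (hs : x ∈ stab (r.pnt e a)) (y : g) :
    (r.ρ a * r.ρ (brk θ (e.symm x) y)).trace = 0 := by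
  have h : r.τ a (e.symm ⁅x, e y⁆) = 0 := hs (e y)
  have h2 : ⁅x, e y⁆ = e (brk θ (e.symm x) y) := by
    rw [← he, LinearEquiv.apply_symm_apply]
  rw [h2, LinearEquiv.symm_apply_apply] at h
  exact h

theorem Rz.index_first {e : g ≃ₗ[K] k} (he : IsContraction θ e) {a0 a1 : g}
    (h0 : θ.hom a0 = a0) (h1 : θ.hom a1 = -a1) {x : k} (hs : x ∈ stab (r.pnt e (a0 + a1))) :
    ⁅a1, even θ (e.symm x)⁆ = 0 := by
  set z := e.symm x with hz
  have hz0 := Pool.Agent.helper5.ASQ.hom_even θ z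
  refine r.index_nondeg fun y => ?_
  have hy0 := Pool.Agent.helper5.ASQ.hom_even θ y
  have hy1 := Pool.Agent.helper5.ASQ.hom_oddc θ y
  have hodd : θ.hom ⁅a1, even θ z⁆ = -⁅a1, even θ z⁆ := by
    rw [LieHom.map_lie, h1, hz0, neg_lie]
  have hodd2 : θ.hom ⁅even θ z, oddc θ y⁆ = -⁅even θ z, oddc θ y⁆ := by
    rw [LieHom.map_lie, hz0, hy1, lie_neg]
  have hkey := r.index_key he hs (oddc θ y)
  rw [brk, Pool.Agent.helper5.ASQ.even_of_neg θ hy1, Pool.Agent.helper5.ASQ.oddc_of_neg θ hy1,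
    lie_zero, lie_zero, zero_add, add_zero, map_add, add_mul, Matrix.trace_add,
    r.index_orth h0 hodd2, zero_add] at hkey
  rw [← Pool.Agent.helper5.ASQ.even_add_oddc θ y, map_add, mul_add, Matrix.trace_add,
    r.index_orth' hodd hy0, zero_add, r.index_inv]
  exact hkey

theorem Rz.index_second {e : g ≃ₗ[K] k} (he : IsContraction θ e) {a0 a1 : g}
    (h0 : θ.hom a0 = a0) (h1 : θ.hom a1 = -a1) {x : k} (hs : x ∈ stab (r.pnt e (a0 + a1))) :
    ⁅a0, even θ (e.symm x)⁆ + ⁅a1, oddc θ (e.symm x)⁆ = 0 := by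
  set z := e.symm x with hz
  have hz0 := Pool.Agent.helper5.ASQ.hom_even θ z
  have hz1 := Pool.Agent.helper5.ASQ.hom_oddc θ z
  refine r.index_nondeg fun y => ?_
  have hy0 := Pool.Agent.helper5.ASQ.hom_even θ y
  have hy1 := Pool.Agent.helper5.ASQ.hom_oddc θ y
  have hev : θ.hom (⁅a0, even θ z⁆ + ⁅a1, oddc θ z⁆) = ⁅a0, even θ z⁆ + ⁅a1, oddc θ z⁆ := by
    rw [map_add, LieHom.map_lie, LieHom.map_lie, h0, h1, hz0, hz1, neg_lie, lie_neg, neg_neg]
  have hev2 : θ.hom ⁅even θ z, even θ y⁆ = ⁅even θ z, even θ y⁆ := by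
    rw [LieHom.map_lie, hz0, hy0]
  have hodd2 : θ.hom ⁅oddc θ z, even θ y⁆ = -⁅oddc θ z, even θ y⁆ := by
    rw [LieHom.map_lie, hz1, hy0, neg_lie]
  have hkey := r.index_key he hs (even θ y)
  rw [brk, Pool.Agent.helper5.ASQ.even_of_fix θ hy0, Pool.Agent.helper5.ASQ.oddc_of_fix θ hy0,
    lie_zero, add_zero, map_add, map_add, add_mul, mul_add, mul_add, Matrix.trace_add,
    Matrix.trace_add, Matrix.trace_add, r.index_orth h0 hodd2, r.index_orth' h1 hev2, add_zero,
    zero_add] at hkey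
  rw [← Pool.Agent.helper5.ASQ.even_add_oddc θ y, map_add (r.ρ) (even θ y), mul_add,
    Matrix.trace_add, r.index_orth hev hy1, add_zero, map_add, add_mul, Matrix.trace_add,
    r.index_inv, r.index_inv]
  exact hkey

theorem index_diag (d : n → K) (A : Matrix n n K) (i j : n) :
    (Matrix.diagonal d * A - A * Matrix.diagonal d) i j = (d i - d j) * A i j := by
  rw [Matrix.sub_apply, Matrix.diagonal_mul, Matrix.mul_diagonal]
  ring

theorem Rz.stab_diag {e : g ≃ₗ[K] k} (he : IsContraction θ e) {a0 a1 : g}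
    (h0 : θ.hom a0 = a0) (h1 : θ.hom a1 = -a1) {lam mu : n → K}
    (hlam : r.ρ a1 = Matrix.diagonal lam) (hmu : r.ρ a0 = Matrix.diagonal mu)
    (hx : ∀ x : g, θ.hom x = -x → ∀ i j, i ≠ j → lam i = lam j → r.ρ x i j = 0)
    (hne : ∀ i j, i ≠ j → lam i = lam j → mu i ≠ mu j) {x : k}
    (hs : x ∈ stab (r.pnt e (a0 + a1))) : ∀ i j, i ≠ j → r.ρ (e.symm x) i j = 0 := by
  intro i j hij
  have e1 := r.index_first he h0 h1 hs
  have e2 := r.index_second he h0 h1 hs
  set z := e.symm x with hz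
  have m1 : (lam i - lam j) * r.ρ (even θ z) i j = 0 := by
    rw [← index_diag, ← hlam, ← r.lie, e1, map_zero, Matrix.zero_apply]
  have m2 : (mu i - mu j) * r.ρ (even θ z) i j + (lam i - lam j) * r.ρ (oddc θ z) i j = 0 := by
    rw [← index_diag, ← index_diag, ← hlam, ← hmu, ← r.lie, ← r.lie, ← Matrix.add_apply,
      ← map_add, e2, map_zero, Matrix.zero_apply]
  have hsum : r.ρ z i j = r.ρ (even θ z) i j + r.ρ (oddc θ z) i j := by
    conv_lhs => rw [← Pool.Agent.helper5.ASQ.even_add_oddc θ z]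
    rw [map_add, Matrix.add_apply]
  rw [hsum]
  by_cases hl : lam i = lam j
  · have hx1 := hx (oddc θ z) (Pool.Agent.helper5.ASQ.hom_oddc θ z) i j hij hl
    rw [hx1, mul_zero, add_zero] at m2
    have hmu' : mu i - mu j ≠ 0 := sub_ne_zero.2 (hne i j hij hl)
    rw [(mul_eq_zero.1 m2).resolve_left hmu', hx1, add_zero]
  · have hl' : lam i - lam j ≠ 0 := sub_ne_zero.2 hl
    have hz0 := (mul_eq_zero.1 m1).resolve_left hl'
    rw [hz0, mul_zero, zero_add] at m2
    rw [hz0, (mul_eq_zero.1 m2).resolve_left hl', add_zero]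

/-- `f` is a linear map which is injective on the diagonals of the diagonal matrices in `g` -/
theorem Rz.finrank_stab_le {e : g ≃ₗ[K] k} (he : IsContraction θ e) {a0 a1 : g}
    (h0 : θ.hom a0 = a0) (h1 : θ.hom a1 = -a1) {lam mu : n → K}
    (hlam : r.ρ a1 = Matrix.diagonal lam) (hmu : r.ρ a0 = Matrix.diagonal mu)
    (hx : ∀ x : g, θ.hom x = -x → ∀ i j, i ≠ j → lam i = lam j → r.ρ x i j = 0)
    (hne : ∀ i j, i ≠ j → lam i = lam j → mu i ≠ mu j) {l : ℕ} (f : (n → K) →ₗ[K] (Fin l → K))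
    (hf : ∀ (x : g) (d : n → K), r.ρ x = Matrix.diagonal d → f d = 0 → d = 0) :
    Module.finrank K (stab (r.pnt e (a0 + a1))) ≤ l := by
  let F : stab (r.pnt e (a0 + a1)) →ₗ[K] (Fin l → K) :=
    f ∘ₗ Matrix.diagLinearMap n K K ∘ₗ r.ρ ∘ₗ (e.symm : k →ₗ[K] g) ∘ₗ Submodule.subtype _
  have hF : Function.Injective F := by
    rw [← LinearMap.ker_eq_bot, LinearMap.ker_eq_bot']
    intro x hxz
    have hd := r.stab_diag he h0 h1 hlam hmu hx hne x.2
    have hdiag : r.ρ (e.symm x.1) = Matrix.diagonal (Matrix.diag (r.ρ (e.symm x.1))) := by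
      ext i j
      by_cases hij : i = j
      · rw [hij, Matrix.diagonal_apply_eq]
        rfl
      · rw [Matrix.diagonal_apply_ne _ hij]
        exact hd i j hij
    have h2 : Matrix.diag (r.ρ (e.symm x.1)) = 0 := hf _ _ hdiag hxz
    rw [h2] at hdiag
    have h3 : r.ρ (e.symm x.1) = r.ρ 0 := by
      rw [hdiag, map_zero]
      exact Matrix.diagonal_zero
    have h4 : e.symm x.1 = 0 := r.inj h3
    exact Subtype.ext (e.symm.map_eq_zero_iff.1 h4)
  have h := LinearMap.finrank_le_finrank_of_injective hF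
  rwa [Module.finrank_fin_fun] at h

end Pool.Agent.helper49.QA
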