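import Mathlib

/-!
# Normal forms of bilinear forms and of isometric involutions, in matrix form

All the matrices are over an algebraically closed field of characteristic zero; `n`, `m` are two
index types of the same size.  In each theorem we find `P : Matrix m n K` with the inverse
`Q : Matrix n m K`.
-/

set_option autoImplicit false

namespace Pool.Agent.helper49.QA

variable {K : Type*} [Field K] [CharZero K]
  {n : Type*} [Fintype n] [DecidableEq n] {m : Type*} [Fintype m] [DecidableEq m]

/-- the diagonal form of an involutive matrix -/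
theorem LAInvol_diag {S : Matrix n n K} (hS : S * S = 1) :
    ∃ (p q : ℕ) (P : Matrix (Fin p ⊕ Fin q) n K) (Q : Matrix n (Fin p ⊕ Fin q) K),
      p + q = Fintype.card n ∧ P * Q = 1 ∧ Q * P = 1 ∧
      P * S * Q = Matrix.diagonal (Sum.elim (fun _ => 1) (fun _ => -1)) := by
  classical
  let f : (n → K) →ₗ[K] (n → K) := Matrix.toLin' S
  have hf : ∀ x, f (f x) = x := by
    intro x
    show Matrix.toLin' S (Matrix.toLin' S x) = x
    rw [Matrix.toLin'_apply, Matrix.toLin'_apply, Matrix.mulVec_mulVec, hS, Matrix.one_mulVec]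
  let V : Submodule K (n → K) := LinearMap.ker (f - LinearMap.id)
  let W : Submodule K (n → K) := LinearMap.ker (f + LinearMap.id)
  have hV : ∀ x, x ∈ V ↔ f x = x := fun x => by
    rw [LinearMap.mem_ker, LinearMap.sub_apply, LinearMap.id_apply, sub_eq_zero]
  have hW : ∀ x, x ∈ W ↔ f x = -x := fun x => by
    rw [LinearMap.mem_ker, LinearMap.add_apply, LinearMap.id_apply, add_eq_zero_iff_eq_neg]
  have h2 : (2 : K) ≠ 0 := two_ne_zero
  have hVW : IsCompl V W := by
    constructor
    · rw [Submodule.disjoint_def]
      intro x hx hx'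
      rw [hV] at hx
      rw [hW, hx] at hx'
      have h3 : (2 : K) • x = 0 := by
        rw [two_smul]
        nth_rewrite 1 [hx']
        exact neg_add_cancel x
      exact (smul_eq_zero.1 h3).resolve_left h2
    · rw [codisjoint_iff, eq_top_iff]
      intro x _
      rw [Submodule.mem_sup]
      refine ⟨(2 : K)⁻¹ • (x + f x), (hV _).2 ?_, (2 : K)⁻¹ • (x - f x), (hW _).2 ?_, ?_⟩
      · rw [map_smul, map_add, hf, add_comm]
      · rw [map_smul, map_sub, hf, ← smul_neg, neg_sub]
      · rw [← smul_add, add_add_sub_cancel, ← two_smul K x, smul_smul, inv_mul_cancel₀ h2,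
          one_smul]
  let b : Module.Basis (Fin (Module.finrank K V) ⊕ Fin (Module.finrank K W)) K (n → K) :=
    ((Module.finBasis K V).prod (Module.finBasis K W)).map (Submodule.prodEquivOfIsCompl V W hVW)
  refine ⟨Module.finrank K V, Module.finrank K W, b.toMatrix (Pi.basisFun K n),
    (Pi.basisFun K n).toMatrix b, ?_, Module.Basis.toMatrix_mul_toMatrix_flip _ _,
    Module.Basis.toMatrix_mul_toMatrix_flip _ _, ?_⟩
  · have h3 := Module.finrank_eq_card_basis b
    rw [Module.finrank_fintype_fun_eq_card, Fintype.card_sum, Fintype.card_fin,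
      Fintype.card_fin] at h3
    exact h3.symm
  · have h3 : LinearMap.toMatrix (Pi.basisFun K n) (Pi.basisFun K n) f = S := by
      show LinearMap.toMatrix' (Matrix.toLin' S) = S
      exact LinearMap.toMatrix'_toLin' S
    have h4 := basis_toMatrix_mul_linearMap_toMatrix_mul_basis_toMatrix
      (b := b) (b' := Pi.basisFun K n) (c := b) (c' := Pi.basisFun K n) (f := f)
    rw [h3] at h4
    rw [h4]
    have h5 : ∀ j, f (b j) = (Sum.elim (fun _ => (1 : K)) (fun _ => (-1 : K)) j) • b j := by
      intro j
      cases j with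
      | inl j =>
        have h6 : b (Sum.inl j) = ((Module.finBasis K V) j : n → K) := by
          simp [b]
        rw [h6, Sum.elim_inl, one_smul]
        exact (hV _).1 ((Module.finBasis K V) j).2
      | inr j =>
        have h6 : b (Sum.inr j) = ((Module.finBasis K W) j : n → K) := by
          simp [b]
        rw [h6, Sum.elim_inr, neg_smul, one_smul]
        exact (hW _).1 ((Module.finBasis K W) j).2
    ext i j
    rw [LinearMap.toMatrix_apply, h5, map_smul, Module.Basis.repr_self, Finsupp.smul_apply,
      Finsupp.single_apply, Matrix.diagonal_apply, smul_eq_mul]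
    by_cases hij : i = j
    · subst hij
      rw [if_pos rfl, if_pos rfl, mul_one]
    · rw [if_neg (Ne.symm hij), if_neg hij, mul_zero]

omit [CharZero K] in
theorem LAInvol_trace {p q : ℕ} {S : Matrix n n K} {P : Matrix (Fin p ⊕ Fin q) n K}
    {Q : Matrix n (Fin p ⊕ Fin q) K} (hQP : Q * P = 1)
    (h : P * S * Q = Matrix.diagonal (Sum.elim (fun _ => 1) (fun _ => -1))) :
    S.trace = (p : K) - (q : K) := by
  have h1 : (P * S * Q).trace = S.trace := by
    rw [Matrix.trace_mul_comm, ← Matrix.mul_assoc, hQP, Matrix.one_mul]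
  rw [← h1, h, Matrix.trace_diagonal, Fintype.sum_sum_type]
  simp
  ring

/-- two involutive matrices with the same size and the same trace are conjugate -/
theorem exists_equiv_invol (hc : Fintype.card m = Fintype.card n)
    {S : Matrix n n K} {S' : Matrix m m K} (hS : S * S = 1) (hS' : S' * S' = 1)
    (ht : S.trace = S'.trace) :
    ∃ (P : Matrix m n K) (Q : Matrix n m K), P * Q = 1 ∧ Q * P = 1 ∧ P * S * Q = S' := by
  obtain ⟨p, q, P, Q, hpq, h1, h2, h3⟩ := LAInvol_diag hS
  obtain ⟨p', q', P', Q', hpq', h1', h2', h3'⟩ := LAInvol_diag hS'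
  rw [LAInvol_trace h2 h3, LAInvol_trace h2' h3'] at ht
  have h4 : (p : K) + q' = p' + q := by linear_combination ht
  have h5 : p + q' = p' + q := by exact_mod_cast h4
  obtain rfl : p = p' := by omega
  obtain rfl : q = q' := by omega
  refine ⟨Q' * P, Q * P', ?_, ?_, ?_⟩
  · rw [Matrix.mul_assoc, ← Matrix.mul_assoc P, h1, Matrix.one_mul, h2']
  · rw [Matrix.mul_assoc, ← Matrix.mul_assoc P', h1', Matrix.one_mul, h2]
  · have h6 : Q' * P * S * (Q * P') = Q' * (P * S * Q) * P' := by
      simp only [Matrix.mul_assoc]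
    rw [h6, h3, ← h3']
    have h7 : Q' * (P' * S' * Q') * P' = (Q' * P') * S' * (Q' * P') := by
      simp only [Matrix.mul_assoc]
    rw [h7, h2', Matrix.one_mul, Matrix.mul_one]

/-- the trace of an involutive matrix: `p` is the dimension of the eigenspace of `1` and `q` that of
`-1` -/
theorem exists_trace {S : Matrix n n K} (hS : S * S = 1) :
    ∃ p q : ℕ, p + q = Fintype.card n ∧ S.trace = (p : K) - (q : K) := by
  obtain ⟨p, q, P, Q, hpq, -, h2, h3⟩ := LAInvol_diag hS
  exact ⟨p, q, hpq, LAInvol_trace h2 h3⟩

end Pool.Agent.helper49.QA
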