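import Mathlib

/-!
# Normal forms of bilinear forms and of isometric involutions, in matrix form

All the matrices are over an algebraically closed field of characteristic zero; `n`, `m` are two
index types of the same size.  In each theorem we find `P : Matrix m n K` with the inverse
`Q : Matrix n m K`.
-/

set_option autoImplicit false

namespace Pool.Agent.helper49.QA

variable {K : Type*} [Field K] [CharZero K]
  {n : Type*} [Fintype n] [DecidableEq n] {m : Type*} [Fintype m] [DecidableEq m]

omit [CharZero K] in
private theorem assoc_symm [Invertible (2 : K)] {J : Matrix n n K} (hJ : J.transpose = J) :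
    QuadraticMap.associated (J.toQuadraticForm') = Matrix.toLinearMap₂' K J := by
  have hs : ∀ x y : n → K, Matrix.toLinearMap₂' K J x y = Matrix.toLinearMap₂' K J y x := by
    intro x y
    rw [Matrix.toLinearMap₂'_apply', Matrix.toLinearMap₂'_apply']
    rw [← Matrix.dotProduct_transpose_mulVec, hJ]
  exact QuadraticMap.associated_left_inverse K hs

private theorem key [IsAlgClosed K] {J J' : Matrix n n K} (hJ : J.transpose = J)
    (hJ' : J'.transpose = J') (hd : J.det ≠ 0) (hd' : J'.det ≠ 0) :
    ∃ (P : Matrix n n K) (Q : Matrix n n K), P * Q = 1 ∧ Q * P = 1 ∧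
      P.transpose * J' * P = J := by
  let _ : Invertible (2 : K) := invertibleOfNonzero two_ne_zero
  have sep : ∀ {L : Matrix n n K}, L.transpose = L → L.det ≠ 0 →
      (QuadraticMap.associated (L.toQuadraticForm')).SeparatingLeft := by
    intro L hL hdL
    rw [assoc_symm hL]
    exact Matrix.SeparatingLeft.toLinearMap₂' (Matrix.separatingLeft_iff_det_ne_zero.mpr hdL)
  obtain ⟨e⟩ := QuadraticForm.equivalent_of_isAlgClosed J.toQuadraticForm' J'.toQuadraticForm'
    (sep hJ hd) (sep hJ' hd')
  have hcomp : J'.toQuadraticForm'.comp (e.toLinearEquiv : (n → K) →ₗ[K] (n → K)) =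
      J.toQuadraticForm' := by
    ext x
    exact e.map_app x
  have hmat : ∀ {L : Matrix n n K}, L.transpose = L →
      QuadraticForm.toMatrix' L.toQuadraticForm' = L := by
    intro L hL
    rw [QuadraticForm.toMatrix', assoc_symm hL]
    exact LinearMap.toMatrix'_toLinearMap₂' L
  refine ⟨LinearMap.toMatrix' (e.toLinearEquiv : (n → K) →ₗ[K] (n → K)),
    LinearMap.toMatrix' (e.toLinearEquiv.symm : (n → K) →ₗ[K] (n → K)), ?_, ?_, ?_⟩
  · rw [← LinearMap.toMatrix'_comp, ← LinearMap.toMatrix'_id]
    exact congrArg _ (LinearMap.ext fun x => e.toLinearEquiv.apply_symm_apply x)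
  · rw [← LinearMap.toMatrix'_comp, ← LinearMap.toMatrix'_id]
    exact congrArg _ (LinearMap.ext fun x => e.toLinearEquiv.symm_apply_apply x)
  · have h := QuadraticForm.toMatrix'_comp J'.toQuadraticForm'
      (e.toLinearEquiv : (n → K) →ₗ[K] (n → K))
    rw [hcomp, hmat hJ, hmat hJ'] at h
    exact h.symm

/-- two nondegenerate symmetric matrices of the same size are equivalent (orthogonal bases, square
roots of the diagonal entries) -/
theorem exists_equiv_symm [IsAlgClosed K] (hc : Fintype.card m = Fintype.card n)
    {J : Matrix n n K} {J' : Matrix m m K} (hJ : J.transpose = J) (hJ' : J'.transpose = J')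
    (hd : J.det ≠ 0) (hd' : J'.det ≠ 0) :
    ∃ (P : Matrix m n K) (Q : Matrix n m K), P * Q = 1 ∧ Q * P = 1 ∧
      P.transpose * J' * P = J := by
  obtain e : m ≃ n := Fintype.equivOfCardEq hc
  obtain ⟨P, Q, h1, h2, h3⟩ := key (J := J) (J' := J'.submatrix e.symm e.symm) hJ
    (by rw [Matrix.transpose_submatrix, hJ']) hd
    (by rw [Matrix.det_submatrix_equiv_self]; exact hd')
  refine ⟨P.submatrix e id, Q.submatrix id e, ?_, ?_, ?_⟩
  · rw [show P.submatrix e id * Q.submatrix id e = (P * Q).submatrix e e from
      Matrix.submatrix_mul_equiv P Q e (Equiv.refl n) e, h1]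
    simp
  · rw [show Q.submatrix id e * P.submatrix e id = (Q * P).submatrix id id from
      Matrix.submatrix_mul_equiv Q P id e id, h2]
    simp
  · have hJe : J' = (J'.submatrix e.symm e.symm).submatrix e e := by
      ext i j; simp
    rw [hJe, Matrix.transpose_submatrix]
    rw [show P.transpose.submatrix id e * (J'.submatrix e.symm e.symm).submatrix e e =
      (P.transpose * J'.submatrix e.symm e.symm).submatrix id e from
      Matrix.submatrix_mul_equiv _ _ id e e]
    rw [show (P.transpose * J'.submatrix e.symm e.symm).submatrix id e * P.submatrix e id =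
      (P.transpose * J'.submatrix e.symm e.symm * P).submatrix id id from
      Matrix.submatrix_mul_equiv _ _ id e id, h3]
    simp

end Pool.Agent.helper49.QA
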