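import Mathlib
import Pool.Agent.helper49.QA.LASymm
import Pool.Agent.helper49.QA.LASkew
import Pool.Agent.helper49.QA.LAInvol

/-!
# Normal forms of bilinear forms and of isometric involutions, in matrix form

All the matrices are over an algebraically closed field of characteristic zero; `n`, `m` are two
index types of the same size.  In each theorem we find `P : Matrix m n K` with the inverse
`Q : Matrix n m K`.
-/

set_option autoImplicit false

namespace Pool.Agent.helper49.QA

variable {K : Type*} [Field K] [CharZero K]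
  {n : Type*} [Fintype n] [DecidableEq n] {m : Type*} [Fintype m] [DecidableEq m]

/-- the common block form of a form and of an isometric involution -/
theorem LAPair_block {κ : K} {J S : Matrix n n K} (hJ : J.transpose = κ • J) (hd : J.det ≠ 0)
    (hS : S * S = 1) (hSJ : S.transpose * J * S = J) :
    ∃ (p q : ℕ) (P : Matrix (Fin p ⊕ Fin q) n K) (Q : Matrix n (Fin p ⊕ Fin q) K)
      (A : Matrix (Fin p) (Fin p) K) (B : Matrix (Fin q) (Fin q) K),
      p + q = Fintype.card n ∧ P * Q = 1 ∧ Q * P = 1 ∧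
      P * S * Q = Matrix.diagonal (Sum.elim (fun _ => 1) (fun _ => -1)) ∧
      Q.transpose * J * Q = Matrix.fromBlocks A 0 0 B ∧ A.transpose = κ • A ∧
      B.transpose = κ • B ∧ A.det ≠ 0 ∧ B.det ≠ 0 := by
  obtain ⟨p, q, P, Q, hpq, h1, h2, h3⟩ := LAInvol_diag hS
  obtain ⟨D, hD⟩ : ∃ D : Matrix (Fin p ⊕ Fin q) (Fin p ⊕ Fin q) K,
      D = Matrix.diagonal (Sum.elim (fun _ => 1) (fun _ => -1)) := ⟨_, rfl⟩
  rw [← hD] at h3
  have hSD : S = Q * D * P := by
    rw [← h3]
    simp only [Matrix.mul_assoc]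
    rw [h2, Matrix.mul_one, ← Matrix.mul_assoc, h2, Matrix.one_mul]
  obtain ⟨J₁, hJ₁⟩ : ∃ J₁, J₁ = Q.transpose * J * Q := ⟨_, rfl⟩
  have hDt : D.transpose = D := by rw [hD, Matrix.diagonal_transpose]
  have hJ₁t : J₁.transpose = κ • J₁ := by
    rw [hJ₁, Matrix.transpose_mul, Matrix.transpose_mul, Matrix.transpose_transpose, hJ,
      Matrix.smul_mul, Matrix.mul_smul, Matrix.mul_assoc]
  have hcomm : D * J₁ * D = J₁ := by
    have e1 : Q.transpose * (S.transpose * J * S) * Q = J₁ := by rw [hSJ, hJ₁]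
    have e2 : Q.transpose * (S.transpose * J * S) * Q = D * J₁ * D := by
      rw [hSD, Matrix.transpose_mul, Matrix.transpose_mul, hDt, hJ₁]
      have e3 : Q.transpose * P.transpose = 1 := by
        rw [← Matrix.transpose_mul, h1, Matrix.transpose_one]
      calc Q.transpose * (P.transpose * (D * Q.transpose) * J * (Q * D * P)) * Q
          = (Q.transpose * P.transpose) * (D * (Q.transpose * J * Q) * D) * (P * Q) := by
            simp only [Matrix.mul_assoc]
        _ = _ := by rw [e3, h1, Matrix.one_mul, Matrix.mul_one]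
    rw [← e2, e1]
  have hent : ∀ i j, D i i * J₁ i j * D j j = J₁ i j := by
    intro i j
    have e1 := congrFun (congrFun hcomm i) j
    rw [hD, Matrix.mul_diagonal, Matrix.diagonal_mul] at e1
    rw [hD, Matrix.diagonal_apply_eq, Matrix.diagonal_apply_eq]
    exact e1
  have hDl : ∀ i : Fin p, D (Sum.inl i) (Sum.inl i) = 1 := by
    intro i
    rw [hD, Matrix.diagonal_apply_eq]
    rfl
  have hDr : ∀ i : Fin q, D (Sum.inr i) (Sum.inr i) = -1 := by
    intro i
    rw [hD, Matrix.diagonal_apply_eq]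
    rfl
  have h12 : J₁.toBlocks₁₂ = 0 := by
    ext i j
    show J₁ (Sum.inl i) (Sum.inr j) = 0
    have e1 := hent (Sum.inl i) (Sum.inr j)
    rw [hDl, hDr] at e1
    have e2 : (2 : K) * J₁ (Sum.inl i) (Sum.inr j) = 0 := by linear_combination -e1
    exact (mul_eq_zero.1 e2).resolve_left two_ne_zero
  have h21 : J₁.toBlocks₂₁ = 0 := by
    ext i j
    show J₁ (Sum.inr i) (Sum.inl j) = 0
    have e1 := hent (Sum.inr i) (Sum.inl j)
    rw [hDl, hDr] at e1
    have e2 : (2 : K) * J₁ (Sum.inr i) (Sum.inl j) = 0 := by linear_combination -e1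
    exact (mul_eq_zero.1 e2).resolve_left two_ne_zero
  have hbl : J₁ = Matrix.fromBlocks J₁.toBlocks₁₁ 0 0 J₁.toBlocks₂₂ := by
    conv_lhs => rw [← Matrix.fromBlocks_toBlocks J₁, h12, h21]
  have hdet : J₁.det ≠ 0 := by
    apply Matrix.det_ne_zero_of_right_inverse (B := P * J⁻¹ * P.transpose)
    rw [hJ₁]
    calc Q.transpose * J * Q * (P * J⁻¹ * P.transpose)
        = Q.transpose * (J * ((Q * P) * J⁻¹)) * P.transpose := by
          simp only [Matrix.mul_assoc]
      _ = 1 := by
          rw [h2, Matrix.one_mul, Matrix.mul_nonsing_inv _ (isUnit_iff_ne_zero.2 hd),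
            Matrix.mul_one, ← Matrix.transpose_mul, h1, Matrix.transpose_one]
  have hdet2 : J₁.toBlocks₁₁.det * J₁.toBlocks₂₂.det ≠ 0 := by
    rw [← Matrix.det_fromBlocks_zero₂₁ J₁.toBlocks₁₁ 0 J₁.toBlocks₂₂, ← hbl]
    exact hdet
  refine ⟨p, q, P, Q, J₁.toBlocks₁₁, J₁.toBlocks₂₂, hpq, h1, h2, h3.trans hD, ?_, ?_, ?_,
    left_ne_zero_of_mul hdet2, right_ne_zero_of_mul hdet2⟩
  · rw [← hJ₁]
    exact hbl
  · ext i j
    exact congrFun (congrFun hJ₁t (Sum.inl i)) (Sum.inl j)
  · ext i j
    exact congrFun (congrFun hJ₁t (Sum.inr i)) (Sum.inr j)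

/-- a nondegenerate symmetric (`κ = 1`) or skew (`κ = -1`) form with an isometric involution `S`:
the eigenspaces of `S` are orthogonal, use the previous theorems for each of them -/
theorem exists_equiv_pair [IsAlgClosed K] (hc : Fintype.card m = Fintype.card n) {κ : K}
    (hκ : κ = 1 ∨ κ = -1) {J S : Matrix n n K} {J' S' : Matrix m m K}
    (hJ : J.transpose = κ • J) (hJ' : J'.transpose = κ • J') (hd : J.det ≠ 0) (hd' : J'.det ≠ 0)
    (hS : S * S = 1) (hS' : S' * S' = 1) (hSJ : S.transpose * J * S = J)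
    (hSJ' : S'.transpose * J' * S' = J') (ht : S.trace = S'.trace) :
    ∃ (P : Matrix m n K) (Q : Matrix n m K), P * Q = 1 ∧ Q * P = 1 ∧
      P.transpose * J' * P = J ∧ P * S * Q = S' := by
  obtain ⟨p, q, P, Q, A, B, hpq, h1, h2, h3, h4, hA, hB, hdA, hdB⟩ := LAPair_block hJ hd hS hSJ
  obtain ⟨p', q', P', Q', A', B', hpq', h1', h2', h3', h4', hA', hB', hdA', hdB'⟩ :=
    LAPair_block hJ' hd' hS' hSJ'
  rw [LAInvol_trace h2 h3, LAInvol_trace h2' h3'] at ht
  have h5 : (p : K) + q' = p' + q := by linear_combination ht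
  have h6 : p + q' = p' + q := by exact_mod_cast h5
  obtain rfl : p = p' := by omega
  obtain rfl : q = q' := by omega
  have key : ∀ {r : ℕ} {X X' : Matrix (Fin r) (Fin r) K}, X.transpose = κ • X →
      X'.transpose = κ • X' → X.det ≠ 0 → X'.det ≠ 0 →
      ∃ a b : Matrix (Fin r) (Fin r) K, a * b = 1 ∧ b * a = 1 ∧ a.transpose * X' * a = X := by
    intro r X X' hX hX' hdX hdX'
    rcases hκ with rfl | rfl
    · rw [one_smul] at hX hX'
      exact exists_equiv_symm rfl hX hX' hdX hdX'
    · rw [neg_smul, one_smul] at hX hX'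
      exact exists_equiv_skew rfl hX hX' hdX hdX'
  obtain ⟨a, a', ha1, ha2, ha3⟩ := key hA hA' hdA hdA'
  obtain ⟨b, b', hb1, hb2, hb3⟩ := key hB hB' hdB hdB'
  obtain ⟨T, hT⟩ : ∃ T, T = Matrix.fromBlocks a 0 0 b := ⟨_, rfl⟩
  obtain ⟨T', hT'⟩ : ∃ T', T' = Matrix.fromBlocks a' 0 0 b' := ⟨_, rfl⟩
  have hTT : T * T' = 1 := by
    rw [hT, hT', Matrix.fromBlocks_multiply]
    simp [ha1, hb1]
  have hTT' : T' * T = 1 := by
    rw [hT, hT', Matrix.fromBlocks_multiply]
    simp [ha2, hb2]
  have hTJ : T.transpose * (Q'.transpose * J' * Q') * T = Q.transpose * J * Q := by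
    rw [h4, h4', hT, Matrix.fromBlocks_transpose, Matrix.fromBlocks_multiply,
      Matrix.fromBlocks_multiply]
    simp [ha3, hb3]
  have hD : (Matrix.diagonal (Sum.elim (fun _ => 1) (fun _ => -1)) :
      Matrix (Fin p ⊕ Fin q) (Fin p ⊕ Fin q) K) = Matrix.fromBlocks 1 0 0 (-1) := by
    rw [← Matrix.fromBlocks_diagonal]
    congr 1
    rw [← Matrix.diagonal_one, ← Matrix.diagonal_neg]
  have hTD : T * (P * S * Q) * T' = P' * S' * Q' := by
    rw [h3, h3', hD, hT, hT', Matrix.fromBlocks_multiply, Matrix.fromBlocks_multiply]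
    simp [ha1, hb1]
  refine ⟨Q' * T * P, Q * T' * P', ?_, ?_, ?_, ?_⟩
  · calc Q' * T * P * (Q * T' * P') = Q' * (T * (P * Q) * T') * P' := by
          simp only [Matrix.mul_assoc]
      _ = 1 := by rw [h1, Matrix.mul_one, hTT, Matrix.mul_one, h2']
  · calc Q * T' * P' * (Q' * T * P) = Q * (T' * (P' * Q') * T) * P := by
          simp only [Matrix.mul_assoc]
      _ = 1 := by rw [h1', Matrix.mul_one, hTT', Matrix.mul_one, h2]
  · calc (Q' * T * P).transpose * J' * (Q' * T * P)
        = P.transpose * (T.transpose * (Q'.transpose * J' * Q') * T) * P := by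
          rw [Matrix.transpose_mul, Matrix.transpose_mul]
          simp only [Matrix.mul_assoc]
      _ = (Q * P).transpose * J * (Q * P) := by
          rw [hTJ, Matrix.transpose_mul]
          simp only [Matrix.mul_assoc]
      _ = J := by rw [h2, Matrix.transpose_one, Matrix.one_mul, Matrix.mul_one]
  · calc Q' * T * P * S * (Q * T' * P') = Q' * (T * (P * S * Q) * T') * P' := by
          simp only [Matrix.mul_assoc]
      _ = (Q' * P') * S' * (Q' * P') := by
          rw [hTD]
          simp only [Matrix.mul_assoc]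
      _ = S' := by rw [h2', Matrix.one_mul, Matrix.mul_one]

/-- a nondegenerate skew matrix has even size -/
theorem LAPair_even {r : ℕ} {A : Matrix (Fin r) (Fin r) K} (hA : A.transpose = -A)
    (hd : A.det ≠ 0) : ∃ k, r = 2 * k := by
  rcases Nat.even_or_odd r with h | h
  · obtain ⟨k, hk⟩ := h
    exact ⟨k, by omega⟩
  · exfalso
    have h1 : A.det = - A.det := by
      conv_lhs => rw [← Matrix.det_transpose, hA, Matrix.det_neg, Fintype.card_fin, h.neg_one_pow,
        neg_one_mul]
    have h2 : (2 : K) * A.det = 0 := by linear_combination h1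
    exact hd ((mul_eq_zero.1 h2).resolve_left two_ne_zero)

/-- ... if `S` is an isometry of a nondegenerate skew form then both dimensions are even -/
theorem exists_trace_even {J S : Matrix n n K} (hJ : J.transpose = -J) (hd : J.det ≠ 0)
    (hS : S * S = 1) (hSJ : S.transpose * J * S = J) :
    ∃ p q : ℕ, 2 * p + 2 * q = Fintype.card n ∧ S.trace = 2 * (p : K) - 2 * (q : K) := by
  obtain ⟨p, q, P, Q, A, B, hpq, h1, h2, h3, h4, hA, hB, hdA, hdB⟩ :=
    LAPair_block (κ := -1) (by rw [neg_smul, one_smul]; exact hJ) hd hS hSJ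
  rw [neg_smul, one_smul] at hA hB
  obtain ⟨k, rfl⟩ := LAPair_even hA hdA
  obtain ⟨l, rfl⟩ := LAPair_even hB hdB
  refine ⟨k, l, hpq, ?_⟩
  rw [LAInvol_trace h2 h3]
  push_cast
  ring

end Pool.Agent.helper49.QA
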