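import Mathlib
import Pool.Agent.helper49.QA.Chain
import Pool.Agent.helper49.QA.Index
import Pool.Agent.helper49.QA.LimPar
import Pool.Agent.helper49.QA.LAPair

/-!
# Type BDI in odd dimension: `so_{2r+1}` with `x ↦ S x S⁻¹`, `S ^ 2 = 1`

The dimensions of the eigenspaces of `S` for `-1` and `1` are `q` and `2 r + 1 - q`; replacing `S` by
`-S` we may assume `q ≤ r`.  Generators: `ek`, degrees `2, 4, ..., 2 r`, exponents
`b = min (2 k, 2 q)`.

Chain form: index type `Fin (2 r + 1)`, `J = Jalt` (symmetric), signs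
`+^(r-q) (+-)^q + +^(r-q)` (a palindrome with `q` minus signs): `parB r q a = true` iff
`r - q ≤ a ≤ r + q` and `a - (r - q)` is odd.  Windows: for `k ≤ q`, `lo = r - q` (all the `2 k - 1`
links are odd, the ends have different parities); for `k > q`:
`lo = min (r - q) (2 (r - q) + 2 q + 1 - 2 k)`, the window contains the block
`r - q, ..., r + q` with its `2 q` odd links and the ends are even.
Degrees: `phi_natDegree_le` and `ek_Mp_natDegree_le`.

Torus form: index type `(Fin q × Fin 2 ⊕ Fin (r-q) × Fin 2) ⊕ Fin 1`; `J` pairs `(x, 0)` and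
`(x, 1)` (symmetric), `J = 1` on the last index; `S` exchanges `(x, 0)` and `(x, 1)` for `x ∈ Fin q`
and fixes the other indices; `trace S = 2 (r - q) + 1`.
`a1 = diag λ`, `λ (i, ε) = (i + 1) (-1)^ε` on the first summand, `0` on the others;
`a0 = diag μ`, `μ = 0` on the first, `μ (j, ε) = (j + 1) (-1)^ε` on the second summand,
`0` on the last index.  `λ x = λ y`, `x ≠ y` happens only outside of the first summand: there
odd elements vanish and the values of `μ` are distinct.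
`f d =` the values of `d` at the `(_, 0)`.

Comm: `hyp` for the diagonal form `J = 1` (the group of the equivalences preserves `gen`).
-/

set_option autoImplicit false

namespace Pool.Agent.helper49.QA

open Polynomial Pool.Agent.helper5.AS
open Pool.Agent.helper5.ASQ (Invol even oddc brk IsContraction)
open Pool.Agent.helper90.MF (od)

variable {K : Type*} [Field K] [CharZero K] [IsAlgClosed K] {g : Type*}
  [LieRing g] [LieAlgebra K g] {θ : Invol K g}
  {k : Type*} [LieRing k] [LieAlgebra K k] {e : g ≃ₗ[K] k}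

/-- the signs of the chain form -/
def parB (r q a : ℕ) : Bool := decide (r - q ≤ a ∧ a ≤ r + q ∧ (a - (r - q)) % 2 = 1)

theorem FamBO_link {r q l : ℕ} (hq : q ≤ r) :
    (if parB r q l = parB r q (l + 1) then 0 else 1) =
      if r - q ≤ l ∧ l < r - q + 2 * q then 1 else 0 := by
  have h : (parB r q l = parB r q (l + 1)) ↔ ¬ (r - q ≤ l ∧ l < r - q + 2 * q) := by
    unfold parB
    rw [decide_eq_decide]
    omega
  by_cases h1 : r - q ≤ l ∧ l < r - q + 2 * q
  · rw [if_pos h1, if_neg]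
    exact fun h2 => h.1 h2 h1
  · rw [if_neg h1, if_pos (h.2 h1)]

theorem FamBO_wt {r q k : ℕ} (hq : q ≤ r) (hk : 1 ≤ k) (hkr : k ≤ r) :
    ∃ lo, lo + 2 * k ≤ 2 * r + 1 ∧ wt (parB r q) lo (2 * k) = min (2 * k) (2 * q) := by
  rcases le_or_gt k q with h | h
  · refine ⟨r - q, by omega, ?_⟩
    have h1 : ∑ l ∈ Finset.Ico (r - q) (r - q + 2 * k - 1),
        (if parB r q l = parB r q (l + 1) then 0 else 1) = 2 * k - 1 := by
      rw [Finset.sum_congr rfl (g := fun _ => 1) (fun l hl => by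
        rw [Finset.mem_Ico] at hl
        rw [FamBO_link hq, if_pos (by omega)])]
      rw [Finset.sum_const, Nat.card_Ico, smul_eq_mul, mul_one]
      omega
    have h2 : ¬ (parB r q (r - q + 2 * k - 1) = parB r q (r - q)) := by
      unfold parB
      rw [decide_eq_decide]
      omega
    unfold wt
    rw [h1, if_neg h2]
    omega
  · refine ⟨min (r - q) (2 * (r - q) + 2 * q + 1 - 2 * k), by omega, ?_⟩
    generalize hlo : min (r - q) (2 * (r - q) + 2 * q + 1 - 2 * k) = lo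
    have h1 : ∑ l ∈ Finset.Ico lo (lo + 2 * k - 1),
        (if parB r q l = parB r q (l + 1) then 0 else 1) = 2 * q := by
      rw [Finset.sum_congr rfl (fun l _ => FamBO_link hq), ← Finset.sum_filter]
      have h3 : (Finset.Ico lo (lo + 2 * k - 1)).filter
          (fun l => r - q ≤ l ∧ l < r - q + 2 * q) = Finset.Ico (r - q) (r - q + 2 * q) := by
        ext l
        rw [Finset.mem_filter, Finset.mem_Ico, Finset.mem_Ico]
        omega
      rw [h3, Finset.sum_const, Nat.card_Ico, smul_eq_mul, mul_one]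
      omega
    have h2 : parB r q (lo + 2 * k - 1) = parB r q lo := by
      unfold parB
      rw [decide_eq_decide]
      omega
    unfold wt
    rw [h1, if_pos h2]
    omega

theorem FamBO_qn {r q : ℕ} (hq : q ≤ r) :
    qn (fun i : Fin (2 * r + 1) => parB r q i.val) = q := by
  unfold qn
  have h1 : (Finset.univ.filter fun i : Fin (2 * r + 1) => parB r q i.val = true) =
      Finset.univ.image (fun j : Fin q =>
        (⟨r - q + 1 + 2 * j.val, by have := j.2; omega⟩ : Fin (2 * r + 1))) := by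
    ext i
    rw [Finset.mem_filter, Finset.mem_image]
    unfold parB
    rw [decide_eq_true_iff]
    constructor
    · rintro ⟨-, h2, h3, h4⟩
      refine ⟨⟨(i.val - (r - q) - 1) / 2, by omega⟩, Finset.mem_univ _, ?_⟩
      apply Fin.ext
      show r - q + 1 + 2 * ((i.val - (r - q) - 1) / 2) = i.val
      omega
    · rintro ⟨j, -, rfl⟩
      refine ⟨Finset.mem_univ _, ?_⟩
      have := j.2
      show r - q ≤ r - q + 1 + 2 * j.val ∧ r - q + 1 + 2 * j.val ≤ r + q ∧
        (r - q + 1 + 2 * j.val - (r - q)) % 2 = 1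
      omega
  rw [h1, Finset.card_image_of_injective, Finset.card_univ, Fintype.card_fin]
  intro a b hab
  have h2 : r - q + 1 + 2 * a.val = r - q + 1 + 2 * b.val := congrArg Fin.val hab
  apply Fin.ext
  omega

theorem FamBO_rev {r q i : ℕ} (hq : q ≤ r) (hi : i < 2 * r + 1) :
    parB r q (2 * r + 1 - 1 - i) = parB r q i := by
  unfold parB
  rw [decide_eq_decide]
  omega

theorem FamBO_tests {l q : ℕ} (hq : q ≤ l) {r : Rz K (Fin (2 * l + 1)) θ}
    (hJ : r.IsJ (Jalt K (2 * l + 1)) 1) (hp : r.IsPar fun i => parB l q i.val) :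
    r.Tests (fun i : Fin l => 2 * (i.val + 1))
      (fun i : Fin l => min (2 * (i.val + 1)) (2 * q)) := by
  have h1 : (-1 : K) ^ (2 * l + 1 + 1) = 1 := by
    rw [show 2 * l + 1 + 1 = 2 * (l + 1) by ring, pow_mul]
    norm_num
  have hJ' : r.IsJ (Jalt K (2 * l + 1)) ((-1) ^ (2 * l + 1 + 1)) := by
    rw [h1]
    exact hJ
  refine chain_tests hJ' (parB l q) hp ?_ _ _ (fun i => ?_) (fun i => ?_) (fun i => ?_)
  · intro i j hi hj
    rw [FamBO_rev hq hi, FamBO_rev hq hj]
  · exact even_two_mul _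
  · omega
  · exact FamBO_wt hq (Nat.le_add_left 1 _) (by have := i.2; omega)

/-- the symmetric form of the torus form (used also for even dimension, with `Fin 0` in place of
`Fin 1`) -/
def JB (K : Type*) [Field K] {X Z : Type*} [DecidableEq X] [DecidableEq Z] :
    Matrix (X × Fin 2 ⊕ Z) (X × Fin 2 ⊕ Z) K :=
  Matrix.fromBlocks (fun a b => if a.1 = b.1 ∧ a.2 ≠ b.2 then 1 else 0) 0 0 1

/-- the involution of the torus form -/
def SB (K : Type*) [Field K] {X Y Z : Type*} [DecidableEq X] [DecidableEq Y] [DecidableEq Z] :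
    Matrix ((X ⊕ Y) × Fin 2 ⊕ Z) ((X ⊕ Y) × Fin 2 ⊕ Z) K :=
  Matrix.fromBlocks (fun a b => if a.1 = b.1 ∧ (if a.1.isLeft then a.2 ≠ b.2 else a.2 = b.2)
    then 1 else 0) 0 0 1

/-- the matrix of the permutation `s` -/
def FamBO_pm (K : Type*) [Field K] {ι : Type*} [DecidableEq ι] (s : ι → ι) : Matrix ι ι K :=
  fun a b => if b = s a then 1 else 0

section

variable {ι : Type*} [Fintype ι] [DecidableEq ι] {s : ι → ι}

theorem FamBO_pm_mul (A : Matrix ι ι K) (a b : ι) : (FamBO_pm K s * A) a b = A (s a) b := by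
  rw [Matrix.mul_apply, Finset.sum_eq_single (s a)]
  · rw [FamBO_pm, if_pos rfl, one_mul]
  · intro c _ hc
    rw [FamBO_pm, if_neg hc, zero_mul]
  · intro h
    exact absurd (Finset.mem_univ _) h

theorem FamBO_mul_pm (hs : ∀ a, s (s a) = a) (A : Matrix ι ι K) (a b : ι) :
    (A * FamBO_pm K s) a b = A a (s b) := by
  rw [Matrix.mul_apply, Finset.sum_eq_single (s b)]
  · rw [FamBO_pm, if_pos (hs b).symm, mul_one]
  · intro c _ hc
    rw [FamBO_pm, if_neg, mul_zero]
    intro h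
    apply hc
    rw [h, hs]
  · intro h
    exact absurd (Finset.mem_univ _) h

theorem FamBO_pm_sq (hs : ∀ a, s (s a) = a) : FamBO_pm K s * FamBO_pm K s = 1 := by
  ext a b
  rw [FamBO_pm_mul, FamBO_pm, hs, Matrix.one_apply]
  exact if_congr eq_comm rfl rfl

theorem FamBO_pm_transpose (hs : ∀ a, s (s a) = a) :
    (FamBO_pm K s).transpose = FamBO_pm K s := by
  ext a b
  rw [Matrix.transpose_apply, FamBO_pm, FamBO_pm]
  refine if_congr ⟨fun h => ?_, fun h => ?_⟩ rfl rfl
  · rw [h, hs]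
  · rw [h, hs]

theorem FamBO_pm_comm {t : ι → ι} (hs : ∀ a, s (s a) = a) (ht : ∀ a, t (t a) = a)
    (hst : ∀ a, s (t (s a)) = t a) :
    (FamBO_pm K s).transpose * FamBO_pm K t * FamBO_pm K s = FamBO_pm K t := by
  ext a b
  rw [FamBO_pm_transpose hs, FamBO_mul_pm hs, FamBO_pm_mul, FamBO_pm, FamBO_pm]
  refine if_congr ⟨fun h => ?_, fun h => ?_⟩ rfl rfl
  · rw [← hst, ← h, hs]
  · rw [h, ← hst, hs]

theorem FamBO_skew {d : ι → K} (hs : ∀ a, s (s a) = a) (h : ∀ a, d (s a) = -d a) :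
    (Matrix.diagonal d).transpose * FamBO_pm K s = -(FamBO_pm K s * Matrix.diagonal d) := by
  ext a b
  rw [Matrix.diagonal_transpose, Matrix.diagonal_mul, Matrix.neg_apply, Matrix.mul_diagonal,
    FamBO_pm]
  by_cases hb : b = s a
  · rw [if_pos hb, hb, h]
    ring
  · rw [if_neg hb]
    ring

theorem FamBO_skew' {d : ι → K}
    (h : (Matrix.diagonal d).transpose * FamBO_pm K s = -(FamBO_pm K s * Matrix.diagonal d))
    (a : ι) : d (s a) = -d a := by
  have h1 := congrFun (congrFun h a) (s a)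
  rw [Matrix.diagonal_transpose, Matrix.diagonal_mul, Matrix.neg_apply, Matrix.mul_diagonal,
    FamBO_pm, if_pos rfl] at h1
  linear_combination h1

theorem FamBO_hom (hs : ∀ a, s (s a) = a) {r : Rz K ι θ} (hS : r.IsS (FamBO_pm K s)) {x : g}
    {d : ι → K} (hx : r.ρ x = Matrix.diagonal d) :
    r.ρ (θ.hom x) = Matrix.diagonal (fun a => d (s a)) := by
  have h1 := hS x
  have h2 : r.ρ (θ.hom x) = r.ρ (θ.hom x) * FamBO_pm K s * FamBO_pm K s := by
    rw [Matrix.mul_assoc, FamBO_pm_sq hs, Matrix.mul_one]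
  rw [h2, h1, hx]
  ext a b
  rw [FamBO_mul_pm hs, FamBO_pm_mul, Matrix.diagonal_apply, Matrix.diagonal_apply]
  refine if_congr ⟨fun h => ?_, fun h => ?_⟩ rfl rfl
  · rw [← hs a, h, hs]
  · rw [h]

theorem FamBO_odd {r : Rz K ι θ} (hs : ∀ a, s (s a) = a) (hS : r.IsS (FamBO_pm K s)) {x : g}
    (hx : θ.hom x = -x) {a b : ι} (ha : s a = a) (hb : s b = b) : r.ρ x a b = 0 := by
  have h1 := congrFun (congrFun (hS x) a) b
  rw [FamBO_mul_pm hs, FamBO_pm_mul, ha, hb, hx, map_neg, Matrix.neg_apply] at h1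
  have h2 : (2 : K) * r.ρ x a b = 0 := by linear_combination -h1
  exact (mul_eq_zero.1 h2).resolve_left two_ne_zero

end

/-- the permutation of `JB` -/
def FamBO_j {X Z : Type*} : X × Fin 2 ⊕ Z → X × Fin 2 ⊕ Z
  | Sum.inl (x, ε) => Sum.inl (x, ε + 1)
  | Sum.inr z => Sum.inr z

/-- the permutation of `SB` -/
def FamBO_s {X Y Z : Type*} : (X ⊕ Y) × Fin 2 ⊕ Z → (X ⊕ Y) × Fin 2 ⊕ Z
  | Sum.inl (Sum.inl x, ε) => Sum.inl (Sum.inl x, ε + 1)
  | Sum.inl (Sum.inr y, ε) => Sum.inl (Sum.inr y, ε)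
  | Sum.inr z => Sum.inr z

theorem FamBO_two (ε : Fin 2) : ε + 1 + 1 = ε := by
  fin_cases ε <;> rfl

theorem FamBO_two' (ε δ : Fin 2) : ε ≠ δ ↔ δ = ε + 1 := by
  fin_cases ε <;> fin_cases δ <;> decide

theorem FamBO_j_j {X Z : Type*} (a : X × Fin 2 ⊕ Z) : FamBO_j (FamBO_j a) = a := by
  rcases a with ⟨x, ε⟩ | z
  · show Sum.inl (x, ε + 1 + 1) = Sum.inl (x, ε)
    rw [FamBO_two]
  · rfl

theorem FamBO_s_s {X Y Z : Type*} (a : (X ⊕ Y) × Fin 2 ⊕ Z) : FamBO_s (FamBO_s a) = a := by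
  rcases a with ⟨x | y, ε⟩ | z
  · show Sum.inl (Sum.inl x, ε + 1 + 1) = Sum.inl (Sum.inl x, ε)
    rw [FamBO_two]
  · rfl
  · rfl

theorem FamBO_s_j {X Y Z : Type*} (a : (X ⊕ Y) × Fin 2 ⊕ Z) :
    FamBO_s (FamBO_j (FamBO_s a)) = FamBO_j a := by
  rcases a with ⟨x | y, ε⟩ | z
  · show Sum.inl (Sum.inl x, ε + 1 + 1 + 1) = Sum.inl (Sum.inl x, ε + 1)
    rw [FamBO_two]
  · rfl
  · rfl

theorem FamBO_JB {X Z : Type*} [DecidableEq X] [DecidableEq Z] :
    JB K (X := X) (Z := Z) = FamBO_pm K FamBO_j := by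
  ext a b
  rcases a with ⟨x, ε⟩ | z <;> rcases b with ⟨y, δ⟩ | w
  · show (if x = y ∧ ε ≠ δ then (1 : K) else 0) = if Sum.inl (y, δ) = Sum.inl (x, ε + 1) then 1 else 0
    refine if_congr ?_ rfl rfl
    rw [FamBO_two', Sum.inl.injEq, Prod.mk.injEq]
    constructor
    · rintro ⟨h1, h2⟩
      exact ⟨h1.symm, h2⟩
    · rintro ⟨h1, h2⟩
      exact ⟨h1.symm, h2⟩
  · show (0 : K) = if Sum.inr w = Sum.inl (x, ε + 1) then 1 else 0
    rw [if_neg (by simp)]
  · show (0 : K) = if Sum.inl (y, δ) = Sum.inr z then 1 else 0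
    rw [if_neg (by simp)]
  · show (1 : Matrix Z Z K) z w = if (Sum.inr w : X × Fin 2 ⊕ Z) = Sum.inr z then 1 else 0
    rw [Matrix.one_apply]
    refine if_congr ?_ rfl rfl
    rw [Sum.inr.injEq]
    exact eq_comm

theorem FamBO_SB {X Y Z : Type*} [DecidableEq X] [DecidableEq Y] [DecidableEq Z] :
    SB K (X := X) (Y := Y) (Z := Z) = FamBO_pm K FamBO_s := by
  ext a b
  rcases a with ⟨x | x, ε⟩ | z <;> rcases b with ⟨y, δ⟩ | w
  · show (if Sum.inl x = y ∧ (if (Sum.inl x : X ⊕ Y).isLeft then ε ≠ δ else ε = δ) then (1 : K)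
      else 0) = if Sum.inl (y, δ) = Sum.inl (Sum.inl x, ε + 1) then 1 else 0
    refine if_congr ?_ rfl rfl
    rw [Sum.isLeft_inl, if_pos rfl, FamBO_two', Sum.inl.injEq, Prod.mk.injEq]
    constructor
    · rintro ⟨h1, h2⟩
      exact ⟨h1.symm, h2⟩
    · rintro ⟨h1, h2⟩
      exact ⟨h1.symm, h2⟩
  · show (0 : K) = if Sum.inr w = Sum.inl (Sum.inl x, ε + 1) then 1 else 0
    rw [if_neg (by simp)]
  · show (if Sum.inr x = y ∧ (if (Sum.inr x : X ⊕ Y).isLeft then ε ≠ δ else ε = δ) then (1 : K)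
      else 0) = if Sum.inl (y, δ) = Sum.inl (Sum.inr x, ε) then 1 else 0
    refine if_congr ?_ rfl rfl
    rw [Sum.isLeft_inr, if_neg (by simp), Sum.inl.injEq, Prod.mk.injEq]
    constructor
    · rintro ⟨h1, h2⟩
      exact ⟨h1.symm, h2.symm⟩
    · rintro ⟨h1, h2⟩
      exact ⟨h1.symm, h2.symm⟩
  · show (0 : K) = if Sum.inr w = Sum.inl (Sum.inr x, ε) then 1 else 0
    rw [if_neg (by simp)]
  · show (0 : K) = if Sum.inl (y, δ) = Sum.inr z then 1 else 0
    rw [if_neg (by simp)]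
  · show (1 : Matrix Z Z K) z w = if (Sum.inr w : (X ⊕ Y) × Fin 2 ⊕ Z) = Sum.inr z then 1 else 0
    rw [Matrix.one_apply]
    refine if_congr ?_ rfl rfl
    rw [Sum.inr.injEq]
    exact eq_comm

/-- the values of `a1` -/
def FamBO_lam (K : Type*) [Field K] {q l z : ℕ} : (Fin q ⊕ Fin l) × Fin 2 ⊕ Fin z → K
  | Sum.inl (Sum.inl i, ε) => if ε = 0 then (i.val : K) + 1 else -((i.val : K) + 1)
  | Sum.inl (Sum.inr _, _) => 0
  | Sum.inr _ => 0

/-- the values of `a0` -/
def FamBO_mu (K : Type*) [Field K] {q l z : ℕ} : (Fin q ⊕ Fin l) × Fin 2 ⊕ Fin z → K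
  | Sum.inl (Sum.inl _, _) => 0
  | Sum.inl (Sum.inr j, ε) => if ε = 0 then (j.val : K) + 1 else -((j.val : K) + 1)
  | Sum.inr _ => 0

theorem FamBO_sgn (ε : Fin 2) (c : K) :
    (if ε + 1 = 0 then c else -c) = -(if ε = 0 then c else -c) := by
  fin_cases ε
  · simp
  · have h : ((1 : Fin 2) + 1 = 0) := rfl
    simp [h]

theorem FamBO_ne {a b : ℕ} {ε δ : Fin 2}
    (h : (if ε = 0 then (a : K) + 1 else -((a : K) + 1)) =
      if δ = 0 then (b : K) + 1 else -((b : K) + 1)) : a = b ∧ ε = δ := by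
  have h1 : ∀ a b : ℕ, (a : K) + 1 ≠ -((b : K) + 1) := by
    intro a b h
    have h2 : ((a + b + 2 : ℕ) : K) = 0 := by
      push_cast
      linear_combination h
    have h3 : a + b + 2 = 0 := by exact_mod_cast h2
    omega
  fin_cases ε <;> fin_cases δ
  · have h2 : (a : K) + 1 = (b : K) + 1 := h
    exact ⟨by exact_mod_cast add_right_cancel h2, rfl⟩
  · exact absurd h (h1 a b)
  · exact absurd h.symm (h1 b a)
  · have h2 : -((a : K) + 1) = -((b : K) + 1) := h
    exact ⟨by exact_mod_cast add_right_cancel (neg_injective h2), rfl⟩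

theorem FamBO_ne0 {a : ℕ} {ε : Fin 2} :
    (if ε = 0 then (a : K) + 1 else -((a : K) + 1)) ≠ 0 := by
  have h1 : (a : K) + 1 ≠ 0 := by exact_mod_cast Nat.succ_ne_zero a
  split_ifs
  · exact h1
  · exact neg_ne_zero.2 h1

section

variable {q l z : ℕ}

theorem FamBO_lam_j (a : (Fin q ⊕ Fin l) × Fin 2 ⊕ Fin z) :
    FamBO_lam K (FamBO_j a) = -FamBO_lam K a := by
  rcases a with ⟨x | y, ε⟩ | w
  · exact FamBO_sgn ε _
  · exact neg_zero.symm
  · exact neg_zero.symm

theorem FamBO_mu_j (a : (Fin q ⊕ Fin l) × Fin 2 ⊕ Fin z) :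
    FamBO_mu K (FamBO_j a) = -FamBO_mu K a := by
  rcases a with ⟨x | y, ε⟩ | w
  · exact neg_zero.symm
  · exact FamBO_sgn ε _
  · exact neg_zero.symm

theorem FamBO_lam_s (a : (Fin q ⊕ Fin l) × Fin 2 ⊕ Fin z) :
    FamBO_lam K (FamBO_s a) = -FamBO_lam K a := by
  rcases a with ⟨x | y, ε⟩ | w
  · exact FamBO_sgn ε _
  · exact neg_zero.symm
  · exact neg_zero.symm

theorem FamBO_mu_s (a : (Fin q ⊕ Fin l) × Fin 2 ⊕ Fin z) :
    FamBO_mu K (FamBO_s a) = FamBO_mu K a := by
  rcases a with ⟨x | y, ε⟩ | w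
  · rfl
  · rfl
  · rfl

theorem FamBO_fix {a b : (Fin q ⊕ Fin l) × Fin 2 ⊕ Fin z} (hab : a ≠ b)
    (h : FamBO_lam K a = FamBO_lam K b) : FamBO_s a = a ∧ FamBO_s b = b := by
  rcases a with ⟨x | x, ε⟩ | w <;> rcases b with ⟨y | y, δ⟩ | w'
  · obtain ⟨h1, h2⟩ := FamBO_ne h
    exact absurd (by rw [Fin.ext h1, h2]) hab
  · exact absurd h FamBO_ne0
  · exact absurd h FamBO_ne0
  · exact absurd h.symm FamBO_ne0
  · exact ⟨rfl, rfl⟩
  · exact ⟨rfl, rfl⟩
  · exact absurd h.symm FamBO_ne0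
  · exact ⟨rfl, rfl⟩
  · exact ⟨rfl, rfl⟩

theorem FamBO_mu_ne (hz : z ≤ 1) {a b : (Fin q ⊕ Fin l) × Fin 2 ⊕ Fin z} (hab : a ≠ b)
    (h : FamBO_lam K a = FamBO_lam K b) : FamBO_mu K a ≠ FamBO_mu K b := by
  intro hm
  rcases a with ⟨x | x, ε⟩ | w <;> rcases b with ⟨y | y, δ⟩ | w'
  · obtain ⟨h1, h2⟩ := FamBO_ne h
    exact absurd (by rw [Fin.ext h1, h2]) hab
  · exact absurd h FamBO_ne0
  · exact absurd h FamBO_ne0
  · exact absurd h.symm FamBO_ne0
  · obtain ⟨h1, h2⟩ := FamBO_ne hm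
    exact absurd (by rw [Fin.ext h1, h2]) hab
  · exact absurd hm FamBO_ne0
  · exact absurd h.symm FamBO_ne0
  · exact absurd hm.symm FamBO_ne0
  · apply hab
    congr 1
    apply Fin.ext
    have := w.2
    have := w'.2
    omega

end

/-- the point in the torus form, also for even dimension (`Z` has at most one element) -/
theorem FamB_index {q l z : ℕ} (hz : z ≤ 1)
    {r : Rz K ((Fin q ⊕ Fin l) × Fin 2 ⊕ Fin z) θ} (hJ : r.IsJ (JB K) 1) (hS : r.IsS (SB K))
    (he : IsContraction θ e) :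
    ∃ x0 : k →ₗ[K] K, Module.finrank K (stab x0) ≤ q + l := by
  rw [FamBO_JB] at hJ
  rw [FamBO_SB] at hS
  obtain ⟨a1, ha1⟩ := hJ.surj (FamBO_skew FamBO_j_j (FamBO_lam_j (K := K)))
  obtain ⟨a0, ha0⟩ := hJ.surj (FamBO_skew FamBO_j_j (FamBO_mu_j (K := K)))
  have h1 : θ.hom a1 = -a1 := by
    apply r.inj
    rw [FamBO_hom FamBO_s_s hS ha1, map_neg, ha1, Matrix.diagonal_neg]
    congr 1
    funext a
    exact FamBO_lam_s a
  have h0 : θ.hom a0 = a0 := by
    apply r.inj
    rw [FamBO_hom FamBO_s_s hS ha0, ha0]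
    congr 1
    funext a
    exact FamBO_mu_s a
  refine ⟨r.pnt e (a0 + a1), r.finrank_stab_le he h0 h1 ha1 ha0 ?_ ?_
    (LinearMap.funLeft K K fun t : Fin (q + l) => Sum.inl (finSumFinEquiv.symm t, 0)) ?_⟩
  · intro x hx a b hab hl
    obtain ⟨h2, h3⟩ := FamBO_fix hab hl
    exact FamBO_odd FamBO_s_s hS hx h2 h3
  · intro a b hab hl
    exact FamBO_mu_ne hz hab hl
  · intro x d hd hf
    have h2 := hJ.skew x
    rw [hd] at h2
    have h3 := FamBO_skew' h2
    have h4 : ∀ y : Fin q ⊕ Fin l, d (Sum.inl (y, 0)) = 0 := by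
      intro y
      have h5 := congrFun hf (finSumFinEquiv y)
      rw [LinearMap.funLeft_apply, Equiv.symm_apply_apply] at h5
      exact h5
    funext a
    rcases a with ⟨y, ε⟩ | w
    · by_cases hε : ε = 0
      · rw [hε]
        exact h4 y
      · have h5 := h3 (Sum.inl (y, 0))
        rw [h4 y, neg_zero] at h5
        have h6 : ε = 0 + 1 := by
          fin_cases ε
          · exact absurd rfl hε
          · rfl
        rw [h6]
        exact h5
    · have h5 : d (Sum.inr w) = -d (Sum.inr w) := h3 (Sum.inr w)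
      have h6 : (2 : K) * d (Sum.inr w) = 0 := by linear_combination h5
      exact (mul_eq_zero.1 h6).resolve_left two_ne_zero

theorem FamBO_conj {n : Type*} [Fintype n] [DecidableEq n] {m : Type*} [Fintype m]
    [DecidableEq m] (hc : Fintype.card m = Fintype.card n)
    {r : Rz K n θ} {J S : Matrix n n K} (hJ : r.IsJ J 1) (hS : r.IsS S) (hSS : S * S = 1)
    (hSJ : S.transpose * J * S = J) {J' S' : Matrix m m K} (hJ' : J'.transpose = J')
    (hd' : J'.det ≠ 0) (hSS' : S' * S' = 1) (hSJ' : S'.transpose * J' * S' = J')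
    (ht : S.trace = S'.trace) (e : g ≃ₗ[K] k) :
    ∃ r' : Rz K m θ, r'.IsJ J' 1 ∧ r'.IsS S' ∧ ∀ c d b, r'.gen e c d b = r.gen e c d b := by
  obtain ⟨P, Q, h1, h2, h3, h4⟩ := exists_equiv_pair hc (Or.inl rfl) hJ.symm
    (by rw [one_smul]; exact hJ') hJ.det hd' hSS hSS' hSJ hSJ' ht
  exact ⟨r.conj P Q h1 h2, Rz.IsJ.conj h1 h2 hJ h3, Rz.IsS.conj h1 h2 hS h4,
    fun c d b => Rz.conj_gen r P Q h1 h2 e c d b⟩

/-- the diagonal form of `S` -/
def FamBO_sg (K : Type*) [Field K] {ι : Type*} (par : ι → Bool) (i : ι) : K :=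
  if par i = true then -1 else 1

theorem FamBO_sg_sq {ι : Type*} (par : ι → Bool) (i : ι) :
    FamBO_sg K par i * FamBO_sg K par i = 1 := by
  unfold FamBO_sg
  split_ifs <;> ring

theorem FamBO_sg_par {ι : Type*} [Fintype ι] [DecidableEq ι] {r : Rz K ι θ} {par : ι → Bool}
    (h : r.IsS (Matrix.diagonal (FamBO_sg K par))) : r.IsPar par := by
  refine h.isPar (fun i h0 => ?_) (fun i j => ?_)
  · have h1 := FamBO_sg_sq (K := K) par i
    rw [h0, mul_zero] at h1
    exact zero_ne_one h1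
  · unfold FamBO_sg od
    cases par i <;> cases par j <;> simp

theorem FamBO_sg_trace {ι : Type*} [Fintype ι] [DecidableEq ι] (par : ι → Bool) :
    (Matrix.diagonal (FamBO_sg K par)).trace = (Fintype.card ι : K) - 2 * (qn par : K) := by
  rw [Matrix.trace_diagonal, qn, Finset.card_filter]
  push_cast
  have h1 : ∀ i, FamBO_sg K par i = 1 - 2 * (if par i = true then 1 else 0) := by
    intro i
    unfold FamBO_sg
    split_ifs <;> ring
  rw [Finset.sum_congr rfl fun i _ => h1 i, Finset.sum_sub_distrib, Finset.sum_const,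
    Finset.card_univ, ← Finset.mul_sum]
  simp

theorem FamBO_sg_mul {ι : Type*} [Fintype ι] [DecidableEq ι] (par : ι → Bool) :
    Matrix.diagonal (FamBO_sg K par) * Matrix.diagonal (FamBO_sg K par) = 1 := by
  rw [Matrix.diagonal_mul_diagonal, ← Matrix.diagonal_one]
  congr 1
  funext i
  exact FamBO_sg_sq par i

theorem FamBO_SB_trace {q l : ℕ} :
    (SB K (X := Fin q) (Y := Fin l) (Z := Fin 1)).trace = 2 * (l : K) + 1 := by
  rw [FamBO_SB, Matrix.trace, Fintype.sum_sum_type, Fintype.sum_prod_type, Fintype.sum_sum_type]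
  have h1 : ∀ (i : Fin q) (ε : Fin 2), (FamBO_pm K (FamBO_s (X := Fin q) (Y := Fin l) (Z := Fin 1))).diag
      (Sum.inl (Sum.inl i, ε)) = 0 := by
    intro i ε
    show (if Sum.inl (Sum.inl i, ε) = Sum.inl (Sum.inl i, ε + 1) then (1 : K) else 0) = 0
    rw [if_neg]
    intro h
    rw [Sum.inl.injEq, Prod.mk.injEq] at h
    exact (FamBO_two' ε ε).2 h.2 rfl
  have h2 : ∀ (i : Fin l) (ε : Fin 2), (FamBO_pm K (FamBO_s (X := Fin q) (Y := Fin l) (Z := Fin 1))).diag
      (Sum.inl (Sum.inr i, ε)) = 1 := fun i ε => if_pos rfl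
  have h3 : ∀ w : Fin 1, (FamBO_pm K (FamBO_s (X := Fin q) (Y := Fin l) (Z := Fin 1))).diag
      (Sum.inr w) = 1 := fun w => if_pos rfl
  simp only [h1, h2, h3]
  simp
  ring

/-- type BDI, odd dimension -/
theorem quant_BO {n : Type*} [Fintype n] [DecidableEq n] (hn : Odd (Fintype.card n))
    {r : Rz K n θ} {J S : Matrix n n K}
    (hJ : r.IsJ J 1) (hS : r.IsS S) (hSS : S * S = 1) (hSJ : S.transpose * J * S = J)
    (he : IsContraction θ e)
    (hyp : ∀ (N : ℕ) (r' : Rz K (Fin N) θ) (par : Fin N → Bool), N = Fintype.card n →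
      r'.IsJ 1 1 → r'.IsPar par →
      2 * qn par ≤ N → ∀ (l : ℕ) (m : Fin l → ℕ), (∀ i, Even (m i)) → (∀ i, m i ≤ N) →
        ∀ ξ : k →ₗ[K] K, Comm (fun i => r'.gen e false (m i) (min (m i) (2 * qn par))) m ξ) :
    Quant K k := by
  obtain ⟨N, hN⟩ := hn
  -- the sign of `S`
  obtain ⟨S, hS, hSS, hSJ, q, hq, htr⟩ : ∃ S : Matrix n n K, r.IsS S ∧ S * S = 1 ∧
      S.transpose * J * S = J ∧ ∃ q : ℕ, q ≤ N ∧ S.trace = (2 * (N : K) + 1) - 2 * (q : K) := by
    obtain ⟨p, q, hpq, htr⟩ := exists_trace hSS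
    have hc : (p : K) + q = 2 * (N : K) + 1 := by
      rw [hN] at hpq
      exact_mod_cast hpq
    by_cases hq : q ≤ N
    · refine ⟨S, hS, hSS, hSJ, q, hq, ?_⟩
      rw [htr]
      linear_combination hc
    · refine ⟨-S, fun x => ?_, ?_, ?_, p, by omega, ?_⟩
      · rw [Matrix.mul_neg, Matrix.neg_mul, hS x]
      · rw [neg_mul_neg, hSS]
      · rw [Matrix.transpose_neg, Matrix.neg_mul, neg_mul_neg, hSJ]
      · rw [Matrix.trace_neg, htr]
        linear_combination hc
  have hcard : Fintype.card (Fin (2 * N + 1)) = Fintype.card n := by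
    rw [Fintype.card_fin, hN]
  set par : Fin (2 * N + 1) → Bool := fun i => parB N q i.val with hpar
  have hqn : qn par = q := FamBO_qn hq
  have htrs : S.trace = (Matrix.diagonal (FamBO_sg K par)).trace := by
    rw [FamBO_sg_trace, hqn, htr, Fintype.card_fin]
    push_cast
    ring
  have hJ1 : (-1 : K) ^ (2 * N + 1 + 1) = 1 := by
    rw [show 2 * N + 1 + 1 = 2 * (N + 1) by ring, pow_mul]
    norm_num
  -- the chain form
  obtain ⟨r1, hr1J, hr1S, hr1g⟩ := FamBO_conj hcard hJ hS hSS hSJ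
    (J' := Jalt K (2 * N + 1)) (S' := Matrix.diagonal (FamBO_sg K par))
    (by rw [Jalt_transpose, hJ1, one_smul]) (Jalt_det_ne_zero _) (FamBO_sg_mul par) (by
      ext i j
      rw [Matrix.diagonal_transpose, Matrix.mul_diagonal, Matrix.diagonal_mul]
      by_cases hij : i.val + j.val + 1 = 2 * N + 1
      · have h1 : par i = par j := by
          have h2 : j.val = 2 * N + 1 - 1 - i.val := by omega
          show parB N q i.val = parB N q j.val
          rw [h2, FamBO_rev hq i.2]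
        have h3 : FamBO_sg K par i = FamBO_sg K par j := by
          unfold FamBO_sg
          rw [h1]
        rw [h3, mul_right_comm, FamBO_sg_sq, one_mul]
      · have h1 : Jalt K (2 * N + 1) i j = 0 := if_neg hij
        rw [h1]
        ring) htrs e
  have hp1 := FamBO_sg_par hr1S
  -- the torus form
  have hcard2 : Fintype.card ((Fin q ⊕ Fin (N - q)) × Fin 2 ⊕ Fin 1) = Fintype.card n := by
    rw [Fintype.card_sum, Fintype.card_prod, Fintype.card_sum, Fintype.card_fin, Fintype.card_fin,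
      Fintype.card_fin, Fintype.card_fin, hN]
    omega
  obtain ⟨r2, hr2J, hr2S, -⟩ := FamBO_conj hcard2 hJ hS hSS hSJ
    (J' := JB K) (S' := SB K)
    (by rw [FamBO_JB, FamBO_pm_transpose FamBO_j_j])
    (by
      rw [FamBO_JB]
      exact Matrix.det_ne_zero_of_right_inverse (FamBO_pm_sq FamBO_j_j))
    (by rw [FamBO_SB, FamBO_pm_sq FamBO_s_s])
    (by rw [FamBO_SB, FamBO_JB, FamBO_pm_comm FamBO_s_s FamBO_j_j FamBO_s_j])
    (by
      rw [FamBO_SB_trace, htr, Nat.cast_sub hq]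
      ring) e
  obtain ⟨x0, hx0⟩ := FamB_index le_rfl hr2J hr2S he
  -- the diagonal form
  obtain ⟨r3, hr3J, hr3S, hr3g⟩ := FamBO_conj hcard hJ hS hSS hSJ
    (J' := 1) (S' := Matrix.diagonal (FamBO_sg K par))
    Matrix.transpose_one (by rw [Matrix.det_one]; exact one_ne_zero) (FamBO_sg_mul par)
    (by rw [Matrix.diagonal_transpose, Matrix.mul_one, FamBO_sg_mul]) htrs e
  have hp3 := FamBO_sg_par hr3S
  have hcomm : ∀ ξ : k →ₗ[K] K, Comm (fun i : Fin N =>
      r1.gen e false (2 * (i.val + 1)) (min (2 * (i.val + 1)) (2 * q)))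
      (fun i : Fin N => 2 * (i.val + 1)) ξ := by
    intro ξ
    have h1 := hyp (2 * N + 1) r3 par hN.symm hr3J hp3 (by rw [hqn]; omega) N
      (fun i => 2 * (i.val + 1)) (fun i => even_two_mul _) (fun i => by have := i.2; omega) ξ
    rw [hqn] at h1
    have h2 : (fun i : Fin N => r1.gen e false (2 * (i.val + 1)) (min (2 * (i.val + 1)) (2 * q))) =
        fun i : Fin N => r3.gen e false (2 * (i.val + 1)) (min (2 * (i.val + 1)) (2 * q)) := by
      funext i
      rw [hr1g, hr3g]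
    rw [h2]
    exact h1
  refine r1.quant_of he (fun _ => false) (fun i : Fin N => 2 * (i.val + 1))
    (fun i => min (2 * (i.val + 1)) (2 * q)) ?_ ?_ ?_ (FamBO_tests hq hr1J hp1) x0 ?_ hcomm
  · intro i j hij
    have : i.val < j.val := hij
    show 2 * (i.val + 1) < 2 * (j.val + 1)
    omega
  · intro i
    omega
  · intro i a
    rw [hp1.M_eq a]
    refine le_min (phi_natDegree_le (Mp_natDegree _ _) _ _) ?_
    have h1 := ek_Mp_natDegree_le par (r1.ρ a) (2 * (i.val + 1))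
    rw [hqn] at h1
    exact h1
  · omega

end Pool.Agent.helper49.QA
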