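import Mathlib
import Pool.Agent.helper49.QA.FamBO
import Pool.Agent.helper49.QA.PfGen

/-!
# Type BDI in even dimension: `so_{2r}`, `r ≥ 1`, with `x ↦ S x S⁻¹`, `S ^ 2 = 1`

The dimensions of the eigenspaces of `S` for `-1` and `1` are `q` and `2 r - q`; replacing `S` by
`-S` we may assume `q ≤ r`.  Generators: `ek` in the degrees `2, 4, ..., 2 (r - 1)`, exponents
`b = min (2 k, 2 q)`, and the Pfaffian with the exponent `q`.

Chain form: index type `Fin (2 r)`; `J = JD`: alternating antidiagonal on the first `2 r - 1`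
indices, and `J = 1` on the last index `f = 2 r - 1`.  Signs (`true` is `-1`): on the first
`2 r - 1` indices `parB (r - 1) q` if `q ≤ r - 1`, and `(-+)^(r-1) -` if `q = r`; on `f`: `+`.  The pencil:
`NupD`, `NdnD` = `Nup`, `Ndn` on the first `2 r - 1` indices, zero on the last row and column.
The test elements for the degree `2 k`: as in `Chain.lean` inside of the first `2 r - 1` indices, so
with zero last row and column.  Windows: as in `FamBO` for `q ≤ r - 1`, `lo = 0` for `q = r` (there
`2 k ≤ 2 r - 2`).

The Pfaffian.  Let `M = M (s NdnD + t NupD)`.  The last row and column of `J (M + t' M(a))` are zero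
if `a` is one of the test elements for the `ek`: `pfn = 0` (`pfn_sq`, the determinant is zero).  If
`s ≠ 0`: test direction `Y = E_{f,e} - ± E_{e',f}`, `e = 2 r - 2`, `e' = 0` (the projection of
`E_{f,e}`, so `Y` is in the Lie algebra).
The determinant of `M + t' Mp Y`: the last row has the only entry `t' X^ν` at the column
`e`, the last column the only entry `± t' X^ν` at the row `0`; the remaining matrix (rows
`1, ..., 2 r - 2`, columns `0, ..., 2 r - 3`) is upper triangular with the entries
`M (i+1) i = s X ^ od` on the diagonal.  So the determinant is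
`± t'^2 s^(2r-2) X^(2 ν + number of odd links)`, and `2 ν +` the number of odd links is `2 q` (for `q ≤ r - 1`:
`2 q` odd links, `ν = 0`; for `q = r`: `2 r - 2` odd links, `ν = 1`).  By `pfn_deriv_sq` the square of the
derivative is a nonzero constant times `X^(2q)`, so the derivative is a nonzero constant times
`X^q`.  If `s = 0`, `t ≠ 0`: the same with `E_{f,0}`.

Degrees: `ek` as in `FamBO`; the Pfaffian: the square of `pfn (J M(a))` is a constant times the
determinant, of degree at most `2 qn par = 2 q` (`ek_Mp_natDegree_le`, `det = ek` of the full size).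
-/


set_option autoImplicit false

namespace Pool.Agent.helper49.QA

open Polynomial Pool.Agent.helper5.AS
open Pool.Agent.helper5.ASQ (Invol even oddc brk IsContraction)
open Pool.Agent.helper90.MF (od)

variable {K : Type*} [Field K] [CharZero K] {g : Type*}
  [LieRing g] [LieAlgebra K g] {θ : Invol K g}
  {k : Type*} [LieRing k] [LieAlgebra K k] {e : g ≃ₗ[K] k}

/-- the form of the chain form -/
def JD (K : Type*) [Field K] (r : ℕ) : Matrix (Fin (2 * r)) (Fin (2 * r)) K :=
  fun i j => if i.val + j.val + 2 = 2 * r then (-1) ^ i.val else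
    if i.val + 1 = 2 * r ∧ j = i then 1 else 0

/-- the regular nilpotent matrices (they do not depend on the parity) -/
def NupD (K : Type*) [Field K] (r : ℕ) : Matrix (Fin (2 * r)) (Fin (2 * r)) K :=
  fun i j => if i.val + 1 = j.val ∧ j.val + 1 < 2 * r then 1 else 0

/-- the transposed matrix -/
def NdnD (K : Type*) [Field K] (r : ℕ) : Matrix (Fin (2 * r)) (Fin (2 * r)) K :=
  fun i j => if j.val + 1 = i.val ∧ i.val + 1 < 2 * r then 1 else 0

/-- the signs of the chain form -/
def parD (r q a : ℕ) : Bool :=
  if a + 1 = 2 * r then false else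
    if q < r then parB (r - 1) q a else decide (a % 2 = 0)

theorem JD_transpose (r : ℕ) : (JD K r).transpose = JD K r := by
  ext i j
  rw [Matrix.transpose_apply]
  simp only [JD]
  by_cases h : i.val + j.val + 2 = 2 * r
  · rw [if_pos h, if_pos (by omega)]
    have h1 : ∃ m, i.val + j.val = m + m := ⟨r - 1, by omega⟩
    obtain ⟨m, hm⟩ := h1
    have h2 : (-1 : K) ^ i.val * (-1) ^ j.val = 1 := by
      rw [← pow_add, hm, ← two_mul, pow_mul, neg_one_sq, one_pow]
    rcases neg_one_pow_eq_or K i.val with h3 | h3 <;> rw [h3] at h2 ⊢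
    · rw [one_mul] at h2
      exact h2
    · linear_combination -h2
  · rw [if_neg h, if_neg (by omega)]
    by_cases h1 : i.val + 1 = 2 * r ∧ j = i
    · rw [if_pos h1, if_pos ⟨by rw [h1.2]; exact h1.1, h1.2.symm⟩]
    · rw [if_neg h1, if_neg]
      rintro ⟨h2, h3⟩
      exact h1 ⟨by rw [h3]; exact h2, h3.symm⟩

/-- the column of the nonzero entry in a row of `JD` -/
def FamBEdef_s {r : ℕ} (i : Fin (2 * r)) : Fin (2 * r) :=
  if i.val + 1 = 2 * r then i else ⟨2 * r - 2 - i.val, by omega⟩

/-- the nonzero entry in a row of `JD` -/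
def FamBEdef_c (K : Type*) [Field K] {r : ℕ} (i : Fin (2 * r)) : K :=
  if i.val + 1 = 2 * r then 1 else (-1) ^ i.val

omit [CharZero K] in
theorem FamBEdef_JD {r : ℕ} (i j : Fin (2 * r)) :
    JD K r i j = if j = FamBEdef_s i then FamBEdef_c K i else 0 := by
  have hi := i.isLt
  have hj := j.isLt
  simp only [JD, FamBEdef_s, FamBEdef_c]
  by_cases h : i.val + 1 = 2 * r
  · simp only [if_pos h]
    rw [if_neg (by omega)]
    by_cases h2 : j = i
    · rw [if_pos ⟨h, h2⟩, if_pos h2]
    · rw [if_neg fun h3 => h2 h3.2, if_neg h2]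
  · simp only [if_neg h]
    by_cases h2 : i.val + j.val + 2 = 2 * r
    · rw [if_pos h2, if_pos (Fin.ext (by show j.val = 2 * r - 2 - i.val; omega))]
    · rw [if_neg h2, if_neg fun h3 => h h3.1, if_neg]
      intro h3
      have h4 : j.val = 2 * r - 2 - i.val := congrArg Fin.val h3
      omega

omit [CharZero K] in
theorem FamBEdef_mul {r : ℕ} (A : Matrix (Fin (2 * r)) (Fin (2 * r)) K) (i j : Fin (2 * r)) :
    (JD K r * A) i j = FamBEdef_c K i * A (FamBEdef_s i) j := by
  rw [Matrix.mul_apply, Finset.sum_eq_single (FamBEdef_s i)]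
  · rw [FamBEdef_JD, if_pos rfl]
  · intro b _ hb
    rw [FamBEdef_JD, if_neg hb, zero_mul]
  · intro h
    exact absurd (Finset.mem_univ _) h

theorem FamBEdef_mul' {r : ℕ} (A : Matrix (Fin (2 * r)) (Fin (2 * r)) K) (i j : Fin (2 * r)) :
    (A * JD K r) i j = A i (FamBEdef_s j) * FamBEdef_c K j := by
  have h : ((A * JD K r).transpose) j i = FamBEdef_c K j * A.transpose (FamBEdef_s j) i := by
    rw [Matrix.transpose_mul, JD_transpose, FamBEdef_mul]
  rw [Matrix.transpose_apply] at h
  rw [h, Matrix.transpose_apply, mul_comm]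

theorem FamBEdef_sq (r : ℕ) : JD K r * JD K r = 1 := by
  ext i j
  have hi := i.isLt
  have hj := j.isLt
  rw [FamBEdef_mul]
  simp only [JD, FamBEdef_s, FamBEdef_c]
  by_cases h : i.val + 1 = 2 * r
  · simp only [if_pos h]
    rw [if_neg (by omega), one_mul]
    by_cases h2 : j = i
    · rw [if_pos ⟨h, h2⟩, h2, Matrix.one_apply_eq]
    · rw [if_neg fun h3 => h2 h3.2, Matrix.one_apply_ne (Ne.symm h2)]
  · simp only [if_neg h]
    by_cases h2 : j = i
    · rw [h2, if_pos (by omega), Matrix.one_apply_eq, ← pow_add,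
        show i.val + (2 * r - 2 - i.val) = 2 * (r - 1) by omega, pow_mul, neg_one_sq, one_pow]
    · have h4 : j.val ≠ i.val := fun h3 => h2 (Fin.ext h3)
      rw [if_neg (by omega), if_neg (by omega), mul_zero, Matrix.one_apply_ne (Ne.symm h2)]

theorem JD_det_ne_zero (r : ℕ) : (JD K r).det ≠ 0 := by
  intro h
  have h1 := congrArg Matrix.det (FamBEdef_sq (K := K) r)
  rw [Matrix.det_mul, h, zero_mul, Matrix.det_one] at h1
  exact zero_ne_one h1

omit [CharZero K] in
theorem FamBEdef_sign {a b : ℕ} (h : (a + b) % 2 = 1) : (-1 : K) ^ a = -(-1) ^ b := by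
  rcases Nat.even_or_odd a with ha | ha
  · have hb : Odd b := by
      rw [Nat.even_iff] at ha
      rw [Nat.odd_iff]
      omega
    rw [ha.neg_one_pow, hb.neg_one_pow, neg_neg]
  · have hb : Even b := by
      rw [Nat.odd_iff] at ha
      rw [Nat.even_iff]
      omega
    rw [ha.neg_one_pow, hb.neg_one_pow]

theorem skew_NupD (r : ℕ) : (NupD K r).transpose * JD K r = -(JD K r * NupD K r) := by
  ext i j
  have hi := i.isLt
  have hj := j.isLt
  rw [FamBEdef_mul', Matrix.neg_apply, FamBEdef_mul, Matrix.transpose_apply]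
  have h1 : ∀ i j : Fin (2 * r), NupD K r (FamBEdef_s i) j =
      if i.val + j.val + 1 = 2 * r ∧ i.val + 1 < 2 * r ∧ j.val + 1 < 2 * r then 1 else 0 := by
    intro i j
    have hi := i.isLt
    have hj := j.isLt
    simp only [NupD, FamBEdef_s]
    by_cases h : i.val + 1 = 2 * r
    · simp only [if_pos h]
      rw [if_neg (by omega), if_neg (by omega)]
    · simp only [if_neg h]
      exact if_congr (by omega) rfl rfl
  rw [h1, h1]
  by_cases h : i.val + j.val + 1 = 2 * r ∧ i.val + 1 < 2 * r ∧ j.val + 1 < 2 * r
  · rw [if_pos h, if_pos (by omega), FamBEdef_c, FamBEdef_c, if_neg (by omega),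
      if_neg (by omega), one_mul, mul_one]
    exact FamBEdef_sign (by omega)
  · rw [if_neg h, if_neg (by omega), zero_mul, mul_zero, neg_zero]

theorem skew_NdnD (r : ℕ) : (NdnD K r).transpose * JD K r = -(JD K r * NdnD K r) := by
  ext i j
  have hi := i.isLt
  have hj := j.isLt
  rw [FamBEdef_mul', Matrix.neg_apply, FamBEdef_mul, Matrix.transpose_apply]
  have h1 : ∀ i j : Fin (2 * r), NdnD K r (FamBEdef_s i) j =
      if i.val + j.val + 3 = 2 * r then 1 else 0 := by
    intro i j
    have hi := i.isLt
    have hj := j.isLt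
    simp only [NdnD, FamBEdef_s]
    by_cases h : i.val + 1 = 2 * r
    · simp only [if_pos h]
      rw [if_neg (by omega), if_neg (by omega)]
    · simp only [if_neg h]
      exact if_congr (by omega) rfl rfl
  rw [h1, h1]
  by_cases h : i.val + j.val + 3 = 2 * r
  · rw [if_pos h, if_pos (by omega), FamBEdef_c, FamBEdef_c, if_neg (by omega),
      if_neg (by omega), one_mul, mul_one]
    exact FamBEdef_sign (by omega)
  · rw [if_neg h, if_neg (by omega), zero_mul, mul_zero, neg_zero]

theorem FamBE_qn {r q : ℕ} (hr : 1 ≤ r) (hq : q ≤ r) :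
    qn (fun i : Fin (2 * r) => parD r q i.val) = q := by
  rw [qn]
  conv_rhs => rw [← Finset.card_range q]
  symm
  by_cases hqr : q < r
  · refine Finset.card_bij (fun t ht => (⟨r - 1 - q + 2 * t + 1, by
      have := Finset.mem_range.1 ht
      omega⟩ : Fin (2 * r))) ?_ ?_ ?_
    · intro t ht
      have h1 := Finset.mem_range.1 ht
      rw [Finset.mem_filter]
      refine ⟨Finset.mem_univ _, ?_⟩
      show parD r q (r - 1 - q + 2 * t + 1) = true
      rw [parD, if_neg (by omega), if_pos hqr, parB, decide_eq_true_iff]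
      omega
    · intro t ht t' ht' h
      have h1 : r - 1 - q + 2 * t + 1 = r - 1 - q + 2 * t' + 1 := congrArg Fin.val h
      omega
    · intro b hb
      have hb1 := (Finset.mem_filter.1 hb).2
      have hb2 := b.isLt
      have h1 : ¬ (b.val + 1 = 2 * r) := by
        intro h
        rw [parD, if_pos h] at hb1
        exact Bool.false_ne_true hb1
      rw [parD, if_neg h1, if_pos hqr, parB, decide_eq_true_iff] at hb1
      refine ⟨(b.val - (r - 1 - q)) / 2, Finset.mem_range.2 (by omega), Fin.ext ?_⟩
      show r - 1 - q + 2 * ((b.val - (r - 1 - q)) / 2) + 1 = b.val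
      omega
  · refine Finset.card_bij (fun t ht => (⟨2 * t, by
      have := Finset.mem_range.1 ht
      omega⟩ : Fin (2 * r))) ?_ ?_ ?_
    · intro t ht
      have h1 := Finset.mem_range.1 ht
      rw [Finset.mem_filter]
      refine ⟨Finset.mem_univ _, ?_⟩
      show parD r q (2 * t) = true
      rw [parD, if_neg (by omega), if_neg hqr, decide_eq_true_iff]
      omega
    · intro t ht t' ht' h
      have h1 : 2 * t = 2 * t' := congrArg Fin.val h
      omega
    · intro b hb
      have hb1 := (Finset.mem_filter.1 hb).2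
      have hb2 := b.isLt
      have h1 : ¬ (b.val + 1 = 2 * r) := by
        intro h
        rw [parD, if_pos h] at hb1
        exact Bool.false_ne_true hb1
      rw [parD, if_neg h1, if_neg hqr, decide_eq_true_iff] at hb1
      refine ⟨b.val / 2, Finset.mem_range.2 (by omega), Fin.ext ?_⟩
      show 2 * (b.val / 2) = b.val
      omega

end Pool.Agent.helper49.QA
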