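import Mathlib
import Pool.Agent.helper49.QA.FamBEdef

/-!
# Type BDI, even dimension: the Pfaffian (see the header of FamBEdef.lean)
-/

set_option autoImplicit false

namespace Pool.Agent.helper49.QA

open Polynomial Pool.Agent.helper5.AS
open Pool.Agent.helper5.ASQ (Invol even oddc brk IsContraction)
open Pool.Agent.helper90.MF (od)

variable {K : Type*} [Field K] [CharZero K] {g : Type*}
  [LieRing g] [LieAlgebra K g] {θ : Invol K g}
  {k : Type*} [LieRing k] [LieAlgebra K k] {e : g ≃ₗ[K] k}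

theorem FamBEpf_ek_card {n : Type*} [Fintype n] [DecidableEq n] {R : Type*} [CommRing R]
    (M : Matrix n n R) : ek (Fintype.card n) M = M.det := by
  rw [ek_eq_sum, ← Finset.card_univ, Finset.powersetCard_self, Finset.sum_singleton]
  have h := Matrix.det_submatrix_equiv_self
    (Equiv.subtypeUnivEquiv (p := fun i : n => i ∈ (Finset.univ : Finset n))
      fun i => Finset.mem_univ i) M
  refine Eq.trans ?_ h
  rw [Matrix.det_apply, Matrix.det_apply]
  refine Finset.sum_congr ?_ fun σ _ => ?_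
  · ext σ
    simp only [Finset.mem_univ]
  · rfl

theorem FamBEpf_tri {N : ℕ} {R : Type*} [CommRing R] (W : Matrix (Fin N) (Fin N) R)
    (σ : Equiv.Perm (Fin N)) (h : ∀ i k : Fin N, k < i → W i (σ k) = 0) :
    W.det = ∏ i, W i (σ i) ∨ W.det = -∏ i, W i (σ i) := by
  have h1 : (W.submatrix id σ).det = ∏ i, W i (σ i) := by
    rw [Matrix.det_of_isUpperTriangular]
    · rfl
    · intro i j hij
      exact h i j hij
  have h2 := Matrix.det_permute' σ W
  rw [h1] at h2
  rcases Int.units_eq_one_or (Equiv.Perm.sign σ) with h3 | h3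
  · left
    rw [h3] at h2
    simpa using h2.symm
  · right
    rw [h3] at h2
    rw [h2]
    simp

theorem FamBEpf_rot {N : ℕ} (hN : 1 ≤ N) (i : Fin N) :
    (finRotate N i).val = if i.val + 1 = N then 0 else i.val + 1 := by
  obtain ⟨n, rfl⟩ : ∃ n, N = n + 1 := ⟨N - 1, by omega⟩
  have h := coe_finRotate i
  rw [h]
  refine if_congr ⟨fun h1 => ?_, fun h1 => ?_⟩ rfl rfl
  · rw [h1, Fin.val_last]
  · apply Fin.ext
    rw [Fin.val_last]
    omega

theorem FamBEpf_rot_symm {N : ℕ} (hN : 1 ≤ N) (i : Fin N) :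
    ((finRotate N).symm i).val = if i.val = 0 then N - 1 else i.val - 1 := by
  have h := FamBEpf_rot hN ((finRotate N).symm i)
  rw [Equiv.apply_symm_apply] at h
  have h1 := ((finRotate N).symm i).2
  split_ifs at h ⊢ <;> omega

/-- the odd links of the cycle -/
theorem FamBEpf_cycle {l q : ℕ} (hl : 1 ≤ l) (hq : q ≤ l) :
    ∑ j : Fin (2 * l), od (fun i : Fin (2 * l) => parD l q i.val) j (finRotate (2 * l) j) =
      2 * q := by
  have h1 : ∀ j : Fin (2 * l),
      od (fun i : Fin (2 * l) => parD l q i.val) j (finRotate (2 * l) j) =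
      (fun i : ℕ => if parD l q i = parD l q (if i + 1 = 2 * l then 0 else i + 1) then 0 else 1)
        j.val := by
    intro j
    unfold od
    simp only [FamBEpf_rot (show 1 ≤ 2 * l by omega) j]
  rw [Finset.sum_congr rfl fun j _ => h1 j, Fin.sum_univ_eq_sum_range
    (fun i : ℕ => if parD l q i = parD l q (if i + 1 = 2 * l then 0 else i + 1) then 0 else 1)]
  rcases Nat.lt_or_ge q l with hql | hql
  · have h2 : ∀ i ∈ Finset.range (2 * l),
        (if parD l q i = parD l q (if i + 1 = 2 * l then 0 else i + 1) then 0 else 1) =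
        if (l - 1 - q ≤ i ∧ i < l - 1 - q + 2 * q) then 1 else 0 := by
      intro i hi
      rw [Finset.mem_range] at hi
      have h3 : (parD l q i = parD l q (if i + 1 = 2 * l then 0 else i + 1)) ↔
          ¬ (l - 1 - q ≤ i ∧ i < l - 1 - q + 2 * q) := by
        unfold parD parB
        split_ifs <;> simp only [decide_eq_decide, eq_comm (a := false), decide_eq_false_iff_not,
          true_iff] <;> omega
      by_cases h4 : (l - 1 - q ≤ i ∧ i < l - 1 - q + 2 * q)
      · rw [if_pos h4, if_neg]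
        exact fun h5 => h3.1 h5 h4
      · rw [if_neg h4, if_pos (h3.2 h4)]
    rw [Finset.sum_congr rfl h2, ← Finset.sum_filter]
    have h5 : (Finset.range (2 * l)).filter (fun i => l - 1 - q ≤ i ∧ i < l - 1 - q + 2 * q) =
        Finset.Ico (l - 1 - q) (l - 1 - q + 2 * q) := by
      ext i
      rw [Finset.mem_filter, Finset.mem_Ico, Finset.mem_range]
      omega
    rw [h5, Finset.sum_const, Nat.card_Ico, smul_eq_mul, mul_one]
    omega
  · have h2 : ∀ i ∈ Finset.range (2 * l),
        (if parD l q i = parD l q (if i + 1 = 2 * l then 0 else i + 1) then 0 else 1) = 1 := by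
      intro i hi
      rw [Finset.mem_range] at hi
      rw [if_neg]
      unfold parD
      split_ifs
      all_goals first
        | omega
        | (simp only [decide_eq_decide, eq_comm (a := false), decide_eq_false_iff_not]; omega)
        | simp
    rw [Finset.sum_congr rfl h2, Finset.sum_const, Finset.card_range, smul_eq_mul, mul_one]
    omega

theorem FamBEpf_od_comm {n : Type*} (par : n → Bool) (i j : n) : od par i j = od par j i := by
  unfold od
  exact if_congr eq_comm rfl rfl

theorem FamBEpf_cycle' {l q : ℕ} (hl : 1 ≤ l) (hq : q ≤ l) :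
    ∑ j : Fin (2 * l), od (fun i : Fin (2 * l) => parD l q i.val) j
      ((finRotate (2 * l)).symm j) = 2 * q := by
  rw [← FamBEpf_cycle hl hq, ← Equiv.sum_comp (finRotate (2 * l))]
  refine Finset.sum_congr rfl fun j _ => ?_
  rw [Equiv.symm_apply_apply, FamBEpf_od_comm]

/-- the test matrix -/
def FamBEpf_Y (K : Type*) [Field K] {N : ℕ} (f e e' : Fin N) : Matrix (Fin N) (Fin N) K :=
  Matrix.single f e 1 - Matrix.single e' f 1

theorem FamBEpf_Y_skew {l : ℕ} {f e e' : Fin (2 * l)} (hf : f.val + 1 = 2 * l)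
    (he : e.val + e'.val + 2 = 2 * l) (hev : Even e.val) :
    (FamBEpf_Y K f e e').transpose * JD K l = -(JD K l * FamBEpf_Y K f e e') := by
  have h0 : ∀ i, JD K l i f = if i = f then 1 else 0 := by
    intro i
    unfold JD
    rw [if_neg (by have := i.2; omega)]
    refine if_congr ⟨fun h => h.2.symm, fun h => ?_⟩ rfl rfl
    rw [h]
    exact ⟨hf, rfl⟩
  have h1 : ∀ i, JD K l i e' = if i = e then 1 else 0 := by
    intro i
    unfold JD
    by_cases h : i = e
    · rw [if_pos h, if_pos (by rw [h]; omega), h, hev.neg_one_pow]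
    · rw [if_neg h, if_neg (by intro h2; apply h; apply Fin.ext; omega), if_neg]
      rintro ⟨h2, h3⟩
      rw [← h3] at h2
      omega
  have h2 : JD K l * FamBEpf_Y K f e e' = Matrix.single f e 1 - Matrix.single e f 1 := by
    ext i k
    rw [FamBEpf_Y, Matrix.mul_sub, Matrix.sub_apply, Matrix.sub_apply, Matrix.mul_apply,
      Matrix.mul_apply]
    congr 1
    · simp only [Matrix.single_apply, mul_ite, mul_one, mul_zero]
      by_cases hk : e = k
      · simp only [hk, and_true]
        rw [Finset.sum_ite_eq Finset.univ f, if_pos (Finset.mem_univ _), h0]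
        exact if_congr eq_comm rfl rfl
      · simp [hk]
    · simp only [Matrix.single_apply, mul_ite, mul_one, mul_zero]
      by_cases hk : f = k
      · simp only [hk, and_true]
        rw [Finset.sum_ite_eq Finset.univ e', if_pos (Finset.mem_univ _), h1]
        exact if_congr eq_comm rfl rfl
      · simp [hk]
  have h3 : (FamBEpf_Y K f e e').transpose * JD K l =
      (JD K l * FamBEpf_Y K f e e').transpose := by
    rw [Matrix.transpose_mul, JD_transpose]
  rw [h3, h2, Matrix.transpose_sub, neg_sub, Matrix.transpose_single, Matrix.transpose_single]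

/-- the product of the entries -/
theorem FamBEpf_coeff {N : ℕ} {d : ℕ} (W : Matrix (Fin N) (Fin N) K[X][X])
    (σ : Equiv.Perm (Fin N)) (h : ∀ i k : Fin N, k < i → W i (σ k) = 0) (o : Fin N → ℕ)
    (u : Fin N → K) (τ : Fin N → ℕ) (hu : ∀ i, u i ≠ 0) (hτ : ∑ i, τ i = 2)
    (ho : ∑ i, o i = d)
    (hW : ∀ i, W i (σ i) = C ((X : K[X]) ^ o i) * C (C (u i)) * (X : K[X][X]) ^ τ i) :
    ∃ c : K, c ≠ 0 ∧ W.det.coeff 2 = C c * (X : K[X]) ^ d := by
  have h1 : ∏ i, W i (σ i) = C (C (∏ i, u i) * (X : K[X]) ^ d) * (X : K[X][X]) ^ 2 := by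
    rw [Finset.prod_congr rfl fun i _ => hW i, Finset.prod_mul_distrib, Finset.prod_mul_distrib,
      Finset.prod_pow_eq_pow_sum, hτ, ← map_prod, ← map_prod, ← map_prod,
      Finset.prod_pow_eq_pow_sum, ho, ← map_mul, mul_comm (X ^ d)]
  have h2 : (∏ i, W i (σ i)).coeff 2 = C (∏ i, u i) * (X : K[X]) ^ d := by
    rw [h1, coeff_C_mul, coeff_X_pow_self, mul_one]
  have h3 : ∏ i, u i ≠ 0 := Finset.prod_ne_zero_iff.2 fun i _ => hu i
  rcases FamBEpf_tri W σ h with h4 | h4
  · exact ⟨∏ i, u i, h3, by rw [h4, h2]⟩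
  · exact ⟨-∏ i, u i, neg_ne_zero.2 h3, by rw [h4, coeff_neg, h2, C_neg, neg_mul]⟩

theorem FamBEpf_sqrt {D : K[X]} {c : K} {q : ℕ} (hc : c ≠ 0)
    (h : D ^ 2 = C c * (X : K[X]) ^ (2 * q)) : D.coeff q ≠ 0 := by
  have h1 : D ≠ 0 := by
    rintro rfl
    rw [zero_pow two_ne_zero] at h
    exact mul_ne_zero (C_ne_zero.2 hc) (pow_ne_zero _ X_ne_zero) h.symm
  have h2 := congrArg natDegree h
  rw [natDegree_pow, natDegree_C_mul_X_pow _ _ hc] at h2
  have h3 : D.natDegree = q := by omega
  rw [← h3, coeff_natDegree]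
  exact leadingCoeff_ne_zero.2 h1

theorem FamBEpf_lineM {n : Type*} [Fintype n] [DecidableEq n] {par : n → Bool}
    (A B : Matrix n n K) (i j : n) :
    lineM (Mp par A) (Mp par B) i j =
      C ((X : K[X]) ^ od par i j) * (C (C (A i j)) + X * C (C (B i j))) := by
  show C (X ^ od par i j * C (A i j)) + X * C (X ^ od par i j * C (B i j)) = _
  rw [map_mul, map_mul]
  ring

theorem FamBEpf_skewM {l : ℕ} {r : Rz K (Fin (2 * l)) θ} (hJ : r.IsJ (JD K l) 1) (a : g) :
    ((JD K l).map (C : K →+* K[X]) * r.M a).transpose =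
      -((JD K l).map (C : K →+* K[X]) * r.M a) := by
  have h1 : ∀ x : g, ((r.ρ x).map (C : K →+* K[X])).transpose * (JD K l).map (C : K →+* K[X]) =
      -((JD K l).map (C : K →+* K[X]) * (r.ρ x).map (C : K →+* K[X])) := by
    intro x
    rw [← Matrix.transpose_map, ← Matrix.map_mul, hJ.skew x]
    ext1 i j
    rw [Matrix.neg_apply, ← Matrix.map_mul, Matrix.map_apply, Matrix.neg_apply, map_neg,
      Matrix.map_apply]
  have h2 : ((JD K l).map (C : K →+* K[X])).transpose = (JD K l).map (C : K →+* K[X]) := by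
    rw [← Matrix.transpose_map, JD_transpose]
  have h3 : r.M a = (r.ρ (even θ a)).map (C : K →+* K[X]) +
      (X : K[X]) • (r.ρ (oddc θ a)).map (C : K →+* K[X]) := rfl
  rw [Matrix.transpose_mul, h2, h3, Matrix.transpose_add, Matrix.transpose_smul, Matrix.add_mul,
    Matrix.smul_mul, h1, h1, Matrix.mul_add, Matrix.mul_smul, neg_add, smul_neg]

theorem FamBEpf_Y_apply {l : ℕ} {f e e' : Fin (2 * l)} (hf : f.val + 1 = 2 * l)
    (i j : Fin (2 * l)) : FamBEpf_Y K f e e' i j =
      (if i.val + 1 = 2 * l ∧ j.val = e.val then 1 else 0) -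
        (if i.val = e'.val ∧ j.val + 1 = 2 * l then 1 else 0) := by
  rw [FamBEpf_Y, Matrix.sub_apply, Matrix.single_apply, Matrix.single_apply]
  congr 1
  · refine if_congr ⟨?_, ?_⟩ rfl rfl
    · rintro ⟨rfl, rfl⟩
      exact ⟨hf, rfl⟩
    · rintro ⟨h1, h2⟩
      exact ⟨Fin.ext (by omega), Fin.ext h2.symm⟩
  · refine if_congr ⟨?_, ?_⟩ rfl rfl
    · rintro ⟨rfl, rfl⟩
      exact ⟨rfl, hf⟩
    · rintro ⟨h1, h2⟩
      exact ⟨Fin.ext h1.symm, Fin.ext (by omega)⟩

theorem FamBEpf_tau {N : ℕ} {a b : Fin N} (hab : a ≠ b) :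
    ∑ i : Fin N, (if i = a ∨ i = b then 1 else 0) = 2 := by
  rw [← Finset.card_filter]
  have h : (Finset.univ.filter fun i : Fin N => i = a ∨ i = b) = {a, b} := by
    ext i
    simp
  rw [h, Finset.card_pair hab]

/-- the test element for the Pfaffian -/
theorem FamBE_pf_test {l q : ℕ} (hl : 1 ≤ l) (hq : q ≤ l) {r : Rz K (Fin (2 * l)) θ}
    (hJ : r.IsJ (JD K l) 1) (hp : r.IsPar fun i => parD l q i.val)
    (pr : Fin l × Fin 2 ≃ Fin (2 * l)) {p0 q0 : g}
    (hp0 : r.ρ p0 = NdnD K l) (hq0 : r.ρ q0 = NupD K l) {s t : K} (hst : ¬ (s = 0 ∧ t = 0)) :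
    ∃ a : g, dd (r.pnt e (s • p0 + t • q0)) (r.pnt e a)
      (smap (e : g →ₗ[K] k) ((scS θ (r.PF pr (JD K l))).coeff q)) ≠ 0 := by
  have hx : r.ρ (s • p0 + t • q0) = s • NdnD K l + t • NupD K l := by
    rw [map_add, map_smul, map_smul, hp0, hq0]
  generalize s • p0 + t • q0 = x at hx ⊢
  have hA : ∀ i j, r.ρ x i j =
      s * (if j.val + 1 = i.val ∧ i.val + 1 < 2 * l then 1 else 0) +
        t * (if i.val + 1 = j.val ∧ j.val + 1 < 2 * l then 1 else 0) := by
    intro i j
    rw [hx]
    rfl
  obtain ⟨f, hf⟩ : ∃ f : Fin (2 * l), f.val + 1 = 2 * l := ⟨⟨2 * l - 1, by omega⟩, by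
    show 2 * l - 1 + 1 = 2 * l
    omega⟩
  obtain ⟨e0, he0⟩ : ∃ f : Fin (2 * l), f.val + 2 = 2 * l := ⟨⟨2 * l - 2, by omega⟩, by
    show 2 * l - 2 + 2 = 2 * l
    omega⟩
  obtain ⟨z, hz⟩ : ∃ f : Fin (2 * l), f.val = 0 := ⟨⟨0, by omega⟩, rfl⟩
  have hdet0 : (r.M x).det = 0 := by
    apply Matrix.det_eq_zero_of_row_eq_zero f
    intro j
    rw [hp.M_eq x]
    show X ^ _ * C (r.ρ x f j) = 0
    rw [hA, if_neg (by omega), if_neg (by omega)]
    simp
  have hpf0 : pfn pr ((JD K l).map (C : K →+* K[X]) * r.M x) = 0 := by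
    obtain ⟨N, _, h⟩ := pfn_sq pr
    have h1 := h K[X] _ (FamBEpf_skewM hJ x)
    rw [Matrix.det_mul, hdet0, mul_zero, mul_zero] at h1
    exact (pow_eq_zero_iff two_ne_zero).1 h1
  have key : ∀ Y : Matrix (Fin (2 * l)) (Fin (2 * l)) K,
      Y.transpose * JD K l = -(JD K l * Y) →
      (∃ c : K, c ≠ 0 ∧ (lineM (Mp (fun i => parD l q i.val) (r.ρ x))
        (Mp (fun i => parD l q i.val) Y)).det.coeff 2 = C c * X ^ (2 * q)) →
      ∃ a : g, dd (r.pnt e x) (r.pnt e a)
        (smap (e : g →ₗ[K] k) ((scS θ (r.PF pr (JD K l))).coeff q)) ≠ 0 := by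
    rintro Y hY ⟨c, hc, hdet⟩
    obtain ⟨a, ha⟩ := hJ.surj hY
    refine ⟨a, ?_⟩
    rw [r.dd_PF pr e q x a]
    have hl2 : (JD K l).map ((C : K[X] →+* K[X][X]).comp (C : K →+* K[X])) *
        lineM (r.M x) (r.M a) =
        lineM ((JD K l).map (C : K →+* K[X]) * r.M x) ((JD K l).map (C : K →+* K[X]) * r.M a) := by
      rw [lineM, lineM, Matrix.mul_add, Matrix.mul_smul, Matrix.map_mul, Matrix.map_mul,
        Matrix.map_map]
      rfl
    have hdetl : (lineM ((JD K l).map (C : K →+* K[X]) * r.M x)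
        ((JD K l).map (C : K →+* K[X]) * r.M a)).det =
        C (C (JD K l).det) * (lineM (r.M x) (r.M a)).det := by
      rw [← hl2, Matrix.det_mul]
      congr 1
      rw [← RingHom.comp_apply, RingHom.map_det]
      rfl
    rw [hl2]
    obtain ⟨N, hN, h⟩ := pfn_deriv_sq pr
    have h5 := h K[X] _ _ (FamBEpf_skewM hJ x) (FamBEpf_skewM hJ a) hpf0
    rw [hdetl, coeff_C_mul, hp.M_eq x, hp.M_eq a, ha, hdet] at h5
    rw [hp.M_eq x, hp.M_eq a, ha]
    refine FamBEpf_sqrt (c := (N : K) * (JD K l).det * c)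
      (mul_ne_zero (mul_ne_zero (Nat.cast_ne_zero.2 hN) hJ.det) hc) ?_
    rw [h5, map_mul, map_mul, map_natCast]
    ring
  have hzf : z ≠ f := by
    intro h
    rw [h] at hz
    omega
  have hef : e0 ≠ f := by
    intro h
    rw [h] at he0
    omega
  by_cases hs : s = 0
  · have ht : t ≠ 0 := fun ht => hst ⟨hs, ht⟩
    refine key (FamBEpf_Y K f z e0) (FamBEpf_Y_skew hf (by omega) (by rw [hz]; exact Even.zero)) ?_
    refine FamBEpf_coeff _ (finRotate (2 * l)) ?_
      (fun i => od (fun i : Fin (2 * l) => parD l q i.val) i (finRotate (2 * l) i))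
      (fun i => if i = e0 then -1 else if i = f then 1 else t)
      (fun i => if i = e0 ∨ i = f then 1 else 0) ?_ (FamBEpf_tau hef) (FamBEpf_cycle hl hq) ?_
    · intro i k hik
      have h1 := FamBEpf_rot (show 1 ≤ 2 * l by omega) k
      have h2 : k.val < i.val := hik
      have h3 := i.2
      rw [if_neg (by omega)] at h1
      rw [FamBEpf_lineM, hA, FamBEpf_Y_apply hf, hs, if_neg (show ¬ (i.val + 1 =
        (finRotate (2 * l) k).val ∧ (finRotate (2 * l) k).val + 1 < 2 * l) by omega),
        if_neg (show ¬ (i.val + 1 = 2 * l ∧ (finRotate (2 * l) k).val = z.val) by omega),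
        if_neg (show ¬ (i.val = e0.val ∧ (finRotate (2 * l) k).val + 1 = 2 * l) by omega)]
      first | (simp; done) | (simp; ring)
    · intro i
      show (if i = e0 then -1 else if i = f then 1 else t) ≠ 0
      split_ifs
      · exact neg_ne_zero.2 one_ne_zero
      · exact one_ne_zero
      · exact ht
    · intro i
      have h1 := FamBEpf_rot (show 1 ≤ 2 * l by omega) i
      have h3 := i.2
      rw [FamBEpf_lineM, hA, FamBEpf_Y_apply hf, hs]
      show _ = C _ * C (C (if i = e0 then -1 else if i = f then 1 else t)) *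
        X ^ (if i = e0 ∨ i = f then 1 else 0)
      by_cases hi1 : i = e0
      · rw [hi1] at h1 ⊢
        rw [if_neg (by omega)] at h1
        rw [if_neg (show ¬ (e0.val + 1 = (finRotate (2 * l) e0).val ∧
          (finRotate (2 * l) e0).val + 1 < 2 * l) by omega),
          if_neg (show ¬ (e0.val + 1 = 2 * l ∧ (finRotate (2 * l) e0).val = z.val) by omega),
          if_pos (show (e0.val = e0.val ∧ (finRotate (2 * l) e0).val + 1 = 2 * l) by omega),
          if_pos rfl, if_pos (Or.inl rfl)]
        first | (simp; done) | (simp; ring)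
      · by_cases hi2 : i = f
        · rw [hi2] at h1 ⊢
          rw [if_pos (by omega)] at h1
          rw [if_neg (show ¬ (f.val + 1 = (finRotate (2 * l) f).val ∧
            (finRotate (2 * l) f).val + 1 < 2 * l) by omega),
            if_pos (show (f.val + 1 = 2 * l ∧ (finRotate (2 * l) f).val = z.val) by omega),
            if_neg (show ¬ (f.val = e0.val ∧ (finRotate (2 * l) f).val + 1 = 2 * l) by omega),
            if_neg hef.symm, if_pos rfl, if_pos (Or.inr rfl)]
          first | (simp; done) | (simp; ring)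
        · have h4 : i.val + 2 < 2 * l := by
            have h5 : i.val ≠ e0.val := fun h => hi1 (Fin.ext h)
            have h6 : i.val ≠ f.val := fun h => hi2 (Fin.ext h)
            omega
          rw [if_neg (by omega)] at h1
          rw [if_pos (show (i.val + 1 = (finRotate (2 * l) i).val ∧
            (finRotate (2 * l) i).val + 1 < 2 * l) by omega),
            if_neg (show ¬ (i.val + 1 = 2 * l ∧ (finRotate (2 * l) i).val = z.val) by omega),
            if_neg (show ¬ (i.val = e0.val ∧ (finRotate (2 * l) i).val + 1 = 2 * l) by omega),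
            if_neg hi1, if_neg hi2, if_neg (show ¬ (i = e0 ∨ i = f) from fun h => h.elim hi1 hi2)]
          first | (simp; done) | (simp; ring)
  · refine key (FamBEpf_Y K f e0 z) (FamBEpf_Y_skew hf (by omega) ⟨l - 1, by omega⟩) ?_
    refine FamBEpf_coeff _ (finRotate (2 * l)).symm ?_
      (fun i => od (fun i : Fin (2 * l) => parD l q i.val) i ((finRotate (2 * l)).symm i))
      (fun i => if i = z then -1 else if i = f then 1 else s)
      (fun i => if i = z ∨ i = f then 1 else 0) ?_ (FamBEpf_tau hzf) (FamBEpf_cycle' hl hq) ?_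
    · intro i k hik
      have h1 := FamBEpf_rot_symm (show 1 ≤ 2 * l by omega) k
      have h2 : k.val < i.val := hik
      have h3 := i.2
      generalize (finRotate (2 * l)).symm k = j at h1 ⊢
      rw [FamBEpf_lineM, hA, FamBEpf_Y_apply hf,
        if_neg (show ¬ (j.val + 1 = i.val ∧ i.val + 1 < 2 * l) by split_ifs at h1 <;> omega),
        if_neg (show ¬ (i.val + 1 = j.val ∧ j.val + 1 < 2 * l) by split_ifs at h1 <;> omega),
        if_neg (show ¬ (i.val + 1 = 2 * l ∧ j.val = e0.val) by split_ifs at h1 <;> omega),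
        if_neg (show ¬ (i.val = z.val ∧ j.val + 1 = 2 * l) by split_ifs at h1 <;> omega)]
      first | (simp; done) | (simp; ring)
    · intro i
      show (if i = z then -1 else if i = f then 1 else s) ≠ 0
      split_ifs
      · exact neg_ne_zero.2 one_ne_zero
      · exact one_ne_zero
      · exact hs
    · intro i
      have h1 := FamBEpf_rot_symm (show 1 ≤ 2 * l by omega) i
      have h3 := i.2
      rw [FamBEpf_lineM, hA, FamBEpf_Y_apply hf]
      show C (X ^ od (fun i : Fin (2 * l) => parD l q i.val) i ((finRotate (2 * l)).symm i)) * _ =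
        C (X ^ od (fun i : Fin (2 * l) => parD l q i.val) i ((finRotate (2 * l)).symm i)) *
        C (C (if i = z then -1 else if i = f then 1 else s)) *
        X ^ (if i = z ∨ i = f then 1 else 0)
      generalize (finRotate (2 * l)).symm i = j at h1 ⊢
      by_cases hi1 : i = z
      · rw [hi1] at h1 ⊢
        rw [if_pos hz] at h1
        rw [if_neg (show ¬ (j.val + 1 = z.val ∧ z.val + 1 < 2 * l) by omega),
          if_neg (show ¬ (z.val + 1 = j.val ∧ j.val + 1 < 2 * l) by omega),
          if_neg (show ¬ (z.val + 1 = 2 * l ∧ j.val = e0.val) by omega),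
          if_pos (show (z.val = z.val ∧ j.val + 1 = 2 * l) by omega),
          if_pos rfl, if_pos (Or.inl rfl)]
        first | (simp; done) | (simp; ring)
      · by_cases hi2 : i = f
        · rw [hi2] at h1 ⊢
          rw [if_neg (by omega)] at h1
          rw [if_neg (show ¬ (j.val + 1 = f.val ∧ f.val + 1 < 2 * l) by omega),
            if_neg (show ¬ (f.val + 1 = j.val ∧ j.val + 1 < 2 * l) by omega),
            if_pos (show (f.val + 1 = 2 * l ∧ j.val = e0.val) by omega),
            if_neg (show ¬ (f.val = z.val ∧ j.val + 1 = 2 * l) by omega),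
            if_neg hzf.symm, if_pos rfl, if_pos (Or.inr rfl)]
          first | (simp; done) | (simp; ring)
        · have h5 : i.val ≠ z.val := fun h => hi1 (Fin.ext h)
          have h6 : i.val ≠ f.val := fun h => hi2 (Fin.ext h)
          rw [if_neg (by omega)] at h1
          rw [if_pos (show (j.val + 1 = i.val ∧ i.val + 1 < 2 * l) by omega),
            if_neg (show ¬ (i.val + 1 = j.val ∧ j.val + 1 < 2 * l) by omega),
            if_neg (show ¬ (i.val + 1 = 2 * l ∧ j.val = e0.val) by omega),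
            if_neg (show ¬ (i.val = z.val ∧ j.val + 1 = 2 * l) by omega),
            if_neg hi1, if_neg hi2, if_neg (show ¬ (i = z ∨ i = f) from fun h => h.elim hi1 hi2)]
          first | (simp; done) | (simp; ring)

/-- the degree of the Pfaffian -/
theorem FamBE_pf_degree {l q : ℕ} (hl : 1 ≤ l) (hq : q ≤ l) {r : Rz K (Fin (2 * l)) θ}
    (hJ : r.IsJ (JD K l) 1) (hp : r.IsPar fun i => parD l q i.val)
    (pr : Fin l × Fin 2 ≃ Fin (2 * l)) : (scS θ (r.PF pr (JD K l))).natDegree ≤ q := by
  refine r.PF_degree_le pr q fun a => ?_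
  obtain ⟨N, hN, h⟩ := pfn_sq pr
  have h1 := h K[X] _ (FamBEpf_skewM hJ a)
  have h2 : (Matrix.det ((JD K l).map (C : K →+* K[X]) * r.M a)).natDegree ≤ 2 * q := by
    rw [Matrix.det_mul]
    have h3 : ((JD K l).map (C : K →+* K[X])).det = C (JD K l).det := by
      rw [RingHom.map_det]
      rfl
    have h7 : (Mp (fun i : Fin (2 * l) => parD l q i.val) (r.ρ a)).det.natDegree ≤ 2 * q := by
      rw [← FamBEpf_ek_card]
      refine (ek_Mp_natDegree_le _ _ _).trans ?_
      rw [FamBE_qn hl hq]
    rw [h3, hp.M_eq a]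
    exact (natDegree_C_mul_le _ _).trans h7
  have h4 := congrArg natDegree h1
  rw [natDegree_pow, ← C_eq_natCast] at h4
  have h5 := (natDegree_C_mul_le ((N : K)) (Matrix.det ((JD K l).map (C : K →+* K[X]) * r.M a)))
  have h6 : (C (N : K) : K[X]) = ((N : K[X])) := by simp
  omega

end Pool.Agent.helper49.QA
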