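import Mathlib
import Pool.Agent.helper49.QA.FamBEdef

/-!
# Type BDI, even dimension: test elements (see the header of FamBEdef.lean)
-/

set_option autoImplicit false

namespace Pool.Agent.helper49.QA

open Polynomial Pool.Agent.helper5.AS
open Pool.Agent.helper5.ASQ (Invol even oddc brk IsContraction)
open Pool.Agent.helper90.MF (od)

variable {K : Type*} [Field K] [CharZero K] {g : Type*}
  [LieRing g] [LieAlgebra K g] {θ : Invol K g}
  {k : Type*} [LieRing k] [LieAlgebra K k] {e : g ≃ₗ[K] k}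

/-! ### restriction to a block -/

section block

variable {ι κ : Type*} [Fintype ι] [DecidableEq ι] [Fintype κ] [DecidableEq κ]
  {R : Type*} [CommRing R] {f : ι → κ}

theorem FamBEt_sub_pow (hf : Function.Injective f) {A : Matrix κ κ R}
    (hA : ∀ i, i ∉ Set.range f → ∀ j, A i j = 0) (j : ℕ) :
    (A ^ j).submatrix f f = (A.submatrix f f) ^ j := by
  induction j with
  | zero =>
    ext a b
    rw [pow_zero, pow_zero, Matrix.submatrix_apply, Matrix.one_apply, Matrix.one_apply]
    exact if_congr hf.eq_iff rfl rfl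
  | succ j ih =>
    rw [pow_succ, pow_succ, ← ih]
    ext a b
    rw [Matrix.submatrix_apply, Matrix.mul_apply, Matrix.mul_apply]
    refine (Fintype.sum_of_injective f hf _ _ ?_ ?_).symm
    · intro i hi
      rw [hA i hi, mul_zero]
    · intro i
      rfl

theorem FamBEt_trace (hf : Function.Injective f) {A B : Matrix κ κ R}
    (hA : ∀ i, i ∉ Set.range f → ∀ j, A i j = 0)
    (hB : ∀ i, i ∉ Set.range f → ∀ j, B i j = 0 ∧ B j i = 0) (j : ℕ) :
    (A ^ j * B).trace = ((A.submatrix f f) ^ j * B.submatrix f f).trace := by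
  rw [← FamBEt_sub_pow hf hA]
  unfold Matrix.trace
  refine (Fintype.sum_of_injective f hf _ _ ?_ ?_).symm
  · intro i hi
    rw [Matrix.diag_apply, Matrix.mul_apply]
    exact Finset.sum_eq_zero fun k _ => by rw [(hB i hi k).2, mul_zero]
  · intro i
    rw [Matrix.diag_apply, Matrix.diag_apply, Matrix.mul_apply, Matrix.mul_apply]
    refine Fintype.sum_of_injective f hf _ _ ?_ ?_
    · intro k hk
      rw [(hB k hk _).1, mul_zero]
    · intro k
      rfl

end block

/-! ### extension by a zero row and column -/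

/-- the inclusion of the first `N` indices -/
def FamBEt_f {N l : ℕ} (hN : N + 1 = 2 * l) (i : Fin N) : Fin (2 * l) := ⟨i.val, by omega⟩

theorem FamBEt_f_inj {N l : ℕ} (hN : N + 1 = 2 * l) : Function.Injective (FamBEt_f hN) := by
  intro a b h
  have h1 := congrArg Fin.val h
  exact Fin.ext h1

theorem FamBEt_cases {N l : ℕ} (hN : N + 1 = 2 * l) (i : Fin (2 * l)) :
    (∃ a, i = FamBEt_f hN a) ∨ i.val + 1 = 2 * l := by
  by_cases h : i.val < N
  · exact Or.inl ⟨⟨i.val, h⟩, rfl⟩
  · right
    have := i.2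
    omega

theorem FamBEt_range {N l : ℕ} (hN : N + 1 = 2 * l) {i : Fin (2 * l)}
    (hi : i ∉ Set.range (FamBEt_f hN)) : i.val + 1 = 2 * l := by
  rcases FamBEt_cases hN i with ⟨a, rfl⟩ | h
  · exact absurd ⟨a, rfl⟩ hi
  · exact h

/-- extension by zero -/
def FamBEt_ext {N l : ℕ} (A : Matrix (Fin N) (Fin N) K) : Matrix (Fin (2 * l)) (Fin (2 * l)) K :=
  fun i j => if h : i.val < N ∧ j.val < N then A ⟨i.val, h.1⟩ ⟨j.val, h.2⟩ else 0

theorem FamBEt_ext_f {N l : ℕ} (hN : N + 1 = 2 * l) (A : Matrix (Fin N) (Fin N) K)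
    (a b : Fin N) : FamBEt_ext (l := l) A (FamBEt_f hN a) (FamBEt_f hN b) = A a b := by
  unfold FamBEt_ext
  exact dif_pos ⟨a.2, b.2⟩

theorem FamBEt_ext_last {N l : ℕ} (hN : N + 1 = 2 * l) (A : Matrix (Fin N) (Fin N) K)
    {i : Fin (2 * l)} (hi : i.val + 1 = 2 * l) (j : Fin (2 * l)) :
    FamBEt_ext (l := l) A i j = 0 ∧ FamBEt_ext (l := l) A j i = 0 := by
  unfold FamBEt_ext
  exact ⟨dif_neg (by omega), dif_neg (by omega)⟩

theorem FamBEt_JD_f {N l : ℕ} (hN : N + 1 = 2 * l) (a b : Fin N) :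
    JD K l (FamBEt_f hN a) (FamBEt_f hN b) = Jalt K N a b := by
  have ha := a.2
  have hb := b.2
  unfold JD Jalt
  have h1 : (FamBEt_f hN a).val = a.val := rfl
  have h2 : (FamBEt_f hN b).val = b.val := rfl
  rw [h1, h2]
  by_cases h : a.val + b.val + 1 = N
  · rw [if_pos h, if_pos (by omega)]
  · rw [if_neg h, if_neg (by omega), if_neg (by omega)]

theorem FamBEt_JD_last {N l : ℕ} (hN : N + 1 = 2 * l) {i : Fin (2 * l)}
    (hi : i.val + 1 = 2 * l) (a : Fin N) :
    JD K l i (FamBEt_f hN a) = 0 ∧ JD K l (FamBEt_f hN a) i = 0 := by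
  have ha := a.2
  have h2 : (FamBEt_f hN a).val = a.val := rfl
  unfold JD
  rw [h2]
  constructor
  · rw [if_neg (by omega), if_neg]
    rintro ⟨-, h⟩
    have := congrArg Fin.val h
    omega
  · rw [if_neg (by omega), if_neg (by omega)]

theorem FamBEt_skew {N l : ℕ} (hN : N + 1 = 2 * l) {A : Matrix (Fin N) (Fin N) K}
    (hA : A.transpose * Jalt K N = -(Jalt K N * A)) :
    (FamBEt_ext (l := l) A).transpose * JD K l = -(JD K l * FamBEt_ext A) := by
  ext i k
  rw [Matrix.neg_apply, Matrix.mul_apply, Matrix.mul_apply]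
  simp only [Matrix.transpose_apply]
  rcases FamBEt_cases hN i with ⟨a, rfl⟩ | hi
  · rcases FamBEt_cases hN k with ⟨b, rfl⟩ | hk
    · have h1 := congrFun (congrFun hA a) b
      rw [Matrix.neg_apply, Matrix.mul_apply, Matrix.mul_apply] at h1
      simp only [Matrix.transpose_apply] at h1
      have h2 : ∑ j, FamBEt_ext (l := l) A j (FamBEt_f hN a) * JD K l j (FamBEt_f hN b) =
          ∑ c, A c a * Jalt K N c b := by
        refine (Fintype.sum_of_injective (FamBEt_f hN) (FamBEt_f_inj hN) _ _ ?_ ?_).symm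
        · intro j hj
          rw [(FamBEt_ext_last hN A (FamBEt_range hN hj) _).1, zero_mul]
        · intro c
          rw [FamBEt_ext_f hN, FamBEt_JD_f hN]
      have h3 : ∑ j, JD K l (FamBEt_f hN a) j * FamBEt_ext (l := l) A j (FamBEt_f hN b) =
          ∑ c, Jalt K N a c * A c b := by
        refine (Fintype.sum_of_injective (FamBEt_f hN) (FamBEt_f_inj hN) _ _ ?_ ?_).symm
        · intro j hj
          rw [(FamBEt_ext_last hN A (FamBEt_range hN hj) _).1, mul_zero]
        · intro c
          rw [FamBEt_ext_f hN, FamBEt_JD_f hN]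
      rw [h2, h3, h1]
    · rw [Finset.sum_eq_zero, Finset.sum_eq_zero, neg_zero]
      · intro j _
        rw [(FamBEt_ext_last hN A hk _).2, mul_zero]
      · intro j _
        rcases FamBEt_cases hN j with ⟨c, rfl⟩ | hj
        · rw [(FamBEt_JD_last hN hk c).2, mul_zero]
        · rw [(FamBEt_ext_last hN A hj _).1, zero_mul]
  · rw [Finset.sum_eq_zero, Finset.sum_eq_zero, neg_zero]
    · intro j _
      rcases FamBEt_cases hN j with ⟨c, rfl⟩ | hj
      · rw [(FamBEt_JD_last hN hi c).1, zero_mul]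
      · rw [(FamBEt_ext_last hN A hj _).1, mul_zero]
    · intro j _
      rw [(FamBEt_ext_last hN A hi _).2, zero_mul]

/-! ### the windows -/

theorem FamBEt_rev {l q i j : ℕ} (hq : q ≤ l) (hi : i < 2 * l - 1) (hj : j < 2 * l - 1) :
    parD l q i = parD l q j ↔ parD l q (2 * l - 1 - 1 - i) = parD l q (2 * l - 1 - 1 - j) := by
  have h0 : ∀ a, a < 2 * l - 1 → parD l q a =
      if q < l then parB (l - 1) q a else decide (a % 2 = 0) := by
    intro a ha
    unfold parD
    rw [if_neg (by omega)]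
  rw [h0 i hi, h0 j hj, h0 _ (by omega), h0 _ (by omega)]
  by_cases h : q < l
  · rw [if_pos h, if_pos h, if_pos h, if_pos h]
    have e : 2 * l - 1 = 2 * (l - 1) + 1 := by omega
    rw [e, FamBO_rev (by omega) (by omega), FamBO_rev (by omega) (by omega)]
  · rw [if_neg h, if_neg h, if_neg h, if_neg h, decide_eq_decide, decide_eq_decide]
    omega

theorem FamBEt_wt {l q m : ℕ} (hq : q ≤ l) (hm : Even m) (hm1 : 1 ≤ m) (hm2 : m < 2 * l) :
    ∃ lo, lo + m ≤ 2 * l - 1 ∧ wt (parD l q) lo m = min m (2 * q) := by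
  obtain ⟨k, rfl⟩ := hm
  have h0 : ∀ a, a < 2 * l - 1 → parD l q a =
      if q < l then parB (l - 1) q a else decide (a % 2 = 0) := by
    intro a ha
    unfold parD
    rw [if_neg (by omega)]
  by_cases h : q < l
  · obtain ⟨lo, h1, h2⟩ := FamBO_wt (r := l - 1) (q := q) (k := k) (by omega) (by omega) (by omega)
    have e : k + k = 2 * k := by ring
    refine ⟨lo, by omega, ?_⟩
    rw [e, ← h2]
    unfold wt
    congr 1
    · refine Finset.sum_congr rfl fun a ha => ?_
      rw [Finset.mem_Ico] at ha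
      rw [h0 a (by omega), h0 (a + 1) (by omega), if_pos h, if_pos h]
    · rw [h0 _ (by omega), h0 lo (by omega), if_pos h, if_pos h]
  · refine ⟨0, by omega, ?_⟩
    unfold wt
    have h1 : ∑ a ∈ Finset.Ico 0 (0 + (k + k) - 1),
        (if parD l q a = parD l q (a + 1) then 0 else 1) = k + k - 1 := by
      rw [Finset.sum_congr rfl (g := fun _ => 1) (fun a ha => by
        rw [Finset.mem_Ico] at ha
        rw [h0 a (by omega), h0 (a + 1) (by omega), if_neg h, if_neg h, if_neg]
        rw [decide_eq_decide]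
        omega)]
      rw [Finset.sum_const, Nat.card_Ico, smul_eq_mul, mul_one]
      omega
    rw [h1, h0 _ (by omega), h0 0 (by omega), if_neg h, if_neg h, if_neg]
    · omega
    · rw [decide_eq_decide]
      omega

/-- test elements for the generators `ek`; they have zero last row and column -/
theorem FamBE_tests {l q : ℕ} (hl : 1 ≤ l) (hq : q ≤ l) {r : Rz K (Fin (2 * l)) θ}
    (hJ : r.IsJ (JD K l) 1) (hp : r.IsPar fun i => parD l q i.val) {p0 q0 : g}
    (hp0 : r.ρ p0 = NdnD K l) (hq0 : r.ρ q0 = NupD K l) {s t : K} (hst : ¬ (s = 0 ∧ t = 0))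
    {m : ℕ} (hm : Even m) (hm1 : 1 ≤ m) (hm2 : m < 2 * l) : ∃ a : g,
      (∀ j, j + 1 < m → (r.M (s • p0 + t • q0) ^ j * r.M a).trace = 0) ∧
      ((r.M (s • p0 + t • q0) ^ (m - 1) * r.M a).trace).coeff (min m (2 * q)) ≠ 0 ∧
      ∀ i : Fin (2 * l), i.val + 1 = 2 * l → ∀ j, r.ρ a i j = 0 ∧ r.ρ a j i = 0 := by
  obtain ⟨N, hN'⟩ : ∃ N, N = 2 * l - 1 := ⟨_, rfl⟩
  have hN : N + 1 = 2 * l := by omega
  obtain ⟨lo, hlo, hb⟩ := FamBEt_wt hq hm hm1 hm2
  rw [← hN'] at hlo
  have hrev : ∀ i j, i < N → j < N → (parD l q i = parD l q j ↔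
      parD l q (N - 1 - i) = parD l q (N - 1 - j)) := by
    intro i j hi hj
    rw [hN'] at hi hj ⊢
    exact FamBEt_rev hq hi hj
  let loF : Fin N := ⟨lo, by omega⟩
  let hiF : Fin N := ⟨lo + m - 1, by omega⟩
  have hodd : Odd (hiF.val + loF.val) := by
    obtain ⟨k, hk⟩ := hm
    refine ⟨lo + k - 1, ?_⟩
    show lo + m - 1 + lo = _
    omega
  have hY := Chain_Y_skew (K := K) hodd
  have hf := FamBEt_f_inj hN
  -- the matrix of the pencil
  have hM : r.M (s • p0 + t • q0) =
      Mp (fun i : Fin (2 * l) => parD l q i.val) (s • NdnD K l + t • NupD K l) := by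
    rw [hp.M_eq, map_add, map_smul, map_smul, hp0, hq0]
  have hMsub : (r.M (s • p0 + t • q0)).submatrix (FamBEt_f hN) (FamBEt_f hN) =
      Mp (fun i : Fin N => parD l q i.val) (s • Ndn K N + t • Nup K N) := by
    rw [hM]
    ext1 a b
    have ha := a.2
    have hb' := b.2
    show X ^ od (fun i : Fin (2 * l) => parD l q i.val) (FamBEt_f hN a) (FamBEt_f hN b) *
      C (s * NdnD K l (FamBEt_f hN a) (FamBEt_f hN b) +
        t * NupD K l (FamBEt_f hN a) (FamBEt_f hN b)) =
      X ^ od (fun i : Fin N => parD l q i.val) a b * C (s * Ndn K N a b + t * Nup K N a b)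
    have h1 : NdnD K l (FamBEt_f hN a) (FamBEt_f hN b) = Ndn K N a b := by
      show (if b.val + 1 = a.val ∧ a.val + 1 < 2 * l then (1 : K) else 0) =
        if b.val + 1 = a.val then 1 else 0
      by_cases h : b.val + 1 = a.val
      · rw [if_pos h, if_pos ⟨h, by omega⟩]
      · rw [if_neg h, if_neg fun h' => h h'.1]
    have h2 : NupD K l (FamBEt_f hN a) (FamBEt_f hN b) = Nup K N a b := by
      show (if a.val + 1 = b.val ∧ b.val + 1 < 2 * l then (1 : K) else 0) =
        if a.val + 1 = b.val then 1 else 0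
      by_cases h : a.val + 1 = b.val
      · rw [if_pos h, if_pos ⟨h, by omega⟩]
      · rw [if_neg h, if_neg fun h' => h h'.1]
    rw [h1, h2]
    rfl
  have hM0 : ∀ i, i ∉ Set.range (FamBEt_f hN) → ∀ j, r.M (s • p0 + t • q0) i j = 0 := by
    intro i hi j
    have h1 := FamBEt_range hN hi
    rw [hM]
    show X ^ od (fun i : Fin (2 * l) => parD l q i.val) i j *
      C (s * NdnD K l i j + t * NupD K l i j) = 0
    have h2 : NdnD K l i j = 0 := if_neg (by omega)
    have h3 : NupD K l i j = 0 := if_neg (by have := j.2; omega)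
    rw [h2, h3, mul_zero, mul_zero, add_zero, map_zero, mul_zero]
  -- the matrix of a test element
  have hTr : ∀ (a : g) (A : Matrix (Fin N) (Fin N) K), r.ρ a = FamBEt_ext A → ∀ j,
      (r.M (s • p0 + t • q0) ^ j * r.M a).trace =
        (Mp (fun i : Fin N => parD l q i.val) (s • Ndn K N + t • Nup K N) ^ j *
          Mp (fun i : Fin N => parD l q i.val) A).trace := by
    intro a A ha j
    have hz : ∀ i j', i.val + 1 = 2 * l → r.M a i j' = 0 ∧ r.M a j' i = 0 := by
      intro i j' hi
      rw [hp.M_eq, ha]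
      have h1 := FamBEt_ext_last hN A hi j'
      constructor
      · show X ^ od _ i j' * C (FamBEt_ext A i j') = 0
        rw [h1.1, map_zero, mul_zero]
      · show X ^ od _ j' i * C (FamBEt_ext A j' i) = 0
        rw [h1.2, map_zero, mul_zero]
    rw [FamBEt_trace hf hM0 (fun i hi j' => hz i j' (FamBEt_range hN hi)), hMsub]
    have h2 : (r.M a).submatrix (FamBEt_f hN) (FamBEt_f hN) =
        Mp (fun i : Fin N => parD l q i.val) A := by
      rw [hp.M_eq, ha]
      ext1 c d
      show X ^ od (fun i : Fin (2 * l) => parD l q i.val) (FamBEt_f hN c) (FamBEt_f hN d) *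
        C (FamBEt_ext A (FamBEt_f hN c) (FamBEt_f hN d)) = _
      rw [FamBEt_ext_f hN]
      rfl
    rw [h2]
  by_cases ht : t = 0
  · have hs : s ≠ 0 := fun h => hst ⟨h, ht⟩
    obtain ⟨a, ha⟩ := hJ.surj (FamBEt_skew hN (skew_Jalt (A := (Chain_Y K loF hiF).transpose)
      fun i j => by
        rw [Matrix.transpose_apply, Matrix.transpose_apply, hY j i, add_comm j.val]))
    have hMT : ∀ j, (r.M (s • p0 + t • q0) ^ j * r.M a).trace =
        ((Mp (fun i : Fin N => parD l q i.val) (s • Ndn K N + t • Nup K N)).transpose ^ j *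
        Mp (fun i : Fin N => parD l q i.val) (Chain_Y K loF hiF)).trace := by
      intro j
      rw [hTr a _ ha j, ← Matrix.trace_transpose, Matrix.transpose_mul, Matrix.transpose_pow,
        Chain_Mp_transpose, Matrix.trace_mul_comm]
    have key := Chain_key (K := K) (parD l q) hrev hs
      (M := (Mp (fun i : Fin N => parD l q i.val) (s • Ndn K N + t • Nup K N)).transpose)
      (fun i j hij => by
        have n1 : Ndn K N j i = 0 := if_neg (by omega)
        have n2 : Nup K N j i = 0 := if_neg (by omega)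
        rw [Matrix.transpose_apply]
        unfold Mp
        rw [Matrix.add_apply, Matrix.smul_apply, Matrix.smul_apply, n1, n2,
          smul_zero, smul_zero, add_zero, map_zero, mul_zero])
      (fun i j hij => by
        have n1 : Ndn K N j i = 1 := if_pos hij
        have n2 : Nup K N j i = 0 := if_neg (by omega)
        rw [Matrix.transpose_apply]
        unfold Mp
        rw [Matrix.add_apply, Matrix.smul_apply, Matrix.smul_apply, n1, n2,
          smul_zero, add_zero, smul_eq_mul, mul_one, hij]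
        congr 2
        show (if parD l q j.val = parD l q i.val then 0 else 1) = _
        by_cases h : parD l q i.val = parD l q j.val
        · rw [if_pos h, if_pos h.symm]
        · rw [if_neg h, if_neg (Ne.symm h)])
      (lo := lo) (m := m) hm1 (loF := loF) (hiF := hiF) rfl rfl
    rw [hb] at key
    refine ⟨a, fun j hj => ?_, ?_, fun i hi j => ?_⟩
    · rw [hMT]
      exact key.1 j hj
    · rw [hMT]
      exact key.2
    · rw [ha]
      exact FamBEt_ext_last hN _ hi j
  · obtain ⟨a, ha⟩ := hJ.surj (FamBEt_skew hN (skew_Jalt (A := Chain_Y K loF hiF) hY))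
    have key := Chain_key (K := K) (parD l q) hrev ht
      (M := Mp (fun i : Fin N => parD l q i.val) (s • Ndn K N + t • Nup K N))
      (fun i j hij => by
        have n1 : Ndn K N i j = 0 := if_neg (by omega)
        have n2 : Nup K N i j = 0 := if_neg (by omega)
        unfold Mp
        rw [Matrix.add_apply, Matrix.smul_apply, Matrix.smul_apply, n1, n2,
          smul_zero, smul_zero, add_zero, map_zero, mul_zero])
      (fun i j hij => by
        have n1 : Ndn K N i j = 0 := if_neg (by omega)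
        have n2 : Nup K N i j = 1 := if_pos hij
        unfold Mp
        rw [Matrix.add_apply, Matrix.smul_apply, Matrix.smul_apply, n1, n2,
          smul_zero, zero_add, smul_eq_mul, mul_one, hij]
        rfl)
      (lo := lo) (m := m) hm1 (loF := loF) (hiF := hiF) rfl rfl
    rw [hb] at key
    refine ⟨a, fun j hj => ?_, ?_, fun i hi j => ?_⟩
    · rw [hTr a _ ha j]
      exact key.1 j hj
    · rw [hTr a _ ha]
      exact key.2
    · rw [ha]
      exact FamBEt_ext_last hN _ hi j

/-- the Pfaffian is constant zero on the span of the test elements -/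
theorem FamBE_pf_zero {l q : ℕ} (hl : 1 ≤ l) {r : Rz K (Fin (2 * l)) θ}
    (hJ : r.IsJ (JD K l) 1) (hp : r.IsPar fun i => parD l q i.val)
    (pr : Fin l × Fin 2 ≃ Fin (2 * l)) {a a' : g}
    (ha : ∀ i : Fin (2 * l), i.val + 1 = 2 * l → ∀ j, r.ρ a i j = 0 ∧ r.ρ a j i = 0)
    (ha' : ∀ i : Fin (2 * l), i.val + 1 = 2 * l → ∀ j, r.ρ a' i j = 0 ∧ r.ρ a' j i = 0) (b : ℕ) :
    dd (r.pnt e a) (r.pnt e a')
      (smap (e : g →ₗ[K] k) ((scS θ (r.PF pr (JD K l))).coeff b)) = 0 := by
  have hN : 2 * l - 1 + 1 = 2 * l := by omega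
  have hlast : (⟨2 * l - 1, by omega⟩ : Fin (2 * l)).val + 1 = 2 * l := hN
  have hz : ∀ c : g, (∀ i : Fin (2 * l), i.val + 1 = 2 * l → ∀ j, r.ρ c i j = 0 ∧ r.ρ c j i = 0) →
      ∀ i j, i.val + 1 = 2 * l → r.M c i j = 0 ∧ r.M c j i = 0 := by
    intro c hc i j hi
    have h1 := hc i hi j
    rw [hp.M_eq]
    constructor
    · show X ^ od _ i j * C (r.ρ c i j) = 0
      rw [h1.1, map_zero, mul_zero]
    · show X ^ od _ j i * C (r.ρ c j i) = 0
      rw [h1.2, map_zero, mul_zero]
  have hL : ∀ i j : Fin (2 * l), i.val + 1 = 2 * l →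
      lineM (r.M a) (r.M a') i j = 0 ∧ lineM (r.M a) (r.M a') j i = 0 := by
    intro i j hi
    have h1 := hz a ha i j hi
    have h2 := hz a' ha' i j hi
    constructor
    · show C (r.M a i j) + X * C (r.M a' i j) = 0
      rw [h1.1, h2.1, map_zero, mul_zero, add_zero]
    · show C (r.M a j i) + X * C (r.M a' j i) = 0
      rw [h1.2, h2.2, map_zero, mul_zero, add_zero]
  rw [Rz.dd_PF, pf_zero_row pr _ (⟨2 * l - 1, by omega⟩ : Fin (2 * l)), coeff_zero, coeff_zero]
  · intro k'
    rw [Matrix.mul_apply]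
    refine Finset.sum_eq_zero fun j _ => ?_
    rcases FamBEt_cases hN j with ⟨c, rfl⟩ | hj
    · rw [Matrix.map_apply, (FamBEt_JD_last hN hlast c).1, map_zero, zero_mul]
    · rw [(hL j k' hj).1, mul_zero]
  · intro k'
    rw [Matrix.mul_apply]
    refine Finset.sum_eq_zero fun j _ => ?_
    rw [(hL _ j hlast).2, mul_zero]

end Pool.Agent.helper49.QA
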