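import Mathlib
import Pool.Agent.helper49.QA.FamBEt
import Pool.Agent.helper49.QA.FamBEpf

/-!
# Type BDI, even dimension: the assembly (see the header of FamBEdef.lean)
-/

set_option autoImplicit false

namespace Pool.Agent.helper49.QA

open Polynomial Pool.Agent.helper5.AS
open Pool.Agent.helper5.ASQ (Invol even oddc brk IsContraction)
open Pool.Agent.helper90.MF (od)

variable {K : Type*} [Field K] [CharZero K] {g : Type*}
  [LieRing g] [LieAlgebra K g] {θ : Invol K g}
  {k : Type*} [LieRing k] [LieAlgebra K k] {e : g ≃ₗ[K] k}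

theorem FamBE_SB_trace [IsAlgClosed K] {q l : ℕ} :
    (SB K (X := Fin q) (Y := Fin l) (Z := Fin 0)).trace = 2 * (l : K) := by
  rw [FamBO_SB, Matrix.trace, Fintype.sum_sum_type, Fintype.sum_prod_type, Fintype.sum_sum_type]
  have h1 : ∀ (i : Fin q) (ε : Fin 2), (FamBO_pm K (FamBO_s (X := Fin q) (Y := Fin l) (Z := Fin 0))).diag
      (Sum.inl (Sum.inl i, ε)) = 0 := by
    intro i ε
    have hne : ¬ ((Sum.inl (Sum.inl i, ε) : (Fin q ⊕ Fin l) × Fin 2 ⊕ Fin 0) =
        FamBO_s (Sum.inl (Sum.inl i, ε))) := by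
      intro h
      have h' : (Sum.inl (Sum.inl i, ε) : (Fin q ⊕ Fin l) × Fin 2 ⊕ Fin 0) =
        Sum.inl (Sum.inl i, ε + 1) := h
      rw [Sum.inl.injEq, Prod.mk.injEq] at h'
      exact (FamBO_two' ε ε).2 h'.2 rfl
    exact if_neg hne
  have h2 : ∀ (i : Fin l) (ε : Fin 2), (FamBO_pm K (FamBO_s (X := Fin q) (Y := Fin l) (Z := Fin 0))).diag
      (Sum.inl (Sum.inr i, ε)) = 1 := fun i ε => if_pos rfl
  simp only [h1, h2]
  simp
  ring

omit [CharZero K] in
/-- the property `Comm` does not change if the functions are multiplied by constants -/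
theorem FamBE_comm_smul {I : Type*} {F : I → Sy K k} {d : I → ℕ} {ξ : k →ₗ[K] K}
    (h : Comm F d ξ) (c : I → K) : Comm (fun i => c i • F i) d ξ := by
  obtain ⟨u, h1, h2⟩ := h
  refine ⟨fun i m => c i • u i m, fun i j m n hm hn => ?_, fun i m hm => ?_⟩
  · rw [smul_mul_smul_comm, smul_mul_smul_comm, h1 i j m n hm hn, mul_comm (c i)]
  · have h3 : (shift ξ (c i • F i)).coeff m = c i • (shift ξ (F i)).coeff m := by
      rw [map_smul, coeff_smul]
    rw [h3]
    exact (h2 i m hm).smul (c i)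

/-- the signs are compatible with the form `JD` -/
theorem FamBE_par {N q : ℕ} (hq : q ≤ N) {i j : Fin (2 * N)}
    (h : i.val + j.val + 2 = 2 * N) : parD N q i.val = parD N q j.val := by
  have hi := i.isLt
  have hj := j.isLt
  have hi1 : ¬ (i.val + 1 = 2 * N) := by omega
  have hj1 : ¬ (j.val + 1 = 2 * N) := by omega
  rw [parD, parD, if_neg hi1, if_neg hj1]
  by_cases hqN : q < N
  · rw [if_pos hqN, if_pos hqN]
    have h2 : j.val = 2 * (N - 1) + 1 - 1 - i.val := by omega
    rw [h2, FamBO_rev (by omega) (by omega)]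
  · rw [if_neg hqN, if_neg hqN]
    congr 1
    rw [eq_iff_iff]
    omega

omit [CharZero K] in
theorem FamBE_row {N : ℕ} {A : Matrix (Fin (2 * N)) (Fin (2 * N)) K} (s t : K)
    (hA : A = s • NdnD K N + t • NupD K N) (i : Fin (2 * N)) (hi : i.val + 1 = 2 * N)
    (j : Fin (2 * N)) : A i j = 0 ∧ A j i = 0 := by
  have hj := j.isLt
  rw [hA]
  constructor
  · rw [Matrix.add_apply, Matrix.smul_apply, Matrix.smul_apply, NdnD, NupD, if_neg (by omega),
      if_neg (by omega), smul_zero, smul_zero, add_zero]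
  · rw [Matrix.add_apply, Matrix.smul_apply, Matrix.smul_apply, NdnD, NupD, if_neg (by omega),
      if_neg (by omega), smul_zero, smul_zero, add_zero]

/-- type BDI, even dimension.  `hyp`: commuting lifts in the diagonal form `J = 1`.  (The Pfaffians
of the chain form and of the diagonal form differ by a constant, `Rz.conj_PF`.) -/
theorem quant_BE [IsAlgClosed K] {n : Type*} [Fintype n] [DecidableEq n]
    (hn : Even (Fintype.card n)) (hn1 : 1 ≤ Fintype.card n)
    {r : Rz K n θ} {J S : Matrix n n K}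
    (hJ : r.IsJ J 1) (hS : r.IsS S) (hSS : S * S = 1) (hSJ : S.transpose * J * S = J)
    (he : IsContraction θ e)
    (hyp : ∀ (h : ℕ) (r' : Rz K (Fin (2 * h)) θ) (par : Fin (2 * h) → Bool)
      (pr : Fin h × Fin 2 ≃ Fin (2 * h)), 2 * h = Fintype.card n → r'.IsJ 1 1 → r'.IsPar par →
      qn par ≤ h → ∀ (l : ℕ) (m : Fin l → ℕ), (∀ i, Even (m i)) → (∀ i, m i ≤ 2 * h) →
        ∀ ξ : k →ₗ[K] K, Comm (fun o : Option (Fin l) => o.elim
          (smap (e : g →ₗ[K] k) ((scS θ (r'.PF pr 1)).coeff (qn par)))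
          fun i => r'.gen e false (m i) (min (m i) (2 * qn par))) (fun o => o.elim h m) ξ) :
    Quant K k := by
  obtain ⟨N, hN⟩ := hn
  have hN' : Fintype.card n = 2 * N := by rw [hN, two_mul]
  have hN1 : 1 ≤ N := by omega
  -- the sign of `S`
  obtain ⟨S, hS, hSS, hSJ, q, hq, htr⟩ : ∃ S : Matrix n n K, r.IsS S ∧ S * S = 1 ∧
      S.transpose * J * S = J ∧ ∃ q : ℕ, q ≤ N ∧ S.trace = 2 * (N : K) - 2 * (q : K) := by
    obtain ⟨p, q, hpq, htr⟩ := exists_trace hSS
    have hc : (p : K) + q = 2 * (N : K) := by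
      rw [hN'] at hpq
      exact_mod_cast hpq
    by_cases hq : q ≤ N
    · refine ⟨S, hS, hSS, hSJ, q, hq, ?_⟩
      rw [htr]
      linear_combination hc
    · refine ⟨-S, fun x => ?_, ?_, ?_, p, by omega, ?_⟩
      · rw [Matrix.mul_neg, Matrix.neg_mul, hS x]
      · rw [neg_mul_neg, hSS]
      · rw [Matrix.transpose_neg, Matrix.neg_mul, neg_mul_neg, hSJ]
      · rw [Matrix.trace_neg, htr]
        linear_combination hc
  have hcard : Fintype.card (Fin (2 * N)) = Fintype.card n := by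
    rw [Fintype.card_fin, hN']
  set par : Fin (2 * N) → Bool := fun i => parD N q i.val with hpar
  have hqn : qn par = q := FamBE_qn hN1 hq
  have htrs : S.trace = (Matrix.diagonal (FamBO_sg K par)).trace := by
    rw [FamBO_sg_trace, hqn, htr, Fintype.card_fin]
    push_cast
    ring
  -- the signs and `JD`
  have hSJ1 : (Matrix.diagonal (FamBO_sg K par)).transpose * JD K N *
      Matrix.diagonal (FamBO_sg K par) = JD K N := by
    ext i j
    rw [Matrix.diagonal_transpose, Matrix.mul_diagonal, Matrix.diagonal_mul]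
    have h0 : JD K N i j = 0 ∨ par i = par j := by
      by_cases h1 : i.val + j.val + 2 = 2 * N
      · right
        exact FamBE_par hq h1
      · by_cases h2 : i.val + 1 = 2 * N ∧ j = i
        · right
          rw [h2.2]
        · left
          rw [JD, if_neg h1, if_neg h2]
    rcases h0 with h1 | h1
    · rw [h1]
      ring
    · have h3 : FamBO_sg K par i = FamBO_sg K par j := by
        unfold FamBO_sg
        rw [h1]
      rw [h3, mul_right_comm, FamBO_sg_sq, one_mul]
  have hdiag := FamBO_sg_mul (K := K) par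
  -- the chain form
  obtain ⟨r1, hr1J, hr1S, -⟩ := FamBO_conj hcard hJ hS hSS hSJ
    (J' := JD K N) (S' := Matrix.diagonal (FamBO_sg K par))
    (JD_transpose N) (JD_det_ne_zero N) hdiag hSJ1 htrs e
  have hp1 := FamBO_sg_par hr1S
  -- the torus form
  have hcard2 : Fintype.card ((Fin q ⊕ Fin (N - q)) × Fin 2 ⊕ Fin 0) = Fintype.card n := by
    rw [Fintype.card_sum, Fintype.card_prod, Fintype.card_sum, Fintype.card_fin, Fintype.card_fin,
      Fintype.card_fin, Fintype.card_fin, hN']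
    omega
  obtain ⟨r2, hr2J, hr2S, -⟩ := FamBO_conj hcard2 hJ hS hSS hSJ
    (J' := JB K) (S' := SB K)
    (by rw [FamBO_JB, FamBO_pm_transpose FamBO_j_j])
    (by
      rw [FamBO_JB]
      exact Matrix.det_ne_zero_of_right_inverse (FamBO_pm_sq FamBO_j_j))
    (by rw [FamBO_SB, FamBO_pm_sq FamBO_s_s])
    (by rw [FamBO_SB, FamBO_JB, FamBO_pm_comm FamBO_s_s FamBO_j_j FamBO_s_j])
    (by
      rw [FamBE_SB_trace, htr, Nat.cast_sub hq]
      ring) e
  obtain ⟨x0, hx0⟩ := FamB_index (Nat.zero_le 1) hr2J hr2S he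
  -- the diagonal form
  obtain ⟨P, Q, h1, h2, h3, h4⟩ := exists_equiv_pair (m := Fin (2 * N)) rfl (Or.inl rfl)
    hr1J.symm (by rw [one_smul]; exact Matrix.transpose_one) hr1J.det
    (by rw [Matrix.det_one]; exact one_ne_zero) hdiag hdiag hSJ1
    (by rw [Matrix.diagonal_transpose, Matrix.mul_one, hdiag]) rfl
  have hr3J := Rz.IsJ.conj h1 h2 hr1J h3
  have hp3 := FamBO_sg_par (Rz.IsS.conj h1 h2 hr1S h4)
  have hpr : Fintype.card (Fin N × Fin 2) = Fintype.card (Fin (2 * N)) := by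
    rw [Fintype.card_prod, Fintype.card_fin, Fintype.card_fin, Fintype.card_fin, mul_comm]
  obtain pr : Fin N × Fin 2 ≃ Fin (2 * N) := Fintype.equivOfCardEq hpr
  have hQ : Q.det ≠ 0 := by
    intro h0
    have h5 := congrArg Matrix.det h2
    rw [Matrix.det_mul, h0, zero_mul, Matrix.det_one] at h5
    exact zero_ne_one h5
  have hPF : (r1.conj P Q h1 h2).PF pr 1 = Q.det • r1.PF pr (JD K N) :=
    Rz.conj_PF r1 pr h1 h2 h3
  set G : Sy K k := smap (e : g →ₗ[K] k) ((scS θ (r1.PF pr (JD K N))).coeff q) with hG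
  have hG3 : smap (e : g →ₗ[K] k) ((scS θ ((r1.conj P Q h1 h2).PF pr 1)).coeff q) =
      Q.det • G := by
    rw [hPF, map_smul, coeff_smul, map_smul]
  have hcomm : ∀ ξ : k →ₗ[K] K, Comm (fun o : Option (Fin (N - 1)) =>
      o.elim G fun i => r1.gen e false (2 * (i.val + 1)) (min (2 * (i.val + 1)) (2 * q)))
      (fun o => o.elim N fun i => 2 * (i.val + 1)) ξ := by
    intro ξ
    have h5 := hyp N (r1.conj P Q h1 h2) par pr hN'.symm hr3J hp3 (by rw [hqn]; exact hq) (N - 1)
      (fun i => 2 * (i.val + 1)) (fun i => even_two_mul _) (fun i => by have := i.2; omega) ξ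
    rw [hqn] at h5
    have h6 := FamBE_comm_smul h5 (fun o => o.elim (Q.det)⁻¹ fun _ => 1)
    convert h6 using 2 with o
    rcases o with _ | i
    · show G = (Q.det)⁻¹ •
        smap (e : g →ₗ[K] k) ((scS θ ((r1.conj P Q h1 h2).PF pr 1)).coeff q)
      rw [hG3, inv_smul_smul₀ hQ]
    · show r1.gen e false (2 * (i.val + 1)) (min (2 * (i.val + 1)) (2 * q)) =
        (1 : K) • (r1.conj P Q h1 h2).gen e false (2 * (i.val + 1))
          (min (2 * (i.val + 1)) (2 * q))
      rw [one_smul, Rz.conj_gen]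
  obtain ⟨p0, hp0⟩ := hr1J.surj (skew_NdnD N)
  obtain ⟨q0, hq0⟩ := hr1J.surj (skew_NupD N)
  refine r1.quant_of_pf he (fun _ => false) (fun i : Fin (N - 1) => 2 * (i.val + 1))
    (fun i => min (2 * (i.val + 1)) (2 * q)) ?_ ?_ ?_ G hN1 ?_ ?_ p0 q0 0 ?_ x0 ?_ hcomm
  · intro i j hij
    have : i.val < j.val := hij
    show 2 * (i.val + 1) < 2 * (j.val + 1)
    omega
  · intro i
    omega
  · intro i a
    rw [hp1.M_eq a]
    refine le_min (phi_natDegree_le (Mp_natDegree _ _) _ _) ?_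
    have h1 := ek_Mp_natDegree_le par (r1.ρ a) (2 * (i.val + 1))
    rw [hqn] at h1
    exact h1
  · exact smap_mem _ (coeff_scS_mem θ (Rz.PF_mem r1 pr) q)
  · exact centre_contract θ he (Rz.PF_centre r1 pr hr1J) (FamBE_pf_degree hN1 hq hr1J hp1 pr)
  · intro s t hst
    have h5 : ∀ i : Fin (N - 1), ∃ a : g,
        (∀ j, j + 1 < 2 * (i.val + 1) →
          (r1.M (s • p0 + t • q0) ^ j * r1.M a).trace = 0) ∧
        ((r1.M (s • p0 + t • q0) ^ (2 * (i.val + 1) - 1) * r1.M a).trace).coeff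
          (min (2 * (i.val + 1)) (2 * q)) ≠ 0 ∧
        ∀ i : Fin (2 * N), i.val + 1 = 2 * N → ∀ j, r1.ρ a i j = 0 ∧ r1.ρ a j i = 0 := by
      intro i
      have := i.2
      exact FamBE_tests hN1 hq hr1J hp1 hp0 hq0 hst (even_two_mul _) (by omega) (by omega)
    choose a ha1 ha2 ha3 using h5
    obtain ⟨aG, haG⟩ := FamBE_pf_test (e := e) hN1 hq hr1J hp1 pr hp0 hq0 hst
    refine ⟨a, aG, fun i => ⟨ha1 i, ha2 i⟩, haG, fun i hi => absurd hi (Nat.not_lt_zero _),
      fun i _ => ?_⟩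
    refine FamBE_pf_zero hN1 hr1J hp1 pr (fun i' hi' j => ?_) (ha3 i) q
    exact FamBE_row s t (by rw [map_add, map_smul, map_smul, hp0, hq0]) i' hi' j
  · omega

end Pool.Agent.helper49.QA
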