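import Mathlib
import Pool.Agent.helper49.QA.LASymm
import Pool.Agent.helper49.QA.LASkew
import Pool.Agent.helper49.QA.LAInvol

/-!
# Normal forms of bilinear forms and of isometric involutions, in matrix form

All the matrices are over an algebraically closed field of characteristic zero; `n`, `m` are two
index types of the same size.  In each theorem we find `P : Matrix m n K` with the inverse
`Q : Matrix n m K`.
-/

set_option autoImplicit false

namespace Pool.Agent.helper49.QA

variable {K : Type*} [Field K] [CharZero K]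
  {n : Type*} [Fintype n] [DecidableEq n] {m : Type*} [Fintype m] [DecidableEq m]

/-- a skew nondegenerate matrix has even size -/
theorem LAPairI_even {M : Matrix n n K} (hM : M.transpose = -M) (hd : M.det ≠ 0) :
    Even (Fintype.card n) := by
  by_contra h
  rw [Nat.not_even_iff_odd] at h
  have h1 : M.det = -M.det := by
    conv_lhs => rw [← Matrix.det_transpose, hM, Matrix.det_neg, h.neg_one_pow, neg_one_mul]
  have h2 : (2 : K) * M.det = 0 := by linear_combination h1
  exact hd ((mul_eq_zero.1 h2).resolve_left two_ne_zero)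

/-- the common normal form -/
theorem LAPairI_normal {κ : K} (hκ : κ = 1 ∨ κ = -1) {ι : K} (hι : ι * ι = -1)
    {J S : Matrix n n K} (hJ : J.transpose = κ • J) (hd : J.det ≠ 0) (hS : S * S = -1)
    (hSJ : S.transpose * J * S = J) :
    ∃ (p : ℕ) (P : Matrix (Fin p ⊕ Fin p) n K) (Q : Matrix n (Fin p ⊕ Fin p) K),
      p + p = Fintype.card n ∧ P * Q = 1 ∧ Q * P = 1 ∧
      P * S * Q = ι • Matrix.diagonal (Sum.elim (fun _ => 1) (fun _ => -1)) ∧
      Q.transpose * J * Q = Matrix.fromBlocks 0 1 (κ • 1) 0 := by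
  have hκ2 : κ * κ = 1 := by
    rcases hκ with h | h <;> rw [h] <;> ring
  set T : Matrix n n K := (-ι) • S with hT
  have hT2 : T * T = 1 := by
    rw [hT, Matrix.smul_mul, Matrix.mul_smul, smul_smul, hS, neg_mul_neg, hι, neg_one_smul,
      neg_neg]
  have hST : S = ι • T := by
    rw [hT, smul_smul, mul_neg, hι, neg_neg, one_smul]
  obtain ⟨p, q, P, Q, hpq, h1, h2, h3⟩ := LAInvol_diag hT2
  set D : Matrix (Fin p ⊕ Fin q) (Fin p ⊕ Fin q) K :=
    Matrix.diagonal (Sum.elim (fun _ => 1) (fun _ => -1)) with hD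
  have hTQ : T * Q = Q * D := by
    rw [← h3, ← Matrix.mul_assoc, ← Matrix.mul_assoc, h2, Matrix.one_mul]
  have hTJ : T.transpose * J * T = -J := by
    rw [hT, Matrix.transpose_smul, Matrix.smul_mul, Matrix.smul_mul, Matrix.mul_smul, smul_smul,
      hSJ, neg_mul_neg, hι, neg_one_smul]
  set J0 : Matrix (Fin p ⊕ Fin q) (Fin p ⊕ Fin q) K := Q.transpose * J * Q with hJ0
  have hDt : D.transpose = D := Matrix.diagonal_transpose _
  have hDJ : D * J0 * D = -J0 := by
    have e1 : D * Q.transpose = (Q * D).transpose := by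
      rw [Matrix.transpose_mul, hDt]
    calc D * J0 * D = (D * Q.transpose) * J * (Q * D) := by
          rw [hJ0]; simp only [Matrix.mul_assoc]
      _ = Q.transpose * (T.transpose * J * T) * Q := by
          rw [e1, ← hTQ, Matrix.transpose_mul]; simp only [Matrix.mul_assoc]
      _ = -J0 := by
          rw [hTJ, hJ0, Matrix.mul_neg, Matrix.neg_mul]
  have h20 : (2 : K) ≠ 0 := two_ne_zero
  have hdiag : ∀ i j, Sum.elim (fun _ => (1 : K)) (fun _ => -1) i * J0 i j *
      Sum.elim (fun _ => (1 : K)) (fun _ => -1) j = - J0 i j := by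
    intro i j
    have := congrFun (congrFun hDJ i) j
    rw [hD, Matrix.mul_diagonal, Matrix.diagonal_mul] at this
    exact this
  have h11 : J0.toBlocks₁₁ = 0 := by
    ext i j
    have := hdiag (Sum.inl i) (Sum.inl j)
    rw [Sum.elim_inl, Sum.elim_inl, one_mul, mul_one] at this
    have h4 : (2 : K) * J0 (Sum.inl i) (Sum.inl j) = 0 := by linear_combination this
    exact (mul_eq_zero.1 h4).resolve_left h20
  have h22 : J0.toBlocks₂₂ = 0 := by
    ext i j
    have := hdiag (Sum.inr i) (Sum.inr j)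
    rw [Sum.elim_inr, Sum.elim_inr] at this
    have h4 : (2 : K) * J0 (Sum.inr i) (Sum.inr j) = 0 := by linear_combination this
    exact (mul_eq_zero.1 h4).resolve_left h20
  have hJ0t : J0.transpose = κ • J0 := by
    rw [hJ0, Matrix.transpose_mul, Matrix.transpose_mul, Matrix.transpose_transpose, hJ,
      Matrix.smul_mul, Matrix.mul_smul, Matrix.mul_assoc]
  set B : Matrix (Fin p) (Fin q) K := J0.toBlocks₁₂ with hB
  have h21 : J0.toBlocks₂₁ = κ • B.transpose := by
    ext i j
    have h4 := congrFun (congrFun hJ0t (Sum.inr i)) (Sum.inl j)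
    have h5 : J0 (Sum.inl j) (Sum.inr i) = κ * J0 (Sum.inr i) (Sum.inl j) := h4
    show J0 (Sum.inr i) (Sum.inl j) = κ * J0 (Sum.inl j) (Sum.inr i)
    rw [h5, ← mul_assoc, hκ2, one_mul]
  have hJ0b : J0 = Matrix.fromBlocks 0 B (κ • B.transpose) 0 := by
    rw [← Matrix.fromBlocks_toBlocks J0, h11, h22, h21]
  -- the inverse
  have hJi : J⁻¹ * J = 1 := Matrix.nonsing_inv_mul _ (isUnit_iff_ne_zero.2 hd)
  have hJi' : J * J⁻¹ = 1 := Matrix.mul_nonsing_inv _ (isUnit_iff_ne_zero.2 hd)
  have hQPt : P.transpose * Q.transpose = 1 := by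
    rw [← Matrix.transpose_mul, h2, Matrix.transpose_one]
  have hPQt : Q.transpose * P.transpose = 1 := by
    rw [← Matrix.transpose_mul, h1, Matrix.transpose_one]
  set X : Matrix (Fin p ⊕ Fin q) (Fin p ⊕ Fin q) K := P * J⁻¹ * P.transpose with hX
  have hXJ : X * J0 = 1 := by
    calc X * J0 = P * (J⁻¹ * ((P.transpose * Q.transpose) * (J * Q))) := by
          rw [hX, hJ0]; simp only [Matrix.mul_assoc]
      _ = P * ((J⁻¹ * J) * Q) := by rw [hQPt, Matrix.one_mul, Matrix.mul_assoc J⁻¹]
      _ = 1 := by rw [hJi, Matrix.one_mul, h1]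
  have hJX : J0 * X = 1 := by
    calc J0 * X = Q.transpose * (J * ((Q * P) * (J⁻¹ * P.transpose))) := by
          rw [hX, hJ0]; simp only [Matrix.mul_assoc]
      _ = Q.transpose * ((J * J⁻¹) * P.transpose) := by
          rw [h2, Matrix.one_mul, Matrix.mul_assoc J]
      _ = 1 := by rw [hJi', Matrix.one_mul, hPQt]
  set C : Matrix (Fin q) (Fin p) K := X.toBlocks₂₁ with hC
  have hBC : B * C = 1 := by
    have h4 := congrArg Matrix.toBlocks₁₁ hJX
    rw [hJ0b, ← Matrix.fromBlocks_toBlocks X, Matrix.fromBlocks_multiply,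
      ← Matrix.fromBlocks_one, Matrix.toBlocks_fromBlocks₁₁, Matrix.toBlocks_fromBlocks₁₁,
      Matrix.zero_mul, zero_add] at h4
    exact h4
  have hCB : C * B = 1 := by
    have h4 := congrArg Matrix.toBlocks₂₂ hXJ
    rw [hJ0b, ← Matrix.fromBlocks_toBlocks X, Matrix.fromBlocks_multiply,
      ← Matrix.fromBlocks_one, Matrix.toBlocks_fromBlocks₂₂, Matrix.toBlocks_fromBlocks₂₂,
      Matrix.mul_zero, add_zero] at h4
    exact h4
  have hpq' : p = q := by
    have := Matrix.square_of_invertible B C hBC hCB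
    simpa using this
  clear_value B C X J0 D
  subst hpq'
  obtain ⟨EB, hEB⟩ : ∃ E : Matrix (Fin p ⊕ Fin p) (Fin p ⊕ Fin p) K,
      E = Matrix.fromBlocks 1 0 0 B := ⟨_, rfl⟩
  obtain ⟨EC, hEC⟩ : ∃ E : Matrix (Fin p ⊕ Fin p) (Fin p ⊕ Fin p) K,
      E = Matrix.fromBlocks 1 0 0 C := ⟨_, rfl⟩
  have hBCe : EB * EC = 1 := by
    rw [hEB, hEC, Matrix.fromBlocks_multiply]
    simp [hBC]
  have hCBe : EC * EB = 1 := by
    rw [hEB, hEC, Matrix.fromBlocks_multiply]
    simp [hCB]
  have hDb : D = Matrix.fromBlocks 1 0 0 (-1) := by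
    rw [hD]
    ext i j
    rcases i with i | i <;> rcases j with j | j <;>
      simp [Matrix.diagonal_apply, Matrix.one_apply, Matrix.fromBlocks]
    split_ifs <;> simp
  have hDe : EB * (D * EC) = D := by
    rw [hEB, hEC, hDb, Matrix.fromBlocks_multiply, Matrix.fromBlocks_multiply]
    simp [hBC]
  have hJe : EC.transpose * J0 * EC = Matrix.fromBlocks 0 1 (κ • 1) 0 := by
    have h4 : C.transpose * B.transpose = 1 := by
      rw [← Matrix.transpose_mul, hBC, Matrix.transpose_one]
    rw [hEC, hJ0b, Matrix.fromBlocks_transpose, Matrix.fromBlocks_multiply,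
      Matrix.fromBlocks_multiply]
    simp [hBC, h4]
  refine ⟨p, EB * P, Q * EC, hpq, ?_, ?_, ?_, ?_⟩
  · calc EB * P * (Q * EC) = EB * ((P * Q) * EC) := by simp only [Matrix.mul_assoc]
      _ = 1 := by rw [h1, Matrix.one_mul, hBCe]
  · calc Q * EC * (EB * P) = Q * ((EC * EB) * P) := by simp only [Matrix.mul_assoc]
      _ = 1 := by rw [hCBe, Matrix.one_mul, h2]
  · calc EB * P * S * (Q * EC) = ι • (EB * ((P * T * Q) * EC)) := by
          rw [hST]
          simp only [Matrix.mul_smul, Matrix.smul_mul, Matrix.mul_assoc]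
      _ = _ := by rw [h3, hDe, hD]
  · calc (Q * EC).transpose * J * (Q * EC) = EC.transpose * (Q.transpose * J * Q) * EC := by
          rw [Matrix.transpose_mul]; simp only [Matrix.mul_assoc]
      _ = _ := by rw [← hJ0, hJe]

/-- a nondegenerate symmetric or skew form with an isometry `S`, `S ^ 2 = -1`: the eigenspaces of
`S` for `i` and `-i` are isotropic and dual to each other -/
theorem exists_equiv_pair' [IsAlgClosed K] (hc : Fintype.card m = Fintype.card n) {κ : K}
    (hκ : κ = 1 ∨ κ = -1) {J S : Matrix n n K} {J' S' : Matrix m m K}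
    (hJ : J.transpose = κ • J) (hJ' : J'.transpose = κ • J') (hd : J.det ≠ 0) (hd' : J'.det ≠ 0)
    (hS : S * S = -1) (hS' : S' * S' = -1) (hSJ : S.transpose * J * S = J)
    (hSJ' : S'.transpose * J' * S' = J') :
    ∃ (P : Matrix m n K) (Q : Matrix n m K), P * Q = 1 ∧ Q * P = 1 ∧
      P.transpose * J' * P = J ∧ P * S * Q = S' := by
  obtain ⟨ι, hι⟩ := IsAlgClosed.exists_pow_nat_eq (-1 : K) (n := 2) (by norm_num)
  have hι' : ι * ι = -1 := by rw [← sq, hι]
  obtain ⟨p, P, Q, hp, h1, h2, h3, h4⟩ := LAPairI_normal hκ hι' hJ hd hS hSJ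
  obtain ⟨p', P', Q', hp', h1', h2', h3', h4'⟩ := LAPairI_normal hκ hι' hJ' hd' hS' hSJ'
  obtain rfl : p = p' := by omega
  refine ⟨Q' * P, Q * P', ?_, ?_, ?_, ?_⟩
  · rw [Matrix.mul_assoc, ← Matrix.mul_assoc P, h1, Matrix.one_mul, h2']
  · rw [Matrix.mul_assoc, ← Matrix.mul_assoc P', h1', Matrix.one_mul, h2]
  · calc (Q' * P).transpose * J' * (Q' * P) = P.transpose * (Q'.transpose * J' * Q') * P := by
          rw [Matrix.transpose_mul]; simp only [Matrix.mul_assoc]
      _ = P.transpose * (Q.transpose * J * Q) * P := by rw [h4', h4]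
      _ = (Q * P).transpose * J * (Q * P) := by
          rw [Matrix.transpose_mul]; simp only [Matrix.mul_assoc]
      _ = J := by rw [h2, Matrix.transpose_one, Matrix.one_mul, Matrix.mul_one]
  · calc Q' * P * S * (Q * P') = Q' * (P * S * Q) * P' := by simp only [Matrix.mul_assoc]
      _ = Q' * (P' * S' * Q') * P' := by rw [h3, h3']
      _ = (Q' * P') * S' * (Q' * P') := by simp only [Matrix.mul_assoc]
      _ = S' := by rw [h2', Matrix.one_mul, Matrix.mul_one]

/-- a form with an isometry `S`, `S ^ 2 = -1`, lives in even dimension -/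
theorem even_card_of_sq_neg {κ : K} (hκ : κ = 1 ∨ κ = -1) {J S : Matrix n n K}
    (hJ : J.transpose = κ • J) (hd : J.det ≠ 0) (hS : S * S = -1)
    (hSJ : S.transpose * J * S = J) : Even (Fintype.card n) := by
  have hdS : S.det ≠ 0 := by
    intro h
    have h1 := congrArg Matrix.det hS
    rw [Matrix.det_mul, h, zero_mul] at h1
    have h2 : ((-1 : Matrix n n K)).det ≠ 0 := by
      rw [Matrix.det_neg, Matrix.det_one, mul_one]
      exact pow_ne_zero _ (neg_ne_zero.2 one_ne_zero)
    exact h2 h1.symm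
  rcases hκ with h | h
  · -- `J * S` is skew
    have h1 : S.transpose * J = -(J * S) := by
      have h2 := congrArg (fun M => M * S) hSJ
      simp only [Matrix.mul_assoc] at h2
      rw [hS, Matrix.mul_neg, Matrix.mul_one, Matrix.mul_neg] at h2
      rw [← h2, neg_neg]
    apply LAPairI_even (M := J * S)
    · rw [Matrix.transpose_mul, hJ, h, one_smul, h1]
    · rw [Matrix.det_mul]
      exact mul_ne_zero hd hdS
  · exact LAPairI_even (M := J) (by rw [hJ, h, neg_one_smul]) hd

end Pool.Agent.helper49.QA
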