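import Mathlib
import Pool.Agent.helper49.QA.Chain
import Pool.Agent.helper49.QA.Index
import Pool.Agent.helper49.QA.LimPar
import Pool.Agent.helper49.QA.LAPairI

/-!
# Type CI: `sp_{2r}` with the involution `x ↦ S x S⁻¹`, `S ^ 2 = -1`

Generators: `ek`, degrees `2, 4, ..., 2 r`, leading parts of degree `b = 2 k` (they depend on `g_1` only).

Chain form: `J = Jalt (2 r)`, `S = diag (i, -i, i, -i, ...)` (it satisfies `Sᵀ J S = J`, `S ^ 2 = -1`), so
`par a = (a odd)`; the window `lo = 0` has the weight `m` for even `m`.  Degrees: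
`phi_natDegree_le`.
Torus form: index type `Fin r ⊕ Fin r`, `J = fromBlocks 0 1 (-1) 0`, `S = fromBlocks 0 (-1) 1 0`,
`a1 = diag (λ, -λ)` with `λ i = i + 1`, `a0 = 0`; all the entries of `diag (λ, -λ)` are different, so
the conditions of `Rz.finrank_stab_le` are void; `f d = d ∘ inl` (a diagonal matrix in the
Lie algebra has `d (inr i) = -d (inl i)`).
Both forms are obtained from `r` by `exists_equiv_pair'`, `Rz.conj` (`gen` and `pnt` do not
change; `n` has even size by `even_card_of_sq_neg`).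
-/

set_option autoImplicit false

namespace Pool.Agent.helper49.QA

open Polynomial Pool.Agent.helper5.AS
open Pool.Agent.helper5.ASQ (Invol even oddc brk IsContraction)
open Pool.Agent.helper90.MF (od)

variable {K : Type*} [Field K] [CharZero K] [IsAlgClosed K] {g : Type*}
  [LieRing g] [LieAlgebra K g] {θ : Invol K g}
  {k : Type*} [LieRing k] [LieAlgebra K k] {e : g ≃ₗ[K] k}

theorem FamCI_wt {m : ℕ} (hm : Even m) (hm1 : 1 ≤ m) :
    wt (fun a => decide (a % 2 = 1)) 0 m = m := by
  obtain ⟨k, rfl⟩ := hm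
  rw [wt]
  have h1 : ∀ l ∈ Finset.Ico 0 (0 + (k + k) - 1),
      (if decide (l % 2 = 1) = decide ((l + 1) % 2 = 1) then 0 else 1) = 1 := by
    intro l _
    rw [if_neg]
    intro h
    have h2 := decide_eq_decide.1 h
    omega
  rw [Finset.sum_congr rfl h1, Finset.sum_const, Nat.card_Ico, if_neg]
  · simp only [smul_eq_mul, mul_one]
    omega
  · intro h
    have h2 := decide_eq_decide.1 h
    omega

/-- test elements in the chain form -/
theorem FamCI_tests {l : ℕ} {r : Rz K (Fin (2 * l)) θ} (hJ : r.IsJ (Jalt K (2 * l)) (-1))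
    (hp : r.IsPar fun i => decide (i.val % 2 = 1)) :
    r.Tests (fun i : Fin l => 2 * (i.val + 1)) (fun i : Fin l => 2 * (i.val + 1)) := by
  have hκ : (-1 : K) ^ (2 * l + 1) = -1 := by
    rw [pow_succ, pow_mul, neg_one_sq, one_pow, one_mul]
  refine chain_tests (par := fun a => decide (a % 2 = 1)) (by rw [hκ]; exact hJ) hp ?_ _ _ ?_ ?_ ?_
  · intro i j hi hj
    rw [decide_eq_decide, decide_eq_decide]
    omega
  · intro i
    exact even_two_mul _
  · intro i
    omega
  · intro i
    refine ⟨0, ?_, FamCI_wt (even_two_mul _) (by omega)⟩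
    have := i.isLt
    omega

/-- the values of the diagonal matrix -/
def FamCI_lam (K : Type*) [Field K] (l : ℕ) : Fin l ⊕ Fin l → K :=
  Sum.elim (fun i => (i.val : K) + 1) fun i => -((i.val : K) + 1)

omit [IsAlgClosed K] in
theorem FamCI_lam_inj (l : ℕ) : Function.Injective (FamCI_lam K l) := by
  have h0 : ∀ i j : ℕ, (i : K) + 1 ≠ -((j : K) + 1) := by
    intro i j h
    have h1 : ((i + 1 + (j + 1) : ℕ) : K) = 0 := by
      push_cast
      linear_combination h
    have h2 := Nat.cast_eq_zero.1 h1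
    omega
  have h3 : ∀ i j : ℕ, (i : K) + 1 = (j : K) + 1 → i = j := by
    intro i j h
    exact Nat.cast_injective (R := K) (by linear_combination h)
  rintro (i | i) (j | j) h
  · exact congrArg Sum.inl (Fin.ext (h3 _ _ h))
  · exact absurd h (h0 _ _)
  · exact absurd h.symm (h0 _ _)
  · exact congrArg Sum.inr (Fin.ext (h3 _ _ (neg_injective h)))

/-- the point in the torus form -/
theorem FamCI_index {l : ℕ} {r : Rz K (Fin l ⊕ Fin l) θ}
    (hJ : r.IsJ (Matrix.fromBlocks 0 1 (-1) 0) (-1))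
    (hS : r.IsS (Matrix.fromBlocks 0 (-1) 1 0)) (he : IsContraction θ e) :
    ∃ x0 : k →ₗ[K] K, Module.finrank K (stab x0) ≤ l := by
  obtain ⟨a1, ha1⟩ := hJ.surj (A := Matrix.diagonal (FamCI_lam K l)) (by
    ext i j
    rw [Matrix.diagonal_transpose, Matrix.diagonal_mul, Matrix.neg_apply, Matrix.mul_diagonal]
    rcases i with i | i <;> rcases j with j | j
    · simp
    · simp only [Matrix.fromBlocks_apply₁₂, Matrix.one_apply, FamCI_lam, Sum.elim_inl,
        Sum.elim_inr]
      split_ifs with h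
      · rw [h]
        ring
      · ring
    · simp only [Matrix.fromBlocks_apply₂₁, Matrix.neg_apply, Matrix.one_apply, FamCI_lam,
        Sum.elim_inl, Sum.elim_inr]
      split_ifs with h
      · rw [h]
        ring
      · ring
    · simp)
  have hSS : (Matrix.fromBlocks 0 (-1) 1 0 : Matrix (Fin l ⊕ Fin l) (Fin l ⊕ Fin l) K) *
      Matrix.fromBlocks 0 (-1) 1 0 = -1 := by
    rw [Matrix.fromBlocks_multiply, ← Matrix.fromBlocks_one, Matrix.fromBlocks_neg]
    simp
  have h1 : θ.hom a1 = -a1 := by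
    apply r.inj
    have h2 := hS a1
    have h3 : (Matrix.fromBlocks 0 (-1) 1 0 : Matrix (Fin l ⊕ Fin l) (Fin l ⊕ Fin l) K) *
        r.ρ a1 = -(r.ρ a1 * Matrix.fromBlocks 0 (-1) 1 0) := by
      rw [ha1]
      ext i j
      rw [Matrix.neg_apply, Matrix.diagonal_mul, Matrix.mul_diagonal]
      rcases i with i | i <;> rcases j with j | j
      · simp
      · simp only [Matrix.fromBlocks_apply₁₂, Matrix.neg_apply, Matrix.one_apply, FamCI_lam,
          Sum.elim_inl, Sum.elim_inr]
        split_ifs with h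
        · rw [h]
          ring
        · ring
      · simp only [Matrix.fromBlocks_apply₂₁, Matrix.one_apply, FamCI_lam, Sum.elim_inl,
          Sum.elim_inr]
        split_ifs with h
        · rw [h]
          ring
        · ring
      · simp
    rw [h3] at h2
    have h4 := congrArg (fun M => M * (Matrix.fromBlocks 0 (-1) 1 0 :
      Matrix (Fin l ⊕ Fin l) (Fin l ⊕ Fin l) K)) h2
    simp only [Matrix.neg_mul, Matrix.mul_assoc, hSS, Matrix.mul_neg, Matrix.mul_one,
      neg_neg] at h4
    rw [map_neg, ← h4, neg_neg]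
  refine ⟨r.pnt e (0 + a1), r.finrank_stab_le he (map_zero _) h1 ha1 (mu := 0) (by
    rw [map_zero]; exact Matrix.diagonal_zero.symm) ?_ ?_
      (LinearMap.funLeft K K (Sum.inl : Fin l → Fin l ⊕ Fin l)) ?_⟩
  · intro x _ i j hij h
    exact absurd (FamCI_lam_inj l h) hij
  · intro i j hij h
    exact absurd (FamCI_lam_inj l h) hij
  · intro x d hd hf
    have h2 := hJ.skew x
    rw [hd] at h2
    have h3 : ∀ i : Fin l, d (Sum.inl i) = 0 := fun i => congrFun hf i
    funext i
    rcases i with i | i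
    · exact h3 i
    · have h4 := congrFun (congrFun h2 (Sum.inl i)) (Sum.inr i)
      rw [Matrix.diagonal_transpose, Matrix.diagonal_mul, Matrix.neg_apply, Matrix.mul_diagonal,
        h3 i, zero_mul, Matrix.fromBlocks_apply₁₂, Matrix.one_apply_eq, one_mul] at h4
      exact neg_eq_zero.1 h4.symm

/-- the diagonal matrix of the chain form -/
theorem FamCI_chain {l : ℕ} {ι : K} (hι : ι * ι = -1) :
    (Matrix.diagonal fun i : Fin (2 * l) => if i.val % 2 = 1 then -ι else ι).transpose *
      Jalt K (2 * l) * (Matrix.diagonal fun i : Fin (2 * l) => if i.val % 2 = 1 then -ι else ι) =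
      Jalt K (2 * l) := by
  ext i j
  rw [Matrix.diagonal_transpose, Matrix.mul_diagonal, Matrix.diagonal_mul]
  simp only [Jalt]
  by_cases h : i.val + j.val + 1 = 2 * l
  · rw [if_pos h]
    by_cases h1 : i.val % 2 = 1
    · rw [if_pos h1, if_neg (by omega)]
      linear_combination (-(-1 : K) ^ i.val) * hι
    · rw [if_neg h1, if_pos (by omega)]
      linear_combination (-(-1 : K) ^ i.val) * hι
  · rw [if_neg h, mul_zero, zero_mul]

/-- type CI -/
theorem quant_CI {n : Type*} [Fintype n] [DecidableEq n] {r : Rz K n θ} {J S : Matrix n n K}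
    (hJ : r.IsJ J (-1)) (hS : r.IsS S) (hSS : S * S = -1) (hSJ : S.transpose * J * S = J)
    (he : IsContraction θ e) {C : (g →ₗ[K] K) → Subalgebra K (Ue K g)}
    (hC : ∀ ξ, ∀ a ∈ C ξ, ∀ b ∈ C ξ, a * b = b * a) (hQ : ∀ j, HasQ C j (ek j r.XM)) :
    Quant K k := by
  obtain ⟨l, hl⟩ := even_card_of_sq_neg (Or.inr rfl) hJ.symm hJ.det hSS hSJ
  obtain ⟨ι, hι'⟩ := IsAlgClosed.exists_pow_nat_eq (-1 : K) (n := 2) (by norm_num)
  have hι : ι * ι = -1 := by rw [← sq, hι']
  have hι0 : ι ≠ 0 := by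
    intro h
    rw [h, mul_zero] at hι
    exact one_ne_zero (neg_eq_zero.1 hι.symm)
  have hκ : (-1 : K) ^ (2 * l + 1) = -1 := by
    rw [pow_succ, pow_mul, neg_one_sq, one_pow, one_mul]
  -- the torus form
  obtain ⟨x0, hx0⟩ : ∃ x0 : k →ₗ[K] K, Module.finrank K (stab x0) ≤ l := by
    have hSS' : (Matrix.fromBlocks 0 (-1) 1 0 : Matrix (Fin l ⊕ Fin l) (Fin l ⊕ Fin l) K) *
        Matrix.fromBlocks 0 (-1) 1 0 = -1 := by
      rw [Matrix.fromBlocks_multiply, ← Matrix.fromBlocks_one, Matrix.fromBlocks_neg]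
      simp
    have hJJ' : (Matrix.fromBlocks 0 1 (-1) 0 : Matrix (Fin l ⊕ Fin l) (Fin l ⊕ Fin l) K) *
        Matrix.fromBlocks 0 1 (-1) 0 = -1 := by
      rw [Matrix.fromBlocks_multiply, ← Matrix.fromBlocks_one, Matrix.fromBlocks_neg]
      simp
    have hJt : (Matrix.fromBlocks 0 1 (-1) 0 :
        Matrix (Fin l ⊕ Fin l) (Fin l ⊕ Fin l) K).transpose =
          (-1 : K) • Matrix.fromBlocks 0 1 (-1) 0 := by
      rw [Matrix.fromBlocks_transpose, Matrix.fromBlocks_smul]
      simp
    have hSt : (Matrix.fromBlocks 0 (-1) 1 0 :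
        Matrix (Fin l ⊕ Fin l) (Fin l ⊕ Fin l) K).transpose =
          Matrix.fromBlocks 0 1 (-1) 0 := by
      rw [Matrix.fromBlocks_transpose]
      simp
    have hdet : (Matrix.fromBlocks 0 1 (-1) 0 :
        Matrix (Fin l ⊕ Fin l) (Fin l ⊕ Fin l) K).det ≠ 0 := by
      intro h
      have h1 := congrArg Matrix.det hJJ'
      rw [Matrix.det_mul, h, zero_mul, Matrix.det_neg, Matrix.det_one, mul_one] at h1
      exact pow_ne_zero _ (neg_ne_zero.2 one_ne_zero) h1.symm
    have hSJ' : (Matrix.fromBlocks 0 (-1) 1 0 :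
        Matrix (Fin l ⊕ Fin l) (Fin l ⊕ Fin l) K).transpose * Matrix.fromBlocks 0 1 (-1) 0 *
          Matrix.fromBlocks 0 (-1) 1 0 = Matrix.fromBlocks 0 1 (-1) 0 := by
      rw [hSt, hJJ', neg_one_mul, Matrix.fromBlocks_neg]
      simp
    obtain ⟨P, Q, hPQ, hQP, h1, h2⟩ := exists_equiv_pair' (m := Fin l ⊕ Fin l) (n := n)
      (by rw [Fintype.card_sum, Fintype.card_fin, hl]) (Or.inr rfl) hJ.symm hJt hJ.det hdet
      hSS hSS' hSJ hSJ'
    exact FamCI_index (r := r.conj P Q hPQ hQP) (hJ.conj hPQ hQP h1) (hS.conj hPQ hQP h2) he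
  -- the chain form
  have hJt : (Jalt K (2 * l)).transpose = (-1 : K) • Jalt K (2 * l) := by
    rw [Jalt_transpose, hκ]
  have hDD : (Matrix.diagonal fun i : Fin (2 * l) => if i.val % 2 = 1 then -ι else ι) *
      (Matrix.diagonal fun i : Fin (2 * l) => if i.val % 2 = 1 then -ι else ι) = -1 := by
    rw [Matrix.diagonal_mul_diagonal, ← Matrix.diagonal_one, Matrix.diagonal_neg]
    congr 1
    funext i
    split_ifs
    · rw [neg_mul_neg, hι]
    · rw [hι]
  obtain ⟨P, Q, hPQ, hQP, h1, h2⟩ := exists_equiv_pair' (m := Fin (2 * l)) (n := n)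
    (by rw [Fintype.card_fin, hl, two_mul]) (Or.inr rfl) hJ.symm hJt hJ.det
    (Jalt_det_ne_zero _) hSS hDD hSJ (FamCI_chain hι)
  have hpar : (r.conj P Q hPQ hQP).IsPar fun i => decide (i.val % 2 = 1) := by
    refine (hS.conj hPQ hQP h2).isPar ?_ ?_
    · intro i
      split_ifs
      · exact neg_ne_zero.2 hι0
      · exact hι0
    · intro i j
      rw [od]
      simp only [decide_eq_decide]
      by_cases hi : i.val % 2 = 1 <;> by_cases hj : j.val % 2 = 1 <;> simp [hi, hj]
  have hnd : ∀ (m : ℕ) (a : g),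
      (phi K false m ((r.conj P Q hPQ hQP).M a)).natDegree ≤ m := by
    intro m a
    rw [hpar.M_eq]
    exact phi_natDegree_le (Mp_natDegree _ _) false m
  refine (r.conj P Q hPQ hQP).quant_of he (fun _ => false) (fun i : Fin l => 2 * (i.val + 1))
    (fun i : Fin l => 2 * (i.val + 1)) ?_ ?_ (fun i a => hnd _ a)
    (FamCI_tests (hJ.conj hPQ hQP h1) hpar) x0 hx0 ?_
  · intro i j hij
    have : i.val < j.val := hij
    show 2 * (i.val + 1) < 2 * (j.val + 1)
    omega
  · intro i
    omega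
  · intro ξ
    refine comm_of_limQ θ r.lie r.inj he hC
      (fun i : Fin l => (r.conj P Q hPQ hQP).H false (2 * (i.val + 1))) _ _ (fun i => ?_) ξ
    refine limQ_of_hasQ θ e ?_ ((r.conj P Q hPQ hQP).degree_le false _ _ (hnd _)) (by omega)
    have h3 := hQ (2 * (i.val + 1))
    rw [Rz.conj_H]
    exact h3

end Pool.Agent.helper49.QA
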