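import Mathlib
import Pool.Agent.helper49.QA.EkBasic
import Pool.Agent.helper49.QA.Pf

/-!
# The square lemma

If `ω` is skew and nondegenerate and `Aᵀ ω = ω A` then `det (1 + u A)` is the square of a
polynomial in `u`: `ω (1 + u A)` is skew, so `pfn (ω (1 + u A)) ^ 2 = N det ω det (1 + u A)`.
-/

set_option autoImplicit false

namespace Pool.Agent.helper49.QA

open Polynomial

variable {n : Type*} [Fintype n] [DecidableEq n] {K : Type*} [Field K] [CharZero K]

theorem Square_map_eval (A ω : Matrix n n K) :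
    (ω.map (C : K → K[X]) * (1 + (X : K[X]) • A.map (C : K → K[X]))).map
      (evalRingHom (0 : K)) = ω := by
  rw [Matrix.map_mul]
  have h1 : (ω.map (C : K → K[X])).map (evalRingHom (0 : K)) = ω := by
    ext i j
    simp
  have h2 : ((1 : Matrix n n K[X]) + (X : K[X]) • A.map (C : K → K[X])).map
      (evalRingHom (0 : K)) = 1 := by
    ext i j
    rw [Matrix.map_apply, Matrix.add_apply, Matrix.smul_apply, Matrix.map_apply, smul_eq_mul,
      map_add, map_mul]
    have h3 : (evalRingHom (0 : K)) X = 0 := by simp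
    rw [h3, zero_mul, add_zero]
    by_cases h : i = j
    · rw [h, Matrix.one_apply_eq, Matrix.one_apply_eq, map_one]
    · rw [Matrix.one_apply_ne h, Matrix.one_apply_ne h, map_zero]
  rw [h1, h2, Matrix.mul_one]

/-- put `Q = (pfn (ω (1 + u A))) / (pfn ω)` -/
theorem exists_sqrt {A ω : Matrix n n K} (hω : ω.transpose = -ω) (hdet : ω.det ≠ 0)
    (h : A.transpose * ω = ω * A) : ∃ Q : K[X], Q.coeff 0 = 1 ∧ Q ^ 2 = gd A := by
  obtain ⟨m, ⟨e⟩⟩ := exists_pairs hω hdet
  obtain ⟨N, hN, hsq⟩ := pfn_sq e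
  set B : Matrix n n K[X] := ω.map (C : K → K[X]) * (1 + (X : K[X]) • A.map (C : K → K[X]))
    with hB
  have hBskew : B.transpose = -B := by
    have h1 : (A.map (C : K → K[X])).transpose * ω.map (C : K → K[X]) =
        ω.map (C : K → K[X]) * A.map (C : K → K[X]) := by
      rw [← Matrix.map_mul, ← h, Matrix.map_mul]
      rfl
    have h2 : (ω.map (C : K → K[X])).transpose = -(ω.map (C : K → K[X])) := by
      have h3 : (ω.map (C : K → K[X])).transpose = ω.transpose.map (C : K → K[X]) := rfl
      rw [h3, hω]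
      ext1 i j
      rw [Matrix.map_apply, Matrix.neg_apply, Matrix.neg_apply, Matrix.map_apply, map_neg]
    rw [hB, Matrix.transpose_mul, h2, Matrix.transpose_add, Matrix.transpose_one,
      Matrix.transpose_smul, Matrix.mul_neg, Matrix.add_mul, Matrix.one_mul, Matrix.smul_mul, h1,
      Matrix.mul_add, Matrix.mul_one, Matrix.mul_smul]
  have hc2 : pfn e ω ^ 2 = (N : K) * ω.det := hsq K ω hω
  have hc0 : pfn e ω ≠ 0 := by
    intro h0
    rw [h0] at hc2
    have h1 : (N : K) * ω.det ≠ 0 := mul_ne_zero (Nat.cast_ne_zero.2 hN) hdet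
    exact h1 (by rw [← hc2]; ring)
  have hB2 : pfn e B ^ 2 = C (pfn e ω) ^ 2 * gd A := by
    have hdetm : (ω.map (C : K → K[X])).det = C ω.det := by
      have := (RingHom.map_det (C : K →+* K[X]) ω).symm
      exact this
    rw [hsq K[X] B hBskew, hB, Matrix.det_mul, hdetm, ← map_pow, hc2, map_mul, map_natCast, gd]
    ring
  have hB0 : (pfn e B).coeff 0 = pfn e ω := by
    have h1 := pfn_map e (evalRingHom (0 : K)) B
    rw [hB, Square_map_eval, ← hB] at h1
    rw [coeff_zero_eq_eval_zero]
    exact h1.symm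
  refine ⟨C (pfn e ω)⁻¹ * pfn e B, ?_, ?_⟩
  · rw [coeff_C_mul, hB0, inv_mul_cancel₀ hc0]
  · rw [mul_pow, hB2, ← mul_assoc, ← mul_pow, ← C_mul, inv_mul_cancel₀ hc0, C_1, one_pow, one_mul]

/-- the sequence `sqr` is the sequence of the coefficients of the square root -/
theorem sqr_eq_coeff {c : ℕ → K} {Q : K[X]} (h0 : Q.coeff 0 = 1)
    (h : ∀ k, (Q ^ 2).coeff k = c k) (k : ℕ) : sqr K c k = Q.coeff k := by
  induction k using Nat.strong_induction_on with
  | _ k ih =>
    cases k with
    | zero => rw [sqr, h0]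
    | succ k =>
      have h1 := h (k + 1)
      rw [sq, coeff_mul, Finset.Nat.sum_antidiagonal_eq_sum_range_succ
        (fun i j => Q.coeff i * Q.coeff j), Finset.sum_range_succ, Finset.sum_range_succ'] at h1
      simp only [Nat.sub_zero, Nat.sub_self, h0, one_mul, mul_one] at h1
      have h2 : ∑ i : Fin k, sqr K c (i + 1) * sqr K c (k - i) =
          ∑ i ∈ Finset.range k, Q.coeff (i + 1) * Q.coeff (k + 1 - (i + 1)) := by
        rw [Finset.sum_range]
        refine Finset.sum_congr rfl fun i _ => ?_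
        have hi := i.isLt
        rw [ih (i + 1) (by omega), ih (k - i) (by omega)]
        congr 2
        omega
      rw [sqr, h2, ← h1, smul_eq_mul]
      have h3 : (2 : K) ≠ 0 := two_ne_zero
      field_simp
      ring

theorem phi_eq_zero_of_square {A ω : Matrix n n K} (hω : ω.transpose = -ω) (hdet : ω.det ≠ 0)
    (h : A.transpose * ω = ω * A) {D k : ℕ} (hD : (gd A).natDegree ≤ 2 * D) (hk : D < k) :
    phi K true k A = 0 := by
  obtain ⟨Q, hQ0, hQ2⟩ := exists_sqrt hω hdet h
  have h1 : phi K true k A = Q.coeff k := by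
    unfold phi
    rw [if_pos rfl]
    exact sqr_eq_coeff hQ0 (fun j => by rw [hQ2]; rfl) k
  rw [h1]
  apply coeff_eq_zero_of_natDegree_lt
  rw [← hQ2, natDegree_pow] at hD
  omega

/-- `gd A` has degree at most the size; it is at most `D` if all `ek j A`, `D < j`, vanish -/
theorem gd_natDegree_le (A : Matrix n n K) : (gd A).natDegree ≤ Fintype.card n := by
  rw [natDegree_le_iff_coeff_eq_zero]
  intro N hN
  exact ek_of_card_lt hN A

end Pool.Agent.helper49.QA
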