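import Mathlib
import Pool.Agent.helper49.QA.Chain
import Pool.Agent.helper49.QA.Index
import Pool.Agent.helper49.QA.LimPar
import Pool.Agent.helper49.QA.LAPair
import Pool.Agent.helper49.QA.Square

/-!
# Type CII: `sp_{2n}` with the involution `x ↦ S x S⁻¹`, `S ^ 2 = 1`

`n = p + q`, `q ≤ p` (replace `S` by `-S` if necessary, the involution is the same), `2 q` and `2 p` the
dimensions of the eigenspaces of `S` for `-1` and `1` (`exists_trace_even`).
Generators (`k = 1, ..., n`, degree `2 k`): the square root kind (`phi true`) with `b = 2 k` for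
`k ≤ q` and `b = 2 k - 2` for `q < k ≤ 2 q`; `ek` with `b = 4 q` for `k > 2 q`.

Chain form: index type `Fin (2 (p + q))`, `J = Jalt`, `S = diag` of the signs
`+^(p-q) (-+)^q (+-)^q +^(p-q)` (a palindrome): `parC p q a = true` iff `-`.
Windows: `lo = p - q` for `k ≤ q` (all the `2 k - 1` links are odd and the ends have different
parities); the centered window `lo = n - k` for `k > q`: its weight is `2 k - 2` for `k ≤ 2 q` (all
links but the middle one are odd, the ends have the same parity) and `4 q` for `k > 2 q`.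

Degrees.  For `k ≤ q`: `phi_natDegree_le`.  For `k > 2 q`: `ek_Mp_natDegree_le` (`qn par = 2 q`).
For `q < k ≤ 2 q`: `natDegree_le_sub_two`, with `phi_coeff_top`: the coefficient of `X^(2k)` is
`phi true (2 k) B` where `B` is the odd part of `A`.  For `ω = J S` we have
`ωᵀ = -ω`, `Bᵀ ω = ω B` (`Bᵀ J = - J B`, `B S = - S B`), `det ω ≠ 0`; and `(gd B).natDegree ≤ 4 q` since for
`j > 4 q` `ek j B` is the coefficient of `X^j` of `ek j (Mp par A)`, which has degree at
most `2 qn par = 4 q`.  So `phi_eq_zero_of_square` with `D = 2 q` applies.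

Torus form: index type `(Fin q × Fin 2 ⊕ Fin l) × Fin 2`, `l = p - q`;
`J` pairs `(x, 0)` and `(x, 1)`: `J (x,0) (x,1) = 1`, `J (x,1) (x,0) = -1`; `S` is the permutation matrix
which exchanges `((i,0), ε)` and `((i,1), ε)` and fixes the other indices (`trace S = 2 (p - q)`).
`a1 = diag λ`, `λ ((i,s),ε) = (i+1) (-1)^s (-1)^ε`, zero on the second summand;
`a0 = diag μ`, `μ ((i,s),ε) = (-1)^ε`, `μ (j,ε) = (j+1) (-1)^ε`.
If `λ x = λ y`, `x ≠ y`: either `x = ((i,0),ε)`, `y = ((i,1),1-ε)` (or conversely), and `μ x = -μ y ≠ μ y`; an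
odd `x` in the Lie algebra vanishes there: `x_{ab} = -x_{Sa,Sb}` (odd) and
`x_{ab} = -ε_a ε_b x_{b',a'}` (skew for `J`, `'` exchanges `ε`): for `a = ((i,0),0)`, `b = ((i,1),1)`:
`b' = ((i,1),0) = S a`, `a' = ((i,0),1) = S b`, `ε_a ε_b = -1`, so `x_{ab} = x_{Sa,Sb} = -x_{ab}`.  Or `x`,
`y` are in the second summand, fixed by `S`, where odd elements vanish, and `μ x ≠ μ y`.
`f d =` the values of `d` at the indices `(_, 0)`.
-/

set_option autoImplicit false

namespace Pool.Agent.helper49.QA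

open Polynomial Pool.Agent.helper5.AS
open Pool.Agent.helper5.ASQ (Invol even oddc brk IsContraction)
open Pool.Agent.helper90.MF (od)

variable {K : Type*} [Field K] [CharZero K] [IsAlgClosed K] {g : Type*}
  [LieRing g] [LieAlgebra K g] {θ : Invol K g}
  {k : Type*} [LieRing k] [LieAlgebra K k] {e : g ≃ₗ[K] k}

/-- the signs of the chain form: `true` is the eigenvalue `-1` -/
def parC (p q a : ℕ) : Bool :=
  let a' := min a (2 * (p + q) - 1 - a)
  decide (p - q ≤ a' ∧ (a' - (p - q)) % 2 = 0)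

/-- the exponents -/
def bC (q k : ℕ) : ℕ := if k ≤ q then 2 * k else if k ≤ 2 * q then 2 * k - 2 else 4 * q

private theorem FamCII_rev {p q a : ℕ} (ha : a < 2 * (p + q)) :
    parC p q (2 * (p + q) - 1 - a) = parC p q a := by
  have h : min (2 * (p + q) - 1 - a) (2 * (p + q) - 1 - (2 * (p + q) - 1 - a)) =
      min a (2 * (p + q) - 1 - a) := by omega
  unfold parC
  simp only [h]

private theorem FamCII_lt {p q a : ℕ} (ha : a < p + q) :
    parC p q a = decide (p - q ≤ a ∧ (a - (p - q)) % 2 = 0) := by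
  have h : min a (2 * (p + q) - 1 - a) = a := by omega
  unfold parC
  simp only [h]

/-- the links -/
private def FamCII_lk (p q l : ℕ) : ℕ := if parC p q l = parC p q (l + 1) then 0 else 1

private theorem FamCII_left {p q l : ℕ} (hl : l + 1 < p + q) :
    FamCII_lk p q l = if p - q ≤ l + 1 then 1 else 0 := by
  unfold FamCII_lk
  have h0 : (parC p q l = parC p q (l + 1)) ↔ ¬ (p - q ≤ l + 1) := by
    rw [FamCII_lt (show l < p + q by omega), FamCII_lt hl, decide_eq_decide]
    omega
  by_cases h : p - q ≤ l + 1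
  · rw [if_pos h, if_neg fun h1 => h0.1 h1 h]
  · rw [if_neg h, if_pos (h0.2 h)]

private theorem FamCII_mid {p q : ℕ} (h : 1 ≤ p + q) : FamCII_lk p q (p + q - 1) = 0 := by
  unfold FamCII_lk
  have h1 := FamCII_rev (p := p) (q := q) (a := p + q - 1) (by omega)
  have h2 : 2 * (p + q) - 1 - (p + q - 1) = p + q - 1 + 1 := by omega
  rw [h2] at h1
  rw [if_pos h1.symm]

private theorem FamCII_right {p q l : ℕ} (h1 : p + q ≤ l) (h2 : l + 1 < 2 * (p + q)) :
    FamCII_lk p q l = if p - q ≤ 2 * (p + q) - 1 - l then 1 else 0 := by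
  have e1 := FamCII_rev (p := p) (q := q) (a := l) (by omega)
  have e2 := FamCII_rev (p := p) (q := q) (a := l + 1) h2
  have h3 := FamCII_left (p := p) (q := q) (l := 2 * (p + q) - 2 - l) (by omega)
  unfold FamCII_lk at h3 ⊢
  have h4 : 2 * (p + q) - 1 - (l + 1) = 2 * (p + q) - 2 - l := by omega
  have h5 : 2 * (p + q) - 2 - l + 1 = 2 * (p + q) - 1 - l := by omega
  rw [h4] at e2
  rw [h5, e1, e2] at h3
  rw [← h3]
  by_cases h6 : parC p q l = parC p q (l + 1)
  · rw [if_pos h6, if_pos h6.symm]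
  · rw [if_neg h6, if_neg fun h => h6 h.symm]

private theorem FamCII_suml {p q : ℕ} (hpq : q ≤ p) (j : ℕ) (hj : j + 1 ≤ p + q) :
    ∑ l ∈ Finset.Ico (p + q - 1 - j) (p + q - 1), FamCII_lk p q l = min j (2 * q) := by
  induction j with
  | zero => simp
  | succ j ih =>
    have h1 : p + q - 1 - (j + 1) < p + q - 1 := by omega
    have h2 : p + q - 1 - (j + 1) + 1 = p + q - 1 - j := by omega
    rw [Finset.sum_eq_sum_Ico_succ_bot h1, h2, ih (by omega), FamCII_left (by omega)]
    split_ifs with h3 <;> omega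

private theorem FamCII_sumr {p q : ℕ} (hpq : q ≤ p) (j : ℕ) (hj : j + 1 ≤ p + q) :
    ∑ l ∈ Finset.Ico (p + q) (p + q + j), FamCII_lk p q l = min j (2 * q) := by
  induction j with
  | zero => simp
  | succ j ih =>
    rw [← add_assoc, Finset.sum_Ico_succ_top (by omega), ih (by omega),
      FamCII_right (by omega) (by omega)]
    split_ifs with h3 <;> omega

theorem FamCII_wt {p q k : ℕ} (hpq : q ≤ p) (hk : 1 ≤ k) (hkn : k ≤ p + q) :
    ∃ lo, lo + 2 * k ≤ 2 * (p + q) ∧ wt (parC p q) lo (2 * k) = bC q k := by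
  by_cases h1 : k ≤ q
  · refine ⟨p - q, by omega, ?_⟩
    unfold wt bC
    rw [if_pos h1]
    have h2 : ∑ l ∈ Finset.Ico (p - q) (p - q + 2 * k - 1), FamCII_lk p q l = 2 * k - 1 := by
      rw [Finset.sum_congr rfl (g := fun _ => 1)]
      · rw [Finset.sum_const, Nat.card_Ico, smul_eq_mul, mul_one]
        omega
      · intro l hl
        rw [Finset.mem_Ico] at hl
        rw [FamCII_left (by omega), if_pos (by omega)]
    have h3 : parC p q (p - q + 2 * k - 1) ≠ parC p q (p - q) := by
      rw [FamCII_lt (by omega), FamCII_lt (by omega), ne_eq, decide_eq_decide]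
      omega
    rw [if_neg h3]
    unfold FamCII_lk at h2
    rw [h2]
    omega
  · refine ⟨p + q - k, by omega, ?_⟩
    unfold wt
    have h2 : parC p q (p + q - k + 2 * k - 1) = parC p q (p + q - k) := by
      have h3 := FamCII_rev (p := p) (q := q) (a := p + q - k) (by omega)
      have h4 : 2 * (p + q) - 1 - (p + q - k) = p + q - k + 2 * k - 1 := by omega
      rwa [h4] at h3
    rw [if_pos h2, add_zero]
    have h3 : ∑ l ∈ Finset.Ico (p + q - k) (p + q - k + 2 * k - 1), FamCII_lk p q l =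
        2 * min (k - 1) (2 * q) := by
      have e1 := FamCII_suml hpq (k - 1) (by omega)
      have e2 := FamCII_sumr hpq (k - 1) (by omega)
      have e3 := FamCII_mid (p := p) (q := q) (by omega)
      have h5 : p + q - k + 2 * k - 1 = p + q + (k - 1) := by omega
      have h6 : p + q - k = p + q - 1 - (k - 1) := by omega
      rw [h5, ← Finset.sum_Ico_consecutive _ (show p + q - k ≤ p + q - 1 by omega)
        (show p + q - 1 ≤ p + q + (k - 1) by omega), h6, e1,
        Finset.sum_eq_sum_Ico_succ_bot (show p + q - 1 < p + q + (k - 1) by omega), e3,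
        show p + q - 1 + 1 = p + q by omega, e2]
      ring
    unfold FamCII_lk at h3
    rw [h3]
    unfold bC
    rw [if_neg h1]
    split_ifs with h4 <;> omega

private theorem FamCII_cnt (d j : ℕ) :
    ∑ a ∈ Finset.range (d + j), (if d ≤ a ∧ (a - d) % 2 = 0 then 1 else 0) = (j + 1) / 2 := by
  induction j with
  | zero =>
    rw [add_zero]
    refine (Finset.sum_eq_zero fun a ha => ?_).trans (by norm_num)
    rw [Finset.mem_range] at ha
    rw [if_neg (by omega)]
  | succ j ih =>
    rw [← add_assoc, Finset.sum_range_succ, ih]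
    split_ifs with h <;> omega

theorem FamCII_qn {p q : ℕ} (hpq : q ≤ p) :
    qn (fun i : Fin (2 * (p + q)) => parC p q i.val) = 2 * q := by
  unfold qn
  rw [Finset.card_filter, Fin.sum_univ_eq_sum_range
    (fun a => if parC p q a = true then 1 else 0) (2 * (p + q)), two_mul (p + q),
    Finset.sum_range_add]
  have h1 : ∑ x ∈ Finset.range (p + q), (if parC p q (p + q + x) = true then 1 else 0) =
      ∑ x ∈ Finset.range (p + q), (if parC p q x = true then 1 else 0) := by
    rw [← Finset.sum_range_reflect (fun x => if parC p q x = true then 1 else 0)]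
    refine Finset.sum_congr rfl fun x hx => ?_
    rw [Finset.mem_range] at hx
    have h3 := FamCII_rev (p := p) (q := q) (a := p + q + x) (by omega)
    have h4 : 2 * (p + q) - 1 - (p + q + x) = p + q - 1 - x := by omega
    rw [h4] at h3
    rw [h3]
  have h2 : ∑ x ∈ Finset.range (p + q), (if parC p q x = true then 1 else 0) = q := by
    have h3 := FamCII_cnt (p - q) (2 * q)
    have h4 : p - q + 2 * q = p + q := by omega
    rw [h4] at h3
    rw [show (2 * q + 1) / 2 = q by omega] at h3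
    refine Eq.trans (Finset.sum_congr rfl fun x hx => ?_) h3
    rw [Finset.mem_range] at hx
    rw [FamCII_lt hx]
    simp only [decide_eq_true_eq]
  rw [h1, h2]
  omega

/-- test elements in the chain form -/
theorem FamCII_tests {p q : ℕ} (hpq : q ≤ p) {r : Rz K (Fin (2 * (p + q))) θ}
    (hJ : r.IsJ (Jalt K (2 * (p + q))) (-1)) (hp : r.IsPar fun i => parC p q i.val) :
    r.Tests (fun i : Fin (p + q) => 2 * (i.val + 1)) (fun i : Fin (p + q) => bC q (i.val + 1)) := by
  have h1 : (-1 : K) ^ (2 * (p + q) + 1) = -1 := by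
    rw [pow_succ, pow_mul, neg_one_sq, one_pow, one_mul]
  refine chain_tests (N := 2 * (p + q)) (by rw [h1]; exact hJ) (parC p q) hp ?_ _ _ ?_ ?_ ?_
  · intro i j hi hj
    rw [FamCII_rev hi, FamCII_rev hj]
  · intro i
    exact even_two_mul _
  · intro i
    show 1 ≤ 2 * (i.val + 1)
    omega
  · intro i
    have hi := i.isLt
    exact FamCII_wt hpq (by omega) (by omega)

/-- the signs of the chain form -/
private def FamCII_sig (K : Type*) [Field K] (p q : ℕ) (i : Fin (2 * (p + q))) : K :=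
  if parC p q i.val = true then -1 else 1

omit [CharZero K] [IsAlgClosed K] in
private theorem FamCII_sig_sq (p q : ℕ) :
    Matrix.diagonal (FamCII_sig K p q) * Matrix.diagonal (FamCII_sig K p q) = 1 := by
  rw [Matrix.diagonal_mul_diagonal, ← Matrix.diagonal_one]
  congr 1
  funext i
  unfold FamCII_sig
  split_ifs <;> ring

omit [CharZero K] [IsAlgClosed K] in
private theorem FamCII_sig_ne (p q : ℕ) (i : Fin (2 * (p + q))) : FamCII_sig K p q i ≠ 0 := by
  unfold FamCII_sig
  split_ifs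
  · exact neg_ne_zero.2 one_ne_zero
  · exact one_ne_zero

omit [CharZero K] [IsAlgClosed K] in
private theorem FamCII_sig_Jalt (p q : ℕ) :
    Matrix.diagonal (FamCII_sig K p q) * Jalt K (2 * (p + q)) =
      Jalt K (2 * (p + q)) * Matrix.diagonal (FamCII_sig K p q) := by
  ext i j
  rw [Matrix.diagonal_mul, Matrix.mul_diagonal]
  unfold Jalt
  by_cases h : i.val + j.val + 1 = 2 * (p + q)
  · have h1 : 2 * (p + q) - 1 - i.val = j.val := by omega
    have h2 := FamCII_rev (p := p) (q := q) (a := i.val) i.isLt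
    rw [h1] at h2
    unfold FamCII_sig
    rw [h2, mul_comm]
  · rw [if_neg h, mul_zero, zero_mul]

private theorem FamCII_Jalt_t (K : Type*) [Field K] (p q : ℕ) :
    (Jalt K (2 * (p + q))).transpose = -Jalt K (2 * (p + q)) := by
  rw [Jalt_transpose, pow_succ, pow_mul, neg_one_sq, one_pow, one_mul, neg_smul, one_smul]

/-- the matrix of the coefficients of `X` -/
private theorem FamCII_odd (p q : ℕ) (A : Matrix (Fin (2 * (p + q))) (Fin (2 * (p + q))) K) :
    (fun i j => (Mp (fun i : Fin (2 * (p + q)) => parC p q i.val) A i j).coeff 1) =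
      (2 : K)⁻¹ • (A - Matrix.diagonal (FamCII_sig K p q) * A *
        Matrix.diagonal (FamCII_sig K p q)) := by
  ext i j
  rw [Matrix.smul_apply, Matrix.sub_apply, Matrix.mul_diagonal, Matrix.diagonal_mul, smul_eq_mul]
  unfold Mp od FamCII_sig
  have h2 : (2 : K) ≠ 0 := two_ne_zero
  by_cases h : parC p q i.val = parC p q j.val
  · rw [if_pos h, pow_zero, one_mul, coeff_C, if_neg one_ne_zero, h]
    split_ifs <;> ring
  · rw [if_neg h, pow_one, coeff_X_mul, coeff_C_zero]
    have h3 : (if parC p q i.val = true then (-1 : K) else 1) * A i j *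
        (if parC p q j.val = true then (-1 : K) else 1) = -A i j := by
      cases h4 : parC p q i.val <;> cases h5 : parC p q j.val
      · exact absurd (h4.trans h5.symm) h
      · simp
      · simp
      · exact absurd (h4.trans h5.symm) h
    rw [h3, sub_neg_eq_add, ← two_mul, ← mul_assoc, inv_mul_cancel₀ h2, one_mul]

/-- the degrees in the chain form -/
theorem FamCII_degree {p q : ℕ} (hpq : q ≤ p) {r : Rz K (Fin (2 * (p + q))) θ}
    (hJ : r.IsJ (Jalt K (2 * (p + q))) (-1)) (hp : r.IsPar fun i => parC p q i.val)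
    (i : Fin (p + q)) (a : g) :
    (phi K (decide (i.val + 1 ≤ 2 * q)) (2 * (i.val + 1)) (r.M a)).natDegree ≤
      bC q (i.val + 1) := by
  rw [hp.M_eq]
  have hdeg := Mp_natDegree (fun i : Fin (2 * (p + q)) => parC p q i.val) (r.ρ a)
  have hq := FamCII_qn hpq
  unfold bC
  by_cases h1 : i.val + 1 ≤ q
  · rw [if_pos h1]
    exact phi_natDegree_le hdeg _ _
  · rw [if_neg h1]
    by_cases h2 : i.val + 1 ≤ 2 * q
    · rw [if_pos h2, decide_eq_true h2]
      refine natDegree_le_sub_two (phi_natDegree_le hdeg _ _) ?_ ?_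
      · rw [phi_Mp_neg, pow_mul, neg_one_sq, one_pow, one_mul]
      · rw [phi_coeff_top hdeg]
        have hD : (gd (fun i j => (Mp (fun i : Fin (2 * (p + q)) => parC p q i.val)
            (r.ρ a) i j).coeff 1 : Matrix (Fin (2 * (p + q))) (Fin (2 * (p + q))) K)).natDegree ≤
              2 * (2 * q) := by
          rw [natDegree_le_iff_coeff_eq_zero]
          intro j hj
          have e1 := ek_coeff_top hdeg j
          have e2 := ek_Mp_natDegree_le (fun i : Fin (2 * (p + q)) => parC p q i.val) (r.ρ a) j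
          rw [hq] at e2
          rw [coeff_eq_zero_of_natDegree_lt (lt_of_le_of_lt e2 hj)] at e1
          exact e1.symm
        have hS := FamCII_sig_sq (K := K) p q
        have hSJ := FamCII_sig_Jalt (K := K) p q
        have hJt := FamCII_Jalt_t K p q
        have hSt : (Matrix.diagonal (FamCII_sig K p q)).transpose =
            Matrix.diagonal (FamCII_sig K p q) := Matrix.diagonal_transpose _
        refine phi_eq_zero_of_square
          (ω := Jalt K (2 * (p + q)) * Matrix.diagonal (FamCII_sig K p q)) ?_ ?_ ?_ hD (by omega)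
        · rw [Matrix.transpose_mul, hSt, hJt, Matrix.mul_neg, hSJ]
        · rw [Matrix.det_mul, Matrix.det_diagonal]
          exact mul_ne_zero (Jalt_det_ne_zero _)
            (Finset.prod_ne_zero_iff.2 fun i _ => FamCII_sig_ne p q i)
        · rw [FamCII_odd]
          have hA := hJ.skew a
          generalize Matrix.diagonal (FamCII_sig K p q) = S at hS hSJ hSt ⊢
          generalize Jalt K (2 * (p + q)) = J at hSJ hA ⊢
          generalize r.ρ a = A at hA ⊢
          rw [Matrix.transpose_smul, Matrix.transpose_sub, Matrix.transpose_mul,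
            Matrix.transpose_mul, hSt, Matrix.smul_mul, Matrix.mul_smul]
          congr 1
          have e1 : A.transpose * (J * S) = -(J * S * (S * A * S)) := by
            calc A.transpose * (J * S) = A.transpose * J * S := by rw [Matrix.mul_assoc]
              _ = -(J * (1 : Matrix _ _ K) * A * S) := by
                rw [hA, Matrix.mul_one, Matrix.neg_mul]
              _ = -(J * S * (S * A * S)) := by
                rw [← hS]
                simp only [Matrix.mul_assoc]
          have e2 : S * (A.transpose * S) * (J * S) = -(J * S * A) := by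
            calc S * (A.transpose * S) * (J * S) = S * (A.transpose * (S * J) * S) := by
                  simp only [Matrix.mul_assoc]
              _ = S * (A.transpose * J * (S * S)) := by
                  rw [hSJ]
                  simp only [Matrix.mul_assoc]
              _ = -(S * J * A) := by
                  rw [hS, Matrix.mul_one, hA, Matrix.mul_neg, Matrix.mul_assoc]
              _ = -(J * S * A) := by rw [hSJ]
          rw [Matrix.sub_mul, e1, e2, Matrix.mul_sub]
          abel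
    · rw [if_neg h2, decide_eq_false h2]
      unfold phi
      rw [if_neg (by decide)]
      refine (ek_Mp_natDegree_le _ _ _).trans ?_
      rw [hq]
      omega

/-- the standard skew form of the torus form -/
def JC (K : Type*) [Field K] {X : Type*} [DecidableEq X] : Matrix (X × Fin 2) (X × Fin 2) K :=
  fun a b => if a.1 = b.1 then
    (if a.2 = 0 ∧ b.2 = 1 then 1 else if a.2 = 1 ∧ b.2 = 0 then -1 else 0) else 0

/-! ### the torus form -/

/-- the exchange of the two lines of a pair -/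
private def FamCII_s {q l : ℕ} (b : (Fin q × Fin 2 ⊕ Fin l) × Fin 2) :
    (Fin q × Fin 2 ⊕ Fin l) × Fin 2 :=
  (Sum.map (fun x => (x.1, x.2 + 1)) id b.1, b.2)

/-- the flip of the second index -/
private def FamCII_fl {X : Type*} (b : X × Fin 2) : X × Fin 2 := (b.1, b.2 + 1)

/-- the sign -/
private def FamCII_sg (K : Type*) [Field K] (ε : Fin 2) : K := (-1) ^ ε.val

private theorem FamCII_two (ε : Fin 2) : ε + 1 + 1 = ε := by
  revert ε
  decide

private theorem FamCII_or (ε : Fin 2) : ε = 0 ∨ ε = 1 := by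
  revert ε
  decide

private theorem FamCII_sg0 (K : Type*) [Field K] : FamCII_sg K 0 = 1 := by
  unfold FamCII_sg
  rw [Fin.val_zero, pow_zero]

private theorem FamCII_sg1 (K : Type*) [Field K] : FamCII_sg K 1 = -1 := by
  unfold FamCII_sg
  rw [Fin.val_one, pow_one]

private theorem FamCII_sg_add (K : Type*) [Field K] (ε : Fin 2) :
    FamCII_sg K (ε + 1) = -FamCII_sg K ε := by
  rcases FamCII_or ε with rfl | rfl
  · rw [zero_add, FamCII_sg0, FamCII_sg1]
  · have h : (1 : Fin 2) + 1 = 0 := by decide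
    rw [h, FamCII_sg0, FamCII_sg1, neg_neg]

private theorem FamCII_sg_sq (K : Type*) [Field K] (ε : Fin 2) :
    FamCII_sg K ε * FamCII_sg K ε = 1 := by
  rcases FamCII_or ε with rfl | rfl
  · rw [FamCII_sg0, one_mul]
  · rw [FamCII_sg1, neg_mul_neg, one_mul]

private theorem FamCII_sg_ne (K : Type*) [Field K] (ε : Fin 2) : FamCII_sg K ε ≠ 0 := by
  intro h
  have h1 := FamCII_sg_sq K ε
  rw [h, zero_mul] at h1
  exact zero_ne_one h1

private theorem FamCII_ss {q l : ℕ} (b : (Fin q × Fin 2 ⊕ Fin l) × Fin 2) :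
    FamCII_s (FamCII_s b) = b := by
  obtain ⟨x | j, ε⟩ := b
  · obtain ⟨i, t⟩ := x
    show ((Sum.inl (i, t + 1 + 1), ε) : (Fin q × Fin 2 ⊕ Fin l) × Fin 2) = _
    rw [FamCII_two]
  · rfl

private theorem FamCII_flfl {X : Type*} (b : X × Fin 2) : FamCII_fl (FamCII_fl b) = b := by
  obtain ⟨x, ε⟩ := b
  show (x, ε + 1 + 1) = _
  rw [FamCII_two]

private theorem FamCII_sfl {q l : ℕ} (b : (Fin q × Fin 2 ⊕ Fin l) × Fin 2) :
    FamCII_s (FamCII_fl b) = FamCII_fl (FamCII_s b) := rfl

private theorem FamCII_JC (K : Type*) [Field K] {X : Type*} [DecidableEq X] (a b : X × Fin 2) :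
    JC K a b = if b = FamCII_fl a then FamCII_sg K a.2 else 0 := by
  obtain ⟨x, ε⟩ := a
  obtain ⟨y, δ⟩ := b
  unfold JC FamCII_fl
  by_cases h : x = y
  · subst h
    rcases FamCII_or ε with rfl | rfl <;> rcases FamCII_or δ with rfl | rfl <;>
      simp [FamCII_sg0, FamCII_sg1]
  · rw [if_neg h, if_neg fun h1 => h (congrArg Prod.fst h1).symm]

private theorem FamCII_mulJ {K : Type*} [Field K] {X : Type*} [Fintype X] [DecidableEq X]
    (M : Matrix (X × Fin 2) (X × Fin 2) K) (a b : X × Fin 2) :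
    (M * JC K (X := X)) a b = M a (FamCII_fl b) * FamCII_sg K (FamCII_fl b).2 := by
  rw [Matrix.mul_apply, Finset.sum_eq_single (FamCII_fl b)]
  · rw [FamCII_JC, if_pos (FamCII_flfl b).symm]
  · intro c _ hc
    rw [FamCII_JC, if_neg (fun h => hc (by rw [h, FamCII_flfl])), mul_zero]
  · intro h
    exact absurd (Finset.mem_univ _) h

private theorem FamCII_Jmul {K : Type*} [Field K] {X : Type*} [Fintype X] [DecidableEq X]
    (M : Matrix (X × Fin 2) (X × Fin 2) K) (a b : X × Fin 2) :
    (JC K (X := X) * M) a b = FamCII_sg K a.2 * M (FamCII_fl a) b := by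
  rw [Matrix.mul_apply, Finset.sum_eq_single (FamCII_fl a)]
  · rw [FamCII_JC, if_pos rfl]
  · intro c _ hc
    rw [FamCII_JC, if_neg hc, zero_mul]
  · intro h
    exact absurd (Finset.mem_univ _) h

/-- the permutation matrix -/
private def FamCII_P (K : Type*) [Field K] (q l : ℕ) :
    Matrix ((Fin q × Fin 2 ⊕ Fin l) × Fin 2) ((Fin q × Fin 2 ⊕ Fin l) × Fin 2) K :=
  fun a b => if a = FamCII_s b then 1 else 0

private theorem FamCII_mulP {K : Type*} [Field K] {q l : ℕ}
    (M : Matrix ((Fin q × Fin 2 ⊕ Fin l) × Fin 2) ((Fin q × Fin 2 ⊕ Fin l) × Fin 2) K)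
    (a b : (Fin q × Fin 2 ⊕ Fin l) × Fin 2) :
    (M * FamCII_P K q l) a b = M a (FamCII_s b) := by
  rw [Matrix.mul_apply, Finset.sum_eq_single (FamCII_s b)]
  · unfold FamCII_P
    rw [if_pos rfl, mul_one]
  · intro c _ hc
    unfold FamCII_P
    rw [if_neg hc, mul_zero]
  · intro h
    exact absurd (Finset.mem_univ _) h

private theorem FamCII_Pmul {K : Type*} [Field K] {q l : ℕ}
    (M : Matrix ((Fin q × Fin 2 ⊕ Fin l) × Fin 2) ((Fin q × Fin 2 ⊕ Fin l) × Fin 2) K)
    (a b : (Fin q × Fin 2 ⊕ Fin l) × Fin 2) :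
    (FamCII_P K q l * M) a b = M (FamCII_s a) b := by
  rw [Matrix.mul_apply, Finset.sum_eq_single (FamCII_s a)]
  · unfold FamCII_P
    rw [if_pos (FamCII_ss a).symm, one_mul]
  · intro c _ hc
    unfold FamCII_P
    rw [if_neg (fun h => hc (by rw [h, FamCII_ss])), zero_mul]
  · intro h
    exact absurd (Finset.mem_univ _) h

private theorem FamCII_JC_t (K : Type*) [Field K] {X : Type*} [DecidableEq X] :
    (JC K (X := X)).transpose = (-1 : K) • JC K := by
  ext ⟨x, ε⟩ ⟨y, δ⟩
  rw [Matrix.transpose_apply, Matrix.smul_apply]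
  unfold JC
  by_cases h : x = y
  · subst h
    rcases FamCII_or ε with rfl | rfl <;> rcases FamCII_or δ with rfl | rfl <;> simp
  · simp only [if_neg h, if_neg (Ne.symm h), smul_zero]

private theorem FamCII_JC_det (K : Type*) [Field K] {X : Type*} [Fintype X] [DecidableEq X] :
    (JC K (X := X)).det ≠ 0 := by
  apply Matrix.det_ne_zero_of_right_inverse (B := -JC K)
  ext a b
  rw [FamCII_Jmul, Matrix.neg_apply, FamCII_JC, FamCII_flfl]
  by_cases h : a = b
  · subst h
    rw [if_pos rfl, Matrix.one_apply_eq]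
    show FamCII_sg K a.2 * -FamCII_sg K (a.2 + 1) = 1
    rw [FamCII_sg_add, neg_neg, FamCII_sg_sq]
  · rw [if_neg (Ne.symm h), Matrix.one_apply_ne h, neg_zero, mul_zero]

private theorem FamCII_PP (K : Type*) [Field K] (q l : ℕ) :
    FamCII_P K q l * FamCII_P K q l = 1 := by
  ext a b
  rw [FamCII_Pmul]
  unfold FamCII_P
  by_cases h : a = b
  · subst h
    rw [if_pos rfl, Matrix.one_apply_eq]
  · rw [Matrix.one_apply_ne h, if_neg]
    intro h1
    apply h
    rw [← FamCII_ss a, h1, FamCII_ss]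

private theorem FamCII_PJP (K : Type*) [Field K] (q l : ℕ) :
    (FamCII_P K q l).transpose * JC K * FamCII_P K q l = JC K := by
  have hP : (FamCII_P K q l).transpose = FamCII_P K q l := by
    ext a b
    rw [Matrix.transpose_apply]
    unfold FamCII_P
    by_cases h : a = FamCII_s b
    · rw [if_pos h, if_pos (by rw [h, FamCII_ss])]
    · rw [if_neg h, if_neg (fun h1 => h (by rw [h1, FamCII_ss]))]
  rw [hP]
  ext a b
  rw [FamCII_mulP, FamCII_Pmul, FamCII_JC, FamCII_JC]
  by_cases h : b = FamCII_fl a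
  · rw [if_pos h, if_pos (by rw [h, FamCII_sfl])]
    rfl
  · rw [if_neg h, if_neg]
    intro h1
    apply h
    rw [← FamCII_ss b, h1, ← FamCII_sfl, FamCII_ss]

private theorem FamCII_P_trace (K : Type*) [Field K] (q l : ℕ) :
    (FamCII_P K q l).trace = 2 * (l : K) := by
  unfold Matrix.trace
  rw [Fintype.sum_prod_type, Fintype.sum_sum_type]
  have h1 : ∀ (x : Fin q × Fin 2) (ε : Fin 2),
      (FamCII_P K q l).diag ((Sum.inl x, ε) : (Fin q × Fin 2 ⊕ Fin l) × Fin 2) = 0 := by
    intro x ε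
    rw [Matrix.diag_apply]
    unfold FamCII_P
    rw [if_neg]
    intro h
    have h2 := congrArg Prod.fst h
    have h3 : x = (x.1, x.2 + 1) := Sum.inl_injective h2
    have h4 : x.2 = x.2 + 1 := congrArg Prod.snd h3
    rcases FamCII_or x.2 with h5 | h5
    · rw [h5] at h4
      exact absurd h4 (by decide)
    · rw [h5] at h4
      exact absurd h4 (by decide)
  have h2 : ∀ (j : Fin l) (ε : Fin 2),
      (FamCII_P K q l).diag ((Sum.inr j, ε) : (Fin q × Fin 2 ⊕ Fin l) × Fin 2) = 1 := by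
    intro j ε
    rw [Matrix.diag_apply]
    unfold FamCII_P
    exact if_pos rfl
  rw [Finset.sum_eq_zero (fun x _ => Finset.sum_eq_zero fun ε _ => h1 x ε), zero_add,
    Finset.sum_congr rfl (fun j _ => Finset.sum_congr rfl fun ε _ => h2 j ε)]
  simp
  ring

/-- the eigenvalues of the odd element -/
private def FamCII_lam (K : Type*) [Field K] (q l : ℕ)
    (a : (Fin q × Fin 2 ⊕ Fin l) × Fin 2) : K :=
  Sum.elim (fun x : Fin q × Fin 2 => ((x.1.val : K) + 1) * FamCII_sg K x.2)
    (fun _ : Fin l => 0) a.1 * FamCII_sg K a.2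

/-- the eigenvalues of the even element -/
private def FamCII_mu (K : Type*) [Field K] (q l : ℕ)
    (a : (Fin q × Fin 2 ⊕ Fin l) × Fin 2) : K :=
  Sum.elim (fun _ : Fin q × Fin 2 => 1) (fun j : Fin l => (j.val : K) + 1) a.1 *
    FamCII_sg K a.2

private theorem FamCII_lam_fl (q l : ℕ) (a : (Fin q × Fin 2 ⊕ Fin l) × Fin 2) :
    FamCII_lam K q l (FamCII_fl a) = -FamCII_lam K q l a := by
  unfold FamCII_lam FamCII_fl
  simp only
  rw [FamCII_sg_add, mul_neg]

private theorem FamCII_mu_fl (q l : ℕ) (a : (Fin q × Fin 2 ⊕ Fin l) × Fin 2) :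
    FamCII_mu K q l (FamCII_fl a) = -FamCII_mu K q l a := by
  unfold FamCII_mu FamCII_fl
  simp only
  rw [FamCII_sg_add, mul_neg]

private theorem FamCII_lam_s (q l : ℕ) (a : (Fin q × Fin 2 ⊕ Fin l) × Fin 2) :
    FamCII_lam K q l (FamCII_s a) = -FamCII_lam K q l a := by
  obtain ⟨x | j, ε⟩ := a
  · show ((x.1.val : K) + 1) * FamCII_sg K (x.2 + 1) * FamCII_sg K ε =
      -(((x.1.val : K) + 1) * FamCII_sg K x.2 * FamCII_sg K ε)
    rw [FamCII_sg_add]
    ring
  · show (0 : K) * FamCII_sg K ε = -(0 * FamCII_sg K ε)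
    rw [zero_mul, neg_zero]

private theorem FamCII_mu_s (q l : ℕ) (a : (Fin q × Fin 2 ⊕ Fin l) × Fin 2) :
    FamCII_mu K q l (FamCII_s a) = FamCII_mu K q l a := by
  obtain ⟨x | j, ε⟩ := a <;> rfl

private theorem FamCII_inj (a b : ℕ) (ε δ : Fin 2)
    (h : ((a : K) + 1) * FamCII_sg K ε = ((b : K) + 1) * FamCII_sg K δ) : a = b ∧ ε = δ := by
  have h1 : ∀ a b : ℕ, ((a : K) + 1) = ((b : K) + 1) → a = b := fun a b h => by
    have h0 := add_right_cancel h
    exact_mod_cast h0
  have h2 : ∀ a b : ℕ, ((a : K) + 1) ≠ -((b : K) + 1) := fun a b h => by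
    have h3 : ((a + b + 2 : ℕ) : K) = 0 := by
      push_cast
      linear_combination h
    exact absurd (Nat.cast_eq_zero.1 h3) (by omega)
  rcases FamCII_or ε with rfl | rfl <;> rcases FamCII_or δ with rfl | rfl
  · rw [FamCII_sg0, mul_one, mul_one] at h
    exact ⟨h1 a b h, rfl⟩
  · rw [FamCII_sg0, FamCII_sg1, mul_one, mul_neg_one] at h
    exact absurd h (h2 a b)
  · rw [FamCII_sg0, FamCII_sg1, mul_one, mul_neg_one] at h
    exact absurd h.symm (h2 b a)
  · rw [FamCII_sg1, mul_neg_one, mul_neg_one, neg_inj] at h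
    exact ⟨h1 a b h, rfl⟩

private theorem FamCII_sg_mul (K : Type*) [Field K] (ε δ : Fin 2) :
    FamCII_sg K ε * FamCII_sg K δ = FamCII_sg K (ε + δ) := by
  rcases FamCII_or ε with rfl | rfl
  · rw [FamCII_sg0, one_mul, zero_add]
  · rw [FamCII_sg1, add_comm, FamCII_sg_add, neg_one_mul]

private theorem FamCII_lam_eq {q l : ℕ} {a b : (Fin q × Fin 2 ⊕ Fin l) × Fin 2} (hab : a ≠ b)
    (h : FamCII_lam K q l a = FamCII_lam K q l b) :
    b = FamCII_s (FamCII_fl a) ∨
      (∃ i j : Fin l, ∃ ε δ : Fin 2, a = (Sum.inr i, ε) ∧ b = (Sum.inr j, δ)) := by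
  obtain ⟨x | i, ε⟩ := a <;> obtain ⟨y | j, δ⟩ := b
  · left
    have h1 : ((x.1.val : K) + 1) * FamCII_sg K x.2 * FamCII_sg K ε =
      ((y.1.val : K) + 1) * FamCII_sg K y.2 * FamCII_sg K δ := h
    rw [mul_assoc, mul_assoc, FamCII_sg_mul, FamCII_sg_mul] at h1
    obtain ⟨h2, h3⟩ := FamCII_inj _ _ _ _ h1
    obtain ⟨x, t⟩ := x
    obtain ⟨y, u⟩ := y
    obtain rfl : x = y := Fin.ext h2
    have h4 : ∀ t u ε δ : Fin 2, t + ε = u + δ → (t = u ∧ ε = δ) ∨ (u = t + 1 ∧ δ = ε + 1) := by
      decide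
    rcases h4 t u ε δ h3 with ⟨rfl, rfl⟩ | ⟨rfl, rfl⟩
    · exact absurd rfl hab
    · rfl
  · exfalso
    have h1 : ((x.1.val : K) + 1) * FamCII_sg K x.2 * FamCII_sg K ε = 0 * FamCII_sg K δ := h
    rw [zero_mul] at h1
    have h2 : ((x.1.val : K) + 1) ≠ 0 := by exact_mod_cast Nat.succ_ne_zero x.1.val
    exact mul_ne_zero (mul_ne_zero h2 (FamCII_sg_ne K _)) (FamCII_sg_ne K _) h1
  · exfalso
    have h1 : 0 * FamCII_sg K ε = ((y.1.val : K) + 1) * FamCII_sg K y.2 * FamCII_sg K δ := h
    rw [zero_mul] at h1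
    have h2 : ((y.1.val : K) + 1) ≠ 0 := by exact_mod_cast Nat.succ_ne_zero y.1.val
    exact mul_ne_zero (mul_ne_zero h2 (FamCII_sg_ne K _)) (FamCII_sg_ne K _) h1.symm
  · right
    exact ⟨i, j, ε, δ, rfl, rfl⟩

/-- the point in the torus form; `X = Fin q × Fin 2 ⊕ Fin (p - q)`, and `s` exchanges `(i, 0)` and
`(i, 1)` -/
theorem FamCII_index {q l : ℕ} {r : Rz K ((Fin q × Fin 2 ⊕ Fin l) × Fin 2) θ}
    (hJ : r.IsJ (JC K) (-1))
    (hS : r.IsS (fun a b => if a = (Sum.map (fun x => (x.1, x.2 + 1)) id b.1, b.2) then 1 else 0))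
    (he : IsContraction θ e) :
    ∃ x0 : k →ₗ[K] K, Module.finrank K (stab x0) ≤ 2 * q + l := by
  have hS' : r.IsS (FamCII_P K q l) := hS
  have hθ : ∀ x a b, r.ρ (θ.hom x) a b = r.ρ x (FamCII_s a) (FamCII_s b) := by
    intro x a b
    have h1 := congrFun (congrFun (hS' x) a) (FamCII_s b)
    rwa [FamCII_mulP, FamCII_Pmul, FamCII_ss] at h1
  have hsk : ∀ x a b, r.ρ x (FamCII_fl b) (FamCII_fl a) * FamCII_sg K b.2 =
      FamCII_sg K a.2 * r.ρ x a b * -1 := by
    intro x a b
    have h1 := congrFun (congrFun (hJ.skew x) (FamCII_fl a)) b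
    rw [FamCII_mulJ, Matrix.neg_apply, FamCII_Jmul, Matrix.transpose_apply, FamCII_flfl] at h1
    have h2 : FamCII_sg K (FamCII_fl b).2 = -FamCII_sg K b.2 := FamCII_sg_add K b.2
    have h3 : FamCII_sg K (FamCII_fl a).2 = -FamCII_sg K a.2 := FamCII_sg_add K a.2
    rw [h2, h3] at h1
    linear_combination -h1
  -- diagonal matrices in the Lie algebra
  have hdg : ∀ d : (Fin q × Fin 2 ⊕ Fin l) × Fin 2 → K, (∀ a, d (FamCII_fl a) = -d a) →
      ∃ x, r.ρ x = Matrix.diagonal d := by
    intro d hd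
    refine hJ.surj ?_
    rw [Matrix.diagonal_transpose]
    ext a b
    rw [Matrix.neg_apply, Matrix.diagonal_mul, Matrix.mul_diagonal, FamCII_JC]
    by_cases h : b = FamCII_fl a
    · rw [if_pos h, h, hd]
      ring
    · rw [if_neg h, mul_zero, zero_mul, neg_zero]
  obtain ⟨a1, ha1⟩ := hdg (FamCII_lam K q l) (FamCII_lam_fl q l)
  obtain ⟨a0, ha0⟩ := hdg (FamCII_mu K q l) (FamCII_mu_fl q l)
  have hsinj : ∀ a b : (Fin q × Fin 2 ⊕ Fin l) × Fin 2, a ≠ b → FamCII_s a ≠ FamCII_s b :=
    fun a b hab h => hab (by rw [← FamCII_ss a, h, FamCII_ss])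
  have hθ1 : θ.hom a1 = -a1 := by
    apply r.inj
    rw [map_neg]
    ext a b
    rw [hθ, ha1, Matrix.neg_apply]
    by_cases h : a = b
    · subst h
      rw [Matrix.diagonal_apply_eq, Matrix.diagonal_apply_eq, FamCII_lam_s]
    · rw [Matrix.diagonal_apply_ne _ h, Matrix.diagonal_apply_ne _ (hsinj a b h), neg_zero]
  have hθ0 : θ.hom a0 = a0 := by
    apply r.inj
    ext a b
    rw [hθ, ha0]
    by_cases h : a = b
    · subst h
      rw [Matrix.diagonal_apply_eq, Matrix.diagonal_apply_eq, FamCII_mu_s]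
    · rw [Matrix.diagonal_apply_ne _ h, Matrix.diagonal_apply_ne _ (hsinj a b h)]
  have hc : Fintype.card (Fin q × Fin 2 ⊕ Fin l) = 2 * q + l := by
    rw [Fintype.card_sum, Fintype.card_prod, Fintype.card_fin, Fintype.card_fin,
      Fintype.card_fin, mul_comm]
  let eqv : (Fin q × Fin 2 ⊕ Fin l) ≃ Fin (2 * q + l) := Fintype.equivFinOfCardEq hc
  refine ⟨r.pnt e (a0 + a1), r.finrank_stab_le he hθ0 hθ1 ha1 ha0 ?_ ?_
    (LinearMap.funLeft K K fun i : Fin (2 * q + l) => ((eqv.symm i, (0 : Fin 2)) :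
      (Fin q × Fin 2 ⊕ Fin l) × Fin 2)) ?_⟩
  · intro x hx i j hij hl
    have hodd : ∀ a b, r.ρ x (FamCII_s a) (FamCII_s b) = -r.ρ x a b := by
      intro a b
      rw [← hθ, hx, map_neg, Matrix.neg_apply]
    rcases FamCII_lam_eq hij hl with h | ⟨i', j', ε, δ, h1, h2⟩
    · have e1 := hodd i j
      have e2 := hsk x i j
      rw [h, FamCII_ss] at e1
      rw [h] at e2
      have e3 : FamCII_fl (FamCII_s (FamCII_fl i)) = FamCII_s i := by
        rw [← FamCII_sfl, FamCII_flfl]
      have e4 : (FamCII_s (FamCII_fl i)).2 = i.2 + 1 := rfl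
      rw [e3, e4, FamCII_sg_add, e1] at e2
      rw [h]
      have e5 : (2 * FamCII_sg K i.2) * r.ρ x i (FamCII_s (FamCII_fl i)) = 0 := by
        linear_combination e2
      exact (mul_eq_zero.1 e5).resolve_left (mul_ne_zero two_ne_zero (FamCII_sg_ne K _))
    · have e1 := hodd i j
      rw [h1, h2] at e1
      have e2 : r.ρ x (Sum.inr i', ε) (Sum.inr j', δ) = -r.ρ x (Sum.inr i', ε) (Sum.inr j', δ) :=
        e1
      rw [h1, h2]
      exact self_eq_neg.1 e2
  · intro i j hij hl hm
    rcases FamCII_lam_eq hij hl with h | ⟨i', j', ε, δ, h1, h2⟩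
    · rw [h, FamCII_mu_s, FamCII_mu_fl] at hm
      have h3 : FamCII_mu K q l i = 0 := self_eq_neg.1 hm
      obtain ⟨x | j', ε⟩ := i
      · have h4 : (1 : K) * FamCII_sg K ε = 0 := h3
        rw [one_mul] at h4
        exact FamCII_sg_ne K _ h4
      · have h4 : ((j'.val : K) + 1) * FamCII_sg K ε = 0 := h3
        have h5 : ((j'.val : K) + 1) ≠ 0 := by exact_mod_cast Nat.succ_ne_zero j'.val
        exact mul_ne_zero h5 (FamCII_sg_ne K _) h4
    · rw [h1, h2] at hm
      have h3 : ((i'.val : K) + 1) * FamCII_sg K ε = ((j'.val : K) + 1) * FamCII_sg K δ := hm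
      obtain ⟨h4, h5⟩ := FamCII_inj _ _ _ _ h3
      apply hij
      rw [h1, h2, Fin.ext h4, h5]
  · intro x d hd hf
    have h0 : ∀ y, d (y, 0) = 0 := by
      intro y
      have h1 := congrFun hf (eqv y)
      have h2 : d (eqv.symm (eqv y), 0) = 0 := h1
      rwa [Equiv.symm_apply_apply] at h2
    funext a
    obtain ⟨y, ε⟩ := a
    rcases FamCII_or ε with rfl | rfl
    · exact h0 y
    · have h1 := hsk x (y, 0) (y, 0)
      rw [hd, Matrix.diagonal_apply_eq, Matrix.diagonal_apply_eq, h0] at h1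
      have h2 : d (y, 1) * FamCII_sg K 0 = 0 := by
        refine Eq.trans h1 ?_
        rw [mul_zero, zero_mul]
      exact (mul_eq_zero.1 h2).resolve_right (FamCII_sg_ne K 0)

private theorem FamCII_sig_trace {p q : ℕ} (hpq : q ≤ p) :
    (Matrix.diagonal (FamCII_sig K p q)).trace = 2 * (p : K) - 2 * (q : K) := by
  rw [Matrix.trace_diagonal]
  have h1 : ∀ i : Fin (2 * (p + q)), FamCII_sig K p q i =
      1 - 2 * (if parC p q i.val = true then 1 else 0) := by
    intro i
    unfold FamCII_sig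
    split_ifs
    · ring
    · ring
  have h2 := FamCII_qn hpq
  unfold qn at h2
  simp only [h1]
  rw [Finset.sum_sub_distrib, ← Finset.mul_sum, Finset.sum_boole, h2, Finset.sum_const,
    Finset.card_univ, Fintype.card_fin, nsmul_eq_mul]
  push_cast
  ring

private theorem FamCII_main {n : Type*} [Fintype n] [DecidableEq n] {r : Rz K n θ}
    {J S : Matrix n n K}
    (hJ : r.IsJ J (-1)) (hS : r.IsS S) (hSS : S * S = 1) (hSJ : S.transpose * J * S = J)
    (he : IsContraction θ e)
    (hyp : ∀ (N : ℕ) (r' : Rz K (Fin N) θ) (par : Fin N → Bool), r'.IsJ (Jalt K N) (-1) →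
      r'.IsPar par → ∃ C : (g →ₗ[K] K) → Subalgebra K (Ue K g),
        (∀ ξ, ∀ a ∈ C ξ, ∀ b ∈ C ξ, a * b = b * a) ∧ (∀ j, HasQ C j (ek j r'.XM)) ∧
          ∀ j, LimQ θ e C j (2 * qn par) (ek j r'.XM)) {p q : ℕ} (hpq : q ≤ p)
    (hc : 2 * p + 2 * q = Fintype.card n) (ht : S.trace = 2 * (p : K) - 2 * (q : K)) :
    Quant K k := by
  have hSS' := FamCII_sig_sq (K := K) p q
  have hSJ1 := FamCII_sig_Jalt (K := K) p q
  -- the chain form
  have hSJ' : (Matrix.diagonal (FamCII_sig K p q)).transpose * Jalt K (2 * (p + q)) *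
      Matrix.diagonal (FamCII_sig K p q) = Jalt K (2 * (p + q)) := by
    rw [Matrix.diagonal_transpose, hSJ1, Matrix.mul_assoc, hSS', Matrix.mul_one]
  obtain ⟨P, Q, hPQ, hQP, hPJ, hPS⟩ := exists_equiv_pair (m := Fin (2 * (p + q))) (κ := (-1 : K))
    (J' := Jalt K (2 * (p + q))) (S' := Matrix.diagonal (FamCII_sig K p q))
    (by rw [Fintype.card_fin, ← hc, mul_add]) (Or.inr rfl) hJ.symm
    (by rw [FamCII_Jalt_t, neg_smul, one_smul]) hJ.det (Jalt_det_ne_zero _) hSS hSS' hSJ hSJ'
    (by rw [ht, FamCII_sig_trace hpq])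
  have hJ1 : (r.conj P Q hPQ hQP).IsJ (Jalt K (2 * (p + q))) (-1) := hJ.conj hPQ hQP hPJ
  have hS1 : (r.conj P Q hPQ hQP).IsS (Matrix.diagonal (FamCII_sig K p q)) :=
    hS.conj hPQ hQP hPS
  have hP1 : (r.conj P Q hPQ hQP).IsPar (fun i : Fin (2 * (p + q)) => parC p q i.val) := by
    refine hS1.isPar (FamCII_sig_ne p q) fun i j => ?_
    unfold FamCII_sig od
    cases h1 : parC p q i.val <;> cases h2 : parC p q j.val <;> simp [h1, h2]
  obtain ⟨C, hC, hQ, hL⟩ := hyp _ _ _ hJ1 hP1
  -- the torus form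
  obtain ⟨P', Q', hPQ', hQP', hPJ', hPS'⟩ := exists_equiv_pair
    (m := (Fin q × Fin 2 ⊕ Fin (p - q)) × Fin 2) (κ := (-1 : K))
    (J' := JC K) (S' := FamCII_P K q (p - q))
    (by
      rw [Fintype.card_prod, Fintype.card_sum, Fintype.card_prod, Fintype.card_fin,
        Fintype.card_fin, Fintype.card_fin, ← hc]
      omega) (Or.inr rfl) hJ.symm
    (FamCII_JC_t K) hJ.det (FamCII_JC_det K) hSS (FamCII_PP K q (p - q)) hSJ
    (FamCII_PJP K q (p - q))
    (by rw [ht, FamCII_P_trace, Nat.cast_sub hpq, mul_sub])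
  have hJ2 : (r.conj P' Q' hPQ' hQP').IsJ (JC K) (-1) := hJ.conj hPQ' hQP' hPJ'
  have hS2 : (r.conj P' Q' hPQ' hQP').IsS (FamCII_P K q (p - q)) := hS.conj hPQ' hQP' hPS'
  obtain ⟨x0, hx0⟩ := FamCII_index hJ2 hS2 he
  have hx0' : Module.finrank K (stab x0) ≤ p + q := hx0.trans (by omega)
  refine (r.conj P Q hPQ hQP).quant_of he (fun i : Fin (p + q) => decide (i.val + 1 ≤ 2 * q))
    (fun i => 2 * (i.val + 1)) (fun i => bC q (i.val + 1)) ?_ ?_ (FamCII_degree hpq hJ1 hP1)
    (FamCII_tests hpq hJ1 hP1) x0 hx0' ?_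
  · intro i j hij
    have h1 : i.val < j.val := hij
    show 2 * (i.val + 1) < 2 * (j.val + 1)
    omega
  · intro i
    show 1 ≤ 2 * (i.val + 1)
    omega
  · refine comm_of_limQ θ (r.conj P Q hPQ hQP).lie (r.conj P Q hPQ hQP).inj he hC
      (fun i : Fin (p + q) => (r.conj P Q hPQ hQP).H (decide (i.val + 1 ≤ 2 * q))
        (2 * (i.val + 1))) (fun i => 2 * (i.val + 1)) (fun i => bC q (i.val + 1)) ?_
    intro i
    by_cases h : i.val + 1 ≤ 2 * q
    · have hdeg := FamCII_degree hpq hJ1 hP1 i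
      show LimQ θ e C (2 * (i.val + 1)) (bC q (i.val + 1))
        ((r.conj P Q hPQ hQP).H (decide (i.val + 1 ≤ 2 * q)) (2 * (i.val + 1)))
      refine limQ_of_hasQ θ e ?_ ((r.conj P Q hPQ hQP).degree_le _ _ _ hdeg) ?_
      · rw [decide_eq_true h]
        unfold Rz.H phi
        rw [if_pos rfl]
        exact HasQ.sqr hC hQ _
      · unfold bC
        split_ifs <;> omega
    · show LimQ θ e C (2 * (i.val + 1)) (bC q (i.val + 1))
        ((r.conj P Q hPQ hQP).H (decide (i.val + 1 ≤ 2 * q)) (2 * (i.val + 1)))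
      have h1 := hL (2 * (i.val + 1))
      rw [FamCII_qn hpq] at h1
      have h2 : bC q (i.val + 1) = 2 * (2 * q) := by
        unfold bC
        rw [if_neg (by omega), if_neg h]
        ring
      rw [decide_eq_false h, h2]
      exact h1

/-- type CII.  `hyp`: commuting quantised families and limits for the chain form -/
theorem quant_CII {n : Type*} [Fintype n] [DecidableEq n] {r : Rz K n θ} {J S : Matrix n n K}
    (hJ : r.IsJ J (-1)) (hS : r.IsS S) (hSS : S * S = 1) (hSJ : S.transpose * J * S = J)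
    (he : IsContraction θ e)
    (hyp : ∀ (N : ℕ) (r' : Rz K (Fin N) θ) (par : Fin N → Bool), r'.IsJ (Jalt K N) (-1) →
      r'.IsPar par → ∃ C : (g →ₗ[K] K) → Subalgebra K (Ue K g),
        (∀ ξ, ∀ a ∈ C ξ, ∀ b ∈ C ξ, a * b = b * a) ∧ (∀ j, HasQ C j (ek j r'.XM)) ∧
          ∀ j, LimQ θ e C j (2 * qn par) (ek j r'.XM)) :
    Quant K k := by
  obtain ⟨p, q, hpq, ht⟩ := exists_trace_even
    (by rw [hJ.symm, neg_smul, one_smul] : J.transpose = -J) hJ.det hSS hSJ
  rcases le_total q p with h | h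
  · exact FamCII_main hJ hS hSS hSJ he hyp h hpq ht
  · refine FamCII_main (S := -S) hJ (fun x => ?_) ?_ ?_ he hyp h (by omega) ?_
    · rw [Matrix.mul_neg, Matrix.neg_mul, hS x]
    · rw [Matrix.mul_neg, Matrix.neg_mul, neg_neg, hSS]
    · rw [Matrix.transpose_neg, Matrix.neg_mul, Matrix.neg_mul, Matrix.mul_neg, neg_neg, hSJ]
    · rw [Matrix.trace_neg, ht]
      ring

end Pool.Agent.helper49.QA
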