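import Mathlib
import Pool.Agent.helper49.QA.Chain
import Pool.Agent.helper49.QA.PfGen

/-!
# Type DIII: `so_{2n}`, `n ≥ 1`, with `x ↦ S x S⁻¹`, `S ^ 2 = -1`

Generators: the square root kind (`phi true`), degrees `m = 2, 4, ..., 2 (n - 1)`, exponents
`bF n m = m` for `m ≤ n` and `m - 2` for `m > n`; and `G`: for odd `n` the
Pfaffian with the exponent `n - 1`, for even `n` the element `Pf - κ Q_n` with the exponent `n - 2`, where
`Q_n = H true n` and `κ ≠ 0` is such that the coefficients of `X ^ n` cancel.

Chain form: index type `Fin (2 n)`, `J = JF n`: antidiagonal with the signs `(-1)^min(i, i')`,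
`i' = 2 n - 1 - i`; skew means `A i j = -(j_i j_j) A j' i'`, `j_i = (-1)^min(i, i')`.
`S = diag (i, -i, i, -i, ...)`, so the parity of the index `i` is the parity of the number `i`.
Positions: `posF n i = i` for `i < n`, `i - 1` for `i ≥ n` (the middle position `n - 1` has the two
indices `n - 1`, `n`); `NupF i j = 1` iff `pos i + 1 = pos j`.  The links `(n-2, n)` and `(n-1, n+1)` are
even, all the other links are odd.

Test elements for the degree `m` (even, `m < 2 n`), `t ≠ 0`: `Y = E_{c,0} + E_{2n-1,c'}` with
`c = m - 1` for `m ≤ n` and `c = m` for `m > n` (position `m - 1`, parity odd, even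
respectively).  `tr (M^j Mp Y) = 0` for `j < m - 1` (`band_zero` with `posF`), and for `j = m - 1`:
for `m ≤ n` the only paths from `0` to `c` and from `c'` to `2 n - 1` of this length have only
odd links, the trace is `2 t^(m-1) X^m`; for `m > n` there are two paths, through `n - 1`
and through `n`, with exactly one even link: the trace is `4 t^(m-1) X^(m-2)`.
For `t = 0`: conjugation with the antidiagonal permutation matrix `W` (`W i j = 1` iff
`i + j + 1 = 2 n`) is a realisation of the same form which exchanges `NupF` and `NdnF`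
(`Rz.conj`, the trace, `gen`, `pnt`, `PF` up to a constant do not change), so this case reduces to
`t ≠ 0`.

Degrees: `phi true m (M a)`: at most `m`, even parity, and for `m > n` the coefficient of `X^m` is
`phi true m B`, `B` the odd part of `A`, which is zero by the square lemma with `ω = J S`
(`ωᵀ = -ω`, `Bᵀ ω = ω B`), `D = n`.  `P = pfn pr (J * M a)`: `P (-X) = det S⁻¹ P = P`
(`M_{-X} = S M S⁻¹`, `J S = (S⁻¹)ᵀ J`), degree at most `n`.  For odd `n` hence at most `n - 1`.  For even
`n`: the coefficient of `X^n` is `pfn pr (J B)`, and `(pfn pr (J B))^2 = N det J det B`,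
`det B = ek (2 n) B = (phi true n B) ^ 2` (the square root of `gd B` has degree at most `n`), so
`pfn pr (J B) = ± κ phi true n B` for every `B`; the sign is the same for all `B` (the
polynomial functions: `(P - κ Q) (P + κ Q) = 0` in a domain, e.g. `Sy K g`).

The Pfaffian at `M = M (s p0 + t q0)`, `t ≠ 0`, `n` even.  The matrix `J M` pairs even positions with odd
positions; a direction `Z` with entries `Z (2n-1) c` in odd positions `c` and the mirror
entries `Z c' 0`.  The block `B` of `M + t' Z` with the rows in even positions and the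
columns in odd positions is square of size `n`, `pfn pr (J (M + t' Z)) = const * det B` (a skew
matrix with blocks `0, B', -B'ᵀ, 0` is `Dᵀ J0 D`, `D = diag (1, B')`).  The derivative is
`det` of `B` with the last row replaced by the row of `Z`.  The rows `0, 2, ..., n - 2` of `B`
(`row i = s X e_{i-1} + t X e_{i+1}` for `i < n - 2`, `row (n-2) = s X e_{n-3} + t (X e_{n-1} + e_n)`)
span `e_1, e_3, ..., e_{n-3}, X e_{n-1} + e_n` over the fraction field.  Hence
(i) the derivative is zero in the test directions for `m > n` (`c' = 2n-1-m ≤ n - 3`);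
(ii) it is zero in the direction `Z0`: `Z0 (2n-1) (n-1) = X`, `Z0 (2n-1) n = 1`, i.e.
`X * Mp (Yo) + X^(-1) * Mp (Ya)`, where `Yo = E_{n,0} + E_{2n-1,n-1}`, `Ya = E_{n-1,0} + E_{2n-1,n}`; so
`Pf' (Ya) = -X^2 Pf' (Yo)`.
By the trace formula `Q_n' (Yo) = 2 ρ t^(n-1) X^(n-2)`, `Q_n' (Ya) = 2 ρ t^(n-1) X^n` with the same `ρ ≠ 0`.
The coefficient of `X^n` of `(Pf - κ Q_n)' (Ya)` is zero, so the coefficient of `X^(n-2)` of
`Pf' (Yo)` is `- 2 κ ρ t^(n-1)` and `G' (Yo) = - 4 κ ρ t^(n-1) ≠ 0`.  The generators of degree `m < n`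
have zero derivative at `Yo` (trace), and so has `F_n` (the coefficient of `X^n` of
`2 ρ t^(n-1) X^(n-2)` is zero).

`n` odd.  `J M` pairs even positions (`n + 1` indices) with odd ones (`n - 1`), so the
Pfaffian vanishes at `M` and at `M + t' Y` for all the test directions of the `Q_m`.  The test
direction for the Pfaffian: `Y = E_{n-1,0} - E_{2n-1,n}`, of even parity.
By `pfn_deriv_sq` the square of the derivative is a constant times the coefficient of `t'^2` of
`det (M + t' Y)`, i.e. the determinant of `M` with the rows `n - 1`, `2 n - 1` replaced by `e_0`, `-e_n`.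
Reorder the columns by the permutation `0 → 1 → ... → n-1 → 0`, `n → n+1 → ... → 2n-1 → n` (row `i`
takes the column `c i`): the matrix becomes lower triangular (order of the rows
`n - 1, 2n - 1, 0, 1, ..., n - 2, n, n + 1, ..., 2n - 2`), with the entries `1`, `-1` and `t X` (`2 n - 2` times)
on the diagonal.  So the square is a nonzero constant times `X^(2n-2)`.
The traces `tr (M^j Mp Y)` vanish for all odd `j` (parity of positions), so the `gen` have zero
derivative there (not needed: take `c0 = 0`).
-/


set_option autoImplicit false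

namespace Pool.Agent.helper49.QA

open Polynomial Pool.Agent.helper5.AS
open Pool.Agent.helper5.ASQ (Invol even oddc brk IsContraction)
open Pool.Agent.helper90.MF (od)

variable {K : Type*} [Field K] [CharZero K] {g : Type*}
  [LieRing g] [LieAlgebra K g] {θ : Invol K g}
  {k : Type*} [LieRing k] [LieAlgebra K k] {e : g ≃ₗ[K] k}

/-- the symmetric form of the chain form -/
def JF (K : Type*) [Field K] (n : ℕ) : Matrix (Fin (2 * n)) (Fin (2 * n)) K :=
  fun i j => if i.val + j.val + 1 = 2 * n then (-1) ^ min i.val j.val else 0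

/-- positions in the chain -/
def posF (n i : ℕ) : ℕ := if i < n then i else i - 1

def NupF (K : Type*) [Field K] (n : ℕ) : Matrix (Fin (2 * n)) (Fin (2 * n)) K :=
  fun i j => if posF n i.val + 1 = posF n j.val then 1 else 0

def NdnF (K : Type*) [Field K] (n : ℕ) : Matrix (Fin (2 * n)) (Fin (2 * n)) K :=
  fun i j => if posF n j.val + 1 = posF n i.val then 1 else 0

/-- the parity -/
def parF (n : ℕ) (i : Fin (2 * n)) : Bool := decide (i.val % 2 = 1)

/-- the exponents -/
def bF (n m : ℕ) : ℕ := if m ≤ n then m else m - 2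

theorem FamDdef_JF_rev {n : ℕ} (i j : Fin (2 * n)) :
    JF K n i j = if j = i.rev then (-1) ^ min i.val i.rev.val else 0 := by
  unfold JF
  by_cases h : j = i.rev
  · rw [if_pos h, if_pos, h]
    rw [h, Fin.val_rev]
    have := i.2
    omega
  · rw [if_neg h, if_neg]
    intro h1
    apply h
    apply Fin.ext
    rw [Fin.val_rev]
    omega

theorem FamDdef_JF_mul {n : ℕ} (A : Matrix (Fin (2 * n)) (Fin (2 * n)) K) (i k : Fin (2 * n)) :
    (JF K n * A) i k = (-1) ^ min i.val i.rev.val * A i.rev k := by
  rw [Matrix.mul_apply, Finset.sum_eq_single i.rev]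
  · rw [FamDdef_JF_rev, if_pos rfl]
  · intro j _ hj
    rw [FamDdef_JF_rev, if_neg hj, zero_mul]
  · intro h
    exact absurd (Finset.mem_univ _) h

theorem FamDdef_mul_JF {n : ℕ} (A : Matrix (Fin (2 * n)) (Fin (2 * n)) K) (i k : Fin (2 * n)) :
    (A * JF K n) i k = A i k.rev * (-1) ^ min k.val k.rev.val := by
  rw [Matrix.mul_apply, Finset.sum_eq_single k.rev]
  · rw [FamDdef_JF_rev, if_pos (Fin.rev_rev k).symm, Fin.rev_rev, min_comm]
  · intro j _ hj
    rw [FamDdef_JF_rev, if_neg, mul_zero]
    intro h
    apply hj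
    rw [h, Fin.rev_rev]
  · intro h
    exact absurd (Finset.mem_univ _) h

theorem JF_transpose (n : ℕ) : (JF K n).transpose = JF K n := by
  ext i j
  rw [Matrix.transpose_apply]
  unfold JF
  by_cases h : i.val + j.val + 1 = 2 * n
  · rw [if_pos h, if_pos (by omega), min_comm]
  · rw [if_neg h, if_neg (by omega)]

theorem FamDdef_sq (a : ℕ) : ((-1 : K) ^ a) * (-1) ^ a = 1 := by
  rw [← mul_pow]
  simp

theorem FamDdef_JF_mul_self (n : ℕ) : JF K n * JF K n = 1 := by
  ext i k
  rw [FamDdef_JF_mul, FamDdef_JF_rev, Fin.rev_rev, Matrix.one_apply]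
  by_cases h : k = i
  · rw [if_pos h, if_pos h.symm, min_comm i.rev.val, FamDdef_sq]
  · rw [if_neg h, if_neg (Ne.symm h), mul_zero]

theorem JF_det_ne_zero (n : ℕ) : (JF K n).det ≠ 0 := by
  intro h
  have h1 := congrArg Matrix.det (FamDdef_JF_mul_self (K := K) n)
  rw [Matrix.det_mul, h, mul_zero, Matrix.det_one] at h1
  exact zero_ne_one h1

/-- the condition for the matrices in the Lie algebra -/
theorem FamDdef_skew_JF {n : ℕ} {A : Matrix (Fin (2 * n)) (Fin (2 * n)) K}
    (h : ∀ i j, A i j =
      -((-1 : K) ^ (min i.val i.rev.val + min j.val j.rev.val) * A j.rev i.rev)) :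
    A.transpose * JF K n = -(JF K n * A) := by
  ext i k
  rw [FamDdef_mul_JF, Matrix.neg_apply, FamDdef_JF_mul, Matrix.transpose_apply, h k.rev i,
    Fin.rev_rev, pow_add, min_comm k.rev.val]
  have h1 := FamDdef_sq (K := K) (min k.val k.rev.val)
  linear_combination (-((-1) ^ (min i.val i.rev.val) * A i.rev k)) * h1

theorem FamDdef_sign {a b : ℕ} (h : a + 1 = b ∨ b + 1 = a) : (-1 : K) ^ (a + b) = -1 := by
  apply Odd.neg_one_pow
  rcases h with h | h
  · exact ⟨a, by omega⟩
  · exact ⟨b, by omega⟩

theorem skew_NupF (n : ℕ) : (NupF K n).transpose * JF K n = -(JF K n * NupF K n) := by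
  refine FamDdef_skew_JF fun i j => ?_
  unfold NupF
  have hi := i.2
  have hj := j.2
  by_cases h : posF n i.val + 1 = posF n j.val
  · have h' : posF n j.rev.val + 1 = posF n i.rev.val := by
      rw [Fin.val_rev, Fin.val_rev]
      unfold posF at h ⊢
      split_ifs at h ⊢ <;> omega
    have hs : min i.val i.rev.val + 1 = min j.val j.rev.val ∨
        min j.val j.rev.val + 1 = min i.val i.rev.val := by
      rw [Fin.val_rev, Fin.val_rev]
      unfold posF at h
      split_ifs at h <;> omega
    rw [if_pos h, if_pos h', FamDdef_sign hs]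
    ring
  · have h' : ¬ (posF n j.rev.val + 1 = posF n i.rev.val) := by
      rw [Fin.val_rev, Fin.val_rev]
      unfold posF at h ⊢
      split_ifs at h ⊢ <;> omega
    rw [if_neg h, if_neg h', mul_zero, neg_zero]

theorem skew_NdnF (n : ℕ) : (NdnF K n).transpose * JF K n = -(JF K n * NdnF K n) := by
  refine FamDdef_skew_JF fun i j => ?_
  unfold NdnF
  have hi := i.2
  have hj := j.2
  by_cases h : posF n j.val + 1 = posF n i.val
  · have h' : posF n i.rev.val + 1 = posF n j.rev.val := by
      rw [Fin.val_rev, Fin.val_rev]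
      unfold posF at h ⊢
      split_ifs at h ⊢ <;> omega
    have hs : min i.val i.rev.val + 1 = min j.val j.rev.val ∨
        min j.val j.rev.val + 1 = min i.val i.rev.val := by
      rw [Fin.val_rev, Fin.val_rev]
      unfold posF at h
      split_ifs at h <;> omega
    rw [if_pos h, if_pos h', FamDdef_sign hs]
    ring
  · have h' : ¬ (posF n i.rev.val + 1 = posF n j.rev.val) := by
      rw [Fin.val_rev, Fin.val_rev]
      unfold posF at h ⊢
      split_ifs at h ⊢ <;> omega
    rw [if_neg h, if_neg h', mul_zero, neg_zero]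

end Pool.Agent.helper49.QA
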