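import Mathlib
import Pool.Agent.helper49.QA.FamDdef
import Pool.Agent.helper49.QA.Square

/-!
# Type DIII: degrees (see the header of FamDdef.lean)
-/

set_option autoImplicit false

namespace Pool.Agent.helper49.QA

open Polynomial Pool.Agent.helper5.AS
open Pool.Agent.helper5.ASQ (Invol even oddc brk IsContraction)
open Pool.Agent.helper90.MF (od)

variable {K : Type*} [Field K] [CharZero K] {g : Type*}
  [LieRing g] [LieAlgebra K g] {θ : Invol K g}
  {k : Type*} [LieRing k] [LieAlgebra K k] {e : g ≃ₗ[K] k}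

set_option linter.unusedSectionVars false

/-! ### auxiliary facts -/

/-- the substitution `X ↦ -X` -/
private noncomputable def FamDdeg_ng (K : Type*) [Field K] : K[X] →ₐ[K] K[X] := aeval (-X)

private theorem FamDdeg_ng_apply (P : K[X]) : FamDdeg_ng K P = P.comp (-X) := rfl

/-- the diagonal matrix of the signs -/
private def FamDdeg_D (R : Type*) [CommRing R] (n : ℕ) : Matrix (Fin (2 * n)) (Fin (2 * n)) R :=
  Matrix.diagonal fun i => (-1) ^ i.val

private theorem FamDdeg_D_det (R : Type*) [CommRing R] (n : ℕ) :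
    (FamDdeg_D R n).det = (-1) ^ n := by
  unfold FamDdeg_D
  rw [Matrix.det_diagonal, ← Finset.prod_range (fun i => (-1 : R) ^ i)]
  induction n with
  | zero => simp
  | succ n ih =>
    have h : 2 * (n + 1) = 2 * n + 1 + 1 := by ring
    rw [h, Finset.prod_range_succ, Finset.prod_range_succ, ih, pow_succ _ (2 * n), pow_mul]
    ring

private theorem FamDdeg_JD (n : ℕ) :
    JF K n * FamDdeg_D K n = -(FamDdeg_D K n * JF K n) := by
  ext i j
  unfold FamDdeg_D
  rw [Matrix.neg_apply, Matrix.mul_diagonal, Matrix.diagonal_mul]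
  unfold JF
  by_cases h : i.val + j.val + 1 = 2 * n
  · rw [if_pos h]
    have h1 : (-1 : K) ^ (i.val + j.val) = -1 := by
      have h2 : Odd (i.val + j.val) := ⟨n - 1, by omega⟩
      exact h2.neg_one_pow
    rw [pow_add] at h1
    have h3 : (-1 : K) ^ j.val * (-1) ^ j.val = 1 := by
      rw [← mul_pow]
      simp
    linear_combination ((-1 : K) ^ min i.val j.val) * ((-1 : K) ^ j.val) * h1 -
      ((-1 : K) ^ min i.val j.val) * ((-1 : K) ^ i.val) * h3
  · rw [if_neg h]
    ring

private theorem FamDdeg_ev2_eval {g : Type*} [LieRing g] [LieAlgebra K g] (x y : g →ₗ[K] K)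
    (t : K) (F : Sy K g) : (ev2 x y F).eval t = SymmetricAlgebra.lift (x + t • y) F := by
  have h : (Polynomial.aeval t : K[X] →ₐ[K] K).comp (ev2 x y) =
      (SymmetricAlgebra.lift (x + t • y) : Sy K g →ₐ[K] K) := by
    refine SymmetricAlgebra.algHom_ext (LinearMap.ext fun z => ?_)
    show Polynomial.aeval t (ev2 x y (ιS K g z)) =
      (SymmetricAlgebra.lift (x + t • y) : Sy K g →ₐ[K] K) (ιS K g z)
    rw [ev2_ι]
    have h2 : (SymmetricAlgebra.lift (x + t • y) : Sy K g →ₐ[K] K) (ιS K g z) = (x + t • y) z :=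
      SymmetricAlgebra.lift_ι_apply _ _
    rw [h2, map_add, map_mul, aeval_C, aeval_C, aeval_X, Algebra.algebraMap_self, RingHom.id_apply,
      RingHom.id_apply]
    show x z + y z * t = x z + t * y z
    rw [mul_comm]
  exact congrArg (fun G : Sy K g →ₐ[K] K => G F) h

private theorem FamDdeg_dom {g : Type*} [LieRing g] [LieAlgebra K g] {F G : Sy K g}
    (h : F * G = 0) : F = 0 ∨ G = 0 := by
  by_contra hc
  push Not at hc
  obtain ⟨hF, hG⟩ := hc
  have h1 : ∃ φ : g →ₗ[K] K, SymmetricAlgebra.lift φ F ≠ 0 := by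
    by_contra h2
    push Not at h2
    exact hF (eq_zero_of_eval h2)
  have h2 : ∃ φ : g →ₗ[K] K, SymmetricAlgebra.lift φ G ≠ 0 := by
    by_contra h3
    push Not at h3
    exact hG (eq_zero_of_eval h3)
  obtain ⟨φ, hφ⟩ := h1
  obtain ⟨ψ, hψ⟩ := h2
  have h3 : ev2 φ (ψ - φ) F * ev2 φ (ψ - φ) G = 0 := by rw [← map_mul, h, map_zero]
  rcases mul_eq_zero.1 h3 with h4 | h4
  · have h5 := FamDdeg_ev2_eval φ (ψ - φ) 0 F
    rw [h4, eval_zero, zero_smul, add_zero] at h5
    exact hφ h5.symm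
  · have h5 := FamDdeg_ev2_eval φ (ψ - φ) 1 G
    rw [h4, eval_zero, one_smul, add_sub_cancel] at h5
    exact hψ h5.symm

/-- evaluation of the coefficients of the Pfaffian at the points -/
private theorem FamDdeg_eval {n' : Type*} [Fintype n'] [DecidableEq n'] (r : Rz K n' θ) {h : ℕ}
    (pr : Fin h × Fin 2 ≃ n') (J : Matrix n' n' K) (a : g) (j : ℕ) :
    (SymmetricAlgebra.lift (r.τ a) : Sy K g →ₐ[K] K) ((scS θ (r.PF pr J)).coeff j) =
      (pfn pr (J.map (C : K →+* K[X]) * r.M a)).coeff j := by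
  rw [← coeff_mapAlgHom_apply]
  congr 1
  let F : Sy K g →ₐ[K] K[X] :=
    (mapAlgHom (SymmetricAlgebra.lift (r.τ a) : Sy K g →ₐ[K] K)).comp (scS θ)
  have h1 : (r.XM.map (scS θ)).map (mapAlgHom (SymmetricAlgebra.lift (r.τ a) : Sy K g →ₐ[K] K)) =
      r.M a := by
    ext1 i j
    show mapAlgHom (SymmetricAlgebra.lift (r.τ a) : Sy K g →ₐ[K] K) (scS θ (ιS K g (r.E i j))) =
      C (r.ρ (even θ a) i j) + X * C (r.ρ (oddc θ a) i j)
    rw [scS_ι, map_add, map_mul, coe_mapAlgHom, Polynomial.map_C, Polynomial.map_C,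
      Polynomial.map_X]
    have h2 : ∀ z : g, (SymmetricAlgebra.lift (r.τ a) : Sy K g →ₐ[K] K) (ιS K g z) = r.τ a z :=
      fun z => SymmetricAlgebra.lift_ι_apply _ _
    rw [← Real_τE_even, ← Real_τE_oddc, ← h2, ← h2]
    rfl
  have h2 : F (pfn pr (J.map (algebraMap K (Sy K g)) * r.XM)) =
      pfn pr ((J.map (algebraMap K (Sy K g)) * r.XM).map (F : Sy K g →+* K[X])) :=
    (pfn_map pr (F : Sy K g →+* K[X]) _).symm
  have h3 : (J.map (algebraMap K (Sy K g)) * r.XM).map (F : Sy K g →+* K[X]) =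
      J.map (C : K →+* K[X]) * r.M a := by
    rw [Matrix.map_mul]
    congr 1
    ext1 i j
    show F (algebraMap K (Sy K g) (J i j)) = C (J i j)
    rw [AlgHom.commutes]
    rfl
  show F (pfn pr (J.map (algebraMap K (Sy K g)) * r.XM)) = _
  rw [h2, h3]

private theorem FamDdeg_M_coeff {n' : Type*} [Fintype n'] [DecidableEq n'] (r : Rz K n' θ)
    (a : g) (i j : n') : (r.M a i j).coeff 1 = r.ρ (oddc θ a) i j := by
  have h : r.M a i j = C (r.ρ (even θ a) i j) + X * C (r.ρ (oddc θ a) i j) := rfl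
  rw [h, coeff_add, coeff_C_succ, zero_add, coeff_X_mul, coeff_C_zero]

private theorem FamDdeg_M_deg {n' : Type*} [Fintype n'] [DecidableEq n'] (r : Rz K n' θ)
    (a : g) (i j : n') : (r.M a i j).natDegree ≤ 1 := by
  have h : r.M a i j = C (r.ρ (even θ a) i j) + X * C (r.ρ (oddc θ a) i j) := rfl
  rw [h]
  refine (natDegree_add_le _ _).trans (max_le (by rw [natDegree_C]; exact zero_le_one) ?_)
  refine natDegree_mul_le.trans ?_
  rw [natDegree_C, add_zero, natDegree_X]

private theorem FamDdeg_JM_deg {n' : Type*} [Fintype n'] [DecidableEq n'] (r : Rz K n' θ)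
    (J : Matrix n' n' K) (a : g) (i j : n') :
    ((J.map (C : K →+* K[X]) * r.M a) i j).natDegree ≤ 1 := by
  rw [Matrix.mul_apply]
  refine natDegree_sum_le_of_forall_le _ _ fun k _ => ?_
  refine natDegree_mul_le.trans ?_
  rw [Matrix.map_apply, natDegree_C, zero_add]
  exact FamDdeg_M_deg r a k j

private theorem FamDdeg_JM_coeff {n' : Type*} [Fintype n'] [DecidableEq n'] (r : Rz K n' θ)
    (J : Matrix n' n' K) (a : g) (i j : n') :
    ((J.map (C : K →+* K[X]) * r.M a) i j).coeff 1 = (J * r.ρ (oddc θ a)) i j := by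
  rw [Matrix.mul_apply, Matrix.mul_apply, finsetSum_coeff]
  refine Finset.sum_congr rfl fun k _ => ?_
  rw [Matrix.map_apply, coeff_C_mul, FamDdeg_M_coeff]

private theorem FamDdeg_pf_deg {n' : Type*} [Fintype n'] [DecidableEq n'] (r : Rz K n' θ) {h : ℕ}
    (pr : Fin h × Fin 2 ≃ n') (J : Matrix n' n' K) (a : g) :
    (pfn pr (J.map (C : K →+* K[X]) * r.M a)).natDegree ≤ h := by
  rw [pfn]
  refine natDegree_sum_le_of_forall_le _ _ fun σ _ => ?_
  refine (natDegree_smul_le _ _).trans ?_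
  refine (natDegree_prod_le _ _).trans ?_
  calc ∑ p : Fin h, ((J.map (C : K →+* K[X]) * r.M a) (σ (pr (p, 0))) (σ (pr (p, 1)))).natDegree
      ≤ ∑ _p : Fin h, 1 := Finset.sum_le_sum fun p _ => FamDdeg_JM_deg r J a _ _
    _ = h := by simp

private theorem FamDdeg_pf_top {n' : Type*} [Fintype n'] [DecidableEq n'] (r : Rz K n' θ) {h : ℕ}
    (pr : Fin h × Fin 2 ≃ n') (J : Matrix n' n' K) (a : g) :
    (pfn pr (J.map (C : K →+* K[X]) * r.M a)).coeff h = pfn pr (J * r.ρ (oddc θ a)) := by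
  rw [pfn, pfn, finsetSum_coeff]
  refine Finset.sum_congr rfl fun σ _ => ?_
  rw [coeff_smul]
  congr 1
  have h1 := coeff_prod_of_natDegree_le (s := (Finset.univ : Finset (Fin h)))
    (fun p => (J.map (C : K →+* K[X]) * r.M a) (σ (pr (p, 0))) (σ (pr (p, 1)))) 1
    (fun p _ => FamDdeg_JM_deg r J a _ _)
  rw [Finset.card_univ, Fintype.card_fin, mul_one] at h1
  rw [h1]
  exact Finset.prod_congr rfl fun p _ => FamDdeg_JM_coeff r J a _ _

private theorem FamDdeg_ek_card {n' : Type*} [Fintype n'] [DecidableEq n'] (B : Matrix n' n' K) :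
    ek (Fintype.card n') B = B.det := by
  rw [ek_eq_sum, ← Finset.card_univ, Finset.powersetCard_self, Finset.sum_singleton]
  let e : ((Finset.univ : Finset n') : Set n') ≃ n' := Equiv.subtypeUnivEquiv fun _ => by simp
  exact Matrix.det_submatrix_equiv_self e B

section chain

variable {n : ℕ} {r : Rz K (Fin (2 * n)) θ} (hJ : r.IsJ (JF K n) 1) (hp : r.IsPar (parF n))
  (pr : Fin n × Fin 2 ≃ Fin (2 * n))

include hp in
private theorem FamDdeg_odd_zero (a : g) (i j : Fin (2 * n)) (h : parF n i = parF n j) :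
    r.ρ (oddc θ a) i j = 0 := by
  rw [JForm_oddc, Matrix.smul_apply, Matrix.sub_apply, hp a i j]
  unfold od
  rw [if_pos h, pow_zero, one_mul, sub_self, smul_zero]

include hp in
private theorem FamDdeg_BD (a : g) : r.ρ (oddc θ a) * FamDdeg_D K n =
    -(FamDdeg_D K n * r.ρ (oddc θ a)) := by
  ext i j
  unfold FamDdeg_D
  rw [Matrix.neg_apply, Matrix.mul_diagonal, Matrix.diagonal_mul]
  by_cases h : parF n i = parF n j
  · rw [FamDdeg_odd_zero hp a i j h]
    ring
  · have h1 : (-1 : K) ^ (i.val + j.val) = -1 := by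
      have h2 : Odd (i.val + j.val) := by
        unfold parF at h
        rw [Nat.odd_iff]
        by_cases h3 : i.val % 2 = 1 <;> by_cases h4 : j.val % 2 = 1
        · exact absurd (by rw [decide_eq_true h3, decide_eq_true h4]) h
        · omega
        · omega
        · exact absurd (by rw [decide_eq_false h3, decide_eq_false h4]) h
      exact h2.neg_one_pow
    rw [pow_add] at h1
    have h3 : (-1 : K) ^ j.val * (-1) ^ j.val = 1 := by
      rw [← mul_pow]
      simp
    linear_combination (r.ρ (oddc θ a) i j) * ((-1 : K) ^ j.val) * h1 -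
      (r.ρ (oddc θ a) i j) * ((-1 : K) ^ i.val) * h3

include hJ in
private theorem FamDdeg_om_skew : (JF K n * FamDdeg_D K n).transpose =
    -(JF K n * FamDdeg_D K n) := by
  have h1 := hJ.symm
  rw [one_smul] at h1
  rw [Matrix.transpose_mul, h1, FamDdeg_JD, neg_neg]
  unfold FamDdeg_D
  rw [Matrix.diagonal_transpose]

include hJ in
private theorem FamDdeg_om_det : (JF K n * FamDdeg_D K n).det ≠ 0 := by
  rw [Matrix.det_mul, FamDdeg_D_det]
  exact mul_ne_zero hJ.det (pow_ne_zero _ (neg_ne_zero.2 one_ne_zero))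

include hJ hp in
private theorem FamDdeg_om_sym (a : g) : (r.ρ (oddc θ a)).transpose * (JF K n * FamDdeg_D K n) =
    (JF K n * FamDdeg_D K n) * r.ρ (oddc θ a) := by
  rw [← Matrix.mul_assoc, hJ.skew, Matrix.neg_mul, Matrix.mul_assoc, FamDdeg_BD hp,
    Matrix.mul_neg, neg_neg, Matrix.mul_assoc]

include hJ hp in
/-- `det B` is the square of `phi true n B` -/
private theorem FamDdeg_det_sq (a : g) :
    (r.ρ (oddc θ a)).det = (phi K true n (r.ρ (oddc θ a))) ^ 2 := by
  set B := r.ρ (oddc θ a) with hB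
  obtain ⟨Q, hQ0, hQ2⟩ := exists_sqrt (FamDdeg_om_skew hJ) (FamDdeg_om_det hJ)
    (FamDdeg_om_sym hJ hp a)
  have h1 : phi K true n B = Q.coeff n := by
    unfold phi
    rw [if_pos rfl]
    exact sqr_eq_coeff hQ0 (fun j => by rw [hQ2]; rfl) n
  have h2 : Q.natDegree ≤ n := by
    have h3 := gd_natDegree_le B
    rw [← hQ2, natDegree_pow, Fintype.card_fin] at h3
    omega
  have h4 : B.det = (gd B).coeff (n + n) := by
    have h5 := FamDdeg_ek_card B
    rw [Fintype.card_fin] at h5
    rw [← two_mul]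
    exact h5.symm
  rw [h4, ← hQ2, h1, sq, sq, coeff_mul_add_eq_of_natDegree_le h2 h2]

include hp in
private theorem FamDdeg_pf_neg (a : g) :
    (pfn pr ((JF K n).map (C : K →+* K[X]) * r.M a)).comp (-X) =
      pfn pr ((JF K n).map (C : K →+* K[X]) * r.M a) := by
  set J' := (JF K n).map (C : K →+* K[X]) with hJ'
  set D := FamDdeg_D K[X] n with hD
  have hM : (r.M a).map (FamDdeg_ng K : K[X] →+* K[X]) = D * r.M a * D := by
    rw [hp.M_eq]
    ext1 i j
    rw [hD]
    unfold FamDdeg_D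
    rw [Matrix.map_apply, Matrix.mul_diagonal, Matrix.diagonal_mul]
    unfold Mp
    show FamDdeg_ng K (X ^ od (parF n) i j * C (r.ρ a i j)) = _
    rw [FamDdeg_ng_apply, mul_comp, pow_comp, X_comp, C_comp, neg_pow]
    have h1 : (-1 : K[X]) ^ od (parF n) i j = (-1) ^ i.val * (-1) ^ j.val := by
      rw [← pow_add]
      unfold od parF
      by_cases h3 : i.val % 2 = 1 <;> by_cases h4 : j.val % 2 = 1
      · rw [if_pos (by rw [decide_eq_true h3, decide_eq_true h4]), pow_zero]
        exact (Even.neg_one_pow (by rw [Nat.even_iff]; omega)).symm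
      · rw [if_neg (by rw [decide_eq_true h3, decide_eq_false h4]; decide), pow_one]
        exact (Odd.neg_one_pow (by rw [Nat.odd_iff]; omega)).symm
      · rw [if_neg (by rw [decide_eq_false h3, decide_eq_true h4]; decide), pow_one]
        exact (Odd.neg_one_pow (by rw [Nat.odd_iff]; omega)).symm
      · rw [if_pos (by rw [decide_eq_false h3, decide_eq_false h4]), pow_zero]
        exact (Even.neg_one_pow (by rw [Nat.even_iff]; omega)).symm
    rw [h1]
    ring
  have hJm : J'.map (FamDdeg_ng K : K[X] →+* K[X]) = J' := by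
    ext1 i j
    show FamDdeg_ng K (C (JF K n i j)) = C (JF K n i j)
    rw [FamDdeg_ng_apply, C_comp]
  have hJD : J' * D = -(D * J') := by
    have h1 : (JF K n * FamDdeg_D K n).map (C : K →+* K[X]) =
        (-(FamDdeg_D K n * JF K n)).map (C : K →+* K[X]) := by rw [FamDdeg_JD]
    have h2 : (FamDdeg_D K n).map (C : K →+* K[X]) = D := by
      rw [hD]
      unfold FamDdeg_D
      rw [Matrix.diagonal_map (map_zero C)]
      congr 1
      funext i
      simp
    rw [Matrix.map_mul, h2] at h1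
    rw [h1]
    ext1 i j
    rw [Matrix.map_apply, Matrix.neg_apply, Matrix.neg_apply, map_neg]
    congr 1
    have h3 : (FamDdeg_D K n * JF K n).map (C : K →+* K[X]) = D * J' := by
      rw [Matrix.map_mul, h2]
    exact congrFun (congrFun h3 i) j
  have hDt : D.transpose = D := by
    rw [hD]
    unfold FamDdeg_D
    rw [Matrix.diagonal_transpose]
  have h1 : (J' * r.M a).map (FamDdeg_ng K : K[X] →+* K[X]) =
      (-1 : K[X]) • (D.transpose * (J' * r.M a) * D) := by
    rw [Matrix.map_mul, hM, hJm, ← Matrix.mul_assoc, ← Matrix.mul_assoc, hJD, hDt, neg_one_smul,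
      Matrix.neg_mul, Matrix.neg_mul, Matrix.mul_assoc D J']
  have h2 : (FamDdeg_ng K : K[X] →+* K[X]) (pfn pr (J' * r.M a)) =
      pfn pr ((J' * r.M a).map (FamDdeg_ng K : K[X] →+* K[X])) := (pfn_map pr _ _).symm
  have h3 : (pfn pr (J' * r.M a)).comp (-X) =
      (FamDdeg_ng K : K[X] →+* K[X]) (pfn pr (J' * r.M a)) := rfl
  rw [h3, h2, h1, pfn_smul, pfn_conj, hD, FamDdeg_D_det, Fintype.card_fin, ← mul_assoc,
    ← mul_pow]
  simp

include hJ hp

/-- the degrees of the generators of the square root kind -/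
theorem FamD_degree {m : ℕ} (hm : Even m) (a : g) :
    (phi K true m (r.M a)).natDegree ≤ bF n m := by
  unfold bF
  have h1 := phi_natDegree_le (K := K) (FamDdeg_M_deg r a) true m
  split_ifs with h
  · exact h1
  · refine natDegree_le_sub_two h1 ?_ ?_
    · rw [hm.neg_one_pow, one_mul, hp.M_eq]
      exact phi_Mp_neg _ _ _ _
    · rw [phi_coeff_top (FamDdeg_M_deg r a)]
      have h2 : (fun i j => (r.M a i j).coeff 1) = r.ρ (oddc θ a) := by
        ext1 i
        ext1 j
        exact FamDdeg_M_coeff r a i j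
      rw [h2]
      refine phi_eq_zero_of_square (FamDdeg_om_skew hJ) (FamDdeg_om_det hJ)
        (FamDdeg_om_sym hJ hp a) (D := n) ?_ (by omega)
      have h3 := gd_natDegree_le (r.ρ (oddc θ a))
      rwa [Fintype.card_fin] at h3

/-- the degree of the Pfaffian for odd `n` -/
theorem FamD_pf_degree_odd (hn : Odd n) : (scS θ (r.PF pr (JF K n))).natDegree ≤ n - 1 := by
  refine r.PF_degree_le pr (n - 1) fun a => ?_
  rw [natDegree_le_iff_coeff_eq_zero]
  intro N hN
  have hn1 := hn.pos
  rcases Nat.lt_or_ge n N with h | h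
  · exact coeff_eq_zero_of_natDegree_lt (lt_of_le_of_lt (FamDdeg_pf_deg r pr (JF K n) a) h)
  · obtain rfl : N = n := by omega
    exact coeff_zero_of_even (FamDdeg_pf_neg hp pr a) hn

/-- the second generator of degree `n` for even `n` -/
theorem FamD_pf_degree_even (hn : Even n) (hn0 : 1 ≤ n) : ∃ κ : K, κ ≠ 0 ∧
    (scS θ (r.PF pr (JF K n) - κ • r.H true n)).natDegree ≤ n - 2 := by
  set P : Sy K g := (scS θ (r.PF pr (JF K n))).coeff n with hP
  set Q : Sy K g := (scS θ (r.H true n)).coeff n with hQ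
  have hPa : ∀ a : g, (SymmetricAlgebra.lift (r.τ a) : Sy K g →ₐ[K] K) P =
      pfn pr (JF K n * r.ρ (oddc θ a)) := fun a => by
    rw [hP, FamDdeg_eval, FamDdeg_pf_top]
  have hev : ∀ (a : g) (j : ℕ), (SymmetricAlgebra.lift (r.τ a) : Sy K g →ₐ[K] K)
      ((scS θ (r.H true n)).coeff j) = (phi K true n (r.M a)).coeff j := fun a j => by
    rw [← coeff_mapAlgHom_apply, Real_eval]
  have hQa : ∀ a : g, (SymmetricAlgebra.lift (r.τ a) : Sy K g →ₐ[K] K) Q =
      phi K true n (r.ρ (oddc θ a)) := fun a => by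
    have h2 : (fun i j => (r.M a i j).coeff 1) = r.ρ (oddc θ a) := by
      ext1 i
      ext1 j
      exact FamDdeg_M_coeff r a i j
    rw [hQ, hev, phi_coeff_top (FamDdeg_M_deg r a), h2]
  obtain ⟨N, hN, hsq⟩ := pfn_sq pr
  set c : K := (N : K) * (JF K n).det with hc
  have hc0 : c ≠ 0 := mul_ne_zero (Nat.cast_ne_zero.2 hN) hJ.det
  have hPQ : ∀ a : g, ((SymmetricAlgebra.lift (r.τ a) : Sy K g →ₐ[K] K) P) ^ 2 =
      c * ((SymmetricAlgebra.lift (r.τ a) : Sy K g →ₐ[K] K) Q) ^ 2 := by
    intro a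
    have hskew : (JF K n * r.ρ (oddc θ a)).transpose = -(JF K n * r.ρ (oddc θ a)) := by
      have h1 := hJ.symm
      rw [one_smul] at h1
      rw [Matrix.transpose_mul, h1, hJ.skew]
    rw [hPa, hQa, hsq K _ hskew, Matrix.det_mul, FamDdeg_det_sq hJ hp a, hc]
    ring
  have key : ∃ κ : K, κ ≠ 0 ∧ P = κ • Q := by
    by_cases h0 : ∀ φ : g →ₗ[K] K, SymmetricAlgebra.lift φ Q = 0
    · refine ⟨1, one_ne_zero, ?_⟩
      have hQ0 : Q = 0 := eq_zero_of_eval h0
      have hP0 : P = 0 := by
        refine eq_zero_of_eval fun φ => ?_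
        obtain ⟨a, rfl⟩ := Real_exists r φ
        have h1 := hPQ a
        rw [hQ0, map_zero, zero_pow two_ne_zero, mul_zero] at h1
        exact pow_eq_zero_iff two_ne_zero |>.1 h1
      rw [hP0, hQ0, smul_zero]
    · push Not at h0
      obtain ⟨φ, hφ⟩ := h0
      obtain ⟨a, rfl⟩ := Real_exists r φ
      set κ : K := (SymmetricAlgebra.lift (r.τ a) : Sy K g →ₐ[K] K) P /
        (SymmetricAlgebra.lift (r.τ a) : Sy K g →ₐ[K] K) Q with hκ
      have hκ2 : κ ^ 2 = c := by
        rw [hκ, div_pow, hPQ a, mul_div_assoc, div_self (pow_ne_zero 2 hφ), mul_one]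
      have hκ0 : κ ≠ 0 := by
        intro h
        rw [h, zero_pow two_ne_zero] at hκ2
        exact hc0 hκ2.symm
      have hprod : (P - κ • Q) * (P + κ • Q) = 0 := by
        refine eq_zero_of_eval fun φ => ?_
        obtain ⟨b, rfl⟩ := Real_exists r φ
        rw [map_mul, map_sub, map_add, map_smul, smul_eq_mul]
        have h1 := hPQ b
        rw [← hκ2] at h1
        linear_combination h1
      rcases FamDdeg_dom hprod with h | h
      · exact ⟨κ, hκ0, sub_eq_zero.1 h⟩
      · refine ⟨-κ, neg_ne_zero.2 hκ0, ?_⟩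
        rw [neg_smul]
        exact eq_neg_of_add_eq_zero_left h
  obtain ⟨κ, hκ0, hκ⟩ := key
  refine ⟨κ, hκ0, ?_⟩
  rw [natDegree_le_iff_coeff_eq_zero]
  intro N hN
  have hco : (scS θ (r.PF pr (JF K n) - κ • r.H true n)).coeff N =
      (scS θ (r.PF pr (JF K n))).coeff N - κ • (scS θ (r.H true n)).coeff N := by
    rw [map_sub, map_smul, coeff_sub, coeff_smul]
  rw [hco]
  have hodd : N ≠ n → (scS θ (r.PF pr (JF K n))).coeff N = 0 ∧
      (scS θ (r.H true n)).coeff N = 0 := by
    intro hNn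
    constructor
    · refine eq_zero_of_eval fun φ => ?_
      obtain ⟨a, rfl⟩ := Real_exists r φ
      rw [FamDdeg_eval]
      rcases Nat.even_or_odd N with hNe | hNo
      · refine coeff_eq_zero_of_natDegree_lt
          (lt_of_le_of_lt (FamDdeg_pf_deg r pr (JF K n) a) ?_)
        obtain ⟨u, hu⟩ := hNe
        obtain ⟨v, hv⟩ := hn
        omega
      · exact coeff_zero_of_even (FamDdeg_pf_neg hp pr a) hNo
    · refine eq_zero_of_eval fun φ => ?_
      obtain ⟨a, rfl⟩ := Real_exists r φ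
      rw [hev]
      rcases Nat.even_or_odd N with hNe | hNo
      · refine coeff_eq_zero_of_natDegree_lt
          (lt_of_le_of_lt (phi_natDegree_le (K := K) (FamDdeg_M_deg r a) true n) ?_)
        obtain ⟨u, hu⟩ := hNe
        obtain ⟨v, hv⟩ := hn
        omega
      · refine coeff_zero_of_even ?_ hNo
        rw [hp.M_eq]
        exact phi_Mp_neg _ _ _ _
  by_cases hNn : N = n
  · rw [hNn, ← hP, ← hQ, hκ, sub_self]
  · rw [(hodd hNn).1, (hodd hNn).2, smul_zero, sub_zero]

end chain

end Pool.Agent.helper49.QA
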