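import Mathlib
import Pool.Agent.helper49.QA.FamDdef

/-!
# Type DIII, odd `n`: test elements (see the header of FamDdef.lean)
-/

set_option autoImplicit false

namespace Pool.Agent.helper49.QA

open Polynomial Pool.Agent.helper5.AS
open Pool.Agent.helper5.ASQ (Invol even oddc brk IsContraction)
open Pool.Agent.helper90.MF (od)

variable {K : Type*} [Field K] [CharZero K] {g : Type*}
  [LieRing g] [LieAlgebra K g] {θ : Invol K g}
  {k : Type*} [LieRing k] [LieAlgebra K k] {e : g ≃ₗ[K] k}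

/-! ## the form -/

/-- the sign of the form -/
def FamDodd_j (K : Type*) [Field K] (n : ℕ) (i : Fin (2 * n)) : K :=
  (-1) ^ min i.val (2 * n - 1 - i.val)

omit [CharZero K] in
theorem FamDodd_jj (n : ℕ) (i : Fin (2 * n)) : FamDodd_j K n i * FamDodd_j K n i = 1 := by
  rw [FamDodd_j, ← mul_pow, neg_one_mul, neg_neg, one_pow]

omit [CharZero K] in
theorem FamDodd_j_rev (n : ℕ) (i : Fin (2 * n)) :
    FamDodd_j K n (Fin.rev i) = FamDodd_j K n i := by
  have hi := i.isLt
  rw [FamDodd_j, FamDodd_j, Fin.val_rev]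
  congr 1
  omega

omit [CharZero K] in
theorem FamDodd_JF (n : ℕ) (i j : Fin (2 * n)) :
    JF K n i j = if j = Fin.rev i then FamDodd_j K n i else 0 := by
  unfold JF FamDodd_j
  have hi := i.isLt
  have hj := j.isLt
  by_cases h : j = Fin.rev i
  · have h2 : j.val = 2 * n - (i.val + 1) := by rw [h, Fin.val_rev]
    rw [if_pos h, if_pos (by omega)]
    congr 1
    omega
  · rw [if_neg h, if_neg]
    intro h2
    exact h (Fin.ext (by rw [Fin.val_rev]; omega))

omit [CharZero K] in
theorem FamDodd_JF_mul (n : ℕ) {R : Type*} [CommRing R] (f : K →+* R)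
    (A : Matrix (Fin (2 * n)) (Fin (2 * n)) R) (i l : Fin (2 * n)) :
    ((JF K n).map f * A) i l = f (FamDodd_j K n i) * A (Fin.rev i) l := by
  rw [Matrix.mul_apply, Finset.sum_eq_single (Fin.rev i)]
  · rw [Matrix.map_apply, FamDodd_JF, if_pos rfl]
  · intro j _ hj
    rw [Matrix.map_apply, FamDodd_JF, if_neg hj, map_zero, zero_mul]
  · intro h
    exact absurd (Finset.mem_univ _) h

omit [CharZero K] in
theorem FamDodd_skew {n : ℕ} {A : Matrix (Fin (2 * n)) (Fin (2 * n)) K}
    (h : ∀ i j, A i j = -(FamDodd_j K n i * FamDodd_j K n j * A (Fin.rev j) (Fin.rev i))) :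
    A.transpose * JF K n = -(JF K n * A) := by
  have h1 : ∀ i l, (A.transpose * JF K n) i l = A (Fin.rev l) i * FamDodd_j K n l := by
    intro i l
    rw [Matrix.mul_apply, Finset.sum_eq_single (Fin.rev l)]
    · rw [Matrix.transpose_apply, FamDodd_JF, Fin.rev_rev, if_pos rfl, FamDodd_j_rev]
    · intro j _ hj
      rw [FamDodd_JF, if_neg, mul_zero]
      intro h
      exact hj (by rw [h, Fin.rev_rev])
    · intro h
      exact absurd (Finset.mem_univ _) h
  ext i l
  have h2 := FamDodd_JF_mul n (RingHom.id K) A i l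
  rw [show (JF K n).map (RingHom.id K) = JF K n from rfl, RingHom.id_apply] at h2
  rw [h1, Matrix.neg_apply, h2, h (Fin.rev l) i, Fin.rev_rev, FamDodd_j_rev]
  linear_combination (-(FamDodd_j K n i * A (Fin.rev i) l)) * FamDodd_jj (K := K) n l

omit [CharZero K] in
theorem FamDodd_skew_transpose {n : ℕ} {A : Matrix (Fin (2 * n)) (Fin (2 * n)) K}
    (h : ∀ i j, A i j = -(FamDodd_j K n i * FamDodd_j K n j * A (Fin.rev j) (Fin.rev i)))
    (i j : Fin (2 * n)) : A.transpose i j =
      -(FamDodd_j K n i * FamDodd_j K n j * A.transpose (Fin.rev j) (Fin.rev i)) := by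
  rw [Matrix.transpose_apply, Matrix.transpose_apply, h j i]
  ring

/-! ## positions -/

theorem FamDodd_pos_rev {n : ℕ} (i : Fin (2 * n)) :
    posF n (Fin.rev i).val + posF n i.val = 2 * n - 2 := by
  have hi := i.isLt
  rw [Fin.val_rev]
  unfold posF
  split_ifs <;> omega

theorem FamDodd_od_rev {n : ℕ} (i j : Fin (2 * n)) :
    od (parF n) (Fin.rev j) (Fin.rev i) = od (parF n) i j := by
  have hi := i.isLt
  have hj := j.isLt
  unfold od parF
  simp only [Fin.val_rev, decide_eq_decide]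
  by_cases h : i.val % 2 = 1 ↔ j.val % 2 = 1
  · rw [if_pos h, if_pos (by omega)]
  · rw [if_neg h, if_neg (by omega)]

theorem FamDodd_od_comm {n : ℕ} (i j : Fin (2 * n)) :
    od (parF n) j i = od (parF n) i j := by
  unfold od
  simp only [eq_comm]

/-- the chain matrix -/
noncomputable def FamDodd_M (K : Type*) [Field K] (n : ℕ) (s t : K) :
    Matrix (Fin (2 * n)) (Fin (2 * n)) K[X] := Mp (parF n) (s • NdnF K n + t • NupF K n)

omit [CharZero K] in
theorem FamDodd_M_transpose (n : ℕ) (s t : K) :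
    (FamDodd_M K n s t).transpose = FamDodd_M K n t s := by
  ext1 i j
  rw [Matrix.transpose_apply]
  unfold FamDodd_M Mp
  rw [FamDodd_od_comm]
  congr 2
  rw [Matrix.add_apply, Matrix.add_apply, Matrix.smul_apply, Matrix.smul_apply,
    Matrix.smul_apply, Matrix.smul_apply, add_comm]
  rfl

omit [CharZero K] in
theorem FamDodd_M_rev (n : ℕ) (s t : K) (i j : Fin (2 * n)) :
    FamDodd_M K n s t (Fin.rev j) (Fin.rev i) = FamDodd_M K n s t i j := by
  unfold FamDodd_M Mp
  rw [FamDodd_od_rev]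
  congr 2
  have h1 := FamDodd_pos_rev i
  have h2 := FamDodd_pos_rev j
  have hi : posF n i.val ≤ 2 * n - 2 := by omega
  have hj : posF n j.val ≤ 2 * n - 2 := by omega
  rw [Matrix.add_apply, Matrix.add_apply, Matrix.smul_apply, Matrix.smul_apply,
    Matrix.smul_apply, Matrix.smul_apply]
  unfold NdnF NupF
  have e1 : (posF n (Fin.rev i).val + 1 = posF n (Fin.rev j).val) =
      (posF n j.val + 1 = posF n i.val) := propext (by omega)
  have e2 : (posF n (Fin.rev j).val + 1 = posF n (Fin.rev i).val) =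
      (posF n i.val + 1 = posF n j.val) := propext (by omega)
  simp only [e1, e2]

omit [CharZero K] in
theorem FamDodd_pow_rev (n : ℕ) (s t : K) (m : ℕ) (i j : Fin (2 * n)) :
    (FamDodd_M K n s t ^ m) (Fin.rev j) (Fin.rev i) = (FamDodd_M K n s t ^ m) i j := by
  induction m generalizing i j with
  | zero =>
    rw [pow_zero, Matrix.one_apply, Matrix.one_apply]
    simp only [Fin.rev_inj, eq_comm]
  | succ m ih =>
    rw [pow_succ, Matrix.mul_apply, ← pow_succ, pow_succ', Matrix.mul_apply,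
      ← Equiv.sum_comp Fin.revPerm]
    refine Finset.sum_congr rfl fun l _ => ?_
    rw [Fin.revPerm_apply, ih, FamDodd_M_rev, mul_comm]

omit [CharZero K] in
theorem FamDodd_band (n : ℕ) (s t : K) (i j : Fin (2 * n))
    (h : posF n i.val + 1 < posF n j.val) : FamDodd_M K n s t i j = 0 := by
  unfold FamDodd_M Mp
  rw [Matrix.add_apply, Matrix.smul_apply, Matrix.smul_apply]
  unfold NdnF NupF
  rw [if_neg (by omega), if_neg (by omega), smul_zero, smul_zero, add_zero, C_0, mul_zero]

omit [CharZero K] in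
theorem FamDodd_zero (n : ℕ) (s t : K) (m : ℕ) (i j : Fin (2 * n))
    (h : posF n i.val + m < posF n j.val) : (FamDodd_M K n s t ^ m) i j = 0 :=
  band_zero (fun i : Fin (2 * n) => posF n i.val) (FamDodd_band n s t) m i j h

omit [CharZero K] in
theorem FamDodd_link (n : ℕ) (s t : K) (i j : Fin (2 * n))
    (h : posF n i.val + 1 = posF n j.val) :
    FamDodd_M K n s t i j = X ^ od (parF n) i j * C t := by
  unfold FamDodd_M Mp
  rw [Matrix.add_apply, Matrix.smul_apply, Matrix.smul_apply]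
  unfold NdnF NupF
  rw [if_neg (by omega), if_pos h, smul_zero, zero_add, smul_eq_mul, mul_one]

theorem FamDodd_od_one {n : ℕ} (i j : Fin (2 * n)) (h : i.val % 2 ≠ j.val % 2) :
    od (parF n) i j = 1 := by
  unfold od parF
  rw [if_neg]
  rw [decide_eq_decide]
  omega

theorem FamDodd_od_zero {n : ℕ} (i j : Fin (2 * n)) (h : i.val % 2 = j.val % 2) :
    od (parF n) i j = 0 := by
  unfold od parF
  rw [if_pos]
  rw [decide_eq_decide]
  omega

omit [CharZero K] in
/-- the paths before the fork -/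
theorem FamDodd_path1 (n : ℕ) (s t : K) (m : ℕ) (h0 : 0 < 2 * n) (hm : m < n) :
    (FamDodd_M K n s t ^ m) ⟨0, h0⟩ ⟨m, by omega⟩ = X ^ m * C (t ^ m) := by
  induction m with
  | zero => rw [pow_zero, Matrix.one_apply_eq, pow_zero, pow_zero, C_1, mul_one]
  | succ m ih =>
    have hp : posF n m = m := by
      unfold posF
      rw [if_pos (by omega)]
    have hp1 : posF n (m + 1) = m + 1 := by
      unfold posF
      rw [if_pos (by omega)]
    have hp0 : posF n 0 = 0 := by
      unfold posF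
      rw [if_pos (by omega)]
    rw [band_step (fun i : Fin (2 * n) => posF n i.val) (FamDodd_band n s t) m _ _ (by
      show posF n (m + 1) = posF n 0 + (m + 1)
      omega)]
    rw [Finset.sum_eq_single (⟨m, by omega⟩ : Fin (2 * n))]
    · rw [ih (by omega), FamDodd_link n s t _ _ (by
        show posF n m + 1 = posF n (m + 1)
        omega), FamDodd_od_one _ _ (by
        show m % 2 ≠ (m + 1) % 2
        omega), pow_one, pow_succ X, pow_succ t, C_mul]
      ring
    · intro l hl hne
      rw [Finset.mem_filter] at hl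
      have h3 : posF n l.val = posF n 0 + m := hl.2
      exfalso
      apply hne
      apply Fin.ext
      show l.val = m
      unfold posF at h3
      split_ifs at h3 <;> omega
    · intro hcon
      refine absurd ?_ hcon
      rw [Finset.mem_filter]
      refine ⟨Finset.mem_univ _, ?_⟩
      show posF n m = posF n 0 + m
      omega

omit [CharZero K] in
/-- the path to the second middle index -/
theorem FamDodd_path2 (n : ℕ) (s t : K) (h0 : 0 < 2 * n) (hn : 2 ≤ n) :
    (FamDodd_M K n s t ^ (n - 1)) ⟨0, h0⟩ ⟨n, by omega⟩ = X ^ (n - 2) * C (t ^ (n - 1)) := by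
  obtain ⟨m, rfl⟩ : ∃ m, n = m + 2 := ⟨n - 2, by omega⟩
  have hp : posF (m + 2) m = m := by
    unfold posF
    rw [if_pos (by omega)]
  have hp1 : posF (m + 2) (m + 2) = m + 1 := by
    unfold posF
    rw [if_neg (by omega)]
    omega
  have hp0 : posF (m + 2) 0 = 0 := by
    unfold posF
    rw [if_pos (by omega)]
  show (FamDodd_M K (m + 2) s t ^ (m + 1)) _ _ = X ^ m * C (t ^ (m + 1))
  rw [band_step (fun i : Fin (2 * (m + 2)) => posF (m + 2) i.val) (FamDodd_band (m + 2) s t) m _ _
    (by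
      show posF (m + 2) (m + 2) = posF (m + 2) 0 + (m + 1)
      omega)]
  rw [Finset.sum_eq_single (⟨m, by omega⟩ : Fin (2 * (m + 2)))]
  · rw [FamDodd_path1 (m + 2) s t m h0 (by omega), FamDodd_link (m + 2) s t _ _ (by
      show posF (m + 2) m + 1 = posF (m + 2) (m + 2)
      omega), FamDodd_od_zero _ _ (by
      show m % 2 = (m + 2) % 2
      omega), pow_zero, pow_succ t, C_mul]
    ring
  · intro l hl hne
    rw [Finset.mem_filter] at hl
    have h3 : posF (m + 2) l.val = posF (m + 2) 0 + m := hl.2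
    exfalso
    apply hne
    apply Fin.ext
    show l.val = m
    unfold posF at h3
    split_ifs at h3 <;> omega
  · intro hcon
    refine absurd ?_ hcon
    rw [Finset.mem_filter]
    refine ⟨Finset.mem_univ _, ?_⟩
    show posF (m + 2) m = posF (m + 2) 0 + m
    omega

omit [CharZero K] in
/-- the paths after the fork -/
theorem FamDodd_path3 (n : ℕ) (s t : K) (h0 : 0 < 2 * n) (hn : 2 ≤ n) (m : ℕ)
    (hm : n + 1 + m < 2 * n) :
    (FamDodd_M K n s t ^ (n + m)) ⟨0, h0⟩ ⟨n + 1 + m, hm⟩ =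
      2 * (X ^ (n - 1 + m) * C (t ^ (n + m))) := by
  have hp0 : posF n 0 = 0 := by
    unfold posF
    rw [if_pos (by omega)]
  induction m with
  | zero =>
    obtain ⟨a, rfl⟩ : ∃ a, n = a + 2 := ⟨n - 2, by omega⟩
    have hq : posF (a + 2) (a + 2 + 1 + 0) = a + 2 := by
      unfold posF
      rw [if_neg (by omega)]
      omega
    have h1 : posF (a + 2) (a + 1) = a + 1 := by
      unfold posF
      rw [if_pos (by omega)]
    have h2 : posF (a + 2) (a + 2) = a + 1 := by
      unfold posF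
      rw [if_neg (by omega)]
      omega
    show (FamDodd_M K (a + 2) s t ^ (a + 1 + 1)) _ _ = _
    rw [band_step (fun i : Fin (2 * (a + 2)) => posF (a + 2) i.val)
      (FamDodd_band (a + 2) s t) (a + 1) _ _ (by
        show posF (a + 2) (a + 2 + 1 + 0) = posF (a + 2) 0 + (a + 1 + 1)
        omega)]
    have hset : (Finset.univ.filter fun l : Fin (2 * (a + 2)) =>
        posF (a + 2) l.val = posF (a + 2) (⟨0, h0⟩ : Fin (2 * (a + 2))).val + (a + 1)) =
        {⟨a + 1, by omega⟩, ⟨a + 2, by omega⟩} := by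
      ext l
      rw [Finset.mem_filter, Finset.mem_insert, Finset.mem_singleton, Fin.ext_iff, Fin.ext_iff]
      show (l ∈ Finset.univ ∧ posF (a + 2) l.val = posF (a + 2) 0 + (a + 1)) ↔
        (l.val = a + 1 ∨ l.val = a + 2)
      have hl := l.isLt
      rw [hp0]
      constructor
      · rintro ⟨_, h3⟩
        unfold posF at h3
        split_ifs at h3 <;> omega
      · intro h3
        refine ⟨Finset.mem_univ _, ?_⟩
        unfold posF
        split_ifs <;> omega
    rw [hset, Finset.sum_pair (by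
      intro h
      have := congrArg Fin.val h
      simp only at this
      omega)]
    have e1 := FamDodd_path1 (a + 2) s t (a + 1) h0 (by omega)
    have e2 : (FamDodd_M K (a + 2) s t ^ (a + 1)) ⟨0, h0⟩ ⟨a + 2, by omega⟩ =
        X ^ a * C (t ^ (a + 1)) := FamDodd_path2 (a + 2) s t h0 (by omega)
    rw [e1, e2, FamDodd_link (a + 2) s t _ _ (by
        show posF (a + 2) (a + 1) + 1 = posF (a + 2) (a + 2 + 1 + 0)
        omega), FamDodd_link (a + 2) s t _ _ (by
        show posF (a + 2) (a + 2) + 1 = posF (a + 2) (a + 2 + 1 + 0)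
        omega), FamDodd_od_zero _ _ (by
        show (a + 1) % 2 = (a + 2 + 1 + 0) % 2
        omega), FamDodd_od_one _ _ (by
        show (a + 2) % 2 ≠ (a + 2 + 1 + 0) % 2
        omega), pow_zero, pow_one]
    show _ = 2 * (X ^ (a + 1) * C (t ^ (a + 1 + 1)))
    rw [pow_succ t (a + 1), C_mul, pow_succ X a]
    ring
  | succ m ih =>
    have hq : posF n (n + 1 + (m + 1)) = n + m + 1 := by
      unfold posF
      rw [if_neg (by omega)]
      omega
    have hq2 : posF n (n + 1 + m) = n + m := by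
      unfold posF
      rw [if_neg (by omega)]
      omega
    show (FamDodd_M K n s t ^ (n + m + 1)) _ _ = _
    rw [band_step (fun i : Fin (2 * n) => posF n i.val) (FamDodd_band n s t) (n + m) _ _ (by
      show posF n (n + 1 + (m + 1)) = posF n 0 + (n + m + 1)
      omega)]
    rw [Finset.sum_eq_single (⟨n + 1 + m, by omega⟩ : Fin (2 * n))]
    · rw [ih (by omega), FamDodd_link n s t _ _ (by
        show posF n (n + 1 + m) + 1 = posF n (n + 1 + (m + 1))
        omega), FamDodd_od_one _ _ (by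
        show (n + 1 + m) % 2 ≠ (n + 1 + (m + 1)) % 2
        omega), pow_one]
      have h5 : n - 1 + (m + 1) = n - 1 + m + 1 := by omega
      have h6 : n + (m + 1) = n + m + 1 := by omega
      rw [h5, h6, pow_succ X, pow_succ t, C_mul]
      ring
    · intro l hl hne
      rw [Finset.mem_filter] at hl
      have h3 : posF n l.val = posF n 0 + (n + m) := hl.2
      exfalso
      apply hne
      apply Fin.ext
      show l.val = n + 1 + m
      unfold posF at h3
      split_ifs at h3 <;> omega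
    · intro hcon
      refine absurd ?_ hcon
      rw [Finset.mem_filter]
      refine ⟨Finset.mem_univ _, ?_⟩
      show posF n (n + 1 + m) = posF n 0 + (n + m)
      omega

/-! ## the test matrices -/

/-- the test matrix with the entries `1` at `(a, b)` and `c` at `(b', a')` -/
def FamDodd_Y (K : Type*) [Field K] {n : ℕ} (a b : Fin (2 * n)) (c : K) :
    Matrix (Fin (2 * n)) (Fin (2 * n)) K :=
  Matrix.single a b 1 + Matrix.single (Fin.rev b) (Fin.rev a) c

omit [CharZero K] in
theorem FamDodd_Y_skew {n : ℕ} (a b : Fin (2 * n)) {c : K} (hc : c * c = 1)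
    (hj : FamDodd_j K n a * FamDodd_j K n b = -c) (i j : Fin (2 * n)) :
    FamDodd_Y K a b c i j =
      -(FamDodd_j K n i * FamDodd_j K n j * FamDodd_Y K a b c (Fin.rev j) (Fin.rev i)) := by
  unfold FamDodd_Y
  rw [Matrix.add_apply, Matrix.add_apply, Matrix.single_apply, Matrix.single_apply,
    Matrix.single_apply, Matrix.single_apply]
  have e1 : (a = Fin.rev j ∧ b = Fin.rev i) = (Fin.rev b = i ∧ Fin.rev a = j) := by
    apply propext
    constructor
    · rintro ⟨rfl, rfl⟩
      exact ⟨Fin.rev_rev i, Fin.rev_rev j⟩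
    · rintro ⟨rfl, rfl⟩
      exact ⟨(Fin.rev_rev a).symm, (Fin.rev_rev b).symm⟩
  have e2 : (Fin.rev b = Fin.rev j ∧ Fin.rev a = Fin.rev i) = (a = i ∧ b = j) := by
    apply propext
    rw [Fin.rev_inj, Fin.rev_inj]
    exact and_comm
  simp only [e1, e2]
  by_cases h1 : a = i ∧ b = j
  · obtain ⟨rfl, rfl⟩ := h1
    rw [hj]
    simp only [and_self, if_true]
    by_cases h2 : Fin.rev b = a ∧ Fin.rev a = b
    · rw [if_pos h2, if_pos h2]
      linear_combination (-1 : K) * hc
    · rw [if_neg h2, if_neg h2, add_zero, zero_add]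
      linear_combination (-1 : K) * hc
  · rw [if_neg h1]
    by_cases h2 : Fin.rev b = i ∧ Fin.rev a = j
    · rw [if_pos h2, if_pos h2, if_neg h1, zero_add, add_zero, ← h2.1, ← h2.2, FamDodd_j_rev,
        FamDodd_j_rev, mul_comm (FamDodd_j K n b), hj]
      ring
    · rw [if_neg h2, if_neg h2, if_neg h1, add_zero, mul_zero, neg_zero]

theorem FamDodd_trace_single {n : Type*} [Fintype n] [DecidableEq n] {R : Type*} [CommRing R]
    (M : Matrix n n R) (i j : n) (c : R) : (M * Matrix.single i j c).trace = M j i * c := by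
  rw [Matrix.trace_mul_single]
  simp [mul_comm]

omit [CharZero K] in
theorem FamDodd_MpY {n : ℕ} (a b : Fin (2 * n)) (c : K) :
    Mp (parF n) (FamDodd_Y K a b c) = Matrix.single a b (X ^ od (parF n) a b : K[X]) +
      Matrix.single (Fin.rev b) (Fin.rev a) (X ^ od (parF n) a b * C c : K[X]) := by
  ext1 i j
  unfold Mp FamDodd_Y
  rw [Matrix.add_apply, Matrix.add_apply, Matrix.single_apply, Matrix.single_apply,
    Matrix.single_apply, Matrix.single_apply, C_add, mul_add]
  congr 1
  · split_ifs with h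
    · rw [h.1, h.2, C_1, mul_one]
    · rw [C_0, mul_zero]
  · split_ifs with h
    · rw [← h.1, ← h.2, FamDodd_od_rev]
    · rw [C_0, mul_zero]

omit [CharZero K] in
theorem FamDodd_trace (n : ℕ) (s t : K) (m : ℕ) (a b : Fin (2 * n)) (c : K) :
    (FamDodd_M K n s t ^ m * Mp (parF n) (FamDodd_Y K a b c)).trace =
      X ^ od (parF n) a b * ((FamDodd_M K n s t ^ m) b a) * (1 + C c) := by
  rw [FamDodd_MpY, Matrix.mul_add, Matrix.trace_add, FamDodd_trace_single, FamDodd_trace_single,
    FamDodd_pow_rev]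
  ring

/-- the column of the test matrix of degree `m` -/
def FamDodd_c (n m : ℕ) : ℕ := if m ≤ n then m - 1 else m

theorem FamDodd_c_pos {n m : ℕ} (hn : Odd n) (hm : Even m) (h1 : 1 ≤ m) :
    posF n (FamDodd_c n m) = m - 1 := by
  obtain ⟨a, ha⟩ := hn
  obtain ⟨b, hb⟩ := hm
  unfold posF FamDodd_c
  split_ifs <;> omega

/-- the tests of the traces, `t ≠ 0` -/
theorem FamDodd_test {n m : ℕ} (hn : Odd n) (hm : Even m) (h1 : 1 ≤ m) (h2 : m < 2 * n)
    (s : K) {t : K} (ht : t ≠ 0) (h0 : 0 < 2 * n) (hc : FamDodd_c n m < 2 * n) :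
    (∀ j, j + 1 < m → (FamDodd_M K n s t ^ j *
      Mp (parF n) (FamDodd_Y K ⟨FamDodd_c n m, hc⟩ ⟨0, h0⟩ 1)).trace = 0) ∧
    ((FamDodd_M K n s t ^ (m - 1) *
      Mp (parF n) (FamDodd_Y K ⟨FamDodd_c n m, hc⟩ ⟨0, h0⟩ 1)).trace).coeff (bF n m) ≠ 0 := by
  have hpos := FamDodd_c_pos hn hm h1
  have hp0 : posF n 0 = 0 := by
    unfold posF
    rw [if_pos (by omega)]
  obtain ⟨a, ha⟩ := hn
  obtain ⟨b, hb⟩ := hm
  constructor
  · intro j hj
    rw [FamDodd_trace, FamDodd_zero n s t j _ _ (by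
      show posF n 0 + j < posF n (FamDodd_c n m)
      omega), mul_zero, zero_mul]
  · rw [FamDodd_trace]
    by_cases hmn : m ≤ n
    · have hcm : FamDodd_c n m = m - 1 := if_pos hmn
      have hb : bF n m = m := if_pos hmn
      have e1 : (⟨FamDodd_c n m, hc⟩ : Fin (2 * n)) = ⟨m - 1, by omega⟩ := Fin.ext hcm
      rw [e1, FamDodd_path1 n s t (m - 1) h0 (by omega), FamDodd_od_one _ _ (by
        show (m - 1) % 2 ≠ 0 % 2
        omega), hb, C_1]
      have e2 : (X ^ 1 * (X ^ (m - 1) * C (t ^ (m - 1))) * (1 + 1) : K[X]) =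
          C (2 * t ^ (m - 1)) * X ^ m := by
        obtain ⟨m', rfl⟩ : ∃ m', m = m' + 1 := ⟨m - 1, by omega⟩
        rw [Nat.add_sub_cancel, C_mul, pow_succ X m', pow_one]
        have : (C 2 : K[X]) = 2 := rfl
        rw [this]
        ring
      rw [e2, coeff_C_mul, coeff_X_pow, if_pos rfl, mul_one]
      exact mul_ne_zero two_ne_zero (pow_ne_zero _ ht)
    · have hcm : FamDodd_c n m = m := if_neg hmn
      have hb : bF n m = m - 2 := if_neg hmn
      obtain ⟨m', rfl⟩ : ∃ m', m = n + 1 + m' := ⟨m - (n + 1), by omega⟩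
      have e1 : (⟨FamDodd_c n (n + 1 + m'), hc⟩ : Fin (2 * n)) = ⟨n + 1 + m', by omega⟩ :=
        Fin.ext hcm
      have e3 : n + 1 + m' - 1 = n + m' := by omega
      rw [e1, e3, FamDodd_path3 n s t h0 (by omega) m' (by omega), FamDodd_od_zero _ _ (by
        show (n + 1 + m') % 2 = 0 % 2
        omega), hb, C_1]
      have e2 : (X ^ 0 * (2 * (X ^ (n - 1 + m') * C (t ^ (n + m')))) * (1 + 1) : K[X]) =
          C (4 * t ^ (n + m')) * X ^ (n - 1 + m') := by
        rw [C_mul]
        have : (C 4 : K[X]) = 4 := rfl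
        rw [this]
        ring
      have e4 : n + 1 + m' - 2 = n - 1 + m' := by omega
      rw [e2, e4, coeff_C_mul, coeff_X_pow, if_pos rfl, mul_one]
      exact mul_ne_zero (by norm_num) (pow_ne_zero _ ht)

/-! ## the Pfaffian -/

/-- a Pfaffian vanishes if the matrix is bipartite with unequal classes -/
theorem FamDodd_pf_zero {P : Type} [Fintype P] [DecidableEq P] {ν : Type*} [Fintype ν]
    [DecidableEq ν] (e : P × Fin 2 ≃ ν) {R : Type*} [CommRing R] (A : Matrix ν ν R) (w : ν → ℤ)
    (h : ∀ i j, A i j ≠ 0 → w i + w j = 0) (hw : ∑ i, w i ≠ 0) : pfn e A = 0 := by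
  unfold pfn
  refine Finset.sum_eq_zero fun σ _ => ?_
  by_cases hz : ∀ p : P, A (σ (e (p, 0))) (σ (e (p, 1))) ≠ 0
  · exfalso
    apply hw
    rw [← Equiv.sum_comp (e.trans σ), Fintype.sum_prod_type]
    refine Finset.sum_eq_zero fun p _ => ?_
    rw [Fin.sum_univ_two]
    exact h _ _ (hz p)
  · push Not at hz
    obtain ⟨p, hp⟩ := hz
    rw [Finset.prod_eq_zero (Finset.mem_univ p) hp, smul_zero]

theorem FamDodd_alt (m : ℕ) : ∑ i ∈ Finset.range (2 * m + 1), (-1 : ℤ) ^ i = 1 := by
  induction m with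
  | zero => simp
  | succ m ih =>
    have h1 : 2 * (m + 1) + 1 = 2 * m + 1 + 1 + 1 := by ring
    rw [h1, Finset.sum_range_succ, Finset.sum_range_succ, ih, pow_succ, pow_succ]
    ring

theorem FamDodd_wsum {n : ℕ} (hn : Odd n) :
    ∑ i : Fin (2 * n), (-1 : ℤ) ^ posF n i.val ≠ 0 := by
  obtain ⟨a, ha⟩ := hn
  rw [Fin.sum_univ_eq_sum_range (fun i => (-1 : ℤ) ^ posF n i), two_mul,
    Finset.sum_range_add]
  have h1 : ∑ x ∈ Finset.range n, (-1 : ℤ) ^ posF n x = 1 := by
    rw [Finset.sum_congr rfl (g := fun x => (-1 : ℤ) ^ x), ha, FamDodd_alt]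
    intro x hx
    rw [Finset.mem_range] at hx
    unfold posF
    rw [if_pos hx]
  have h2 : ∑ x ∈ Finset.range n, (-1 : ℤ) ^ posF n (n + x) = 1 := by
    rw [Finset.sum_congr rfl (g := fun x => (-1 : ℤ) ^ x), ha, FamDodd_alt]
    intro x hx
    unfold posF
    rw [if_neg (by omega), ha]
    have h3 : 2 * a + 1 + x - 1 = 2 * a + x := by omega
    rw [h3, pow_add, pow_mul]
    norm_num
  rw [h1, h2]
  norm_num

omit [CharZero K] in
theorem FamDodd_M_odd (n : ℕ) (s t : K) (i j : Fin (2 * n)) (h : FamDodd_M K n s t i j ≠ 0) :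
    posF n i.val + 1 = posF n j.val ∨ posF n j.val + 1 = posF n i.val := by
  by_contra hcon
  push Not at hcon
  apply h
  unfold FamDodd_M Mp
  rw [Matrix.add_apply, Matrix.smul_apply, Matrix.smul_apply]
  unfold NdnF NupF
  rw [if_neg hcon.2, if_neg hcon.1, smul_zero, smul_zero, add_zero, C_0, mul_zero]

/-- the coefficient of `t ^ 2` of a determinant when only two rows of `Y` are nonzero -/
theorem FamDodd_det2 {ν : Type*} [Fintype ν] [DecidableEq ν] {R : Type*} [CommRing R]
    (M Y : Matrix ν ν R) {i1 i2 : ν} (h12 : i1 ≠ i2)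
    (hY : ∀ i, i ≠ i1 → i ≠ i2 → ∀ j, Y i j = 0) :
    (lineM M Y).det.coeff 2 =
      (Matrix.of fun i j => if i = i1 ∨ i = i2 then Y i j else M i j).det := by
  rw [← Matrix.det_transpose, ← Matrix.det_transpose (Matrix.of _), Matrix.det_apply',
    Matrix.det_apply', finsetSum_coeff]
  refine Finset.sum_congr rfl fun σ _ => ?_
  rw [← Polynomial.C_eq_intCast, Polynomial.coeff_C_mul]
  congr 1
  have hm1 : i1 ∈ (Finset.univ : Finset ν) := Finset.mem_univ _
  have hm2 : i2 ∈ (Finset.univ : Finset ν).erase i1 :=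
    Finset.mem_erase.2 ⟨h12.symm, Finset.mem_univ _⟩
  rw [← Finset.mul_prod_erase _ _ hm1, ← Finset.mul_prod_erase _ _ hm2,
    ← Finset.mul_prod_erase _ _ hm1, ← Finset.mul_prod_erase _ _ hm2]
  have hrest : ∏ x ∈ (Finset.univ.erase i1).erase i2, (lineM M Y).transpose (σ x) x =
      C (∏ x ∈ (Finset.univ.erase i1).erase i2, M x (σ x)) := by
    rw [map_prod]
    refine Finset.prod_congr rfl fun x hx => ?_
    rw [Finset.mem_erase, Finset.mem_erase] at hx
    rw [Matrix.transpose_apply, lineM, Matrix.add_apply, Matrix.smul_apply, Matrix.map_apply,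
      Matrix.map_apply, hY x hx.2.1 hx.1, C_0, smul_zero, add_zero]
  have hrest2 : ∏ x ∈ (Finset.univ.erase i1).erase i2,
      (Matrix.of fun i j => if i = i1 ∨ i = i2 then Y i j else M i j).transpose (σ x) x =
      ∏ x ∈ (Finset.univ.erase i1).erase i2, M x (σ x) := by
    refine Finset.prod_congr rfl fun x hx => ?_
    rw [Finset.mem_erase, Finset.mem_erase] at hx
    rw [Matrix.transpose_apply, Matrix.of_apply, if_neg (by tauto)]
  have hent : ∀ x, (lineM M Y).transpose (σ x) x = C (M x (σ x)) + C (Y x (σ x)) * X := by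
    intro x
    rw [Matrix.transpose_apply, lineM, Matrix.add_apply, Matrix.smul_apply, Matrix.map_apply,
      Matrix.map_apply, smul_eq_mul, mul_comm]
  rw [hrest, hrest2, hent, hent, Matrix.transpose_apply, Matrix.transpose_apply, Matrix.of_apply,
    Matrix.of_apply, if_pos (Or.inl rfl), if_pos (Or.inr rfl)]
  have e1 : (C (M i1 (σ i1)) + C (Y i1 (σ i1)) * X) * ((C (M i2 (σ i2)) + C (Y i2 (σ i2)) * X) *
      C (∏ x ∈ (Finset.univ.erase i1).erase i2, M x (σ x))) =
      C (M i1 (σ i1) * M i2 (σ i2) * ∏ x ∈ (Finset.univ.erase i1).erase i2, M x (σ x)) +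
      C ((M i1 (σ i1) * Y i2 (σ i2) + Y i1 (σ i1) * M i2 (σ i2)) *
        ∏ x ∈ (Finset.univ.erase i1).erase i2, M x (σ x)) * X +
      C (Y i1 (σ i1) * (Y i2 (σ i2) * ∏ x ∈ (Finset.univ.erase i1).erase i2, M x (σ x))) *
        X ^ 2 := by
    simp only [C_mul, C_add]
    ring
  rw [e1, coeff_add, coeff_add, coeff_C_mul_X_pow, if_pos rfl, coeff_C_succ]
  have e2 : ∀ a : R, (C a * X : R[X]).coeff 2 = 0 := by
    intro a
    rw [coeff_C_mul, coeff_X, if_neg (by norm_num), mul_zero]
  rw [e2, zero_add, zero_add]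

/-- a determinant with only one nonzero term -/
theorem FamDodd_unique {ν : Type*} [Fintype ν] [DecidableEq ν] {R : Type*} [CommRing R]
    (M : Matrix ν ν R) (c : Equiv.Perm ν)
    (h : ∀ τ : Equiv.Perm ν, (∀ i, M i (τ i) ≠ 0) → τ = c) :
    M.det = (Equiv.Perm.sign c : ℤ) * ∏ i, M i (c i) := by
  rw [← Matrix.det_transpose, Matrix.det_apply', Finset.sum_eq_single c]
  · rfl
  · intro τ _ hτ
    have h1 : ¬ ∀ i, M i (τ i) ≠ 0 := fun h2 => hτ (h τ h2)
    push Not at h1
    obtain ⟨i, hi⟩ := h1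
    rw [Finset.prod_eq_zero (Finset.mem_univ i) hi, mul_zero]
  · intro h1
    exact absurd (Finset.mem_univ _) h1

/-- the cyclic permutation of the columns -/
def FamDodd_cf (n : ℕ) (hn : 0 < n) (i : Fin (2 * n)) : Fin (2 * n) :=
  if i.val = n - 1 then ⟨0, by omega⟩ else if h : i.val = 2 * n - 1 then ⟨n, by omega⟩ else
    ⟨i.val + 1, by omega⟩

theorem FamDodd_cf_val {n : ℕ} (hn : 0 < n) (i : Fin (2 * n)) : (FamDodd_cf n hn i).val =
    if i.val = n - 1 then 0 else if i.val = 2 * n - 1 then n else i.val + 1 := by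
  unfold FamDodd_cf
  split_ifs <;> rfl

theorem FamDodd_cf_inj {n : ℕ} (hn : 0 < n) : Function.Injective (FamDodd_cf n hn) := by
  intro i j hij
  have h := congrArg Fin.val hij
  rw [FamDodd_cf_val, FamDodd_cf_val] at h
  have hi := i.isLt
  have hj := j.isLt
  apply Fin.ext
  split_ifs at h <;> omega

/-- the permutation -/
noncomputable def FamDodd_cp (n : ℕ) (hn : 0 < n) : Equiv.Perm (Fin (2 * n)) :=
  Equiv.ofBijective (FamDodd_cf n hn) (Finite.injective_iff_bijective.1 (FamDodd_cf_inj hn))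

theorem FamDodd_cp_apply {n : ℕ} (hn : 0 < n) (i : Fin (2 * n)) :
    FamDodd_cp n hn i = FamDodd_cf n hn i := rfl

omit [CharZero K] in
theorem FamDodd_Y0_entry {n : ℕ} (hn : Odd n) (hn0 : 0 < n) (i j : Fin (2 * n)) :
    Mp (parF n) (FamDodd_Y K ⟨n - 1, by omega⟩ ⟨0, by omega⟩ (-1)) i j =
      if i.val = n - 1 ∧ j.val = 0 then 1 else if i.val = 2 * n - 1 ∧ j.val = n then -1
        else 0 := by
  obtain ⟨a, ha⟩ := hn
  have h1 : (Fin.rev (⟨0, by omega⟩ : Fin (2 * n))).val = 2 * n - 1 := by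
    rw [Fin.val_rev]
  have h2 : (Fin.rev (⟨n - 1, by omega⟩ : Fin (2 * n))).val = n := by
    rw [Fin.val_rev]
    show 2 * n - (n - 1 + 1) = n
    omega
  rw [FamDodd_MpY, FamDodd_od_zero _ _ (by
    show (n - 1) % 2 = 0 % 2
    omega), pow_zero, one_mul, Matrix.add_apply, Matrix.single_apply, Matrix.single_apply]
  simp only [Fin.ext_iff, h1, h2]
  by_cases h3 : i.val = n - 1 ∧ j.val = 0
  · rw [if_pos h3, if_pos ⟨h3.1.symm, h3.2.symm⟩, if_neg (by omega), add_zero]
  · rw [if_neg h3, if_neg (fun h => h3 ⟨h.1.symm, h.2.symm⟩), zero_add]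
    by_cases h4 : i.val = 2 * n - 1 ∧ j.val = n
    · rw [if_pos h4, if_pos ⟨h4.1.symm, h4.2.symm⟩, map_neg, C_1]
    · rw [if_neg h4, if_neg (fun h => h4 ⟨h.1.symm, h.2.symm⟩)]

omit [CharZero K] in
theorem FamDodd_det {n : ℕ} (hn : Odd n) (hn0 : 0 < n) (s : K) {t : K} (ht : t ≠ 0) :
    ∃ c : K, c ≠ 0 ∧ (lineM (FamDodd_M K n s t)
      (Mp (parF n) (FamDodd_Y K ⟨n - 1, by omega⟩ ⟨0, by omega⟩ (-1)))).det.coeff 2 =
        C c * X ^ (2 * n - 2) := by
  set Y := Mp (parF n) (FamDodd_Y K ⟨n - 1, by omega⟩ ⟨0, by omega⟩ (-1)) with hYdef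
  have hYe : ∀ i j, Y i j = if i.val = n - 1 ∧ j.val = 0 then 1 else
      if i.val = 2 * n - 1 ∧ j.val = n then -1 else 0 := FamDodd_Y0_entry hn hn0
  set i1 : Fin (2 * n) := ⟨n - 1, by omega⟩ with hi1
  set i2 : Fin (2 * n) := ⟨2 * n - 1, by omega⟩ with hi2
  have h12 : i1 ≠ i2 := by
    intro h
    have := congrArg Fin.val h
    simp only [hi1, hi2] at this
    omega
  have hv1 : i1.val = n - 1 := rfl
  have hv2 : i2.val = 2 * n - 1 := rfl
  rw [FamDodd_det2 _ _ h12 (by
    intro i hi hi' j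
    have h3 : i.val ≠ n - 1 := fun h => hi (Fin.ext h)
    have h4 : i.val ≠ 2 * n - 1 := fun h => hi' (Fin.ext h)
    rw [hYe, if_neg (by omega), if_neg (by omega)])]
  set D : Matrix (Fin (2 * n)) (Fin (2 * n)) K[X] :=
    Matrix.of fun i j => if i = i1 ∨ i = i2 then Y i j else FamDodd_M K n s t i j with hD
  have hD1 : ∀ j, D i1 j ≠ 0 → j.val = 0 := by
    intro j hj
    by_contra hcon
    apply hj
    rw [hD, Matrix.of_apply, if_pos (Or.inl rfl), hYe, hv1, if_neg (by omega),
      if_neg (by omega)]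
  have hD2 : ∀ j, D i2 j ≠ 0 → j.val = n := by
    intro j hj
    by_contra hcon
    apply hj
    rw [hD, Matrix.of_apply, if_pos (Or.inr rfl), hYe, hv2, if_neg (by omega),
      if_neg (by omega)]
  have hD3 : ∀ i j, i ≠ i1 → i ≠ i2 → D i j = FamDodd_M K n s t i j := by
    intro i j hi hi'
    rw [hD, Matrix.of_apply, if_neg (by tauto)]
  have hun : ∀ τ : Equiv.Perm (Fin (2 * n)), (∀ i, D i (τ i) ≠ 0) →
      τ = FamDodd_cp n hn0 := by
    intro τ hτ
    have e1 := hD1 _ (hτ i1)
    have e2 := hD2 _ (hτ i2)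
    have key : ∀ m : ℕ, ∀ i : Fin (2 * n), i.val = m → i ≠ i1 → i ≠ i2 →
        (τ i).val = i.val + 1 := by
      intro m
      induction m using Nat.strong_induction_on with
      | _ m ih =>
        intro i him hi hi'
        have h3 := hτ i
        rw [hD3 _ _ hi hi'] at h3
        have h4 := FamDodd_M_odd n s t _ _ h3
        have hv0 : (τ i).val ≠ 0 := by
          intro h
          have h5 : τ i = τ i1 := Fin.ext (by rw [h, e1])
          exact hi (τ.injective h5)
        have hvn : (τ i).val ≠ n := by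
          intro h
          have h5 : τ i = τ i2 := Fin.ext (by rw [h, e2])
          exact hi' (τ.injective h5)
        have hlt := (τ i).isLt
        have hge : i.val + 1 ≤ (τ i).val := by
          by_contra hcon
          have hj : (τ i).val - 1 < 2 * n := by omega
          have h6 := ih ((τ i).val - 1) (by omega) ⟨(τ i).val - 1, hj⟩ rfl
            (fun h => by
              have := congrArg Fin.val h
              simp only [hv1] at this
              omega)
            (fun h => by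
              have := congrArg Fin.val h
              simp only [hv2] at this
              omega)
          have h7 : τ ⟨(τ i).val - 1, hj⟩ = τ i := Fin.ext (by
            rw [h6]
            show (τ i).val - 1 + 1 = (τ i).val
            omega)
          have h8 := congrArg Fin.val (τ.injective h7)
          simp only at h8
          omega
        have hne1 : i.val ≠ n - 1 := fun h => hi (Fin.ext h)
        unfold posF at h4
        split_ifs at h4 <;> omega
    ext i
    rw [FamDodd_cp_apply, FamDodd_cf_val]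
    by_cases h5 : i = i1
    · rw [h5, e1, if_pos hv1]
    · by_cases h6 : i = i2
      · rw [h6, e2, if_neg (by omega), if_pos hv2]
      · have hne1 : i.val ≠ n - 1 := fun h => h5 (Fin.ext h)
        have hne2 : i.val ≠ 2 * n - 1 := fun h => h6 (Fin.ext h)
        rw [key i.val i rfl h5 h6, if_neg hne1, if_neg hne2]
  rw [FamDodd_unique D _ hun]
  have hm1 : i1 ∈ (Finset.univ : Finset (Fin (2 * n))) := Finset.mem_univ _
  have hm2 : i2 ∈ (Finset.univ : Finset (Fin (2 * n))).erase i1 :=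
    Finset.mem_erase.2 ⟨h12.symm, Finset.mem_univ _⟩
  rw [← Finset.mul_prod_erase _ _ hm1, ← Finset.mul_prod_erase _ _ hm2]
  have hrest : ∏ x ∈ (Finset.univ.erase i1).erase i2, D x (FamDodd_cp n hn0 x) =
      (X * C t) ^ (2 * n - 2) := by
    rw [Finset.prod_congr rfl (g := fun _ => (X * C t : K[X])), Finset.prod_const,
      Finset.card_erase_of_mem hm2, Finset.card_erase_of_mem hm1, Finset.card_univ,
      Fintype.card_fin]
    · rfl
    · intro x hx
      rw [Finset.mem_erase, Finset.mem_erase] at hx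
      have hne1 : x.val ≠ n - 1 := fun h => hx.2.1 (Fin.ext h)
      have hne2 : x.val ≠ 2 * n - 1 := fun h => hx.1 (Fin.ext h)
      have hv : (FamDodd_cp n hn0 x).val = x.val + 1 := by
        rw [FamDodd_cp_apply, FamDodd_cf_val, if_neg hne1, if_neg hne2]
      rw [hD3 _ _ hx.2.1 hx.1, FamDodd_link n s t _ _ (by
        rw [hv]
        unfold posF
        split_ifs <;> omega), FamDodd_od_one _ _ (by rw [hv]; omega), pow_one]
  have hc1 : D i1 (FamDodd_cp n hn0 i1) = 1 := by
    have hv : (FamDodd_cp n hn0 i1).val = 0 := by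
      rw [FamDodd_cp_apply, FamDodd_cf_val, if_pos hv1]
    rw [hD, Matrix.of_apply, if_pos (Or.inl rfl), hYe, if_pos ⟨hv1, hv⟩]
  have hc2 : D i2 (FamDodd_cp n hn0 i2) = -1 := by
    have hv : (FamDodd_cp n hn0 i2).val = n := by
      rw [FamDodd_cp_apply, FamDodd_cf_val, if_neg (by omega), if_pos hv2]
    rw [hD, Matrix.of_apply, if_pos (Or.inr rfl), hYe, if_neg (by omega), if_pos ⟨hv2, hv⟩]
  rw [hrest, hc1, hc2]
  refine ⟨((Equiv.Perm.sign (FamDodd_cp n hn0) : ℤ) : K) * (-(t ^ (2 * n - 2))), ?_, ?_⟩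
  · refine mul_ne_zero ?_ (neg_ne_zero.2 (pow_ne_zero _ ht))
    rcases Int.units_eq_one_or (Equiv.Perm.sign (FamDodd_cp n hn0)) with h | h
    · rw [h]
      simp
    · rw [h]
      simp
  · rw [C_mul, map_neg, C_pow, mul_pow, ← Polynomial.C_eq_intCast]
    ring

/-! ## the Lie algebra -/

section chain

variable {n : ℕ} {r : Rz K (Fin (2 * n)) θ} (hJ : r.IsJ (JF K n) 1) (hp : r.IsPar (parF n))
  (pr : Fin n × Fin 2 ≃ Fin (2 * n))

include hJ in
theorem FamDodd_Jskew (a : g) : ((JF K n).map (C : K →+* K[X]) * r.M a).transpose =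
    -((JF K n).map (C : K →+* K[X]) * r.M a) := by
  have h1 : ∀ x : g, (JF K n * r.ρ x).transpose = -(JF K n * r.ρ x) := by
    intro x
    rw [Matrix.transpose_mul, JF_transpose, hJ.skew]
  have h2 : (JF K n).map (C : K →+* K[X]) * r.M a =
      (JF K n * r.ρ (even θ a)).map (C : K →+* K[X]) +
        (X : K[X]) • (JF K n * r.ρ (oddc θ a)).map (C : K →+* K[X]) := by
    rw [Rz.M, Matrix.mul_add, Matrix.mul_smul, Matrix.map_mul, Matrix.map_mul]
  rw [h2, Matrix.transpose_add, Matrix.transpose_smul, ← Matrix.transpose_map,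
    ← Matrix.transpose_map, h1, h1, neg_add, ← smul_neg]
  congr 1
  · ext1 i j
    rw [Matrix.map_apply, Matrix.neg_apply, Matrix.neg_apply, Matrix.map_apply, map_neg]
  · congr 1
    ext1 i j
    rw [Matrix.map_apply, Matrix.neg_apply, Matrix.neg_apply, Matrix.map_apply, map_neg]

omit [CharZero K] in
theorem FamDodd_mulline (M M' : Matrix (Fin (2 * n)) (Fin (2 * n)) K[X]) :
    (JF K n).map ((C : K[X] →+* K[X][X]).comp (C : K →+* K[X])) * lineM M M' =
      lineM ((JF K n).map (C : K →+* K[X]) * M) ((JF K n).map (C : K →+* K[X]) * M') := by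
  have h1 : (JF K n).map ((C : K[X] →+* K[X][X]).comp (C : K →+* K[X])) =
      ((JF K n).map (C : K →+* K[X])).map (C : K[X] →+* K[X][X]) := by
    ext1 i j
    rfl
  rw [h1, lineM, lineM, Matrix.mul_add, Matrix.mul_smul, Matrix.map_mul, Matrix.map_mul]

omit [CharZero K] in
/-- the Pfaffian vanishes along the directions which change the parity of the position -/
theorem FamDodd_pf_line (hn : Odd n) (s t : K) (Y : Matrix (Fin (2 * n)) (Fin (2 * n)) K[X])
    (hY : ∀ i j, Y i j ≠ 0 → (posF n i.val + posF n j.val) % 2 = 1) :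
    pfn pr ((JF K n).map ((C : K[X] →+* K[X][X]).comp (C : K →+* K[X])) *
      lineM (FamDodd_M K n s t) Y) = 0 := by
  refine FamDodd_pf_zero pr _ (fun i => (-1 : ℤ) ^ posF n i.val) ?_ (FamDodd_wsum hn)
  intro i j hij
  rw [FamDodd_JF_mul] at hij
  have h1 : lineM (FamDodd_M K n s t) Y (Fin.rev i) j ≠ 0 := right_ne_zero_of_mul hij
  have h2 : (posF n (Fin.rev i).val + posF n j.val) % 2 = 1 := by
    by_cases h3 : FamDodd_M K n s t (Fin.rev i) j = 0
    · refine hY _ _ fun h4 => h1 ?_
      rw [lineM, Matrix.add_apply, Matrix.smul_apply, Matrix.map_apply, Matrix.map_apply, h3, h4,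
        C_0, smul_zero, add_zero]
    · have h4 := FamDodd_M_odd n s t _ _ h3
      omega
  have h3 := FamDodd_pos_rev i
  have hn2 : 0 < n := hn.pos
  have h4 : (posF n i.val + posF n j.val) % 2 = 1 := by omega
  have h5 : (-1 : ℤ) ^ (posF n i.val + posF n j.val) = -1 :=
    Odd.neg_one_pow (Nat.odd_iff.2 h4)
  have h6 : ((-1 : ℤ) ^ posF n i.val) * (-1) ^ posF n i.val = 1 := by
    rw [← mul_pow, neg_one_mul, neg_neg, one_pow]
  rw [pow_add] at h5
  show (-1 : ℤ) ^ posF n i.val + (-1) ^ posF n j.val = 0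
  linear_combination ((-1 : ℤ) ^ posF n i.val) * h5 - (-1 : ℤ) ^ posF n j.val * h6

omit [CharZero K] in
theorem FamDodd_trT (s t : K) (j : ℕ) (A : Matrix (Fin (2 * n)) (Fin (2 * n)) K) :
    (FamDodd_M K n s t ^ j * Mp (parF n) A.transpose).trace =
      (FamDodd_M K n t s ^ j * Mp (parF n) A).trace := by
  have h1 : Mp (parF n) A.transpose = (Mp (parF n) A).transpose := by
    ext1 a b
    rw [Matrix.transpose_apply]
    unfold Mp
    rw [FamDodd_od_comm, Matrix.transpose_apply]
  rw [h1, ← Matrix.trace_transpose, Matrix.transpose_mul, Matrix.transpose_transpose,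
    Matrix.transpose_pow, FamDodd_M_transpose, Matrix.trace_mul_comm]

omit [CharZero K] in
theorem FamDodd_MpT (A : Matrix (Fin (2 * n)) (Fin (2 * n)) K) :
    Mp (parF n) A.transpose = (Mp (parF n) A).transpose := by
  ext1 a b
  rw [Matrix.transpose_apply]
  unfold Mp
  rw [FamDodd_od_comm, Matrix.transpose_apply]

omit [CharZero K] in
theorem FamDodd_detT (s t : K) (Y : Matrix (Fin (2 * n)) (Fin (2 * n)) K[X]) :
    (lineM (FamDodd_M K n s t) Y.transpose).det = (lineM (FamDodd_M K n t s) Y).det := by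
  rw [← Matrix.det_transpose]
  congr 1
  rw [lineM, lineM, Matrix.transpose_add, Matrix.transpose_smul, ← Matrix.transpose_map,
    ← Matrix.transpose_map, Matrix.transpose_transpose, FamDodd_M_transpose]

omit [CharZero K] in
/-- a square which is a monomial -/
theorem FamDodd_sq {P : K[X]} {c : K} (hc : c ≠ 0) {m : ℕ} (h : P ^ 2 = C c * X ^ (2 * m)) :
    P.coeff m ≠ 0 := by
  have hP : P ≠ 0 := by
    rintro rfl
    rw [zero_pow two_ne_zero] at h
    exact mul_ne_zero (C_ne_zero.2 hc) (pow_ne_zero _ X_ne_zero) h.symm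
  have h1 := congrArg natDegree h
  rw [natDegree_pow, natDegree_C_mul_X_pow _ _ hc] at h1
  have h2 : P.natDegree = m := by omega
  rw [← h2]
  exact leadingCoeff_ne_zero.2 hP

include hJ in
/-- the square of the derivative of the Pfaffian -/
theorem FamDodd_pf_sq (hn : Odd n) (s t : K) {a a' : g}
    (ha : r.M a = FamDodd_M K n s t) {c : K} (hc : c ≠ 0) {m : ℕ}
    (hd : (lineM (FamDodd_M K n s t) (r.M a')).det.coeff 2 = C c * X ^ (2 * m)) :
    ((pfn pr ((JF K n).map ((C : K[X] →+* K[X][X]).comp (C : K →+* K[X])) *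
      lineM (r.M a) (r.M a'))).coeff 1).coeff m ≠ 0 := by
  obtain ⟨N, hN, h⟩ := pfn_deriv_sq.{_} pr
  have h1 := h K[X] ((JF K n).map (C : K →+* K[X]) * r.M a)
    ((JF K n).map (C : K →+* K[X]) * r.M a') (FamDodd_Jskew hJ a) (FamDodd_Jskew hJ a') (by
      rw [ha]
      refine FamDodd_pf_zero pr _ (fun i => (-1 : ℤ) ^ posF n i.val) ?_ (FamDodd_wsum hn)
      intro i j hij
      rw [FamDodd_JF_mul] at hij
      have h2 := FamDodd_M_odd n s t _ _ (right_ne_zero_of_mul hij)
      have h3 := FamDodd_pos_rev i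
      have hn2 : 0 < n := hn.pos
      have h4 : (posF n i.val + posF n j.val) % 2 = 1 := by omega
      have h5 : (-1 : ℤ) ^ (posF n i.val + posF n j.val) = -1 :=
        Odd.neg_one_pow (Nat.odd_iff.2 h4)
      have h6 : ((-1 : ℤ) ^ posF n i.val) * (-1) ^ posF n i.val = 1 := by
        rw [← mul_pow, neg_one_mul, neg_neg, one_pow]
      rw [pow_add] at h5
      show (-1 : ℤ) ^ posF n i.val + (-1) ^ posF n j.val = 0
      linear_combination ((-1 : ℤ) ^ posF n i.val) * h5 - (-1 : ℤ) ^ posF n j.val * h6)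
  rw [FamDodd_mulline]
  have h2 : (lineM ((JF K n).map (C : K →+* K[X]) * r.M a)
      ((JF K n).map (C : K →+* K[X]) * r.M a')).det.coeff 2 =
      C (JF K n).det * (C c * X ^ (2 * m)) := by
    rw [← FamDodd_mulline, Matrix.det_mul, ← hd, ha]
    have h3 : ((JF K n).map ((C : K[X] →+* K[X][X]).comp (C : K →+* K[X]))).det =
        C (C (JF K n).det) :=
      (RingHom.map_det ((C : K[X] →+* K[X][X]).comp (C : K →+* K[X])) (JF K n)).symm
    rw [h3, coeff_C_mul]
  rw [h2] at h1
  refine FamDodd_sq (c := (N : K) * ((JF K n).det * c))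
    (mul_ne_zero (Nat.cast_ne_zero.2 hN) (mul_ne_zero (JF_det_ne_zero n) hc)) ?_
  rw [h1, C_mul, C_mul, map_natCast]
  ring

include hJ hp

/-- the test elements, `n` odd -/
theorem FamD_tests_odd (hn : Odd n) {p0 q0 : g} (hp0 : r.ρ p0 = NdnF K n)
    (hq0 : r.ρ q0 = NupF K n) {s t : K} (hst : ¬ (s = 0 ∧ t = 0)) :
    (∀ m, Even m → 1 ≤ m → m < 2 * n → ∃ a : g,
      (∀ j, j + 1 < m → (r.M (s • p0 + t • q0) ^ j * r.M a).trace = 0) ∧
      ((r.M (s • p0 + t • q0) ^ (m - 1) * r.M a).trace).coeff (bF n m) ≠ 0 ∧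
      dd (r.pnt e (s • p0 + t • q0)) (r.pnt e a)
        (smap (e : g →ₗ[K] k) ((scS θ (r.PF pr (JF K n))).coeff (n - 1))) = 0) ∧
    ∃ a : g, dd (r.pnt e (s • p0 + t • q0)) (r.pnt e a)
        (smap (e : g →ₗ[K] k) ((scS θ (r.PF pr (JF K n))).coeff (n - 1))) ≠ 0 := by
  have hn0 : 0 < n := hn.pos
  have h00 : 0 < 2 * n := by omega
  have hM : r.M (s • p0 + t • q0) = FamDodd_M K n s t := by
    rw [hp.M_eq, map_add, map_smul, map_smul, hp0, hq0]
    rfl
  have hj0 : FamDodd_j K n ⟨0, h00⟩ = 1 := by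
    rw [FamDodd_j]
    simp
  constructor
  · intro m hm h1 h2
    have hc : FamDodd_c n m < 2 * n := by
      unfold FamDodd_c
      split_ifs <;> omega
    have hjc : FamDodd_j K n ⟨FamDodd_c n m, hc⟩ * FamDodd_j K n ⟨0, h00⟩ = -1 := by
      rw [hj0, mul_one, FamDodd_j]
      apply Odd.neg_one_pow
      obtain ⟨a, ha⟩ := hn
      obtain ⟨b, hb⟩ := hm
      show Odd (min (FamDodd_c n m) (2 * n - 1 - FamDodd_c n m))
      unfold FamDodd_c
      split_ifs with h3
      · rw [min_eq_left (by omega)]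
        exact ⟨b - 1, by omega⟩
      · rw [min_eq_right (by omega)]
        exact ⟨(2 * n - 2 - m) / 2, by omega⟩
    have hsk := FamDodd_Y_skew (K := K) ⟨FamDodd_c n m, hc⟩ ⟨0, h00⟩ (c := 1) (one_mul 1) hjc
    have hpar : ∀ i j : Fin (2 * n), FamDodd_Y K ⟨FamDodd_c n m, hc⟩ ⟨0, h00⟩ 1 i j ≠ 0 →
        (posF n i.val + posF n j.val) % 2 = 1 := by
      intro i j hij
      have hcp := FamDodd_c_pos hn hm h1
      have hp0' : posF n 0 = 0 := by
        unfold posF
        rw [if_pos (by omega)]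
      obtain ⟨b, hb⟩ := hm
      by_contra hcon
      apply hij
      unfold FamDodd_Y
      rw [Matrix.add_apply, Matrix.single_apply, Matrix.single_apply, if_neg, if_neg, add_zero]
      · rintro ⟨rfl, rfl⟩
        apply hcon
        have e1 := FamDodd_pos_rev (n := n) ⟨0, h00⟩
        have e2 := FamDodd_pos_rev (n := n) ⟨FamDodd_c n m, hc⟩
        simp only [hcp, hp0'] at e1 e2
        omega
      · rintro ⟨rfl, rfl⟩
        apply hcon
        show (posF n (FamDodd_c n m) + posF n 0) % 2 = 1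
        omega
    by_cases ht : t = 0
    · have hs : s ≠ 0 := fun h => hst ⟨h, ht⟩
      obtain ⟨a, ha⟩ := hJ.surj (FamDodd_skew (FamDodd_skew_transpose hsk))
      obtain ⟨h3, h4⟩ := FamDodd_test hn hm h1 h2 t hs h00 hc
      have hMa : r.M a = Mp (parF n)
          (FamDodd_Y K ⟨FamDodd_c n m, hc⟩ ⟨0, h00⟩ 1).transpose := by rw [hp.M_eq, ha]
      refine ⟨a, fun j hj => ?_, ?_, ?_⟩
      · rw [hM, hMa, FamDodd_trT]
        exact h3 j hj
      · rw [hM, hMa, FamDodd_trT]
        exact h4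
      · rw [Rz.dd_PF, hM, hMa, FamDodd_pf_line pr hn s t, coeff_zero, coeff_zero]
        intro i j hij
        have h5 := hpar j i (fun h => hij (by
          unfold Mp
          rw [Matrix.transpose_apply, h, C_0, mul_zero]))
        rw [add_comm]
        exact h5
    · obtain ⟨a, ha⟩ := hJ.surj (FamDodd_skew hsk)
      obtain ⟨h3, h4⟩ := FamDodd_test hn hm h1 h2 s ht h00 hc
      have hMa : r.M a = Mp (parF n) (FamDodd_Y K ⟨FamDodd_c n m, hc⟩ ⟨0, h00⟩ 1) := by
        rw [hp.M_eq, ha]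
      refine ⟨a, fun j hj => ?_, ?_, ?_⟩
      · rw [hM, hMa]
        exact h3 j hj
      · rw [hM, hMa]
        exact h4
      · rw [Rz.dd_PF, hM, hMa, FamDodd_pf_line pr hn s t, coeff_zero, coeff_zero]
        intro i j hij
        exact hpar i j (fun h => hij (by
          unfold Mp
          rw [h, C_0, mul_zero]))
  · have hjc : FamDodd_j K n ⟨n - 1, by omega⟩ * FamDodd_j K n ⟨0, h00⟩ = -(-1) := by
      rw [hj0, mul_one, FamDodd_j, neg_neg]
      apply Even.neg_one_pow
      obtain ⟨a, ha⟩ := hn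
      show Even (min (n - 1) (2 * n - 1 - (n - 1)))
      rw [min_eq_left (by omega)]
      exact ⟨a, by omega⟩
    have hsk := FamDodd_Y_skew (K := K) ⟨n - 1, by omega⟩ ⟨0, h00⟩ (c := -1)
      (by rw [neg_one_mul, neg_neg]) hjc
    have h2n : 2 * n - 2 = 2 * (n - 1) := by omega
    by_cases ht : t = 0
    · have hs : s ≠ 0 := fun h => hst ⟨h, ht⟩
      obtain ⟨a, ha⟩ := hJ.surj (FamDodd_skew (FamDodd_skew_transpose hsk))
      obtain ⟨c, hc, hd⟩ := FamDodd_det hn hn0 t hs
      refine ⟨a, ?_⟩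
      rw [Rz.dd_PF]
      refine FamDodd_pf_sq hJ pr hn s t hM hc ?_
      rw [hp.M_eq, ha, FamDodd_MpT, FamDodd_detT, hd, h2n]
    · obtain ⟨a, ha⟩ := hJ.surj (FamDodd_skew hsk)
      obtain ⟨c, hc, hd⟩ := FamDodd_det hn hn0 s ht
      refine ⟨a, ?_⟩
      rw [Rz.dd_PF]
      refine FamDodd_pf_sq hJ pr hn s t hM hc ?_
      rw [hp.M_eq, ha, hd, h2n]

end chain

end Pool.Agent.helper49.QA
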