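import Mathlib
import Pool.Agent.helper49.QA.FamDdef
import Pool.Agent.helper49.QA.FamDodd

/-!
# Type DIII, even `n`: test elements (see the header of FamDdef.lean)
-/

set_option autoImplicit false

namespace Pool.Agent.helper49.QA

open Polynomial Pool.Agent.helper5.AS
open Pool.Agent.helper5.ASQ (Invol even oddc brk IsContraction)
open Pool.Agent.helper90.MF (od)

variable {K : Type*} [Field K] [CharZero K] {g : Type*}
  [LieRing g] [LieAlgebra K g] {θ : Invol K g}
  {k : Type*} [LieRing k] [LieAlgebra K k] {e : g ≃ₗ[K] k}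

/-! ## the derivative of the Pfaffian as a linear map -/

theorem FamDeven_prod_coeff {ι : Type*} [DecidableEq ι] {R : Type*} [CommRing R] (s : Finset ι)
    (a b : ι → R) : (∏ p ∈ s, (C (a p) + X * C (b p))).coeff 1 =
      ∑ p ∈ s, (∏ q ∈ s.erase p, a q) * b p := by
  have h1 : (∏ p ∈ s, (C (a p) + X * C (b p))).coeff 1 =
      (derivative (∏ p ∈ s, (C (a p) + X * C (b p)))).coeff 0 := by
    rw [coeff_derivative]
    simp
  rw [h1, derivative_prod_finset, coeff_zero_eq_eval_zero, eval_finsetSum]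
  refine Finset.sum_congr rfl fun p _ => ?_
  rw [eval_mul, eval_prod]
  simp

/-- the derivative of the Pfaffian at `A` -/
noncomputable def FamDeven_D {h : ℕ} {ν : Type*} [Fintype ν] [DecidableEq ν]
    (pr : Fin h × Fin 2 ≃ ν) {R : Type*} [CommRing R] (A : Matrix ν ν R) :
    Matrix ν ν R →ₗ[R] R where
  toFun B := ∑ σ : Equiv.Perm ν, (Equiv.Perm.sign σ : ℤ) • ∑ p : Fin h,
    (∏ q ∈ Finset.univ.erase p, A (σ (pr (q, 0))) (σ (pr (q, 1)))) *
      B (σ (pr (p, 0))) (σ (pr (p, 1)))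
  map_add' B B' := by
    simp only [Matrix.add_apply, mul_add, Finset.sum_add_distrib, smul_add]
  map_smul' c B := by
    rw [RingHom.id_apply, smul_eq_mul, Finset.mul_sum]
    refine Finset.sum_congr rfl fun σ _ => ?_
    rw [mul_smul_comm, Finset.mul_sum]
    congr 1
    refine Finset.sum_congr rfl fun p _ => ?_
    rw [Matrix.smul_apply, smul_eq_mul]
    ring

theorem FamDeven_D_eq {h : ℕ} {ν : Type*} [Fintype ν] [DecidableEq ν]
    (pr : Fin h × Fin 2 ≃ ν) {R : Type*} [CommRing R] (A B : Matrix ν ν R) :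
    (pfn pr (lineM A B)).coeff 1 = FamDeven_D pr A B := by
  show _ = ∑ σ : Equiv.Perm ν, (Equiv.Perm.sign σ : ℤ) • ∑ p : Fin h,
    (∏ q ∈ Finset.univ.erase p, A (σ (pr (q, 0))) (σ (pr (q, 1)))) *
      B (σ (pr (p, 0))) (σ (pr (p, 1)))
  rw [pfn, finsetSum_coeff]
  refine Finset.sum_congr rfl fun σ _ => ?_
  rw [coeff_smul]
  congr 1
  exact FamDeven_prod_coeff Finset.univ (fun p => A (σ (pr (p, 0))) (σ (pr (p, 1))))
    (fun p => B (σ (pr (p, 0))) (σ (pr (p, 1))))

/-- the elementary skew matrix -/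
def FamDeven_F {ν : Type*} [DecidableEq ν] (R : Type*) [CommRing R] (i0 j : ν) :
    Matrix ν ν R := Matrix.single i0 j 1 - Matrix.single j i0 1

/-- the derivative of the Pfaffian vanishes in the directions which are combinations of the
rows -/
theorem FamDeven_D_zero {h : ℕ} {ν : Type*} [Fintype ν] [DecidableEq ν]
    (pr : Fin h × Fin 2 ≃ ν) {R : Type*} [CommRing R] (A : Matrix ν ν R)
    (hA : A.transpose = -A) (w : ν → R) (i0 : ν) (hw : w i0 = 0) :
    ∑ j, (∑ l, w l * A l j) * FamDeven_D pr A (FamDeven_F R i0 j) = 0 := by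
  have hAe : ∀ i j, A i j = -A j i := fun i j => by
    have := congrFun (congrFun hA j) i
    rw [Matrix.transpose_apply, Matrix.neg_apply] at this
    exact this
  set B : Matrix ν ν R := Matrix.of fun i j => w i * if j = i0 then 1 else 0 with hB
  have h1 : A * B + B.transpose * A = ∑ j, (∑ l, w l * A l j) • FamDeven_F R i0 j := by
    ext1 i j
    rw [Matrix.add_apply, Matrix.mul_apply, Matrix.mul_apply, Matrix.sum_apply]
    simp only [Matrix.transpose_apply, hB, Matrix.of_apply, FamDeven_F, Matrix.smul_apply,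
      Matrix.sub_apply, Matrix.single_apply, smul_eq_mul, mul_sub, Finset.sum_sub_distrib]
    have e1 : ∑ x, A i x * (w x * if j = i0 then 1 else 0) =
        -(if j = i0 then ∑ l, w l * A l i else 0) := by
      split_ifs
      · rw [← Finset.sum_neg_distrib]
        refine Finset.sum_congr rfl fun x _ => ?_
        rw [hAe i x]
        ring
      · simp
    have e2 : ∑ x, (w x * if i = i0 then 1 else 0) * A x j =
        if i = i0 then ∑ l, w l * A l j else 0 := by
      split_ifs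
      · refine Finset.sum_congr rfl fun x _ => ?_
        ring
      · simp
    have e3 : ∑ x, (∑ l, w l * A l x) * (if i0 = i ∧ x = j then 1 else 0) =
        if i = i0 then ∑ l, w l * A l j else 0 := by
      rw [Finset.sum_eq_single j]
      · by_cases hi : i = i0
        · rw [if_pos hi, if_pos ⟨hi.symm, rfl⟩, mul_one]
        · rw [if_neg hi, if_neg (fun h => hi h.1.symm), mul_zero]
      · intro x _ hx
        rw [if_neg (fun h => hx h.2), mul_zero]
      · intro h
        exact absurd (Finset.mem_univ _) h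
    have e4 : ∑ x, (∑ l, w l * A l x) * (if x = i ∧ i0 = j then 1 else 0) =
        if j = i0 then ∑ l, w l * A l i else 0 := by
      rw [Finset.sum_eq_single i]
      · by_cases hj : j = i0
        · rw [if_pos hj, if_pos ⟨rfl, hj.symm⟩, mul_one]
        · rw [if_neg hj, if_neg (fun h => hj h.2.symm), mul_zero]
      · intro x _ hx
        rw [if_neg (fun h => hx h.1), mul_zero]
      · intro h
        exact absurd (Finset.mem_univ _) h
    rw [e1, e2, e3, e4]
    ring
  have h2 : B.trace = 0 := by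
    rw [Matrix.trace]
    refine Finset.sum_eq_zero fun i _ => ?_
    rw [Matrix.diag_apply, hB, Matrix.of_apply]
    by_cases hi : i = i0
    · rw [hi, hw, zero_mul]
    · rw [if_neg hi, mul_zero]
  have h3 := PfGen_coeff pr A B
  rw [FamDeven_D_eq, h2, zero_mul, h1, map_sum] at h3
  rw [← h3]
  refine Finset.sum_congr rfl fun j _ => ?_
  rw [map_smul, smul_eq_mul]

/-! ## the combinations of the rows -/

omit [CharZero K] in
theorem FamDeven_M0 (n : ℕ) (s t : K) (i j : Fin (2 * n))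
    (h1 : posF n i.val + 1 ≠ posF n j.val) (h2 : posF n j.val + 1 ≠ posF n i.val) :
    FamDodd_M K n s t i j = 0 := by
  unfold FamDodd_M Mp
  rw [Matrix.add_apply, Matrix.smul_apply, Matrix.smul_apply]
  unfold NdnF NupF
  rw [if_neg h2, if_neg h1, smul_zero, smul_zero, add_zero, C_0, mul_zero]

omit [CharZero K] in
theorem FamDeven_low (n : ℕ) (s t : K) (i j : Fin (2 * n))
    (h : posF n j.val + 1 = posF n i.val) :
    FamDodd_M K n s t i j = X ^ od (parF n) i j * C s := by
  rw [← FamDodd_M_transpose, Matrix.transpose_apply, FamDodd_link n t s j i h, FamDodd_od_comm]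

omit [CharZero K] in
theorem FamDeven_w {n : ℕ} (s : K) {t : K} (ht : t ≠ 0) (b : ℕ) (hb : 2 * b + 2 ≤ n) :
    ∃ w : Fin (2 * n) → K[X], (∀ i, 2 * b < i.val → w i = 0) ∧
      ∀ j, ∑ i, w i * FamDodd_M K n s t i j =
        if posF n j.val = 2 * b + 1 then
          X ^ od (parF n) ⟨2 * b, by omega⟩ j * C t else 0 := by
  induction b with
  | zero =>
    refine ⟨fun i => if i.val = 0 then 1 else 0, fun i hi => if_neg (by omega), fun j => ?_⟩
    beta_reduce
    rw [Finset.sum_eq_single (⟨0, by omega⟩ : Fin (2 * n))]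
    · rw [if_pos rfl, one_mul]
      have hp0 : posF n (⟨0, by omega⟩ : Fin (2 * n)).val = 0 := by
        show posF n 0 = 0
        unfold posF
        rw [if_pos (by omega)]
      by_cases hj : posF n j.val = 2 * 0 + 1
      · rw [if_pos hj]
        exact FamDodd_link n s t _ _ (by rw [hp0, hj])
      · rw [if_neg hj]
        exact FamDeven_M0 n s t _ _ (by rw [hp0]; omega) (by rw [hp0]; omega)
    · intro i _ hi
      rw [if_neg (fun h => hi (Fin.ext h)), zero_mul]
    · intro h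
      exact absurd (Finset.mem_univ _) h
  | succ b ih =>
    obtain ⟨w, hw1, hw2⟩ := ih (by omega)
    refine ⟨fun i => if i.val = 2 * b + 2 then 1 else -(C (s / t) * w i), fun i hi => ?_,
      fun j => ?_⟩
    · beta_reduce
      rw [if_neg (by omega), hw1 i (by omega), mul_zero, neg_zero]
    · have hpi : posF n (⟨2 * b + 2, by omega⟩ : Fin (2 * n)).val = 2 * b + 2 := by
        show posF n (2 * b + 2) = 2 * b + 2
        unfold posF
        rw [if_pos (by omega)]
      have hsum : ∑ i, (if i.val = 2 * b + 2 then 1 else -(C (s / t) * w i)) *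
          FamDodd_M K n s t i j = FamDodd_M K n s t ⟨2 * b + 2, by omega⟩ j -
            C (s / t) * ∑ i, w i * FamDodd_M K n s t i j := by
        rw [Finset.mul_sum, eq_sub_iff_add_eq, ← Finset.sum_add_distrib,
          Finset.sum_eq_single (⟨2 * b + 2, by omega⟩ : Fin (2 * n))]
        · rw [if_pos rfl, hw1 ⟨2 * b + 2, by omega⟩ (by
            show 2 * b < 2 * b + 2
            omega)]
          ring
        · intro i _ hi
          rw [if_neg (fun h => hi (Fin.ext h))]
          ring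
        · intro h
          exact absurd (Finset.mem_univ _) h
      beta_reduce
      rw [hsum, hw2 j]
      by_cases h1 : posF n j.val = 2 * b + 1
      · have hj : j.val = 2 * b + 1 := by
          unfold posF at h1
          split_ifs at h1 <;> omega
        rw [if_pos h1, if_neg (by omega), FamDeven_low n s t _ j (by rw [hpi, h1]),
          FamDodd_od_one _ j (by
            show (2 * b + 2) % 2 ≠ j.val % 2
            omega), FamDodd_od_one _ j (by
            show (2 * b) % 2 ≠ j.val % 2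
            omega)]
        have h2 : (C s : K[X]) = C (s / t) * C t := by
          rw [← C_mul, div_mul_cancel₀ _ ht]
        rw [h2]
        ring
      · rw [if_neg h1, mul_zero, sub_zero]
        by_cases h2 : posF n j.val = 2 * (b + 1) + 1
        · rw [if_pos h2, FamDodd_link n s t _ j (by rw [hpi, h2]; ring)]
          rfl
        · rw [if_neg h2]
          exact FamDeven_M0 n s t _ j (by rw [hpi]; omega) (by rw [hpi]; omega)

omit [CharZero K] in
theorem FamDeven_j0 {n : ℕ} (h0 : 0 < 2 * n) : FamDodd_j K n ⟨0, h0⟩ = 1 := by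
  rw [FamDodd_j]
  simp

/-- `J` times the test matrix -/
theorem FamDeven_JY {n : ℕ} (h0 : 0 < 2 * n) (a : Fin (2 * n))
    (ha : FamDodd_j K n a = -1) :
    (JF K n).map (C : K →+* K[X]) * Mp (parF n) (FamDodd_Y K a ⟨0, h0⟩ 1) =
      (X : K[X]) ^ od (parF n) a ⟨0, h0⟩ • FamDeven_F K[X] ⟨0, h0⟩ (Fin.rev a) := by
  ext1 i l
  rw [FamDodd_JF_mul, FamDodd_MpY, C_1, mul_one, Matrix.smul_apply, FamDeven_F,
    Matrix.sub_apply, Matrix.add_apply, Matrix.single_apply, Matrix.single_apply,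
    Matrix.single_apply, Matrix.single_apply, smul_eq_mul]
  have e1 : (a = Fin.rev i ∧ (⟨0, h0⟩ : Fin (2 * n)) = l) =
      (Fin.rev a = i ∧ (⟨0, h0⟩ : Fin (2 * n)) = l) := by
    apply propext
    constructor
    · rintro ⟨h1, h2⟩
      exact ⟨by rw [h1, Fin.rev_rev], h2⟩
    · rintro ⟨h1, h2⟩
      exact ⟨by rw [← h1, Fin.rev_rev], h2⟩
  have e2 : (Fin.rev (⟨0, h0⟩ : Fin (2 * n)) = Fin.rev i ∧ Fin.rev a = l) =
      ((⟨0, h0⟩ : Fin (2 * n)) = i ∧ Fin.rev a = l) := by
    rw [Fin.rev_inj]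
  simp only [e1, e2]
  have hne : Fin.rev a ≠ ⟨0, h0⟩ := by
    intro h
    have h1 := FamDodd_j_rev (K := K) n a
    rw [h, FamDeven_j0, ha] at h1
    exact two_ne_zero (by linear_combination h1 : (2 : K) = 0)
  by_cases h1 : Fin.rev a = i ∧ (⟨0, h0⟩ : Fin (2 * n)) = l
  · have h2 : ¬ ((⟨0, h0⟩ : Fin (2 * n)) = i ∧ Fin.rev a = l) :=
      fun h => hne (h1.1.trans h.1.symm)
    simp only [if_pos h1, if_neg h2]
    rw [← h1.1, FamDodd_j_rev, ha, map_neg, C_1]
    ring
  · by_cases h2 : (⟨0, h0⟩ : Fin (2 * n)) = i ∧ Fin.rev a = l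
    · simp only [if_neg h1, if_pos h2]
      rw [← h2.1, FamDeven_j0, C_1]
      ring
    · simp only [if_neg h1, if_neg h2]
      ring

/-! ## the derivative of the Pfaffian at the chain matrix -/

section rel

variable {n : ℕ} (pr : Fin n × Fin 2 ≃ Fin (2 * n))

/-- the derivative of the Pfaffian at `J M` -/
noncomputable def FamDeven_E (M M' : Matrix (Fin (2 * n)) (Fin (2 * n)) K[X]) : K[X] :=
  (pfn pr ((JF K n).map ((C : K[X] →+* K[X][X]).comp (C : K →+* K[X])) *
    lineM M M')).coeff 1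

omit [CharZero K] in
theorem FamDeven_E_eq (M M' : Matrix (Fin (2 * n)) (Fin (2 * n)) K[X]) :
    FamDeven_E pr M M' = FamDeven_D pr ((JF K n).map (C : K →+* K[X]) * M)
      ((JF K n).map (C : K →+* K[X]) * M') := by
  rw [FamDeven_E, FamDodd_mulline, FamDeven_D_eq]

theorem FamDeven_E_Y (M : Matrix (Fin (2 * n)) (Fin (2 * n)) K[X]) (h0 : 0 < 2 * n)
    (a : Fin (2 * n)) (ha : FamDodd_j K n a = -1) :
    FamDeven_E pr M (Mp (parF n) (FamDodd_Y K a ⟨0, h0⟩ 1)) =
      X ^ od (parF n) a ⟨0, h0⟩ * FamDeven_D pr ((JF K n).map (C : K →+* K[X]) * M)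
        (FamDeven_F K[X] ⟨0, h0⟩ (Fin.rev a)) := by
  rw [FamDeven_E_eq, FamDeven_JY h0 a ha, map_smul, smul_eq_mul]

omit [CharZero K] in
theorem FamDeven_rel (s : K) {t : K} (ht : t ≠ 0) (h0 : 0 < 2 * n)
    (hA : ((JF K n).map (C : K →+* K[X]) * FamDodd_M K n s t).transpose =
      -((JF K n).map (C : K →+* K[X]) * FamDodd_M K n s t)) (b : ℕ) (hb : 2 * b + 2 ≤ n) :
    ∑ j : Fin (2 * n), (if posF n j.val = 2 * b + 1 then
      X ^ od (parF n) ⟨2 * b, by omega⟩ j * C t else 0) *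
        FamDeven_D pr ((JF K n).map (C : K →+* K[X]) * FamDodd_M K n s t)
          (FamDeven_F K[X] ⟨0, h0⟩ j) = 0 := by
  obtain ⟨w, hw1, hw2⟩ := FamDeven_w s ht b hb
  have h1 := FamDeven_D_zero pr ((JF K n).map (C : K →+* K[X]) * FamDodd_M K n s t) hA
    (fun l => C (FamDodd_j K n l) * w (Fin.rev l)) ⟨0, h0⟩ (by
      rw [hw1 (Fin.rev ⟨0, h0⟩) (by
        rw [Fin.val_rev]
        show 2 * b < 2 * n - (0 + 1)
        omega), mul_zero])
  refine Eq.trans ?_ h1
  refine Finset.sum_congr rfl fun j _ => ?_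
  congr 1
  rw [← hw2 j, ← Equiv.sum_comp Fin.revPerm]
  refine Finset.sum_congr rfl fun l _ => ?_
  rw [Fin.revPerm_apply, FamDodd_JF_mul]
  have h2 : (C (FamDodd_j K n l) * C (FamDodd_j K n l) : K[X]) = 1 := by
    rw [← C_mul, FamDodd_jj, C_1]
  linear_combination (-(w (Fin.rev l) * FamDodd_M K n s t (Fin.rev l) j)) * h2

omit [CharZero K] in
theorem FamDeven_d1 (s : K) {t : K} (ht : t ≠ 0) (h0 : 0 < 2 * n)
    (hA : ((JF K n).map (C : K →+* K[X]) * FamDodd_M K n s t).transpose =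
      -((JF K n).map (C : K →+* K[X]) * FamDodd_M K n s t)) (c : Fin (2 * n))
    (hc : c.val % 2 = 1) (hcn : c.val + 2 ≤ n) :
    FamDeven_D pr ((JF K n).map (C : K →+* K[X]) * FamDodd_M K n s t)
      (FamDeven_F K[X] ⟨0, h0⟩ c) = 0 := by
  have h1 := FamDeven_rel pr s ht h0 hA (c.val / 2) (by omega)
  rw [Finset.sum_eq_single c] at h1
  · rw [if_pos (by
      unfold posF
      rw [if_pos (by omega)]
      omega), FamDodd_od_one _ c (by
      show (2 * (c.val / 2)) % 2 ≠ c.val % 2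
      omega), pow_one] at h1
    refine (mul_eq_zero.1 h1).resolve_left (mul_ne_zero X_ne_zero (C_ne_zero.2 ht))
  · intro j _ hj
    rw [if_neg, zero_mul]
    intro h
    apply hj
    apply Fin.ext
    unfold posF at h
    split_ifs at h <;> omega
  · intro h
    exact absurd (Finset.mem_univ _) h

omit [CharZero K] in
theorem FamDeven_d2 (s : K) {t : K} (ht : t ≠ 0) (h0 : 0 < 2 * n) (hn : Even n)
    (hA : ((JF K n).map (C : K →+* K[X]) * FamDodd_M K n s t).transpose =
      -((JF K n).map (C : K →+* K[X]) * FamDodd_M K n s t)) :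
    FamDeven_D pr ((JF K n).map (C : K →+* K[X]) * FamDodd_M K n s t)
      (FamDeven_F K[X] ⟨0, h0⟩ ⟨n, by omega⟩) =
    -(X * FamDeven_D pr ((JF K n).map (C : K →+* K[X]) * FamDodd_M K n s t)
      (FamDeven_F K[X] ⟨0, h0⟩ ⟨n - 1, by omega⟩)) := by
  obtain ⟨a, ha⟩ := hn
  have h1 := FamDeven_rel pr s ht h0 hA (a - 1) (by omega)
  have hne : (⟨n, by omega⟩ : Fin (2 * n)) ≠ ⟨n - 1, by omega⟩ := by
    intro h
    have := congrArg Fin.val h
    simp only at this
    omega
  rw [← Finset.add_sum_erase Finset.univ _ (Finset.mem_univ (⟨n, by omega⟩ : Fin (2 * n))),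
    Finset.sum_eq_single (⟨n - 1, by omega⟩ : Fin (2 * n))] at h1
  · rw [if_pos (by
      show posF n n = 2 * (a - 1) + 1
      unfold posF
      rw [if_neg (by omega)]
      omega), if_pos (by
      show posF n (n - 1) = 2 * (a - 1) + 1
      unfold posF
      rw [if_pos (by omega)]
      omega), FamDodd_od_zero _ (⟨n, by omega⟩ : Fin (2 * n)) (by
      show (2 * (a - 1)) % 2 = n % 2
      omega), FamDodd_od_one _ (⟨n - 1, by omega⟩ : Fin (2 * n)) (by
      show (2 * (a - 1)) % 2 ≠ (n - 1) % 2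
      omega), pow_one, pow_zero] at h1
    have h2 : (C t : K[X]) ≠ 0 := C_ne_zero.2 ht
    apply mul_left_cancel₀ h2
    linear_combination h1
  · intro j hj1 hj
    rw [if_neg, zero_mul]
    intro h
    rw [Finset.mem_erase] at hj1
    have h3 : j.val ≠ n := fun h => hj1.1 (Fin.ext h)
    have h4 : j.val ≠ n - 1 := fun h => hj (Fin.ext h)
    unfold posF at h
    split_ifs at h <;> omega
  · intro h
    exact absurd (Finset.mem_erase.2 ⟨hne.symm, Finset.mem_univ _⟩) h

end rel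

/-! ## the tests of the traces -/

/-- the tests of the traces, `t ≠ 0` -/
theorem FamDeven_test {n m : ℕ} (hn : 2 ≤ n) (hm : Even m) (h1 : 1 ≤ m) (h2 : m < 2 * n)
    (s : K) {t : K} (ht : t ≠ 0) (h0 : 0 < 2 * n) (hc : FamDodd_c n m < 2 * n) :
    (∀ j, j + 1 < m → (FamDodd_M K n s t ^ j *
      Mp (parF n) (FamDodd_Y K ⟨FamDodd_c n m, hc⟩ ⟨0, h0⟩ 1)).trace = 0) ∧
    ((FamDodd_M K n s t ^ (m - 1) *
      Mp (parF n) (FamDodd_Y K ⟨FamDodd_c n m, hc⟩ ⟨0, h0⟩ 1)).trace).coeff (bF n m) ≠ 0 := by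
  have hpos : posF n (FamDodd_c n m) = m - 1 := by
    unfold posF FamDodd_c
    split_ifs <;> omega
  have hp0 : posF n 0 = 0 := by
    unfold posF
    rw [if_pos (by omega)]
  obtain ⟨b, hb⟩ := hm
  constructor
  · intro j hj
    rw [FamDodd_trace, FamDodd_zero n s t j _ _ (by
      show posF n 0 + j < posF n (FamDodd_c n m)
      omega), mul_zero, zero_mul]
  · rw [FamDodd_trace]
    by_cases hmn : m ≤ n
    · have hcm : FamDodd_c n m = m - 1 := if_pos hmn
      have hb : bF n m = m := if_pos hmn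
      have e1 : (⟨FamDodd_c n m, hc⟩ : Fin (2 * n)) = ⟨m - 1, by omega⟩ := Fin.ext hcm
      rw [e1, FamDodd_path1 n s t (m - 1) h0 (by omega), FamDodd_od_one _ _ (by
        show (m - 1) % 2 ≠ 0 % 2
        omega), hb, C_1]
      have e2 : (X ^ 1 * (X ^ (m - 1) * C (t ^ (m - 1))) * (1 + 1) : K[X]) =
          C (2 * t ^ (m - 1)) * X ^ m := by
        obtain ⟨m', rfl⟩ : ∃ m', m = m' + 1 := ⟨m - 1, by omega⟩
        rw [Nat.add_sub_cancel, C_mul, pow_succ X m', pow_one]
        have : (C 2 : K[X]) = 2 := rfl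
        rw [this]
        ring
      rw [e2, coeff_C_mul, coeff_X_pow, if_pos rfl, mul_one]
      exact mul_ne_zero two_ne_zero (pow_ne_zero _ ht)
    · have hcm : FamDodd_c n m = m := if_neg hmn
      have hb : bF n m = m - 2 := if_neg hmn
      obtain ⟨m', rfl⟩ : ∃ m', m = n + 1 + m' := ⟨m - (n + 1), by omega⟩
      have e1 : (⟨FamDodd_c n (n + 1 + m'), hc⟩ : Fin (2 * n)) = ⟨n + 1 + m', by omega⟩ :=
        Fin.ext hcm
      have e3 : n + 1 + m' - 1 = n + m' := by omega
      rw [e1, e3, FamDodd_path3 n s t h0 (by omega) m' (by omega), FamDodd_od_zero _ _ (by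
        show (n + 1 + m') % 2 = 0 % 2
        omega), hb, C_1]
      have e2 : (X ^ 0 * (2 * (X ^ (n - 1 + m') * C (t ^ (n + m')))) * (1 + 1) : K[X]) =
          C (4 * t ^ (n + m')) * X ^ (n - 1 + m') := by
        rw [C_mul]
        have : (C 4 : K[X]) = 4 := rfl
        rw [this]
        ring
      have e4 : n + 1 + m' - 2 = n - 1 + m' := by omega
      rw [e2, e4, coeff_C_mul, coeff_X_pow, if_pos rfl, mul_one]
      exact mul_ne_zero (by norm_num) (pow_ne_zero _ ht)

omit [CharZero K] in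
/-- the traces for the test direction of `G` -/
theorem FamDeven_tro {n : ℕ} (hn : 2 ≤ n) (hne : Even n) (s t : K) (h0 : 0 < 2 * n) :
    (∀ j, j + 1 < n → (FamDodd_M K n s t ^ j *
      Mp (parF n) (FamDodd_Y K ⟨n, by omega⟩ ⟨0, h0⟩ 1)).trace = 0) ∧
    (FamDodd_M K n s t ^ (n - 1) *
      Mp (parF n) (FamDodd_Y K ⟨n, by omega⟩ ⟨0, h0⟩ 1)).trace =
        C (2 * t ^ (n - 1)) * X ^ (n - 2) := by
  obtain ⟨a, ha⟩ := hne
  constructor
  · intro j hj
    rw [FamDodd_trace, FamDodd_zero n s t j _ _ (by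
      show posF n 0 + j < posF n n
      unfold posF
      rw [if_pos (by omega), if_neg (by omega)]
      omega), mul_zero, zero_mul]
  · rw [FamDodd_trace, FamDodd_path2 n s t h0 hn, FamDodd_od_zero _ _ (by
      show n % 2 = 0 % 2
      omega), C_mul, C_1]
    have : (C 2 : K[X]) = 2 := rfl
    rw [this]
    ring

omit [CharZero K] in
/-- the traces for the auxiliary direction -/
theorem FamDeven_tra {n : ℕ} (hn : 2 ≤ n) (hne : Even n) (s t : K) (h0 : 0 < 2 * n) :
    (∀ j, j + 1 < n → (FamDodd_M K n s t ^ j *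
      Mp (parF n) (FamDodd_Y K ⟨n - 1, by omega⟩ ⟨0, h0⟩ 1)).trace = 0) ∧
    (FamDodd_M K n s t ^ (n - 1) *
      Mp (parF n) (FamDodd_Y K ⟨n - 1, by omega⟩ ⟨0, h0⟩ 1)).trace =
        C (2 * t ^ (n - 1)) * X ^ n := by
  obtain ⟨a, ha⟩ := hne
  constructor
  · intro j hj
    rw [FamDodd_trace, FamDodd_zero n s t j _ _ (by
      show posF n 0 + j < posF n (n - 1)
      unfold posF
      rw [if_pos (by omega), if_pos (by omega)]
      omega), mul_zero, zero_mul]
  · rw [FamDodd_trace, FamDodd_path1 n s t (n - 1) h0 (by omega), FamDodd_od_one _ _ (by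
      show (n - 1) % 2 ≠ 0 % 2
      omega), C_mul, C_1, pow_one]
    have : (C 2 : K[X]) = 2 := rfl
    rw [this]
    obtain ⟨n', rfl⟩ : ∃ n', n = n' + 1 := ⟨n - 1, by omega⟩
    rw [Nat.add_sub_cancel, pow_succ X n']
    ring

section chain

variable {n : ℕ} {r : Rz K (Fin (2 * n)) θ} (hJ : r.IsJ (JF K n) 1) (hp : r.IsPar (parF n))
  (pr : Fin n × Fin 2 ≃ Fin (2 * n))

/-- the transposition -/
theorem FamDeven_ET (M M' : Matrix (Fin (2 * n)) (Fin (2 * n)) K[X])
    (h1 : ((JF K n).map (C : K →+* K[X]) * M).transpose =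
      -((JF K n).map (C : K →+* K[X]) * M))
    (h2 : ((JF K n).map (C : K →+* K[X]) * M').transpose =
      -((JF K n).map (C : K →+* K[X]) * M')) :
    FamDeven_E pr M.transpose M'.transpose =
      C ((-1) ^ n * (JF K n).det) * FamDeven_E pr M M' := by
  set JJ := (JF K n).map ((C : K[X] →+* K[X][X]).comp (C : K →+* K[X])) with hJJ
  have hT : JJ.transpose = JJ := by
    rw [hJJ, ← Matrix.transpose_map, JF_transpose]
  have hsq : JJ * JJ = 1 := by
    rw [hJJ, ← Matrix.map_mul, FamDdef_JF_mul_self]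
    exact Matrix.map_one _ (map_zero _) (map_one _)
  have hskew : (JJ * lineM M M').transpose = -(JJ * lineM M M') := by
    rw [hJJ, FamDodd_mulline]
    ext1 i j
    have e1 := congrFun (congrFun h1 i) j
    have e2 := congrFun (congrFun h2 i) j
    rw [Matrix.transpose_apply, Matrix.neg_apply] at e1 e2
    rw [Matrix.transpose_apply, Matrix.neg_apply]
    show C (((JF K n).map (C : K →+* K[X]) * M) j i) +
      X * C (((JF K n).map (C : K →+* K[X]) * M') j i) =
      -(C (((JF K n).map (C : K →+* K[X]) * M) i j) +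
      X * C (((JF K n).map (C : K →+* K[X]) * M') i j))
    rw [e1, e2, C_neg, C_neg]
    ring
  have hl : lineM M.transpose M'.transpose = (lineM M M').transpose := by
    ext1 i j
    rfl
  have h3 : JJ * (lineM M M').transpose =
      (-1 : K[X][X]) • (JJ.transpose * (JJ * lineM M M') * JJ) := by
    rw [Matrix.transpose_mul, hT] at hskew
    have h4 : (lineM M M').transpose = -(JJ * lineM M M') * JJ := by
      rw [← hskew, Matrix.mul_assoc, hsq, Matrix.mul_one]
    have h5 : ∀ A : Matrix (Fin (2 * n)) (Fin (2 * n)) K[X][X], (-1 : K[X][X]) • A = -A := by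
      intro A
      ext1 i j
      rw [Matrix.smul_apply, Matrix.neg_apply, smul_eq_mul]
      ring
    rw [h4, hT, h5, Matrix.neg_mul, Matrix.mul_neg, Matrix.mul_assoc JJ (JJ * lineM M M') JJ]
  have hdet : JJ.det = C (C (JF K n).det) :=
    (RingHom.map_det ((C : K[X] →+* K[X][X]).comp (C : K →+* K[X])) (JF K n)).symm
  rw [FamDeven_E, FamDeven_E, ← hJJ, hl, h3, pfn_smul, pfn_conj, hdet, Fintype.card_fin]
  have h5 : ((-1 : K[X][X]) ^ n * (C (C (JF K n).det) * pfn pr (JJ * lineM M M'))) =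
      C (C ((-1) ^ n * (JF K n).det)) * pfn pr (JJ * lineM M M') := by
    rw [C_mul, C_mul, C_pow, C_pow, C_neg, C_neg, C_1, C_1]
    ring
  rw [h5, coeff_C_mul]

theorem FamDeven_ddG (κ : K) (b : ℕ) (a a' : g) :
    dd (r.pnt e a) (r.pnt e a') (smap (e : g →ₗ[K] k)
        ((scS θ (r.PF pr (JF K n) - κ • r.H true n)).coeff b)) =
      (FamDeven_E pr (r.M a) (r.M a')).coeff b -
        κ * ((phi K true n (lineM (r.M a) (r.M a'))).coeff 1).coeff b := by
  have h1 := r.dd_PF pr (J := JF K n) e b a a'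
  have h2 := r.dd_gen e true n b a a'
  rw [← h2, FamDeven_E, ← h1, map_sub, map_smul, coeff_sub, coeff_smul, map_sub, map_smul, dd,
    map_sub, map_smul, coeff_sub, coeff_smul, smul_eq_mul]
  rfl

/-- the test direction of `G` -/
theorem FamDeven_core (hn : 2 ≤ n) {κ : K} (hκ : κ ≠ 0)
    (hdeg : (scS θ (r.PF pr (JF K n) - κ • r.H true n)).natDegree ≤ n - 2)
    (e : g ≃ₗ[K] k) {a ao aa : g} {u : K} (hu : u ≠ 0)
    (ho : ∀ j, j + 1 < n → (r.M a ^ j * r.M ao).trace = 0)
    (ho1 : (r.M a ^ (n - 1) * r.M ao).trace = C u * X ^ (n - 2))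
    (ha : ∀ j, j + 1 < n → (r.M a ^ j * r.M aa).trace = 0)
    (ha1 : (r.M a ^ (n - 1) * r.M aa).trace = C u * X ^ n)
    (hrel : FamDeven_E pr (r.M a) (r.M aa) = -(X ^ 2 * FamDeven_E pr (r.M a) (r.M ao))) :
    dd (r.pnt e a) (r.pnt e ao) (smap (e : g →ₗ[K] k)
        ((scS θ (r.PF pr (JF K n) - κ • r.H true n)).coeff (n - 2))) ≠ 0 ∧
      ∀ m, m ≤ n → 1 ≤ m →
        dd (r.pnt e a) (r.pnt e ao) (r.gen e true m (bF n m)) = 0 := by
  obtain ⟨ρ, hρ, hphi⟩ := phi_deriv_eq (n := Fin (2 * n)) (R := K[X]) (K := K) true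
    (m := n) (by omega)
  have e1 := hphi (r.M a) (r.M ao) ho
  have e2 := hphi (r.M a) (r.M aa) ha
  rw [ho1] at e1
  rw [ha1] at e2
  constructor
  · have h1 : (scS θ (r.PF pr (JF K n) - κ • r.H true n)).coeff n = 0 :=
      coeff_eq_zero_of_natDegree_lt (by omega)
    have h2 := FamDeven_ddG (r := r) (e := e) pr κ n a aa
    have h0 : dd (r.pnt e a) (r.pnt e aa) (0 : Sy K k) = 0 := by
      rw [dd, map_zero, coeff_zero]
    rw [h1, map_zero, h0, e2, hrel] at h2
    rw [FamDeven_ddG, e1]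
    have h3 : (-(X ^ 2 * FamDeven_E pr (r.M a) (r.M ao))).coeff n =
        -(FamDeven_E pr (r.M a) (r.M ao)).coeff (n - 2) := by
      have h4 : ∀ (p : K[X]) (l : ℕ), 2 ≤ l → (-(X ^ 2 * p)).coeff l = -p.coeff (l - 2) := by
        intro p l hl
        obtain ⟨l', rfl⟩ : ∃ l', l = l' + 2 := ⟨l - 2, by omega⟩
        rw [coeff_neg, coeff_X_pow_mul, Nat.add_sub_cancel]
      exact h4 _ n hn
    rw [h3, coeff_smul, coeff_C_mul, coeff_X_pow_self, mul_one, smul_eq_mul] at h2
    rw [coeff_smul, coeff_C_mul, coeff_X_pow_self, mul_one, smul_eq_mul]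
    intro h4
    have h5 : κ * (ρ * u) = 0 := by
      have h6 : (2 : K) * (κ * (ρ * u)) = 0 := by linear_combination h2 - h4
      exact (mul_eq_zero.1 h6).resolve_left two_ne_zero
    exact mul_ne_zero hκ (mul_ne_zero hρ hu) h5
  · intro m hm h1
    rcases Nat.lt_or_ge m n with h | h
    · exact r.dd_gen_lt e true (bF n m) ho h
    · obtain rfl : m = n := le_antisymm hm h
      rw [Rz.dd_gen, e1, bF, if_pos le_rfl, coeff_smul, coeff_C_mul, coeff_X_pow, if_neg (by omega),
        mul_zero, smul_zero]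

include hJ hp

/-- the test elements, `n` even -/
theorem FamD_tests_even (hn : Even n) (hn0 : 1 ≤ n) {κ : K} (hκ : κ ≠ 0)
    (hdeg : (scS θ (r.PF pr (JF K n) - κ • r.H true n)).natDegree ≤ n - 2)
    {p0 q0 : g} (hp0 : r.ρ p0 = NdnF K n)
    (hq0 : r.ρ q0 = NupF K n) {s t : K} (hst : ¬ (s = 0 ∧ t = 0)) :
    (∀ m, Even m → 1 ≤ m → m < 2 * n → ∃ a : g,
      (∀ j, j + 1 < m → (r.M (s • p0 + t • q0) ^ j * r.M a).trace = 0) ∧
      ((r.M (s • p0 + t • q0) ^ (m - 1) * r.M a).trace).coeff (bF n m) ≠ 0 ∧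
      (n < m → dd (r.pnt e (s • p0 + t • q0)) (r.pnt e a) (smap (e : g →ₗ[K] k)
        ((scS θ (r.PF pr (JF K n) - κ • r.H true n)).coeff (n - 2))) = 0)) ∧
    ∃ a : g, dd (r.pnt e (s • p0 + t • q0)) (r.pnt e a) (smap (e : g →ₗ[K] k)
        ((scS θ (r.PF pr (JF K n) - κ • r.H true n)).coeff (n - 2))) ≠ 0 ∧
      ∀ m, m ≤ n → 1 ≤ m →
        dd (r.pnt e (s • p0 + t • q0)) (r.pnt e a) (r.gen e true m (bF n m)) = 0 := by
  have hn2 : 2 ≤ n := by
    obtain ⟨a, ha⟩ := hn
    omega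
  have h00 : 0 < 2 * n := by omega
  have hMg : ∀ s t : K, r.M (s • p0 + t • q0) = FamDodd_M K n s t := by
    intro s t
    rw [hp.M_eq, map_add, map_smul, map_smul, hp0, hq0]
    rfl
  have hM := hMg s t
  have hAg : ∀ s t : K, ((JF K n).map (C : K →+* K[X]) * FamDodd_M K n s t).transpose =
      -((JF K n).map (C : K →+* K[X]) * FamDodd_M K n s t) := by
    intro s t
    rw [← hMg s t]
    exact FamDodd_Jskew hJ _
  have hj0 : FamDodd_j K n ⟨0, h00⟩ = 1 := FamDeven_j0 h00
  -- the realisation of the transposed matrices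
  have hTr : ∀ (a a' : g), r.ρ a' = (r.ρ a).transpose →
      FamDeven_E pr (FamDodd_M K n s t) (r.M a') =
        C ((-1) ^ n * (JF K n).det) * FamDeven_E pr (FamDodd_M K n t s) (r.M a) := by
    intro a a' h
    rw [← FamDeven_ET pr _ _ (hAg t s) (FamDodd_Jskew hJ a), FamDodd_M_transpose, hp.M_eq a',
      hp.M_eq a, h, FamDodd_MpT]
  constructor
  · intro m hm h1 h2
    have hc : FamDodd_c n m < 2 * n := by
      unfold FamDodd_c
      split_ifs <;> omega
    have hjc : FamDodd_j K n ⟨FamDodd_c n m, hc⟩ = -1 := by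
      rw [FamDodd_j]
      apply Odd.neg_one_pow
      obtain ⟨a, ha⟩ := hn
      obtain ⟨b, hb⟩ := hm
      show Odd (min (FamDodd_c n m) (2 * n - 1 - FamDodd_c n m))
      unfold FamDodd_c
      split_ifs with h3
      · rw [min_eq_left (by omega)]
        exact ⟨b - 1, by omega⟩
      · rw [min_eq_right (by omega)]
        exact ⟨n - 1 - b, by omega⟩
    have hsk := FamDodd_Y_skew (K := K) ⟨FamDodd_c n m, hc⟩ ⟨0, h00⟩ (c := 1) (one_mul 1)
      (by rw [hjc, hj0, mul_one])
    -- the derivative of the Pfaffian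
    have hE : n < m → ∀ s t : K, t ≠ 0 → FamDeven_E pr (FamDodd_M K n s t)
        (Mp (parF n) (FamDodd_Y K ⟨FamDodd_c n m, hc⟩ ⟨0, h00⟩ 1)) = 0 := by
      intro hnm s t ht
      have hcv : FamDodd_c n m = m := if_neg (by omega)
      rw [FamDeven_E_Y pr _ h00 _ hjc, FamDeven_d1 pr s ht h00 (hAg s t), mul_zero]
      · rw [Fin.val_rev]
        show (2 * n - (FamDodd_c n m + 1)) % 2 = 1
        obtain ⟨b, hb⟩ := hm
        omega
      · rw [Fin.val_rev]
        show 2 * n - (FamDodd_c n m + 1) + 2 ≤ n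
        obtain ⟨a, ha⟩ := hn
        obtain ⟨b, hb⟩ := hm
        omega
    by_cases ht : t = 0
    · have hs : s ≠ 0 := fun h => hst ⟨h, ht⟩
      obtain ⟨a, ha⟩ := hJ.surj (FamDodd_skew (FamDodd_skew_transpose hsk))
      obtain ⟨a1, ha1⟩ := hJ.surj (FamDodd_skew hsk)
      obtain ⟨h3, h4⟩ := FamDeven_test hn2 hm h1 h2 t hs h00 hc
      have hMa : r.M a = Mp (parF n)
          (FamDodd_Y K ⟨FamDodd_c n m, hc⟩ ⟨0, h00⟩ 1).transpose := by rw [hp.M_eq, ha]
      refine ⟨a, fun j hj => ?_, ?_, fun hnm => ?_⟩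
      · rw [hM, hMa, FamDodd_trT]
        exact h3 j hj
      · rw [hM, hMa, FamDodd_trT]
        exact h4
      · rw [FamDeven_ddG, hM, hTr a1 a (by rw [ha, ha1]), hp.M_eq a1, ha1, hE hnm t s hs,
          mul_zero, coeff_zero, phi_deriv_lt true (m := m) (fun j hj => ?_) hnm, coeff_zero,
          mul_zero, sub_zero]
        rw [hMa, FamDodd_trT]
        exact h3 j hj
    · obtain ⟨a, ha⟩ := hJ.surj (FamDodd_skew hsk)
      obtain ⟨h3, h4⟩ := FamDeven_test hn2 hm h1 h2 s ht h00 hc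
      have hMa : r.M a = Mp (parF n) (FamDodd_Y K ⟨FamDodd_c n m, hc⟩ ⟨0, h00⟩ 1) := by
        rw [hp.M_eq, ha]
      refine ⟨a, fun j hj => ?_, ?_, fun hnm => ?_⟩
      · rw [hM, hMa]
        exact h3 j hj
      · rw [hM, hMa]
        exact h4
      · rw [FamDeven_ddG, hM, hMa, hE hnm s t ht, coeff_zero,
          phi_deriv_lt true (m := m) (fun j hj => h3 j hj) hnm, coeff_zero,
          mul_zero, sub_zero]
  · have hjo : FamDodd_j K n ⟨n, by omega⟩ = -1 := by
      rw [FamDodd_j]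
      apply Odd.neg_one_pow
      obtain ⟨a, ha⟩ := hn
      show Odd (min n (2 * n - 1 - n))
      rw [min_eq_right (by omega)]
      exact ⟨a - 1, by omega⟩
    have hja : FamDodd_j K n ⟨n - 1, by omega⟩ = -1 := by
      rw [FamDodd_j]
      apply Odd.neg_one_pow
      obtain ⟨a, ha⟩ := hn
      show Odd (min (n - 1) (2 * n - 1 - (n - 1)))
      rw [min_eq_left (by omega)]
      exact ⟨a - 1, by omega⟩
    have hsko := FamDodd_Y_skew (K := K) ⟨n, by omega⟩ ⟨0, h00⟩ (c := 1) (one_mul 1)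
      (by rw [hjo, hj0, mul_one])
    have hska := FamDodd_Y_skew (K := K) ⟨n - 1, by omega⟩ ⟨0, h00⟩ (c := 1) (one_mul 1)
      (by rw [hja, hj0, mul_one])
    have hro : Fin.rev (⟨n, by omega⟩ : Fin (2 * n)) = ⟨n - 1, by omega⟩ := by
      apply Fin.ext
      rw [Fin.val_rev]
      show 2 * n - (n + 1) = n - 1
      omega
    have hra : Fin.rev (⟨n - 1, by omega⟩ : Fin (2 * n)) = ⟨n, by omega⟩ := by
      apply Fin.ext
      rw [Fin.val_rev]
      show 2 * n - (n - 1 + 1) = n
      omega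
    have hE : ∀ s t : K, t ≠ 0 → FamDeven_E pr (FamDodd_M K n s t)
        (Mp (parF n) (FamDodd_Y K ⟨n - 1, by omega⟩ ⟨0, h00⟩ 1)) =
        -(X ^ 2 * FamDeven_E pr (FamDodd_M K n s t)
          (Mp (parF n) (FamDodd_Y K ⟨n, by omega⟩ ⟨0, h00⟩ 1))) := by
      intro s t ht
      rw [FamDeven_E_Y pr _ h00 _ hja, FamDeven_E_Y pr _ h00 _ hjo, hro, hra,
        FamDeven_d2 pr s ht h00 hn (hAg s t), FamDodd_od_one _ _ (by
          show (n - 1) % 2 ≠ 0 % 2
          obtain ⟨a, ha⟩ := hn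
          omega), FamDodd_od_zero _ _ (by
          show n % 2 = 0 % 2
          obtain ⟨a, ha⟩ := hn
          omega)]
      ring
    by_cases ht : t = 0
    · have hs : s ≠ 0 := fun h => hst ⟨h, ht⟩
      obtain ⟨ao, hao⟩ := hJ.surj (FamDodd_skew (FamDodd_skew_transpose hsko))
      obtain ⟨aa, haa⟩ := hJ.surj (FamDodd_skew (FamDodd_skew_transpose hska))
      obtain ⟨ao1, hao1⟩ := hJ.surj (FamDodd_skew hsko)
      obtain ⟨aa1, haa1⟩ := hJ.surj (FamDodd_skew hska)
      obtain ⟨o1, o2⟩ := FamDeven_tro (K := K) hn2 hn t s h00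
      obtain ⟨a1, a2⟩ := FamDeven_tra (K := K) hn2 hn t s h00
      have hMo : r.M ao = Mp (parF n) (FamDodd_Y K ⟨n, by omega⟩ ⟨0, h00⟩ 1).transpose := by
        rw [hp.M_eq, hao]
      have hMa : r.M aa = Mp (parF n)
          (FamDodd_Y K ⟨n - 1, by omega⟩ ⟨0, h00⟩ 1).transpose := by
        rw [hp.M_eq, haa]
      refine ⟨ao, FamDeven_core pr hn2 hκ hdeg e (aa := aa) (u := 2 * s ^ (n - 1))
        (mul_ne_zero two_ne_zero (pow_ne_zero _ hs)) ?_ ?_ ?_ ?_ ?_⟩
      · intro j hj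
        rw [hM, hMo, FamDodd_trT]
        exact o1 j hj
      · rw [hM, hMo, FamDodd_trT]
        exact o2
      · intro j hj
        rw [hM, hMa, FamDodd_trT]
        exact a1 j hj
      · rw [hM, hMa, FamDodd_trT]
        exact a2
      · rw [hM, hTr ao1 ao (by rw [hao, hao1]), hTr aa1 aa (by rw [haa, haa1]), hp.M_eq ao1,
          hp.M_eq aa1, hao1, haa1, hE t s hs]
        ring
    · obtain ⟨ao, hao⟩ := hJ.surj (FamDodd_skew hsko)
      obtain ⟨aa, haa⟩ := hJ.surj (FamDodd_skew hska)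
      obtain ⟨o1, o2⟩ := FamDeven_tro (K := K) hn2 hn s t h00
      obtain ⟨a1, a2⟩ := FamDeven_tra (K := K) hn2 hn s t h00
      have hMo : r.M ao = Mp (parF n) (FamDodd_Y K ⟨n, by omega⟩ ⟨0, h00⟩ 1) := by
        rw [hp.M_eq, hao]
      have hMa : r.M aa = Mp (parF n) (FamDodd_Y K ⟨n - 1, by omega⟩ ⟨0, h00⟩ 1) := by
        rw [hp.M_eq, haa]
      refine ⟨ao, FamDeven_core pr hn2 hκ hdeg e (aa := aa) (u := 2 * t ^ (n - 1))
        (mul_ne_zero two_ne_zero (pow_ne_zero _ ht)) ?_ ?_ ?_ ?_ ?_⟩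
      · intro j hj
        rw [hM, hMo]
        exact o1 j hj
      · rw [hM, hMo]
        exact o2
      · intro j hj
        rw [hM, hMa]
        exact a1 j hj
      · rw [hM, hMa]
        exact a2
      · rw [hM, hMo, hMa, hE s t ht]

end chain

end Pool.Agent.helper49.QA
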