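import Mathlib
import Pool.Agent.helper49.QA.Index
import Pool.Agent.helper49.QA.JForm

/-!
# Type DIII: the index point (see the header of FamDdef.lean)
-/

set_option autoImplicit false

namespace Pool.Agent.helper49.QA

open Polynomial Pool.Agent.helper5.AS
open Pool.Agent.helper5.ASQ (Invol even oddc brk IsContraction)
open Pool.Agent.helper90.MF (od)

variable {K : Type*} [Field K] [CharZero K] {g : Type*}
  [LieRing g] [LieAlgebra K g] {θ : Invol K g}
  {k : Type*} [LieRing k] [LieAlgebra K k] {e : g ≃ₗ[K] k}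

/-- the involution of the torus form: `X = Fin h × Fin 2 ⊕ Fin z`; the index `(x, 0)` is `e_x`, `(x, 1)` is
`f_x`; `S e_(i,0) = f_(i,1)`, `S f_(i,1) = -e_(i,0)`, `S e_(i,1) = -f_(i,0)`, `S f_(i,0) = e_(i,1)`, and
`S e_z = ι e_z`, `S f_z = -ι f_z`, where `ι ^ 2 = -1` (columns are the images of the basis vectors) -/
def SF {K : Type*} [Field K] (ι : K) (h z : ℕ) :
    Matrix ((Fin h × Fin 2 ⊕ Fin z) × Fin 2) ((Fin h × Fin 2 ⊕ Fin z) × Fin 2) K :=
  fun a b => match a, b with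
    | (Sum.inl x, ε), (Sum.inl y, δ) =>
        if x.1 = y.1 ∧ x.2 ≠ y.2 ∧ ε ≠ δ then
          (if y.2 = 0 then 1 else -1) else 0
    | (Sum.inr x, ε), (Sum.inr y, δ) =>
        if x = y ∧ ε = δ then (if δ = 0 then ι else -ι) else 0
    | _, _ => 0

/-- the symmetric form of the torus form -/
def JT (K : Type*) [Field K] {X : Type*} [DecidableEq X] : Matrix (X × Fin 2) (X × Fin 2) K :=
  fun a b => if a.1 = b.1 ∧ a.2 ≠ b.2 then 1 else 0

/-- the index type of the torus form -/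
abbrev FamDidx_T (h z : ℕ) : Type := (Fin h × Fin 2 ⊕ Fin z) × Fin 2

/-- the sign of an element of `Fin 2` -/
def FamDidx_sg (K : Type*) [Field K] (ε : Fin 2) : K := if ε = 0 then 1 else -1

omit [CharZero K] in
theorem FamDidx_sg_add (ε : Fin 2) : FamDidx_sg K (ε + 1) = -FamDidx_sg K ε := by
  fin_cases ε <;> simp [FamDidx_sg]

omit [CharZero K] in
theorem FamDidx_sg_sq (ε : Fin 2) : FamDidx_sg K ε * FamDidx_sg K ε = 1 := by
  fin_cases ε <;> simp [FamDidx_sg]

theorem FamDidx_sg_inj {ε δ : Fin 2} (h : FamDidx_sg K ε = FamDidx_sg K δ) : ε = δ := by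
  have h1 : (1 : K) ≠ -1 := by
    intro h2
    have h3 : (2 : K) = 0 := by linear_combination h2
    exact two_ne_zero h3
  fin_cases ε <;> fin_cases δ <;> simp [FamDidx_sg] at h ⊢
  · exact h1 h
  · exact h1 h.symm

/-- the permutation of `SF` -/
def FamDidx_s {h z : ℕ} (a : FamDidx_T h z) : FamDidx_T h z :=
  match a with
  | (Sum.inl x, ε) => (Sum.inl (x.1, x.2 + 1), ε + 1)
  | (Sum.inr x, ε) => (Sum.inr x, ε)

/-- the coefficients of `SF` -/
def FamDidx_c {K : Type*} [Field K] (ι : K) {h z : ℕ} (a : FamDidx_T h z) : K :=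
  match a with
  | (Sum.inl x, _) => FamDidx_sg K x.2
  | (Sum.inr _, ε) => ι * FamDidx_sg K ε

/-- the permutation of `JT` -/
def FamDidx_t {h z : ℕ} (a : FamDidx_T h z) : FamDidx_T h z := (a.1, a.2 + 1)

theorem FamDidx_two (ε δ : Fin 2) : ε ≠ δ ↔ ε = δ + 1 := by
  revert ε δ
  decide

theorem FamDidx_add2 (ε : Fin 2) : ε + 1 + 1 = ε := by
  revert ε
  decide

theorem FamDidx_s_s {h z : ℕ} (a : FamDidx_T h z) : FamDidx_s (FamDidx_s a) = a := by
  obtain ⟨x | x, ε⟩ := a
  · simp only [FamDidx_s, FamDidx_add2]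
  · rfl

theorem FamDidx_t_t {h z : ℕ} (a : FamDidx_T h z) : FamDidx_t (FamDidx_t a) = a := by
  simp only [FamDidx_t, FamDidx_add2]

omit [CharZero K] in
theorem FamDidx_SF (ι : K) {h z : ℕ} (a b : FamDidx_T h z) :
    SF ι h z a b = if a = FamDidx_s b then FamDidx_c ι b else 0 := by
  obtain ⟨⟨i, s⟩ | x, ε⟩ := a <;> obtain ⟨⟨j, t⟩ | y, δ⟩ := b
  · simp only [SF, FamDidx_s, FamDidx_c, FamDidx_two, FamDidx_sg, Prod.mk.injEq,
      Sum.inl.injEq, and_assoc]
  · simp [SF, FamDidx_s]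
  · simp [SF, FamDidx_s]
  · simp only [SF, FamDidx_s, FamDidx_c, FamDidx_sg, Prod.mk.injEq, Sum.inr.injEq]
    split_ifs <;> simp

omit [CharZero K] in
theorem FamDidx_JT {h z : ℕ} (a b : FamDidx_T h z) :
    JT K a b = if b = FamDidx_t a then 1 else 0 := by
  obtain ⟨x, ε⟩ := a
  obtain ⟨y, δ⟩ := b
  simp only [JT, FamDidx_t, Prod.mk.injEq]
  refine if_congr ?_ rfl rfl
  rw [eq_comm (a := y), ← FamDidx_two, ne_comm]

omit [CharZero K] in
theorem FamDidx_mulS (ι : K) {h z : ℕ} (A : Matrix (FamDidx_T h z) (FamDidx_T h z) K)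
    (a b : FamDidx_T h z) :
    (A * SF ι h z) a b = A a (FamDidx_s b) * FamDidx_c ι b := by
  rw [Matrix.mul_apply, Finset.sum_eq_single (FamDidx_s b)]
  · rw [FamDidx_SF, if_pos rfl]
  · intro d _ hd
    rw [FamDidx_SF, if_neg hd, mul_zero]
  · intro h
    exact absurd (Finset.mem_univ _) h

omit [CharZero K] in
theorem FamDidx_Smul (ι : K) {h z : ℕ} (A : Matrix (FamDidx_T h z) (FamDidx_T h z) K)
    (a b : FamDidx_T h z) :
    (SF ι h z * A) a b = FamDidx_c ι (FamDidx_s a) * A (FamDidx_s a) b := by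
  rw [Matrix.mul_apply, Finset.sum_eq_single (FamDidx_s a)]
  · rw [FamDidx_SF, if_pos (FamDidx_s_s a).symm]
  · intro d _ hd
    rw [FamDidx_SF, if_neg, zero_mul]
    intro h1
    exact hd (by rw [h1, FamDidx_s_s])
  · intro h
    exact absurd (Finset.mem_univ _) h

omit [CharZero K] in
theorem FamDidx_Jmul {h z : ℕ} (A : Matrix (FamDidx_T h z) (FamDidx_T h z) K)
    (a b : FamDidx_T h z) : ((JT K : Matrix (FamDidx_T h z) (FamDidx_T h z) K) * A) a b =
      A (FamDidx_t a) b := by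
  rw [Matrix.mul_apply, Finset.sum_eq_single (FamDidx_t a)]
  · rw [FamDidx_JT, if_pos rfl, one_mul]
  · intro d _ hd
    rw [FamDidx_JT, if_neg hd, zero_mul]
  · intro h
    exact absurd (Finset.mem_univ _) h

omit [CharZero K] in
theorem FamDidx_mulJ {h z : ℕ} (A : Matrix (FamDidx_T h z) (FamDidx_T h z) K)
    (a b : FamDidx_T h z) : (A * (JT K : Matrix (FamDidx_T h z) (FamDidx_T h z) K)) a b =
      A a (FamDidx_t b) := by
  rw [Matrix.mul_apply, Finset.sum_eq_single (FamDidx_t b)]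
  · rw [FamDidx_JT, FamDidx_t_t, if_pos rfl, mul_one]
  · intro d _ hd
    rw [FamDidx_JT, if_neg, mul_zero]
    intro h1
    exact hd (by rw [h1, FamDidx_t_t])
  · intro h
    exact absurd (Finset.mem_univ _) h

/-- the first diagonal matrix -/
def FamDidx_lam (K : Type*) [Field K] {h z : ℕ} (a : FamDidx_T h z) : K :=
  match a with
  | (Sum.inl x, ε) => ((x.1.val : K) + 1) * FamDidx_sg K ε
  | (Sum.inr _, _) => 0

/-- the second diagonal matrix -/
def FamDidx_mu (K : Type*) [Field K] {h z : ℕ} (a : FamDidx_T h z) : K :=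
  match a with
  | (Sum.inl x, ε) => FamDidx_sg K x.2 * FamDidx_sg K ε
  | (Sum.inr _, ε) => FamDidx_sg K ε

omit [CharZero K] in
theorem FamDidx_lam_t {h z : ℕ} (a : FamDidx_T h z) :
    FamDidx_lam K (FamDidx_t a) = -FamDidx_lam K a := by
  obtain ⟨x | x, ε⟩ := a
  · simp only [FamDidx_lam, FamDidx_t, FamDidx_sg_add, mul_neg]
  · simp only [FamDidx_lam, FamDidx_t, neg_zero]

omit [CharZero K] in
theorem FamDidx_lam_s {h z : ℕ} (a : FamDidx_T h z) :
    FamDidx_lam K (FamDidx_s a) = -FamDidx_lam K a := by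
  obtain ⟨x | x, ε⟩ := a
  · simp only [FamDidx_lam, FamDidx_s, FamDidx_sg_add, mul_neg]
  · simp only [FamDidx_lam, FamDidx_s, neg_zero]

omit [CharZero K] in
theorem FamDidx_mu_t {h z : ℕ} (a : FamDidx_T h z) :
    FamDidx_mu K (FamDidx_t a) = -FamDidx_mu K a := by
  obtain ⟨x | x, ε⟩ := a <;>
    simp only [FamDidx_mu, FamDidx_t, FamDidx_sg_add, mul_neg]

omit [CharZero K] in
theorem FamDidx_mu_s {h z : ℕ} (a : FamDidx_T h z) :
    FamDidx_mu K (FamDidx_s a) = FamDidx_mu K a := by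
  obtain ⟨x | x, ε⟩ := a
  · simp only [FamDidx_mu, FamDidx_s, FamDidx_sg_add, mul_neg, neg_mul, neg_neg]
  · rfl

omit [CharZero K] in
/-- diagonal matrices with opposite entries are in the Lie algebra -/
theorem FamDidx_skew {h z : ℕ} {d : FamDidx_T h z → K}
    (hd : ∀ a, d (FamDidx_t a) = -d a) :
    (Matrix.diagonal d).transpose * JT K = -(JT K * Matrix.diagonal d) := by
  ext a b
  rw [Matrix.diagonal_transpose, FamDidx_mulJ, Matrix.neg_apply, FamDidx_Jmul]
  by_cases hab : a = FamDidx_t b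
  · rw [hab, FamDidx_t_t, Matrix.diagonal_apply_eq, Matrix.diagonal_apply_eq, hd]
  · rw [Matrix.diagonal_apply_ne _ hab, Matrix.diagonal_apply_ne, neg_zero]
    intro h1
    exact hab (by rw [← h1, FamDidx_t_t])

theorem FamDidx_c_ne {h z : ℕ} {ι : K} (hι : ι * ι = -1) (a : FamDidx_T h z) :
    FamDidx_c ι a ≠ 0 := by
  have hs : ∀ ε : Fin 2, FamDidx_sg K ε ≠ 0 := by
    intro ε h0
    have h1 := FamDidx_sg_sq (K := K) ε
    rw [h0, mul_zero] at h1
    exact zero_ne_one h1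
  have hι0 : ι ≠ 0 := by
    intro h0
    rw [h0, mul_zero] at hι
    exact one_ne_zero (neg_eq_zero.1 hι.symm)
  obtain ⟨x | x, ε⟩ := a
  · exact hs _
  · exact mul_ne_zero hι0 (hs _)

/-- the involution on diagonal matrices -/
theorem FamDidx_hom {h z : ℕ} {ι : K} (hι : ι * ι = -1) {r : Rz K (FamDidx_T h z) θ}
    (hS : r.IsS (SF ι h z)) {x : g} {d : FamDidx_T h z → K} (hx : r.ρ x = Matrix.diagonal d)
    (c : K) (hd : ∀ a, d (FamDidx_s a) = c * d a) : θ.hom x = c • x := by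
  apply r.inj
  rw [map_smul]
  ext a b
  have h1 := congrFun (congrFun (hS x) a) (FamDidx_s b)
  rw [FamDidx_mulS, FamDidx_Smul, FamDidx_s_s, hx] at h1
  rw [Matrix.smul_apply, hx, smul_eq_mul]
  by_cases hab : a = b
  · rw [hab, Matrix.diagonal_apply_eq, hd] at h1
    rw [hab, Matrix.diagonal_apply_eq]
    refine mul_right_cancel₀ (FamDidx_c_ne hι (FamDidx_s b)) ?_
    rw [h1]
    ring
  · rw [Matrix.diagonal_apply_ne _ hab, mul_zero]
    rw [Matrix.diagonal_apply_ne, mul_zero] at h1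
    · exact (mul_eq_zero.1 h1).resolve_right (FamDidx_c_ne hι _)
    · intro h2
      exact hab (by rw [← FamDidx_s_s a, h2, FamDidx_s_s])

theorem FamDidx_nat (i j : ℕ) : (i : K) + 1 ≠ -((j : K) + 1) := by
  intro h
  have h1 : ((i + 1 + (j + 1) : ℕ) : K) = 0 := by
    push_cast
    linear_combination h
  have h2 := Nat.cast_eq_zero.1 h1
  omega

/-- the pairs of indices with the same `lam` -/
theorem FamDidx_lam_eq {h z : ℕ} (hz : z ≤ 1) {a b : FamDidx_T h z} (hab : a ≠ b)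
    (hl : FamDidx_lam K a = FamDidx_lam K b) :
    (∃ (i : Fin h) (s : Fin 2) (ε : Fin 2), a = (Sum.inl (i, s), ε) ∧
      b = (Sum.inl (i, s + 1), ε)) ∨
    (∃ (x : Fin z) (ε : Fin 2), a = (Sum.inr x, ε) ∧ b = (Sum.inr x, ε + 1)) := by
  have h0 : ∀ i : ℕ, (i : K) + 1 ≠ 0 := fun i => Nat.cast_add_one_ne_zero i
  have hs : ∀ ε : Fin 2, FamDidx_sg K ε ≠ 0 := by
    intro ε h0
    have h1 := FamDidx_sg_sq (K := K) ε
    rw [h0, mul_zero] at h1
    exact zero_ne_one h1
  obtain ⟨⟨i, s⟩ | x, ε⟩ := a <;> obtain ⟨⟨j, t⟩ | y, δ⟩ := b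
  · left
    simp only [FamDidx_lam] at hl
    have hεδ : ε = δ := by
      by_contra h1
      rw [(FamDidx_two ε δ).1 h1, FamDidx_sg_add, mul_neg, ← neg_mul] at hl
      have h2 := mul_right_cancel₀ (hs δ) hl
      exact FamDidx_nat (K := K) j.val i.val h2.symm
    rw [hεδ] at hl
    have h2 := mul_right_cancel₀ (hs δ) hl
    have h3 : i.val = j.val := Nat.cast_injective (R := K) (by linear_combination h2)
    have h4 : i = j := Fin.ext h3
    subst h4
    subst hεδ
    refine ⟨i, s, ε, rfl, ?_⟩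
    have h5 : t ≠ s := by
      intro h6
      exact hab (by rw [h6])
    rw [(FamDidx_two t s).1 h5]
  · simp only [FamDidx_lam] at hl
    exact absurd hl (mul_ne_zero (h0 _) (hs _))
  · simp only [FamDidx_lam] at hl
    exact absurd hl.symm (mul_ne_zero (h0 _) (hs _))
  · right
    have h1 : x = y := by
      have := x.isLt
      have := y.isLt
      exact Fin.ext (by omega)
    subst h1
    refine ⟨x, ε, rfl, ?_⟩
    have h5 : δ ≠ ε := by
      intro h6
      exact hab (by rw [h6])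
    rw [(FamDidx_two δ ε).1 h5]

/-- the point in the torus form: `a1 = diag λ`, `λ ((i,s),ε) = (i+1) (-1)^ε`, `0` on `Fin z`;
`a0 = diag μ`, `μ ((i,s),ε) = (-1)^s (-1)^ε`, `μ (z,ε) = (-1)^ε`.  `λ a = λ b`, `a ≠ b` happens for
`a = ((i,0),ε)`, `b = ((i,1),ε)` (then `μ a = -μ b`, and odd skew matrices vanish there: by oddness
`x_{f2 f1} = x_{e1 e2}` and by skewness `x_{e1 e2} = -x_{f2 f1}`) and for `(z,0)`, `(z,1)` (skew
matrices vanish there). -/
theorem FamD_index {h z : ℕ} (hz : z ≤ 1) {ι : K} (hι : ι * ι = -1)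
    {r : Rz K ((Fin h × Fin 2 ⊕ Fin z) × Fin 2) θ} (hJ : r.IsJ (JT K) 1) (hS : r.IsS (SF ι h z))
    (he : IsContraction θ e) :
    ∃ x0 : k →ₗ[K] K, Module.finrank K (stab x0) ≤ 2 * h + z := by
  obtain ⟨a1, ha1⟩ := hJ.surj (FamDidx_skew (K := K) (h := h) (z := z)
    (d := FamDidx_lam K) FamDidx_lam_t)
  obtain ⟨a0, ha0⟩ := hJ.surj (FamDidx_skew (K := K) (h := h) (z := z)
    (d := FamDidx_mu K) FamDidx_mu_t)
  have h1 : θ.hom a1 = -a1 := by
    rw [FamDidx_hom hι hS ha1 (-1) (fun a => by rw [FamDidx_lam_s, neg_one_mul]),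
      neg_one_smul]
  have h0 : θ.hom a0 = a0 := by
    rw [FamDidx_hom hι hS ha0 1 (fun a => by rw [FamDidx_mu_s, one_mul]),
      one_smul]
  have hskew : ∀ (x : g) (a b : FamDidx_T h z),
      r.ρ x a b = -r.ρ x (FamDidx_t b) (FamDidx_t a) := by
    intro x a b
    have h2 := congrFun (congrFun (hJ.skew x) b) (FamDidx_t a)
    rw [FamDidx_mulJ, FamDidx_t_t, Matrix.neg_apply, FamDidx_Jmul, Matrix.transpose_apply] at h2
    exact h2
  have h20 : (2 : K) ≠ 0 := two_ne_zero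
  let E : Fin (2 * h + z) ≃ Fin h × Fin 2 ⊕ Fin z := Fintype.equivOfCardEq (by
    rw [Fintype.card_fin, Fintype.card_sum, Fintype.card_prod, Fintype.card_fin,
      Fintype.card_fin, Fintype.card_fin, mul_comm])
  refine ⟨r.pnt e (a0 + a1), r.finrank_stab_le he h0 h1 ha1 ha0 ?_ ?_
    (LinearMap.funLeft K K (fun i : Fin (2 * h + z) => ((E i, 0) : FamDidx_T h z))) ?_⟩
  · intro x hx a b hab hl
    rcases FamDidx_lam_eq hz hab hl with ⟨i, s, ε, rfl, rfl⟩ | ⟨y, ε, rfl, rfl⟩
    · have h2 := congrFun (congrFun (hS x) (Sum.inl (i, s), ε))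
        (FamDidx_s (Sum.inl (i, s + 1), ε))
      rw [FamDidx_mulS, FamDidx_Smul, FamDidx_s_s, hx, map_neg, Matrix.neg_apply] at h2
      have h3 := hskew x (Sum.inl (i, s), ε) (Sum.inl (i, s + 1), ε)
      simp only [FamDidx_t, FamDidx_s, FamDidx_c, FamDidx_add2, FamDidx_sg_add] at h2 h3
      rw [h3] at h2 ⊢
      have h4 : (2 : K) * (FamDidx_sg K s *
          r.ρ x (Sum.inl (i, s + 1), ε + 1) (Sum.inl (i, s), ε + 1)) = 0 := by
        linear_combination h2
      have h5 := (mul_eq_zero.1 h4).resolve_left h20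
      have h6 := congrArg (fun t => FamDidx_sg K s * t) h5
      simp only [mul_zero, ← mul_assoc, FamDidx_sg_sq, one_mul] at h6
      rw [h6, neg_zero]
    · have h3 := hskew x (Sum.inr y, ε) (Sum.inr y, ε + 1)
      simp only [FamDidx_t, FamDidx_add2] at h3
      have h4 : (2 : K) * r.ρ x (Sum.inr y, ε) (Sum.inr y, ε + 1) = 0 := by
        linear_combination h3
      exact (mul_eq_zero.1 h4).resolve_left h20
  · intro a b hab hl h2
    rcases FamDidx_lam_eq hz hab hl with ⟨i, s, ε, rfl, rfl⟩ | ⟨y, ε, rfl, rfl⟩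
    · simp only [FamDidx_mu, FamDidx_sg_add] at h2
      have h4 : (2 : K) * (FamDidx_sg K s * FamDidx_sg K ε) = 0 := by
        linear_combination h2
      have h5 := (mul_eq_zero.1 h4).resolve_left h20
      have h6 : (1 : K) = 0 := by
        linear_combination (FamDidx_sg K s * FamDidx_sg K ε) * h5 -
          FamDidx_sg K ε * FamDidx_sg K ε * FamDidx_sg_sq (K := K) s -
          FamDidx_sg_sq (K := K) ε
      exact one_ne_zero h6
    · simp only [FamDidx_mu, FamDidx_sg_add] at h2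
      have h4 : (2 : K) * FamDidx_sg K ε = 0 := by
        linear_combination h2
      have h5 := (mul_eq_zero.1 h4).resolve_left h20
      have h6 := FamDidx_sg_sq (K := K) ε
      rw [h5, mul_zero] at h6
      exact zero_ne_one h6
  · intro x d hd hf
    have h3 : ∀ y, d (y, 0) = 0 := by
      intro y
      have h4 := congrFun hf (E.symm y)
      rw [LinearMap.funLeft_apply, E.apply_symm_apply] at h4
      exact h4
    funext a
    obtain ⟨y, ε⟩ := a
    have h5 := hskew x (y, 0) (y, 0)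
    rw [hd, Matrix.diagonal_apply_eq, Matrix.diagonal_apply_eq, h3 y] at h5
    have h6 : d (y, 1) = 0 := (neg_eq_zero.1 h5.symm)
    fin_cases ε
    · exact h3 y
    · exact h6

end Pool.Agent.helper49.QA
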