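import Mathlib
import Pool.Agent.helper49.QA.FamDdeg
import Pool.Agent.helper49.QA.FamDodd
import Pool.Agent.helper49.QA.FamDeven
import Pool.Agent.helper49.QA.FamDidx
import Pool.Agent.helper49.QA.LimPar
import Pool.Agent.helper49.QA.LAPairI

/-!
# Type DIII: the assembly (see the header of FamDdef.lean)
-/

set_option autoImplicit false

namespace Pool.Agent.helper49.QA

open Polynomial Pool.Agent.helper5.AS
open Pool.Agent.helper5.ASQ (Invol even oddc brk IsContraction)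
open Pool.Agent.helper90.MF (od)

variable {K : Type*} [Field K] [CharZero K] {g : Type*}
  [LieRing g] [LieAlgebra K g] {θ : Invol K g}
  {k : Type*} [LieRing k] [LieAlgebra K k] {e : g ≃ₗ[K] k}

/-! ### weighted permutation matrices -/

section wp

variable {X : Type*} [Fintype X] [DecidableEq X]

/-- the matrix with the entry `c a` at `(a, s a)` -/
def FamD_wp {K : Type*} [Field K] {X : Type*} [DecidableEq X] (c : X → K) (s : X → X) :
    Matrix X X K :=
  fun a b => if b = s a then c a else 0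

omit [CharZero K] in
theorem FamD_wp_mul (c : X → K) (s : X → X) (A : Matrix X X K) (a b : X) :
    (FamD_wp c s * A) a b = c a * A (s a) b := by
  rw [Matrix.mul_apply, Finset.sum_eq_single (s a)]
  · rw [FamD_wp, if_pos rfl]
  · intro x _ hx
    rw [FamD_wp, if_neg hx, zero_mul]
  · intro h
    exact absurd (Finset.mem_univ _) h

omit [CharZero K] in
theorem FamD_mul_wp (c : X → K) {s : X → X} (hs : ∀ a, s (s a) = a) (A : Matrix X X K) (a b : X) :
    (A * FamD_wp c s) a b = A a (s b) * c (s b) := by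
  rw [Matrix.mul_apply, Finset.sum_eq_single (s b)]
  · rw [FamD_wp, if_pos (hs b).symm]
  · intro x _ hx
    rw [FamD_wp, if_neg, mul_zero]
    intro h
    apply hx
    rw [h, hs]
  · intro h
    exact absurd (Finset.mem_univ _) h

omit [CharZero K] in
theorem FamD_wpt_mul (c : X → K) {s : X → X} (hs : ∀ a, s (s a) = a) (A : Matrix X X K) (a b : X) :
    ((FamD_wp c s).transpose * A) a b = c (s a) * A (s a) b := by
  rw [Matrix.mul_apply, Finset.sum_eq_single (s a)]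
  · rw [Matrix.transpose_apply, FamD_wp, if_pos (hs a).symm]
  · intro x _ hx
    rw [Matrix.transpose_apply, FamD_wp, if_neg, zero_mul]
    intro h
    apply hx
    rw [h, hs]
  · intro h
    exact absurd (Finset.mem_univ _) h

omit [CharZero K] in
theorem FamD_wp_sq {c : X → K} {s : X → X} (hs : ∀ a, s (s a) = a) {κ : K}
    (hc : ∀ a, c a * c (s a) = κ) : FamD_wp c s * FamD_wp c s = κ • (1 : Matrix X X K) := by
  ext a b
  rw [FamD_wp_mul, FamD_wp, hs, Matrix.smul_apply, Matrix.one_apply, smul_eq_mul]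
  by_cases h : b = a
  · rw [if_pos h, if_pos h.symm, hc, mul_one]
  · rw [if_neg h, if_neg (Ne.symm h), mul_zero, mul_zero]

omit [CharZero K] in
theorem FamD_wp_iso {c : X → K} {s t : X → X} (hs : ∀ a, s (s a) = a)
    (hst : ∀ a, s (t (s a)) = t a) (hc : ∀ a, c (s a) * c (t (s a)) = 1) :
    (FamD_wp c s).transpose * FamD_wp (fun _ => (1 : K)) t * FamD_wp c s =
      FamD_wp (fun _ => (1 : K)) t := by
  ext a b
  rw [FamD_mul_wp c hs, FamD_wpt_mul c hs, FamD_wp, FamD_wp]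
  by_cases h : b = t a
  · have h1 : s b = t (s a) := by rw [h, ← hst, hs]
    rw [if_pos h1, if_pos h, mul_one, h1, hc]
  · rw [if_neg h, if_neg, mul_zero, zero_mul]
    intro h1
    apply h
    rw [← hst, ← h1, hs]

omit [CharZero K] [Fintype X] in
theorem FamD_wp_transpose {t : X → X} (ht : ∀ a, t (t a) = a) :
    (FamD_wp (fun _ => (1 : K)) t).transpose = FamD_wp (fun _ => (1 : K)) t := by
  ext a b
  rw [Matrix.transpose_apply, FamD_wp, FamD_wp]
  refine if_congr ⟨fun h => ?_, fun h => ?_⟩ rfl rfl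
  · rw [h, ht]
  · rw [h, ht]

end wp

/-! ### the torus form -/

/-- the permutation of `JT` -/
def FamD_t {X : Type*} : X × Fin 2 → X × Fin 2 := fun a => (a.1, a.2 + 1)

/-- the permutation of `SF` -/
def FamD_s {h z : ℕ} : (Fin h × Fin 2 ⊕ Fin z) × Fin 2 → (Fin h × Fin 2 ⊕ Fin z) × Fin 2
  | (Sum.inl x, ε) => (Sum.inl (x.1, x.2 + 1), ε + 1)
  | (Sum.inr x, ε) => (Sum.inr x, ε)

/-- the weights of `SF` -/
def FamD_c {K : Type*} [Field K] (ι : K) {h z : ℕ} : (Fin h × Fin 2 ⊕ Fin z) × Fin 2 → K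
  | (Sum.inl x, _) => if x.2 = 1 then 1 else -1
  | (Sum.inr _, ε) => if ε = 0 then ι else -ι

theorem FamD_two (ε : Fin 2) : ε + 1 + 1 = ε := by
  fin_cases ε <;> rfl

theorem FamD_two' (ε δ : Fin 2) : ε ≠ δ ↔ δ = ε + 1 := by
  fin_cases ε <;> fin_cases δ <;> decide

theorem FamD_t_t {X : Type*} (a : X × Fin 2) : FamD_t (FamD_t a) = a := by
  rcases a with ⟨x, ε⟩
  show (x, ε + 1 + 1) = (x, ε)
  rw [FamD_two]

theorem FamD_s_s {h z : ℕ} (a : (Fin h × Fin 2 ⊕ Fin z) × Fin 2) : FamD_s (FamD_s a) = a := by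
  rcases a with ⟨⟨x, s⟩ | x, ε⟩
  · show (Sum.inl (x, s + 1 + 1), ε + 1 + 1) = (Sum.inl (x, s), ε)
    rw [FamD_two, FamD_two]
  · rfl

theorem FamD_s_t {h z : ℕ} (a : (Fin h × Fin 2 ⊕ Fin z) × Fin 2) :
    FamD_s (FamD_t (FamD_s a)) = FamD_t a := by
  rcases a with ⟨⟨x, s⟩ | x, ε⟩
  · show (Sum.inl (x, s + 1 + 1), ε + 1 + 1 + 1) = (Sum.inl (x, s), ε + 1)
    rw [FamD_two, FamD_two]
  · rfl

omit [CharZero K] in
theorem FamD_JT {X : Type*} [DecidableEq X] :
    JT K (X := X) = FamD_wp (fun _ => (1 : K)) FamD_t := by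
  ext a b
  rcases a with ⟨x, ε⟩
  rcases b with ⟨y, δ⟩
  show (if x = y ∧ ε ≠ δ then (1 : K) else 0) = if (y, δ) = (x, ε + 1) then 1 else 0
  refine if_congr ?_ rfl rfl
  rw [FamD_two', Prod.mk.injEq]
  constructor
  · rintro ⟨h1, h2⟩
    exact ⟨h1.symm, h2⟩
  · rintro ⟨h1, h2⟩
    exact ⟨h1.symm, h2⟩

omit [CharZero K] in
theorem FamD_SF (ι : K) (h z : ℕ) : SF ι h z = FamD_wp (FamD_c ι) FamD_s := by
  ext a b
  rcases a with ⟨⟨x, s⟩ | x, ε⟩ <;> rcases b with ⟨⟨y, t⟩ | y, δ⟩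
  · show (if x = y ∧ s ≠ t ∧ ε ≠ δ then (if t = 0 then (1 : K) else -1) else 0) =
      if (Sum.inl (y, t), δ) = (Sum.inl (x, s + 1), ε + 1) then (if s = 1 then 1 else -1) else 0
    by_cases h1 : x = y ∧ t = s + 1 ∧ δ = ε + 1
    · obtain ⟨rfl, rfl, rfl⟩ := h1
      refine (if_pos ⟨rfl, (FamD_two' _ _).2 rfl, (FamD_two' _ _).2 rfl⟩).trans
        (Eq.trans ?_ (if_pos rfl).symm)
      refine if_congr ?_ rfl rfl
      fin_cases s <;> decide
    · refine (if_neg ?_).trans (if_neg ?_).symm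
      · rintro ⟨h2, h3, h4⟩
        exact h1 ⟨h2, (FamD_two' _ _).1 h3, (FamD_two' _ _).1 h4⟩
      · intro h2
        apply h1
        rw [Prod.mk.injEq, Sum.inl.injEq, Prod.mk.injEq] at h2
        exact ⟨h2.1.1.symm, h2.1.2, h2.2⟩
  · show (0 : K) = if (Sum.inr y, δ) = (Sum.inl (x, s + 1), ε + 1) then (if s = 1 then 1 else -1)
      else 0
    rw [if_neg (by simp)]
  · show (0 : K) = if (Sum.inl (y, t), δ) = (Sum.inr x, ε) then (if ε = 0 then ι else -ι) else 0
    rw [if_neg (by simp)]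
  · show (if x = y ∧ ε = δ then (if δ = 0 then ι else -ι) else 0) =
      if ((Sum.inr y : Fin h × Fin 2 ⊕ Fin z), δ) = (Sum.inr x, ε) then
        (if ε = 0 then ι else -ι) else 0
    by_cases h1 : x = y ∧ ε = δ
    · obtain ⟨rfl, rfl⟩ := h1
      rw [if_pos ⟨rfl, rfl⟩, if_pos rfl]
    · rw [if_neg h1, if_neg]
      intro h2
      apply h1
      rw [Prod.mk.injEq, Sum.inr.injEq] at h2
      exact ⟨h2.1.symm, h2.2.symm⟩

omit [CharZero K] in
theorem FamD_c_s {ι : K} (hι : ι * ι = -1) {h z : ℕ} (a : (Fin h × Fin 2 ⊕ Fin z) × Fin 2) :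
    FamD_c ι a * FamD_c ι (FamD_s a) = -1 := by
  rcases a with ⟨⟨x, s⟩ | x, ε⟩
  · show (if s = 1 then (1 : K) else -1) * (if s + 1 = 1 then 1 else -1) = -1
    fin_cases s <;> simp
  · show (if ε = 0 then ι else -ι) * (if ε = 0 then ι else -ι) = -1
    split_ifs
    · exact hι
    · rw [neg_mul_neg, hι]

omit [CharZero K] in
theorem FamD_c_t {ι : K} (hι : ι * ι = -1) {h z : ℕ} (a : (Fin h × Fin 2 ⊕ Fin z) × Fin 2) :
    FamD_c ι (FamD_s a) * FamD_c ι (FamD_t (FamD_s a)) = 1 := by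
  rcases a with ⟨⟨x, s⟩ | x, ε⟩
  · show (if s + 1 = 1 then (1 : K) else -1) * (if s + 1 = 1 then 1 else -1) = 1
    split_ifs <;> ring
  · show (if ε = 0 then ι else -ι) * (if ε + 1 = 0 then ι else -ι) = 1
    fin_cases ε
    · simp [hι]
    · simp [hι]

/-- the index point -/
theorem FamD_torus [IsAlgClosed K] {n : Type*} [Fintype n] [DecidableEq n] {l : ℕ}
    (hl : Fintype.card n = l + l) {r : Rz K n θ} {J S : Matrix n n K}
    (hJ : r.IsJ J 1) (hS : r.IsS S) (hSS : S * S = -1) (hSJ : S.transpose * J * S = J)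
    (he : IsContraction θ e) {ι : K} (hι : ι * ι = -1) :
    ∃ x0 : k →ₗ[K] K, Module.finrank K (stab x0) ≤ l := by
  obtain ⟨h, z, hz, hl2⟩ : ∃ h z, z ≤ 1 ∧ 2 * h + z = l := ⟨l / 2, l % 2, by omega, by omega⟩
  have hJt : (JT K (X := Fin h × Fin 2 ⊕ Fin z)).transpose = (1 : K) • JT K := by
    rw [one_smul, FamD_JT, FamD_wp_transpose FamD_t_t]
  have hJJ : JT K (X := Fin h × Fin 2 ⊕ Fin z) * JT K = 1 := by
    rw [FamD_JT, FamD_wp_sq FamD_t_t (κ := (1 : K)) (fun _ => one_mul _), one_smul]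
  have hJd : (JT K (X := Fin h × Fin 2 ⊕ Fin z)).det ≠ 0 :=
    Matrix.det_ne_zero_of_right_inverse hJJ
  have hSS' : SF ι h z * SF ι h z = -1 := by
    rw [FamD_SF, FamD_wp_sq FamD_s_s (FamD_c_s hι), neg_smul, one_smul]
  have hSJ' : (SF ι h z).transpose * JT K * SF ι h z = JT K := by
    rw [FamD_SF, FamD_JT, FamD_wp_iso FamD_s_s FamD_s_t (FamD_c_t hι)]
  obtain ⟨P, Q, hPQ, hQP, h1, h2⟩ := exists_equiv_pair'
    (m := (Fin h × Fin 2 ⊕ Fin z) × Fin 2) (n := n)
    (by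
      rw [Fintype.card_prod, Fintype.card_sum, Fintype.card_prod, Fintype.card_fin,
        Fintype.card_fin, Fintype.card_fin, hl]
      omega) (Or.inl rfl) hJ.symm hJt hJ.det hJd hSS hSS' hSJ hSJ'
  obtain ⟨x0, hx0⟩ := FamD_index hz hι (r := r.conj P Q hPQ hQP) (hJ.conj hPQ hQP h1)
    (hS.conj hPQ hQP h2) he
  exact ⟨x0, by omega⟩

/-! ### the chain form -/

omit [CharZero K] in
theorem FamD_chain {l : ℕ} {ι : K} (hι : ι * ι = -1) :
    (Matrix.diagonal fun i : Fin (2 * l) => if i.val % 2 = 1 then -ι else ι).transpose *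
      JF K l * (Matrix.diagonal fun i : Fin (2 * l) => if i.val % 2 = 1 then -ι else ι) =
      JF K l := by
  ext i j
  rw [Matrix.diagonal_transpose, Matrix.mul_diagonal, Matrix.diagonal_mul]
  simp only [JF]
  by_cases h : i.val + j.val + 1 = 2 * l
  · rw [if_pos h]
    by_cases h1 : i.val % 2 = 1
    · rw [if_pos h1, if_neg (by omega)]
      linear_combination (-(-1 : K) ^ (min i.val j.val)) * hι
    · rw [if_neg h1, if_pos (by omega)]
      linear_combination (-(-1 : K) ^ (min i.val j.val)) * hι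
  · rw [if_neg h, mul_zero, zero_mul]

/-- the common part of the two cases -/
theorem FamD_assemble {l : ℕ} (hl : 1 ≤ l) {r : Rz K (Fin (2 * l)) θ} (hJ : r.IsJ (JF K l) 1)
    (hp : r.IsPar (parF l)) (he : IsContraction θ e)
    {x0 : k →ₗ[K] K} (hx0 : Module.finrank K (stab x0) ≤ l)
    {C : (g →ₗ[K] K) → Subalgebra K (Ue K g)} (hC : ∀ ξ, ∀ a ∈ C ξ, ∀ b ∈ C ξ, a * b = b * a)
    (hH : ∀ m, HasQ C m (r.H true m))
    {F : Sy K g} {b : ℕ} (hF : HasQ C l F) (hFm : F ∈ imS K g ^ l) (hFc : F ∈ centre K g)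
    (hb : (scS θ F).natDegree ≤ b) (hlb : l ≤ b + 2) (p0 q0 : g) (c0 : ℕ)
    (htest : ∀ s t : K, ¬ (s = 0 ∧ t = 0) →
      (∀ m, Even m → 1 ≤ m → m < 2 * l → ∃ a : g,
        (∀ j, j + 1 < m → (r.M (s • p0 + t • q0) ^ j * r.M a).trace = 0) ∧
        ((r.M (s • p0 + t • q0) ^ (m - 1) * r.M a).trace).coeff (bF l m) ≠ 0 ∧
        (2 * c0 < m → dd (r.pnt e (s • p0 + t • q0)) (r.pnt e a)
          (smap (e : g →ₗ[K] k) ((scS θ F).coeff b)) = 0)) ∧
      ∃ a : g, dd (r.pnt e (s • p0 + t • q0)) (r.pnt e a)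
          (smap (e : g →ₗ[K] k) ((scS θ F).coeff b)) ≠ 0 ∧
        ∀ m, m ≤ 2 * c0 → 1 ≤ m → dd (r.pnt e (s • p0 + t • q0)) (r.pnt e a)
          (r.gen e true m (bF l m)) = 0) :
    Quant K k := by
  have hdeg : ∀ i : Fin (l - 1), ∀ a : g,
      (phi K true (2 * (i.val + 1)) (r.M a)).natDegree ≤ bF l (2 * (i.val + 1)) :=
    fun i a => FamD_degree hJ hp (even_two_mul _) a
  refine r.quant_of_pf he (l := l - 1) (fun _ => true) (fun i => 2 * (i.val + 1))
    (fun i => bF l (2 * (i.val + 1))) ?_ ?_ hdeg (smap (e : g →ₗ[K] k) ((scS θ F).coeff b))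
    (d := l) hl (smap_mem _ (coeff_scS_mem θ hFm b)) (centre_contract θ he hFc hb) p0 q0 c0
    ?_ x0 ?_ ?_
  · intro i j hij
    have : i.val < j.val := hij
    show 2 * (i.val + 1) < 2 * (j.val + 1)
    omega
  · intro i
    omega
  · intro s t hst
    obtain ⟨h1, aG, h2, h3⟩ := htest s t hst
    have h4 : ∀ i : Fin (l - 1), ∃ a : g,
        (∀ j, j + 1 < 2 * (i.val + 1) → (r.M (s • p0 + t • q0) ^ j * r.M a).trace = 0) ∧
        ((r.M (s • p0 + t • q0) ^ (2 * (i.val + 1) - 1) * r.M a).trace).coeff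
          (bF l (2 * (i.val + 1))) ≠ 0 ∧
        (2 * c0 < 2 * (i.val + 1) → dd (r.pnt e (s • p0 + t • q0)) (r.pnt e a)
          (smap (e : g →ₗ[K] k) ((scS θ F).coeff b)) = 0) := by
      intro i
      have hi := i.isLt
      exact h1 (2 * (i.val + 1)) (even_two_mul _) (by omega) (by omega)
    choose a ha1 ha2 ha3 using h4
    refine ⟨a, aG, fun i => ⟨ha1 i, ha2 i⟩, h2, fun i hi => ?_, fun i hi => ?_⟩
    · exact h3 (2 * (i.val + 1)) (by omega) (by omega)
    · exact ha3 i (by omega)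
  · omega
  · intro ξ
    have h5 := comm_of_limQ θ r.lie r.inj he hC
      (fun o : Option (Fin (l - 1)) => o.elim F fun i => r.H true (2 * (i.val + 1)))
      (fun o => o.elim l fun i => 2 * (i.val + 1))
      (fun o => o.elim b fun i => bF l (2 * (i.val + 1))) (fun o => ?_) ξ
    · have h6 : (fun o : Option (Fin (l - 1)) => smap (e : g →ₗ[K] k)
          ((scS θ (o.elim F fun i => r.H true (2 * (i.val + 1)))).coeff
            (o.elim b fun i => bF l (2 * (i.val + 1))))) =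
          fun o => o.elim (smap (e : g →ₗ[K] k) ((scS θ F).coeff b))
            fun i => r.gen e true (2 * (i.val + 1)) (bF l (2 * (i.val + 1))) := by
        funext o
        cases o with
        | none => rfl
        | some i => rfl
      rw [h6] at h5
      exact h5
    · cases o with
      | none => exact limQ_of_hasQ θ e hF hb hlb
      | some i =>
        refine limQ_of_hasQ θ e (hH (2 * (i.val + 1)))
          (r.degree_le true _ _ (hdeg i)) ?_
        show 2 * (i.val + 1) ≤ bF l (2 * (i.val + 1)) + 2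
        unfold bF
        split_ifs <;> omega

/-- type DIII -/
theorem quant_D3 [IsAlgClosed K] {n : Type*} [Fintype n] [DecidableEq n]
    (hn1 : 1 ≤ Fintype.card n) {r : Rz K n θ} {J S : Matrix n n K}
    (hJ : r.IsJ J 1) (hS : r.IsS S) (hSS : S * S = -1) (hSJ : S.transpose * J * S = J)
    (he : IsContraction θ e)
    (hyp : ∀ (h : ℕ) (r' : Rz K (Fin (2 * h)) θ) (pr : Fin h × Fin 2 ≃ Fin (2 * h)),
      2 * h = Fintype.card n → r'.IsJ 1 1 → ∃ C : (g →ₗ[K] K) → Subalgebra K (Ue K g),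
        (∀ ξ, ∀ a ∈ C ξ, ∀ b ∈ C ξ, a * b = b * a) ∧ (∀ j, HasQ C j (ek j r'.XM)) ∧
          HasQ C h (r'.PF pr 1)) :
    Quant K k := by
  obtain ⟨l, hl⟩ := even_card_of_sq_neg (Or.inl rfl) hJ.symm hJ.det hSS hSJ
  have hl1 : 1 ≤ l := by omega
  obtain ⟨ι, hι'⟩ := IsAlgClosed.exists_pow_nat_eq (-1 : K) (n := 2) (by norm_num)
  have hι : ι * ι = -1 := by rw [← sq, hι']
  have hι0 : ι ≠ 0 := by
    intro h
    rw [h, mul_zero] at hι
    exact one_ne_zero (neg_eq_zero.1 hι.symm)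
  obtain ⟨x0, hx0⟩ := FamD_torus (k := k) (e := e) hl hJ hS hSS hSJ he hι
  -- the chain form
  have hJt : (JF K l).transpose = (1 : K) • JF K l := by
    rw [JF_transpose, one_smul]
  have hDD : (Matrix.diagonal fun i : Fin (2 * l) => if i.val % 2 = 1 then -ι else ι) *
      (Matrix.diagonal fun i : Fin (2 * l) => if i.val % 2 = 1 then -ι else ι) = -1 := by
    rw [Matrix.diagonal_mul_diagonal, ← Matrix.diagonal_one, Matrix.diagonal_neg]
    congr 1
    funext i
    split_ifs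
    · rw [neg_mul_neg, hι]
    · rw [hι]
  obtain ⟨P, Q, hPQ, hQP, h1, h2⟩ := exists_equiv_pair' (m := Fin (2 * l)) (n := n)
    (by rw [Fintype.card_fin, hl, two_mul]) (Or.inl rfl) hJ.symm hJt hJ.det
    (JF_det_ne_zero _) hSS hDD hSJ (FamD_chain hι)
  have hp : (r.conj P Q hPQ hQP).IsPar (parF l) := by
    refine (hS.conj hPQ hQP h2).isPar ?_ ?_
    · intro i
      split_ifs
      · exact neg_ne_zero.2 hι0
      · exact hι0
    · intro i j
      rw [od]
      simp only [parF, decide_eq_decide]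
      by_cases hi : i.val % 2 = 1 <;> by_cases hj : j.val % 2 = 1 <;> simp [hi, hj]
  have hJ1 : (r.conj P Q hPQ hQP).IsJ (JF K l) 1 := hJ.conj hPQ hQP h1
  generalize (r.conj P Q hPQ hQP) = r1 at hp hJ1
  -- the diagonal form
  obtain ⟨P', Q', hPQ', hQP', h1'⟩ := exists_equiv_symm (n := Fin (2 * l)) (m := Fin (2 * l)) rfl
    (JF_transpose l) (Matrix.transpose_one (n := Fin (2 * l)) (α := K)) (JF_det_ne_zero l)
    (by rw [Matrix.det_one]; exact one_ne_zero)
  let pr : Fin l × Fin 2 ≃ Fin (2 * l) := finProdFinEquiv.trans (finCongr (mul_comm l 2))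
  obtain ⟨C, hC, hQ, hPF⟩ := hyp l (r1.conj P' Q' hPQ' hQP') pr (by omega)
    (hJ1.conj hPQ' hQP' h1')
  have hdQ : Q'.det ≠ 0 := by
    intro h
    have h3 := congrArg Matrix.det hQP'
    rw [Matrix.det_mul, h, zero_mul, Matrix.det_one] at h3
    exact zero_ne_one h3
  have hP : HasQ C l (r1.PF pr (JF K l)) := by
    have h3 := r1.conj_PF pr hPQ' hQP' h1'
    have h4 : r1.PF pr (JF K l) = Q'.det⁻¹ • (r1.conj P' Q' hPQ' hQP').PF pr 1 := by
      rw [h3, smul_smul, inv_mul_cancel₀ hdQ, one_smul]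
    rw [h4]
    exact hPF.smul _
  have hH : ∀ m, HasQ C m (r1.H true m) := by
    intro m
    rw [← r1.conj_H P' Q' hPQ' hQP']
    exact HasQ.sqr hC hQ m
  obtain ⟨p0, hp0⟩ := hJ1.surj (skew_NdnF l)
  obtain ⟨q0, hq0⟩ := hJ1.surj (skew_NupF l)
  rcases Nat.even_or_odd l with hev | hod
  · -- even `l`
    obtain ⟨κ, hκ, hdeg⟩ := FamD_pf_degree_even hJ1 hp pr hev hl1
    obtain ⟨c0, hc0⟩ := hev
    have hc0' : 2 * c0 = l := by omega
    refine FamD_assemble hl1 hJ1 hp he hx0 hC hH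
      (F := r1.PF pr (JF K l) - κ • r1.H true l) (b := l - 2) ?_ ?_ ?_ hdeg (by omega) p0 q0 c0 ?_
    · rw [sub_eq_add_neg, ← neg_smul]
      exact hP.add ((hH l).smul _)
    · exact Submodule.sub_mem _ (r1.PF_mem pr) (Submodule.smul_mem _ _ (r1.H_mem true l))
    · intro x
      have h3 : contract_ad x (r1.PF pr (JF K l)) = 0 := r1.PF_centre pr hJ1 x
      have h4 : contract_ad x (r1.H true l) = 0 := r1.H_centre true l x
      rw [← contract_ad_apply, map_sub, Derivation.map_smul, h3, h4, smul_zero, sub_zero]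
    · intro s t hst
      rw [hc0']
      obtain ⟨h5, aG, h6, h7⟩ := FamD_tests_even (e := e) hJ1 hp pr ⟨c0, hc0⟩ hl1 hκ hdeg hp0 hq0 hst
      exact ⟨h5, aG, h6, h7⟩
  · -- odd `l`
    refine FamD_assemble hl1 hJ1 hp he hx0 hC hH
      (F := r1.PF pr (JF K l)) (b := l - 1) hP (r1.PF_mem pr) (r1.PF_centre pr hJ1)
      (FamD_pf_degree_odd hJ1 hp pr hod) (by omega) p0 q0 0 ?_
    intro s t hst
    obtain ⟨h5, aG, h6⟩ := FamD_tests_odd (e := e) hJ1 hp pr hod hp0 hq0 hst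
    refine ⟨fun m hm hm1 hm2 => ?_, aG, h6, fun m hm hm1 => by omega⟩
    obtain ⟨a, h7, h8, h9⟩ := h5 m hm hm1 hm2
    exact ⟨a, h7, h8, fun _ => h9⟩

end Pool.Agent.helper49.QA
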