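import Mathlib
import Pool.Agent.helper49.QA.Datum
import Pool.Agent.helper90.QM.Main

/-!
# The machine in terms of `S(L)`
-/

set_option autoImplicit false

namespace Pool.Agent.helper49.QA

open Pool.Agent.helper5.AS Pool.Agent.helper90

variable {K : Type*} [Field K] {L : Type*} [LieRing L] [LieAlgebra K L]

section transfer

variable {ι : Type*} [Fintype ι] [DecidableEq ι] (b : Module.Basis ι K L)

/-- the coordinates -/
noncomputable def toMv : Sy K L ≃ₐ[K] MvPolynomial ι K := SymmetricAlgebra.equivMvPolynomial b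

omit [Fintype ι] [DecidableEq ι] in
theorem toMv_b (v : ι) : toMv b (ιS K L (b v)) = MvPolynomial.X v :=
  SymmetricAlgebra.equivMvPolynomial_ι_apply b v

omit [DecidableEq ι] in
theorem toMv_ι (z : L) : toMv b (ιS K L z) = ∑ v, MvPolynomial.C (b.repr z v) * MvPolynomial.X v := by
  conv_lhs => rw [← b.sum_repr z]
  rw [map_sum, map_sum]
  refine Finset.sum_congr rfl fun v _ => ?_
  rw [map_smul, map_smul, toMv_b, MvPolynomial.smul_eq_C_mul]

/-- the structure matrix -/
noncomputable def stM : Matrix ι ι (MvPolynomial ι K) := fun u v => toMv b (ιS K L ⁅b u, b v⁆)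

omit [DecidableEq ι] in
theorem stM_hom (u v : ι) : (stM b u v).IsHomogeneous 1 := by
  rw [stM, toMv_ι]
  refine MvPolynomial.IsHomogeneous.sum _ _ _ fun w _ => ?_
  have h := (MvPolynomial.isHomogeneous_C ι (b.repr ⁅b u, b v⁆ w)).mul
    (MvPolynomial.isHomogeneous_X K w)
  rwa [zero_add] at h

omit [DecidableEq ι] in
theorem toMv_hom {n : ℕ} {F : Sy K L} (hF : F ∈ imS K L ^ n) : (toMv b F).IsHomogeneous n := by
  induction n generalizing F with
  | zero =>
    rw [pow_zero] at hF
    obtain ⟨c, rfl⟩ := Submodule.mem_one.1 hF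
    rw [AlgEquiv.commutes]
    exact MvPolynomial.isHomogeneous_C _ _
  | succ n ih =>
    rw [pow_succ] at hF
    refine Submodule.mul_induction_on hF ?_ ?_
    · rintro a ha _ ⟨x, rfl⟩
      rw [map_mul]
      refine (ih ha).mul ?_
      rw [toMv_ι]
      refine MvPolynomial.IsHomogeneous.sum _ _ _ fun w _ => ?_
      have h := (MvPolynomial.isHomogeneous_C ι (b.repr x w)).mul
        (MvPolynomial.isHomogeneous_X K w)
      rwa [zero_add] at h
    · intro a c ha hc
      rw [map_add]
      exact ha.add hc

/-- a derivation in coordinates -/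
theorem der_coord (D : Derivation K (Sy K L) (Sy K L)) (F : Sy K L) :
    toMv b (D F) = ∑ v, toMv b (D (ιS K L (b v))) * MvPolynomial.pderiv v (toMv b F) := by
  let D' : Derivation K (MvPolynomial ι K) (MvPolynomial ι K) :=
    { toLinearMap := (toMv b).toLinearMap ∘ₗ (D : Sy K L →ₗ[K] Sy K L) ∘ₗ
        (toMv b).symm.toLinearMap
      map_one_eq_zero' := by
        show toMv b (D ((toMv b).symm 1)) = 0
        rw [map_one, Derivation.map_one_eq_zero, map_zero]
      leibniz' := fun f g => by
        show toMv b (D ((toMv b).symm (f * g))) =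
          f • toMv b (D ((toMv b).symm g)) + g • toMv b (D ((toMv b).symm f))
        rw [map_mul, Derivation.leibniz, map_add, smul_eq_mul, smul_eq_mul, map_mul, map_mul,
          AlgEquiv.apply_symm_apply, AlgEquiv.apply_symm_apply, smul_eq_mul, smul_eq_mul] }
  have hD' : D' = ∑ v, (toMv b (D (ιS K L (b v)))) • MvPolynomial.pderiv v := by
    refine MvPolynomial.derivation_ext fun i => ?_
    have h1 : D' (MvPolynomial.X i) = toMv b (D (ιS K L (b i))) := by
      show toMv b (D ((toMv b).symm (MvPolynomial.X i))) = _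
      rw [← toMv_b b i, AlgEquiv.symm_apply_apply]
    rw [h1]
    have h2 : (∑ v, (toMv b (D (ιS K L (b v)))) • MvPolynomial.pderiv (R := K) v)
        (MvPolynomial.X i) = ∑ v, toMv b (D (ιS K L (b v))) *
          MvPolynomial.pderiv v (MvPolynomial.X i) := by
      rw [← Derivation.coeFnAddMonoidHom_apply, map_sum, Finset.sum_apply]
      rfl
    rw [h2, Finset.sum_eq_single i]
    · rw [MvPolynomial.pderiv_X_self, mul_one]
    · intro v _ hv
      rw [MvPolynomial.pderiv_X_of_ne hv.symm, mul_zero]
    · intro h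
      exact absurd (Finset.mem_univ i) h
  have h3 : toMv b (D F) = D' (toMv b F) := by
    show _ = toMv b (D ((toMv b).symm (toMv b F)))
    rw [AlgEquiv.symm_apply_apply]
  rw [h3, hD', ← Derivation.coeFnAddMonoidHom_apply, map_sum, Finset.sum_apply]
  rfl

theorem centre_iff (F : Sy K L) : F ∈ centre K L ↔ QM.IsInv (stM b) (toMv b F) := by
  have key : ∀ u, toMv b (adS (b u) F) = ∑ v, stM b u v * MvPolynomial.pderiv v (toMv b F) := by
    intro u
    have h := der_coord b (derD (ιS K L ∘ₗ (LieAlgebra.ad K L (b u) : L →ₗ[K] L))) F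
    rw [derD_apply] at h
    refine h.trans (Finset.sum_congr rfl fun v _ => ?_)
    rw [derD_ι]
    rfl
  constructor
  · intro h u
    rw [← key, h (b u), map_zero]
  · intro h x
    have h1 : ∀ u, adS (b u) F = 0 := fun u => (toMv b).injective (by rw [key, h u, map_zero])
    have h2 : adS x F = ∑ u, b.repr x u • adS (b u) F := by
      have h3 : derD (ιS K L ∘ₗ (LieAlgebra.ad K L x : L →ₗ[K] L)) =
          ∑ u, b.repr x u • derD (ιS K L ∘ₗ (LieAlgebra.ad K L (b u) : L →ₗ[K] L)) := by
        refine der_ext fun y => ?_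
        rw [derD_ι, ← Derivation.coeFnAddMonoidHom_apply, map_sum, Finset.sum_apply]
        have h4 : ∀ u, (Derivation.coeFnAddMonoidHom
            (b.repr x u • derD (ιS K L ∘ₗ (LieAlgebra.ad K L (b u) : L →ₗ[K] L)))) (ιS K L y) =
            b.repr x u • ιS K L ⁅b u, y⁆ := by
          intro u
          rw [Derivation.coeFnAddMonoidHom_apply, Derivation.smul_apply, derD_ι]
          rfl
        rw [Finset.sum_congr rfl fun u _ => h4 u]
        show ιS K L ⁅x, y⁆ = _
        conv_lhs => rw [← b.sum_repr x, sum_lie, map_sum]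
        refine Finset.sum_congr rfl fun u _ => ?_
        rw [smul_lie, map_smul]
      have h5 := congrArg (fun D : Derivation K (Sy K L) (Sy K L) => D F) h3
      simp only [derD_apply] at h5
      rw [← Derivation.coeFnAddMonoidHom_apply, map_sum, Finset.sum_apply] at h5
      exact h5
    rw [h2]
    exact Finset.sum_eq_zero fun u _ => by rw [h1, smul_zero]

/-- the coordinates of a point -/
noncomputable def pt (x : L →ₗ[K] K) : ι → K := fun v => x (b v)

omit [Fintype ι] [DecidableEq ι] in
theorem eval_toMv (x : L →ₗ[K] K) (F : Sy K L) :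
    MvPolynomial.eval (pt b x) (toMv b F) = SymmetricAlgebra.lift x F := by
  have h : (MvPolynomial.aeval (pt b x)).comp (toMv b).toAlgHom = SymmetricAlgebra.lift x := by
    refine SymmetricAlgebra.algHom_ext (b.ext fun i => ?_)
    show MvPolynomial.aeval (pt b x) (toMv b (ιS K L (b i))) =
      SymmetricAlgebra.lift x (SymmetricAlgebra.ι K L (b i))
    rw [toMv_b, SymmetricAlgebra.lift_ι_apply, MvPolynomial.aeval_X]
    rfl
  exact congrArg (fun G : Sy K L →ₐ[K] K => G F) h

theorem ker_evalMat (x : L →ₗ[K] K) :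
    Module.finrank K (LinearMap.ker (QM.evalMat (stM b) (pt b x)).mulVecLin) =
      Module.finrank K (stab x) := by
  have h : LinearMap.ker (QM.evalMat (stM b) (pt b x)).mulVecLin =
      Submodule.map (b.equivFun : L →ₗ[K] (ι → K)) (stab x) := by
    ext c
    rw [LinearMap.mem_ker, Matrix.mulVecLin_apply]
    constructor
    · intro hc
      refine ⟨b.equivFun.symm c, ?_, b.equivFun.apply_symm_apply c⟩
      show b.equivFun.symm c ∈ stab x
      rw [mem_stab]
      intro y
      have h1 : ∀ u, x ⁅b u, b.equivFun.symm c⁆ = 0 := by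
        intro u
        have h2 := congrFun hc u
        rw [Matrix.mulVec, dotProduct, Pi.zero_apply] at h2
        rw [Module.Basis.equivFun_symm_apply, lie_sum, map_sum, ← h2]
        refine Finset.sum_congr rfl fun v _ => ?_
        rw [QM.evalMat, Matrix.map_apply, stM, eval_toMv]
        show x ⁅b u, c v • b v⁆ = SymmetricAlgebra.lift x (SymmetricAlgebra.ι K L ⁅b u, b v⁆) * c v
        rw [SymmetricAlgebra.lift_ι_apply, lie_smul, map_smul, smul_eq_mul, mul_comm]
      rw [← b.sum_repr y, lie_sum, map_sum]
      refine Finset.sum_eq_zero fun u _ => ?_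
      rw [lie_smul, map_smul, ← lie_skew, map_neg, h1, neg_zero, smul_zero]
    · rintro ⟨z, hz, rfl⟩
      have hz' : ∀ y, x ⁅z, y⁆ = 0 := hz
      ext u
      rw [Matrix.mulVec, dotProduct, Pi.zero_apply]
      have h3 : x ⁅b u, z⁆ = 0 := by rw [← lie_skew, map_neg, hz', neg_zero]
      rw [← h3]
      conv_rhs => rw [← b.sum_repr z, lie_sum, map_sum]
      refine Finset.sum_congr rfl fun v _ => ?_
      rw [QM.evalMat, Matrix.map_apply, stM, eval_toMv]
      show SymmetricAlgebra.lift x (SymmetricAlgebra.ι K L ⁅b u, b v⁆) * b.repr z v =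
        x ⁅b u, b.repr z v • b v⁆
      rw [SymmetricAlgebra.lift_ι_apply, lie_smul, map_smul, smul_eq_mul, mul_comm]
  rw [h]
  exact LinearEquiv.finrank_map_eq b.equivFun (stab x)

omit [Fintype ι] [DecidableEq ι] in
theorem shift_toMv (ξ : L →ₗ[K] K) (F : Sy K L) (m : ℕ) :
    toMv b ((shift ξ F).coeff m) = QM.shiftCoeff (pt b ξ) (toMv b F) m := by
  have h : (Polynomial.mapAlgHom (toMv b).toAlgHom).comp (shift ξ) =
      (QM.shiftHom (pt b ξ)).comp (toMv b).toAlgHom := by
    refine SymmetricAlgebra.algHom_ext (b.ext fun i => ?_)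
    show Polynomial.mapAlgHom (toMv b).toAlgHom (shift ξ (ιS K L (b i))) =
      QM.shiftHom (pt b ξ) (toMv b (ιS K L (b i)))
    rw [toMv_b, shift, expand_ι, QM.shiftHom, MvPolynomial.aeval_X]
    show Polynomial.map _ (Polynomial.C (ιS K L (b i)) +
      Polynomial.C (algebraMap K (Sy K L) (ξ (b i))) * Polynomial.X) = _
    rw [Polynomial.map_add, Polynomial.map_mul, Polynomial.map_C, Polynomial.map_C,
      Polynomial.map_X]
    congr 2
    · exact toMv_b b i
    · congr 1
      exact AlgEquiv.commutes (toMv b) _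
  have h2 := congrArg (fun G : Sy K L →ₐ[K] Polynomial (MvPolynomial ι K) => (G F).coeff m) h
  rw [QM.shiftCoeff]
  refine Eq.trans ?_ h2
  show _ = (Polynomial.map _ (shift ξ F)).coeff m
  rw [Polynomial.coeff_map]
  rfl

/-- the derivative in a direction is linear in the direction -/
theorem dd_eq (x y : L →ₗ[K] K) (F : Sy K L) :
    dd x y F = ∑ v, y (b v) * QM.gradAt (toMv b F) (pt b x) v := by
  -- the derivation `∂_y` followed by the evaluation at `x`
  let D : Derivation K (Sy K L) (Sy K L) := derD (Algebra.linearMap K (Sy K L) ∘ₗ y)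
  have h1 : dd x y F = SymmetricAlgebra.lift x (D F) := by
    have h0 : ∀ G : Sy K L, (ev2 x y G).coeff 0 = SymmetricAlgebra.lift x G := by
      intro G
      induction G using SymmetricAlgebra.induction with
      | algebraMap r =>
        rw [AlgHom.commutes, AlgHom.commutes, Polynomial.algebraMap_apply,
          Polynomial.coeff_C_zero]
      | ι z =>
        rw [ev2_ι]
        simp
      | mul a c ha hc => rw [map_mul, map_mul, Polynomial.mul_coeff_zero, ha, hc]
      | add a c ha hc => rw [map_add, map_add, Polynomial.coeff_add, ha, hc]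
    show (ev2 x y F).coeff 1 = _
    induction F using SymmetricAlgebra.induction with
    | algebraMap r =>
      rw [AlgHom.commutes, Derivation.map_algebraMap, map_zero, Polynomial.algebraMap_apply,
        Polynomial.coeff_C_succ]
    | ι z =>
      show (ev2 x y (ιS K L z)).coeff 1 = SymmetricAlgebra.lift x (D (ιS K L z))
      rw [ev2_ι, derD_ι]
      simp only [Polynomial.coeff_add, Polynomial.coeff_C_succ, Polynomial.coeff_C_mul_X,
        zero_add]
      show (if 1 = 1 then y z else 0) = SymmetricAlgebra.lift x (algebraMap K (Sy K L) (y z))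
      rw [if_pos rfl, AlgHom.commutes]
      rfl
    | mul a c ha hc =>
      rw [map_mul, Polynomial.mul_coeff_one, ha, hc, h0, h0, Derivation.leibniz, map_add,
        smul_eq_mul, smul_eq_mul, map_mul, map_mul]
      ring
    | add a c ha hc => rw [map_add, Polynomial.coeff_add, ha, hc, map_add, map_add]
  rw [h1, ← eval_toMv b, der_coord b D, map_sum]
  refine Finset.sum_congr rfl fun v _ => ?_
  rw [map_mul]
  congr 1
  have h2 : D (ιS K L (b v)) = algebraMap K (Sy K L) (y (b v)) := by
    rw [derD_ι]
    rfl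
  rw [h2, AlgEquiv.commutes, MvPolynomial.algebraMap_eq, MvPolynomial.eval_C]

end transfer

section main

variable [IsAlgClosed K] [CharZero K] [FiniteDimensional K L]

/-- the machine -/
theorem machine {I : Type*} [Fintype I] {F : I → Sy K L} {d : I → ℕ} {p q x0 : L →ₗ[K] K}
    (h : Data F d p q x0) :
    centre K L = (Algebra.adjoin K (Set.range F) : Set (Sy K L)) ∧
    ∀ ξ : L →ₗ[K] K, IsReg ξ →
      AlgebraicIndependent K fun j : Σ i, Fin (d i) => (shift ξ (F j.1)).coeff j.2 := by
  classical
  let b := Module.finBasis K L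
  have hgood : QM.Good (stM b) (fun i => toMv b (F i)) d (pt b p) (pt b q) := by
    refine ⟨stM_hom b, fun i => toMv_hom b (h.hom i), h.pos, fun i => (centre_iff b _).1 (h.cen i),
      fun s t hst => ?_⟩
    have h1 := h.ind s t hst
    have h2 : s • pt b p + t • pt b q = pt b (s • p + t • q) := by
      ext v
      simp [pt]
    rw [h2]
    rw [Fintype.linearIndependent_iff] at h1 ⊢
    intro g hg
    refine h1 g ?_
    ext y
    rw [Finset.sum_apply]
    simp only [Pi.smul_apply, smul_eq_mul, dd_eq b, Pi.zero_apply]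
    simp only [Finset.mul_sum]
    rw [Finset.sum_comm]
    refine Finset.sum_eq_zero fun v _ => ?_
    have h3 := congrFun hg v
    rw [Finset.sum_apply, Pi.zero_apply] at h3
    simp only [Pi.smul_apply, smul_eq_mul] at h3
    calc ∑ i, g i * (y (b v) * QM.gradAt (toMv b (F i)) (pt b (s • p + t • q)) v)
        = y (b v) * ∑ i, g i * QM.gradAt (toMv b (F i)) (pt b (s • p + t • q)) v := by
          rw [Finset.mul_sum]
          exact Finset.sum_congr rfl fun i _ => by ring
      _ = 0 := by rw [h3, mul_zero]
  have hreg : QM.Reg (stM b) (Fintype.card I) (pt b x0) := by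
    rw [QM.Reg, ker_evalMat]
    exact h.idx
  constructor
  · ext f
    constructor
    · intro hf
      have h1 := QM.mem_adjoin hgood hreg ((centre_iff b f).1 hf)
      have h2 : (Algebra.adjoin K (Set.range fun i => toMv b (F i))) =
          (Algebra.adjoin K (Set.range F)).map (toMv b).toAlgHom := by
        rw [AlgHom.map_adjoin]
        congr 1
        rw [← Set.range_comp]
        rfl
      rw [h2] at h1
      obtain ⟨f', hf', h3⟩ := h1
      have h4 : f' = f := (toMv b).injective h3
      rw [← h4]
      exact hf'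
    · intro hf
      have hf' : f ∈ Algebra.adjoin K (Set.range F) := hf
      intro x
      have hD : ∀ y, adS y f = derD (ιS K L ∘ₗ (LieAlgebra.ad K L y : L →ₗ[K] L)) f :=
        fun y => rfl
      rw [hD]
      have hF : ∀ i, derD (ιS K L ∘ₗ (LieAlgebra.ad K L x : L →ₗ[K] L)) (F i) = 0 :=
        fun i => h.cen i x
      clear hf hD
      induction hf' using Algebra.adjoin_induction with
      | mem a ha =>
        obtain ⟨i, rfl⟩ := ha
        exact hF i
      | algebraMap r => exact Derivation.map_algebraMap _ r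
      | add a c _ _ ha hc => rw [map_add, ha, hc, add_zero]
      | mul a c _ _ ha hc => rw [Derivation.leibniz, ha, hc, smul_zero, smul_zero, add_zero]
  · intro ξ hξ
    have hregξ : QM.Reg (stM b) (Fintype.card I) (pt b ξ) := by
      rw [QM.Reg, ker_evalMat]
      exact (hξ x0).trans h.idx
    have h1 := QM.shift_indep hgood hregξ
    have h2 : (fun j : Σ i, Fin (d i) => QM.shiftCoeff (pt b ξ) (toMv b (F j.1)) j.2) =
        (toMv b) ∘ fun j : Σ i, Fin (d i) => (shift ξ (F j.1)).coeff j.2 := by
      ext1 j
      exact (shift_toMv b ξ (F j.1) j.2).symm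
    rw [h2] at h1
    exact h1.of_comp (f := (toMv b).toAlgHom)

/-- the argument shift algebra in terms of generators -/
theorem shiftAlg_eq {I : Type*} [Fintype I] {F : I → Sy K L} {d : I → ℕ} {p q x0 : L →ₗ[K] K}
    (h : Data F d p q x0) (ξ : L →ₗ[K] K) :
    shiftAlg ξ (centre K L) = Algebra.adjoin K
      (Set.range fun j : Σ i, Fin (d i) => (shift ξ (F j.1)).coeff j.2) := by
  classical
  set A := Algebra.adjoin K
      (Set.range fun j : Σ i, Fin (d i) => (shift ξ (F j.1)).coeff j.2) with hA
  let b := Module.finBasis K L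
  -- all the coefficients of the shift of `F i` are in `A`
  have hF : ∀ i m, (shift ξ (F i)).coeff m ∈ A := by
    intro i m
    rcases lt_trichotomy m (d i) with hm | hm | hm
    · exact Algebra.subset_adjoin ⟨⟨i, ⟨m, hm⟩⟩, rfl⟩
    · have h1 : toMv b ((shift ξ (F i)).coeff m) =
          MvPolynomial.C (MvPolynomial.eval (pt b ξ) (toMv b (F i))) := by
        rw [shift_toMv, hm]
        exact QM.shiftCoeff_top _ (toMv_hom b (h.hom i))
      have h2 : (shift ξ (F i)).coeff m =
          algebraMap K (Sy K L) (MvPolynomial.eval (pt b ξ) (toMv b (F i))) := by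
        apply (toMv b).injective
        rw [h1, AlgEquiv.commutes]
        rfl
      rw [h2]
      exact Subalgebra.algebraMap_mem _ _
    · have h1 : toMv b ((shift ξ (F i)).coeff m) = 0 := by
        rw [shift_toMv]
        exact QM.shiftCoeff_eq_zero _ (toMv_hom b (h.hom i)) m hm
      have h2 : (shift ξ (F i)).coeff m = 0 := (toMv b).injective (by rw [h1, map_zero])
      rw [h2]
      exact zero_mem _
  apply le_antisymm
  · rw [shiftAlg]
    refine Algebra.adjoin_le ?_
    rintro _ ⟨G, hG, n, rfl⟩
    have hG' : G ∈ Algebra.adjoin K (Set.range F) := by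
      have h1 := (machine h).1
      rw [h1] at hG
      exact hG
    show (shift ξ G).coeff n ∈ A
    induction hG' using Algebra.adjoin_induction generalizing n with
    | mem a ha =>
      obtain ⟨i, rfl⟩ := ha
      exact hF i n
    | algebraMap r =>
      rw [AlgHom.commutes, Polynomial.algebraMap_apply, Polynomial.coeff_C]
      split_ifs
      · exact Subalgebra.algebraMap_mem _ _
      · exact zero_mem _
    | add a c ha hc iha ihc =>
      rw [map_add, Polynomial.coeff_add]
      refine add_mem (iha ?_ n) (ihc ?_ n)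
      · rw [(machine h).1]
        exact ha
      · rw [(machine h).1]
        exact hc
    | mul a c ha hc iha ihc =>
      rw [map_mul, Polynomial.coeff_mul]
      refine sum_mem fun x _ => mul_mem (iha ?_ x.1) (ihc ?_ x.2)
      · rw [(machine h).1]
        exact ha
      · rw [(machine h).1]
        exact hc
  · rw [hA]
    refine Algebra.adjoin_le ?_
    rintro _ ⟨j, rfl⟩
    exact Algebra.subset_adjoin ⟨F j.1, h.cen j.1, j.2, rfl⟩

/-- data with commuting lifts give the lifting of the argument shift algebra -/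
theorem lifts_of_data (hpbw : SymbInj K L) {I : Type*} [Fintype I] {F : I → Sy K L}
    {d : I → ℕ} {p q x0 : L →ₗ[K] K} (h : Data F d p q x0) (ξ : L →ₗ[K] K) (hξ : IsReg ξ)
    (hc : Comm F d ξ) : Lifts (shiftAlg ξ (centre K L)) := by
  obtain ⟨u, hcomm, hsym⟩ := hc
  rw [shiftAlg_eq h ξ]
  exact lifts_of_algIndep hpbw (fun j : Σ i, Fin (d i) => (shift ξ (F j.1)).coeff j.2)
    (fun j => d j.1 - j.2) (fun j => u j.1 j.2) (fun j => hsym j.1 j.2 j.2.2)
    (fun j j' => hcomm j.1 j'.1 j.2 j'.2 j.2.2 j'.2.2) ((machine h).2 ξ hξ)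

/-- THE MAIN REDUCTION -/
theorem shiftLifts_of_quant (h : Quant K L) (ξ : L →ₗ[K] K) (hξ : IsReg ξ) :
    Pool.Agent.helper5.ASQ.ShiftLifts ξ := by
  obtain ⟨hlin, n, F, d, p, q, x0, hD, hC⟩ := h
  have h1 := lifts_of_data hlin.symbInj hD ξ hξ (hC ξ)
  unfold Pool.Agent.helper5.ASQ.ShiftLifts
  rw [centreQ_set, shiftAlgQ]
  exact liftsQ h1

end main

end Pool.Agent.helper49.QA
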