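import Mathlib
import Pool.Agent.helper49.QA.JForm

/-!
# Normalisation of the involution for the types B, C, D

`θ` is the conjugation by an arbitrary invertible matrix `S`.  Then `S` can be replaced by a
multiple `S₁` with `S₁ᵀ J S₁ = J` and `S₁ ^ 2 = ±1`.

Proof.  Let `B = J⁻¹ Sᵀ J S`.  For `x` in the Lie algebra `S x S⁻¹` is in the Lie algebra; with
`xᵀ = - J x J⁻¹` this gives `B x = x B`.  A matrix commuting with all the `J`-skew matrices is a
scalar (`scalar_of_comm_skew`), so `Sᵀ J S = c J`, `c ≠ 0`; divide `S` by a square root of `c`.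
`S ^ 2` commutes with all `x` in the Lie algebra since `θ ^ 2 = 1`, hence `S ^ 2 = d`, and
`J = (S ^ 2)ᵀ J S ^ 2 = d ^ 2 J`, so `d = ±1`.

`scalar_of_comm_skew`.  Let `B` commute with all `A` with `Aᵀ J = - J A`, i.e. with all
`a - J⁻¹ aᵀ J`, `a` arbitrary.  Symmetric case (size at least 3): by `exists_equiv_symm` we may
assume `J = 1` (conjugation): `B` commutes with `E_ij - E_ji`; comparing the entries `(k, j)` for
`k ≠ i, j` gives `B k i = 0`..., all off-diagonal entries vanish (three indices), and
`B i i = B j j`.  Skew case (size at least 2, so `J` is nonzero): the matrices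
`v wᵀ J + w vᵀ J` are in the Lie algebra; for `v = w`: `B v vᵀ J = v vᵀ J B` for all `v`, so
every `v` is an eigenvector of `B`, so `B` is a scalar.
-/

set_option autoImplicit false

namespace Pool.Agent.helper49.QA

open Pool.Agent.helper5.AS
open Pool.Agent.helper5.ASQ (Invol even oddc brk IsContraction)

variable {K : Type*} [Field K] [CharZero K] [IsAlgClosed K] {n : Type*} [Fintype n]
  [DecidableEq n] {g : Type*} [LieRing g] [LieAlgebra K g] {θ : Invol K g}

/-- the products of a matrix with the elementary ones -/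
theorem Norm_entry {κ : K} (B N : Matrix n n K) (i j k l : n)
    (h : B * (Matrix.single i j 1 - κ • Matrix.single j i 1) =
      (Matrix.single i j 1 - κ • Matrix.single j i 1) * N) :
    (if l = j then B k i else 0) - κ * (if l = i then B k j else 0) =
      (if k = i then N j l else 0) - κ * (if k = j then N i l else 0) := by
  have h1 := congrFun (congrFun h k) l
  have e1 : ∀ (M : Matrix n n K) (a b : n), (M * Matrix.single a b (1 : K)) k l =
      if l = b then M k a else 0 := by
    intro M a b
    by_cases hb : l = b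
    · rw [if_pos hb, hb, Matrix.mul_single_apply_same, mul_one]
    · rw [if_neg hb, Matrix.mul_single_apply_of_ne _ _ _ _ _ hb]
  have e2 : ∀ (M : Matrix n n K) (a b : n), (Matrix.single a b (1 : K) * M) k l =
      if k = a then M b l else 0 := by
    intro M a b
    by_cases ha : k = a
    · rw [if_pos ha, ha, Matrix.single_mul_apply_same, one_mul]
    · rw [if_neg ha, Matrix.single_mul_apply_of_ne _ _ _ _ _ ha]
  rw [Matrix.mul_sub, Matrix.sub_mul, Matrix.mul_smul, Matrix.smul_mul, Matrix.sub_apply,
    Matrix.sub_apply, Matrix.smul_apply, Matrix.smul_apply, smul_eq_mul, smul_eq_mul, e1, e1, e2,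
    e2] at h1
  exact h1

theorem scalar_of_comm_skew {J : Matrix n n K} {κ : K} (hκ : κ = 1 ∨ κ = -1)
    (hJ : J.transpose = κ • J) (hdet : J.det ≠ 0) (hn : κ = 1 → 3 ≤ Fintype.card n)
    {B : Matrix n n K} (hB : ∀ A : Matrix n n K, A.transpose * J = -(J * A) → B * A = A * B) :
    ∃ c : K, B = c • 1 := by
  have hu : IsUnit J.det := isUnit_iff_ne_zero.2 hdet
  have hκ2 : κ * κ = 1 := by
    rcases hκ with rfl | rfl
    · rw [one_mul]
    · rw [neg_mul_neg, one_mul]
  have key : ∀ i j, B * (Matrix.single i j 1 - κ • Matrix.single j i 1) =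
      (Matrix.single i j 1 - κ • Matrix.single j i 1) * (J * B * J⁻¹) := by
    intro i j
    obtain ⟨Z, hZ⟩ : ∃ Z : Matrix n n K, Z = Matrix.single i j 1 - κ • Matrix.single j i 1 :=
      ⟨_, rfl⟩
    have hZt : Z.transpose = -(κ • Z) := by
      rw [hZ, Matrix.transpose_sub, Matrix.transpose_smul, Matrix.transpose_single,
        Matrix.transpose_single, smul_sub, smul_smul, hκ2, one_smul, neg_sub]
    rw [← hZ]
    have h1 : (Z * J).transpose * J = -(J * (Z * J)) := by
      rw [Matrix.transpose_mul, hJ, hZt, Matrix.smul_mul, Matrix.mul_neg, Matrix.mul_smul,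
        smul_neg, smul_smul, hκ2, one_smul, Matrix.neg_mul, Matrix.mul_assoc]
    have h2 := hB _ h1
    calc B * Z = B * (Z * J) * J⁻¹ := by
          rw [← Matrix.mul_assoc, Matrix.mul_assoc (B * Z), Matrix.mul_nonsing_inv _ hu,
            Matrix.mul_one]
      _ = Z * (J * B * J⁻¹) := by
          rw [h2]
          simp only [Matrix.mul_assoc]
  obtain ⟨N, hN⟩ : ∃ N, N = J * B * J⁻¹ := ⟨_, rfl⟩
  rw [← hN] at key
  have hent := fun i j k l => Norm_entry B N i j k l (key i j)
  -- `B` is diagonal and its entries are those of `N`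
  have hoff : ∀ k i, k ≠ i → B k i = 0 := by
    intro k i hki
    rcases hκ with rfl | rfl
    · obtain ⟨j, hj⟩ : ∃ j, j ∉ ({k, i} : Finset n) := by
        by_contra hcon
        push Not at hcon
        have h1 : Fintype.card n ≤ ({k, i} : Finset n).card := by
          rw [← Finset.card_univ]
          exact Finset.card_le_card fun x _ => hcon x
        have h2 := Finset.card_le_two (a := k) (b := i)
        have h3 := hn rfl
        omega
      rw [Finset.mem_insert, Finset.mem_singleton, not_or] at hj
      have h1 := hent i j k j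
      rw [if_pos rfl, if_neg hj.2, if_neg hki, if_neg (Ne.symm hj.1)] at h1
      linear_combination h1
    · have h1 := hent i i k i
      rw [if_pos rfl, if_neg hki] at h1
      have h2 : (2 : K) * B k i = 0 := by linear_combination h1
      exact (mul_eq_zero.1 h2).resolve_left two_ne_zero
  have hdg : ∀ i j, i ≠ j → B i i = N j j := by
    intro i j hij
    have h1 := hent i j i j
    rw [if_pos rfl, if_neg (Ne.symm hij), if_pos rfl, if_neg hij] at h1
    linear_combination h1
  have heq : ∀ i j, B i i = B j j := by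
    intro i j
    by_cases hij : i = j
    · rw [hij]
    · rcases hκ with rfl | rfl
      · obtain ⟨m, hm⟩ : ∃ m, m ∉ ({i, j} : Finset n) := by
          by_contra hcon
          push Not at hcon
          have h1 : Fintype.card n ≤ ({i, j} : Finset n).card := by
            rw [← Finset.card_univ]
            exact Finset.card_le_card fun x _ => hcon x
          have h2 := Finset.card_le_two (a := i) (b := j)
          have h3 := hn rfl
          omega
        rw [Finset.mem_insert, Finset.mem_singleton, not_or] at hm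
        rw [hdg i m (Ne.symm hm.1), hdg j m (Ne.symm hm.2)]
      · have h1 := hent j j j j
        simp only [if_true] at h1
        have h2 : (2 : K) * (B j j - N j j) = 0 := by linear_combination h1
        have h3 := (mul_eq_zero.1 h2).resolve_left two_ne_zero
        rw [hdg i j hij]
        exact (sub_eq_zero.1 h3).symm
  rcases isEmpty_or_nonempty n with hE | ⟨⟨i₀⟩⟩
  · exact ⟨0, Subsingleton.elim _ _⟩
  · refine ⟨B i₀ i₀, ?_⟩
    ext i j
    rw [Matrix.smul_apply, smul_eq_mul]
    by_cases hij : i = j
    · subst hij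
      rw [Matrix.one_apply_eq, mul_one, heq i i₀]
    · rw [Matrix.one_apply_ne hij, mul_zero, hoff i j hij]

theorem exists_normal {r : Rz K n θ} {J : Matrix n n K} {κ : K} (hJ : r.IsJ J κ)
    (hn : κ = 1 → 3 ≤ Fintype.card n) {S S' : Matrix n n K} (hS : S * S' = 1)
    (hθ : ∀ x, r.ρ (θ.hom x) = S * r.ρ x * S') :
    ∃ S₁ : Matrix n n K, r.IsS S₁ ∧ S₁.transpose * J * S₁ = J ∧ (S₁ * S₁ = 1 ∨ S₁ * S₁ = -1) := by
  rcases isEmpty_or_nonempty n with hE | hne
  · exact ⟨1, fun x => Subsingleton.elim _ _, Subsingleton.elim _ _,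
      Or.inl (Subsingleton.elim _ _)⟩
  have hu : IsUnit J.det := isUnit_iff_ne_zero.2 hJ.det
  have hS2 : S' * S = 1 := mul_eq_one_comm.1 hS
  have hJ0 : J ≠ 0 := by
    intro h
    apply hJ.det
    rw [h]
    exact Matrix.det_zero
  have hSS1 : S.transpose * S'.transpose = 1 := by
    rw [← Matrix.transpose_mul, hS2, Matrix.transpose_one]
  have hSS2 : S'.transpose * S.transpose = 1 := by
    rw [← Matrix.transpose_mul, hS, Matrix.transpose_one]
  -- the form `Sᵀ J S`
  have hG : ∀ A : Matrix n n K, A.transpose * J = -(J * A) →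
      J⁻¹ * (S.transpose * J * S) * A = A * (J⁻¹ * (S.transpose * J * S)) := by
    intro A hA
    obtain ⟨x, rfl⟩ := hJ.surj hA
    have h1 := hJ.skew (θ.hom x)
    rw [hθ, Matrix.transpose_mul, Matrix.transpose_mul] at h1
    have h2 : (r.ρ x).transpose * (S.transpose * J * S) = -(S.transpose * J * S * r.ρ x) := by
      calc (r.ρ x).transpose * (S.transpose * J * S)
          = S.transpose * S'.transpose * (r.ρ x).transpose * S.transpose * J * S := by
            rw [hSS1, Matrix.one_mul]
            simp only [Matrix.mul_assoc]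
        _ = S.transpose * (S'.transpose * ((r.ρ x).transpose * S.transpose) * J) * S := by
            simp only [Matrix.mul_assoc]
        _ = -(S.transpose * J * S * r.ρ x * (S' * S)) := by
            rw [h1, Matrix.mul_neg, Matrix.neg_mul]
            simp only [Matrix.mul_assoc]
        _ = -(S.transpose * J * S * r.ρ x) := by rw [hS2, Matrix.mul_one]
    have h3 : r.ρ x * J⁻¹ = -(J⁻¹ * (r.ρ x).transpose) := by
      calc r.ρ x * J⁻¹ = J⁻¹ * (J * r.ρ x) * J⁻¹ := by
            rw [← Matrix.mul_assoc, Matrix.nonsing_inv_mul _ hu, Matrix.one_mul]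
        _ = -(J⁻¹ * ((r.ρ x).transpose * (J * J⁻¹))) := by
            have h4 : J * r.ρ x = -((r.ρ x).transpose * J) := by rw [hA, neg_neg]
            rw [h4, Matrix.mul_neg, Matrix.neg_mul]
            simp only [Matrix.mul_assoc]
        _ = -(J⁻¹ * (r.ρ x).transpose) := by
            rw [Matrix.mul_nonsing_inv _ hu, Matrix.mul_one]
    rw [← Matrix.mul_assoc (r.ρ x), h3, Matrix.neg_mul, Matrix.mul_assoc (J⁻¹) (r.ρ x).transpose,
      h2, Matrix.mul_neg, neg_neg, Matrix.mul_assoc]
  obtain ⟨c, hc⟩ := scalar_of_comm_skew hJ.sign hJ.symm hJ.det hn hG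
  have hc1 : S.transpose * J * S = c • J := by
    calc S.transpose * J * S = J * (J⁻¹ * (S.transpose * J * S)) := by
          rw [← Matrix.mul_assoc, Matrix.mul_nonsing_inv _ hu, Matrix.one_mul]
      _ = c • J := by rw [hc, Matrix.mul_smul, Matrix.mul_one]
  have hc0 : c ≠ 0 := by
    rintro rfl
    apply hJ0
    rw [zero_smul] at hc1
    calc J = S'.transpose * S.transpose * J * (S * S') := by
          rw [hSS2, hS, Matrix.one_mul, Matrix.mul_one]
      _ = S'.transpose * (S.transpose * J * S) * S' := by
          simp only [Matrix.mul_assoc]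
      _ = 0 := by rw [hc1, Matrix.mul_zero, Matrix.zero_mul]
  obtain ⟨d, hd⟩ := IsAlgClosed.exists_eq_mul_self c
  have hd0 : d ≠ 0 := by
    rintro rfl
    exact hc0 (by rw [hd, zero_mul])
  obtain ⟨T, hT⟩ : ∃ T : Matrix n n K, T = d⁻¹ • S := ⟨_, rfl⟩
  have hTS : r.IsS T := by
    intro x
    rw [hθ, hT, Matrix.mul_smul, Matrix.smul_mul, Matrix.mul_assoc, hS2, Matrix.mul_one]
  have hTJ : T.transpose * J * T = J := by
    rw [hT, Matrix.transpose_smul, Matrix.smul_mul, Matrix.smul_mul, Matrix.mul_smul, hc1,
      smul_smul, smul_smul, hd]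
    have : d⁻¹ * d⁻¹ * (d * d) = 1 := by field_simp
    rw [this, one_smul]
  refine ⟨T, hTS, hTJ, ?_⟩
  -- the square
  have hTT : ∀ A : Matrix n n K, A.transpose * J = -(J * A) → T * T * A = A * (T * T) := by
    intro A hA
    obtain ⟨x, rfl⟩ := hJ.surj hA
    have h1 := hTS (θ.hom x)
    rw [θ.hom_hom] at h1
    rw [← Matrix.mul_assoc, h1, Matrix.mul_assoc, Matrix.mul_assoc, hTS x]
  obtain ⟨f, hf⟩ := scalar_of_comm_skew hJ.sign hJ.symm hJ.det hn hTT
  have h1 : (f * f) • J = J := by
    calc (f * f) • J = (T * T).transpose * J * (T * T) := by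
          rw [hf, Matrix.transpose_smul, Matrix.transpose_one, Matrix.smul_mul, Matrix.smul_mul,
            Matrix.one_mul, Matrix.mul_smul, Matrix.mul_one, smul_smul]
      _ = T.transpose * (T.transpose * J * T) * T := by
          rw [Matrix.transpose_mul]
          simp only [Matrix.mul_assoc]
      _ = J := by rw [hTJ, hTJ]
  have h2 : f * f = 1 := by
    have h3 : (f * f - 1) • J = 0 := by rw [sub_smul, one_smul, h1, sub_self]
    have h4 := (smul_eq_zero.1 h3).resolve_right hJ0
    exact sub_eq_zero.1 h4
  rcases mul_self_eq_one_iff.1 h2 with h3 | h3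
  · left
    rw [hf, h3, one_smul]
  · right
    rw [hf, h3, neg_smul, one_smul]

end Pool.Agent.helper49.QA
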