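import Mathlib
import Pool.Agent.helper49.QA.JForm

/-!
# The matrix realisations of `sl_n`, `so_n` and `sp_n`
-/

set_option autoImplicit false

namespace Pool.Agent.helper49.QA

open Pool.Agent.helper5.AS
open Pool.Agent.helper5.ASQ (Invol even oddc brk IsContraction)

attribute [local instance 100] LieRing.ofAssociativeRing

variable {K : Type*} [Field K] [CharZero K] {n : Type*} [Fintype n] [DecidableEq n] {g : Type*}
  [LieRing g] [LieAlgebra K g]

/-- the trace zero part of a matrix -/
noncomputable def trz [Nonempty n] : Matrix n n K →ₗ[K] LieAlgebra.SpecialLinear.sl n K where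
  toFun := fun b => ⟨b - (b.trace / (Fintype.card n : K)) • 1, by
    show b - (b.trace / (Fintype.card n : K)) • 1 ∈ LinearMap.ker (Matrix.traceLinearMap n K K)
    rw [LinearMap.mem_ker, Matrix.traceLinearMap_apply, Matrix.trace_sub, Matrix.trace_smul,
      Matrix.trace_one, smul_eq_mul, div_mul_cancel₀, sub_self]
    exact Nat.cast_ne_zero.2 Fintype.card_ne_zero⟩
  map_add' := fun x y => by
    refine Subtype.ext ?_
    show x + y - ((x + y).trace / (Fintype.card n : K)) • (1 : Matrix n n K) =
      (x - (x.trace / (Fintype.card n : K)) • 1) + (y - (y.trace / (Fintype.card n : K)) • 1)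
    rw [Matrix.trace_add, add_div, add_smul]
    abel
  map_smul' := fun c x => by
    refine Subtype.ext ?_
    show c • x - ((c • x).trace / (Fintype.card n : K)) • (1 : Matrix n n K) =
      c • (x - (x.trace / (Fintype.card n : K)) • 1)
    rw [Matrix.trace_smul, smul_sub, smul_smul, smul_eq_mul, mul_div_assoc]

theorem sl_trace (x : LieAlgebra.SpecialLinear.sl n K) : (x : Matrix n n K).trace = 0 := by
  have h : (x : Matrix n n K) ∈ LinearMap.ker (Matrix.traceLinearMap n K K) := x.2
  rwa [LinearMap.mem_ker, Matrix.traceLinearMap_apply] at h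

/-- a matrix realisation from an isomorphism with `sl_n` -/
theorem exists_rz_sl (θ : Invol K g) (hn : 1 ≤ Fintype.card n)
    (φ : g ≃ₗ⁅K⁆ LieAlgebra.SpecialLinear.sl n K)
    (hinv : ∀ x y, ((φ (θ.hom x) : Matrix n n K) * (φ (θ.hom y) : Matrix n n K)).trace =
      ((φ x : Matrix n n K) * (φ y : Matrix n n K)).trace) :
    ∃ r : Rz K n θ, r.IsA ∧ ∀ x, r.ρ x = (φ x : Matrix n n K) := by
  have hne : Nonempty n := Fintype.card_pos_iff.1 hn
  let ρ : g →ₗ[K] Matrix n n K :=
    { toFun := fun x => (φ x : Matrix n n K)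
      map_add' := fun x y => by rw [map_add]; rfl
      map_smul' := fun c x => by rw [map_smul]; rfl }
  let Y : Matrix n n K →ₗ[K] g :=
    { toFun := fun b => φ.symm (trz b)
      map_add' := fun x y => by rw [map_add, map_add]
      map_smul' := fun c x => by rw [map_smul, map_smul]; rfl }
  have hρ : ∀ x, ρ x = (φ x : Matrix n n K) := fun _ => rfl
  have hρY : ∀ b, ρ (Y b) = b - (b.trace / (Fintype.card n : K)) • 1 := by
    intro b
    show ((φ (φ.symm (trz b)) : LieAlgebra.SpecialLinear.sl n K) : Matrix n n K) = _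
    rw [LieEquiv.apply_symm_apply]
    rfl
  have hlie : IsLieMap ρ := by
    intro x y
    rw [hρ, hρ, hρ, LieEquiv.map_lie]
    rfl
  have hinj : Function.Injective ρ := by
    intro x y hxy
    exact φ.injective (Subtype.ext hxy)
  refine ⟨{ ρ := ρ, Y := Y, lie := hlie, inj := hinj, pair := ?_, equi := ?_, inv := hinv },
    hρY, hρ⟩
  · intro x a
    rw [hρY, mul_sub, Matrix.trace_sub, Matrix.mul_smul, mul_one, Matrix.trace_smul]
    have h : (ρ x).trace = 0 := sl_trace _
    rw [h, smul_zero, sub_zero]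
  · intro x a
    refine hinj ?_
    rw [hlie, hρY, hρY]
    have h1 : (ρ x * a - a * ρ x).trace = 0 := by
      rw [Matrix.trace_sub, Matrix.trace_mul_comm, sub_self]
    rw [h1, zero_div, zero_smul, sub_zero, mul_sub, sub_mul, Matrix.mul_smul, Matrix.smul_mul,
      mul_one, one_mul]
    abel

theorem skew_mem {J : Matrix n n K} (x : skewAdjointMatricesLieSubalgebra J) :
    (x : Matrix n n K).transpose * J = J * (-(x : Matrix n n K)) := by
  have h := x.2
  rw [mem_skewAdjointMatricesLieSubalgebra, mem_skewAdjointMatricesSubmodule] at h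
  exact h

/-- a matrix realisation from an isomorphism with the skew-adjoint matrices -/
theorem exists_rz_skew (θ : Invol K g) {J : Matrix n n K} {κ : K} (hκ : κ = 1 ∨ κ = -1)
    (hJ : J.transpose = κ • J) (hdet : J.det ≠ 0)
    (φ : g ≃ₗ⁅K⁆ skewAdjointMatricesLieSubalgebra J)
    (hinv : ∀ x y, ((φ (θ.hom x) : Matrix n n K) * (φ (θ.hom y) : Matrix n n K)).trace =
      ((φ x : Matrix n n K) * (φ y : Matrix n n K)).trace) :
    ∃ r : Rz K n θ, r.IsJ J κ ∧ ∀ x, r.ρ x = (φ x : Matrix n n K) := by
  have hu : IsUnit J.det := isUnit_iff_ne_zero.2 hdet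
  have hJJ : J * J⁻¹ = 1 := Matrix.mul_nonsing_inv J hu
  have hJJ' : J⁻¹ * J = 1 := Matrix.nonsing_inv_mul J hu
  have hκκ : κ * κ = 1 := by rcases hκ with h | h <;> rw [h] <;> norm_num
  have hinvT : (J⁻¹).transpose = κ • J⁻¹ := by
    have h1 : (J⁻¹).transpose * J.transpose = 1 := by
      rw [← Matrix.transpose_mul, hJJ, Matrix.transpose_one]
    have h2 : (J⁻¹).transpose = (J⁻¹).transpose * (κ • J) * (κ • J⁻¹) := by
      rw [mul_assoc, Matrix.smul_mul, Matrix.mul_smul, Matrix.mul_smul, Matrix.mul_smul,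
        hJJ, smul_smul, hκκ, one_smul, mul_one]
    rw [h2, ← hJ, h1, one_mul]
  -- the adjoint
  have hstar : ∀ b : Matrix n n K, (J⁻¹ * b.transpose * J).transpose * J = J * b := by
    intro b
    rw [Matrix.transpose_mul, Matrix.transpose_mul, Matrix.transpose_transpose, hJ, hinvT,
      Matrix.smul_mul, Matrix.mul_smul, smul_mul_assoc, Matrix.mul_smul, smul_mul_assoc, smul_smul,
      hκκ, one_smul, mul_assoc, mul_assoc, hJJ', mul_one]
  let pr : Matrix n n K →ₗ[K] skewAdjointMatricesLieSubalgebra J :=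
    { toFun := fun b => ⟨(2 : K)⁻¹ • (b - J⁻¹ * b.transpose * J), by
        rw [mem_skewAdjointMatricesLieSubalgebra, mem_skewAdjointMatricesSubmodule]
        show ((2 : K)⁻¹ • (b - J⁻¹ * b.transpose * J)).transpose * J =
          J * (-((2 : K)⁻¹ • (b - J⁻¹ * b.transpose * J)))
        rw [Matrix.transpose_smul, Matrix.smul_mul, mul_neg, Matrix.mul_smul, ← smul_neg,
          Matrix.transpose_sub, sub_mul, hstar, mul_sub, ← mul_assoc, ← mul_assoc, hJJ, one_mul]
        congr 1
        abel⟩
      map_add' := fun x y => by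
        refine Subtype.ext ?_
        show (2 : K)⁻¹ • (x + y - J⁻¹ * (x + y).transpose * J) =
          (2 : K)⁻¹ • (x - J⁻¹ * x.transpose * J) + (2 : K)⁻¹ • (y - J⁻¹ * y.transpose * J)
        rw [Matrix.transpose_add, mul_add, add_mul, ← smul_add]
        congr 1
        abel
      map_smul' := fun c x => by
        refine Subtype.ext ?_
        show (2 : K)⁻¹ • (c • x - J⁻¹ * (c • x).transpose * J) =
          c • ((2 : K)⁻¹ • (x - J⁻¹ * x.transpose * J))
        rw [Matrix.transpose_smul, Matrix.mul_smul, Matrix.smul_mul, ← smul_sub, smul_comm] }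
  let ρ : g →ₗ[K] Matrix n n K :=
    { toFun := fun x => (φ x : Matrix n n K)
      map_add' := fun x y => by rw [map_add]; rfl
      map_smul' := fun c x => by rw [map_smul]; rfl }
  let Y : Matrix n n K →ₗ[K] g :=
    { toFun := fun b => φ.symm (pr b)
      map_add' := fun x y => by rw [map_add, map_add]
      map_smul' := fun c x => by rw [map_smul, map_smul]; rfl }
  have hρ : ∀ x, ρ x = (φ x : Matrix n n K) := fun _ => rfl
  have hρY : ∀ b, ρ (Y b) = (2 : K)⁻¹ • (b - J⁻¹ * b.transpose * J) := by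
    intro b
    show ((φ (φ.symm (pr b)) : skewAdjointMatricesLieSubalgebra J) : Matrix n n K) = _
    rw [LieEquiv.apply_symm_apply]
    rfl
  have hsk : ∀ x, (ρ x).transpose * J = -(J * ρ x) := by
    intro x
    rw [hρ, skew_mem, mul_neg]
  have hT : ∀ x, J⁻¹ * (ρ x).transpose * J = -(ρ x) := by
    intro x
    rw [mul_assoc, hsk, mul_neg, ← mul_assoc, hJJ', one_mul]
  have hlie : IsLieMap ρ := by
    intro x y
    rw [hρ, hρ, hρ, LieEquiv.map_lie]
    rfl
  have hinj : Function.Injective ρ := by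
    intro x y hxy
    exact φ.injective (Subtype.ext hxy)
  have h2 : (2 : K)⁻¹ * 2 = 1 := inv_mul_cancel₀ two_ne_zero
  refine ⟨{ ρ := ρ, Y := Y, lie := hlie, inj := hinj, pair := ?_, equi := ?_, inv := hinv },
    ⟨hκ, hJ, hdet, hρY⟩, hρ⟩
  · intro x a
    -- `tr (x a^*) = - tr (x a)`
    have h3 : (ρ x * (J⁻¹ * a.transpose * J)).trace = -(ρ x * a).trace := by
      have h4 : (ρ x * (J⁻¹ * a.transpose * J)).trace =
          ((J * ρ x * J⁻¹) * a.transpose).trace := by
        rw [← mul_assoc, ← mul_assoc, Matrix.trace_mul_comm, ← mul_assoc, ← mul_assoc, mul_assoc J]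
      have h5 : J * ρ x * J⁻¹ = -(ρ x).transpose := by
        have h6 := hsk x
        have h7 : J * ρ x = -((ρ x).transpose * J) := by rw [h6, neg_neg]
        rw [h7, neg_mul, mul_assoc, hJJ, mul_one]
      rw [h4, h5, neg_mul, Matrix.trace_neg, ← Matrix.transpose_mul, Matrix.trace_transpose,
        Matrix.trace_mul_comm]
    rw [hρY, Matrix.mul_smul, Matrix.trace_smul, mul_sub, Matrix.trace_sub, h3, sub_neg_eq_add,
      ← two_mul, smul_eq_mul, ← mul_assoc, h2, one_mul]
  · intro x a
    refine hinj ?_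
    rw [hlie, hρY, hρY, Matrix.mul_smul, Matrix.smul_mul, ← smul_sub]
    congr 1
    have h3 : J⁻¹ * (ρ x * a - a * ρ x).transpose * J =
        ρ x * (J⁻¹ * a.transpose * J) - (J⁻¹ * a.transpose * J) * ρ x := by
      rw [Matrix.transpose_sub, Matrix.transpose_mul, Matrix.transpose_mul, mul_sub, sub_mul]
      have h4 : J⁻¹ * (a.transpose * (ρ x).transpose) * J =
          -(J⁻¹ * a.transpose * J * ρ x) := by
        rw [← mul_assoc, mul_assoc, hsk, mul_neg, ← mul_assoc]
      have h5 : J⁻¹ * ((ρ x).transpose * a.transpose) * J =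
          -(ρ x * (J⁻¹ * a.transpose * J)) := by
        have h6 : J⁻¹ * (ρ x).transpose = -(ρ x * J⁻¹) := by
          have h7 : J⁻¹ * (ρ x).transpose = J⁻¹ * (ρ x).transpose * J * J⁻¹ := by
            rw [mul_assoc, hJJ, mul_one]
          rw [h7, hT, neg_mul]
        rw [← mul_assoc, h6, neg_mul, neg_mul, mul_assoc, mul_assoc, mul_assoc]
      rw [h4, h5]
      abel
    rw [h3, mul_sub, sub_mul]
    abel

end Pool.Agent.helper49.QA
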