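import Mathlib
import Pool.Agent.helper49.QA.Datum

/-!
# Finite direct sums

`k` is the direct sum of the Lie algebras `L i`: there are homomorphisms `j i : L i → k` and
`π i : k → L i` with the usual relations.  (For one summand this is the invariance of `Quant` under
isomorphisms.)

Proof of `quant_sum`.  `Lin`: block diagonal matrices (`Matrix.blockDiagonal'` of the
`ρ i (π i x)`, index type `Σ i, Fin (N i)`, reindexed to `Fin`).  Generators: the
`smap (j i) (F i a)`, of degree `d i a`, index type `Σ i, Fin (n i)`, reindexed to `Fin`;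
`p = ∑ i, p i ∘ π i`, similarly `q`, `x0`.  `[j i x, j l y] = 0` for `i ≠ l` (apply all `π r`).
* centre: for `z = ∑ l, j l (π l z)`, `adS` is additive in `z` (it is the derivation
  `derD (ι ∘ ad z)`), `adS (j l w) (smap (j i) F) = 0` for `l ≠ i` and `= smap (j i) (adS w F)` for
  `l = i`.
* independence: `dd (s • p + t • q) y (smap (j i) F) = dd (s • p i + t • q i) (y ∘ j i) F`, and
  `y = ∑ y i ∘ π i` with arbitrary `y i`.
* stabiliser: `x ↦ (π i x)_i` maps `stab x0` injectively to `∏ stab (x0 i)` since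
  `x0 [x, j i y] = x0 i [π i x, y]`.
* lifts: `umap (j i) (u i a m)` for the point `ξ ∘ j i`; elements of `umap (j i) U(L i)` and
  `umap (j l) U(L l)` commute for `i ≠ l`; `shift ξ (smap (j i) F)` has the coefficients
  `smap (j i) ((shift (ξ ∘ j i) F).coeff m)`.
-/

set_option autoImplicit false

namespace Pool.Agent.helper49.QA

open Polynomial Pool.Agent.helper5.AS

variable {K : Type*} [Field K]

/-! ### functoriality -/

section functor

variable {L M : Type*} [LieRing L] [LieAlgebra K L] [LieRing M] [LieAlgebra K M]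

theorem Sum_adS_algebraMap (x : L) (r : K) : adS x (algebraMap K (Sy K L) r) = 0 := by
  rw [adS_eq, Derivation.map_algebraMap]

theorem Sum_adS_mul (x : L) (a b : Sy K L) : adS x (a * b) = a * adS x b + b * adS x a := by
  rw [adS_eq, adS_eq, adS_eq, Derivation.leibniz, smul_eq_mul, smul_eq_mul]

theorem Sum_adS_add (x : L) (a b : Sy K L) : adS x (a + b) = adS x a + adS x b := by
  rw [adS_eq, adS_eq, adS_eq, map_add]

theorem Sum_adS_ι (x y : L) : adS x (ιS K L y) = ιS K L ⁅x, y⁆ := by
  rw [adS_eq, pb_ι_ι, bL_apply]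

theorem Sum_adS_left (x y : L) (F : Sy K L) : adS (x + y) F = adS x F + adS y F := by
  rw [adS_eq, adS_eq, adS_eq, map_add, pb_add_left, Derivation.add_apply]

theorem Sum_adS_smap (f : L →ₗ[K] M) (hf : IsBr f) (x : L) (F : Sy K L) :
    adS (f x) (smap f F) = smap f (adS x F) := by
  induction F using SymmetricAlgebra.induction with
  | algebraMap r => rw [AlgHom.commutes, Sum_adS_algebraMap, Sum_adS_algebraMap, map_zero]
  | ι y =>
    have h1 := smap_ι f y
    have h2 := Sum_adS_ι (K := K) x y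
    rw [h1, h2, Sum_adS_ι, smap_ι, hf]
  | mul a b ha hb =>
    rw [map_mul, Sum_adS_mul, Sum_adS_mul, map_add, map_mul, map_mul, ha, hb]
  | add a b ha hb => rw [map_add, Sum_adS_add, Sum_adS_add, map_add, ha, hb]

theorem Sum_adS_zero (f : L →ₗ[K] M) (z : M) (hz : ∀ y, ⁅z, f y⁆ = 0) (F : Sy K L) :
    adS z (smap f F) = 0 := by
  induction F using SymmetricAlgebra.induction with
  | algebraMap r => rw [AlgHom.commutes, Sum_adS_algebraMap]
  | ι y =>
    have h1 := smap_ι f y
    rw [h1, Sum_adS_ι, hz, map_zero]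
  | mul a b ha hb => rw [map_mul, Sum_adS_mul, ha, hb, mul_zero, mul_zero, add_zero]
  | add a b ha hb => rw [map_add, Sum_adS_add, ha, hb, add_zero]

theorem Sum_smap_mem (f : L →ₗ[K] M) {n : ℕ} {F : Sy K L} (hF : F ∈ imS K L ^ n) :
    smap f F ∈ imS K M ^ n := by
  induction n generalizing F with
  | zero =>
    rw [pow_zero] at hF ⊢
    obtain ⟨c, rfl⟩ := Submodule.mem_one.1 hF
    rw [AlgHom.commutes]
    exact Submodule.mem_one.2 ⟨c, rfl⟩
  | succ n ih =>
    rw [pow_succ] at hF
    refine Submodule.mul_induction_on hF ?_ ?_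
    · rintro a ha _ ⟨x, rfl⟩
      have h1 := smap_ι f x
      rw [map_mul, h1, pow_succ]
      exact Submodule.mul_mem_mul (ih ha) ⟨f x, rfl⟩
    · intro a b ha hb
      rw [map_add]
      exact add_mem ha hb

theorem Sum_ev2_smap (f : L →ₗ[K] M) (x y : M →ₗ[K] K) (F : Sy K L) :
    ev2 x y (smap f F) = ev2 (x ∘ₗ f) (y ∘ₗ f) F := by
  have h : (ev2 x y).comp (smap f) = ev2 (x ∘ₗ f) (y ∘ₗ f) := by
    refine SymmetricAlgebra.algHom_ext (LinearMap.ext fun z => ?_)
    show ev2 x y (smap f (ιS K L z)) = ev2 (x ∘ₗ f) (y ∘ₗ f) (ιS K L z)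
    rw [smap_ι, ev2_ι, ev2_ι]
    rfl
  exact congrArg (fun G : Sy K L →ₐ[K] K[X] => G F) h

theorem Sum_dd_smap (f : L →ₗ[K] M) (x y : M →ₗ[K] K) (F : Sy K L) :
    dd x y (smap f F) = dd (x ∘ₗ f) (y ∘ₗ f) F := by
  rw [dd, dd, Sum_ev2_smap]

theorem Sum_dd_zero (x : L →ₗ[K] K) (F : Sy K L) : dd x 0 F = 0 := by
  have h : ∀ F : Sy K L, ∃ c : K, ev2 x 0 F = C c := by
    intro F
    induction F using SymmetricAlgebra.induction with
    | algebraMap r =>
      refine ⟨r, ?_⟩
      rw [AlgHom.commutes]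
      rfl
    | ι y =>
      refine ⟨x y, ?_⟩
      have h1 := ev2_ι x 0 y
      rw [h1, LinearMap.zero_apply, map_zero, zero_mul, add_zero]
    | mul a b ha hb =>
      obtain ⟨c, hc⟩ := ha
      obtain ⟨e, he⟩ := hb
      exact ⟨c * e, by rw [map_mul, hc, he, ← map_mul]⟩
    | add a b ha hb =>
      obtain ⟨c, hc⟩ := ha
      obtain ⟨e, he⟩ := hb
      exact ⟨c + e, by rw [map_add, hc, he, ← map_add]⟩
  obtain ⟨c, hc⟩ := h F
  rw [dd, hc, coeff_C]
  exact if_neg one_ne_zero

theorem Sum_shift_smap (f : L →ₗ[K] M) (ξ : M →ₗ[K] K) (F : Sy K L) (m : ℕ) :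
    (shift ξ (smap f F)).coeff m = smap f ((shift (ξ ∘ₗ f) F).coeff m) := by
  have h : (shift ξ).comp (smap f) =
      (Polynomial.mapAlgHom (smap f)).comp (shift (ξ ∘ₗ f)) := by
    refine SymmetricAlgebra.algHom_ext (LinearMap.ext fun z => ?_)
    show shift ξ (smap f (ιS K L z)) =
      Polynomial.mapAlgHom (smap f) (shift (ξ ∘ₗ f) (ιS K L z))
    rw [smap_ι, shift, shift, expand_ι, expand_ι, Polynomial.coe_mapAlgHom, Polynomial.map_add,
      Polynomial.map_mul, Polynomial.map_C, Polynomial.map_C, Polynomial.map_X]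
    congr 1
    · congr 1
      exact (smap_ι f z).symm
    · congr 2
      show algebraMap K (Sy K M) (ξ (f z)) = smap f (algebraMap K (Sy K L) (ξ (f z)))
      rw [AlgHom.commutes]
  have h2 := congrArg (fun G : Sy K L →ₐ[K] (Sy K M)[X] => (G F).coeff m) h
  refine h2.trans ?_
  show (Polynomial.map (smap f : Sy K L →+* Sy K M) (shift (ξ ∘ₗ f) F)).coeff m = _
  rw [Polynomial.coeff_map]
  rfl

theorem Sum_exists_pU (u : Ue K L) : ∃ t : TensorAlgebra K L, pU t = u :=
  Quotient.exists_rep u

theorem Sum_commute_left (f : L →ₗ[K] M) (hf : IsBr f) (z : Ue K M)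
    (hz : ∀ x, ιU K M (f x) * z = z * ιU K M (f x)) (u : Ue K L) :
    umap f hf u * z = z * umap f hf u := by
  obtain ⟨t, rfl⟩ := Sum_exists_pU u
  induction t using TensorAlgebra.induction with
  | algebraMap r =>
    rw [AlgHom.commutes, AlgHom.commutes]
    exact Algebra.commutes r z
  | ι x =>
    rw [pU_ι, umap_ι]
    exact hz x
  | mul a b ha hb =>
    rw [map_mul, map_mul, mul_assoc, hb, ← mul_assoc, ha, mul_assoc]
  | add a b ha hb =>
    rw [map_add, map_add, add_mul, mul_add, ha, hb]

theorem Sum_commute {N : Type*} [LieRing N] [LieAlgebra K N] (f : L →ₗ[K] M) (hf : IsBr f)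
    (g : N →ₗ[K] M) (hg : IsBr g) (h : ∀ x y, ⁅f x, g y⁆ = 0) (u : Ue K L) (v : Ue K N) :
    umap f hf u * umap g hg v = umap g hg v * umap f hf u := by
  refine Sum_commute_left f hf _ (fun x => ?_) u
  refine (Sum_commute_left g hg _ (fun y => ?_) v).symm
  have h1 := ιU_comm (𝕜 := K) (f x) (g y)
  rw [h, map_zero, sub_eq_zero] at h1
  exact h1.symm

/-- data with an arbitrary finite index type -/
theorem Sum_quant_of (hl : Lin K L) {I : Type*} [Fintype I] (F : I → Sy K L) (d : I → ℕ)
    (p q x0 : L →ₗ[K] K) (hD : Data F d p q x0) (hC : ∀ ξ, Comm F d ξ) : Quant K L := by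
  obtain ⟨e⟩ : Nonempty (Fin (Fintype.card I) ≃ I) := ⟨(Fintype.equivFin I).symm⟩
  refine ⟨hl, Fintype.card I, fun a => F (e a), fun a => d (e a), p, q, x0, ?_, ?_⟩
  · exact
      { pos := fun a => hD.pos (e a)
        hom := fun a => hD.hom (e a)
        cen := fun a => hD.cen (e a)
        ind := fun s t hst => (hD.ind s t hst).comp e e.injective
        idx := by
          rw [Fintype.card_fin]
          exact hD.idx }
  · intro ξ
    obtain ⟨u, h1, h2⟩ := hC ξ
    exact ⟨fun a => u (e a), fun i j m n hm hn => h1 _ _ _ _ hm hn, fun i m hm => h2 _ _ hm⟩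

theorem Sum_finite_of_lin (h : Lin K L) : Module.Finite K L := by
  obtain ⟨N, ρ, -, hinj⟩ := h
  exact Module.Finite.of_injective ρ hinj

end functor

section sum

variable {ι : Type*} [Fintype ι] [DecidableEq ι] {L : ι → Type*}
    [∀ i, LieRing (L i)] [∀ i, LieAlgebra K (L i)] {k : Type*} [LieRing k] [LieAlgebra K k]

theorem Sum_lin (π : ∀ i, k →ₗ[K] L i) (hπ : ∀ i, IsBr (π i))
    (hinj : ∀ x, (∀ i, π i x = 0) → x = 0) (h : ∀ i, Lin K (L i)) : Lin K k := by
  choose N ρ hρ hρi using h
  obtain ⟨e⟩ : Nonempty ((Σ i, Fin (N i)) ≃ Fin (Fintype.card (Σ i, Fin (N i)))) :=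
    ⟨Fintype.equivFin _⟩
  let R : k →ₗ[K] Matrix (Σ i, Fin (N i)) (Σ i, Fin (N i)) K :=
    { toFun := fun x => Matrix.blockDiagonal' fun i => ρ i (π i x)
      map_add' := fun x y => by
        rw [← Matrix.blockDiagonal'_add]
        congr 1
        funext i
        rw [map_add, map_add]
        rfl
      map_smul' := fun c x => by
        rw [RingHom.id_apply, ← Matrix.blockDiagonal'_smul]
        congr 1
        funext i
        rw [map_smul, map_smul]
        rfl }
  have hRi : Function.Injective R := by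
    rw [injective_iff_map_eq_zero]
    intro x hx
    apply hinj
    intro i
    have h1 : (fun i => ρ i (π i x)) = 0 := by
      apply Matrix.blockDiagonal'_injective
      rw [Matrix.blockDiagonal'_zero]
      exact hx
    apply hρi i
    rw [map_zero]
    exact congrFun h1 i
  have hRb : ∀ x y, R ⁅x, y⁆ = R x * R y - R y * R x := by
    intro x y
    show Matrix.blockDiagonal' (fun i => ρ i (π i ⁅x, y⁆)) =
      Matrix.blockDiagonal' (fun i => ρ i (π i x)) * Matrix.blockDiagonal' (fun i => ρ i (π i y))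
      - Matrix.blockDiagonal' (fun i => ρ i (π i y)) *
        Matrix.blockDiagonal' (fun i => ρ i (π i x))
    rw [← Matrix.blockDiagonal'_mul, ← Matrix.blockDiagonal'_mul, ← Matrix.blockDiagonal'_sub]
    congr 1
    funext i
    rw [hπ i, hρ i]
    rfl
  refine ⟨_, (Matrix.reindexAlgEquiv K K e).toLinearMap ∘ₗ R, ?_, ?_⟩
  · intro x y
    show Matrix.reindexAlgEquiv K K e (R ⁅x, y⁆) = Matrix.reindexAlgEquiv K K e (R x) *
      Matrix.reindexAlgEquiv K K e (R y) - Matrix.reindexAlgEquiv K K e (R y) *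
      Matrix.reindexAlgEquiv K K e (R x)
    rw [hRb, map_sub, map_mul, map_mul]
  · intro x y hxy
    exact hRi ((Matrix.reindexAlgEquiv K K e).injective hxy)

end sum

theorem quant_sum {ι : Type*} [Fintype ι] [DecidableEq ι] {L : ι → Type*}
    [∀ i, LieRing (L i)] [∀ i, LieAlgebra K (L i)] {k : Type*} [LieRing k] [LieAlgebra K k]
    (j : ∀ i, L i →ₗ[K] k) (π : ∀ i, k →ₗ[K] L i) (hj : ∀ i, IsBr (j i)) (hπ : ∀ i, IsBr (π i))
    (h1 : ∀ i x, π i (j i x) = x) (h0 : ∀ i l, i ≠ l → ∀ x, π i (j l x) = 0)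
    (hs : ∀ x, ∑ i, j i (π i x) = x) (h : ∀ i, Quant K (L i)) : Quant K k := by
  have hinj : ∀ x, (∀ i, π i x = 0) → x = 0 := by
    intro x hx
    rw [← hs x]
    exact Finset.sum_eq_zero fun i _ => by rw [hx i, map_zero]
  have hlin : ∀ i, Lin K (L i) := fun i => (h i).1
  have hex := fun i => (h i).2
  choose n F d p q x0 hD hC using hex
  -- brackets
  have hbr0 : ∀ i l, i ≠ l → ∀ x y, ⁅j i x, j l y⁆ = 0 := by
    intro i l hil x y
    apply hinj
    intro r
    rw [hπ r]
    by_cases hr : r = i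
    · rw [h0 r l (hr ▸ hil), lie_zero]
    · rw [h0 r i hr, zero_lie]
  have hbrw : ∀ i z y, ⁅z - j i (π i z), j i y⁆ = 0 := by
    intro i z y
    apply hinj
    intro r
    rw [hπ r]
    by_cases hr : r = i
    · subst hr
      rw [map_sub, h1, sub_self, zero_lie]
    · rw [h0 r i hr, lie_zero]
  -- functionals
  have hsumj : ∀ (f : ∀ i, L i →ₗ[K] K) (i : ι), (∑ l, f l ∘ₗ π l) ∘ₗ j i = f i := by
    intro f i
    refine LinearMap.ext fun x => ?_
    rw [LinearMap.comp_apply, LinearMap.sum_apply, Finset.sum_eq_single i]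
    · rw [LinearMap.comp_apply, h1]
    · intro l _ hl
      rw [LinearMap.comp_apply, h0 l i hl, map_zero]
    · intro hi
      exact absurd (Finset.mem_univ i) hi
  refine Sum_quant_of (Sum_lin π hπ hinj hlin) (I := Σ i, Fin (n i))
    (fun a => smap (j a.1) (F a.1 a.2)) (fun a => d a.1 a.2) (∑ l, p l ∘ₗ π l)
    (∑ l, q l ∘ₗ π l) (∑ l, x0 l ∘ₗ π l) ?_ ?_
  · refine
      { pos := fun a => (hD a.1).pos a.2
        hom := fun a => Sum_smap_mem _ ((hD a.1).hom a.2)
        cen := ?_
        ind := ?_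
        idx := ?_ }
    · rintro ⟨i, b⟩ z
      show adS z (smap (j i) (F i b)) = 0
      have hz : z = j i (π i z) + (z - j i (π i z)) := by abel
      rw [hz, Sum_adS_left, Sum_adS_smap (j i) (hj i), (hD i).cen b, map_zero, zero_add]
      exact Sum_adS_zero (j i) _ (hbrw i z) _
    · intro s t hst
      rw [Fintype.linearIndependent_iff]
      rintro g hg ⟨i, b⟩
      have h2 := Fintype.linearIndependent_iff.1 ((hD i).ind s t hst) (fun b => g ⟨i, b⟩) ?_ b
      · exact h2
      · funext y
        have h3 := congrFun hg (y ∘ₗ π i)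
        rw [Finset.sum_apply, Pi.zero_apply, Fintype.sum_sigma, Finset.sum_eq_single i] at h3
        · rw [Finset.sum_apply, Pi.zero_apply]
          rw [← h3]
          refine Finset.sum_congr rfl fun b _ => ?_
          show g ⟨i, b⟩ * dd (s • p i + t • q i) y (F i b) =
            g ⟨i, b⟩ * dd (s • (∑ l, p l ∘ₗ π l) + t • (∑ l, q l ∘ₗ π l)) (y ∘ₗ π i)
              (smap (j i) (F i b))
          rw [Sum_dd_smap, LinearMap.add_comp, LinearMap.smul_comp, LinearMap.smul_comp, hsumj,
            hsumj]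
          congr 2
          refine LinearMap.ext fun x => ?_
          show y x = y (π i (j i x))
          rw [h1]
        · intro l _ hl
          refine Finset.sum_eq_zero fun b _ => ?_
          show g ⟨l, b⟩ * dd (s • (∑ l, p l ∘ₗ π l) + t • (∑ l, q l ∘ₗ π l)) (y ∘ₗ π i)
              (smap (j l) (F l b)) = 0
          rw [Sum_dd_smap]
          have h4 : (y ∘ₗ π i) ∘ₗ j l = 0 := by
            refine LinearMap.ext fun x => ?_
            show y (π i (j l x)) = 0
            rw [h0 i l hl.symm, map_zero]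
          rw [h4, Sum_dd_zero, mul_zero]
        · intro hi
          exact absurd (Finset.mem_univ i) hi
    · have hfin : ∀ i, Module.Finite K (L i) := fun i => Sum_finite_of_lin (hlin i)
      have hx0 : ∀ x (i : ι) (y : L i), (∑ l, x0 l ∘ₗ π l) ⁅x, j i y⁆ = x0 i ⁅π i x, y⁆ := by
        intro x i y
        rw [LinearMap.sum_apply, Finset.sum_eq_single i]
        · rw [LinearMap.comp_apply, hπ i, h1]
        · intro l _ hl
          rw [LinearMap.comp_apply, hπ l, h0 l i hl, lie_zero, map_zero]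
        · intro hi
          exact absurd (Finset.mem_univ i) hi
      let T : stab (∑ l, x0 l ∘ₗ π l) →ₗ[K] (∀ i, stab (x0 i)) :=
        LinearMap.pi fun i => LinearMap.codRestrict (stab (x0 i))
          (π i ∘ₗ (stab (∑ l, x0 l ∘ₗ π l)).subtype) fun x => by
            rw [mem_stab]
            intro y
            have h5 := (mem_stab.1 x.2) (j i y)
            rw [hx0] at h5
            exact h5
      have hT : Function.Injective T := by
        rw [injective_iff_map_eq_zero]
        intro x hx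
        apply Subtype.ext
        apply hinj
        intro i
        exact congrArg Subtype.val (congrFun hx i)
      refine (LinearMap.finrank_le_finrank_of_injective hT).trans ?_
      rw [Module.finrank_pi_fintype, Fintype.card_sigma]
      refine Finset.sum_le_sum fun i _ => ?_
      exact (hD i).idx
  · intro ξ
    have hC' := fun i => hC i (ξ ∘ₗ j i)
    choose u hu1 hu2 using hC'
    refine ⟨fun a m => umap (j a.1) (hj a.1) (u a.1 a.2 m), ?_, ?_⟩
    · rintro ⟨i, b⟩ ⟨l, c⟩ m m' hm hm'
      show umap (j i) (hj i) (u i b m) * umap (j l) (hj l) (u l c m') =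
        umap (j l) (hj l) (u l c m') * umap (j i) (hj i) (u i b m)
      by_cases hil : i = l
      · subst hil
        rw [← map_mul, ← map_mul, hu1 i b c m m' hm hm']
      · exact Sum_commute _ _ _ _ (hbr0 i l hil) _ _
    · rintro ⟨i, b⟩ m hm
      show IsSymbol (d i b - m) ((shift ξ (smap (j i) (F i b))).coeff m)
        (umap (j i) (hj i) (u i b m))
      rw [Sum_shift_smap]
      exact IsSymbol_map (j i) (hj i) (hu2 i b m hm)

/-- invariance under isomorphisms -/
theorem Quant.of_iso {L M : Type*} [LieRing L] [LieAlgebra K L] [LieRing M] [LieAlgebra K M]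
    (f : L ≃ₗ[K] M) (hf : IsBr (f : L →ₗ[K] M)) (h : Quant K L) : Quant K M := by
  have hg : IsBr (f.symm : M →ₗ[K] L) := by
    intro x y
    apply f.injective
    have h2 := hf (f.symm x) (f.symm y)
    simp only [LinearEquiv.coe_coe] at h2 ⊢
    rw [h2, f.apply_symm_apply, f.apply_symm_apply, f.apply_symm_apply]
  refine quant_sum (ι := Unit) (L := fun _ => L) (fun _ => (f : L →ₗ[K] M))
    (fun _ => (f.symm : M →ₗ[K] L)) (fun _ => hf) (fun _ => hg) (fun _ x => ?_)
    (fun i l hil => absurd (Subsingleton.elim i l) hil) (fun x => ?_) (fun _ => h)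
  · exact f.symm_apply_apply x
  · rw [Finset.univ_unique, Finset.sum_singleton]
    exact f.apply_symm_apply x

end Pool.Agent.helper49.QA
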