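import Mathlib
import Pool.Agent.helper49.QA.LimPar
import Pool.Agent.helper49.QA.Sum

/-!
# Takiff algebras: the contraction of `h × h` with the swap

`SQuant K h`: there are data for `h` and quantised families.

Proof of `quant_swap`.  `L = h × h` through `φ`; we write `x = (y, z)`; the even part is
`((y + z)/2, (y + z)/2)`, the odd part `((y - z)/2, -(y - z)/2)`.  Let `i1, i2 : h → g` be the two
embeddings, `F1 = smap i1 F`, `F2 = smap i2 F` for `F = F i` of degree `d = d i ≥ 1`.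
`C' ξ` = the subalgebra generated by `umap i1 (C (ξ ∘ i1))` and `umap i2 (C (ξ ∘ i2))`
(commutative).  `HasQ C' d F1`, `HasQ C' d F2` by `HasQ.map`, hence
`HasQ C' d (F1 + (-1)^d F2)`, `HasQ C' d (F1 - (-1)^d F2)`.
`scS θ F1 = F (u + X v)`, `scS θ F2 = F (u - X v)` where `u = e` of the even part and `v` of
the odd part, i.e. with `u : h → g`, `x ↦ (x/2, x/2)`, `v : x ↦ (x/2, -x/2)` (as linear maps
`h → g`; `i1 = u + v`, `i2 = u - v`): `scS θ (smap i1 F)` is the image of `F` under the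
homomorphism `x ↦ C (u x) + X C (v x)`.  So the degree of `scS θ (F1 + (-1)^d F2)` is at
most `d`, its coefficient of `X^d` is `2 smap v F`; the degree of `scS θ (F1 - (-1)^d F2)` is at
most `d - 1`, the coefficient of `X^(d-1)` is `2 (the derivative of F at v in the direction u)`, i.e.
`2 G` where `G = ` the image of `F` under `x ↦ v x + t u x`, coefficient of `t`.
Generators (index type `Fin n × Bool` or `Fin n ⊕ Fin n`, reindexed): the images in `k` of these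
coefficients, of degree `d i`, `b = d i` and `b = d i - 1`; `Comm` by `limQ_of_hasQ` and
`comm_of_limQ`; central by `centre_contract` (`F1`, `F2` are central in `S(g)`); `Lin K k` by
`isLieMap_con` and `con_injective` (`Matrix.compAlgEquiv`, block matrices).
Points of `k^*`: `(α, β)`: `e x ↦ α (2 u-part) + β (2 v-part)`: precisely for
`x ∈ g` with `φ x = (y, z)`: `α ((y + z)) + β ((y - z))`, so that `(α, β) (e (u w)) = α w`,
`(α, β) (e (v w)) = β w`.  `dd (0, β) (α', β') (smap (e ∘ v) F) = dd β β' F` and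
`dd (0, β) (α', β') (e G) = dd β α' F`.  So the pencil `(0, p), (0, q)` has independent
differentials.  The stabiliser of `(0, x0)`: `[e (u x), e (u y)] = e (u [x, y]) / 2` up to the
normalisation: `[u x, u y] = u [x, y] / 2`, `[u x, v y] = v [x, y] / 2` in `g`; hence
`(0, x0) [e (u x + v x'), e (u y + v y')] = (x0 [x, y'] + x0 [x', y]) / 2`, the stabiliser is
`stab x0 × stab x0`.
-/

set_option autoImplicit false

namespace Pool.Agent.helper49.QA

open Pool.Agent.helper5.AS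
open Pool.Agent.helper5.ASQ (Invol even oddc brk IsContraction)

/-- data with quantised families -/
def SQuant (K L : Type*) [Field K] [LieRing L] [LieAlgebra K L] : Prop :=
  Lin K L ∧ ∃ (n : ℕ) (F : Fin n → Sy K L) (d : Fin n → ℕ) (p q x0 : L →ₗ[K] K)
    (C : (L →ₗ[K] K) → Subalgebra K (Ue K L)),
    Data F d p q x0 ∧ (∀ ξ, ∀ a ∈ C ξ, ∀ b ∈ C ξ, a * b = b * a) ∧ ∀ i, HasQ C (d i) (F i)

variable {K : Type*} [Field K]

theorem SQuant.quant {L : Type*} [LieRing L] [LieAlgebra K L] (h : SQuant K L) : Quant K L := by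
  obtain ⟨hl, n, F, d, p, q, x0, C, hD, hC, hQ⟩ := h
  refine ⟨hl, n, F, d, p, q, x0, hD, fun ξ => ?_⟩
  choose V hV using hQ
  exact ⟨fun i m => V i ξ m, fun i j m n _ _ => hC ξ _ ((hV i).cen ξ m) _ ((hV j).cen ξ n),
    fun i m hm => (hV i).symb ξ m hm.le⟩

section lemmas

open Polynomial

section maps

variable {K : Type*} [Field K] {h : Type*} [LieRing h] [LieAlgebra K h] {g : Type*} [LieRing g]
  [LieAlgebra K g]

/-- the homomorphism `x ↦ a x + X b x` -/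
noncomputable def Swap_P (a b : h →ₗ[K] g) : Sy K h →ₐ[K] (Sy K g)[X] :=
  SymmetricAlgebra.lift
    ((monomial 0).restrictScalars K ∘ₗ (ιS K g ∘ₗ a) +
      (monomial 1).restrictScalars K ∘ₗ (ιS K g ∘ₗ b))

theorem Swap_P_ι (a b : h →ₗ[K] g) (x : h) :
    Swap_P a b (ιS K h x) = C (ιS K g (a x)) + X * C (ιS K g (b x)) := by
  rw [Swap_P, SymmetricAlgebra.lift_ι_apply]
  show monomial 0 (ιS K g (a x)) + monomial 1 (ιS K g (b x)) = _
  rw [monomial_zero_left, ← C_mul_X_eq_monomial, mul_comm]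

/-- homomorphisms on the symmetric algebra which agree on the generators -/
theorem Swap_ext {A : Type*} [CommRing A] [Algebra K A] {f f' : Sy K h →ₐ[K] A}
    (H : ∀ x, f (ιS K h x) = f' (ιS K h x)) (F : Sy K h) : f F = f' F := by
  have H' : f = f' := SymmetricAlgebra.algHom_ext (LinearMap.ext fun x => H x)
  rw [H']

theorem Swap_P_neg (a b : h →ₗ[K] g) (F : Sy K h) (j : ℕ) :
    (Swap_P a (-b) F).coeff j = (-1 : K) ^ j • (Swap_P a b F).coeff j := by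
  induction F using SymmetricAlgebra.induction generalizing j with
  | algebraMap r =>
    rw [AlgHom.commutes, AlgHom.commutes, Polynomial.algebraMap_apply, coeff_C]
    split_ifs with hj
    · rw [hj, pow_zero, one_smul]
    · rw [smul_zero]
  | ι x =>
    have h1 := Swap_P_ι a (-b) x
    have h2 := Swap_P_ι a b x
    rw [h1, h2, coeff_add, coeff_add]
    rcases j with _ | j
    · rw [coeff_X_mul_zero, coeff_X_mul_zero, pow_zero, one_smul]
    · rw [coeff_C_succ, coeff_X_mul, coeff_X_mul, zero_add, zero_add]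
      rcases j with _ | j
      · rw [coeff_C_zero, coeff_C_zero, zero_add, pow_one, neg_one_smul, LinearMap.neg_apply,
          map_neg]
      · rw [coeff_C_succ, coeff_C_succ, smul_zero]
  | mul p q hp hq =>
    rw [map_mul, map_mul, coeff_mul, coeff_mul, Finset.smul_sum]
    refine Finset.sum_congr rfl fun z hz => ?_
    rw [hp, hq, smul_mul_smul_comm, ← pow_add, Finset.HasAntidiagonal.mem_antidiagonal.1 hz]
  | add p q hp hq => rw [map_add, map_add, coeff_add, coeff_add, hp, hq, smul_add]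

theorem Swap_P_zero (a b : h →ₗ[K] g) (F : Sy K h) :
    (Swap_P a b F).coeff 0 = smap a F := by
  have H := Swap_ext (f := ((Polynomial.aeval (0 : Sy K g)).restrictScalars K).comp (Swap_P a b))
    (f' := smap a) (fun x => by
      show Polynomial.aeval (0 : Sy K g) (Swap_P a b (ιS K h x)) = smap a (ιS K h x)
      rw [Swap_P_ι, smap_ι, map_add, map_mul, aeval_X, zero_mul, add_zero, aeval_C]
      rfl) F
  rw [← H]
  show _ = Polynomial.aeval (0 : Sy K g) (Swap_P a b F)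
  rw [Polynomial.coeff_zero_eq_aeval_zero]

theorem Swap_mc_zero (p : (Sy K g)[X]) (A B : Sy K g) :
    (p * (C A + X * C B)).coeff 0 = p.coeff 0 * A := by
  rw [mul_coeff_zero, coeff_add, coeff_C_zero, coeff_X_mul_zero, add_zero]

theorem Swap_mc_succ (p : (Sy K g)[X]) (A B : Sy K g) (j : ℕ) :
    (p * (C A + X * C B)).coeff (j + 1) = p.coeff (j + 1) * A + p.coeff j * B := by
  rw [mul_add, coeff_add, coeff_mul_C, ← mul_assoc, coeff_mul_C, coeff_mul_X]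

/-- the reflection -/
theorem Swap_P_refl {d : ℕ} : ∀ (a b : h →ₗ[K] g) {F : Sy K h}, F ∈ imS K h ^ d →
    ∀ j, (d < j → (Swap_P a b F).coeff j = 0) ∧
      (j ≤ d → (Swap_P a b F).coeff j = (Swap_P b a F).coeff (d - j)) := by
  induction d with
  | zero =>
    intro a b F hF j
    rw [pow_zero] at hF
    obtain ⟨c, rfl⟩ := Submodule.mem_one.1 hF
    rw [AlgHom.commutes, AlgHom.commutes, Polynomial.algebraMap_apply]
    constructor
    · intro hj
      rw [coeff_C, if_neg (by omega)]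
    · intro hj
      obtain rfl : j = 0 := by omega
      rfl
  | succ d ih =>
    intro a b F hF
    rw [pow_succ] at hF
    refine Submodule.mul_induction_on hF ?_ ?_
    · rintro G hG _ ⟨x, rfl⟩ j
      have ip := ih a b hG
      have iq := ih b a hG
      have h1 := Swap_P_ι a b x
      have h2 := Swap_P_ι b a x
      rw [map_mul, map_mul, h1, h2]
      constructor
      · intro hj
        obtain ⟨j, rfl⟩ : ∃ i, j = i + 1 := ⟨j - 1, by omega⟩
        rw [Swap_mc_succ, (ip (j + 1)).1 (by omega), (ip j).1 (by omega), zero_mul, zero_mul,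
          add_zero]
      · intro hj
        rcases j with _ | i
        · rw [Swap_mc_zero, Nat.sub_zero, Swap_mc_succ, (iq (d + 1)).1 (by omega), zero_mul,
            zero_add, (ip 0).2 (by omega), Nat.sub_zero]
        · rw [Swap_mc_succ]
          by_cases hi : i = d
          · subst hi
            rw [Nat.sub_self, Swap_mc_zero, (ip (i + 1)).1 (by omega), (ip i).2 (by omega),
              Nat.sub_self, zero_mul, zero_add]
          · obtain ⟨m, hm⟩ : ∃ m, d = i + m + 1 := ⟨d - i - 1, by omega⟩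
            have e1 : d + 1 - (i + 1) = m + 1 := by omega
            rw [e1, Swap_mc_succ, (ip (i + 1)).2 (by omega), (ip i).2 (by omega)]
            have e2 : d - (i + 1) = m := by omega
            have e3 : d - i = m + 1 := by omega
            rw [e2, e3, add_comm]
    · intro p q hp hq j
      constructor
      · intro hj
        rw [map_add, coeff_add, (hp j).1 hj, (hq j).1 hj, add_zero]
      · intro hj
        rw [map_add, map_add, coeff_add, coeff_add, (hp j).2 hj, (hq j).2 hj]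

end maps

section swap

variable {K : Type*} [Field K] {h : Type*} [LieRing h] [LieAlgebra K h] {g : Type*} [LieRing g]
  [LieAlgebra K g]

/-- the first embedding -/
noncomputable def Swap_i1 (φ : g ≃ₗ[K] h × h) : h →ₗ[K] g :=
  (φ.symm : h × h →ₗ[K] g) ∘ₗ LinearMap.inl K h h

/-- the second embedding -/
noncomputable def Swap_i2 (φ : g ≃ₗ[K] h × h) : h →ₗ[K] g :=
  (φ.symm : h × h →ₗ[K] g) ∘ₗ LinearMap.inr K h h

/-- the even part of the embeddings -/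
noncomputable def Swap_u (φ : g ≃ₗ[K] h × h) : h →ₗ[K] g := (2 : K)⁻¹ • (Swap_i1 φ + Swap_i2 φ)

/-- the odd part of the first embedding -/
noncomputable def Swap_v (φ : g ≃ₗ[K] h × h) : h →ₗ[K] g := (2 : K)⁻¹ • (Swap_i1 φ - Swap_i2 φ)

variable (φ : g ≃ₗ[K] h × h)

theorem Swap_φ_i1 (x : h) : φ (Swap_i1 φ x) = (x, 0) := φ.apply_symm_apply _

theorem Swap_φ_i2 (x : h) : φ (Swap_i2 φ x) = (0, x) := φ.apply_symm_apply _

theorem Swap_φ_u (x : h) : φ (Swap_u φ x) = ((2 : K)⁻¹ • x, (2 : K)⁻¹ • x) := by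
  show φ ((2 : K)⁻¹ • (Swap_i1 φ x + Swap_i2 φ x)) = _
  rw [map_smul, map_add, Swap_φ_i1, Swap_φ_i2]
  simp

theorem Swap_φ_v (x : h) : φ (Swap_v φ x) = ((2 : K)⁻¹ • x, -((2 : K)⁻¹ • x)) := by
  show φ ((2 : K)⁻¹ • (Swap_i1 φ x - Swap_i2 φ x)) = _
  rw [map_smul, map_sub, Swap_φ_i1, Swap_φ_i2]
  simp

theorem Swap_lie1 (hφ : IsBr (φ : g →ₗ[K] h × h)) (z : g) (x : h) :
    ⁅z, Swap_i1 φ x⁆ = Swap_i1 φ ⁅(φ z).1, x⁆ := by
  apply φ.injective
  have h1 : φ ⁅z, Swap_i1 φ x⁆ = ⁅φ z, φ (Swap_i1 φ x)⁆ := hφ _ _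
  rw [h1, Swap_φ_i1, Swap_φ_i1]
  exact Prod.ext rfl (lie_zero _)

theorem Swap_lie2 (hφ : IsBr (φ : g →ₗ[K] h × h)) (z : g) (x : h) :
    ⁅z, Swap_i2 φ x⁆ = Swap_i2 φ ⁅(φ z).2, x⁆ := by
  apply φ.injective
  have h1 : φ ⁅z, Swap_i2 φ x⁆ = ⁅φ z, φ (Swap_i2 φ x)⁆ := hφ _ _
  rw [h1, Swap_φ_i2, Swap_φ_i2]
  exact Prod.ext (lie_zero _) rfl

theorem Swap_br1 (hφ : IsBr (φ : g →ₗ[K] h × h)) : IsBr (Swap_i1 φ) := by
  intro x y
  rw [Swap_lie1 φ hφ, Swap_φ_i1]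

theorem Swap_br2 (hφ : IsBr (φ : g →ₗ[K] h × h)) : IsBr (Swap_i2 φ) := by
  intro x y
  rw [Swap_lie2 φ hφ, Swap_φ_i2]

theorem Swap_comm12 (hφ : IsBr (φ : g →ₗ[K] h × h)) (x y : h) :
    ⁅Swap_i1 φ x, Swap_i2 φ y⁆ = 0 := by
  rw [Swap_lie2 φ hφ, Swap_φ_i1, zero_lie, map_zero]

/-- the images of the symmetric invariants are invariants -/
theorem Swap_cen1 (hφ : IsBr (φ : g →ₗ[K] h × h)) {F : Sy K h} (hF : F ∈ centre K h) :
    smap (Swap_i1 φ) F ∈ centre K g := by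
  intro z
  have H := contract_smap (Swap_i1 φ) (D := contract_ad (φ z).1) (D' := contract_ad z)
    (fun x => by rw [contract_ad_ι, contract_ad_ι, smap_ι, Swap_lie1 φ hφ]) F
  have h0 : contract_ad (K := K) (φ z).1 F = 0 := hF _
  rw [h0, map_zero] at H
  exact H

theorem Swap_cen2 (hφ : IsBr (φ : g →ₗ[K] h × h)) {F : Sy K h} (hF : F ∈ centre K h) :
    smap (Swap_i2 φ) F ∈ centre K g := by
  intro z
  have H := contract_smap (Swap_i2 φ) (D := contract_ad (φ z).2) (D' := contract_ad z)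
    (fun x => by rw [contract_ad_ι, contract_ad_ι, smap_ι, Swap_lie2 φ hφ]) F
  have h0 : contract_ad (K := K) (φ z).2 F = 0 := hF _
  rw [h0, map_zero] at H
  exact H

theorem Swap_cen_add {F G : Sy K g} (c : K) (hF : F ∈ centre K g) (hG : G ∈ centre K g) :
    F + c • G ∈ centre K g := by
  intro z
  have h1 : contract_ad (K := K) z F = 0 := hF z
  have h2 : contract_ad (K := K) z G = 0 := hG z
  show contract_ad (K := K) z (F + c • G) = 0
  rw [map_add, Derivation.map_smul, h1, h2, smul_zero, add_zero]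

theorem Swap_hom1 {θ : Invol K g} (hθ : ∀ x, φ (θ.hom x) = ((φ x).2, (φ x).1)) (x : h) :
    θ.hom (Swap_i1 φ x) = Swap_i2 φ x := by
  apply φ.injective
  rw [hθ, Swap_φ_i1, Swap_φ_i2]

theorem Swap_hom2 {θ : Invol K g} (hθ : ∀ x, φ (θ.hom x) = ((φ x).2, (φ x).1)) (x : h) :
    θ.hom (Swap_i2 φ x) = Swap_i1 φ x := by
  apply φ.injective
  rw [hθ, Swap_φ_i1, Swap_φ_i2]

theorem Swap_even1 {θ : Invol K g} (hθ : ∀ x, φ (θ.hom x) = ((φ x).2, (φ x).1)) (x : h) :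
    even θ (Swap_i1 φ x) = Swap_u φ x := by
  rw [even, Swap_hom1 φ hθ]
  rfl

theorem Swap_odd1 {θ : Invol K g} (hθ : ∀ x, φ (θ.hom x) = ((φ x).2, (φ x).1)) (x : h) :
    oddc θ (Swap_i1 φ x) = Swap_v φ x := by
  rw [oddc, Swap_hom1 φ hθ]
  rfl

theorem Swap_even2 {θ : Invol K g} (hθ : ∀ x, φ (θ.hom x) = ((φ x).2, (φ x).1)) (x : h) :
    even θ (Swap_i2 φ x) = Swap_u φ x := by
  rw [even, Swap_hom2 φ hθ, add_comm]
  rfl

theorem Swap_odd2 {θ : Invol K g} (hθ : ∀ x, φ (θ.hom x) = ((φ x).2, (φ x).1)) (x : h) :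
    oddc θ (Swap_i2 φ x) = -Swap_v φ x := by
  rw [oddc, Swap_hom2 φ hθ]
  show (2 : K)⁻¹ • (Swap_i2 φ x - Swap_i1 φ x) = -((2 : K)⁻¹ • (Swap_i1 φ x - Swap_i2 φ x))
  rw [← smul_neg, neg_sub]

theorem Swap_scS1 {θ : Invol K g} (hθ : ∀ x, φ (θ.hom x) = ((φ x).2, (φ x).1)) (F : Sy K h) :
    scS θ (smap (Swap_i1 φ) F) = Swap_P (Swap_u φ) (Swap_v φ) F :=
  Swap_ext (f := (scS θ).comp (smap (Swap_i1 φ))) (fun x => by
    show scS θ (smap (Swap_i1 φ) (ιS K h x)) = _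
    rw [smap_ι, scS_ι, Swap_P_ι, Swap_even1 φ hθ, Swap_odd1 φ hθ]) F

theorem Swap_scS2 {θ : Invol K g} (hθ : ∀ x, φ (θ.hom x) = ((φ x).2, (φ x).1)) (F : Sy K h) :
    scS θ (smap (Swap_i2 φ) F) = Swap_P (Swap_u φ) (-Swap_v φ) F :=
  Swap_ext (f := (scS θ).comp (smap (Swap_i2 φ))) (fun x => by
    show scS θ (smap (Swap_i2 φ) (ιS K h x)) = _
    rw [smap_ι, scS_ι, Swap_P_ι, Swap_even2 φ hθ, Swap_odd2 φ hθ]
    rfl) F

/-- the combination `F (x + X y) + c F (x - X y)`, `c = ± (-1)^d` -/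
noncomputable def Swap_F (F : Sy K h) (c : K) : Sy K g :=
  smap (Swap_i1 φ) F + c • smap (Swap_i2 φ) F

theorem Swap_F_coeff {θ : Invol K g} (hθ : ∀ x, φ (θ.hom x) = ((φ x).2, (φ x).1)) (F : Sy K h)
    (c : K) (j : ℕ) : (scS θ (Swap_F φ F c)).coeff j =
      (1 + c * (-1) ^ j) • (Swap_P (Swap_u φ) (Swap_v φ) F).coeff j := by
  rw [Swap_F, map_add, map_smul, Swap_scS1 φ hθ, Swap_scS2 φ hθ, coeff_add, coeff_smul,
    Swap_P_neg, add_smul, one_smul, smul_smul]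

theorem Swap_F_mem [CharZero K] {F : Sy K h} {d : ℕ} (hF : F ∈ imS K h ^ d) (c : K) :
    Swap_F φ F c ∈ imS K g ^ d :=
  add_mem (smap_mem _ hF) (Submodule.smul_mem _ _ (smap_mem _ hF))

theorem Swap_F_top {θ : Invol K g} (hθ : ∀ x, φ (θ.hom x) = ((φ x).2, (φ x).1)) {F : Sy K h}
    {d : ℕ} (hF : F ∈ imS K h ^ d) :
    (scS θ (Swap_F φ F ((-1) ^ d))).natDegree ≤ d ∧
      (scS θ (Swap_F φ F ((-1) ^ d))).coeff d = (2 : K) • smap (Swap_v φ) F := by
  constructor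
  · rw [natDegree_le_iff_coeff_eq_zero]
    intro j hj
    rw [Swap_F_coeff φ hθ, (Swap_P_refl _ _ hF j).1 hj, smul_zero]
  · rw [Swap_F_coeff φ hθ, (Swap_P_refl _ _ hF d).2 le_rfl, Nat.sub_self, Swap_P_zero,
      ← mul_pow, neg_one_mul, neg_neg, one_pow, one_add_one_eq_two]

theorem Swap_F_sub {θ : Invol K g} (hθ : ∀ x, φ (θ.hom x) = ((φ x).2, (φ x).1)) {F : Sy K h}
    {d : ℕ} (hF : F ∈ imS K h ^ (d + 1)) :
    (scS θ (Swap_F φ F ((-1) ^ d))).natDegree ≤ d ∧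
      (scS θ (Swap_F φ F ((-1) ^ d))).coeff d =
        (2 : K) • (Swap_P (Swap_v φ) (Swap_u φ) F).coeff 1 := by
  constructor
  · rw [natDegree_le_iff_coeff_eq_zero]
    intro j hj
    by_cases hjd : j = d + 1
    · subst hjd
      rw [Swap_F_coeff φ hθ, pow_succ, ← mul_assoc, ← mul_pow, neg_one_mul, neg_neg, one_pow,
        one_mul, add_neg_cancel, zero_smul]
    · rw [Swap_F_coeff φ hθ, (Swap_P_refl _ _ hF j).1 (by omega), smul_zero]
  · rw [Swap_F_coeff φ hθ, (Swap_P_refl _ _ hF d).2 (by omega), Nat.add_sub_cancel_left,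
      ← mul_pow, neg_one_mul, neg_neg, one_pow, one_add_one_eq_two]

/-! ### points of the dual of the contraction -/

section points

variable [CharZero K] {k : Type*} [LieRing k] [LieAlgebra K k] (e : g ≃ₗ[K] k)

/-- the coordinate `a` of `z = e (u a + v b)` -/
noncomputable def Swap_a : k →ₗ[K] h :=
  (LinearMap.fst K h h + LinearMap.snd K h h) ∘ₗ (φ : g →ₗ[K] h × h) ∘ₗ (e.symm : k →ₗ[K] g)

/-- the coordinate `b` of `z = e (u a + v b)` -/
noncomputable def Swap_b : k →ₗ[K] h :=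
  (LinearMap.fst K h h - LinearMap.snd K h h) ∘ₗ (φ : g →ₗ[K] h × h) ∘ₗ (e.symm : k →ₗ[K] g)

theorem Swap_a_u (x : h) : Swap_a φ e (e (Swap_u φ x)) = x := by
  show (φ (e.symm (e (Swap_u φ x)))).1 + (φ (e.symm (e (Swap_u φ x)))).2 = x
  rw [LinearEquiv.symm_apply_apply, Swap_φ_u, ← add_smul]
  norm_num

theorem Swap_a_v (x : h) : Swap_a φ e (e (Swap_v φ x)) = 0 := by
  show (φ (e.symm (e (Swap_v φ x)))).1 + (φ (e.symm (e (Swap_v φ x)))).2 = 0
  rw [LinearEquiv.symm_apply_apply, Swap_φ_v, add_neg_cancel]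

theorem Swap_b_u (x : h) : Swap_b φ e (e (Swap_u φ x)) = 0 := by
  show (φ (e.symm (e (Swap_u φ x)))).1 - (φ (e.symm (e (Swap_u φ x)))).2 = 0
  rw [LinearEquiv.symm_apply_apply, Swap_φ_u, sub_self]

theorem Swap_b_v (x : h) : Swap_b φ e (e (Swap_v φ x)) = x := by
  show (φ (e.symm (e (Swap_v φ x)))).1 - (φ (e.symm (e (Swap_v φ x)))).2 = x
  rw [LinearEquiv.symm_apply_apply, Swap_φ_v, sub_neg_eq_add, ← add_smul]
  norm_num

theorem Swap_ab (z : k) : e (Swap_u φ (Swap_a φ e z)) + e (Swap_v φ (Swap_b φ e z)) = z := by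
  apply e.symm.injective
  apply φ.injective
  rw [map_add, LinearEquiv.symm_apply_apply, LinearEquiv.symm_apply_apply, map_add, Swap_φ_u,
    Swap_φ_v]
  show ((2 : K)⁻¹ • ((φ (e.symm z)).1 + (φ (e.symm z)).2) +
      (2 : K)⁻¹ • ((φ (e.symm z)).1 - (φ (e.symm z)).2),
    (2 : K)⁻¹ • ((φ (e.symm z)).1 + (φ (e.symm z)).2) +
      -((2 : K)⁻¹ • ((φ (e.symm z)).1 - (φ (e.symm z)).2))) = φ (e.symm z)
  refine Prod.ext ?_ ?_
  · show (2 : K)⁻¹ • ((φ (e.symm z)).1 + (φ (e.symm z)).2) +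
      (2 : K)⁻¹ • ((φ (e.symm z)).1 - (φ (e.symm z)).2) = (φ (e.symm z)).1
    rw [← smul_add, add_add_sub_cancel, ← two_smul K, smul_smul, inv_mul_cancel₀ two_ne_zero,
      one_smul]
  · show (2 : K)⁻¹ • ((φ (e.symm z)).1 + (φ (e.symm z)).2) +
      -((2 : K)⁻¹ • ((φ (e.symm z)).1 - (φ (e.symm z)).2)) = (φ (e.symm z)).2
    rw [← sub_eq_add_neg, ← smul_sub, add_sub_sub_cancel, ← two_smul K, smul_smul,
      inv_mul_cancel₀ two_ne_zero, one_smul]

/-- the point `(α, β)` of `k^*` -/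
noncomputable def Swap_pt (α β : h →ₗ[K] K) : k →ₗ[K] K := α ∘ₗ Swap_a φ e + β ∘ₗ Swap_b φ e

theorem Swap_pt_u (α β : h →ₗ[K] K) (x : h) : Swap_pt φ e α β (e (Swap_u φ x)) = α x := by
  show α (Swap_a φ e (e (Swap_u φ x))) + β (Swap_b φ e (e (Swap_u φ x))) = α x
  rw [Swap_a_u, Swap_b_u, map_zero, add_zero]

theorem Swap_pt_v (α β : h →ₗ[K] K) (x : h) : Swap_pt φ e α β (e (Swap_v φ x)) = β x := by
  show α (Swap_a φ e (e (Swap_v φ x))) + β (Swap_b φ e (e (Swap_v φ x))) = β x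
  rw [Swap_a_v, Swap_b_v, map_zero, zero_add]

end points

section dd

variable {L : Type*} [LieRing L] [LieAlgebra K L]

theorem Swap_ev2_smap {M : Type*} [LieRing M] [LieAlgebra K M] (f : L →ₗ[K] M)
    (x y : M →ₗ[K] K) (F : Sy K L) : ev2 x y (smap f F) = ev2 (x ∘ₗ f) (y ∘ₗ f) F :=
  Swap_ext (f := (ev2 x y).comp (smap f)) (fun z => by
    show ev2 x y (smap f (ιS K L z)) = _
    rw [smap_ι, ev2_ι, ev2_ι]
    rfl) F

theorem Swap_ev2_coeff_zero (x y y' : L →ₗ[K] K) (F : Sy K L) :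
    (ev2 x y F).coeff 0 = (ev2 x y' F).coeff 0 := by
  induction F using SymmetricAlgebra.induction with
  | algebraMap r => rw [AlgHom.commutes, AlgHom.commutes]
  | ι z =>
    have h1 := ev2_ι x y z
    have h2 := ev2_ι x y' z
    rw [h1, h2, coeff_add, coeff_add, coeff_mul_X_zero, coeff_mul_X_zero]
  | mul p q hp hq => rw [map_mul, map_mul, mul_coeff_zero, mul_coeff_zero, hp, hq]
  | add p q hp hq => rw [map_add, map_add, coeff_add, coeff_add, hp, hq]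

theorem Swap_dd_zero (x : L →ₗ[K] K) (F : Sy K L) : dd x 0 F = 0 := by
  unfold dd
  induction F using SymmetricAlgebra.induction with
  | algebraMap r =>
    rw [AlgHom.commutes, Polynomial.algebraMap_apply, coeff_C, if_neg one_ne_zero]
  | ι z =>
    have h1 := ev2_ι x 0 z
    rw [h1, coeff_add, coeff_C, if_neg one_ne_zero, coeff_mul_X, coeff_C_zero]
    simp
  | mul p q hp hq => rw [map_mul, mul_coeff_one, hp, hq, mul_zero, zero_mul, add_zero]
  | add p q hp hq => rw [map_add, coeff_add, hp, hq, add_zero]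

theorem Swap_dd_smul (x y : L →ₗ[K] K) (c : K) (F : Sy K L) : dd x y (c • F) = c * dd x y F := by
  unfold dd
  rw [map_smul, coeff_smul, smul_eq_mul]

/-- the derivative of the linear part -/
theorem Swap_dd_lin (a b : h →ₗ[K] L) (x y : L →ₗ[K] K) (hx : ∀ w, x (b w) = 0) (F : Sy K h) :
    (ev2 x y ((Swap_P a b F).coeff 0)).coeff 0 =
        (ev2 (x ∘ₗ a) (y ∘ₗ b) F).coeff 0 ∧
      (ev2 x y ((Swap_P a b F).coeff 1)).coeff 0 = 0 ∧
      (ev2 x y ((Swap_P a b F).coeff 1)).coeff 1 = dd (x ∘ₗ a) (y ∘ₗ b) F := by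
  unfold dd
  induction F using SymmetricAlgebra.induction with
  | algebraMap r =>
    rw [AlgHom.commutes, Polynomial.algebraMap_apply, coeff_C_zero, coeff_C,
      if_neg one_ne_zero, map_zero, coeff_zero, AlgHom.commutes, AlgHom.commutes, coeff_zero,
      Polynomial.algebraMap_apply, coeff_C, coeff_C, if_neg one_ne_zero]
    exact ⟨rfl, rfl, rfl⟩
  | ι z =>
    have h1 := Swap_P_ι a b z
    have h2 := ev2_ι (x ∘ₗ a) (y ∘ₗ b) z
    have e0 : (C (ιS K L (a z)) + X * C (ιS K L (b z))).coeff 0 = ιS K L (a z) := by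
      rw [coeff_add, coeff_C_zero, coeff_X_mul_zero, add_zero]
    have e1 : (C (ιS K L (a z)) + X * C (ιS K L (b z))).coeff 1 = ιS K L (b z) := by
      rw [coeff_add, coeff_C, if_neg one_ne_zero, coeff_X_mul, coeff_C_zero, zero_add]
    rw [h1, h2, e0, e1, ev2_ι, ev2_ι]
    simp [hx]
  | mul p q hp hq =>
    obtain ⟨p0, p1, p2⟩ := hp
    obtain ⟨q0, q1, q2⟩ := hq
    rw [map_mul, map_mul, mul_coeff_zero, mul_coeff_one, map_mul, map_add, map_mul, map_mul,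
      mul_coeff_zero, coeff_add, coeff_add, mul_coeff_zero, mul_coeff_zero, mul_coeff_one,
      mul_coeff_one, mul_coeff_zero, mul_coeff_one, p0, p1, p2, q0, q1, q2]
    refine ⟨rfl, ?_, ?_⟩
    · ring
    · ring
  | add p q hp hq =>
    obtain ⟨p0, p1, p2⟩ := hp
    obtain ⟨q0, q1, q2⟩ := hq
    simp only [map_add, coeff_add, p0, p1, p2, q0, q1, q2, add_zero, and_self]

end dd

end swap

/-! ### the commutative subalgebras -/

section algebras

variable {K : Type*} [Field K] {h : Type*} [LieRing h] [LieAlgebra K h] {g : Type*} [LieRing g]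
  [LieAlgebra K g]

/-- the images of commuting homomorphisms commute -/
theorem Swap_umap_comm {i1 i2 : h →ₗ[K] g} (H1 : IsBr i1) (H2 : IsBr i2)
    (H : ∀ x y, ⁅i1 x, i2 y⁆ = 0) (a b : Ue K h) :
    umap i1 H1 a * umap i2 H2 b = umap i2 H2 b * umap i1 H1 a := by
  have hgen : ∀ (x y : h), ιU K g (i1 x) * ιU K g (i2 y) = ιU K g (i2 y) * ιU K g (i1 x) := by
    intro x y
    have h1 := ιU_comm (𝕜 := K) (i1 x) (i2 y)
    rw [H, map_zero] at h1
    exact sub_eq_zero.1 h1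
  have h2 : ∀ (a : Ue K h) (y : h),
      umap i1 H1 a * ιU K g (i2 y) = ιU K g (i2 y) * umap i1 H1 a := by
    intro a y
    obtain ⟨t, rfl⟩ : ∃ t, pU t = a := RingCon.mk'_surjective _ a
    induction t using TensorAlgebra.induction with
    | algebraMap r => rw [AlgHom.commutes, AlgHom.commutes, Algebra.commutes]
    | ι x => rw [pU_ι, umap_ι, hgen]
    | mul a b ha hb => rw [map_mul, map_mul, mul_assoc, hb, ← mul_assoc, ha, mul_assoc]
    | add a b ha hb => rw [map_add, map_add, add_mul, mul_add, ha, hb]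
  obtain ⟨t, rfl⟩ : ∃ t, pU t = b := RingCon.mk'_surjective _ b
  induction t using TensorAlgebra.induction with
  | algebraMap r => rw [AlgHom.commutes, AlgHom.commutes, Algebra.commutes]
  | ι x => rw [pU_ι, umap_ι, h2]
  | mul c b hc hb => rw [map_mul, map_mul, ← mul_assoc, hc, mul_assoc, hb, ← mul_assoc]
  | add c b hc hb => rw [map_add, map_add, add_mul, mul_add, hc, hb]

/-- the subalgebra generated by the two images -/
noncomputable def Swap_C {i1 i2 : h →ₗ[K] g} (H1 : IsBr i1) (H2 : IsBr i2)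
    (C : (h →ₗ[K] K) → Subalgebra K (Ue K h)) (ξ : g →ₗ[K] K) : Subalgebra K (Ue K g) :=
  Algebra.adjoin K ((umap i1 H1 '' C (ξ ∘ₗ i1)) ∪ (umap i2 H2 '' C (ξ ∘ₗ i2)))

theorem Swap_C_comm {i1 i2 : h →ₗ[K] g} (H1 : IsBr i1) (H2 : IsBr i2)
    (H : ∀ x y, ⁅i1 x, i2 y⁆ = 0) {C : (h →ₗ[K] K) → Subalgebra K (Ue K h)}
    (hC : ∀ ξ, ∀ a ∈ C ξ, ∀ b ∈ C ξ, a * b = b * a) (ξ : g →ₗ[K] K) :
    ∀ a ∈ Swap_C H1 H2 C ξ, ∀ b ∈ Swap_C H1 H2 C ξ, a * b = b * a := by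
  have hs : ∀ a ∈ (umap i1 H1 '' C (ξ ∘ₗ i1)) ∪ (umap i2 H2 '' C (ξ ∘ₗ i2)),
      ∀ b ∈ (umap i1 H1 '' C (ξ ∘ₗ i1)) ∪ (umap i2 H2 '' C (ξ ∘ₗ i2)), Commute a b := by
    rintro _ (⟨a, ha, rfl⟩ | ⟨a, ha, rfl⟩) _ (⟨b, hb, rfl⟩ | ⟨b, hb, rfl⟩)
    · show umap i1 H1 a * umap i1 H1 b = umap i1 H1 b * umap i1 H1 a
      rw [← map_mul, ← map_mul, hC _ a ha b hb]
    · exact Swap_umap_comm H1 H2 H a b
    · exact (Swap_umap_comm H1 H2 H b a).symm
    · show umap i2 H2 a * umap i2 H2 b = umap i2 H2 b * umap i2 H2 a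
      rw [← map_mul, ← map_mul, hC _ a ha b hb]
  intro a ha b hb
  refine Algebra.commute_of_mem_adjoin_of_forall_mem_commute (R := K) hb fun c hc => ?_
  exact (Algebra.commute_of_mem_adjoin_of_forall_mem_commute (R := K) ha
    fun d hd => (hs c hc d hd)).symm

theorem Swap_hasQ1 {i1 i2 : h →ₗ[K] g} (H1 : IsBr i1) (H2 : IsBr i2)
    {C : (h →ₗ[K] K) → Subalgebra K (Ue K h)} {d : ℕ} {F : Sy K h} (hF : HasQ C d F) :
    HasQ (Swap_C H1 H2 C) d (smap i1 F) :=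
  hF.map i1 H1 fun _ a ha => Algebra.subset_adjoin (Or.inl ⟨a, ha, rfl⟩)

theorem Swap_hasQ2 {i1 i2 : h →ₗ[K] g} (H1 : IsBr i1) (H2 : IsBr i2)
    {C : (h →ₗ[K] K) → Subalgebra K (Ue K h)} {d : ℕ} {F : Sy K h} (hF : HasQ C d F) :
    HasQ (Swap_C H1 H2 C) d (smap i2 F) :=
  hF.map i2 H2 fun _ a ha => Algebra.subset_adjoin (Or.inr ⟨a, ha, rfl⟩)

/-! ### faithful representations -/

theorem Swap_isLieMap_comp {A B : Type*} [Ring A] [Algebra K A] [Ring B] [Algebra K B]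
    {ρ : g →ₗ[K] A} (hρ : IsLieMap ρ) (f : A →ₐ[K] B) : IsLieMap (f.toLinearMap ∘ₗ ρ) := by
  intro x y
  show f (ρ ⁅x, y⁆) = f (ρ x) * f (ρ y) - f (ρ y) * f (ρ x)
  rw [hρ, map_sub, map_mul, map_mul]

theorem Swap_lin_of {J : Type*} [Fintype J] [DecidableEq J] {ρ : g →ₗ[K] Matrix J J K}
    (hρ : IsLieMap ρ) (hinj : Function.Injective ρ) : Lin K g := by
  let f := Matrix.reindexAlgEquiv K K (Fintype.equivFin J)
  refine ⟨Fintype.card J, f.toAlgHom.toLinearMap ∘ₗ ρ, Swap_isLieMap_comp hρ f.toAlgHom, ?_⟩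
  intro x y hxy
  exact hinj (f.injective hxy)

/-- the block diagonal representation of `h × h` -/
noncomputable def Swap_ρ {N : ℕ} (ρ : h →ₗ[K] Matrix (Fin N) (Fin N) K) (φ : g ≃ₗ[K] h × h) :
    g →ₗ[K] Matrix (Fin N ⊕ Fin N) (Fin N ⊕ Fin N) K where
  toFun := fun x => Matrix.fromBlocks (ρ (φ x).1) 0 0 (ρ (φ x).2)
  map_add' := fun x y => by
    rw [map_add, Prod.fst_add, Prod.snd_add, map_add, map_add, Matrix.fromBlocks_add, add_zero]
  map_smul' := fun c x => by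
    rw [map_smul, Prod.smul_fst, Prod.smul_snd, map_smul, map_smul, RingHom.id_apply,
      Matrix.fromBlocks_smul, smul_zero]

theorem Swap_ρ_lie {N : ℕ} {ρ : h →ₗ[K] Matrix (Fin N) (Fin N) K} (hρ : IsLieMap ρ)
    {φ : g ≃ₗ[K] h × h} (hφ : IsBr (φ : g →ₗ[K] h × h)) : IsLieMap (Swap_ρ ρ φ) := by
  intro x y
  show Matrix.fromBlocks (ρ (φ ⁅x, y⁆).1) 0 0 (ρ (φ ⁅x, y⁆).2) =
    Matrix.fromBlocks (ρ (φ x).1) 0 0 (ρ (φ x).2) * Matrix.fromBlocks (ρ (φ y).1) 0 0 (ρ (φ y).2) -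
    Matrix.fromBlocks (ρ (φ y).1) 0 0 (ρ (φ y).2) * Matrix.fromBlocks (ρ (φ x).1) 0 0 (ρ (φ x).2)
  have h1 : φ ⁅x, y⁆ = ⁅φ x, φ y⁆ := hφ x y
  have h2 : (⁅φ x, φ y⁆ : h × h) = (⁅(φ x).1, (φ y).1⁆, ⁅(φ x).2, (φ y).2⁆) := rfl
  have hsub : ∀ A D A' D' : Matrix (Fin N) (Fin N) K,
      Matrix.fromBlocks A 0 0 D - Matrix.fromBlocks A' 0 0 D' =
        Matrix.fromBlocks (A - A') 0 0 (D - D') := by
    intro A D A' D'
    ext i j
    rcases i with i | i <;> rcases j with j | j <;> simp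
  rw [h1, h2, hρ, hρ, Matrix.fromBlocks_multiply, Matrix.fromBlocks_multiply]
  simp only [Matrix.mul_zero, Matrix.zero_mul, add_zero, zero_add]
  rw [hsub]

theorem Swap_ρ_inj {N : ℕ} {ρ : h →ₗ[K] Matrix (Fin N) (Fin N) K}
    (hρ : Function.Injective ρ) (φ : g ≃ₗ[K] h × h) : Function.Injective (Swap_ρ ρ φ) := by
  intro x y hxy
  have h1 : Matrix.fromBlocks (ρ (φ x).1) 0 0 (ρ (φ x).2) =
      Matrix.fromBlocks (ρ (φ y).1) 0 0 (ρ (φ y).2) := hxy
  rw [Matrix.fromBlocks_inj] at h1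
  exact φ.injective (Prod.ext (hρ h1.1) (hρ h1.2.2.2))

theorem Swap_lin [CharZero K] {k : Type*} [LieRing k] [LieAlgebra K k] (hl : Lin K h)
    {θ : Invol K g} (φ : g ≃ₗ[K] h × h) (hφ : IsBr (φ : g →ₗ[K] h × h)) {e : g ≃ₗ[K] k}
    (he : IsContraction θ e) : Lin K k := by
  obtain ⟨N, ρ, hρ, hinj⟩ := hl
  have h1 := isLieMap_con θ (Swap_ρ_lie hρ hφ) he
  have h2 := con_injective θ (Swap_ρ_inj hinj φ) e
  let f := Matrix.compAlgEquiv (Fin 2) (Fin N ⊕ Fin N) K K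
  refine Swap_lin_of (Swap_isLieMap_comp h1 f.toAlgHom) ?_
  intro x y hxy
  exact h2 (f.injective hxy)

end algebras

/-! ### the data -/

section final

variable {K : Type*} [Field K] {h : Type*} [LieRing h] [LieAlgebra K h] {g : Type*} [LieRing g]
  [LieAlgebra K g] {k : Type*} [LieRing k] [LieAlgebra K k]

theorem Swap_Data_reindex {I J : Type*} [Fintype I] [Fintype J] (σ : J ≃ I) {F : I → Sy K h}
    {d : I → ℕ} {p q x0 : h →ₗ[K] K} (H : Data F d p q x0) : Data (F ∘ σ) (d ∘ σ) p q x0 where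
  pos := fun i => H.pos (σ i)
  hom := fun i => H.hom (σ i)
  cen := fun i => H.cen (σ i)
  ind := fun s t hst => (H.ind s t hst).comp σ σ.injective
  idx := H.idx.trans (Fintype.card_congr σ).symm.le

theorem Swap_Comm_reindex {I J : Type*} (σ : J ≃ I) {F : I → Sy K h}
    {d : I → ℕ} {ξ : h →ₗ[K] K} (H : Comm F d ξ) : Comm (F ∘ σ) (d ∘ σ) ξ := by
  obtain ⟨u, h1, h2⟩ := H
  exact ⟨fun i m => u (σ i) m, fun i j m n hm hn => h1 _ _ m n hm hn,
    fun i m hm => h2 (σ i) m hm⟩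

variable [CharZero K]

theorem Swap_even_eq {θ : Invol K g} {φ : g ≃ₗ[K] h × h}
    (hθ : ∀ x, φ (θ.hom x) = ((φ x).2, (φ x).1)) (e : g ≃ₗ[K] k) (z : k) :
    even θ (e.symm z) = Swap_u φ (Swap_a φ e z) := by
  apply φ.injective
  rw [Swap_φ_u, even, map_smul, map_add, hθ]
  refine Prod.ext rfl ?_
  show (2 : K)⁻¹ • ((φ (e.symm z)).2 + (φ (e.symm z)).1) =
    (2 : K)⁻¹ • ((φ (e.symm z)).1 + (φ (e.symm z)).2)
  rw [add_comm]

theorem Swap_odd_eq {θ : Invol K g} {φ : g ≃ₗ[K] h × h}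
    (hθ : ∀ x, φ (θ.hom x) = ((φ x).2, (φ x).1)) (e : g ≃ₗ[K] k) (z : k) :
    oddc θ (e.symm z) = Swap_v φ (Swap_b φ e z) := by
  apply φ.injective
  rw [Swap_φ_v, oddc, map_smul, map_sub, hθ]
  refine Prod.ext rfl ?_
  show (2 : K)⁻¹ • ((φ (e.symm z)).2 - (φ (e.symm z)).1) =
    -((2 : K)⁻¹ • ((φ (e.symm z)).1 - (φ (e.symm z)).2))
  rw [← smul_neg, neg_sub]

theorem Swap_uu {φ : g ≃ₗ[K] h × h} (hφ : IsBr (φ : g →ₗ[K] h × h)) (x y : h) :
    ⁅Swap_u φ x, Swap_u φ y⁆ = (2 : K)⁻¹ • Swap_u φ ⁅x, y⁆ := by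
  apply φ.injective
  have h1 : φ ⁅Swap_u φ x, Swap_u φ y⁆ = ⁅φ (Swap_u φ x), φ (Swap_u φ y)⁆ := hφ _ _
  rw [h1, map_smul, Swap_φ_u, Swap_φ_u, Swap_φ_u]
  refine Prod.ext ?_ ?_
  · show ⁅(2 : K)⁻¹ • x, (2 : K)⁻¹ • y⁆ = (2 : K)⁻¹ • (2 : K)⁻¹ • ⁅x, y⁆
    rw [smul_lie, lie_smul]
  · show ⁅(2 : K)⁻¹ • x, (2 : K)⁻¹ • y⁆ = (2 : K)⁻¹ • (2 : K)⁻¹ • ⁅x, y⁆
    rw [smul_lie, lie_smul]

theorem Swap_uv {φ : g ≃ₗ[K] h × h} (hφ : IsBr (φ : g →ₗ[K] h × h)) (x y : h) :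
    ⁅Swap_u φ x, Swap_v φ y⁆ = (2 : K)⁻¹ • Swap_v φ ⁅x, y⁆ := by
  apply φ.injective
  have h1 : φ ⁅Swap_u φ x, Swap_v φ y⁆ = ⁅φ (Swap_u φ x), φ (Swap_v φ y)⁆ := hφ _ _
  rw [h1, map_smul, Swap_φ_u, Swap_φ_v, Swap_φ_v]
  refine Prod.ext ?_ ?_
  · show ⁅(2 : K)⁻¹ • x, (2 : K)⁻¹ • y⁆ = (2 : K)⁻¹ • (2 : K)⁻¹ • ⁅x, y⁆
    rw [smul_lie, lie_smul]
  · show ⁅(2 : K)⁻¹ • x, -((2 : K)⁻¹ • y)⁆ = (2 : K)⁻¹ • -((2 : K)⁻¹ • ⁅x, y⁆)
    rw [smul_lie, lie_neg, lie_smul]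

theorem Swap_vu {φ : g ≃ₗ[K] h × h} (hφ : IsBr (φ : g →ₗ[K] h × h)) (x y : h) :
    ⁅Swap_v φ x, Swap_u φ y⁆ = (2 : K)⁻¹ • Swap_v φ ⁅x, y⁆ := by
  rw [← lie_skew, Swap_uv hφ, ← lie_skew x y, map_neg, smul_neg]

theorem Swap_pt_lie {θ : Invol K g} {φ : g ≃ₗ[K] h × h} (hφ : IsBr (φ : g →ₗ[K] h × h))
    (hθ : ∀ x, φ (θ.hom x) = ((φ x).2, (φ x).1)) {e : g ≃ₗ[K] k} (he : IsContraction θ e)
    (x0 : h →ₗ[K] K) (z z' : k) : Swap_pt φ e 0 x0 ⁅z, z'⁆ =
      (2 : K)⁻¹ * (x0 ⁅Swap_a φ e z, Swap_b φ e z'⁆ + x0 ⁅Swap_b φ e z, Swap_a φ e z'⁆) := by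
  have h1 : ⁅z, z'⁆ = e (brk θ (e.symm z) (e.symm z')) := by
    rw [← he, LinearEquiv.apply_symm_apply, LinearEquiv.apply_symm_apply]
  rw [h1, brk, Swap_even_eq hθ, Swap_even_eq hθ, Swap_odd_eq hθ, Swap_odd_eq hθ, Swap_uu hφ,
    Swap_uv hφ, Swap_vu hφ]
  simp only [map_add, map_smul]
  rw [Swap_pt_u, Swap_pt_v, Swap_pt_v, LinearMap.zero_apply,
    smul_zero, zero_add, ← smul_add, smul_eq_mul]

theorem Swap_idx {θ : Invol K g} {φ : g ≃ₗ[K] h × h} (hφ : IsBr (φ : g →ₗ[K] h × h))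
    (hθ : ∀ x, φ (θ.hom x) = ((φ x).2, (φ x).1)) {e : g ≃ₗ[K] k} (he : IsContraction θ e)
    [FiniteDimensional K h] (x0 : h →ₗ[K] K) :
    Module.finrank K (stab (Swap_pt φ e 0 x0)) ≤
      Module.finrank K (stab x0) + Module.finrank K (stab x0) := by
  have ha : ∀ z ∈ stab (Swap_pt φ e 0 x0), Swap_a φ e z ∈ stab x0 := by
    intro z hz y
    have h1 := hz (e (Swap_v φ y))
    rw [Swap_pt_lie hφ hθ he, Swap_a_v, Swap_b_v, lie_zero, map_zero, add_zero] at h1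
    exact (mul_eq_zero.1 h1).resolve_left (inv_ne_zero two_ne_zero)
  have hb : ∀ z ∈ stab (Swap_pt φ e 0 x0), Swap_b φ e z ∈ stab x0 := by
    intro z hz y
    have h1 := hz (e (Swap_u φ y))
    rw [Swap_pt_lie hφ hθ he, Swap_a_u, Swap_b_u, lie_zero, map_zero, zero_add] at h1
    exact (mul_eq_zero.1 h1).resolve_left (inv_ne_zero two_ne_zero)
  let T : stab (Swap_pt φ e 0 x0) →ₗ[K] stab x0 × stab x0 :=
    LinearMap.prod
      ((Swap_a φ e ∘ₗ (stab (Swap_pt φ e 0 x0)).subtype).codRestrict (stab x0)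
        fun z => ha z z.2)
      ((Swap_b φ e ∘ₗ (stab (Swap_pt φ e 0 x0)).subtype).codRestrict (stab x0)
        fun z => hb z z.2)
  have hT : Function.Injective T := by
    intro z z' hzz
    have h1 : Swap_a φ e (z : k) = Swap_a φ e (z' : k) :=
      congrArg (fun w => ((w.1 : stab x0) : h)) hzz
    have h2 : Swap_b φ e (z : k) = Swap_b φ e (z' : k) :=
      congrArg (fun w => ((w.2 : stab x0) : h)) hzz
    apply Subtype.ext
    rw [← Swap_ab φ e (z : k), ← Swap_ab φ e (z' : k), h1, h2]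
  have h3 := LinearMap.finrank_le_finrank_of_injective hT
  rwa [Module.finrank_prod] at h3

variable {n : ℕ} (F : Fin n → Sy K h) (d : Fin n → ℕ)

/-- the invariants of `g` -/
noncomputable def Swap_G (φ : g ≃ₗ[K] h × h) : Fin n ⊕ Fin n → Sy K g :=
  Sum.elim (fun i => Swap_F φ (F i) ((-1) ^ d i)) (fun i => Swap_F φ (F i) ((-1) ^ (d i - 1)))

/-- the degrees -/
def Swap_d : Fin n ⊕ Fin n → ℕ := Sum.elim d d

/-- the degrees in the odd variables -/
def Swap_e : Fin n ⊕ Fin n → ℕ := Sum.elim d (fun i => d i - 1)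

theorem Swap_pt_lin {φ : g ≃ₗ[K] h × h} (e : g ≃ₗ[K] k) (s t : K) (p q : h →ₗ[K] K) :
    s • Swap_pt φ e 0 p + t • Swap_pt φ e 0 q = Swap_pt φ e 0 (s • p + t • q) := by
  refine LinearMap.ext fun z => ?_
  show s • (0 + p (Swap_b φ e z)) + t • (0 + q (Swap_b φ e z)) =
    0 + (s • p (Swap_b φ e z) + t • q (Swap_b φ e z))
  rw [zero_add, zero_add, zero_add]

theorem Swap_dd_inl {θ : Invol K g} {φ : g ≃ₗ[K] h × h}
    (hθ : ∀ x, φ (θ.hom x) = ((φ x).2, (φ x).1)) (e : g ≃ₗ[K] k) {F : Sy K h} {d : ℕ}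
    (hF : F ∈ imS K h ^ d) (β : h →ₗ[K] K) (y : k →ₗ[K] K) :
    dd (Swap_pt φ e 0 β) y
      (smap (e : g →ₗ[K] k) ((scS θ (Swap_F φ F ((-1) ^ d))).coeff d)) =
      2 * dd β (y ∘ₗ (e : g →ₗ[K] k) ∘ₗ Swap_v φ) F := by
  rw [(Swap_F_top φ hθ hF).2, map_smul, Swap_dd_smul]
  congr 1
  unfold dd
  rw [Swap_ev2_smap, Swap_ev2_smap]
  have h1 : (Swap_pt φ e 0 β ∘ₗ (e : g →ₗ[K] k)) ∘ₗ Swap_v φ = β :=
    LinearMap.ext fun x => Swap_pt_v φ e 0 β x
  rw [h1]
  rfl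

theorem Swap_dd_inr {θ : Invol K g} {φ : g ≃ₗ[K] h × h}
    (hθ : ∀ x, φ (θ.hom x) = ((φ x).2, (φ x).1)) (e : g ≃ₗ[K] k) {F : Sy K h} {d : ℕ}
    (hF : F ∈ imS K h ^ (d + 1)) (β : h →ₗ[K] K) (y : k →ₗ[K] K) :
    dd (Swap_pt φ e 0 β) y
      (smap (e : g →ₗ[K] k) ((scS θ (Swap_F φ F ((-1) ^ d))).coeff d)) =
      2 * dd β (y ∘ₗ (e : g →ₗ[K] k) ∘ₗ Swap_u φ) F := by
  rw [(Swap_F_sub φ hθ hF).2, map_smul, Swap_dd_smul]
  congr 1
  have h1 : (Swap_pt φ e 0 β ∘ₗ (e : g →ₗ[K] k)) ∘ₗ Swap_v φ = β :=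
    LinearMap.ext fun x => Swap_pt_v φ e 0 β x
  have h2 := (Swap_dd_lin (Swap_v φ) (Swap_u φ) (Swap_pt φ e 0 β ∘ₗ (e : g →ₗ[K] k))
    (y ∘ₗ (e : g →ₗ[K] k)) (fun w => Swap_pt_u φ e 0 β w) F).2.2
  rw [h1] at h2
  rw [dd, Swap_ev2_smap]
  exact h2

end final

end lemmas

variable [CharZero K] {h : Type*} [LieRing h] [LieAlgebra K h] {g : Type*} [LieRing g]
  [LieAlgebra K g] {k : Type*} [LieRing k] [LieAlgebra K k]

theorem quant_swap (hs : SQuant K h) {θ : Invol K g} (φ : g ≃ₗ[K] h × h)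
    (hφ : IsBr (φ : g →ₗ[K] h × h)) (hθ : ∀ x, φ (θ.hom x) = ((φ x).2, (φ x).1))
    {e : g ≃ₗ[K] k} (he : IsContraction θ e) : Quant K k := by
  obtain ⟨hl, n, F, d, p, q, x0, C, hD, hC, hQ⟩ := hs
  refine ⟨Swap_lin hl φ hφ he, ?_⟩
  obtain ⟨N, ρ, hρ, hinj⟩ := hl
  have hfd : FiniteDimensional K h := FiniteDimensional.of_injective ρ hinj
  set G : Fin n ⊕ Fin n → Sy K g := Swap_G F d φ with hG
  set C' := Swap_C (Swap_br1 φ hφ) (Swap_br2 φ hφ) C with hC'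
  have hGq : ∀ i, HasQ C' (Swap_d d i) (G i) := by
    intro i
    have h1 : ∀ (j : Fin n) (c : K), HasQ C' (d j) (Swap_F φ (F j) c) := fun j c =>
      (Swap_hasQ1 _ _ (hQ j)).add (HasQ.smul c (Swap_hasQ2 _ _ (hQ j)))
    rcases i with i | i
    · exact h1 i _
    · exact h1 i _
  have hGm : ∀ i, G i ∈ imS K g ^ Swap_d d i := by
    intro i
    rcases i with i | i
    · exact Swap_F_mem φ (hD.hom i) _
    · exact Swap_F_mem φ (hD.hom i) _
  have hGd : ∀ i, (scS θ (G i)).natDegree ≤ Swap_e d i := by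
    intro i
    rcases i with i | i
    · exact (Swap_F_top φ hθ (hD.hom i)).1
    · have h1 := hD.pos i
      obtain ⟨m, hm⟩ : ∃ m, d i = m + 1 := ⟨d i - 1, by omega⟩
      have h2 := hD.hom i
      rw [hm] at h2
      have h3 := (Swap_F_sub φ hθ h2).1
      show (scS θ (Swap_F φ (F i) ((-1) ^ (d i - 1)))).natDegree ≤ d i - 1
      rw [hm, Nat.add_sub_cancel]
      exact h3
  have hGc : ∀ i, G i ∈ centre K g := by
    intro i
    rcases i with i | i
    · exact Swap_cen_add _ (Swap_cen1 φ hφ (hD.cen i)) (Swap_cen2 φ hφ (hD.cen i))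
    · exact Swap_cen_add _ (Swap_cen1 φ hφ (hD.cen i)) (Swap_cen2 φ hφ (hD.cen i))
  set H : Fin n ⊕ Fin n → Sy K k :=
    fun i => smap (e : g →ₗ[K] k) ((scS θ (G i)).coeff (Swap_e d i)) with hH
  have hdl : ∀ (β : h →ₗ[K] K) (y : k →ₗ[K] K) (i : Fin n),
      dd (Swap_pt φ e 0 β) y (H (Sum.inl i)) =
        2 * dd β (y ∘ₗ (e : g →ₗ[K] k) ∘ₗ Swap_v φ) (F i) :=
    fun β y i => Swap_dd_inl hθ e (hD.hom i) β y
  have hdr : ∀ (β : h →ₗ[K] K) (y : k →ₗ[K] K) (i : Fin n),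
      dd (Swap_pt φ e 0 β) y (H (Sum.inr i)) =
        2 * dd β (y ∘ₗ (e : g →ₗ[K] k) ∘ₗ Swap_u φ) (F i) := by
    intro β y i
    have h1 := hD.pos i
    obtain ⟨m, hm⟩ : ∃ m, d i = m + 1 := ⟨d i - 1, by omega⟩
    have h2 := hD.hom i
    rw [hm] at h2
    have h3 := Swap_dd_inr hθ e h2 β y
    show dd (Swap_pt φ e 0 β) y (smap (e : g →ₗ[K] k)
      ((scS θ (Swap_F φ (F i) ((-1) ^ (d i - 1)))).coeff (d i - 1))) = _
    rw [hm, Nat.add_sub_cancel]
    exact h3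
  have hData : Data H (Swap_d d) (Swap_pt φ e 0 p) (Swap_pt φ e 0 q) (Swap_pt φ e 0 x0) := by
    refine ⟨?_, ?_, ?_, ?_, ?_⟩
    · intro i
      rcases i with i | i
      · exact hD.pos i
      · exact hD.pos i
    · intro i
      exact smap_mem _ (coeff_scS_mem θ (hGm i) _)
    · intro i
      exact centre_contract θ he (hGc i) (hGd i)
    · intro s t hst
      rw [Swap_pt_lin, Fintype.linearIndependent_iff]
      intro c hc
      have hind := hD.ind s t hst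
      rw [Fintype.linearIndependent_iff] at hind
      set β := s • p + t • q with hβ
      have key : ∀ y : k →ₗ[K] K,
          ∑ i, c (Sum.inl i) * (2 * dd β (y ∘ₗ (e : g →ₗ[K] k) ∘ₗ Swap_v φ) (F i)) +
            ∑ i, c (Sum.inr i) * (2 * dd β (y ∘ₗ (e : g →ₗ[K] k) ∘ₗ Swap_u φ) (F i)) = 0 := by
        intro y
        have h1 := congrFun hc y
        rw [Fintype.sum_sum_type] at h1
        simp only [Pi.add_apply, Finset.sum_apply, Pi.smul_apply, smul_eq_mul, hdl, hdr,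
          Pi.zero_apply] at h1
        exact h1
      have hv0 : ∀ α β' : h →ₗ[K] K,
          Swap_pt φ e α β' ∘ₗ (e : g →ₗ[K] k) ∘ₗ Swap_v φ = β' := fun α β' =>
        LinearMap.ext fun x => Swap_pt_v φ e α β' x
      have hu0 : ∀ α β' : h →ₗ[K] K,
          Swap_pt φ e α β' ∘ₗ (e : g →ₗ[K] k) ∘ₗ Swap_u φ = α := fun α β' =>
        LinearMap.ext fun x => Swap_pt_u φ e α β' x
      have h2 : (2 : K) ≠ 0 := two_ne_zero
      intro i
      rcases i with i | i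
      · refine hind (fun i => c (Sum.inl i)) (funext fun β' => ?_) i
        have h1 := key (Swap_pt φ e 0 β')
        simp only [hv0, hu0, Swap_dd_zero, mul_zero, Finset.sum_const_zero, add_zero] at h1
        simp only [Finset.sum_apply, Pi.smul_apply, smul_eq_mul, Pi.zero_apply]
        have h3 : (2 : K) * ∑ i, c (Sum.inl i) * dd β β' (F i) = 0 := by
          rw [← h1, Finset.mul_sum]
          exact Finset.sum_congr rfl fun i _ => by ring
        exact (mul_eq_zero.1 h3).resolve_left h2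
      · refine hind (fun i => c (Sum.inr i)) (funext fun β' => ?_) i
        have h1 := key (Swap_pt φ e β' 0)
        simp only [hv0, hu0, Swap_dd_zero, mul_zero, Finset.sum_const_zero, zero_add] at h1
        simp only [Finset.sum_apply, Pi.smul_apply, smul_eq_mul, Pi.zero_apply]
        have h3 : (2 : K) * ∑ i, c (Sum.inr i) * dd β β' (F i) = 0 := by
          rw [← h1, Finset.mul_sum]
          exact Finset.sum_congr rfl fun i _ => by ring
        exact (mul_eq_zero.1 h3).resolve_left h2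
    · have h1 := Swap_idx hφ hθ he x0
      have h2 := hD.idx
      rw [Fintype.card_fin] at h2
      rw [Fintype.card_sum, Fintype.card_fin]
      omega
  have hComm : ∀ ξ : k →ₗ[K] K, Comm H (Swap_d d) ξ := fun ξ =>
    comm_of_limQ θ (Swap_ρ_lie hρ hφ) (Swap_ρ_inj hinj φ) he
      (Swap_C_comm _ _ (Swap_comm12 φ hφ) hC) G (Swap_d d) (Swap_e d)
      (fun i => limQ_of_hasQ θ e (hGq i) (hGd i) (by
        rcases i with i | i
        · show d i ≤ d i + 2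
          omega
        · show d i ≤ d i - 1 + 2
          omega)) ξ
  exact ⟨n + n, H ∘ finSumFinEquiv.symm, Swap_d d ∘ finSumFinEquiv.symm, _, _, _,
    Swap_Data_reindex finSumFinEquiv.symm hData,
    fun ξ => Swap_Comm_reindex finSumFinEquiv.symm (hComm ξ)⟩

end Pool.Agent.helper49.QA
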