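import Mathlib
import Pool.Agent.helper49.QA.Swap
import Pool.Agent.helper49.QA.FamBE
import Pool.Agent.helper49.QA.FamCI

/-!
# The trivial involution and the strong property `SQuant` (used for Takiff algebras)

For `θ = 1` the contraction is `g` itself (`e = refl`, `IsContraction` because `oddc = 0`), and
`r.gen refl c m 0 = r.H c m` (`scS θ F = C F`).  `squant_of` follows from `Rz.data`, and `squant_of_pf`
from the proof of `Rz.quant_of_pf` (extract its `Data` part).

`squant_B`: `FamBO_tests`, `FamB_index` with `q = 0`, after the equivalences `exists_equiv_symm` (`S = 1`).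
`squant_C`: chain form `Jalt`, `chain_tests` with the constant parity: the window `lo = 0` has
weight `0`; the index point: `a1 = 0`, `a0 = diag (μ, -μ)`, `μ i = i + 1`, in the form
`fromBlocks 0 1 (-1) 0` (`Rz.finrank_stab_le`; odd elements are zero).
`squant_D`: as `quant_BE` with `q = 0`.
-/

set_option autoImplicit false

namespace Pool.Agent.helper49.QA

open Polynomial Pool.Agent.helper5.AS
open Pool.Agent.helper5.ASQ (Invol even oddc brk IsContraction)
open Pool.Agent.helper90.MF (od)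

variable {K : Type*} [Field K] [CharZero K] {n : Type*} [Fintype n] [DecidableEq n] {g : Type*}
  [LieRing g] [LieAlgebra K g]

/-- the trivial involution -/
def idI (K : Type*) [Field K] (g : Type*) [LieRing g] [LieAlgebra K g] : Invol K g where
  hom := LieHom.id
  hom_hom := fun _ => rfl

theorem SQ_even (x : g) : even (idI K g) x = x := by
  show (2 : K)⁻¹ • (x + x) = x
  rw [← two_smul K x, smul_smul, inv_mul_cancel₀ two_ne_zero, one_smul]

theorem SQ_oddc (x : g) : oddc (idI K g) x = 0 := by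
  show (2 : K)⁻¹ • (x - x) = 0
  rw [sub_self, smul_zero]

theorem isContraction_refl : IsContraction (idI K g) (LinearEquiv.refl K g) := by
  intro x y
  show ⁅x, y⁆ = brk (idI K g) x y
  rw [brk, SQ_even, SQ_even, SQ_oddc, SQ_oddc, lie_zero, zero_lie, add_zero, add_zero]

theorem SQ_scS (F : Sy K g) : scS (idI K g) F = C F := by
  refine Swap_ext (f := scS (idI K g)) (f' := (CAlgHom : Sy K g →ₐ[Sy K g] (Sy K g)[X]).restrictScalars K)
    (fun x => ?_) F
  rw [scS_ι, SQ_even, SQ_oddc, map_zero, map_zero, mul_zero, add_zero]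
  rfl

theorem SQ_smap_refl (F : Sy K g) :
    smap ((LinearEquiv.refl K g : g ≃ₗ[K] g) : g →ₗ[K] g) F = F := by
  refine Swap_ext (f := smap _) (f' := AlgHom.id K (Sy K g)) (fun x => ?_) F
  rw [smap_ι]
  rfl

theorem SQ_lead (F : Sy K g) :
    smap ((LinearEquiv.refl K g : g ≃ₗ[K] g) : g →ₗ[K] g) ((scS (idI K g) F).coeff 0) = F := by
  rw [SQ_scS, coeff_C_zero, SQ_smap_refl]

theorem gen_refl (r : Rz K n (idI K g)) (c : Bool) (m : ℕ) :
    r.gen (LinearEquiv.refl K g) c m 0 = r.H c m := by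
  rw [Rz.gen, SQ_lead]

theorem SQ_M (r : Rz K n (idI K g)) (a : g) : r.M a = (r.ρ a).map C := by
  rw [Rz.M, SQ_even, SQ_oddc, map_zero]
  ext1 i j
  simp

theorem SQ_deg (r : Rz K n (idI K g)) (c : Bool) (m : ℕ) (a : g) :
    (phi K c m (r.M a)).natDegree ≤ 0 := by
  rw [SQ_M]
  have h := phi_map (K := K) (CAlgHom : K →ₐ[K] K[X]) c m (r.ρ a)
  have h1 : (r.ρ a).map (C : K → K[X]) = (r.ρ a).map (CAlgHom : K →ₐ[K] K[X]) := rfl
  rw [h1, h]
  exact (natDegree_C _).le

theorem Rz.squant_of (r : Rz K n (idI K g)) {l : ℕ} (c : Fin l → Bool) (m : Fin l → ℕ)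
    (hm : StrictMono m) (hm1 : ∀ i, 1 ≤ m i) (htest : r.Tests m fun _ => 0) (x0 : g →ₗ[K] K)
    (hx0 : Module.finrank K (stab x0) ≤ l) {C : (g →ₗ[K] K) → Subalgebra K (Ue K g)}
    (hC : ∀ ξ, ∀ a ∈ C ξ, ∀ b ∈ C ξ, a * b = b * a)
    (hQ : ∀ i, HasQ C (m i) (r.H (c i) (m i))) : SQuant K g := by
  obtain ⟨p, q, h⟩ := htest
  have hD := r.data isContraction_refl c m (fun _ => 0) hm hm1 (fun i a => SQ_deg r (c i) (m i) a)
    p q h x0 hx0
  have hF : (fun i => r.gen (LinearEquiv.refl K g) (c i) (m i) 0) = fun i => r.H (c i) (m i) :=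
    funext fun i => gen_refl r (c i) (m i)
  rw [hF] at hD
  exact ⟨r.lin_con isContraction_refl, l, fun i => r.H (c i) (m i), m, _, _, x0, C, hD, hC, hQ⟩

theorem SQ_isPar (r : Rz K n (idI K g)) (par : n → Bool) (hpar : ∀ i j, par i = par j) :
    r.IsPar par := by
  intro x i j
  rw [od, if_pos (hpar i j), pow_zero, one_mul]
  rfl

theorem SQ_parB (l a : ℕ) : parB l 0 a = false := by
  rw [parB, decide_eq_false_iff_not]
  omega

/-- a realisation with a different symmetric form -/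
theorem SQ_symm [IsAlgClosed K] {m : Type*} [Fintype m] [DecidableEq m]
    (hc : Fintype.card m = Fintype.card n) {θ : Invol K g} {r : Rz K n θ} {J : Matrix n n K}
    (hJ : r.IsJ J 1) {J' : Matrix m m K} (hJ' : J'.transpose = J') (hd' : J'.det ≠ 0) :
    ∃ (P : Matrix m n K) (Q : Matrix n m K) (h1 : P * Q = 1) (h2 : Q * P = 1),
      (r.conj P Q h1 h2).IsJ J' 1 ∧ P.transpose * J' * P = J := by
  obtain ⟨P, Q, h1, h2, h3⟩ := exists_equiv_symm hc (by rw [hJ.symm, one_smul]) hJ' hJ.det hd'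
  exact ⟨P, Q, h1, h2, hJ.conj h1 h2 h3, h3⟩


theorem SQ_JB_det [IsAlgClosed K] {X Z : Type*} [Fintype X] [Fintype Z] [DecidableEq X]
    [DecidableEq Z] : (JB K (X := X) (Z := Z)).det ≠ 0 := by
  rw [FamBO_JB]
  exact Matrix.det_ne_zero_of_right_inverse (FamBO_pm_sq FamBO_j_j)

theorem SQ_SB {l z : ℕ} :
    SB K (X := Fin 0) (Y := Fin l) (Z := Fin z) = 1 := by
  ext a b
  rcases a with ⟨x | x, ε⟩ | w <;> rcases b with ⟨y | y, δ⟩ | w'
  · exact x.elim0
  · exact x.elim0
  · exact x.elim0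
  · exact y.elim0
  · show (if (Sum.inr x : Fin 0 ⊕ Fin l) = Sum.inr y ∧
      (if (Sum.inr x : Fin 0 ⊕ Fin l).isLeft then ε ≠ δ else ε = δ) then (1 : K) else 0) = _
    rw [Matrix.one_apply]
    refine if_congr ?_ rfl rfl
    simp
  · show (0 : K) = _
    rw [Matrix.one_apply_ne (by simp)]
  · exact y.elim0
  · show (0 : K) = _
    rw [Matrix.one_apply_ne (by simp)]
  · show (1 : Matrix (Fin z) (Fin z) K) w w' = _
    rw [Matrix.one_apply, Matrix.one_apply]
    refine if_congr ?_ rfl rfl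
    simp

/-- the index point for the trivial involution, `so` in dimension `2 l + z`, `z ≤ 1` -/
theorem SQ_index [IsAlgClosed K] {l z : ℕ} (hz : z ≤ 1) (hc : 2 * l + z = Fintype.card n)
    {r : Rz K n (idI K g)} {J : Matrix n n K} (hJ : r.IsJ J 1) :
    ∃ x0 : g →ₗ[K] K, Module.finrank K (stab x0) ≤ l := by
  obtain ⟨P, Q, h1, h2, hJ2, -⟩ := SQ_symm (m := (Fin 0 ⊕ Fin l) × Fin 2 ⊕ Fin z)
    (by
      rw [Fintype.card_sum, Fintype.card_prod, Fintype.card_sum, Fintype.card_fin,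
        Fintype.card_fin, Fintype.card_fin, Fintype.card_fin, ← hc]
      omega) hJ (J' := JB K)
    (by rw [FamBO_JB, FamBO_pm_transpose FamBO_j_j]) SQ_JB_det
  obtain ⟨x0, hx0⟩ := FamB_index (k := g) hz hJ2 (fun x => by
    rw [SQ_SB, Matrix.mul_one, Matrix.one_mul]
    rfl) isContraction_refl
  exact ⟨x0, by omega⟩

/-- the family of `so` in odd dimension -/
theorem squant_B [IsAlgClosed K] (hn : Odd (Fintype.card n)) (hn3 : 3 ≤ Fintype.card n)
    {r : Rz K n (idI K g)} {J : Matrix n n K} (hJ : r.IsJ J 1)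
    (hyp : ∀ (r' : Rz K n (idI K g)), r'.IsJ 1 1 → ∃ C : (g →ₗ[K] K) → Subalgebra K (Ue K g),
      (∀ ξ, ∀ a ∈ C ξ, ∀ b ∈ C ξ, a * b = b * a) ∧ (∀ j, HasQ C j (ek j r'.XM)) ∧
        ∀ (h : ℕ) (pr : Fin h × Fin 2 ≃ n), HasQ C h (r'.PF pr 1)) : SQuant K g := by
  obtain ⟨l, hl⟩ := hn
  obtain ⟨x0, hx0⟩ := SQ_index (l := l) (z := 1) le_rfl hl.symm hJ
  have hκ : (-1 : K) ^ (2 * l + 1 + 1) = 1 := by
    rw [show 2 * l + 1 + 1 = 2 * (l + 1) by ring, pow_mul]
    norm_num
  obtain ⟨P, Q, h1, h2, hJ1, -⟩ := SQ_symm (m := Fin (2 * l + 1))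
    (by rw [Fintype.card_fin, hl]) hJ (J' := Jalt K (2 * l + 1))
    (by rw [Jalt_transpose, hκ, one_smul]) (Jalt_det_ne_zero _)
  obtain ⟨P', Q', h1', h2', hJ', -⟩ := SQ_symm (m := n) rfl hJ (J' := 1)
    Matrix.transpose_one (by rw [Matrix.det_one]; exact one_ne_zero)
  obtain ⟨C, hC, hQ, -⟩ := hyp _ hJ'
  have ht := FamBO_tests (q := 0) (Nat.zero_le l) hJ1
    (SQ_isPar (r.conj P Q h1 h2) (fun i => parB l 0 i.val) fun i j => by
      rw [SQ_parB, SQ_parB])
  have hb : (fun i : Fin l => min (2 * (i.val + 1)) (2 * 0)) = fun _ => 0 := by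
    funext i
    omega
  rw [hb] at ht
  refine (r.conj P Q h1 h2).squant_of (fun _ => false) (fun i : Fin l => 2 * (i.val + 1))
    ?_ ?_ ht x0 hx0 hC ?_
  · intro i j hij
    have : i.val < j.val := hij
    show 2 * (i.val + 1) < 2 * (j.val + 1)
    omega
  · intro i
    omega
  · intro i
    have h3 := hQ (2 * (i.val + 1))
    have h4 := r.conj_H P' Q' h1' h2' false (2 * (i.val + 1))
    rw [Rz.conj_H, ← h4]
    exact h3

/-- the index point for `sp` -/
theorem SQ_indexC {l : ℕ} {r : Rz K (Fin l ⊕ Fin l) (idI K g)}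
    (hJ : r.IsJ (Matrix.fromBlocks 0 1 (-1) 0) (-1)) :
    ∃ x0 : g →ₗ[K] K, Module.finrank K (stab x0) ≤ l := by
  obtain ⟨a0, ha0⟩ := hJ.surj (A := Matrix.diagonal (FamCI_lam K l)) (by
    ext i j
    rw [Matrix.diagonal_transpose, Matrix.diagonal_mul, Matrix.neg_apply, Matrix.mul_diagonal]
    rcases i with i | i <;> rcases j with j | j
    · simp
    · simp only [Matrix.fromBlocks_apply₁₂, Matrix.one_apply, FamCI_lam, Sum.elim_inl,
        Sum.elim_inr]
      split_ifs with h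
      · rw [h]
        ring
      · ring
    · simp only [Matrix.fromBlocks_apply₂₁, Matrix.neg_apply, Matrix.one_apply, FamCI_lam,
        Sum.elim_inl, Sum.elim_inr]
      split_ifs with h
      · rw [h]
        ring
      · ring
    · simp)
  refine ⟨r.pnt (LinearEquiv.refl K g) (a0 + 0), r.finrank_stab_le isContraction_refl rfl
    (by rw [map_zero, neg_zero]) (lam := 0) (by rw [map_zero]; exact Matrix.diagonal_zero.symm)
    ha0 ?_ ?_ (LinearMap.funLeft K K (Sum.inl : Fin l → Fin l ⊕ Fin l)) ?_⟩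
  · intro x hx i j _ _
    have h1 : x = -x := hx
    have h2 : (2 : K) • x = 0 := by
      rw [two_smul]
      nth_rewrite 2 [h1]
      exact add_neg_cancel x
    have h3 : x = 0 := (smul_eq_zero.1 h2).resolve_left two_ne_zero
    rw [h3, map_zero]
    rfl
  · intro i j hij _ h
    exact hij (FamCI_lam_inj l h)
  · intro x d hd hf
    have h2 := hJ.skew x
    rw [hd] at h2
    have h3 : ∀ i : Fin l, d (Sum.inl i) = 0 := fun i => congrFun hf i
    funext i
    rcases i with i | i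
    · exact h3 i
    · have h4 := congrFun (congrFun h2 (Sum.inl i)) (Sum.inr i)
      rw [Matrix.diagonal_transpose, Matrix.diagonal_mul, Matrix.neg_apply, Matrix.mul_diagonal,
        h3 i, zero_mul, Matrix.fromBlocks_apply₁₂, Matrix.one_apply_eq, one_mul] at h4
      exact neg_eq_zero.1 h4.symm

/-- the family of `sp` -/
theorem squant_C [IsAlgClosed K] (hn1 : 1 ≤ Fintype.card n)
    {r : Rz K n (idI K g)} {J : Matrix n n K} (hJ : r.IsJ J (-1))
    {C : (g →ₗ[K] K) → Subalgebra K (Ue K g)}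
    (hC : ∀ ξ, ∀ a ∈ C ξ, ∀ b ∈ C ξ, a * b = b * a) (hQ : ∀ j, HasQ C j (ek j r.XM)) :
    SQuant K g := by
  have hJs : J.transpose = -J := by rw [hJ.symm, neg_one_smul]
  obtain ⟨l, ⟨pr⟩⟩ := exists_pairs hJs hJ.det
  have hl : Fintype.card n = 2 * l := by
    rw [← Fintype.card_congr pr, Fintype.card_prod, Fintype.card_fin, Fintype.card_fin, mul_comm]
  have hκ : (-1 : K) ^ (2 * l + 1) = -1 := by
    rw [pow_succ, pow_mul, neg_one_sq, one_pow, one_mul]
  -- the index point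
  obtain ⟨x0, hx0⟩ : ∃ x0 : g →ₗ[K] K, Module.finrank K (stab x0) ≤ l := by
    have hJJ' : (Matrix.fromBlocks 0 1 (-1) 0 : Matrix (Fin l ⊕ Fin l) (Fin l ⊕ Fin l) K) *
        Matrix.fromBlocks 0 1 (-1) 0 = -1 := by
      rw [Matrix.fromBlocks_multiply, ← Matrix.fromBlocks_one, Matrix.fromBlocks_neg]
      simp
    have hJt : (Matrix.fromBlocks 0 1 (-1) 0 :
        Matrix (Fin l ⊕ Fin l) (Fin l ⊕ Fin l) K).transpose =
          -Matrix.fromBlocks 0 1 (-1) 0 := by
      rw [Matrix.fromBlocks_transpose, Matrix.fromBlocks_neg]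
      simp
    have hdet : (Matrix.fromBlocks 0 1 (-1) 0 :
        Matrix (Fin l ⊕ Fin l) (Fin l ⊕ Fin l) K).det ≠ 0 := by
      intro h
      have h1 := congrArg Matrix.det hJJ'
      rw [Matrix.det_mul, h, zero_mul, Matrix.det_neg, Matrix.det_one, mul_one] at h1
      exact pow_ne_zero _ (neg_ne_zero.2 one_ne_zero) h1.symm
    obtain ⟨P, Q, h1, h2, h3⟩ := exists_equiv_skew (m := Fin l ⊕ Fin l) (n := n)
      (by rw [Fintype.card_sum, Fintype.card_fin, hl, two_mul]) hJs hJt hJ.det hdet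
    exact SQ_indexC (hJ.conj h1 h2 h3)
  -- the chain form
  obtain ⟨P, Q, h1, h2, h3⟩ := exists_equiv_skew (m := Fin (2 * l)) (n := n)
    (by rw [Fintype.card_fin, hl]) hJs (J' := Jalt K (2 * l))
    (by rw [Jalt_transpose, hκ, neg_one_smul]) hJ.det (Jalt_det_ne_zero _)
  have hJ1 := hJ.conj h1 h2 h3
  have ht : (r.conj P Q h1 h2).Tests (fun i : Fin l => 2 * (i.val + 1)) fun _ => 0 := by
    refine chain_tests (par := fun _ => false) (by rw [hκ]; exact hJ1)
      (SQ_isPar _ _ fun _ _ => rfl) (fun _ _ _ _ => ⟨fun _ => rfl, fun _ => rfl⟩) _ _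
      (fun i => even_two_mul _) (fun i => by omega) (fun i => ⟨0, ?_, ?_⟩)
    · have := i.isLt
      omega
    · rw [wt]
      simp
  refine (r.conj P Q h1 h2).squant_of (fun _ => false) (fun i : Fin l => 2 * (i.val + 1))
    ?_ ?_ ht x0 hx0 hC ?_
  · intro i j hij
    have : i.val < j.val := hij
    show 2 * (i.val + 1) < 2 * (j.val + 1)
    omega
  · intro i
    omega
  · intro i
    rw [Rz.conj_H]
    exact hQ (2 * (i.val + 1))


section reindex

theorem SQ_pfn_reindex {P : Type} [Fintype P] [DecidableEq P] {m : Type*} [Fintype m]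
    [DecidableEq m] {R : Type*} [CommRing R] (pr : P × Fin 2 ≃ m) (σ : m ≃ n)
    (A : Matrix m m R) : pfn (pr.trans σ) (A.submatrix σ.symm σ.symm) = pfn pr A := by
  rw [pfn, pfn, ← (σ.permCongr).sum_comp]
  refine Finset.sum_congr rfl fun τ _ => ?_
  rw [Equiv.Perm.sign_permCongr]
  congr 1
  refine Finset.prod_congr rfl fun p _ => ?_
  simp [Equiv.permCongr_apply]

/-- the matrix of the reindexing -/
def SQ_P (K : Type*) [Field K] {m n : Type*} [DecidableEq m] (σ : m ≃ n) : Matrix n m K :=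
  (1 : Matrix m m K).submatrix σ.symm id

/-- the matrix of the inverse of the reindexing -/
def SQ_Q (K : Type*) [Field K] {m n : Type*} [DecidableEq m] (σ : m ≃ n) : Matrix m n K :=
  (1 : Matrix m m K).submatrix id σ.symm

variable {m : Type*} [Fintype m] [DecidableEq m] (σ : m ≃ n)

theorem SQ_PQ : SQ_P K σ * SQ_Q K σ = 1 := by
  rw [SQ_P, SQ_Q, ← Matrix.submatrix_mul (1 : Matrix m m K) 1 σ.symm id σ.symm
    Function.bijective_id, Matrix.mul_one]
  exact Matrix.submatrix_one_equiv σ.symm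

theorem SQ_QP : SQ_Q K σ * SQ_P K σ = 1 := by
  rw [SQ_P, SQ_Q, ← Matrix.submatrix_mul (1 : Matrix m m K) 1 id σ.symm id
    σ.symm.bijective, Matrix.mul_one]
  exact Matrix.submatrix_one_equiv (Equiv.refl m)

theorem SQ_PtP : (SQ_P K σ).transpose = SQ_Q K σ := by
  rw [SQ_P, SQ_Q, Matrix.transpose_submatrix, Matrix.transpose_one]

theorem SQ_single (i j : n) : SQ_Q K σ * Matrix.single j i (1 : K) * SQ_P K σ =
    Matrix.single (σ.symm j) (σ.symm i) 1 := by
  ext a b
  rw [Matrix.mul_apply, Finset.sum_eq_single i]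
  · rw [Matrix.mul_single_apply_same, mul_one, Matrix.single_apply, SQ_Q, SQ_P,
      Matrix.submatrix_apply, Matrix.submatrix_apply, Matrix.one_apply, Matrix.one_apply]
    simp only [id_eq]
    by_cases h1 : a = σ.symm j <;> by_cases h2 : σ.symm i = b
    · rw [if_pos h1, if_pos h2, if_pos ⟨h1.symm, h2⟩, mul_one]
    · rw [if_pos h1, if_neg h2, if_neg fun h => h2 h.2, mul_zero]
    · rw [if_neg h1, if_pos h2, if_neg fun h => h1 h.1.symm, zero_mul]
    · rw [if_neg h1, if_neg h2, if_neg fun h => h2 h.2, mul_zero]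
  · intro c _ hc
    rw [Matrix.mul_single_apply_of_ne _ _ _ _ _ hc, zero_mul]
  · intro h
    exact absurd (Finset.mem_univ _) h

theorem SQ_XM {θ : Invol K g} (r : Rz K m θ) :
    (r.conj (SQ_P K σ) (SQ_Q K σ) (SQ_PQ σ) (SQ_QP σ)).XM = r.XM.submatrix σ.symm σ.symm := by
  ext1 i j
  show ιS K g (r.Y (SQ_Q K σ * Matrix.single j i 1 * SQ_P K σ)) = _
  rw [SQ_single]
  rfl

theorem SQ_one_mul {ι : Type*} [Fintype ι] [DecidableEq ι] (A : Matrix ι ι (Sy K g)) :
    (1 : Matrix ι ι K).map (algebraMap K (Sy K g)) * A = A := by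
  rw [Matrix.map_one _ (map_zero _) (map_one _), Matrix.one_mul]

theorem SQ_PF {θ : Invol K g} (r : Rz K m θ) {h : ℕ} (pr : Fin h × Fin 2 ≃ m) :
    (r.conj (SQ_P K σ) (SQ_Q K σ) (SQ_PQ σ) (SQ_QP σ)).PF (pr.trans σ) 1 = r.PF pr 1 := by
  rw [Rz.PF, Rz.PF, SQ_XM, SQ_one_mul, SQ_one_mul]
  exact SQ_pfn_reindex pr σ r.XM

theorem SQ_IsJ {θ : Invol K g} {r : Rz K m θ} (hJ : r.IsJ 1 1) :
    (r.conj (SQ_P K σ) (SQ_Q K σ) (SQ_PQ σ) (SQ_QP σ)).IsJ 1 1 :=
  hJ.conj _ _ (by rw [Matrix.mul_one, SQ_PtP, SQ_QP])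

end reindex

theorem SQ_pnt (r : Rz K n (idI K g)) (s t : K) (p q : g) :
    s • r.pnt (LinearEquiv.refl K g) p + t • r.pnt (LinearEquiv.refl K g) q =
      r.pnt (LinearEquiv.refl K g) (s • p + t • q) := by
  refine LinearMap.ext fun z => ?_
  show s • (r.ρ p * r.ρ z).trace + t • (r.ρ q * r.ρ z).trace =
    (r.ρ (s • p + t • q) * r.ρ z).trace
  rw [map_add, map_smul, map_smul, add_mul, smul_mul_assoc, smul_mul_assoc,
    Matrix.trace_add, Matrix.trace_smul, Matrix.trace_smul]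

theorem SQ_parD {l a : ℕ} (hl : 1 ≤ l) : parD l 0 a = false := by
  rw [parD]
  split_ifs with h1 h2
  · rfl
  · exact SQ_parB _ _
  · omega

/-- the data for `so` in even dimension -/
theorem SQ_dataD {l : ℕ} (hl : 1 ≤ l) {r : Rz K (Fin (2 * l)) (idI K g)}
    (hJ : r.IsJ (JD K l) 1) (pr : Fin l × Fin 2 ≃ Fin (2 * l)) {x0 : g →ₗ[K] K}
    (hx0 : Module.finrank K (stab x0) ≤ l) :
    ∃ p q : g →ₗ[K] K, Data (fun o : Option (Fin (l - 1)) => o.elim (r.PF pr (JD K l))
      fun i => r.H false (2 * (i.val + 1))) (fun o => o.elim l fun i => 2 * (i.val + 1)) p q x0 := by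
  obtain ⟨p0, hp0⟩ := hJ.surj (skew_NdnD l)
  obtain ⟨q0, hq0⟩ := hJ.surj (skew_NupD l)
  have hp : r.IsPar fun i => parD l 0 i.val :=
    SQ_isPar r _ fun i j => by rw [SQ_parD hl, SQ_parD hl]
  refine ⟨r.pnt (LinearEquiv.refl K g) p0, r.pnt (LinearEquiv.refl K g) q0, ?_, ?_, ?_, ?_, ?_⟩
  · rintro (_ | i)
    · exact hl
    · show 1 ≤ 2 * (i.val + 1)
      omega
  · rintro (_ | i)
    · exact r.PF_mem pr
    · exact r.H_mem false _
  · rintro (_ | i)
    · exact r.PF_centre pr hJ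
    · exact r.H_centre false _
  · intro s t hst
    rw [SQ_pnt]
    have htest : ∀ i : Fin (l - 1), ∃ a : g,
        (∀ j, j + 1 < 2 * (i.val + 1) → (r.M (s • p0 + t • q0) ^ j * r.M a).trace = 0) ∧
        ((r.M (s • p0 + t • q0) ^ (2 * (i.val + 1) - 1) * r.M a).trace).coeff 0 ≠ 0 ∧
        ∀ i : Fin (2 * l), i.val + 1 = 2 * l → ∀ j, r.ρ a i j = 0 ∧ r.ρ a j i = 0 := by
      intro i
      have hi := i.isLt
      have h := FamBE_tests (q := 0) hl (Nat.zero_le l) hJ hp hp0 hq0 hst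
        (m := 2 * (i.val + 1)) (even_two_mul _) (by omega) (by omega)
      rw [Nat.mul_zero, Nat.min_zero] at h
      exact h
    choose a ha1 ha2 ha3 using htest
    obtain ⟨aG, haG⟩ := FamBE_pf_test (e := LinearEquiv.refl K g) (q := 0) hl (Nat.zero_le l)
      hJ hp pr hp0 hq0 hst
    rw [SQ_lead] at haG
    have hz : ∀ i, dd (r.pnt (LinearEquiv.refl K g) (s • p0 + t • q0))
        (r.pnt (LinearEquiv.refl K g) (a i)) (r.PF pr (JD K l)) = 0 := by
      intro i
      have h := FamBE_pf_zero (e := LinearEquiv.refl K g) (a := s • p0 + t • q0) (a' := a i)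
        (q := 0) hl hJ hp pr (fun i hi j => by
          have hj := j.isLt
          have hi' := i.isLt
          have e1 : NdnD K l i j = 0 := if_neg (by omega)
          have e2 : NupD K l i j = 0 := if_neg (by omega)
          have e3 : NdnD K l j i = 0 := if_neg (by omega)
          have e4 : NupD K l j i = 0 := if_neg (by omega)
          rw [map_add, map_smul, map_smul, hp0, hq0, Matrix.add_apply, Matrix.add_apply,
            Matrix.smul_apply, Matrix.smul_apply, Matrix.smul_apply, Matrix.smul_apply, e1, e2,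
            e3, e4, smul_zero, smul_zero, add_zero]
          exact ⟨rfl, rfl⟩) (ha3 i) 0
      rw [SQ_lead] at h
      exact h
    have hlt : ∀ i j : Fin (l - 1), i < j → dd (r.pnt (LinearEquiv.refl K g) (s • p0 + t • q0))
        (r.pnt (LinearEquiv.refl K g) (a j)) (r.H false (2 * (i.val + 1))) = 0 := by
      intro i j hij
      have h := r.dd_gen_lt (LinearEquiv.refl K g) false (m := 2 * (i.val + 1)) 0 (ha1 j) (by
        have : i.val < j.val := hij
        omega)
      rw [gen_refl] at h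
      exact h
    have hne : ∀ i : Fin (l - 1), dd (r.pnt (LinearEquiv.refl K g) (s • p0 + t • q0))
        (r.pnt (LinearEquiv.refl K g) (a i)) (r.H false (2 * (i.val + 1))) ≠ 0 := by
      intro i
      obtain ⟨ρ, hρ, h⟩ := r.dd_gen_eq (LinearEquiv.refl K g) false (m := 2 * (i.val + 1))
        (by omega) 0
      have h1 := h _ _ (ha1 i)
      rw [gen_refl] at h1
      rw [h1]
      exact mul_ne_zero hρ (ha2 i)
    have hind := linInd_tri (K := K) (ι := Unit)
      (fun (i j : Fin (l - 1)) =>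
        dd (r.pnt (LinearEquiv.refl K g) (s • p0 + t • q0))
          (r.pnt (LinearEquiv.refl K g) (a j)) (r.H false (2 * (i.val + 1))))
      id hlt hne
    rw [Fintype.linearIndependent_iff] at hind ⊢
    intro c hc
    rw [Fintype.sum_option] at hc
    have hv : ∀ y : g →ₗ[K] K,
        c none * dd (r.pnt (LinearEquiv.refl K g) (s • p0 + t • q0)) y (r.PF pr (JD K l)) +
          ∑ i : Fin (l - 1), c (some i) * dd (r.pnt (LinearEquiv.refl K g) (s • p0 + t • q0)) y
            (r.H false (2 * (i.val + 1))) = 0 := by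
      intro y
      have h1 := congrFun hc y
      rw [Pi.add_apply, Finset.sum_apply] at h1
      exact h1
    have hcs : ∀ i, c (some i) = 0 := by
      refine hind (fun i => c (some i)) (funext fun j => ?_)
      have h1 := hv (r.pnt (LinearEquiv.refl K g) (a j))
      rw [hz j, mul_zero, zero_add] at h1
      rw [Finset.sum_apply]
      exact h1
    have hcn : c none = 0 := by
      have h1 := hv (r.pnt (LinearEquiv.refl K g) aG)
      rw [Finset.sum_eq_zero fun i _ => by rw [hcs i, zero_mul], add_zero] at h1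
      exact (mul_eq_zero.1 h1).resolve_right haG
    rintro (_ | i)
    · exact hcn
    · exact hcs i
  · rw [Fintype.card_option, Fintype.card_fin]
    omega

/-- the family of `so (2 l)` -/
theorem SQ_squant_D [IsAlgClosed K] {l : ℕ} (hl : 1 ≤ l)
    {r : Rz K (Fin (2 * l)) (idI K g)} {J : Matrix (Fin (2 * l)) (Fin (2 * l)) K} (hJ : r.IsJ J 1)
    (hyp : ∀ (r' : Rz K (Fin (2 * l)) (idI K g)), r'.IsJ 1 1 →
      ∃ C : (g →ₗ[K] K) → Subalgebra K (Ue K g),
      (∀ ξ, ∀ a ∈ C ξ, ∀ b ∈ C ξ, a * b = b * a) ∧ (∀ j, HasQ C j (ek j r'.XM)) ∧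
        ∀ (h : ℕ) (pr : Fin h × Fin 2 ≃ Fin (2 * l)), HasQ C h (r'.PF pr 1)) : SQuant K g := by
  obtain ⟨x0, hx0⟩ := SQ_index (l := l) (z := 0) (Nat.zero_le 1)
    (by rw [Fintype.card_fin, add_zero]) hJ
  obtain ⟨P, Q, h1, h2, hJ1, hP⟩ := SQ_symm (m := Fin (2 * l)) rfl hJ (J' := JD K l)
    (JD_transpose l) (JD_det_ne_zero l)
  obtain ⟨P', Q', h1', h2', hJ', hP'⟩ := SQ_symm (m := Fin (2 * l)) rfl hJ (J' := 1)
    Matrix.transpose_one (by rw [Matrix.det_one]; exact one_ne_zero)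
  obtain ⟨C, hC, hQ, hPF⟩ := hyp _ hJ'
  let pr : Fin l × Fin 2 ≃ Fin (2 * l) := Fintype.equivOfCardEq (by
    rw [Fintype.card_prod, Fintype.card_fin, Fintype.card_fin, Fintype.card_fin, mul_comm])
  obtain ⟨p, q, hD⟩ := SQ_dataD hl hJ1 pr hx0
  have hF1 : HasQ C l ((r.conj P Q h1 h2).PF pr (JD K l)) := by
    have e1 := r.conj_PF pr h1 h2 hP
    have e2 := r.conj_PF pr h1' h2' hP'
    have e3 : r.PF pr J = Q'.det⁻¹ • (r.conj P' Q' h1' h2').PF pr 1 := by
      have hdet : Q'.det ≠ 0 := by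
        intro h
        have h3 := congrArg Matrix.det h1'
        rw [Matrix.det_mul, h, mul_zero, Matrix.det_one] at h3
        exact zero_ne_one h3
      rw [e2, smul_smul, inv_mul_cancel₀ hdet, one_smul]
    rw [e1, e3]
    exact HasQ.smul _ (HasQ.smul _ (hPF l pr))
  have hF2 : ∀ i : Fin (l - 1), HasQ C (2 * (i.val + 1))
      ((r.conj P Q h1 h2).H false (2 * (i.val + 1))) := by
    intro i
    have h3 := hQ (2 * (i.val + 1))
    have h4 := r.conj_H P' Q' h1' h2' false (2 * (i.val + 1))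
    rw [Rz.conj_H, ← h4]
    exact h3
  let σ : Fin l ≃ Option (Fin (l - 1)) := Fintype.equivOfCardEq (by
    rw [Fintype.card_option, Fintype.card_fin, Fintype.card_fin]
    omega)
  refine ⟨r.lin_con isContraction_refl, l, _, _, p, q, x0, C, Swap_Data_reindex σ hD, hC,
    fun i => ?_⟩
  show HasQ C ((fun o : Option (Fin (l - 1)) => o.elim l fun i => 2 * (i.val + 1)) (σ i))
    ((fun o : Option (Fin (l - 1)) => o.elim ((r.conj P Q h1 h2).PF pr (JD K l))
      fun i => (r.conj P Q h1 h2).H false (2 * (i.val + 1))) (σ i))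
  rcases σ i with _ | i
  · exact hF1
  · exact hF2 i

/-- the family of `so` in even dimension -/
theorem squant_D [IsAlgClosed K] (hn : Even (Fintype.card n)) (hn3 : 3 ≤ Fintype.card n)
    {r : Rz K n (idI K g)} {J : Matrix n n K} (hJ : r.IsJ J 1)
    (hyp : ∀ (r' : Rz K n (idI K g)), r'.IsJ 1 1 → ∃ C : (g →ₗ[K] K) → Subalgebra K (Ue K g),
      (∀ ξ, ∀ a ∈ C ξ, ∀ b ∈ C ξ, a * b = b * a) ∧ (∀ j, HasQ C j (ek j r'.XM)) ∧
        ∀ (h : ℕ) (pr : Fin h × Fin 2 ≃ n), HasQ C h (r'.PF pr 1)) : SQuant K g := by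
  obtain ⟨l, hl⟩ := hn
  obtain ⟨P, Q, h1, h2, hJ1, -⟩ := SQ_symm (m := Fin (2 * l))
    (by rw [Fintype.card_fin, hl, two_mul]) hJ (J' := 1)
    Matrix.transpose_one (by rw [Matrix.det_one]; exact one_ne_zero)
  let σ : Fin (2 * l) ≃ n := Fintype.equivOfCardEq (by rw [Fintype.card_fin, hl, two_mul])
  refine SQ_squant_D (by omega) hJ1 fun r' hJ' => ?_
  obtain ⟨C, hC, hQ, hPF⟩ := hyp _ (SQ_IsJ σ hJ')
  refine ⟨C, hC, fun j => ?_, fun h pr => ?_⟩
  · have h3 := r'.conj_H (SQ_P K σ) (SQ_Q K σ) (SQ_PQ σ) (SQ_QP σ) false j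
    have h4 := hQ j
    have h5 : ek j (r'.conj (SQ_P K σ) (SQ_Q K σ) (SQ_PQ σ) (SQ_QP σ)).XM = ek j r'.XM := h3
    rw [h5] at h4
    exact h4
  · have h3 := hPF h (pr.trans σ)
    rw [SQ_PF] at h3
    exact h3

end Pool.Agent.helper49.QA
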