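import Mathlib
import Pool.Agent.helper49.QA.Classical
import Pool.Agent.helper49.QA.RzMk
import Pool.Agent.helper49.QA.Norm
import Pool.Agent.helper49.QA.ConAlg
import Pool.Agent.helper49.QA.FamCI
import Pool.Agent.helper49.QA.FamCII
import Pool.Agent.helper49.QA.FamBE
import Pool.Agent.helper49.QA.FamD
import Pool.Agent.helper49.QA.BDout
import Pool.Agent.helper49.QA.SQ
import Pool.Agent.helper49.QA.Machine
import Pool.Agent.helper90.QTA.Final
import Pool.Agent.helper61.QC.Main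

/-!
# The assembly: all the symmetric pairs of classical type
-/

set_option autoImplicit false

namespace Pool.Agent.helper49.QA

open Pool.Agent.helper5.AS
open Pool.Agent.helper5.ASQ (Invol even oddc brk IsContraction)
open Pool.Agent.helper49.QAS
open Matrix

attribute [local instance 100] LieRing.ofAssociativeRing

variable {K : Type*} [Field K] [CharZero K]

section factor

variable {g : Type*} [LieRing g] [LieAlgebra K g] {θ : Invol K g}
  {k : Type*} [LieRing k] [LieAlgebra K k] {e : g ≃ₗ[K] k}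

/-- an isomorphism with a Lie algebra of matrices -/
theorem exists_equiv {n : ℕ} {H : LieSubalgebra K (Matrix (Fin n) (Fin n) K)}
    {P : Set (Matrix (Fin n) (Fin n) K)} (hH : ∀ a, a ∈ H ↔ a ∈ P)
    {ρ : g →ₗ[K] Matrix (Fin n) (Fin n) K} (h : IsIsoOnto ρ P) :
    ∃ φ : g ≃ₗ⁅K⁆ H, ∀ x, (φ x).val = ρ x := by
  obtain ⟨h1, h2, h3⟩ := h
  have hmem : ∀ x, ρ x ∈ H := fun x => (hH _).2 (by rw [← h3]; exact ⟨x, rfl⟩)
  let φ0 : g →ₗ[K] H := ρ.codRestrict H.toSubmodule hmem
  have hinj : Function.Injective φ0 := fun x y hxy => h2 (congrArg Subtype.val hxy)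
  have hsurj : Function.Surjective φ0 := by
    intro a
    have h4 : (a : Matrix (Fin n) (Fin n) K) ∈ Set.range ρ := by
      rw [h3]
      exact (hH _).1 a.2
    obtain ⟨x, hx⟩ := h4
    exact ⟨x, Subtype.ext hx⟩
  refine ⟨{ LinearEquiv.ofBijective φ0 ⟨hinj, hsurj⟩ with
    map_lie' := fun {x y} => Subtype.ext ?_ }, fun x => rfl⟩
  show ρ ⁅x, y⁆ = ρ x * ρ y - ρ y * ρ x
  exact h1 x y

theorem mem_sl {n : ℕ} (a : Matrix (Fin n) (Fin n) K) :
    a ∈ LieAlgebra.SpecialLinear.sl (Fin n) K ↔ a ∈ slSet K n := by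
  show a ∈ LinearMap.ker (Matrix.traceLinearMap (Fin n) K K) ↔ a.trace = 0
  rw [LinearMap.mem_ker, Matrix.traceLinearMap_apply]

theorem mem_skew {n : ℕ} (J a : Matrix (Fin n) (Fin n) K) :
    a ∈ skewAdjointMatricesLieSubalgebra J ↔ a ∈ skewSet J := by
  rw [mem_skewAdjointMatricesLieSubalgebra, mem_skewAdjointMatricesSubmodule]
  show a.transpose * J = J * (-a) ↔ a.transpose * J + J * a = 0
  rw [Matrix.mul_neg, eq_neg_iff_add_eq_zero]

theorem quant_sl [IsAlgClosed K] (hθ : IsSl θ) (he : IsContraction θ e) : Quant K k := by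
  obtain ⟨n, ρ, A, B, ⟨h1, h2, h3⟩, hAB, h⟩ := hθ
  have h4 : ∀ x, (ρ x).trace = 0 := fun x => by
    have h5 : ρ x ∈ slSet K n := by
      rw [← h3]
      exact ⟨x, rfl⟩
    exact h5
  have h5 : ∀ a : Matrix (Fin n) (Fin n) K, a.trace = 0 → ∃ x, ρ x = a := fun a ha => by
    have h6 : a ∈ Set.range ρ := by
      rw [h3]
      exact ha
    exact h6
  refine Pool.Agent.helper90.QTA.quant_A ρ h1 h2 h4 h5 he ?_
  rcases h with h | h
  · exact Or.inl ⟨A, B, hAB, h⟩
  · exact Or.inr ⟨B, A, mul_eq_one_comm.1 hAB, h⟩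

theorem isForm_spec {n : ℕ} {J : Matrix (Fin n) (Fin n) K} (h : IsForm J) :
    ∃ κ : K, (κ = 1 ∨ κ = -1) ∧ J.transpose = κ • J ∧ J.det ≠ 0 ∧ (κ = 1 → 3 ≤ n) ∧ 2 ≤ n := by
  obtain ⟨hu, h⟩ := h
  have hdet : J.det ≠ 0 := ((Matrix.isUnit_iff_isUnit_det J).1 hu).ne_zero
  rcases h with ⟨h1, h2⟩ | ⟨h1, h2⟩
  · exact ⟨1, Or.inl rfl, by rw [h1, one_smul], hdet, fun _ => h2, by omega⟩
  · refine ⟨-1, Or.inr rfl, by rw [h1, neg_one_smul], hdet, fun hc => ?_, h2⟩
    exact absurd hc (by norm_num)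

theorem trace_conj_inv {n : Type*} [Fintype n] [DecidableEq n] {A B : Matrix n n K}
    (hAB : A * B = 1) (x y : Matrix n n K) :
    (A * x * B * (A * y * B)).trace = (x * y).trace := by
  have hBA : B * A = 1 := mul_eq_one_comm.1 hAB
  calc (A * x * B * (A * y * B)).trace = (A * (x * (B * A) * y * B)).trace := by
        simp only [Matrix.mul_assoc]
    _ = (x * y * (B * A)).trace := by
        rw [hBA, Matrix.mul_one, Matrix.trace_mul_comm, Matrix.mul_assoc, hBA, Matrix.mul_one]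
    _ = _ := by rw [hBA, Matrix.mul_one]

/-- the projection to the Lie algebra changes the sign under the transposition of the form -/
theorem Rz.IsJ.Y_transp {n : Type*} [Fintype n] [DecidableEq n] {r : Rz K n θ}
    {J : Matrix n n K} {κ : K} (hJ : r.IsJ J κ) (a : Matrix n n K) :
    r.Y (J⁻¹ * a.transpose * J) = -r.Y a := by
  have hu : IsUnit J.det := isUnit_iff_ne_zero.2 hJ.det
  have hκ : κ * κ = 1 := by
    rcases hJ.sign with h | h <;> rw [h] <;> norm_num
  apply r.inj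
  have h1 : (J⁻¹).transpose = κ • J⁻¹ := by
    rw [Matrix.transpose_nonsing_inv, hJ.symm]
    refine Matrix.inv_eq_left_inv ?_
    rw [Matrix.smul_mul, Matrix.mul_smul, smul_smul, hκ, one_smul, Matrix.nonsing_inv_mul _ hu]
  have h2 : J⁻¹ * (J⁻¹ * a.transpose * J).transpose * J = a := by
    rw [Matrix.transpose_mul, Matrix.transpose_mul, Matrix.transpose_transpose, h1, hJ.symm]
    simp only [Matrix.smul_mul, Matrix.mul_smul, smul_smul]
    rw [hκ, one_smul, Matrix.nonsing_inv_mul_cancel_left _ _ hu, Matrix.mul_assoc,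
      Matrix.nonsing_inv_mul _ hu, Matrix.mul_one]
  rw [map_neg, hJ.proj, hJ.proj, h2, ← smul_neg, neg_sub]

/-- the commuting elements of type C -/
theorem hyp_C {n : Type*} [Fintype n] [DecidableEq n] {r : Rz K n θ} {J : Matrix n n K}
    (hJ : r.IsJ J (-1)) (ξ : g →ₗ[K] K) (a m b l : ℕ) :
    Commute ((Pool.Agent.helper90.MF.Dk a (Pool.Agent.helper90.MF.xUt K r.Y ξ)).coeff m)
      ((Pool.Agent.helper90.MF.Dk b (Pool.Agent.helper90.MF.xUt K r.Y ξ)).coeff l) := by
  refine Pool.Agent.helper61.QC.TC (by rw [hJ.symm, neg_one_smul])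
    (isUnit_iff_ne_zero.2 hJ.det) r.Y hJ.Y_transp ?_ ξ a m b l
  intro x y hx _
  rw [r.equi, hJ.proj, hx, sub_neg_eq_add, ← two_smul K x, smul_smul,
    inv_mul_cancel₀ two_ne_zero, one_smul]

/-- the algebra generated by the symmetrised minors is commutative for type C -/
theorem CA_comm_C {n : Type*} [Fintype n] [DecidableEq n] {r : Rz K n θ} {J : Matrix n n K}
    (hJ : r.IsJ J (-1)) (ξ : g →ₗ[K] K) :
    ∀ a ∈ Pool.Agent.helper90.QTA.CA r ξ, ∀ b ∈ Pool.Agent.helper90.QTA.CA r ξ,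
      a * b = b * a := by
  intro a ha b hb
  have h1 : ∀ x ∈ {u | ∃ k m, u = (Pool.Agent.helper90.MF.Dk k
        (Pool.Agent.helper90.MF.xUt K r.Y ξ)).coeff m},
      ∀ y ∈ {u | ∃ k m, u = (Pool.Agent.helper90.MF.Dk k
        (Pool.Agent.helper90.MF.xUt K r.Y ξ)).coeff m}, x * y = y * x := by
    rintro _ ⟨k, m, rfl⟩ _ ⟨k', m', rfl⟩
    exact hyp_C hJ ξ k m k' m'
  have h2 := Algebra.isMulCommutative_adjoin K h1
  exact congrArg Subtype.val (h2.is_comm.comm (⟨a, ha⟩ : Algebra.adjoin K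
    {u | ∃ k m, u = (Pool.Agent.helper90.MF.Dk k
      (Pool.Agent.helper90.MF.xUt K r.Y ξ)).coeff m}) ⟨b, hb⟩)

theorem hasQ_C {n : Type*} [Fintype n] [DecidableEq n] (r : Rz K n θ) (j : ℕ) :
    HasQ (Pool.Agent.helper90.QTA.CA r) j (ek j r.XM) :=
  Pool.Agent.helper90.QTA.hasQ_ek K r.Y (Pool.Agent.helper90.QTA.CA r)
    (fun ξ k m => Pool.Agent.helper90.QTA.CA_mem r ξ k m) j

/-- the form is nondegenerate on the Lie algebra -/
theorem Rz.eq_zero_of_trace {n : Type*} [Fintype n] [DecidableEq n] (r : Rz K n θ) {z : g}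
    (h : ∀ y, (r.ρ z * r.ρ y).trace = 0) : z = 0 := by
  apply r.inj
  rw [map_zero]
  ext i j
  have h1 := r.pair z (Matrix.single j i 1)
  rw [h, Matrix.trace_mul_single] at h1
  simpa using h1.symm

/-- the projection is compatible with the involution -/
theorem Rz.IsPar.Y_single {n : Type*} [Fintype n] [DecidableEq n] {r : Rz K n θ}
    {par : n → Bool} (hp : r.IsPar par) (i j : n) :
    θ.hom (r.Y (Matrix.single i j 1)) =
      if par i = par j then r.Y (Matrix.single i j 1) else -r.Y (Matrix.single i j 1) := by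
  have key : ∀ y : g, (r.ρ (θ.hom (r.Y (Matrix.single i j 1))) * r.ρ y).trace =
      (-1 : K) ^ Pool.Agent.helper90.MF.od par j i *
        (r.ρ (r.Y (Matrix.single i j 1)) * r.ρ y).trace := by
    intro y
    have h1 := r.inv (r.Y (Matrix.single i j 1)) (θ.hom y)
    rw [θ.hom_hom] at h1
    have h2 := r.pair (θ.hom y) (Matrix.single i j 1)
    have h3 := r.pair y (Matrix.single i j 1)
    rw [Matrix.trace_mul_single] at h2 h3
    rw [h1, Matrix.trace_mul_comm, h2, Matrix.trace_mul_comm (r.ρ (r.Y _)), h3, hp y j i]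
    simp
  have hz : ∀ c : K, (-1 : K) ^ Pool.Agent.helper90.MF.od par j i = c →
      θ.hom (r.Y (Matrix.single i j 1)) = c • r.Y (Matrix.single i j 1) := by
    intro c hc
    have h4 : θ.hom (r.Y (Matrix.single i j 1)) - c • r.Y (Matrix.single i j 1) = 0 := by
      refine r.eq_zero_of_trace fun y => ?_
      rw [map_sub, map_smul, sub_mul, Matrix.trace_sub, key, Matrix.smul_mul, Matrix.trace_smul,
        hc, smul_eq_mul, sub_self]
    exact sub_eq_zero.1 h4
  split_ifs with h5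
  · have h6 := hz 1 (by
      rw [Pool.Agent.helper90.MF.od, if_pos h5.symm, pow_zero])
    rw [h6, one_smul]
  · have h6 := hz (-1) (by
      rw [Pool.Agent.helper90.MF.od, if_neg (fun h7 => h5 h7.symm), pow_one])
    rw [h6, neg_one_smul]

theorem limQ_C {n : Type*} [Fintype n] [DecidableEq n] (e : g ≃ₗ[K] k) (r : Rz K n θ)
    {par : n → Bool} (hp : r.IsPar par) (j : ℕ) :
    LimQ θ e (Pool.Agent.helper90.QTA.CA r) j (2 * qn par) (ek j r.XM) :=
  Pool.Agent.helper90.QTA.limQ_ek θ e r.Y par hp.Y_single (Pool.Agent.helper90.QTA.CA r)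
    (fun ξ k m => Pool.Agent.helper90.QTA.CA_mem r ξ k m) j (2 * qn par) le_rfl

theorem quant_osp [IsAlgClosed K] (hθ : IsOSp θ) (he : IsContraction θ e) : Quant K k := by
  obtain ⟨n, J, ρ, A, B, hF, hiso, hAB, h⟩ := hθ
  obtain ⟨κ, hκ, hJ, hdet, hn3, hn2⟩ := isForm_spec hF
  obtain ⟨φ, hφ⟩ := exists_equiv (mem_skew J) hiso
  have hφθ : ∀ x, (φ (θ.hom x)).val = A * (φ x).val * B := fun x => by rw [hφ, hφ, h]
  obtain ⟨r, hr, hρ⟩ := exists_rz_skew θ hκ hJ hdet φ fun x y => by
    rw [hφθ, hφθ]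
    exact trace_conj_inv hAB _ _
  obtain ⟨S, hS, hSJ, hSS⟩ := exists_normal hr (fun hk => by rw [Fintype.card_fin]; exact hn3 hk)
    hAB fun x => by rw [hρ, hρ, hφθ]
  have hcard : Fintype.card (Fin n) = n := Fintype.card_fin n
  rcases hκ with rfl | rfl
  · have hn3' := hn3 rfl
    rcases hSS with hSS | hSS
    · rcases Nat.even_or_odd n with hev | hod
      · refine quant_BE (by rwa [hcard]) (by rw [hcard]; omega) hr hS hSS hSJ he ?_
        intro h' r' par pr hh hJ' hp hq l m _ hm ξ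
        rw [hcard] at hh
        exact hyp_BE he (by omega) r' par pr hJ' hp hq m hm ξ
      · refine quant_BO (by rwa [hcard]) hr hS hSS hSJ he ?_
        intro N r' par hN hJ' hp _ l m _ hm ξ
        rw [hcard] at hN
        exact hyp_BO he (by omega) r' par hJ' hp m hm ξ
    · refine quant_D3 (by rw [hcard]; omega) hr hS hSS hSJ he ?_
      intro h' r' pr hh hJ'
      rw [hcard] at hh
      obtain ⟨C, h1, h2, h3⟩ := hyp_D3 (by rw [Fintype.card_fin]; omega) r' hJ'
      exact ⟨C, h1, h2, h3 h' pr⟩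
  · rcases hSS with hSS | hSS
    · refine quant_CII hr hS hSS hSJ he ?_
      intro N r' par hJ' hp
      exact ⟨Pool.Agent.helper90.QTA.CA r', CA_comm_C hJ', hasQ_C r', limQ_C e r' hp⟩
    · exact quant_CI hr hS hSS hSJ he (CA_comm_C hr) (hasQ_C r)

end factor

section squant

variable {h : Type*} [LieRing h] [LieAlgebra K h]

theorem squant_sl (n : ℕ) : SQuant K (LieAlgebra.SpecialLinear.sl (Fin n) K) :=
  Pool.Agent.helper90.QTA.squant_A
    (LieAlgebra.SpecialLinear.sl (Fin n) K).toSubmodule.subtype (fun x y => rfl)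
    Subtype.val_injective (fun x => (mem_sl _).1 x.2) fun a ha => ⟨⟨a, (mem_sl a).2 ha⟩, rfl⟩

theorem squant_form [IsAlgClosed K] {n : ℕ} {J : Matrix (Fin n) (Fin n) K} (hF : IsForm J)
    (φ : h ≃ₗ⁅K⁆ skewAdjointMatricesLieSubalgebra J) : SQuant K h := by
  obtain ⟨κ, hκ, hJ, hdet, hn3, hn2⟩ := isForm_spec hF
  obtain ⟨r, hr, hρ⟩ := exists_rz_skew (idI K h) hκ hJ hdet φ fun x y => rfl
  have hcard : Fintype.card (Fin n) = n := Fintype.card_fin n
  rcases hκ with rfl | rfl
  · have hn3' := hn3 rfl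
    rcases Nat.even_or_odd n with hev | hod
    · refine squant_D (by rwa [hcard]) (by rw [hcard]; omega) hr fun r' hJ' => ?_
      exact hyp_D3 (by rw [Fintype.card_fin]; omega) r' hJ'
    · refine squant_B (by rwa [hcard]) (by rw [hcard]; omega) hr fun r' hJ' => ?_
      exact hyp_D3 (by rw [Fintype.card_fin]; omega) r' hJ'
  · exact squant_C (by rw [hcard]; omega) hr (CA_comm_C hr) (hasQ_C r)

end squant

section swap

variable {g : Type*} [LieRing g] [LieAlgebra K g] {θ : Invol K g}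
  {k : Type*} [LieRing k] [LieAlgebra K k] {e : g ≃ₗ[K] k}

theorem exists_swap {n : ℕ} {H : LieSubalgebra K (Matrix (Fin n) (Fin n) K)}
    {P : Set (Matrix (Fin n) (Fin n) K)} (hH : ∀ a, a ∈ H ↔ a ∈ P)
    {ρ : g →ₗ[K] Matrix (Fin n) (Fin n) K} (hr : IsRep ρ)
    (h : Set.BijOn (fun x => (ρ x, ρ (θ.hom x))) Set.univ (P ×ˢ P)) :
    ∃ φ : g ≃ₗ[K] H × H, IsBr (φ : g →ₗ[K] H × H) ∧
      ∀ x, φ (θ.hom x) = ((φ x).2, (φ x).1) := by
  obtain ⟨h1, h2, h3⟩ := h
  have hm1 : ∀ x, ρ x ∈ H := fun x => (hH _).2 (h1 (Set.mem_univ x)).1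
  have hm2 : ∀ x, ρ (θ.hom x) ∈ H := fun x => (hH _).2 (h1 (Set.mem_univ x)).2
  let φ1 : g →ₗ[K] H := ρ.codRestrict H.toSubmodule hm1
  let φ2 : g →ₗ[K] H := φ1 ∘ₗ (θ.hom : g →ₗ[K] g)
  let φ0 : g →ₗ[K] H × H := φ1.prod φ2
  have hinj : Function.Injective φ0 := by
    intro x y hxy
    have h4 : ρ x = ρ y := congrArg (fun z : H × H => z.1.val) hxy
    have h5 : ρ (θ.hom x) = ρ (θ.hom y) := congrArg (fun z : H × H => z.2.val) hxy
    exact h2 (Set.mem_univ x) (Set.mem_univ y) (Prod.ext h4 h5)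
  have hsurj : Function.Surjective φ0 := by
    rintro ⟨a, b⟩
    obtain ⟨x, _, hx⟩ := h3 (show ((a : Matrix (Fin n) (Fin n) K),
      (b : Matrix (Fin n) (Fin n) K)) ∈ P ×ˢ P from ⟨(hH _).1 a.2, (hH _).1 b.2⟩)
    refine ⟨x, Prod.ext (Subtype.ext ?_) (Subtype.ext ?_)⟩
    · exact congrArg Prod.fst hx
    · exact congrArg Prod.snd hx
  refine ⟨LinearEquiv.ofBijective φ0 ⟨hinj, hsurj⟩, ?_, ?_⟩
  · intro x y
    refine Prod.ext (Subtype.ext ?_) (Subtype.ext ?_)
    · exact hr x y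
    · show ρ (θ.hom ⁅x, y⁆) = ρ (θ.hom x) * ρ (θ.hom y) - ρ (θ.hom y) * ρ (θ.hom x)
      rw [LieHom.map_lie, hr]
  · intro x
    refine Prod.ext (Subtype.ext rfl) (Subtype.ext ?_)
    show ρ (θ.hom (θ.hom x)) = ρ x
    rw [θ.hom_hom]

theorem quant_isSwap [IsAlgClosed K] (hθ : IsSwap θ) (he : IsContraction θ e) : Quant K k := by
  obtain ⟨n, P, ρ, hP, hr, hb⟩ := hθ
  rcases hP with rfl | ⟨J, hF, rfl⟩
  · obtain ⟨φ, h1, h2⟩ := exists_swap mem_sl hr hb
    exact quant_swap (squant_sl n) φ h1 h2 he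
  · obtain ⟨φ, h1, h2⟩ := exists_swap (mem_skew J) hr hb
    exact quant_swap (squant_form hF (LieEquiv.refl)) φ h1 h2 he

theorem quant_factor [IsAlgClosed K] (hθ : IsFactor θ) (he : IsContraction θ e) : Quant K k := by
  rcases hθ with h | h | h
  · exact quant_sl h he
  · exact quant_osp h he
  · exact quant_isSwap h he

end swap

section final

attribute [local instance] instAddCommGroupCon instModuleCon instLieRingCon instLieAlgebraCon

variable {g : Type*} [LieRing g] [LieAlgebra K g] {θ : Invol K g}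

section restr

variable {I : LieIdeal K g} {θ' : Invol K I}
  (hr : ∀ x : I, ((θ'.hom x : I) : g) = θ.hom (x : g))

include hr

theorem restr_even (x : I) : ((even θ' x : I) : g) = even θ (x : g) := by
  have h1 : ((even θ' x : I) : g) = (2 : K)⁻¹ • ((x : g) + ((θ'.hom x : I) : g)) := rfl
  rw [h1, hr]
  rfl

theorem restr_oddc (x : I) : ((oddc θ' x : I) : g) = oddc θ (x : g) := by
  have h1 : ((oddc θ' x : I) : g) = (2 : K)⁻¹ • ((x : g) - ((θ'.hom x : I) : g)) := rfl
  rw [h1, hr]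
  rfl

theorem restr_brk (x y : I) : ((brk θ' x y : I) : g) = brk θ (x : g) (y : g) := by
  have h1 : ((brk θ' x y : I) : g) =
      ⁅((even θ' x : I) : g), ((even θ' y : I) : g)⁆ +
        ⁅((even θ' x : I) : g), ((oddc θ' y : I) : g)⁆ +
          ⁅((oddc θ' x : I) : g), ((even θ' y : I) : g)⁆ := rfl
  rw [h1, restr_even hr, restr_even hr, restr_oddc hr, restr_oddc hr]
  rfl

theorem restr_mem {x : g} (hx : x ∈ I) : θ.hom x ∈ I := by
  have h1 := hr ⟨x, hx⟩
  rw [← h1]
  exact Subtype.mem _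

end restr

/-- different summands commute -/
theorem lie_zero_of_internal {m : ℕ} {I : Fin m → LieIdeal K g}
    (hI : DirectSum.IsInternal (fun i => (I i).toSubmodule)) {i l : Fin m} (hil : i ≠ l) {x y : g}
    (hx : x ∈ I i) (hy : y ∈ I l) : ⁅x, y⁆ = 0 := by
  have h1 : ⁅x, y⁆ ∈ I i := by
    rw [← lie_skew]
    exact neg_mem (lie_mem_right K g (I i) y x hx)
  have h2 : ⁅x, y⁆ ∈ I l := lie_mem_right K g (I l) x y hy
  have h3 := hI.submodule_iSupIndep.pairwiseDisjoint hil
  exact (Submodule.disjoint_def.1 h3) _ h1 h2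

theorem brk_zero_of_internal {m : ℕ} {I : Fin m → LieIdeal K g}
    (hI : DirectSum.IsInternal (fun i => (I i).toSubmodule))
    (hst : ∀ i, ∀ x ∈ I i, θ.hom x ∈ I i) {i l : Fin m} (hil : i ≠ l) {x y : g}
    (hx : x ∈ I i) (hy : y ∈ I l) : brk θ x y = 0 := by
  have he : ∀ (i : Fin m) (x : g), x ∈ I i → even θ x ∈ I i := fun i x hx =>
    Submodule.smul_mem (I i).toSubmodule _ (add_mem hx (hst i x hx))
  have ho : ∀ (i : Fin m) (x : g), x ∈ I i → oddc θ x ∈ I i := fun i x hx =>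
    Submodule.smul_mem (I i).toSubmodule _ (sub_mem hx (hst i x hx))
  rw [brk, lie_zero_of_internal hI hil (he i x hx) (he l y hy),
    lie_zero_of_internal hI hil (he i x hx) (ho l y hy),
    lie_zero_of_internal hI hil (ho i x hx) (he l y hy), add_zero, add_zero]

/-- THE MAIN THEOREM: all the symmetric pairs of classical type -/
theorem quant_classical [IsAlgClosed K] (hθ : IsClassical θ) {k : Type*} [LieRing k]
    [LieAlgebra K k] {e : g ≃ₗ[K] k} (he : IsContraction θ e) : Quant K k := by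
  obtain ⟨m, I, hI, hf⟩ := hθ
  choose θ' hr hfac using hf
  have hst : ∀ i, ∀ x ∈ I i, θ.hom x ∈ I i := fun i x hx => restr_mem (hr i) hx
  let Φ : (DirectSum (Fin m) fun i => (I i).toSubmodule) ≃ₗ[K] g :=
    LinearEquiv.ofBijective (DirectSum.coeLinearMap fun i => (I i).toSubmodule) hI
  let L : Fin m → Type _ := fun i => Con (θ' i)
  let j : ∀ i, L i →ₗ[K] k := fun i =>
    (e : g →ₗ[K] k) ∘ₗ (I i).toSubmodule.subtype ∘ₗ
      ((conE (θ' i)).symm : L i →ₗ[K] (I i))
  let π : ∀ i, k →ₗ[K] L i := fun i =>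
    ((conE (θ' i)) : (I i) →ₗ[K] L i) ∘ₗ
      DirectSum.component K (Fin m) (fun i => (I i).toSubmodule) i ∘ₗ
        (Φ.symm : g →ₗ[K] _) ∘ₗ (e.symm : k →ₗ[K] g)
  have hjdef : ∀ i (x : I i), j i (conE (θ' i) x) = e (x : g) := fun i x => rfl
  have hj : ∀ i, IsBr (j i) := by
    intro i x y
    show e ((brk (θ' i) ((conE (θ' i)).symm x) ((conE (θ' i)).symm y) : I i) : g) = _
    rw [restr_brk (hr i), ← he]
    rfl
  have hcomp : ∀ i l (x : I l), DirectSum.component K (Fin m) (fun i => (I i).toSubmodule) i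
      (Φ.symm (x : g)) = if h : l = i then h ▸ x else 0 := by
    intro i l x
    have h1 : Φ (DirectSum.lof K (Fin m) (fun i => (I i).toSubmodule) l x) = (x : g) :=
      DirectSum.coeLinearMap_lof (fun i => (I i).toSubmodule) l x
    rw [← h1, LinearEquiv.symm_apply_apply]
    split_ifs with h
    · subst h
      exact DirectSum.component.lof_self (M := fun i => (I i).toSubmodule) K l x
    · exact (DirectSum.component.of (M := fun i => (I i).toSubmodule) K i l x).trans
        (dif_neg h)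
  have h1 : ∀ i x, π i (j i x) = x := by
    intro i x
    show conE (θ' i) (DirectSum.component K (Fin m)
      (fun i => (I i).toSubmodule) i
      (Φ.symm (e.symm (e (((conE (θ' i)).symm x : I i) : g))))) = x
    rw [LinearEquiv.symm_apply_apply, hcomp, dif_pos rfl]
    rfl
  have h0 : ∀ i l, i ≠ l → ∀ x, π i (j l x) = 0 := by
    intro i l hil x
    show conE (θ' i) (DirectSum.component K (Fin m)
      (fun i => (I i).toSubmodule) i
      (Φ.symm (e.symm (e (((conE (θ' l)).symm x : I l) : g))))) = 0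
    rw [LinearEquiv.symm_apply_apply, hcomp, dif_neg (Ne.symm hil), map_zero]
  have hs : ∀ x, ∑ i, j i (π i x) = x := by
    intro x
    have h2 : ∀ i, j i (π i x) = e ((DirectSum.component K (Fin m)
        (fun i => (I i).toSubmodule) i (Φ.symm (e.symm x)) : (I i).toSubmodule) : g) :=
      fun i => rfl
    rw [Finset.sum_congr rfl fun i _ => h2 i, ← map_sum]
    have h3 : Φ (Φ.symm (e.symm x)) = e.symm x := LinearEquiv.apply_symm_apply _ _
    have h4 : ∀ z : DirectSum (Fin m) fun i => (I i).toSubmodule,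
        ∑ i, ((DirectSum.component K (Fin m) (fun i => (I i).toSubmodule) i z :
          (I i).toSubmodule) : g) = Φ z := by
      intro z
      conv_rhs => rw [← DirectSum.sum_univ_of z]
      rw [map_sum]
      refine Finset.sum_congr rfl fun i _ => ?_
      exact (DirectSum.coeLinearMap_of (fun i => (I i).toSubmodule) i (z i)).symm
    rw [h4, h3, LinearEquiv.apply_symm_apply]
  have hcross : ∀ i l, i ≠ l → ∀ x y, ⁅j i x, j l y⁆ = 0 := by
    intro i l hil x y
    have h2 : ⁅j i x, j l y⁆ = e (brk θ (((conE (θ' i)).symm x : I i) : g)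
        (((conE (θ' l)).symm y : I l) : g)) := he _ _
    rw [h2, brk_zero_of_internal hI hst hil (Subtype.mem _) (Subtype.mem _), map_zero]
  have hπ : ∀ i, IsBr (π i) := by
    intro r x y
    have h2 : ⁅x, y⁆ = ∑ i, j i ⁅π i x, π i y⁆ := by
      conv_lhs => rw [← hs x, ← hs y]
      rw [sum_lie]
      refine Finset.sum_congr rfl fun i _ => ?_
      rw [lie_sum, Finset.sum_eq_single i]
      · rw [hj]
      · intro l _ hl
        exact hcross i l (Ne.symm hl) _ _
      · intro hcon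
        exact absurd (Finset.mem_univ i) hcon
    rw [h2, map_sum, Finset.sum_eq_single r]
    · rw [h1]
    · intro l _ hl
      exact h0 r l (Ne.symm hl) _
    · intro hcon
      exact absurd (Finset.mem_univ r) hcon
  refine quant_sum j π hj hπ h1 h0 hs fun i => ?_
  exact quant_factor (hfac i) (isContraction_conE _)

theorem shiftLifts_classical [IsAlgClosed K] (hθ : IsClassical θ) {k : Type*} [LieRing k]
    [LieAlgebra K k] {e : g ≃ₗ[K] k} (he : IsContraction θ e) (ξ : k →ₗ[K] K)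
    (hξ : IsRegular ξ) : Pool.Agent.helper5.ASQ.ShiftLifts ξ := by
  have hq := quant_classical hθ he
  have : FiniteDimensional K k := Sum_finite_of_lin hq.1
  exact shiftLifts_of_quant hq ξ hξ

end final

end Pool.Agent.helper49.QA
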